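import Pool.Agent.P.MP_f1a348_lc.PG.Iface

namespace Pool.Agent.P.MP_f1a348_lc.PG

open Matrix Module

namespace EBASx

variable {p n : ℕ} {ℓ : Ix n → ℕ} {B : Sub p n}

/-- the elements of `M` that kill `W` -/
def Kl (M : Sub p n) (W : VS p n) : Sub p n where
  carrier := {y | y ∈ M ∧ ∀ w ∈ W, y *ᵥ w = 0}
  add_mem' hx hy := ⟨add_mem hx.1 hy.1, fun w hw => by
    rw [Matrix.add_mulVec, hx.2 w hw, hy.2 w hw, add_zero]⟩
  zero_mem' := ⟨zero_mem _, fun w _ => Matrix.zero_mulVec w⟩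
  smul_mem' c x hx := ⟨Submodule.smul_mem _ c hx.1, fun w hw => by
    rw [Matrix.smul_mulVec, hx.2 w hw, smul_zero]⟩

theorem fix_im {η : Mat p n} (hη : η * η = η) {x : Vec p n} (hx : x ∈ im η) : η *ᵥ x = x := by
  obtain ⟨y, rfl⟩ := mem_im.1 hx
  rw [Matrix.mulVec_mulVec, hη]

theorem crn_mulVec (η c : Mat p n) (a : Ix n) (x : Vec p n) :
    crn ℓ η a c *ᵥ x = η *ᵥ (c *ᵥ (η *ᵥ (pr ℓ a *ᵥ x))) := by
  simp only [crn_apply, Matrix.mulVec_mulVec, mul_assoc]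

variable [Fact p.Prime]

theorem step (h : Str ℓ B) {η : Mat p n} (hB : η ∈ B) (hη : η * η = η) {a : Ix n} {W : VS p n}
    (hW : Stab B W) (hle : W ≤ im η) {x : Vec p n} (hx : x ∈ im η) (hxa : x ∈ Vb ℓ a)
    (hn : x ∉ W) :
    finrank (ZMod p) (Kl (B.map (crn ℓ η a)) W) =
      finrank (ZMod p) (im η ⊓ Vb ℓ a : VS p n) +
        finrank (ZMod p) (Kl (B.map (crn ℓ η a)) (W ⊔ orb (Com B) x)) := by
  set M := B.map (crn ℓ η a)
  let f := (evx x).domRestrict (Kl M W)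
  have h1 : LinearMap.range f = im η ⊓ Vb ℓ a := by
    refine le_antisymm ?_ ?_
    · rintro _ ⟨⟨_, ⟨c, hc, rfl⟩, -⟩, rfl⟩
      change crn ℓ η a c *ᵥ x ∈ _
      rw [crn_mulVec]
      exact ⟨⟨_, rfl⟩, (h.alg.dg η hB).mulVec_mem ((h.alg.dg c hc).mulVec_mem
        ((h.alg.dg η hB).mulVec_mem (pr_mulVec_mem a x)))⟩
    · intro z hz
      obtain ⟨c, hc, e1, e2⟩ := dens h hW hxa hn hz.2
      refine ⟨⟨crn ℓ η a c, ⟨c, hc, rfl⟩, fun w hw => ?_⟩, ?_⟩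
      · have h3 := hW _ (com_pr h.alg a) w hw
        rw [crn_mulVec, fix_im hη (hle h3), e2 _ h3, Matrix.mulVec_zero]
      · change crn ℓ η a c *ᵥ x = z
        rw [crn_mulVec, mem_Vb_iff.1 hxa, fix_im hη hx, e1, fix_im hη hz.1]
  have h2 : Kl M (W ⊔ orb (Com B) x) ≤ Kl M W := fun y hy =>
    ⟨hy.1, fun w hw => hy.2 w (Submodule.mem_sup_left hw)⟩
  have h3 : LinearMap.ker f = (Kl M (W ⊔ orb (Com B) x)).comap (Kl M W).subtype := by
    ext ⟨y, hy⟩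
    constructor
    · intro e
      have e' : y *ᵥ x = 0 := e
      refine ⟨hy.1, fun w hw => ?_⟩
      obtain ⟨u, hu, _, ⟨C, hC, rfl⟩, rfl⟩ := Submodule.mem_sup.1 hw
      obtain ⟨c, hc, rfl⟩ := hy.1
      have hD := (cb_of_com h.alg hC a a).1
      change crn ℓ η a c *ᵥ (u + C *ᵥ x) = 0
      rw [Matrix.mulVec_add, hy.2 u hu, zero_add]
      rw [crn_mulVec, mem_Vb_iff.1 hxa] at e'
      rw [crn_mulVec, ← cb_comp a hxa, ← com_mulVec hD hB, ← com_mulVec hD hc,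
        ← com_mulVec hD hB, e', Matrix.mulVec_zero]
    · intro e
      exact e.2 x (Submodule.mem_sup_right (self_mem_orb x))
  rw [← LinearMap.finrank_range_add_finrank_ker f, h1, h3,
    (Submodule.comapSubtypeEquivOfLe h2).finrank_eq]

theorem main (h : Str ℓ B) {η : Mat p n} (hB : η ∈ B) (hη : η * η = η) (a : Ix n) :
    ∀ (k : ℕ) (W : VS p n), Stab B W → W ≤ im η →
      finrank (ZMod p) (im η ⊓ Vb ℓ a : VS p n) ≤ finrank (ZMod p) (W ⊓ Vb ℓ a : VS p n) + k →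
      finrank (ZMod p) (Kl (B.map (crn ℓ η a)) W) * eb ℓ B a +
        finrank (ZMod p) (W ⊓ Vb ℓ a : VS p n) * finrank (ZMod p) (im η ⊓ Vb ℓ a : VS p n) =
        finrank (ZMod p) (im η ⊓ Vb ℓ a : VS p n) ^ 2 := by
  have base : ∀ W : VS p n, W ≤ im η → im η ⊓ Vb ℓ a ≤ W →
      finrank (ZMod p) (Kl (B.map (crn ℓ η a)) W) * eb ℓ B a +
        finrank (ZMod p) (W ⊓ Vb ℓ a : VS p n) * finrank (ZMod p) (im η ⊓ Vb ℓ a : VS p n) =
        finrank (ZMod p) (im η ⊓ Vb ℓ a : VS p n) ^ 2 := fun W h1 h2 => by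
    have e1 : W ⊓ Vb ℓ a = im η ⊓ Vb ℓ a :=
      le_antisymm (inf_le_inf_right _ h1) (le_inf h2 inf_le_right)
    have e2 : Kl (B.map (crn ℓ η a)) W = ⊥ := by
      rw [eq_bot_iff]
      rintro _ ⟨⟨c, hc, rfl⟩, hy⟩
      refine (Submodule.mem_bot _).2 (mat_ext fun x => ?_)
      have h3 : η *ᵥ (pr ℓ a *ᵥ x) ∈ im η ⊓ Vb ℓ a :=
        ⟨⟨_, rfl⟩, (h.alg.dg η hB).mulVec_mem (pr_mulVec_mem a x)⟩
      have h4 := hy _ (h2 h3)
      rw [crn_mulVec, mem_Vb_iff.1 h3.2, fix_im hη h3.1] at h4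
      rw [crn_mulVec, h4, Matrix.zero_mulVec]
    rw [e1, e2, finrank_bot, zero_mul, zero_add, sq]
  intro k
  induction k with
  | zero =>
    intro W _ h1 h2
    refine base W h1 ?_
    have := Submodule.eq_of_le_of_finrank_le (inf_le_inf_right (Vb ℓ a) h1) h2
    rw [← this]; exact inf_le_left
  | succ k ih =>
    intro W hW h1 h2
    by_cases e : im η ⊓ Vb ℓ a ≤ W
    · exact base W h1 e
    obtain ⟨x, hx, hn⟩ := SetLike.not_le_iff_exists.1 e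
    have h3 := finrank_sup_orb h hW hx.2 hn
    have h4 := eb_pos h.alg a
    have h5 := ih (W ⊔ orb (Com B) x) (hW.sup (stab_orb x))
      (sup_le h1 ((stab_im hB).orb_le hx.1)) (by omega)
    rw [step h hB hη hW h1 hx.1 hx.2 hn, ← h5, h3]
    ring

end EBASx

theorem s_EBAS (p n : ℕ) [Fact p.Prime] (hp : 5 ≤ p) : S_EBAS p n := by
  intro ℓ B η a h hB hη
  have _ := hp
  have h1 := EBASx.main h hB hη a _ ⊥ stab_bot bot_le (Nat.le_add_left _ _)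
  have h2 : EBASx.Kl (B.map (crn ℓ η a)) ⊥ = B.map (crn ℓ η a) :=
    le_antisymm (fun _ hy => hy.1) fun y hy => ⟨hy, fun w hw => by
      rw [(Submodule.mem_bot _).1 hw, Matrix.mulVec_zero]⟩
  rwa [h2, bot_inf_eq, finrank_bot, zero_mul, add_zero] at h1

end Pool.Agent.P.MP_f1a348_lc.PG
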