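import Pool.Agent.P.MP_f1a348_lc.PG.QLift

/-!
Project PG: annihilators, rigidity and primitives of cocycles.
-/

namespace Pool.Agent.P.MP_f1a348_lc.PG

open Matrix Module

variable {p n : ℕ} [Fact p.Prime] {c : Cx} {l : V} {s : Sd}

namespace QAnnx

/-- `lam` as a linear map of the coefficients -/
noncomputable def lc (ℓ : Ix n → ℕ) (L : List (Mat p n)) (t : ℕ) (w : Frm p n) :
    Sq p →ₗ[ZMod p] Frm p n :=
  cmp ℓ t ∘ₗ ∑ x ∈ Finset.range (nc L), (LinearMap.proj x).smulRight (lamX L x w)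

theorem lc_apply (ℓ : Ix n → ℕ) (L : List (Mat p n)) (t : ℕ) (w : Frm p n) (v : Sq p) :
    lc ℓ L t w v = lam ℓ L t v w := by
  simp only [lc, lam, LinearMap.comp_apply, LinearMap.sum_apply, LinearMap.smulRight_apply,
    LinearMap.proj_apply, LinearMap.smul_apply]

theorem lam_congr (ℓ : Ix n → ℕ) (L : List (Mat p n)) (t : ℕ) {v v' : Sq p}
    (e : ∀ x < nc L, v x = v' x) : lam ℓ L t v = lam ℓ L t v' := by
  rw [lam, lam, Finset.sum_congr rfl fun x hx => by rw [e x (Finset.mem_range.1 hx)]]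

theorem len (h : Ok p n c) (s : Sd) : (uN c s).length = nc (CL (sdD p n s)) := by
  rw [length_uN (p := p) (n := n), h.clP]

theorem lamP (h : Ok p n c) (l : V) (s : Sd) (t : ℕ) (cs w : V) :
    fV p n (PG.lamP c l s t cs w) = lam (lab n l) (CL (sdD p n s)) t (tv p cs) (fV p n w) := by
  rw [h.lamP, h.clP]

theorem lam_cf (h : Ok p n c) (l : V) (s : Sd) (t : ℕ) (v : Sq p) :
    lam (lab n l) (CL (sdD p n s)) t (cf p (uN c s).length v) =
      lam (lab n l) (CL (sdD p n s)) t v :=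
  lam_congr _ _ _ fun x hx => by rw [cf_apply, len h, if_pos hx]

theorem ann_iff (h : Ok p n c) (m : Mth p n) (hs : Gd p n l s) (t : ℕ) (v : Sq p) :
    Ann (lab n l) (sdD p n s) t v ↔ ∀ w ∈ spP c l s.1 t,
      lam (lab n l) (CL (sdD p n s)) t v (fV p n w) ∈ Tr (lab n l) (sdD p n s).B := by
  have e : Sp (lab n l) (sdD p n s).T t = sp (frm p n) (spP c l s.1 t) :=
    (h.spP m hs.str.lab s.1 t).symm
  rw [Ann, e]
  refine ⟨fun H w hw => H _ (mem_sp hw), fun H w hw => ?_⟩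
  have : sp (frm p n) (spP c l s.1 t) ≤ (Tr (lab n l) (sdD p n s).B).comap
      (lam (lab n l) (CL (sdD p n s)) t v) := sp_le.2 H
  exact this hw

theorem mem_ann (h : Ok p n c) (m : Mth p n) (hs : Gd p n l s) (t : ℕ) (v : Sq p) :
    cf p (uN c s).length v ∈ sp (cf p (uN c s).length) (annP c l s t) ↔
      Ann (lab n l) (sdD p n s) t v := by
  rw [annP, mem_preAll h.hp h.d3 (dec_cf _) _
    (fun w => lc (lab n l) (CL (sdD p n s)) t (fV p n w)) (fun w _ x => by
      rw [lc_apply, dv, dv, lam_cf h, ← lamP h]; rfl), sp_units h.hp (dec_cf _), h.trL hs,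
    ann_iff h m hs]
  simp only [lc_apply, lam_cf h]
  exact and_iff_right ⟨v, rfl⟩

/-- the linear map whose values have to be traces -/
noncomputable def tf (z : Mat p n) (k : Frm p n) : (ZMod p × Frm p n) →ₗ[ZMod p] Frm p n :=
  (pull1 z - LinearMap.id) ∘ₗ LinearMap.snd _ _ _ - (LinearMap.fst _ _ _).smulRight k

theorem tf_apply (z : Mat p n) (k : Frm p n) (y : ZMod p × Frm p n) :
    tf z k y = pull1 z y.2 - y.2 - y.1 • k := rfl

theorem key (h : Ok p n c) (m : Mth p n) (hs : Gd p n l s) {t : ℕ} {cs : V}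
    (h1 : Ann (lab n l) (sdD p n s) t (tv p cs)) (h2 : AllLift (lab n l) (sdD p n s) t)
    (θ : Frm p n) :
    ((1 : ZMod p), θ) ∈ sp (pl (frm p n)) (preAll c (u3 c) (() :: u3 c)
      ([1] :: (wtP c l t).map fun w => 0 :: w) (testsP c l s) (fun z y => axpy c (u3 c)
        (ng c (y.getD 0 0)) (PG.lamP c l s t cs (kapP c l s.1 t (liftP c l s.1 z t)))
          (dif c y.tail y.tail z)) (trL c s)) ↔ Th (lab n l) (sdD p n s) t (tv p cs) θ := by
  rw [mem_preAll h.hp h.d3 h.d3.pl' _ (fun z => tf (mV p n z) (lam (lab n l) (CL (sdD p n s)) t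
      (tv p cs) (kap (lab n l) (sdD p n s).T t (mV p n (liftP c l s.1 z t))))) (fun z _ y => by
      rw [dv_axpy h.hp h.d3, cast_ng h.hp, tf_apply, dv_pl, neg_smul, neg_add_eq_sub]
      refine congrArg₂ _ (h.dif _ _ _) (congrArg _ ?_)
      show fV p n _ = _
      rw [lamP h, h.kapP]; rfl), mem_sp_one_cons, h.wtP, h.trL hs, Th]
  refine and_congr_right fun _ => ?_
  simp only [tf_apply, one_smul]
  have hl : ∀ z ∈ testsP c l s, Lf (lab n l) (sdD p n s).T (sdD p n s).T t (mV p n z)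
      (mV p n (liftP c l s.1 z t)) := fun z hz =>
    h.liftP m hs.str.lab (h2 _ (h.tests_sound hs hz))
  refine ⟨fun H z g hz hg => ?_, fun H z hz => H _ _ (h.tests_sound hs hz) (hl z hz)⟩
  obtain ⟨x, hx, rfl⟩ := h.tests_complete hs hz
  have k := sub_mem (H x hx) (h1 _ (kap_sub_mem hs.str.lab (hl x hx) hg))
  rw [map_sub] at k
  refine (congrArg (· ∈ Tr (lab n l) (sdD p n s).B) ?_).mp k
  abel

end QAnnx

protected theorem Ok.annP (h : Ok p n c) (m : Mth p n) (hs : Gd p n l s) :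
    Spn (lab n l) (sdD p n s) (csS p c l s) := by
  refine ⟨fun t v hv => ?_, fun t v hv => ?_⟩
  · obtain ⟨x, hx, rfl⟩ := hv
    exact (QAnnx.mem_ann h m hs t _).1 (mem_sp hx)
  · have k := (QAnnx.mem_ann h m hs t v).2 hv
    have e : sp (cf p (uN c s).length) (PG.annP c l s t) =
        (Submodule.span (ZMod p) (csS p c l s t)).map (cf p (uN c s).length) := by
      rw [sp_eq_span, Submodule.map_span]
      refine congrArg _ (Set.ext fun y => ⟨?_, ?_⟩)
      · rintro ⟨x, hx, rfl⟩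
        exact ⟨_, ⟨x, hx, rfl⟩, rfl⟩
      · rintro ⟨_, ⟨x, hx, rfl⟩, rfl⟩
        exact ⟨x, hx, rfl⟩
    rw [e] at k
    obtain ⟨v', hv', e'⟩ := k
    refine ⟨v', hv', fun x hx => ?_⟩
    exact (((dec_cf _).eq_iff.1 e') x (by rw [QAnnx.len h]; exact hx)).symm

protected theorem Ok.annOK (h : Ok p n c) (m : Mth p n) (hs : Gd p n l s) (t : ℕ) (cs : V) :
    annOK c l s t cs = true ↔ Ann (lab n l) (sdD p n s) t (tv p cs) := by
  rw [PG.annOK, List.all_eq_true, QAnnx.ann_iff h m hs]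
  refine forall_congr' fun w => imp_congr_right fun _ => ?_
  rw [mem_iff h.hp h.d3, h.trL hs, ← QAnnx.lamP h]

protected theorem Ok.rigP (h : Ok p n c) (hs : Gd p n l s) (t : ℕ) :
    rigP c l s t = true ↔ Rig (lab n l) (sdD p n s).B t := by
  have k := mem_preAll h.hp h.d3 h.d3 (wtP c l t) (ts := testsP c l s)
    (f := fun z θ => dif c θ θ z) (fun z => pull1 (mV p n z) - LinearMap.id)
    (fun z _ x => h.dif _ _ _) (trL c s)
  rw [PG.rigP, List.all_eq_true, Rig]
  simp only [mem_iff h.hp h.d3]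
  rw [← sp_le, h.trL hs]
  rw [h.wtP, h.trL hs] at k
  constructor
  · intro H θ h1 h2
    exact H ((k θ).2 ⟨h1, fun z hz => h2 _ (h.tests_sound hs hz)⟩)
  · intro H θ hθ
    obtain ⟨h1, h2⟩ := (k θ).1 hθ
    refine H θ h1 fun z hz => ?_
    obtain ⟨x, hx, rfl⟩ := h.tests_complete hs hz
    exact h2 x hx

protected theorem Ok.thP_isSome (h : Ok p n c) (m : Mth p n) (hs : Gd p n l s) {t : ℕ} {cs : V}
    (h1 : Ann (lab n l) (sdD p n s) t (tv p cs)) (h2 : AllLift (lab n l) (sdD p n s) t) :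
    (thP c l s t cs).isSome = true ↔ ∃ θ, Th (lab n l) (sdD p n s) t (tv p cs) θ := by
  rw [thP, aff_isSome h.hp h.d3]
  exact exists_congr (QAnnx.key h m hs h1 h2)

protected theorem Ok.thP_th (h : Ok p n c) (m : Mth p n) (hs : Gd p n l s) {t : ℕ} {cs : V}
    (h1 : Ann (lab n l) (sdD p n s) t (tv p cs)) (h2 : AllLift (lab n l) (sdD p n s) t)
    (h3 : ∃ θ, Th (lab n l) (sdD p n s) t (tv p cs) θ) :
    Th (lab n l) (sdD p n s) t (tv p cs) (fV p n ((thP c l s t cs).getD [])) := by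
  obtain ⟨θ, hθ⟩ := h3
  exact (QAnnx.key h m hs h1 h2 _).1 (aff_getD h.hp h.d3 ((QAnnx.key h m hs h1 h2 θ).2 hθ))

end Pool.Agent.P.MP_f1a348_lc.PG
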