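import Pool.Agent.P.MP_f1a348_lc.PG.PDefs

/-!
Project PG: the linear algebra routines are correct.
-/

namespace Pool.Agent.P.MP_f1a348_lc.PG

open Matrix Module

variable {p : ℕ} [Fact p.Prime] {c : Cx} {X Y : Type} [AddCommGroup X] [Module (ZMod p) X]
  [AddCommGroup Y] [Module (ZMod p) Y] {δ : Dcd p X} {ε : Dcd p Y} {u w : U}

theorem lam_x {d i : ℕ} (hδ : Dec δ d) (hi : i < d) :
    ∃ l : X →ₗ[ZMod p] ZMod p, ∀ v, l (δ v) = v i := by
  have h1 : (LinearMap.proj i : Sq p →ₗ[ZMod p] ZMod p) ∈ LinearMap.range δ.dualMap := by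
    rw [LinearMap.range_dualMap_eq_dualAnnihilator_ker, Submodule.mem_dualAnnihilator]
    intro v hv
    exact (hδ v).1 hv i hi
  obtain ⟨l, hl⟩ := h1
  exact ⟨l, fun v => LinearMap.congr_fun hl v⟩

theorem fin_sp_x (δ : Dcd p X) (L : List V) : Module.Finite (ZMod p) (sp δ L) := by
  rw [sp_eq_span]
  exact Module.Finite.span_of_finite _ ((List.finite_toSet L).image _)

theorem sp_range_x {L : List V} {y : X} (hy : y ∈ sp δ L) : ∃ v, δ v = y :=
  (sp_le (W := LinearMap.range δ)).2 (fun x _ => ⟨tv p x, rfl⟩) hy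

theorem piv_sup_x {W : Submodule (ZMod p) X} {l : X →ₗ[ZMod p] ZMod p} {x : X} (hx : x ∈ W)
    (h0 : l x ≠ 0) : W ⊓ LinearMap.ker l ⊔ Submodule.span (ZMod p) {x} = W := by
  refine le_antisymm (sup_le inf_le_left ((Submodule.span_singleton_le_iff_mem _ _).2 hx))
    fun y hy => ?_
  refine Submodule.mem_sup.2 ⟨y - (l y * (l x)⁻¹) • x, ⟨W.sub_mem hy (W.smul_mem _ hx), ?_⟩,
    (l y * (l x)⁻¹) • x, Submodule.smul_mem _ _ (Submodule.mem_span_singleton_self _),
    sub_add_cancel _ _⟩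
  show l _ = 0
  rw [map_sub, map_smul, smul_eq_mul, mul_assoc, inv_mul_cancel₀ h0, mul_one, sub_self]

theorem rank_sup_x {W : Submodule (ZMod p) X} [Module.Finite (ZMod p) W] {x : X} (hx : x ∉ W) :
    finrank (ZMod p) (W ⊔ Submodule.span (ZMod p) {x} : Submodule (ZMod p) X) =
      finrank (ZMod p) W + 1 := by
  have h0 : x ≠ 0 := fun e => hx (e ▸ W.zero_mem)
  have h1 := Submodule.finrank_sup_add_finrank_inf_eq W (Submodule.span (ZMod p) {x})
  rw [disjoint_iff.1 ((Submodule.disjoint_span_singleton' h0).2 hx), finrank_bot,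
    finrank_span_singleton h0] at h1
  exact h1

theorem elim1_x (h : pp c = p) (hδ : Dec δ w.length) (L : List V) {i : ℕ}
    {l : X →ₗ[ZMod p] ZMod p} (hl : ∀ v, l (δ v) = v i) :
    sp δ (elim1 c w L i) = sp δ L ⊓ LinearMap.ker l := by
  rw [elim1]
  cases e : L.find? fun x => nz c x i with
  | none =>
    refine (inf_eq_left.2 (sp_le.2 fun x hx => ?_)).symm
    have := List.find?_eq_none.1 e x hx
    rw [Bool.not_eq_true, nz_false h] at this
    exact (hl _).trans this
  | some x =>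
    have hx : x ∈ L := List.mem_of_find?_eq_some e
    have h0 : l (dv δ x) ≠ 0 := by
      rw [dv, hl]; exact (nz_iff h x i).1 (List.find?_some (p := fun x => nz c x i) e)
    rw [Option.elim_some, sp_map (δ := δ) (LinearMap.id - l.smulRight ((l (dv δ x))⁻¹ • dv δ x))]
    · ext y
      simp only [Submodule.mem_map, LinearMap.sub_apply, LinearMap.id_apply,
        LinearMap.smulRight_apply, Submodule.mem_inf, LinearMap.mem_ker]
      constructor
      · rintro ⟨z, hz, rfl⟩
        refine ⟨Submodule.sub_mem _ hz (Submodule.smul_mem _ _ (Submodule.smul_mem _ _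
          (mem_sp hx))), ?_⟩
        rw [map_sub, map_smul, map_smul, smul_eq_mul, smul_eq_mul, inv_mul_cancel₀ h0, mul_one,
          sub_self]
      · rintro ⟨h1, h2⟩
        exact ⟨y, h1, by rw [h2, zero_smul, sub_zero]⟩
    · intro y _
      rw [dv_axpy h hδ, cast_ng h, Nat.cast_mul, cast_inv h, LinearMap.sub_apply,
        LinearMap.id_apply, LinearMap.smulRight_apply, smul_smul, neg_smul, neg_add_eq_sub,
        dv, dv, hl, hl]
      rfl

theorem mem_elim_x (h : pp c = p) (hδ : Dec δ w.length) (L : List V) {n : ℕ} (hn : n ≤ w.length)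
    (y : X) : y ∈ sp δ ((List.range n).foldl (elim1 c w) L) ↔
      y ∈ sp δ L ∧ ∃ v, δ v = y ∧ ∀ j < n, v j = 0 := by
  induction n with
  | zero =>
    refine ⟨fun hy => ⟨hy, ?_⟩, fun hy => hy.1⟩
    obtain ⟨v, hv⟩ := sp_range_x hy
    exact ⟨v, hv, fun j hj => absurd hj (Nat.not_lt_zero _)⟩
  | succ n ih =>
    obtain ⟨l, hl⟩ := lam_x hδ (show n < w.length from hn)
    rw [List.range_succ, List.foldl_append, List.foldl_cons, List.foldl_nil, elim1_x h hδ _ hl,
      Submodule.mem_inf, ih (by omega), LinearMap.mem_ker]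
    constructor
    · rintro ⟨⟨h1, v, rfl, hv⟩, h2⟩
      refine ⟨h1, v, rfl, fun j hj => ?_⟩
      rcases Nat.lt_succ_iff_lt_or_eq.1 hj with e | rfl
      · exact hv j e
      · exact (hl v).symm.trans h2
    · rintro ⟨h1, v, rfl, hv⟩
      exact ⟨⟨h1, v, rfl, fun j hj => hv j (by omega)⟩, (hl v).trans (hv n (by omega))⟩

theorem basis_snd_x (c : Cx) (w : U) (I : List ℕ) (s : List V × List V) :
    (I.foldl (basis1 c w) s).2 = I.foldl (elim1 c w) s.2 := by
  induction I generalizing s with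
  | nil => rfl
  | cons i I ih => rw [List.foldl_cons, List.foldl_cons, ih]; rfl

theorem basis1_x (h : pp c = p) (hδ : Dec δ w.length) (s : List V × List V) {i : ℕ}
    (hi : i < w.length) :
    sp δ (basis1 c w s i).1 ⊔ sp δ (basis1 c w s i).2 = sp δ s.1 ⊔ sp δ s.2 ∧
    (basis1 c w s i).1.length + finrank (ZMod p) (sp δ (basis1 c w s i).2) =
      s.1.length + finrank (ZMod p) (sp δ s.2) := by
  obtain ⟨l, hl⟩ := lam_x hδ hi
  cases e : s.2.find? fun x => nz c x i with
  | none =>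
    have e1 : basis1 c w s i = s := by simp [basis1, elim1, e]
    rw [e1]
    exact ⟨rfl, rfl⟩
  | some x =>
    have hx : x ∈ s.2 := List.mem_of_find?_eq_some e
    have h0 : l (dv δ x) ≠ 0 := by
      rw [dv, hl]; exact (nz_iff h x i).1 (List.find?_some (p := fun x => nz c x i) e)
    have h1 := piv_sup_x (mem_sp hx) h0
    have e1 : (basis1 c w s i).1 = nv c w x :: s.1 := by simp [basis1, e]
    have e2 : sp δ (basis1 c w s i).2 = sp δ s.2 ⊓ LinearMap.ker l := elim1_x h hδ _ hl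
    rw [e1, e2, sp_cons, dv_nv h hδ]
    constructor
    · rw [sup_comm (Submodule.span _ _), sup_assoc, sup_comm (Submodule.span _ _), h1]
    · have := fin_sp_x δ s.2
      have : Module.Finite (ZMod p) (sp δ s.2 ⊓ LinearMap.ker l : Submodule (ZMod p) X) :=
        Submodule.finiteDimensional_inf_left _ _
      have h2 := rank_sup_x (W := sp δ s.2 ⊓ LinearMap.ker l) (x := dv δ x) fun h => h0 h.2
      rw [h1] at h2
      rw [h2, List.length_cons]; omega

theorem basis_inv_x (h : pp c = p) (hδ : Dec δ w.length) (I : List ℕ) (hI : ∀ i ∈ I, i < w.length)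
    (s : List V × List V) (hs : ∀ x ∈ s.1, x.length = w.length) :
    sp δ (I.foldl (basis1 c w) s).1 ⊔ sp δ (I.foldl (basis1 c w) s).2 = sp δ s.1 ⊔ sp δ s.2 ∧
    (I.foldl (basis1 c w) s).1.length + finrank (ZMod p) (sp δ (I.foldl (basis1 c w) s).2) =
      s.1.length + finrank (ZMod p) (sp δ s.2) ∧
    ∀ x ∈ (I.foldl (basis1 c w) s).1, x.length = w.length := by
  induction I generalizing s with
  | nil => exact ⟨rfl, rfl, hs⟩
  | cons i I ih =>
    obtain ⟨h1, h2⟩ := basis1_x h hδ s (hI i List.mem_cons_self)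
    obtain ⟨h3, h4, h5⟩ := ih (fun j hj => hI j (List.mem_cons_of_mem _ hj)) (basis1 c w s i)
      fun x hx => by
        rcases List.mem_append.1 hx with e | e
        · obtain ⟨y, -, rfl⟩ := List.mem_map.1 e
          exact length_nv ..
        · exact hs x e
    exact ⟨h3.trans h1, h4.trans h2, h5⟩

theorem basis_bas (h : pp c = p) (hδ : Dec δ w.length) (L : List V) :
    Bas δ w.length (basis c w L) (sp δ L) := by
  obtain ⟨h1, h2, h3⟩ := basis_inv_x h hδ (ran w) (fun i hi => mem_ran.1 hi) ([], L) (by simp)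
  have h0 : sp δ ((ran w).foldl (basis1 c w) ([], L)).2 = ⊥ := by
    rw [basis_snd_x, ran_eq, Submodule.eq_bot_iff]
    intro y hy
    obtain ⟨-, v, rfl, hv⟩ := (mem_elim_x h hδ L le_rfl y).1 hy
    exact (hδ v).2 hv
  rw [h0] at h1 h2
  exact ⟨by simpa [basis] using h1, by simpa [basis] using h2, h3⟩

theorem rk_eq (h : pp c = p) (hδ : Dec δ w.length) (L : List V) :
    rk c w L = finrank (ZMod p) (sp δ L) := (basis_bas h hδ L).len

theorem mem_iff (h : pp c = p) (hδ : Dec δ w.length) (L : List V) (x : V) :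
    mem c w L x = true ↔ dv δ x ∈ sp δ L := by
  have := fin_sp_x δ L
  rw [mem, beq_iff_eq, rk_eq h hδ, rk_eq h hδ, sp_cons, sup_comm]
  constructor
  · intro e
    by_contra h0
    rw [rank_sup_x h0] at e
    omega
  · intro e
    rw [sup_eq_left.2 ((Submodule.span_singleton_le_iff_mem _ _).2 e)]

theorem Bas.isEmpty {d : ℕ} {L : List V} {W : Submodule (ZMod p) X} (h : Bas δ d L W) :
    L.isEmpty = true ↔ W = ⊥ := by
  rw [List.isEmpty_iff]
  constructor
  · rintro rfl
    rw [← h.sp, sp_nil]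
  · rintro rfl
    exact List.length_eq_zero_iff.1 (h.len.trans (finrank_bot _ _))

theorem dec_join_x (hε : Dec ε u.length) (hδ : Dec δ w.length) :
    Dec (ε.prod (δ ∘ₗ shf p u.length)) (u ++ w).length := fun v => by
  show (ε v, δ (shf p u.length v)) = 0 ↔ _
  rw [Prod.mk_eq_zero, hε, hδ, List.length_append]
  refine ⟨fun h i hi => ?_, fun h => ⟨fun i hi => h i (by omega), fun i hi => h _ (by omega)⟩⟩
  by_cases e : i < u.length
  · exact h.1 i e
  · have := h.2 (i - u.length) (by omega)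
    rwa [shf_apply, Nat.add_sub_cancel' (by omega)] at this

theorem dv_join_x (k : ℕ) (x : V) :
    dv (ε.prod (δ ∘ₗ shf p k)) x = (dv ε x, dv δ (x.drop k)) := by
  rw [dv, dv, dv, tv_drop]; rfl

theorem preim_bas (h : pp c = p) (hε : Dec ε u.length) (hδ : Dec δ w.length) {L : List V}
    {f : V → V} (F : X →ₗ[ZMod p] Y) (hf : ∀ x ∈ L, dv ε (f x) = F (dv δ x)) (S : List V) :
    Bas δ w.length (preim c u w L f S) (sp δ L ⊓ (sp ε S).comap F) := by
  have hγ := dec_join_x hε hδ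
  have e1 : sp (ε.prod (δ ∘ₗ shf p u.length)) (L.map fun x => nv c u (f x) ++ x) =
      (sp δ L).map (F.prod LinearMap.id) := sp_map _ fun x hx => by
    rw [dv_join_x, List.drop_left' (length_nv ..), dv_append_left hε _ (length_nv ..).ge,
      dv_nv h hε, hf x hx]
    rfl
  have e2 : sp (ε.prod (δ ∘ₗ shf p u.length)) (S.map (nv c u)) =
      (sp ε S).map (LinearMap.inl _ _ _) := sp_map _ fun x _ => by
    rw [dv_join_x, List.drop_of_length_le (length_nv ..).le, dv_nv h hε, dv_nil]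
    rfl
  have e3 : sp δ ((elim c u (u ++ w) (L.map (fun x => nv c u (f x) ++ x) ++ S.map (nv c u))).map
      fun x => x.drop u.length) = sp δ L ⊓ (sp ε S).comap F := by
    rw [sp_map (δ := ε.prod (δ ∘ₗ shf p u.length)) (LinearMap.snd _ _ _)
      fun x _ => by rw [dv_join_x]; rfl]
    ext y
    simp only [Submodule.mem_map, elim, ran_eq, Submodule.mem_inf, Submodule.mem_comap,
      mem_elim_x h hγ _ (show u.length ≤ (u ++ w).length by simp), sp_append, e1, e2,
      Submodule.mem_sup]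
    constructor
    · rintro ⟨z, ⟨⟨_, ⟨a, ha, rfl⟩, _, ⟨b, hb, rfl⟩, rfl⟩, v, hv, h0⟩, rfl⟩
      have h1 : F a + b = 0 := (congrArg Prod.fst hv).symm.trans ((hε v).2 h0)
      have h2 : (LinearMap.snd (ZMod p) Y X) ((F.prod LinearMap.id) a +
        (LinearMap.inl (ZMod p) Y X) b) = a := add_zero a
      rw [h2, eq_neg_of_add_eq_zero_left h1]
      exact ⟨ha, Submodule.neg_mem _ hb⟩
    · rintro ⟨h1, h2⟩
      obtain ⟨v, hv⟩ := sp_range_x h1
      refine ⟨(0, y), ⟨⟨_, ⟨y, h1, rfl⟩, _, ⟨-F y, Submodule.neg_mem _ h2, rfl⟩,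
        Prod.ext (add_neg_cancel _) (add_zero _)⟩,
        fun i => if i < u.length then 0 else v (i - u.length), Prod.ext ?_ ?_,
        fun j hj => if_pos hj⟩, rfl⟩
      · exact (hε _).2 fun j hj => if_pos hj
      · rw [← hv]
        exact congrArg δ (funext fun i => by simp [shf])
  rw [← e3]
  exact basis_bas h hδ _

theorem mem_preim (h : pp c = p) (hε : Dec ε u.length) (hδ : Dec δ w.length) {L : List V}
    {f : V → V} (F : X →ₗ[ZMod p] Y) (hf : ∀ x ∈ L, dv ε (f x) = F (dv δ x)) (S : List V)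
    (y : X) : y ∈ sp δ (preim c u w L f S) ↔ y ∈ sp δ L ∧ F y ∈ sp ε S := by
  rw [(preim_bas h hε hδ F hf S).sp]; rfl

theorem preAll_x (h : pp c = p) (hε : Dec ε u.length) (hδ : Dec δ w.length)
    {ts : List V} {f : V → V → V} (F : V → X →ₗ[ZMod p] Y)
    (hf : ∀ t ∈ ts, ∀ x, dv ε (f t x) = F t (dv δ x)) (S : List V) {K : List V}
    {W : Submodule (ZMod p) X} (hK : Bas δ w.length K W) :
    Bas δ w.length (ts.foldl (fun K t => preim c u w K (f t) S) K)
      (W ⊓ ⨅ t ∈ ts, (sp ε S).comap (F t)) := by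
  induction ts generalizing K W with
  | nil => simpa using hK
  | cons t ts ih =>
    have h1 := ih (fun s hs => hf s (List.mem_cons_of_mem _ hs))
      (preim_bas h hε hδ (L := K) (F t) (fun x _ => hf t List.mem_cons_self x) S)
    have e : W ⊓ ⨅ s ∈ t :: ts, (sp ε S).comap (F s) =
        (sp δ K ⊓ (sp ε S).comap (F t)) ⊓ ⨅ s ∈ ts, (sp ε S).comap (F s) := by
      ext y
      simp only [hK.sp, Submodule.mem_inf, Submodule.mem_iInf, List.forall_mem_cons, and_assoc]
    rw [e]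
    exact h1

theorem preAll_bas (h : pp c = p) (hε : Dec ε u.length) (hδ : Dec δ w.length) (L : List V)
    {ts : List V} {f : V → V → V} (F : V → X →ₗ[ZMod p] Y)
    (hf : ∀ t ∈ ts, ∀ x, dv ε (f t x) = F t (dv δ x)) (S : List V) :
    Bas δ w.length (preAll c u w L ts f S) (sp δ L ⊓ ⨅ t ∈ ts, (sp ε S).comap (F t)) :=
  preAll_x h hε hδ F hf S (basis_bas h hδ L)

theorem mem_preAll (h : pp c = p) (hε : Dec ε u.length) (hδ : Dec δ w.length) (L : List V)
    {ts : List V} {f : V → V → V} (F : V → X →ₗ[ZMod p] Y)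
    (hf : ∀ t ∈ ts, ∀ x, dv ε (f t x) = F t (dv δ x)) (S : List V) (y : X) :
    y ∈ sp δ (preAll c u w L ts f S) ↔ y ∈ sp δ L ∧ ∀ t ∈ ts, F t y ∈ sp ε S := by
  rw [(preAll_bas h hε hδ L F hf S).sp]
  simp only [Submodule.mem_inf, Submodule.mem_iInf, Submodule.mem_comap]

theorem aff_some (h : pp c = p) (hδ : Dec δ w.length) {L : List V} {x : V}
    (e : aff c w L = some x) : ((1 : ZMod p), dv δ x) ∈ sp (pl δ) L := by
  rw [aff, Option.map_eq_some_iff] at e
  obtain ⟨z, hz, rfl⟩ := e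
  have h0 : ((z.getD 0 0 : ℕ) : ZMod p) ≠ 0 :=
    (nz_iff h z 0).1 (List.find?_some (p := fun x => nz c x 0) hz)
  have h1 := Submodule.smul_mem _ ((z.getD 0 0 : ℕ) : ZMod p)⁻¹
    (mem_sp (δ := pl δ) (List.mem_of_find?_eq_some hz))
  rw [dv_pl, Prod.smul_mk, smul_eq_mul, inv_mul_cancel₀ h0, dv, ← map_smul, tv_tail] at h1
  rw [dv_tab h hδ]
  convert h1 using 3
  funext i
  rw [Nat.cast_mul, cast_inv h, mul_comm, Pi.smul_apply, shf_apply, Nat.add_comm 1, smul_eq_mul]
  rfl

theorem aff_isSome (h : pp c = p) (hδ : Dec δ w.length) (L : List V) :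
    (aff c w L).isSome = true ↔ ∃ y, ((1 : ZMod p), y) ∈ sp (pl δ) L := by
  constructor
  · intro e
    obtain ⟨x, hx⟩ := Option.isSome_iff_exists.1 e
    exact ⟨_, aff_some h hδ hx⟩
  · rintro ⟨y, hy⟩
    rw [aff, Option.isSome_map, List.find?_isSome]
    by_contra h0
    have h1 : sp (pl δ) L ≤ LinearMap.ker (LinearMap.fst _ _ _) := sp_le.2 fun x hx => by
      rw [dv_pl]
      exact (nz_false h x 0).1 (Bool.eq_false_iff.2 fun e => h0 ⟨x, hx, e⟩)
    exact one_ne_zero (α := ZMod p) (h1 hy)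

theorem aff_getD (h : pp c = p) (hδ : Dec δ w.length) {L : List V} {y : X}
    (hy : ((1 : ZMod p), y) ∈ sp (pl δ) L) :
    ((1 : ZMod p), dv δ ((aff c w L).getD [])) ∈ sp (pl δ) L := by
  obtain ⟨x, hx⟩ := Option.isSome_iff_exists.1 ((aff_isSome h hδ L).2 ⟨y, hy⟩)
  rw [hx, Option.getD_some]
  exact aff_some h hδ hx

theorem mem_aff_x (x : V) (L : List V) (y : ZMod p × X) :
    y ∈ sp (pl δ) ((1 :: x) :: L.map fun z => 0 :: z) ↔ y.2 - y.1 • dv δ x ∈ sp δ L := by
  rw [sp_cons, sp_map (δ := δ) (LinearMap.inr _ _ _) fun z _ => by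
    rw [dv_pl_cons, Nat.cast_zero]; rfl, dv_pl_cons, Nat.cast_one]
  simp only [Submodule.mem_sup, Submodule.mem_span_singleton, Submodule.mem_map]
  constructor
  · rintro ⟨_, ⟨a, rfl⟩, _, ⟨z, hz, rfl⟩, rfl⟩
    simpa using hz
  · intro hy
    exact ⟨_, ⟨y.1, rfl⟩, _, ⟨_, hy, rfl⟩, Prod.ext (by simp) (by simp)⟩

theorem mem_sp_one_cons (L : List V) (y : ZMod p × X) :
    y ∈ sp (pl δ) ([1] :: L.map fun x => 0 :: x) ↔ y.2 ∈ sp δ L := by
  rw [mem_aff_x, dv_nil, smul_zero, sub_zero]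

theorem mem_sp_aff (x : V) (L : List V) (y : ZMod p × X) :
    y ∈ sp (pl δ) ((1 :: x) :: L.map fun z => 0 :: z) ↔ y.2 - y.1 • dv δ x ∈ sp δ L :=
  mem_aff_x x L y

end Pool.Agent.P.MP_f1a348_lc.PG
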