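import Pool.Agent.P.MP_f1a348_lc.PG.Iface

/-!
Project PG: maps that respect a subspace of a block are triangular for the cut labelling.
-/

namespace Pool.Agent.P.MP_f1a348_lc.PG

open Matrix Module

namespace SPLx

variable {p n : ℕ} [Fact p.Prime] {ℓ : Ix n → ℕ} {α : Ix n}

theorem bound (h : Lab ℓ) (α : Ix n) : ℓ α + nb ℓ α ≤ 2 * n + 1 := by
  have h1 : (Finset.univ.filter fun γ => ℓ γ = ℓ α).image Fin.val ⊆
      Finset.Ico (ℓ α) (2 * n + 1) := by
    intro x hx
    obtain ⟨γ, hγ, rfl⟩ := Finset.mem_image.1 hx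
    simp only [Finset.mem_filter, Finset.mem_univ, true_and] at hγ
    exact Finset.mem_Ico.2 ⟨hγ ▸ h.le γ, γ.2⟩
  have h2 := Finset.card_le_card h1
  rw [Finset.card_image_of_injective _ Fin.val_injective, Nat.card_Ico] at h2
  have h3 := h.lt α
  unfold nb
  omega

theorem col (g : Mat p n) (β : Ix n) : g *ᵥ Pi.single β 1 = fun γ => g γ β := by
  funext γ
  simp

theorem coord (h : Lab ℓ) {W : VS p n} {g : Mat p n} (hm : finrank (ZMod p) W < nb ℓ α)
    (hg : Ad ℓ α W g) {w : Vec p n} (hw : w ∈ W) {γ : Ix n}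
    (hγ : ℓ α + finrank (ZMod p) W ≤ γ.val) : (st g *ᵥ w) γ = 0 := by
  have hb := bound h α
  have hu : Un g := hg.par.2.1
  let ι : Fin (finrank (ZMod p) W) → Ix n := fun i => ⟨ℓ α + i.val, by have := i.2; omega⟩
  have hι : Function.Injective ι := fun i j e => Fin.ext (by
    have := congrArg Fin.val e
    simpa [ι] using this)
  have hk : LinearMap.ker g.mulVecLin = ⊥ := LinearMap.ker_eq_bot'.2 fun x hx => by
    rw [← hu.st_mulVec x, show g *ᵥ x = 0 from hx, Matrix.mulVec_zero]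
  have hli := ((Pi.basisFun (ZMod p) (Ix n)).linearIndependent.comp ι hι).map' g.mulVecLin hk
  have hle : Submodule.span (ZMod p)
      (Set.range (g.mulVecLin ∘ (Pi.basisFun (ZMod p) (Ix n)) ∘ ι)) ≤ W := by
    rw [Submodule.span_le]
    rintro _ ⟨i, rfl⟩
    have hi := i.2
    have := hg.col (ι i) ((h.block α _).2 ⟨by simp [ι], by simp only [ι]; omega⟩)
      (by simp only [ι]; omega)
    rw [← col] at this
    simpa using this
  have heq := Submodule.eq_of_le_of_finrank_eq hle (by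
    rw [finrank_span_eq_card hli, Fintype.card_fin])
  rw [← heq] at hw
  induction hw using Submodule.span_induction with
  | mem x hx =>
    obtain ⟨i, rfl⟩ := hx
    have hi := i.2
    have e : (g.mulVecLin ∘ (Pi.basisFun (ZMod p) (Ix n)) ∘ ι) i = g *ᵥ Pi.single (ι i) 1 := by
      simp
    rw [e, hu.st_mulVec]
    exact Pi.single_eq_of_ne (fun e' => by
      have := congrArg Fin.val e'
      simp only [ι] at this
      omega) _
  | zero => simp
  | add x y _ _ hx hy => rw [Matrix.mulVec_add, Pi.add_apply, hx, hy, add_zero]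
  | smul c x _ hx => rw [Matrix.mulVec_smul, Pi.smul_apply, hx, smul_zero]

theorem entry (h : Lab ℓ) {W W' : VS p n} {g g' f : Mat p n} {m : ℕ} (hm : m < nb ℓ α)
    (e : finrank (ZMod p) W = m) (e' : finrank (ZMod p) W' = m) (hg : Ad ℓ α W g)
    (hg' : Ad ℓ α W' g') (hf : ∀ w ∈ W, f *ᵥ w ∈ W') {β γ : Ix n} (hβ : ℓ β = ℓ α)
    (h0 : (st g' * f * g) γ β ≠ 0) (hγ : ℓ α + m ≤ γ.val) : ℓ α + m ≤ β.val := by
  by_contra hc
  have h1 := hf _ (hg.col β hβ (by omega))
  have h2 := coord h (by omega) hg' h1 (γ := γ) (by omega)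
  rw [← col, Matrix.mulVec_mulVec, Matrix.mulVec_mulVec, col] at h2
  exact h0 h2

end SPLx

open SPLx in
theorem s_SPL (p n : ℕ) [Fact p.Prime] (hp : 5 ≤ p) (hCUT : S_CUT n) : S_SPL p n := by
  intro ℓ α W W' g g' f h hα _ _ h0 hm e hg hg' hf h1 h2
  obtain ⟨c1, -, -, -, c2⟩ := hCUT ℓ α _ h hα h0 hm
  have hd : Dg ℓ (st g' * f * g) := ((hg'.dg.st h).mul hf).mul hg.dg
  intro γ β hx
  refine ⟨?_, (hd.tri h γ β hx).2⟩
  have e1 := hd γ β hx
  by_cases e2 : ℓ γ = ℓ α.rev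
  · have e3 : ℓ β.rev = ℓ α := h.rev_eq'.2 (e1 ▸ e2)
    have e4 : ℓ γ.rev = ℓ α := h.rev_eq'.2 e2
    have e5 : (st g * st f * g') β.rev γ.rev ≠ 0 := by
      have : st g * st f * g' = st (st g' * f * g) := by
        rw [st_mul, st_mul, st_st, mul_assoc]
      rw [this, st_apply, Fin.rev_rev, Fin.rev_rev]
      exact hx
    refine c1.rev_le.1 (c2 _ _ (e3.trans e4.symm) (fun e6 => ?_) fun _ h3 =>
      entry h hm e rfl hg' hg h2 e4 e5 h3)
    have h4 := (h.c0_lt (e3.symm.trans e6)).1 hα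
    exact absurd (c0_lt_rev.1 h4) (not_lt.2 hα.le)
  · exact c2 _ _ e1 e2 fun e3 h3 => entry h hm rfl e hg hg' h1 (e1 ▸ e3) hx h3

end Pool.Agent.P.MP_f1a348_lc.PG
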