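import Pool.Agent.P.MP_f1a348_lc.PG.Prog

/-!
Project PG: the program runs in polynomial time.
-/

namespace Pool.Agent.P.MP_f1a348_lc.PG

open Pool.Agent.Lib.Helper47
open Pool.Agent.P.MP_f1a348_lc.GI (ps_len)

variable {α : Type} [Enc α]

section folds
variable {β σ : Type} [Enc β] [Enc σ]

theorem foldl_cnt {f : α → σ → β → σ} {l : α → List β} {s : α → σ}
    (hf : PT (fun p : α × σ × β => f p.1 p.2.1 p.2.2)) (hl : PT l) (hs : PT s)
    (J : α → ℕ → σ → Prop) (h0 : ∀ a, J a 0 (s a))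
    (hstep : ∀ a n t x, x ∈ l a → J a n t → J a (n + 1) (f a t x)) (B : α → ℕ) (hB : PS B)
    (hsz : ∀ a n t, n ≤ (l a).length → J a n t → size t ≤ B a) :
    PT (fun a => (l a).foldl (f a) (s a)) := by
  refine PT.foldl hf hl hs B hB (fun a u hu => hsz a u.length _ hu.length_le ?_)
  have hsub : ∀ x ∈ u, x ∈ l a := fun x hx => hu.subset hx
  clear hu
  induction u using List.reverseRecOn with
  | nil => exact h0 a
  | append_singleton u x ih =>
    rw [List.foldl_append, List.foldl_cons, List.foldl_nil, List.length_append,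
      List.length_singleton]
    exact hstep a _ _ x (hsub x (by simp)) (ih fun y hy => hsub y (by simp [hy]))

theorem foldl_ia {f : α → σ → β → σ} {l : α → List β} {s : α → σ}
    (hf : PT (fun p : α × σ × β => f p.1 p.2.1 p.2.2)) (hl : PT l) (hs : PT s)
    (I : α → σ → Prop) (h0 : ∀ a, I a (s a)) (G : α → ℕ) (hG : PS G)
    (hstep : ∀ a t x, I a t → I a (f a t x) ∧ size (f a t x) ≤ size t + G a) :
    PT (fun a => (l a).foldl (f a) (s a)) := by
  refine foldl_cnt hf hl hs (fun a n t => I a t ∧ size t ≤ size (s a) + n * G a)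
    (fun a => ⟨h0 a, by simp⟩) (fun a n t x _ h => ⟨(hstep a t x h.1).1, ?_⟩)
    (fun a => size (s a) + (l a).length * G a) (hs.size_le.add ((ps_len hl).mul hG))
    (fun a n t hn h => h.2.trans (Nat.add_le_add_left (Nat.mul_le_mul_right _ hn) _))
  have h1 := (hstep a t x h.1).2
  have h2 := h.2
  rw [Nat.add_mul]; omega

theorem size_list_le' {l : List β} {B n : ℕ} (h : ∀ x ∈ l, size x ≤ B) (hn : l.length ≤ n) :
    size l ≤ n * (B + 1) + 1 :=
  (size_list_le h).trans (Nat.add_le_add_right (Nat.mul_le_mul_right _ hn) _)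
end folds

@[fun_prop] theorem pt_pp {c : α → Cx} (h1 : PT c) : PT (fun e => pp (c e)) := by
  unfold pp; fun_prop

@[fun_prop] theorem pt_mM {c : α → Cx} (h1 : PT c) : PT (fun e => mM (c e)) := by
  unfold mM; fun_prop

@[fun_prop] theorem pt_cz {c : α → Cx} (h1 : PT c) : PT (fun e => cz (c e)) := by
  unfold cz; fun_prop

@[fun_prop] theorem pt_ran {u : α → U} (h1 : PT u) : PT (fun e => ran (u e)) := by
  unfold ran; fun_prop

@[fun_prop] theorem pt_mulU {u w : α → U} (h1 : PT u) (h2 : PT w) : PT (fun e => mulU (u e) (w e))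
    := by
  unfold mulU; fun_prop

@[fun_prop] theorem pt_unL {β : Type} [Enc β] {l : α → List β} (h1 : PT l) : PT (fun e => unL (l
    e)) := by
  unfold unL; fun_prop

@[fun_prop] theorem pt_u1 {c : α → Cx} (h1 : PT c) : PT (fun e => u1 (c e)) := by
  unfold u1; fun_prop

@[fun_prop] theorem pt_u2 {c : α → Cx} (h1 : PT c) : PT (fun e => u2 (c e)) := by
  unfold u2; fun_prop

@[fun_prop] theorem pt_u3 {c : α → Cx} (h1 : PT c) : PT (fun e => u3 (c e)) := by
  unfold u3; fun_prop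

@[fun_prop] theorem pt_uh {c : α → Cx} (h1 : PT c) : PT (fun e => uh (c e)) := by
  unfold uh; fun_prop

@[fun_prop] theorem pt_digs {c : α → Cx} (h1 : PT c) : PT (fun e => digs (c e)) := by
  unfold digs; fun_prop

@[fun_prop] theorem pt_tab {c : α → Cx} {u : α → U} {f : α → ℕ → ℕ} (h1 : PT c) (h2 : PT u) (h3 :
    PT (fun q : α × ℕ => f q.1 q.2)) : PT (fun e => tab (c e) (u e) (f e)) := by
  unfold tab; fun_prop

@[fun_prop] theorem pt_nv {c : α → Cx} {u : α → U} {x : α → V} (h1 : PT c) (h2 : PT u) (h3 : PT x)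
    : PT (fun e => nv (c e) (u e) (x e)) := by
  unfold nv; fun_prop

@[fun_prop] theorem pt_inv {c : α → Cx} {a : α → ℕ} (h1 : PT c) (h2 : PT a) : PT (fun e => inv (c
    e) (a e)) := by
  unfold inv; fun_prop

@[fun_prop] theorem pt_ng {c : α → Cx} {a : α → ℕ} (h1 : PT c) (h2 : PT a) : PT (fun e => ng (c e)
    (a e)) := by
  unfold ng; fun_prop

@[fun_prop] theorem pt_axpy {c : α → Cx} {u : α → U} {a : α → ℕ} {x y : α → V} (h1 : PT c) (h2 :
    PT u) (h3 : PT a) (h4 : PT x) (h5 : PT y) : PT (fun e => axpy (c e) (u e) (a e) (x e) (y e))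
    := by
  unfold axpy; fun_prop

@[fun_prop] theorem pt_vsub {c : α → Cx} {u : α → U} {x y : α → V} (h1 : PT c) (h2 : PT u) (h3 :
    PT x) (h4 : PT y) : PT (fun e => vsub (c e) (u e) (x e) (y e)) := by
  unfold vsub; fun_prop

@[fun_prop] theorem pt_nz {c : α → Cx} {x : α → V} {i : α → ℕ} (h1 : PT c) (h2 : PT x) (h3 : PT i)
    : PT (fun e => nz (c e) (x e) (i e)) := by
  unfold nz; fun_prop

@[fun_prop] theorem pt_isz {c : α → Cx} {w : α → U} {x : α → V} (h1 : PT c) (h2 : PT w) (h3 : PT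
    x) : PT (fun e => isz (c e) (w e) (x e)) := by
  unfold isz; fun_prop

@[fun_prop] theorem pt_unit {c : α → Cx} {u : α → U} {i : α → ℕ} (h1 : PT c) (h2 : PT u) (h3 : PT
    i) : PT (fun e => unit (c e) (u e) (i e)) := by
  unfold unit; fun_prop

@[fun_prop] theorem pt_units {c : α → Cx} {u : α → U} (h1 : PT c) (h2 : PT u) : PT (fun e => units
    (c e) (u e)) := by
  unfold units; fun_prop

@[fun_prop] theorem pt_allV {c : α → Cx} {u : α → U} (h1 : PT c) (h2 : PT u) : PT (fun e => allV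
    (c e) (u e)) := by
  unfold allV; fun_prop

@[fun_prop] theorem pt_elim1 {c : α → Cx} {w : α → U} {L : α → List V} {i : α → ℕ} (h1 : PT c) (h2
    : PT w) (h3 : PT L) (h4 : PT i) : PT (fun e => elim1 (c e) (w e) (L e) (i e)) := by
  unfold elim1; fun_prop

/-- bound for a vector -/
def bv (c : Cx) (u : U) : ℕ := u.length * (4 * size (pp c) + 1) + 1
/-- bound for a basis -/
def bb (c : Cx) (w : U) : ℕ := w.length * (bv c w + 1) + 1

theorem ps_bv {c : α → Cx} {u : α → U} (h1 : PT c) (h2 : PT u) : PS (fun e => bv (c e) (u e)) :=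
  ((ps_len h2).mul (((PB.const 4).mul (pt_pp h1).size_le).add (PB.const 1))).add (PB.const 1)

theorem ps_bb {c : α → Cx} {u : α → U} (h1 : PT c) (h2 : PT u) : PS (fun e => bb (c e) (u e)) :=
  ((ps_len h2).mul ((ps_bv h1 h2).add (PB.const 1))).add (PB.const 1)

theorem len_ran (u : U) : (ran u).length = u.length := by simp [ran]

theorem size_tab (c : Cx) (u : U) (f : ℕ → ℕ) : size (tab c u f) ≤ bv c u := by
  refine size_list_le' (fun x hx => ?_) (by simp [tab, len_ran])
  obtain ⟨i, _, rfl⟩ := List.mem_map.1 hx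
  exact size_nat_mono (Nat.mod_lt _ (Nat.succ_pos _)).le

theorem elim1_bd (c : Cx) (w : U) (L : List V) (i n : ℕ) (h : L.length ≤ n) :
    (elim1 c w L i).length ≤ n ∧ size (elim1 c w L i) ≤ size L + (n * (bv c w + 1) + 1) := by
  unfold elim1
  cases L.find? fun x => nz c x i with
  | none => exact ⟨h, Nat.le_add_right _ _⟩
  | some x =>
    refine ⟨by simpa using h, le_trans (size_list_le' (fun y hy => ?_) (by simpa using h))
      (Nat.le_add_left _ _)⟩
    obtain ⟨z, _, rfl⟩ := List.mem_map.1 hy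
    exact size_tab _ _ _

@[fun_prop] theorem pt_elim {c : α → Cx} {u w : α → U} {L : α → List V} (h1 : PT c) (h2 : PT u)
    (h3 : PT w) (h4 : PT L) : PT (fun e => elim (c e) (u e) (w e) (L e)) := by
  exact foldl_ia (f := fun e S i => elim1 (c e) (w e) S i) (by fun_prop) (by fun_prop) h4
    (fun e S => S.length ≤ (L e).length) (fun _ => le_rfl)
    (fun e => (L e).length * (bv (c e) (w e) + 1) + 1)
    (((ps_len h4).mul ((ps_bv h1 h3).add (PB.const 1))).add (PB.const 1))
    (fun e S i h => elim1_bd _ _ _ _ _ h)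

@[fun_prop] theorem pt_basis1 {c : α → Cx} {w : α → U} {s : α → List V × List V} {i : α → ℕ} (h1 :
    PT c) (h2 : PT w) (h3 : PT s) (h4 : PT i) : PT (fun e => basis1 (c e) (w e) (s e) (i e)) := by
  unfold basis1; fun_prop

theorem basis1_fst (c : Cx) (w : U) (s : List V × List V) (i : ℕ) :
    size (basis1 c w s i).1 ≤ size s.1 + (bv c w + 1) := by
  unfold basis1
  cases s.2.find? fun x => nz c x i with
  | none => simp
  | some x =>
    have := size_tab c w fun i => x.getD i 0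
    simp only [Option.toList_some, List.map_cons, List.map_nil, List.cons_append, List.nil_append,
      size_cons, nv]
    omega

theorem size_basis (c : Cx) (w : U) (L : List V) : size (basis c w L) ≤ bb c w := by
  have key : ∀ (u : List ℕ) (s : List V × List V),
      size (u.foldl (basis1 c w) s).1 ≤ size s.1 + u.length * (bv c w + 1) := by
    intro u
    induction u with
    | nil => intro s; simp
    | cons i u ih =>
      intro s
      have h1 := ih (basis1 c w s i)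
      have h2 := basis1_fst c w s i
      rw [List.foldl_cons, List.length_cons, Nat.add_mul]; omega
  have := key (ran w) ([], L)
  rw [len_ran, size_nil] at this
  unfold basis bb; omega

@[fun_prop] theorem pt_basis {c : α → Cx} {w : α → U} {L : α → List V} (h1 : PT c) (h2 : PT w) (h3
    : PT L) : PT (fun e => basis (c e) (w e) (L e)) := by
  refine PT.fst (foldl_ia (f := fun e s i => basis1 (c e) (w e) s i) (by fun_prop) (by fun_prop)
    (by fun_prop) (fun e s => s.2.length ≤ (L e).length) (fun _ => le_rfl)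
    (fun e => bv (c e) (w e) + 1 + ((L e).length * (bv (c e) (w e) + 1) + 1))
    (((ps_bv h1 h2).add (PB.const 1)).add
      (((ps_len h3).mul ((ps_bv h1 h2).add (PB.const 1))).add (PB.const 1)))
    (fun e s i h => ⟨(elim1_bd _ _ _ _ _ h).1, ?_⟩))
  have e1 := basis1_fst (c e) (w e) s i
  have e2 : size (basis1 (c e) (w e) s i).2 ≤ _ := (elim1_bd (c e) (w e) s.2 i _ h).2
  rw [size_prod, size_prod s]; omega

@[fun_prop] theorem pt_preim {c : α → Cx} {u w : α → U} {L : α → List V} {f : α → V → V} {S : α →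
    List V} (h1 : PT c) (h2 : PT u) (h3 : PT w) (h4 : PT L) (h5 : PT (fun q : α × V => f q.1 q.2))
    (h6 : PT S) : PT (fun e => preim (c e) (u e) (w e) (L e) (f e) (S e)) := by
  unfold preim; fun_prop

theorem size_preAll (c : Cx) (u w : U) (L ts : List V) (f : V → V → V) (S : List V) :
    size (preAll c u w L ts f S) ≤ bb c w := by
  unfold preAll
  induction ts using List.reverseRecOn with
  | nil => exact size_basis _ _ _
  | append_singleton ts t _ => rw [List.foldl_append]; exact size_basis _ _ _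

@[fun_prop] theorem pt_preAll {c : α → Cx} {u w : α → U} {L ts : α → List V} {f : α → V → V → V}
    {S : α → List V} (h1 : PT c) (h2 : PT u) (h3 : PT w) (h4 : PT L) (h5 : PT ts) (h6 : PT (fun q
    : α × V × V => f q.1 q.2.1 q.2.2)) (h7 : PT S) : PT (fun e => preAll (c e) (u e) (w e) (L e)
    (ts e) (f e) (S e)) := by
  exact PT.foldl_add (f := fun e K t => preim (c e) (u e) (w e) K (f e t) (S e)) (by fun_prop) h5
    (by fun_prop) _ (ps_bb h1 h3) (fun e K t _ => (size_basis _ _ _).trans (Nat.le_add_left _ _))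

@[fun_prop] theorem pt_rk {c : α → Cx} {w : α → U} {L : α → List V} (h1 : PT c) (h2 : PT w) (h3 :
    PT L) : PT (fun e => rk (c e) (w e) (L e)) := by
  unfold rk; fun_prop

@[fun_prop] theorem pt_mem {c : α → Cx} {w : α → U} {L : α → List V} {x : α → V} (h1 : PT c) (h2 :
    PT w) (h3 : PT L) (h4 : PT x) : PT (fun e => mem (c e) (w e) (L e) (x e)) := by
  unfold mem; fun_prop

@[fun_prop] theorem pt_aff {c : α → Cx} {w : α → U} {L : α → List V} (h1 : PT c) (h2 : PT w) (h3 :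
    PT L) : PT (fun e => aff (c e) (w e) (L e)) := by
  unfold aff; fun_prop

@[fun_prop] theorem pt_rv {c : α → Cx} {i : α → ℕ} (h1 : PT c) (h2 : PT i) : PT (fun e => rv (c e)
    (i e)) := by
  unfold rv; fun_prop

@[fun_prop] theorem pt_ent {c : α → Cx} {a : α → V} {i j : α → ℕ} (h1 : PT c) (h2 : PT a) (h3 : PT
    i) (h4 : PT j) : PT (fun e => ent (c e) (a e) (i e) (j e)) := by
  unfold ent; fun_prop

@[fun_prop] theorem pt_sm {u : α → U} {f : α → ℕ → ℕ} (h1 : PT u) (h2 : PT (fun q : α × ℕ => f q.1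
    q.2)) : PT (fun e => sm (u e) (f e)) := by
  unfold sm; fun_prop

@[fun_prop] theorem pt_mtab {c : α → Cx} {f : α → ℕ → ℕ → ℕ} (h1 : PT c) (h2 : PT (fun q : α × ℕ ×
    ℕ => f q.1 q.2.1 q.2.2)) : PT (fun e => mtab (c e) (f e)) := by
  unfold mtab; fun_prop

@[fun_prop] theorem pt_mmul {c : α → Cx} {a b : α → V} (h1 : PT c) (h2 : PT a) (h3 : PT b) : PT
    (fun e => mmul (c e) (a e) (b e)) := by
  unfold mmul; fun_prop

@[fun_prop] theorem pt_mstar {c : α → Cx} {a : α → V} (h1 : PT c) (h2 : PT a) : PT (fun e => mstar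
    (c e) (a e)) := by
  unfold mstar; fun_prop

@[fun_prop] theorem pt_mvec {c : α → Cx} {a x : α → V} (h1 : PT c) (h2 : PT a) (h3 : PT x) : PT
    (fun e => mvec (c e) (a e) (x e)) := by
  unfold mvec; fun_prop

@[fun_prop] theorem pt_ipP {c : α → Cx} {x y : α → V} (h1 : PT c) (h2 : PT x) (h3 : PT y) : PT
    (fun e => ipP (c e) (x e) (y e)) := by
  unfold ipP; fun_prop

@[fun_prop] theorem pt_same {l : α → V} {i j : α → ℕ} (h1 : PT l) (h2 : PT i) (h3 : PT j) : PT
    (fun e => same (l e) (i e) (j e)) := by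
  unfold same; fun_prop

@[fun_prop] theorem pt_grP {c : α → Cx} {l a : α → V} (h1 : PT c) (h2 : PT l) (h3 : PT a) : PT
    (fun e => grP (c e) (l e) (a e)) := by
  unfold grP; fun_prop

@[fun_prop] theorem pt_diagP {c : α → Cx} {f : α → ℕ → Bool} (h1 : PT c) (h2 : PT (fun q : α × ℕ
    => f q.1 q.2)) : PT (fun e => diagP (c e) (f e)) := by
  unfold diagP; fun_prop

@[fun_prop] theorem pt_oneP {c : α → Cx} (h1 : PT c) : PT (fun e => oneP (c e)) := by
  unfold oneP; fun_prop

@[fun_prop] theorem pt_prP {c : α → Cx} {l : α → V} {a : α → ℕ} (h1 : PT c) (h2 : PT l) (h3 : PT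
    a) : PT (fun e => prP (c e) (l e) (a e)) := by
  unfold prP; fun_prop

@[fun_prop] theorem pt_meq {c : α → Cx} {a b : α → V} (h1 : PT c) (h2 : PT a) (h3 : PT b) : PT
    (fun e => meq (c e) (a e) (b e)) := by
  unfold meq; fun_prop

theorem size_mmul (c : Cx) (a b : V) : size (mmul c a b) ≤ bv c (u2 c) := size_tab _ _ _

@[fun_prop] theorem pt_pw {c : α → Cx} {g : α → V} {k : α → ℕ} (h1 : PT c) (h2 : PT g) (h3 : PT k)
    : PT (fun e => pw (c e) (g e) (k e)) := by
  refine PT.foldl_add (f := fun e x i => bif Nat.blt i (k e) then mmul (c e) x (g e) else x)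
    (by fun_prop) (by fun_prop) (by fun_prop) _ (ps_bv h1 (pt_u2 h1)) (fun e x i _ => ?_)
  have := size_mmul (c e) x (g e)
  cases Nat.blt i (k e) <;> simp only [cond_true, cond_false] <;> omega

@[fun_prop] theorem pt_invP {c : α → Cx} {g : α → V} (h1 : PT c) (h2 : PT g) : PT (fun e => invP
    (c e) (g e)) := by
  unfold invP; fun_prop

@[fun_prop] theorem pt_inB {c : α → Cx} {l : α → V} {a : α → ℕ} {x : α → V} (h1 : PT c) (h2 : PT
    l) (h3 : PT a) (h4 : PT x) : PT (fun e => inB (c e) (l e) (a e) (x e)) := by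
  unfold inB; fun_prop

@[fun_prop] theorem pt_nbP {c : α → Cx} {l : α → V} {a : α → ℕ} (h1 : PT c) (h2 : PT l) (h3 : PT
    a) : PT (fun e => nbP (c e) (l e) (a e)) := by
  unfold nbP; fun_prop

@[fun_prop] theorem pt_blkP {c : α → Cx} {l : α → V} {a : α → ℕ} (h1 : PT c) (h2 : PT l) (h3 : PT
    a) : PT (fun e => blkP (c e) (l e) (a e)) := by
  unfold blkP; fun_prop

@[fun_prop] theorem pt_co {c : α → Cx} {m i : α → ℕ} (h1 : PT c) (h2 : PT m) (h3 : PT i) : PT (fun
    e => co (c e) (m e) (i e)) := by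
  unfold co; fun_prop

@[fun_prop] theorem pt_pmN {k m : α → ℕ} (h1 : PT k) (h2 : PT m) : PT (fun e => pmN (k e) (m e))
    := by
  unfold pmN; fun_prop

@[fun_prop] theorem pt_dg3 {c : α → Cx} {i j k : α → ℕ} (h1 : PT c) (h2 : PT i) (h3 : PT j) (h4 :
    PT k) : PT (fun e => dg3 (c e) (i e) (j e) (k e)) := by
  unfold dg3; fun_prop

@[fun_prop] theorem pt_pull3 {c : α → Cx} {a b d w : α → V} (h1 : PT c) (h2 : PT a) (h3 : PT b)
    (h4 : PT d) (h5 : PT w) : PT (fun e => pull3 (c e) (a e) (b e) (d e) (w e)) := by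
  unfold pull3; fun_prop

@[fun_prop] theorem pt_pull1P {c : α → Cx} {g w : α → V} (h1 : PT c) (h2 : PT g) (h3 : PT w) : PT
    (fun e => pull1P (c e) (g e) (w e)) := by
  unfold pull1P; fun_prop

@[fun_prop] theorem pt_permP {c : α → Cx} {k : α → ℕ} {w : α → V} (h1 : PT c) (h2 : PT k) (h3 : PT
    w) : PT (fun e => permP (c e) (k e) (w e)) := by
  unfold permP; fun_prop

@[fun_prop] theorem pt_keyP {c : α → Cx} {l : α → V} {i : α → ℕ} (h1 : PT c) (h2 : PT l) (h3 : PT
    i) : PT (fun e => keyP (c e) (l e) (i e)) := by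
  unfold keyP; fun_prop

@[fun_prop] theorem pt_cmpP {c : α → Cx} {l : α → V} {t : α → ℕ} {w : α → V} (h1 : PT c) (h2 : PT
    l) (h3 : PT t) (h4 : PT w) : PT (fun e => cmpP (c e) (l e) (t e) (w e)) := by
  unfold cmpP; fun_prop

@[fun_prop] theorem pt_dif {c : α → Cx} {T T' g : α → V} (h1 : PT c) (h2 : PT T) (h3 : PT T') (h4
    : PT g) : PT (fun e => dif (c e) (T e) (T' e) (g e)) := by
  unfold dif; fun_prop

@[fun_prop] theorem pt_trfP {c : α → Cx} {m : α → ℕ} {C v : α → V} (h1 : PT c) (h2 : PT m) (h3 :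
    PT C) (h4 : PT v) : PT (fun e => trfP (c e) (m e) (C e) (v e)) := by
  unfold trfP; fun_prop

@[fun_prop] theorem pt_conP {c : α → Cx} {m : α → ℕ} {C w : α → V} (h1 : PT c) (h2 : PT m) (h3 :
    PT C) (h4 : PT w) : PT (fun e => conP (c e) (m e) (C e) (w e)) := by
  unfold conP; fun_prop

@[fun_prop] theorem pt_auP {c : α → Cx} {θ u y : α → V} (h1 : PT c) (h2 : PT θ) (h3 : PT u) (h4 :
    PT y) : PT (fun e => auP (c e) (θ e) (u e) (y e)) := by
  unfold auP; fun_prop

@[fun_prop] theorem pt_cmbP {c : α → Cx} {L : α → List V} {k : α → V} (h1 : PT c) (h2 : PT L) (h3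
    : PT k) : PT (fun e => cmbP (c e) (L e) (k e)) := by
  unfold cmbP; fun_prop

@[fun_prop] theorem pt_actP {c : α → Cx} {uk : α → U} {b τ : α → V} (h1 : PT c) (h2 : PT uk) (h3 :
    PT b) (h4 : PT τ) : PT (fun e => actP (c e) (uk e) (b e) (τ e)) := by
  unfold actP; fun_prop

@[fun_prop] theorem pt_htP {c : α → Cx} {uk : α → U} {H D D' : α → List V} (h1 : PT c) (h2 : PT
    uk) (h3 : PT H) (h4 : PT D) (h5 : PT D') : PT (fun e => htP (c e) (uk e) (H e) (D e) (D' e))
    := by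
  unfold htP; fun_prop

@[fun_prop] theorem pt_cbP {c : α → Cx} {l : α → V} {B : α → List V} {a b : α → ℕ} (h1 : PT c) (h2
    : PT l) (h3 : PT B) (h4 : PT a) (h5 : PT b) : PT (fun e => cbP (c e) (l e) (B e) (a e) (b e))
    := by
  unfold cbP; fun_prop

@[fun_prop] theorem pt_csP {c : α → Cx} {l : α → V} {B : α → List V} (h1 : PT c) (h2 : PT l) (h3 :
    PT B) : PT (fun e => csP (c e) (l e) (B e)) := by
  unfold csP; fun_prop

@[fun_prop] theorem pt_csg {c : α → Cx} {s : α → Sd} {a b : α → ℕ} (h1 : PT c) (h2 : PT s) (h3 :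
    PT a) (h4 : PT b) : PT (fun e => csg (c e) (s e) (a e) (b e)) := by
  unfold csg; fun_prop

@[fun_prop] theorem pt_trivP {c : α → Cx} {s : α → Sd} {a : α → ℕ} (h1 : PT c) (h2 : PT s) (h3 :
    PT a) : PT (fun e => trivP (c e) (s e) (a e)) := by
  unfold trivP; fun_prop

@[fun_prop] theorem pt_eoP {c : α → Cx} {s : α → Sd} (h1 : PT c) (h2 : PT s) : PT (fun e => eoP (c
    e) (s e)) := by
  unfold eoP; fun_prop

@[fun_prop] theorem pt_z0P {c : α → Cx} {s : α → Sd} (h1 : PT c) (h2 : PT s) : PT (fun e => z0P (c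
    e) (s e)) := by
  unfold z0P; fun_prop

@[fun_prop] theorem pt_csoP {c : α → Cx} {s : α → Sd} {a b : α → ℕ} (h1 : PT c) (h2 : PT s) (h3 :
    PT a) (h4 : PT b) : PT (fun e => csoP (c e) (s e) (a e) (b e)) := by
  unfold csoP; fun_prop

@[fun_prop] theorem pt_clP {c : α → Cx} {s : α → Sd} (h1 : PT c) (h2 : PT s) : PT (fun e => clP (c
    e) (s e)) := by
  unfold clP; fun_prop

@[fun_prop] theorem pt_colP {c : α → Cx} {s : α → Sd} (h1 : PT c) (h2 : PT s) : PT (fun e => colP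
    (c e) (s e)) := by
  unfold colP; fun_prop

@[fun_prop] theorem pt_dbP {c : α → Cx} {l : α → V} {s : α → Sd} {a : α → ℕ} (h1 : PT c) (h2 : PT
    l) (h3 : PT s) (h4 : PT a) : PT (fun e => dbP (c e) (l e) (s e) (a e)) := by
  unfold dbP; fun_prop

@[fun_prop] theorem pt_phiP {c : α → Cx} {l : α → V} {s : α → Sd} (h1 : PT c) (h2 : PT l) (h3 : PT
    s) : PT (fun e => phiP (c e) (l e) (s e)) := by
  unfold phiP; fun_prop

@[fun_prop] theorem pt_bigP {c : α → Cx} {l : α → V} {s : α → Sd} (h1 : PT c) (h2 : PT l) (h3 : PT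
    s) : PT (fun e => bigP (c e) (l e) (s e)) := by
  unfold bigP; fun_prop

@[fun_prop] theorem pt_isotP {c : α → Cx} {s : α → Sd} {x : α → V} (h1 : PT c) (h2 : PT s) (h3 :
    PT x) : PT (fun e => isotP (c e) (s e) (x e)) := by
  unfold isotP; fun_prop

@[fun_prop] theorem pt_nnP {c : α → Cx} {B : α → List V} {x : α → V} (h1 : PT c) (h2 : PT B) (h3 :
    PT x) : PT (fun e => nnP (c e) (B e) (x e)) := by
  unfold nnP; fun_prop

@[fun_prop] theorem pt_cycP {c : α → Cx} {N : α → List V} {y : α → V} (h1 : PT c) (h2 : PT N) (h3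
    : PT y) : PT (fun e => cycP (c e) (N e) (y e)) := by
  unfold cycP; fun_prop

@[fun_prop] theorem pt_testOf {c : α → Cx} {s : α → Sd} {π : α → V} (h1 : PT c) (h2 : PT s) (h3 :
    PT π) : PT (fun e => testOf (c e) (s e) (π e)) := by
  unfold testOf; fun_prop

@[fun_prop] theorem pt_testsP {c : α → Cx} {l : α → V} {s : α → Sd} (h1 : PT c) (h2 : PT l) (h3 :
    PT s) : PT (fun e => testsP (c e) (l e) (s e)) := by
  unfold testsP; fun_prop

@[fun_prop] theorem pt_elmP {c : α → Cx} {a b : α → ℕ} (h1 : PT c) (h2 : PT a) (h3 : PT b) : PT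
    (fun e => elmP (c e) (a e) (b e)) := by
  unfold elmP; fun_prop

@[fun_prop] theorem pt_pc0P {c : α → Cx} {l : α → V} (h1 : PT c) (h2 : PT l) : PT (fun e => pc0P
    (c e) (l e)) := by
  unfold pc0P; fun_prop

@[fun_prop] theorem pt_cds {c : α → Cx} {l : α → V} {t : α → ℕ} (h1 : PT c) (h2 : PT l) (h3 : PT
    t) : PT (fun e => cds (c e) (l e) (t e)) := by
  unfold cds; fun_prop

@[fun_prop] theorem pt_coef {c : α → Cx} {T T' h g : α → V} {i : α → ℕ} (h1 : PT c) (h2 : PT T)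
    (h3 : PT T') (h4 : PT h) (h5 : PT g) (h6 : PT i) : PT (fun e => coef (c e) (T e) (T' e) (h e)
    (g e) (i e)) := by
  unfold coef; fun_prop

@[fun_prop] theorem pt_piv {c : α → Cx} {T : α → V} {L : α → List V} {i : α → ℕ} (h1 : PT c) (h2 :
    PT T) (h3 : PT L) (h4 : PT i) : PT (fun e => piv (c e) (T e) (L e) (i e)) := by
  unfold piv; fun_prop

@[fun_prop] theorem pt_stepC {c : α → Cx} {T T' : α → V} {s : α → V × List V} {i : α → ℕ} (h1 : PT
    c) (h2 : PT T) (h3 : PT T') (h4 : PT s) (h5 : PT i) : PT (fun e => stepC (c e) (T e) (T' e) (s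
    e) (i e)) := by
  unfold stepC; fun_prop

theorem stepC_bd (c : Cx) (T T' : V) (s : V × List V) (i n : ℕ) (h : s.2.length ≤ n) :
    (stepC c T T' s i).2.length ≤ n ∧
      size (stepC c T T' s i) ≤ size s + (bv c (u2 c) + (n * (bv c (u2 c) + 1) + 1)) := by
  have hp : (piv c T s.2 i).length ≤ s.2.length := by
    simpa [piv] using (List.dropWhile_sublist (l := s.2.reverse) _).length_le
  unfold stepC
  cases (piv c T s.2 i).head? with
  | none => exact ⟨h, Nat.le_add_right _ _⟩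
  | some g =>
    simp only [Option.elim]
    refine ⟨by simp; omega, ?_⟩
    have e1 := size_mmul c s.1 (pw c g (coef c T T' s.1 g i))
    have e2 : size ((piv c T s.2 i).tail.reverse.map
        (fun h => mmul c h (pw c g (coef c T T h g i)))) ≤ n * (bv c (u2 c) + 1) + 1 := by
      refine size_list_le' (fun y hy => ?_) (by simp; omega)
      obtain ⟨z, _, rfl⟩ := List.mem_map.1 hy
      exact size_mmul _ _ _
    have e3 := size_sublist (List.drop_sublist (piv c T s.2 i).length s.2)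
    have e4 := size_append ((piv c T s.2 i).tail.reverse.map
        (fun h => mmul c h (pw c g (coef c T T h g i)))) (s.2.drop (piv c T s.2 i).length)
    rw [size_pair, size_prod s]; omega

@[fun_prop] theorem pt_clim {c : α → Cx} {l T T' z : α → V} {t : α → ℕ} (h1 : PT c) (h2 : PT l)
    (h3 : PT T) (h4 : PT T') (h5 : PT z) (h6 : PT t) : PT (fun e => clim (c e) (l e) (T e) (T' e)
    (z e) (t e)) := by
  exact foldl_ia (f := fun e s i => stepC (c e) (T e) (T' e) s i) (by fun_prop) (by fun_prop)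
    (by fun_prop) (fun e s => s.2.length ≤ (pc0P (c e) (l e)).length) (fun _ => le_rfl)
    (fun e => bv (c e) (u2 (c e)) + ((pc0P (c e) (l e)).length * (bv (c e) (u2 (c e)) + 1) + 1))
    ((ps_bv h1 (pt_u2 h1)).add (((ps_len (pt_pc0P h1 h2)).mul
      ((ps_bv h1 (pt_u2 h1)).add (PB.const 1))).add (PB.const 1)))
    (fun e s i h => stepC_bd _ _ _ _ _ _ h)

@[fun_prop] theorem pt_kapP {c : α → Cx} {l T : α → V} {t : α → ℕ} {g : α → V} (h1 : PT c) (h2 :
    PT l) (h3 : PT T) (h4 : PT t) (h5 : PT g) : PT (fun e => kapP (c e) (l e) (T e) (t e) (g e))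
    := by
  unfold kapP; fun_prop

@[fun_prop] theorem pt_spP {c : α → Cx} {l T : α → V} {t : α → ℕ} (h1 : PT c) (h2 : PT l) (h3 : PT
    T) (h4 : PT t) : PT (fun e => spP (c e) (l e) (T e) (t e)) := by
  unfold spP; fun_prop

@[fun_prop] theorem pt_liftP {c : α → Cx} {l T z : α → V} {t : α → ℕ} (h1 : PT c) (h2 : PT l) (h3
    : PT T) (h4 : PT z) (h5 : PT t) : PT (fun e => liftP (c e) (l e) (T e) (z e) (t e)) := by
  unfold liftP; fun_prop

@[fun_prop] theorem pt_okP {c : α → Cx} {l T : α → V} {t : α → ℕ} {g : α → V} (h1 : PT c) (h2 : PT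
    l) (h3 : PT T) (h4 : PT t) (h5 : PT g) : PT (fun e => okP (c e) (l e) (T e) (t e) (g e)) := by
  unfold okP; fun_prop

@[fun_prop] theorem pt_allLiftP {c : α → Cx} {l : α → V} {s : α → Sd} {t : α → ℕ} (h1 : PT c) (h2
    : PT l) (h3 : PT s) (h4 : PT t) : PT (fun e => allLiftP (c e) (l e) (s e) (t e)) := by
  unfold allLiftP; fun_prop

@[fun_prop] theorem pt_trL {c : α → Cx} {s : α → Sd} (h1 : PT c) (h2 : PT s) : PT (fun e => trL (c
    e) (s e)) := by
  unfold trL; fun_prop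

@[fun_prop] theorem pt_shP {c : α → Cx} {l : α → V} {s : α → Sd} {t : α → ℕ} (h1 : PT c) (h2 : PT
    l) (h3 : PT s) (h4 : PT t) : PT (fun e => shP (c e) (l e) (s e) (t e)) := by
  unfold shP; fun_prop

@[fun_prop] theorem pt_u3K {c : α → Cx} {s : α → Sd} (h1 : PT c) (h2 : PT s) : PT (fun e => u3K (c
    e) (s e)) := by
  unfold u3K; fun_prop

@[fun_prop] theorem pt_uK {c : α → Cx} {s : α → Sd} (h1 : PT c) (h2 : PT s) : PT (fun e => uK (c
    e) (s e)) := by
  unfold uK; fun_prop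

@[fun_prop] theorem pt_uT {c : α → Cx} {s : α → Sd} (h1 : PT c) (h2 : PT s) : PT (fun e => uT (c
    e) (s e)) := by
  unfold uT; fun_prop

@[fun_prop] theorem pt_cnP {c : α → Cx} {s : α → Sd} {y : α → V} (h1 : PT c) (h2 : PT s) (h3 : PT
    y) : PT (fun e => cnP (c e) (s e) (y e)) := by
  unfold cnP; fun_prop

@[fun_prop] theorem pt_tnP {c : α → Cx} {s : α → Sd} {τ : α → V} (h1 : PT c) (h2 : PT s) (h3 : PT
    τ) : PT (fun e => tnP (c e) (s e) (τ e)) := by
  unfold tnP; fun_prop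

@[fun_prop] theorem pt_ambP {c : α → Cx} {s : α → Sd} (h1 : PT c) (h2 : PT s) : PT (fun e => ambP
    (c e) (s e)) := by
  unfold ambP; fun_prop

@[fun_prop] theorem pt_d2P {c : α → Cx} {l : α → V} {s : α → Sd} {t : α → ℕ} (h1 : PT c) (h2 : PT
    l) (h3 : PT s) (h4 : PT t) : PT (fun e => d2P (c e) (l e) (s e) (t e)) := by
  unfold d2P; fun_prop

@[fun_prop] theorem pt_d3P {c : α → Cx} {l : α → V} {s : α → Sd} {t : α → ℕ} (h1 : PT c) (h2 : PT
    l) (h3 : PT s) (h4 : PT t) : PT (fun e => d3P (c e) (l e) (s e) (t e)) := by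
  unfold d3P; fun_prop

@[fun_prop] theorem pt_lamXP {c : α → Cx} {L : α → List V} {x : α → ℕ} {w : α → V} (h1 : PT c) (h2
    : PT L) (h3 : PT x) (h4 : PT w) : PT (fun e => lamXP (c e) (L e) (x e) (w e)) := by
  unfold lamXP; fun_prop

@[fun_prop] theorem pt_uN {c : α → Cx} {s : α → Sd} (h1 : PT c) (h2 : PT s) : PT (fun e => uN (c
    e) (s e)) := by
  unfold uN; fun_prop

@[fun_prop] theorem pt_lamP {c : α → Cx} {l : α → V} {s : α → Sd} {t : α → ℕ} {cs w : α → V} (h1 :
    PT c) (h2 : PT l) (h3 : PT s) (h4 : PT t) (h5 : PT cs) (h6 : PT w) : PT (fun e => lamP (c e)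
    (l e) (s e) (t e) (cs e) (w e)) := by
  unfold lamP; fun_prop

@[fun_prop] theorem pt_annP {c : α → Cx} {l : α → V} {s : α → Sd} {t : α → ℕ} (h1 : PT c) (h2 : PT
    l) (h3 : PT s) (h4 : PT t) : PT (fun e => annP (c e) (l e) (s e) (t e)) := by
  unfold annP; fun_prop

@[fun_prop] theorem pt_annOK {c : α → Cx} {l : α → V} {s : α → Sd} {t : α → ℕ} {cs : α → V} (h1 :
    PT c) (h2 : PT l) (h3 : PT s) (h4 : PT t) (h5 : PT cs) : PT (fun e => annOK (c e) (l e) (s e)
    (t e) (cs e)) := by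
  unfold annOK; fun_prop

@[fun_prop] theorem pt_wtP {c : α → Cx} {l : α → V} {t : α → ℕ} (h1 : PT c) (h2 : PT l) (h3 : PT
    t) : PT (fun e => wtP (c e) (l e) (t e)) := by
  unfold wtP; fun_prop

@[fun_prop] theorem pt_rigP {c : α → Cx} {l : α → V} {s : α → Sd} {t : α → ℕ} (h1 : PT c) (h2 : PT
    l) (h3 : PT s) (h4 : PT t) : PT (fun e => rigP (c e) (l e) (s e) (t e)) := by
  unfold rigP; fun_prop

@[fun_prop] theorem pt_thP {c : α → Cx} {l : α → V} {s : α → Sd} {t : α → ℕ} {cs : α → V} (h1 : PT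
    c) (h2 : PT l) (h3 : PT s) (h4 : PT t) (h5 : PT cs) : PT (fun e => thP (c e) (l e) (s e) (t e)
    (cs e)) := by
  unfold thP; fun_prop

@[fun_prop] theorem pt_hatP {c : α → Cx} {s : α → Sd} {a θ q y : α → V} (h1 : PT c) (h2 : PT s)
    (h3 : PT a) (h4 : PT θ) (h5 : PT q) (h6 : PT y) : PT (fun e => hatP (c e) (s e) (a e) (θ e) (q
    e) (y e)) := by
  unfold hatP; fun_prop

@[fun_prop] theorem pt_rngP {c : α → Cx} {s : α → Sd} {a θ q : α → V} (h1 : PT c) (h2 : PT s) (h3
    : PT a) (h4 : PT θ) (h5 : PT q) : PT (fun e => rngP (c e) (s e) (a e) (θ e) (q e)) := by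
  unfold rngP; fun_prop

@[fun_prop] theorem pt_qsP {c : α → Cx} {l : α → V} {s : α → Sd} {a : α → V} (h1 : PT c) (h2 : PT
    l) (h3 : PT s) (h4 : PT a) : PT (fun e => qsP (c e) (l e) (s e) (a e)) := by
  unfold qsP; fun_prop

@[fun_prop] theorem pt_lowP {c : α → Cx} {l : α → V} {s : α → Sd} {a θ : α → V} {r : α → ℕ} (h1 :
    PT c) (h2 : PT l) (h3 : PT s) (h4 : PT a) (h5 : PT θ) (h6 : PT r) : PT (fun e => lowP (c e) (l
    e) (s e) (a e) (θ e) (r e)) := by
  unfold lowP; fun_prop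

@[fun_prop] theorem pt_uTT {c : α → Cx} (h1 : PT c) : PT (fun e => uTT (c e)) := by
  unfold uTT; fun_prop

@[fun_prop] theorem pt_popQ {c : α → Cx} {s : α → Sd} {a θ : α → V} {Q : α → List (List V)} (h1 :
    PT c) (h2 : PT s) (h3 : PT a) (h4 : PT θ) (h5 : PT Q) : PT (fun e => popQ (c e) (s e) (a e) (θ
    e) (Q e)) := by
  unfold popQ; fun_prop

@[fun_prop] theorem pt_popP {c : α → Cx} {l : α → V} {s : α → Sd} {a θ : α → V} {r : α → ℕ} (h1 :
    PT c) (h2 : PT l) (h3 : PT s) (h4 : PT a) (h5 : PT θ) (h6 : PT r) : PT (fun e => popP (c e) (l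
    e) (s e) (a e) (θ e) (r e)) := by
  unfold popP; fun_prop

@[fun_prop] theorem pt_domP {c : α → Cx} {l : α → V} {b : α → ℕ} (h1 : PT c) (h2 : PT l) (h3 : PT
    b) : PT (fun e => domP (c e) (l e) (b e)) := by
  unfold domP; fun_prop

@[fun_prop] theorem pt_d0P {c : α → Cx} {u : α → V} (h1 : PT c) (h2 : PT u) : PT (fun e => d0P (c
    e) (u e)) := by
  unfold d0P; fun_prop

@[fun_prop] theorem pt_d4P {c : α → Cx} {l : α → V} {s : α → Sd} {a θ q : α → V} (h1 : PT c) (h2 :
    PT l) (h3 : PT s) (h4 : PT a) (h5 : PT θ) (h6 : PT q) : PT (fun e => d4P (c e) (l e) (s e) (a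
    e) (θ e) (q e)) := by
  unfold d4P; fun_prop

@[fun_prop] theorem pt_d5P {c : α → Cx} {l : α → V} {s : α → Sd} {a θ : α → V} {r : α → ℕ} (h1 :
    PT c) (h2 : PT l) (h3 : PT s) (h4 : PT a) (h5 : PT θ) (h6 : PT r) : PT (fun e => d5P (c e) (l
    e) (s e) (a e) (θ e) (r e)) := by
  unfold d5P; fun_prop

@[fun_prop] theorem pt_d6P {c : α → Cx} {l : α → V} {s : α → Sd} {a θ : α → V} {r : α → ℕ} (h1 :
    PT c) (h2 : PT l) (h3 : PT s) (h4 : PT a) (h5 : PT θ) (h6 : PT r) : PT (fun e => d6P (c e) (l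
    e) (s e) (a e) (θ e) (r e)) := by
  unfold d6P; fun_prop

@[fun_prop] theorem pt_tP {c : α → Cx} {l a : α → V} {k : α → ℕ} (h1 : PT c) (h2 : PT l) (h3 : PT
    a) (h4 : PT k) : PT (fun e => tP (c e) (l e) (a e) (k e)) := by
  unfold tP; fun_prop

@[fun_prop] theorem pt_thOf {c : α → Cx} {l : α → V} {s : α → Sd} {ρ : α → Rp} (h1 : PT c) (h2 :
    PT l) (h3 : PT s) (h4 : PT ρ) : PT (fun e => thOf (c e) (l e) (s e) (ρ e)) := by
  unfold thOf; fun_prop

@[fun_prop] theorem pt_dP {c : α → Cx} {l : α → V} {s : α → Sd} {ρ : α → Rp} {q : α → V} (h1 : PT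
    c) (h2 : PT l) (h3 : PT s) (h4 : PT ρ) (h5 : PT q) : PT (fun e => dP (c e) (l e) (s e) (ρ e)
    (q e)) := by
  unfold dP; fun_prop

@[fun_prop] theorem pt_brP {c : α → Cx} {l : α → V} {s : α → Sd} {ρ : α → Rp} (h1 : PT c) (h2 : PT
    l) (h3 : PT s) (h4 : PT ρ) : PT (fun e => brP (c e) (l e) (s e) (ρ e)) := by
  unfold brP; fun_prop

@[fun_prop] theorem pt_costP {c : α → Cx} {l : α → V} {s : α → Sd} {ρ : α → Rp} (h1 : PT c) (h2 :
    PT l) (h3 : PT s) (h4 : PT ρ) : PT (fun e => costP (c e) (l e) (s e) (ρ e)) := by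
  unfold costP; fun_prop

@[fun_prop] theorem pt_validP {c : α → Cx} {l : α → V} {s : α → Sd} {ρ : α → Rp} (h1 : PT c) (h2 :
    PT l) (h3 : PT s) (h4 : PT ρ) : PT (fun e => validP (c e) (l e) (s e) (ρ e)) := by
  unfold validP; fun_prop

@[fun_prop] theorem pt_recs {c : α → Cx} {l : α → V} {s : α → Sd} (h1 : PT c) (h2 : PT l) (h3 : PT
    s) : PT (fun e => recs (c e) (l e) (s e)) := by
  unfold recs; fun_prop

@[fun_prop] theorem pt_sdL {c : α → Cx} {T0 : α → V} {x : α → Lt} (h1 : PT c) (h2 : PT T0) (h3 :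
    PT x) : PT (fun e => sdL (c e) (T0 e) (x e)) := by
  unfold sdL; fun_prop

@[fun_prop] theorem pt_transP {c : α → Cx} {H : α → List V} {C : α → V} (h1 : PT c) (h2 : PT H)
    (h3 : PT C) : PT (fun e => transP (c e) (H e) (C e)) := by
  unfold transP; fun_prop

@[fun_prop] theorem pt_sdR {c : α → Cx} {T0' : α → V} {s : α → Sd} {y : α → Rt} (h1 : PT c) (h2 :
    PT T0') (h3 : PT s) (h4 : PT y) : PT (fun e => sdR (c e) (T0' e) (s e) (y e)) := by
  unfold sdR; fun_prop

@[fun_prop] theorem pt_dL {c : α → Cx} {T0 : α → V} {x : α → Lt} {ρ : α → Rp} (h1 : PT c) (h2 : PT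
    T0) (h3 : PT x) (h4 : PT ρ) : PT (fun e => dL (c e) (T0 e) (x e) (ρ e)) := by
  unfold dL; fun_prop

@[fun_prop] theorem pt_apL {c : α → Cx} {T0 : α → V} {x : α → Lt} {ρ : α → Rp} (h1 : PT c) (h2 :
    PT T0) (h3 : PT x) (h4 : PT ρ) : PT (fun e => apL (c e) (T0 e) (x e) (ρ e)) := by
  unfold apL; fun_prop

@[fun_prop] theorem pt_apR1 {c : α → Cx} {T0 T0' : α → V} {x : α → Lt} {ρ : α → Rp} {y : α → Rt}
    (h1 : PT c) (h2 : PT T0) (h3 : PT T0') (h4 : PT x) (h5 : PT ρ) (h6 : PT y) : PT (fun e => apR1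
    (c e) (T0 e) (T0' e) (x e) (ρ e) (y e)) := by
  unfold apR1; fun_prop

@[fun_prop] theorem pt_apR {c : α → Cx} {T0 T0' : α → V} {x : α → Lt} {ρ : α → Rp} {R : α → List
    Rt} (h1 : PT c) (h2 : PT T0) (h3 : PT T0') (h4 : PT x) (h5 : PT ρ) (h6 : PT R) : PT (fun e =>
    apR (c e) (T0 e) (T0' e) (x e) (ρ e) (R e)) := by
  unfold apR; fun_prop

@[fun_prop] theorem pt_orbP {c : α → Cx} {B : α → List V} {x : α → V} (h1 : PT c) (h2 : PT B) (h3
    : PT x) : PT (fun e => orbP (c e) (B e) (x e)) := by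
  unfold orbP; fun_prop

@[fun_prop] theorem pt_findP {c : α → Cx} {x : α → Lt} (h1 : PT c) (h2 : PT x) : PT (fun e =>
    findP (c e) (x e)) := by
  unfold findP; fun_prop

@[fun_prop] theorem pt_extP {c : α → Cx} {l : α → V} {a : α → ℕ} {W : α → List V} (h1 : PT c) (h2
    : PT l) (h3 : PT a) (h4 : PT W) : PT (fun e => extP (c e) (l e) (a e) (W e)) := by
  refine PT.foldl_add (f := fun e (L : List V) j =>
    bif same (l e) j (a e) && !mem (c e) (u1 (c e)) L (unit (c e) (u1 (c e)) j) then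
      L ++ [unit (c e) (u1 (c e)) j] else L) (by fun_prop) (by fun_prop) h4 _
    ((ps_bv h1 (pt_u1 h1)).add (PB.const 1)) (fun e L j _ => ?_)
  have e1 : size (unit (c e) (u1 (c e)) j) ≤ _ := size_tab _ _ _
  have e2 := size_append L [unit (c e) (u1 (c e)) j]
  rw [size_cons, size_nil] at e2
  cases same (l e) j (a e) && !mem (c e) (u1 (c e)) L (unit (c e) (u1 (c e)) j) <;>
    simp only [cond_true, cond_false] <;> omega

@[fun_prop] theorem pt_g1P {c : α → Cx} {l : α → V} {a : α → ℕ} {E : α → List V} (h1 : PT c) (h2 :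
    PT l) (h3 : PT a) (h4 : PT E) : PT (fun e => g1P (c e) (l e) (a e) (E e)) := by
  unfold g1P; fun_prop

@[fun_prop] theorem pt_mkg {c : α → Cx} {l : α → V} {a : α → ℕ} {W : α → List V} (h1 : PT c) (h2 :
    PT l) (h3 : PT a) (h4 : PT W) : PT (fun e => mkg (c e) (l e) (a e) (W e)) := by
  unfold mkg; fun_prop

@[fun_prop] theorem pt_cutP {c : α → Cx} {l : α → V} {a m : α → ℕ} (h1 : PT c) (h2 : PT l) (h3 :
    PT a) (h4 : PT m) : PT (fun e => cutP (c e) (l e) (a e) (m e)) := by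
  unfold cutP; fun_prop

@[fun_prop] theorem pt_conjP {c : α → Cx} {l g' g : α → V} {H : α → List V} (h1 : PT c) (h2 : PT
    l) (h3 : PT g') (h4 : PT g) (h5 : PT H) : PT (fun e => conjP (c e) (l e) (g' e) (g e) (H e))
    := by
  unfold conjP; fun_prop

@[fun_prop] theorem pt_spLft {c : α → Cx} {x : α → Lt} {q : α → ℕ × V} (h1 : PT c) (h2 : PT x) (h3
    : PT q) : PT (fun e => spLft (c e) (x e) (q e)) := by
  unfold spLft; fun_prop

@[fun_prop] theorem pt_spRgt {c : α → Cx} {x : α → Lt} {q : α → ℕ × V} {y : α → Rt} (h1 : PT c)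
    (h2 : PT x) (h3 : PT q) (h4 : PT y) : PT (fun e => spRgt (c e) (x e) (q e) (y e)) := by
  unfold spRgt; fun_prop

@[fun_prop] theorem pt_split {c : α → Cx} {z : α → Lt × List Rt} (h1 : PT c) (h2 : PT z) : PT (fun
    e => split (c e) (z e)) := by
  unfold split; fun_prop

/-- bound for every component of a state -/
def bN (c : Cx) : ℕ :=
  (u1 c).length * (4 * size (mM c + 1) + 1) + 1 + bv c (u2 c) + bb c (u2 c)

theorem ps_bN {c : α → Cx} (h1 : PT c) : PS (fun e => bN (c e)) :=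
  ((((ps_len (pt_u1 h1)).mul (((PB.const 4).mul
    (PT.size_le (f := fun e => mM (c e) + 1) (by fun_prop))).add (PB.const 1))).add
      (PB.const 1)).add (ps_bv h1 (pt_u2 h1))).add (ps_bb h1 (pt_u2 h1))

/-- all components are small -/
def Gz (n k : ℕ) (z : Lt × List Rt) : Prop :=
  size z.1.1 ≤ n ∧ size z.1.2.1 ≤ n ∧ size z.1.2.2 ≤ n ∧ z.2.length ≤ k ∧
    ∀ y ∈ z.2, size y.1 ≤ n ∧ size y.2 ≤ n

theorem Gz.size_le {n k : ℕ} {z : Lt × List Rt} (h : Gz n k z) :
    size z ≤ 3 * n + k * (2 * n + 2) + 4 := by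
  obtain ⟨a1, a2, a3, a4, a5⟩ := h
  have e : size z.2 ≤ k * (2 * n + 1 + 1) + 1 :=
    size_list_le' (fun y hy => by have := a5 y hy; rw [size_prod]; omega) a4
  rw [size_prod, size_prod z.1, size_prod z.1.2]
  rw [show 2 * n + 1 + 1 = 2 * n + 2 from rfl] at e
  omega

theorem gd_self (z : Lt × List Rt) (n k : ℕ) : Gz (size z + n) (z.2.length + k) z := by
  have e1 := size_prod z
  have e2 := size_prod z.1
  have e3 := size_prod z.1.2
  refine ⟨by omega, by omega, by omega, by omega, fun y hy => ?_⟩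
  have e4 := size_lt_of_mem hy
  have e5 := size_prod y
  omega

theorem size_cutP (c : Cx) (l : V) (a m : ℕ) :
    size (cutP c l a m) ≤ (u1 c).length * (4 * size (mM c + 1) + 1) + 1 := by
  refine size_list_le' (fun x hx => ?_) (by simp [cutP, len_ran])
  obtain ⟨i, _, rfl⟩ := List.mem_map.1 hx
  exact size_nat_mono (Nat.mod_lt _ (Nat.succ_pos _)).le

theorem Gz.split {c : Cx} {n k : ℕ} {z : Lt × List Rt} (hn : bN c ≤ n) (h : Gz n k z) :
    Gz n k (split c z) := by
  unfold PG.split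
  cases findP c z.1 with
  | none => exact h
  | some q =>
    unfold bN at hn
    refine ⟨(size_cutP _ _ _ _).trans (by omega), (size_mmul _ _ _).trans (by omega),
      (size_basis _ _ _).trans (by omega), by simpa using h.2.2.2.1, fun y hy => ?_⟩
    obtain ⟨x, _, rfl⟩ := List.mem_map.1 hy
    exact ⟨(size_mmul _ _ _).trans (by omega), (size_basis _ _ _).trans (by omega)⟩

theorem Gz.refine {c : Cx} {n k : ℕ} {z : Lt × List Rt} (hn : bN c ≤ n) (h : Gz n k z) :
    Gz n k (refine c z) := by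
  unfold PG.refine
  induction u1 c using List.reverseRecOn with
  | nil => exact h
  | append_singleton u x ih => rw [List.foldl_append]; exact ih.split hn

theorem ps_gd {n k : α → ℕ} (h1 : PS n) (h2 : PS k) :
    PS (fun e => 3 * n e + k e * (2 * n e + 2) + 4) :=
  (((PB.const 3).mul h1).add (h2.mul (((PB.const 2).mul h1).add (PB.const 2)))).add (PB.const 4)

@[fun_prop] theorem pt_refine {c : α → Cx} {z : α → Lt × List Rt} (h1 : PT c) (h2 : PT z) : PT
    (fun e => refine (c e) (z e)) := by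
  exact PT.foldl_inv (f := fun e z (_ : Unit) => split (c e) z) (by fun_prop) (by fun_prop) h2
    (fun e => Gz (size (z e) + bN (c e)) ((z e).2.length + 0)) (fun e => gd_self _ _ _)
    (fun e t _ _ h => h.split (Nat.le_add_left _ _)) _
    (ps_gd (h2.size_le.add (ps_bN h1)) ((ps_len (PT.snd h2)).add (PB.const 0)))
    (fun e t h => h.size_le)

@[fun_prop] theorem pt_stepOf {c : α → Cx} {T0 T0' : α → V} {z : α → Lt × List Rt} {ρ : α → Rp}
    (h1 : PT c) (h2 : PT T0) (h3 : PT T0') (h4 : PT z) (h5 : PT ρ) : PT (fun e => stepOf (c e) (T0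
    e) (T0' e) (z e) (ρ e)) := by
  unfold stepOf; fun_prop

@[fun_prop] theorem pt_phiL {c : α → Cx} {T0 : α → V} {x : α → Lt} (h1 : PT c) (h2 : PT T0) (h3 :
    PT x) : PT (fun e => phiL (c e) (T0 e) (x e)) := by
  unfold phiL; fun_prop

@[fun_prop] theorem pt_gainP {c : α → Cx} {T0 : α → V} {x : α → Lt} {ρ : α → Rp} (h1 : PT c) (h2 :
    PT T0) (h3 : PT x) (h4 : PT ρ) : PT (fun e => gainP (c e) (T0 e) (x e) (ρ e)) := by
  unfold gainP; fun_prop

@[fun_prop] theorem pt_mainStep {c : α → Cx} {T0 T0' : α → V} {z : α → Lt × List Rt} (h1 : PT c)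
    (h2 : PT T0) (h3 : PT T0') (h4 : PT z) : PT (fun e => mainStep (c e) (T0 e) (T0' e) (z e)) :=
    by
  unfold mainStep; fun_prop

@[fun_prop] theorem pt_l0P {c : α → Cx} (h1 : PT c) : PT (fun e => l0P (c e)) := by
  unfold l0P; fun_prop

@[fun_prop] theorem pt_b0P {c : α → Cx} (h1 : PT c) : PT (fun e => b0P (c e)) := by
  unfold b0P; fun_prop

theorem Gz.mainStep {c : Cx} {n k : ℕ} {z : Lt × List Rt} (T0 T0' : V) (hn : bN c ≤ n)
    (hk : c.2.2.length ≤ k) (h : Gz n k z) : Gz n k (mainStep c T0 T0' z) := by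
  unfold PG.mainStep
  cases (recs c z.1.1 (sdL c T0 z.1)).find? (gainP c T0 z.1) with
  | none => exact h
  | some ρ =>
    have hb : bb c (u2 c) ≤ n := by unfold bN at hn; omega
    refine Gz.refine hn ⟨h.1, h.2.1, (size_preAll _ _ _ _ _ _ _).trans hb,
      (List.length_take_le _ _).trans hk, fun y hy => ?_⟩
    obtain ⟨x, hx, hy⟩ := List.mem_flatMap.1 (List.mem_of_mem_take hy)
    obtain ⟨q, _, rfl⟩ := List.mem_map.1 hy
    exact ⟨(h.2.2.2.2 x hx).1, (size_preAll _ _ _ _ _ _ _).trans hb⟩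

@[fun_prop] theorem pt_run {c : α → Cx} {T0 T0' : α → V} (h1 : PT c) (h2 : PT T0) (h3 : PT T0') :
    PT (fun e => run (c e) (T0 e) (T0' e)) := by
  have h0 : PT (fun e => (((l0P (c e), oneP (c e), b0P (c e)), [(oneP (c e), b0P (c e))]) :
      Lt × List Rt)) := by fun_prop
  exact PT.foldl_inv (f := fun e z (_ : Unit) => mainStep (c e) (T0 e) (T0' e) z) (by fun_prop)
    (by fun_prop) h0 (fun e => Gz (_ + bN (c e)) (_ + (c e).2.2.length)) (fun e => gd_self _ _ _)
    (fun e t _ _ h => h.mainStep _ _ (Nat.le_add_left _ _) (Nat.le_add_left _ _)) _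
    (ps_gd (h0.size_le.add (ps_bN h1)) ((ps_len (PT.snd h0)).add (ps_len (by fun_prop))))
    (fun e t h => h.size_le)

@[fun_prop] theorem pt_chkP {c : α → Cx} {T0 T0' ψ : α → V} (h1 : PT c) (h2 : PT T0) (h3 : PT T0')
    (h4 : PT ψ) : PT (fun e => chkP (c e) (T0 e) (T0' e) (ψ e)) := by
  unfold chkP; fun_prop

@[fun_prop] theorem pt_finP {c : α → Cx} {T0 T0' : α → V} {x : α → Lt} {y : α → Rt} (h1 : PT c)
    (h2 : PT T0) (h3 : PT T0') (h4 : PT x) (h5 : PT y) : PT (fun e => finP (c e) (T0 e) (T0' e) (x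
    e) (y e)) := by
  unfold finP; fun_prop

@[fun_prop] theorem pt_engine {c : α → Cx} {T0 T0' : α → V} (h1 : PT c) (h2 : PT T0) (h3 : PT T0')
    : PT (fun e => engine (c e) (T0 e) (T0' e)) := by
  unfold engine; fun_prop

@[fun_prop] theorem pt_tmul {G : α → Tb} {a b : α → ℕ} (h1 : PT G) (h2 : PT a) (h3 : PT b) : PT
    (fun e => tmul (G e) (a e) (b e)) := by
  unfold tmul; fun_prop

@[fun_prop] theorem pt_tone {G : α → Tb} (h1 : PT G) : PT (fun e => tone (G e)) := by
  unfold tone; fun_prop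

@[fun_prop] theorem pt_tinv {G : α → Tb} {a : α → ℕ} (h1 : PT G) (h2 : PT a) : PT (fun e => tinv
    (G e) (a e)) := by
  unfold tinv; fun_prop

@[fun_prop] theorem pt_tcom {G : α → Tb} {a b : α → ℕ} (h1 : PT G) (h2 : PT a) (h3 : PT b) : PT
    (fun e => tcom (G e) (a e) (b e)) := by
  unfold tcom; fun_prop

theorem size_findD (R : List ℕ) (p : ℕ → Bool) : size ((R.find? p).getD 0) ≤ size R := by
  cases h : R.find? p with
  | none => exact size_pos R
  | some x => exact (size_lt_of_mem (List.mem_of_find?_eq_some h)).le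

theorem size_tmul (G : Tb) (a b : ℕ) : size (tmul G a b) ≤ size G.1 := size_findD _ _

@[fun_prop] theorem pt_tpow {G : α → Tb} {d : α → List ℕ} {a k : α → ℕ} (h1 : PT G) (h2 : PT d)
    (h3 : PT a) (h4 : PT k) : PT (fun e => tpow (G e) (d e) (a e) (k e)) := by
  refine PT.foldl_add (f := fun e x i => bif Nat.blt i (k e) then tmul (G e) x (a e) else x)
    (by fun_prop) h2 (by fun_prop) _ (PT.fst h1).size_le (fun e x i _ => ?_)
  have := size_tmul (G e) x (a e)
  cases Nat.blt i (k e) <;> simp only [cond_true, cond_false] <;> omega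

@[fun_prop] theorem pt_tbs {G : α → Tb} {d : α → List ℕ} {a b : α → ℕ} (h1 : PT G) (h2 : PT d) (h3
    : PT a) (h4 : PT b) : PT (fun e => tbs (G e) (d e) (a e) (b e)) := by
  unfold tbs; fun_prop

@[fun_prop] theorem pt_coord1 {G : α → Tb} {d : α → List ℕ} {s : α → List ℕ × List (ℕ × V)} {x : α
    → ℕ} (h1 : PT G) (h2 : PT d) (h3 : PT s) (h4 : PT x) : PT (fun e => coord1 (G e) (d e) (s e)
    (x e)) := by
  unfold coord1; fun_prop

/-- the bound after `n` steps -/
def Cd (G : Tb) (d : List ℕ) (n : ℕ) (s : List ℕ × List (ℕ × V)) : Prop :=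
  size s.1 ≤ n * size G.1 + 1 ∧ s.2.length ≤ G.1.length + 1 ∧
    ∀ y ∈ s.2, size y.1 ≤ size G.1 ∧ size y.2 ≤ n * size d + 1

theorem Cd.step {G : Tb} {d : List ℕ} {n x : ℕ} {s : List ℕ × List (ℕ × V)} (hx : x ∈ G.1)
    (h : Cd G d n s) : Cd G d (n + 1) (coord1 G d s x) := by
  obtain ⟨a1, a2, a3⟩ := h
  unfold coord1 Cd
  rw [Nat.add_mul, Nat.add_mul]
  cases s.2.any fun y => y.1 == x with
  | true => exact ⟨by simp only [cond_true]; omega, a2, fun y hy => by have := a3 y hy; omega⟩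
  | false =>
    have e1 := size_append s.1 [x]
    have e2 := size_lt_of_mem hx
    rw [size_cons, size_nil] at e1
    refine ⟨by simp only [cond_false]; omega, (List.length_take_le _ _).trans (Nat.le_succ _),
      fun y hy => ?_⟩
    obtain ⟨k, hk, hy⟩ := List.mem_flatMap.1 (List.mem_of_mem_take hy)
    obtain ⟨y, hy', rfl⟩ := List.mem_map.1 hy
    have e3 := size_append y.2 [k]
    have e4 := size_lt_of_mem hk
    have e5 := (a3 y hy').2
    rw [size_cons, size_nil] at e3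
    exact ⟨size_tmul _ _ _, by simp only; omega⟩

@[fun_prop] theorem pt_coords {G : α → Tb} {d : α → List ℕ} (h1 : PT G) (h2 : PT d) : PT (fun e =>
    coords (G e) (d e)) := by
  refine foldl_cnt (f := fun e s x => coord1 (G e) (d e) s x) (by fun_prop) (by fun_prop)
    (by fun_prop) (fun e => Cd (G e) (d e)) (fun e => ⟨by simp, by simp, fun y hy => ?_⟩)
    (fun e n s x hx h => h.step hx)
    (fun e => (G e).1.length * size (G e).1 + (((G e).1.length + 1) *
      (size (G e).1 + (G e).1.length * size (d e) + 2 + 1) + 3))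
    (((ps_len (PT.fst h1)).mul (PT.fst h1).size_le).add ((((ps_len (PT.fst h1)).add
      (PB.const 1)).mul ((((PT.fst h1).size_le.add ((ps_len (PT.fst h1)).mul h2.size_le)).add
        (PB.const 2)).add (PB.const 1))).add (PB.const 3))) (fun e n s hn h => ?_)
  · rw [List.mem_singleton.1 hy]
    exact ⟨size_findD _ _, by simp⟩
  · obtain ⟨a1, a2, a3⟩ := h
    have e1 := Nat.mul_le_mul_right (size (G e).1) hn
    have e2 := Nat.mul_le_mul_right (size (d e)) hn
    have e3 := size_list_le' (B := size (G e).1 + (G e).1.length * size (d e) + 2)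
      (fun y hy => by have := a3 y hy; rw [size_prod]; omega) a2
    rw [size_prod]; omega

@[fun_prop] theorem pt_tensQ {c : α → Cx} {G : α → Tb} {s : α → List ℕ × List (ℕ × V)} (h1 : PT c)
    (h2 : PT G) (h3 : PT s) : PT (fun e => tensQ (c e) (G e) (s e)) := by
  unfold tensQ; fun_prop

@[fun_prop] theorem pt_tensP {c : α → Cx} {G : α → Tb} (h1 : PT c) (h2 : PT G) : PT (fun e =>
    tensP (c e) (G e)) := by
  unfold tensP; fun_prop

@[fun_prop] theorem pt_upOf {R : α → List ℕ} (h1 : PT R) : PT (fun e => upOf (R e)) := by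
  unfold upOf; fun_prop

@[fun_prop] theorem pt_cxOf {pad : α → U} {G : α → Tb} (h1 : PT pad) (h2 : PT G) : PT (fun e =>
    cxOf (pad e) (G e)) := by
  unfold cxOf; fun_prop

@[fun_prop] theorem pt_mainP' {pad : α → U} {G G' : α → Tb} (h1 : PT pad) (h2 : PT G) (h3 : PT G')
    : PT (fun e => mainP (pad e) (G e) (G' e)) := by
  unfold mainP; fun_prop

theorem pt_mainP : PT (fun x : U × Tb × Tb => mainP x.1 x.2.1 x.2.2) :=
  pt_mainP' (by fun_prop) (by fun_prop) (by fun_prop)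

end Pool.Agent.P.MP_f1a348_lc.PG
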