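import Pool.Agent.P.MP_f1a348_lc.PG.Basic

/-!
Project PG: toolbox, part 2 (trilinear forms, levels, lifts).
-/

namespace Pool.Agent.P.MP_f1a348_lc.PG

open Matrix Module

variable {p n : ℕ} {ℓ : Ix n → ℕ} {B : Sub p n}

/-! ### evaluation -/

theorem ev_add (v w : Frm p n) (x : Fin 3 → Vec p n) : ev (v + w) x = ev v x + ev w x := by
  simp [ev, add_mul, Finset.sum_add_distrib]

theorem ev_smul (c : ZMod p) (w : Frm p n) (x : Fin 3 → Vec p n) : ev (c • w) x = c * ev w x := by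
  simp [ev, Finset.mul_sum, mul_assoc]

/-- evaluation at `x` as a linear map -/
noncomputable def evL (x : Fin 3 → Vec p n) : Frm p n →ₗ[ZMod p] ZMod p where
  toFun w := ev w x
  map_add' v w := ev_add v w x
  map_smul' c w := ev_smul c w x

@[simp] theorem evL_apply (x : Fin 3 → Vec p n) (w : Frm p n) : evL x w = ev w x := rfl

@[simp] theorem ev_zero (x : Fin 3 → Vec p n) : ev (0 : Frm p n) x = 0 := by simp [ev]

theorem ev_sub (v w : Frm p n) (x : Fin 3 → Vec p n) : ev (v - w) x = ev v x - ev w x :=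
  map_sub (evL x) v w

theorem ev_neg (w : Frm p n) (x : Fin 3 → Vec p n) : ev (-w) x = -ev w x := map_neg (evL x) w

theorem ev_sum {ι : Type} (s : Finset ι) (w : ι → Frm p n) (x : Fin 3 → Vec p n) :
    ev (∑ i ∈ s, w i) x = ∑ i ∈ s, ev (w i) x := map_sum (evL x) w s

/-- a form as a multilinear map -/
noncomputable def evM (w : Frm p n) :
    MultilinearMap (ZMod p) (fun _ : Fin 3 => Vec p n) (ZMod p) :=
  ∑ i : Fin 3 → Ix n, w i • (MultilinearMap.mkPiAlgebra (ZMod p) (Fin 3) (ZMod p)).compLinearMap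
    fun j => LinearMap.proj (i j)

@[simp] theorem evM_apply (w : Frm p n) (x : Fin 3 → Vec p n) : evM w x = ev w x := by
  simp [evM, ev]

theorem ev_update_add (w : Frm p n) (x : Fin 3 → Vec p n) (j : Fin 3) (u v : Vec p n) :
    ev w (Function.update x j (u + v)) =
      ev w (Function.update x j u) + ev w (Function.update x j v) := by
  simpa only [evM_apply] using (evM w).map_update_add x j u v

theorem ev_update_smul (w : Frm p n) (x : Fin 3 → Vec p n) (j : Fin 3) (c : ZMod p)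
    (u : Vec p n) : ev w (Function.update x j (c • u)) = c * ev w (Function.update x j u) := by
  simpa only [evM_apply, smul_eq_mul] using (evM w).map_update_smul x j c u

theorem ev_smul_slots (w : Frm p n) (c : Fin 3 → ZMod p) (x : Fin 3 → Vec p n) :
    ev w (fun j => c j • x j) = (∏ j, c j) * ev w x := by
  simpa using (evM w).map_smul_univ c x

theorem ev_slot_zero (w : Frm p n) {x : Fin 3 → Vec p n} {j : Fin 3} (h : x j = 0) :
    ev w x = 0 := by
  simpa using (evM w).map_coord_zero j h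

theorem ev_single (w : Frm p n) (i : Fin 3 → Ix n) : ev w (fun j => Pi.single (i j) 1) = w i := by
  unfold ev
  rw [Finset.sum_eq_single i]
  · simp
  · intro k _ h
    obtain ⟨j, hj⟩ := Function.ne_iff.1 h
    rw [Finset.prod_eq_zero (Finset.mem_univ j) (Pi.single_eq_of_ne hj _), mul_zero]
  · simp

theorem frm_ext {v w : Frm p n} (h : ∀ x, ev v x = ev w x) : v = w :=
  funext fun i => by rw [← ev_single v, ← ev_single w, h]

theorem ev_pull (g : Fin 3 → Mat p n) (w : Frm p n) (x : Fin 3 → Vec p n) :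
    ev (pull g w) x = ev w fun j => g j *ᵥ x j := by
  simp only [ev, pull, LinearMap.coe_mk, AddHom.coe_mk, Finset.sum_mul]
  rw [Finset.sum_comm]
  refine Finset.sum_congr rfl fun k _ => ?_
  simp only [mul_assoc, ← Finset.mul_sum, Matrix.mulVec, dotProduct]
  congr 1
  rw [Finset.prod_univ_sum, Fintype.piFinset_univ]
  exact Finset.sum_congr rfl fun i _ => Finset.prod_mul_distrib.symm

theorem ev_pull1 (g : Mat p n) (w : Frm p n) (x : Fin 3 → Vec p n) :
    ev (pull1 g w) x = ev w fun j => g *ᵥ x j := ev_pull _ w x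

theorem pull_pull (g h : Fin 3 → Mat p n) (w : Frm p n) :
    pull h (pull g w) = pull (fun j => g j * h j) w :=
  frm_ext fun x => by simp only [ev_pull, Matrix.mulVec_mulVec]

theorem pull1_mul (g h : Mat p n) (w : Frm p n) : pull1 (g * h) w = pull1 h (pull1 g w) :=
  (pull_pull _ _ w).symm

@[simp] theorem pull1_one (w : Frm p n) : pull1 1 w = w :=
  frm_ext fun x => by simp only [ev_pull1, Matrix.one_mulVec]

theorem Un.pull1_st {g : Mat p n} (h : Un g) (w : Frm p n) : pull1 (st g) (pull1 g w) = w := by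
  rw [← pull1_mul, h.mul_st, pull1_one]

theorem Un.pull1_st' {g : Mat p n} (h : Un g) (w : Frm p n) : pull1 g (pull1 (st g) w) = w := by
  rw [← pull1_mul, h.st_mul, pull1_one]

@[simp] theorem perm_apply (σ : Fin 3 → Fin 3) (w : Frm p n) (i : Fin 3 → Ix n) :
    perm σ w i = w fun j => i (σ j) := rfl

theorem perm_perm (σ τ : Fin 3 → Fin 3) (w : Frm p n) : perm σ (perm τ w) = perm (σ ∘ τ) w := rfl

@[simp] theorem perm_id (w : Frm p n) : perm id w = w := rfl

theorem ev_perm {σ : Fin 3 → Fin 3} (hσ : Function.Bijective σ) (w : Frm p n)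
    (x : Fin 3 → Vec p n) : ev (perm σ w) x = ev w fun j => x (σ j) := by
  unfold ev
  let e := Equiv.ofBijective σ hσ
  refine Fintype.sum_equiv (Equiv.arrowCongr e.symm (Equiv.refl _)) _ _ fun i => ?_
  congr 1
  exact (Equiv.prod_comp e fun j => x j (i j)).symm

theorem pull_perm {σ : Fin 3 → Fin 3} (hσ : Function.Bijective σ) (g : Fin 3 → Mat p n)
    (w : Frm p n) : pull g (perm σ w) = perm σ (pull (fun j => g (σ j)) w) :=
  frm_ext fun x => by simp only [ev_pull, ev_perm hσ]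

theorem pull1_perm {σ : Fin 3 → Fin 3} (hσ : Function.Bijective σ) (g : Mat p n) (w : Frm p n) :
    pull1 g (perm σ w) = perm σ (pull1 g w) := pull_perm hσ _ w

theorem pm_mod (k : ℕ) : pm k = pm (k % 6) := by
  funext m
  refine Fin.ext ?_
  simp only [pm]
  have h1 : k / 3 % 2 = k % 6 / 3 % 2 := by omega
  rw [h1]
  omega

theorem pm_bij (k : ℕ) : Function.Bijective (pm k) := by
  rw [pm_mod]
  have : ∀ r : Fin 6, Function.Bijective (pm r.val) := by decide
  exact this ⟨k % 6, Nat.mod_lt _ (by omega)⟩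

theorem pm_zero : pm 0 = id := by decide

theorem exists_pm {σ : Fin 3 → Fin 3} (hσ : Function.Bijective σ) : ∃ k < 6, pm k = σ := by
  have : ∀ σ : Fin 3 → Fin 3, Function.Injective σ → ∃ k : Fin 6, pm k.val = σ := by decide
  obtain ⟨k, hk⟩ := this σ hσ.1
  exact ⟨k, k.2, hk⟩

theorem ev_pf (x y : Fin 3 → Vec p n) : ev (pf x) y = ∏ j, ip (y j) (x j) := by
  simp only [ev, pf, ip]
  rw [Finset.prod_univ_sum, Fintype.piFinset_univ]
  exact Finset.sum_congr rfl fun i _ => by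
    rw [← Finset.prod_mul_distrib]; exact Finset.prod_congr rfl fun j _ => mul_comm _ _

theorem pull_pf (g : Fin 3 → Mat p n) (x : Fin 3 → Vec p n) :
    pull g (pf x) = pf fun j => st (g j) *ᵥ x j :=
  frm_ext fun y => by simp only [ev_pull, ev_pf, ip_mulVec]

theorem prod_three {X : Type} [CommMonoid X] (m : Fin 3) (f : Fin 3 → X) :
    ∏ j, f j = f m * f (m + 1) * f (m + 2) := by
  rw [Fin.prod_univ_three]
  fin_cases m
  · rfl
  · exact (mul_rotate _ _ _)
  · exact (mul_rotate _ _ _).symm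

/-- functions on three places as triples, starting at the place `m` -/
def tri3 {X : Type} (m : Fin 3) : (Fin 3 → X) ≃ X × X × X where
  toFun i := (i m, i (m + 1), i (m + 2))
  invFun q := fun j => ![q.1, q.2.1, q.2.2] (j - m)
  left_inv i := by funext j; fin_cases m <;> fin_cases j <;> rfl
  right_inv q := by fin_cases m <;> rfl

theorem sum_three {X Y : Type} [Fintype X] [AddCommMonoid Y] (m : Fin 3) (f : X → X → X → Y) :
    ∑ i : Fin 3 → X, f (i m) (i (m + 1)) (i (m + 2)) = ∑ a, ∑ b, ∑ c, f a b c := by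
  refine (Fintype.sum_equiv (tri3 m) _ (fun q => f q.1 q.2.1 q.2.2) fun _ => rfl).trans ?_
  simp only [Fintype.sum_prod_type]

theorem trf_apply (m : Fin 3) (C : Mat p n) (v : Vec p n) (i : Fin 3 → Ix n) :
    trf m C v i = C (i (m + 2)).rev (i (m + 1)) * v (i m).rev := rfl

theorem ev_trf (m : Fin 3) (C : Mat p n) (v : Vec p n) (x : Fin 3 → Vec p n) :
    ev (trf m C v) x = ip (C *ᵥ x (m + 1)) (x (m + 2)) * ip (x m) v := by
  simp only [ev, trf_apply, prod_three m]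
  rw [sum_three m fun a b c => C c.rev b * v a.rev * (x m a * x (m + 1) b * x (m + 2) c),
    mul_comm (ip _ _), ip_comm (C *ᵥ _)]
  simp only [ip, Matrix.mulVec, dotProduct]
  rw [Finset.sum_mul]
  refine Finset.sum_congr rfl fun a _ => ?_
  rw [Finset.sum_comm]
  simp only [Finset.mul_sum]
  exact Finset.sum_congr rfl fun c _ => Finset.sum_congr rfl fun b _ => by ring

theorem trf_add (m : Fin 3) (C D : Mat p n) (v : Vec p n) :
    trf m (C + D) v = trf m C v + trf m D v := by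
  funext i; simp [trf_apply, add_mul]

theorem trf_smul (m : Fin 3) (c : ZMod p) (C : Mat p n) (v : Vec p n) :
    trf m (c • C) v = c • trf m C v := by
  funext i; simp [trf_apply, mul_assoc]

@[simp] theorem trf_zero (m : Fin 3) (v : Vec p n) : trf m (0 : Mat p n) v = 0 := by
  funext i; simp [trf_apply]

theorem pull_trf (g : Fin 3 → Mat p n) (m : Fin 3) (C : Mat p n) (v : Vec p n) :
    pull g (trf m C v) = trf m (st (g (m + 2)) * C * g (m + 1)) (st (g m) *ᵥ v) :=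
  frm_ext fun x => by
    simp only [ev_pull, ev_trf, ← Matrix.mulVec_mulVec]
    rw [ip_mulVec_right, ip_mulVec (g m)]

theorem trf_mem_Tr (m : Fin 3) {C : Mat p n} (hC : C ∈ Co ℓ B) (v : Vec p n) :
    trf m C v ∈ Tr ℓ B := Submodule.subset_span ⟨m, C, hC, v, rfl⟩

/-- the pairing of forms -/
noncomputable def pair (v w : Frm p n) : ZMod p := ∑ i, v i * w fun j => (i j).rev

theorem pair_pf (x : Fin 3 → Vec p n) (w : Frm p n) : pair (pf x) w = ev w x := by
  unfold pair ev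
  refine Fintype.sum_equiv (Equiv.arrowCongr (Equiv.refl _) Fin.revPerm) _ _ fun i => ?_
  simp [pf, mul_comm, Equiv.arrowCongr, Function.comp_def]

theorem con_apply (m : Fin 3) (C : Mat p n) (w : Frm p n) (α : Ix n) :
    con m C w α = ∑ i, if i m = α.rev then w i * C (i (m + 2)) (i (m + 1)).rev else 0 := rfl

theorem ip_con (m : Fin 3) (C : Mat p n) (w : Frm p n) (v : Vec p n) :
    ip (con m C w) v = pair w (trf m C v) := by
  simp only [ip, con_apply, pair, trf_apply, Fin.rev_rev, Finset.sum_mul]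
  rw [Finset.sum_comm]
  refine Finset.sum_congr rfl fun i _ => ?_
  rw [Finset.sum_eq_single (i m).rev]
  · simp [mul_assoc]
  · intro α _ h
    rw [if_neg fun e => h (by rw [e, Fin.rev_rev]), zero_mul]
  · simp

theorem pair_comm (v w : Frm p n) : pair v w = pair w v := by
  unfold pair
  refine Fintype.sum_equiv (Equiv.arrowCongr (Equiv.refl _) Fin.revPerm) _ _ fun i => ?_
  simp [mul_comm, Equiv.arrowCongr, Function.comp_def]

theorem pair_pull (g : Fin 3 → Mat p n) (v w : Frm p n) :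
    pair (pull g v) w = pair v (pull (fun j => st (g j)) w) := by
  simp only [pair, pull, LinearMap.coe_mk, AddHom.coe_mk, Finset.sum_mul, Finset.mul_sum, st_apply,
    Fin.rev_rev]
  rw [Finset.sum_comm]
  refine Finset.sum_congr rfl fun k _ => ?_
  refine Fintype.sum_equiv (Equiv.arrowCongr (Equiv.refl _) Fin.revPerm) _ _ fun i => ?_
  simp only [Equiv.arrowCongr, Equiv.coe_fn_mk, Function.comp_def, Fin.revPerm_apply,
    Equiv.refl_symm, Equiv.refl_apply, Fin.rev_rev]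
  ring

theorem con_pull (g : Fin 3 → Mat p n) (m : Fin 3) (C : Mat p n) (w : Frm p n) :
    con m C (pull g w) = st (g m) *ᵥ con m (g (m + 2) * C * st (g (m + 1))) w :=
  ip_ext fun v => by
    rw [ip_con, pair_pull, pull_trf, ip_mulVec, ip_con, st_st, st_st]

theorem ip_au (θ : Frm p n) (u y z : Vec p n) : ip (au θ u y) z = ev θ ![u, y, z] := by
  simp only [ip, au, ev, Finset.sum_mul]
  rw [Finset.sum_comm]
  refine Finset.sum_congr rfl fun i _ => ?_
  rw [Finset.sum_eq_single (i 2).rev]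
  · simp [Fin.prod_univ_three, mul_assoc]
  · intro α _ h
    rw [if_neg fun e => h (by rw [e, Fin.rev_rev]), zero_mul]
  · simp

/-! ### levels -/

theorem key_le {i k : Fin 3 → Ix n} (h : ∀ j, ℓ (i j) ≤ ℓ (k j)) : key ℓ i ≤ key ℓ k := by
  unfold key
  gcongr <;> exact h _

theorem digit_eq {M a b c d : ℕ} (hb : b < M) (hd : d < M) (h : a * M + b = c * M + d) :
    a = c ∧ b = d := by
  have h1 := congrArg (· / M) h
  have h2 := congrArg (· % M) h
  have hM : 0 < M := by omega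
  simp only [Nat.mul_add_mod_of_lt hb, Nat.mul_add_mod_of_lt hd] at h2
  simp only [Nat.add_comm (_ * M), Nat.add_mul_div_right _ _ hM, Nat.div_eq_of_lt hb,
    Nat.div_eq_of_lt hd, zero_add] at h1
  exact ⟨h1, h2⟩

theorem key_eq_iff (h : Lab ℓ) {i k : Fin 3 → Ix n} :
    key ℓ i = key ℓ k ↔ ∀ j, ℓ (i j) = ℓ (k j) := by
  refine ⟨fun e j => ?_, fun e => by simp only [key, e]⟩
  obtain ⟨h1, h2⟩ := digit_eq (h.lt _) (h.lt _) e
  obtain ⟨h3, h4⟩ := digit_eq (h.lt _) (h.lt _) h1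
  fin_cases j
  exacts [h3, h4, h2]

theorem key_lt_top (h : Lab ℓ) (i : Fin 3 → Ix n) : key ℓ i < top n := by
  unfold key top
  have h0 := h.lt (i 0)
  have h1 := h.lt (i 1)
  have h2 := h.lt (i 2)
  generalize 2 * n + 1 = M at *
  have h3 : ℓ (i 0) * M + ℓ (i 1) + 1 ≤ M * M := by nlinarith
  nlinarith

theorem mem_Van {t : ℕ} {w : Frm p n} : w ∈ Van ℓ t ↔ ∀ i, key ℓ i < t → w i = 0 := Iff.rfl
theorem mem_Wt {t : ℕ} {w : Frm p n} : w ∈ Wt ℓ t ↔ ∀ i, key ℓ i ≠ t → w i = 0 := Iff.rfl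

@[simp] theorem cmp_apply (t : ℕ) (w : Frm p n) (i : Fin 3 → Ix n) :
    cmp ℓ t w i = if key ℓ i = t then w i else 0 := rfl

theorem cmp_mem (t : ℕ) (w : Frm p n) : cmp ℓ t w ∈ Wt ℓ t := fun _ h => if_neg h

theorem mem_Wt_iff {t : ℕ} {w : Frm p n} : w ∈ Wt ℓ t ↔ cmp ℓ t w = w := by
  refine ⟨fun h => funext fun i => ?_, fun h => h ▸ cmp_mem t w⟩
  rw [cmp_apply]
  split_ifs with e
  · rfl
  · exact (h i e).symm

theorem cmp_cmp (t : ℕ) (w : Frm p n) : cmp ℓ t (cmp ℓ t w) = cmp ℓ t w :=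
  mem_Wt_iff.1 (cmp_mem t w)

theorem Van_zero : Van ℓ 0 = (⊤ : Submodule (ZMod p) (Frm p n)) :=
  eq_top_iff.2 fun _ _ _ h => absurd h (Nat.not_lt_zero _)

theorem Van_anti {s t : ℕ} (h : s ≤ t) : Van ℓ t ≤ (Van ℓ s : Submodule (ZMod p) (Frm p n)) :=
  fun _ hw i hi => hw i (hi.trans_le h)

theorem mem_Van_succ {t : ℕ} {w : Frm p n} : w ∈ Van ℓ (t + 1) ↔ w ∈ Van ℓ t ∧ cmp ℓ t w = 0 := by
  refine ⟨fun h => ⟨Van_anti (Nat.le_succ t) h, funext fun i => ?_⟩, fun h i hi => ?_⟩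
  · rw [cmp_apply]
    split_ifs with e
    · exact h i (by omega)
    · rfl
  · rcases Nat.lt_succ_iff_lt_or_eq.1 hi with e | e
    · exact h.1 i e
    · have := congrFun h.2 i
      rwa [cmp_apply, if_pos e] at this

theorem eq_zero_of_Van_top (h : Lab ℓ) {w : Frm p n} (hw : w ∈ Van ℓ (top n)) : w = 0 :=
  funext fun i => hw i (key_lt_top h i)

theorem pull_apply (g : Fin 3 → Mat p n) (w : Frm p n) (i : Fin 3 → Ix n) :
    pull g w i = ∑ k, w k * ∏ j, g j (k j) (i j) := rfl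

theorem cmp_key (h : Lab ℓ) (a : Fin 3 → Ix n) (w : Frm p n) :
    cmp ℓ (key ℓ a) w = pull (fun j => pr ℓ (a j)) w := by
  funext i
  rw [cmp_apply, pull_apply, Finset.sum_eq_single i]
  · simp only [pr, Matrix.diagonal_apply_eq, key_eq_iff h]
    split_ifs with e
    · simp [e]
    · obtain ⟨j, hj⟩ := not_forall.1 e
      rw [Finset.prod_eq_zero (Finset.mem_univ j) (if_neg hj), mul_zero]
  · intro k _ hk
    obtain ⟨j, hj⟩ := Function.ne_iff.1 hk
    rw [Finset.prod_eq_zero (f := fun j => (pr ℓ (a j) : Mat p n) (k j) (i j)) (Finset.mem_univ j)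
      (Matrix.diagonal_apply_ne _ hj), mul_zero]
  · simp

theorem ev_Wt (h : Lab ℓ) {a : Fin 3 → Ix n} {w : Frm p n} (hw : w ∈ Wt ℓ (key ℓ a))
    (x : Fin 3 → Vec p n) : ev w x = ev w fun j => pr ℓ (a j) *ᵥ x j := by
  rw [← ev_pull, ← cmp_key h, mem_Wt_iff.1 hw]

theorem ev_cmp (h : Lab ℓ) {a : Fin 3 → Ix n} (w : Frm p n) {x : Fin 3 → Vec p n}
    (hx : ∀ j, x j ∈ Vb ℓ (a j)) : ev (cmp ℓ (key ℓ a) w) x = ev w x := by
  rw [cmp_key h, ev_pull]
  exact congrArg _ (funext fun j => mem_Vb_iff.1 (hx j))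

/-- forms of one level are determined by their values on the three blocks -/
theorem Wt_ext (h : Lab ℓ) {a : Fin 3 → Ix n} {v w : Frm p n} (hv : v ∈ Wt ℓ (key ℓ a))
    (hw : w ∈ Wt ℓ (key ℓ a)) (H : ∀ x, (∀ j, x j ∈ Vb ℓ (a j)) → ev v x = ev w x) : v = w :=
  frm_ext fun x => by
    rw [ev_Wt h hv, ev_Wt h hw]; exact H _ fun j => pr_mulVec_mem _ _

theorem Wt_eq_bot {t : ℕ} (h : ∀ a, key ℓ a ≠ t) {w : Frm p n} (hw : w ∈ Wt ℓ t) : w = 0 :=
  funext fun i => hw i (h i)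

theorem perm_mem_Wt (h : Lab ℓ) {σ : Fin 3 → Fin 3} (hσ : Function.Bijective σ)
    {a : Fin 3 → Ix n} {w : Frm p n} (hw : w ∈ Wt ℓ (key ℓ fun j => a (σ j))) :
    perm σ w ∈ Wt ℓ (key ℓ a) := fun i hi => hw _ fun e => hi ((key_eq_iff h).2 fun j => by
  obtain ⟨k, rfl⟩ := hσ.2 j
  exact (key_eq_iff h).1 e k)

theorem pull1_mem_Van {g : Mat p n} (hg : Tri ℓ g) {t : ℕ} {w : Frm p n} (hw : w ∈ Van ℓ t) :
    pull1 g w ∈ Van ℓ t := fun i hi => by
  refine Finset.sum_eq_zero fun k _ => ?_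
  by_cases e : ∀ j, g (k j) (i j) ≠ 0
  · rw [hw k ((key_le fun j => (hg _ _ (e j)).1).trans_lt hi), zero_mul]
  · obtain ⟨j, hj⟩ := not_forall.1 e
    rw [Finset.prod_eq_zero (Finset.mem_univ j) (not_not.1 hj), mul_zero]

theorem cmp_pull1 (h : Lab ℓ) {g : Mat p n} (hg : Tri ℓ g) {t : ℕ} {w : Frm p n}
    (hw : w ∈ Van ℓ t) : cmp ℓ t (pull1 g w) = pull1 (gr ℓ g) (cmp ℓ t w) := by
  funext i
  simp only [cmp_apply, pull1, pull_apply, gr_apply]
  split_ifs with e
  · refine Finset.sum_congr rfl fun k _ => ?_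
    by_cases e1 : ∀ j, g (k j) (i j) ≠ 0
    · have h1 := key_le fun j => (hg _ _ (e1 j)).1
      by_cases e2 : key ℓ k = t
      · rw [if_pos e2]
        simp only [(key_eq_iff h).1 (e2.trans e.symm), if_true]
      · rw [if_neg e2, hw k (by omega), zero_mul, zero_mul]
    · obtain ⟨j, hj⟩ := not_forall.1 e1
      rw [Finset.prod_eq_zero (Finset.mem_univ j) (not_not.1 hj),
        Finset.prod_eq_zero (Finset.mem_univ j) (by rw [not_not.1 hj, ite_self]), mul_zero,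
        mul_zero]
  · refine (Finset.sum_eq_zero fun k _ => ?_).symm
    by_cases e2 : key ℓ k = t
    · obtain ⟨j, hj⟩ := not_forall.1 fun e3 => e (((key_eq_iff h).2 e3).symm.trans e2)
      rw [Finset.prod_eq_zero (Finset.mem_univ j) (if_neg hj), mul_zero]
    · rw [if_neg e2, zero_mul]

theorem Wt_le_Van (t : ℕ) : Wt ℓ t ≤ (Van ℓ t : Submodule (ZMod p) (Frm p n)) :=
  fun _ hw i hi => hw i hi.ne

theorem pull1_mem_Wt (h : Lab ℓ) {g : Mat p n} (hg : Dg ℓ g) {t : ℕ} {w : Frm p n}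
    (hw : w ∈ Wt ℓ t) : pull1 g w ∈ Wt ℓ t := by
  rw [mem_Wt_iff, cmp_pull1 h (hg.tri h) (Wt_le_Van t hw), hg.gr_eq, mem_Wt_iff.1 hw]

theorem cmp_pull1_dg (h : Lab ℓ) {g : Mat p n} (hg : Dg ℓ g) (t : ℕ) (w : Frm p n) :
    cmp ℓ t (pull1 g w) = pull1 g (cmp ℓ t w) := by
  funext i
  simp only [cmp_apply, pull1, pull_apply]
  have key' : ∀ k : Fin 3 → Ix n, key ℓ k ≠ key ℓ i → ∏ j, g (k j) (i j) = 0 := fun k hk => by
    obtain ⟨j, hj⟩ := not_forall.1 fun e3 => hk ((key_eq_iff h).2 e3)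
    exact Finset.prod_eq_zero (Finset.mem_univ j) (by by_contra e; exact hj (hg _ _ e))
  split_ifs with e
  · refine Finset.sum_congr rfl fun k _ => ?_
    split_ifs with e2
    · rfl
    · rw [key' k (e ▸ e2), mul_zero, mul_zero]
  · refine (Finset.sum_eq_zero fun k _ => ?_).symm
    split_ifs with e2
    · rw [key' k (fun e3 => e (e3.symm.trans e2)), mul_zero]
    · rw [zero_mul]

/-! ### lifts -/

section lifts
variable {T T' T'' : Frm p n} {t : ℕ} {z z' g g' : Mat p n}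

theorem kap_mem (T : Frm p n) (t : ℕ) (g : Mat p n) : kap ℓ T t g ∈ Wt ℓ t := cmp_mem _ _

theorem Lf.mul (h1 : Lf ℓ T' T'' t z g) (h2 : Lf ℓ T T' t z' g') :
    Lf ℓ T T'' t (z * z') (g * g') := by
  refine ⟨h1.1.mul h2.1, by rw [gr_mul h1.1.1 h2.1.1, h1.2.1, h2.2.1], ?_⟩
  have : pull1 (g * g') T'' - T = pull1 g' (pull1 g T'' - T') + (pull1 g' T' - T) := by
    rw [pull1_mul, map_sub]; abel
  rw [this]
  exact add_mem (pull1_mem_Van h2.1.1 h1.2.2) h2.2.2

theorem Lf.one (T : Frm p n) (t : ℕ) : Lf ℓ T T t 1 1 :=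
  ⟨Par.one, gr_one, by rw [pull1_one, sub_self]; exact zero_mem _⟩

theorem Lf.star (h : Lab ℓ) (h1 : Lf ℓ T T' t z g) : Lf ℓ T' T t (st z) (st g) := by
  refine ⟨h1.1.star h, by rw [gr_st h, h1.2.1], ?_⟩
  have : pull1 (st g) T - T' = -pull1 (st g) (pull1 g T' - T) := by
    rw [map_sub, h1.1.2.1.pull1_st]; abel
  rw [this]
  exact neg_mem (pull1_mem_Van (h1.1.1.st h) h1.2.2)

theorem Lf.mono {s : ℕ} (h1 : Lf ℓ T T' t z g) (hs : s ≤ t) : Lf ℓ T T' s z g :=
  ⟨h1.1, h1.2.1, Van_anti hs h1.2.2⟩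

theorem Lf.pow (h1 : Lf ℓ T T t z g) (k : ℕ) : Lf ℓ T T t (z ^ k) (g ^ k) := by
  induction k with
  | zero => simpa using Lf.one T t
  | succ k ih => rw [pow_succ, pow_succ]; exact ih.mul h1

theorem Lf.zero (hz : Par ℓ z) (hd : Dg ℓ z) (T T' : Frm p n) : Lf ℓ T T' 0 z z :=
  ⟨hz, hd.gr_eq, by rw [Van_zero]; trivial⟩

theorem Lf.eq_top (h : Lab ℓ) (h1 : Lf ℓ T T' (top n) z g) : pull1 g T' = T :=
  sub_eq_zero.1 (eq_zero_of_Van_top h h1.2.2)

/-- the cocycle identity, two-sided form -/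
theorem cmp_mul (h : Lab ℓ) (h1 : Lf ℓ T' T'' t z g) (h2 : Lf ℓ T T' t z' g') :
    cmp ℓ t (pull1 (g * g') T'' - T) =
      pull1 z' (cmp ℓ t (pull1 g T'' - T')) + cmp ℓ t (pull1 g' T' - T) := by
  rw [← h2.2.1, ← cmp_pull1 h h2.1.1 h1.2.2, ← map_add, pull1_mul, map_sub (pull1 g')]
  congr 1; abel

/-- the cocycle identity -/
theorem kap_mul (h : Lab ℓ) (h1 : Lf ℓ T T t z g) (h2 : Lf ℓ T T t z' g') :
    kap ℓ T t (g * g') = pull1 z' (kap ℓ T t g) + kap ℓ T t g' := cmp_mul h h1 h2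

@[simp] theorem kap_one (T : Frm p n) (t : ℕ) : kap ℓ T t 1 = 0 := by simp [kap]

theorem Lf.succ (h1 : Lf ℓ T T t z g) (h2 : kap ℓ T t g = 0) : Lf ℓ T T (t + 1) z g :=
  ⟨h1.1, h1.2.1, mem_Van_succ.2 ⟨h1.2.2, h2⟩⟩

theorem kap_mem_Sp (h1 : Lf ℓ T T t 1 g) : kap ℓ T t g ∈ Sp ℓ T t :=
  Submodule.subset_span ⟨g, h1, rfl⟩

theorem Sp_le_Wt (T : Frm p n) (t : ℕ) : Sp ℓ T t ≤ Wt ℓ t :=
  Submodule.span_le.2 (by rintro _ ⟨g, _, rfl⟩; exact kap_mem T t g)

theorem kap_pow (h : Lab ℓ) (h1 : Lf ℓ T T t 1 g) (k : ℕ) :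
    kap ℓ T t (g ^ k) = (k : ZMod p) • kap ℓ T t g := by
  induction k with
  | zero => simp
  | succ k ih => rw [pow_succ, kap_mul h (h1.pow k) h1, ih, pull1_one, Nat.cast_succ, add_smul,
      one_smul]

/-- every element of `Sp` is the class of one unipotent element -/
theorem mem_Sp [Fact p.Prime] (h : Lab ℓ) {w : Frm p n} :
    w ∈ Sp ℓ T t ↔ ∃ u, Lf ℓ T T t 1 u ∧ kap ℓ T t u = w := by
  refine ⟨fun hw => ?_, by rintro ⟨u, hu, rfl⟩; exact kap_mem_Sp hu⟩
  induction hw using Submodule.span_induction with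
  | mem x hx => obtain ⟨u, hu, rfl⟩ := hx; exact ⟨u, hu, rfl⟩
  | zero => exact ⟨1, Lf.one T t, kap_one T t⟩
  | add x y _ _ hx hy =>
    obtain ⟨u, hu, rfl⟩ := hx
    obtain ⟨v, hv, rfl⟩ := hy
    exact ⟨u * v, by simpa using hu.mul hv, by rw [kap_mul h hu hv, pull1_one]⟩
  | smul c x _ hx =>
    obtain ⟨u, hu, rfl⟩ := hx
    exact ⟨u ^ c.val, by simpa using hu.pow c.val, by rw [kap_pow h hu, ZMod.natCast_zmod_val]⟩

/-- two lifts of one element have the same class modulo `Sp` -/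
theorem kap_sub_mem (h : Lab ℓ) (h1 : Lf ℓ T T t z g) (h2 : Lf ℓ T T t z g') :
    kap ℓ T t g' - kap ℓ T t g ∈ Sp ℓ T t := by
  have hz : st z * z = 1 := h1.2.1 ▸ (h1.1.gr h).2.1.st_mul
  have h3 : Lf ℓ T T t 1 (st g * g') := hz ▸ (h1.star h).mul h2
  have h4 := kap_mul h h1 h3
  rw [← mul_assoc, h1.1.2.1.mul_st, one_mul, pull1_one] at h4
  rw [h4, add_sub_cancel_left]
  exact kap_mem_Sp h3

/-- the class of a lift can be changed by any element of `Sp` -/
theorem Lf.adjust [Fact p.Prime] (h : Lab ℓ) (h1 : Lf ℓ T T t z g) {w : Frm p n}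
    (hw : w ∈ Sp ℓ T t) : ∃ g', Lf ℓ T T t z g' ∧ kap ℓ T t g' = kap ℓ T t g + w := by
  obtain ⟨u, hu, rfl⟩ := (mem_Sp h).1 hw
  exact ⟨g * u, by simpa using h1.mul hu, by rw [kap_mul h h1 hu, pull1_one]⟩

theorem Lf.lifts_succ [Fact p.Prime] (h : Lab ℓ) (h1 : Lf ℓ T T t z g)
    (h2 : kap ℓ T t g ∈ Sp ℓ T t) : Lifts ℓ T (t + 1) z := by
  obtain ⟨g', h3, h4⟩ := h1.adjust h (neg_mem h2)
  exact ⟨g', h3.succ (by rw [h4, add_neg_cancel])⟩

/-- `Sp` is stable under every element that lifts -/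
theorem pull1_mem_Sp (h : Lab ℓ) (h1 : Lf ℓ T T t z g) {w : Frm p n} (hw : w ∈ Sp ℓ T t) :
    pull1 z w ∈ Sp ℓ T t := by
  refine Submodule.span_le.2 (?_ : _ ⊆ ((Sp ℓ T t).comap (pull1 z) : Set (Frm p n))) hw
  rintro _ ⟨u, hu, rfl⟩
  have h2 : Lf ℓ T T t z (u * g) := by simpa using hu.mul h1
  have h3 := kap_sub_mem h h1 h2
  rwa [kap_mul h hu h1, add_sub_cancel_right] at h3

end lifts

/-- isometries in `B` preserve the traces -/
theorem pull1_mem_Tr {z : Mat p n} (hz : z ∈ B) (hu : Un z) {w : Frm p n} (hw : w ∈ Tr ℓ B) :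
    pull1 z w ∈ Tr ℓ B := by
  refine Submodule.span_le.2 (?_ : _ ⊆ ((Tr ℓ B).comap (pull1 z) : Set (Frm p n))) hw
  rintro _ ⟨m, C, hC, v, rfl⟩
  change pull (fun _ => z) (trf m C v) ∈ Tr ℓ B
  rw [pull_trf, mul_assoc, hC.1 z hz, ← mul_assoc, hu.st_mul, one_mul]
  exact trf_mem_Tr m hC _

theorem mem_W0 {t : ℕ} {w : Frm p n} :
    w ∈ W0 ℓ B t ↔ w ∈ Wt ℓ t ∧ ∀ m, ∀ C ∈ Co ℓ B, con m C w = 0 := by
  simp [W0]

theorem con_pull1 {z C : Mat p n} (hz : z ∈ B) (hu : Un z) (hC : C ∈ Com B) (m : Fin 3)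
    (w : Frm p n) : con m C (pull1 z w) = st z *ᵥ con m C w := by
  rw [pull1, con_pull, ← hC z hz, mul_assoc, hu.mul_st, mul_one]

theorem pull1_trf {z C : Mat p n} (hz : z ∈ B) (hu : Un z) (hC : C ∈ Com B) (m : Fin 3)
    (v : Vec p n) : pull1 z (trf m C v) = trf m C (st z *ᵥ v) := by
  rw [pull1, pull_trf, mul_assoc, hC z hz, ← mul_assoc, hu.st_mul, one_mul]

theorem mem_spL {X : Type} [AddCommGroup X] [Module (ZMod p) X] {L : List X} {x : X}
    (h : x ∈ L) : x ∈ (spL L : Submodule (ZMod p) X) := Submodule.subset_span h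

theorem spL_le {X : Type} [AddCommGroup X] [Module (ZMod p) X] {L : List X}
    {S : Submodule (ZMod p) X} : spL L ≤ S ↔ ∀ x ∈ L, x ∈ S := Submodule.span_le

end Pool.Agent.P.MP_f1a348_lc.PG
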