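import Pool.Agent.P.MP_f1a348_lc.PG.PFrm2

/-!
Project PG: the definitions used in the specifications of the program.
-/

namespace Pool.Agent.P.MP_f1a348_lc.PG

open Matrix Module

variable {p n : ℕ} [Fact p.Prime] {c : Cx}

/-- the mathematical results that the program relies on -/
structure Mth (p n : ℕ) [Fact p.Prime] : Prop where
  five : 5 ≤ p
  prog : S_PROG p n
  natur : S_NATUR p n
  nat2 : S_NAT2 p n
  cut : S_CUT n
  spl : S_SPL p n
  mkg : S_MKG p n
  ref : S_REF p n
  inv : S_INV p n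
  cls : S_CLS p n
  pc0 : S_PC0 p n
  pcs : S_PCS p n
  pck : S_PCK p n
  cst : S_CST p n
  baer : S_BAER p
  tens : S_TENS p n

/-- the side `s` is well formed for the labels `l` -/
abbrev Gd (p n : ℕ) (l : V) (s : Sd) : Prop := Good (lab n l) (sdD p n s)

/-- the coefficient vectors that the program tries -/
def csS (p : ℕ) (c : Cx) (l : V) (s : Sd) (t : ℕ) : Set (ℕ → ZMod p) :=
  {v | ∃ x ∈ annP c l s t, tv p x = v}

/-- one refinement step, with change of basis `g` -/
structure Stp (p n : ℕ) (T0 T0' : V) (z z' : Lt × List Rt) (g : Mat p n) : Prop where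
  ref : Ref (lab n z.1.1) (alL p n z.1) (lab n z'.1.1) g (alL p n z'.1)
  mul : mV p n z'.1.2.1 = mV p n z.1.2.1 * g
  len : z'.2.length = z.2.length
  inv : (∃ y ∈ z.2, Inv p n T0 T0' z.1 y) → ∃ y ∈ z'.2, Inv p n T0 T0' z'.1 y

/-- the invariant of the main loop -/
structure Sta (p n : ℕ) (z : Lt × List Rt) : Prop where
  str : Str (lab n z.1.1) (alL p n z.1)
  par : Par (l0 n) (mV p n z.1.2.1)
  len : z.2.length * p ^ (16 * tt n * Phi (lab n z.1.1) (alL p n z.1)) ≤ p ^ bud n

/-- `G` is the multiplication table of the group numbered by `e` -/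
structure Tbl {A : Type} [Group A] {N : ℕ} (e : Fin N ≃ A) (G : Tb) : Prop where
  els : G.1 = List.range N
  bit : ∀ a b d : Fin N,
    G.2.1.getD (G.2.2 + ((a.val * N + b.val) * N + d.val)) false = true ↔ e a * e b = e d

theorem sdL_B (c : Cx) (T0 : V) (x : Lt) : (sdD p n (sdL c T0 x)).B = alL p n x := rfl

protected theorem Ok.sdL_T (h : Ok p n c) (T0 : V) (x : Lt) :
    (sdD p n (sdL c T0 x)).T = pull1 (mV p n x.2.1) (fV p n T0) := h.pull1P _ _

theorem Test.par (hp : 5 ≤ p) {ℓ : Ix n → ℕ} {B : Sub p n} (h : Str ℓ B) {z : Mat p n}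
    (hz : Test ℓ B z) : Par ℓ z ∧ Dg ℓ z :=
  ⟨(lo_spec h (hz.lo hp h).1).2, h.alg.dg _ (lo_spec h (hz.lo hp h).1).1⟩

end Pool.Agent.P.MP_f1a348_lc.PG
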