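import Pool.Agent.P.MP_f1a348_lc.PG.Iface

/-! Project PG: generically additive maps are linear. -/

namespace Pool.Agent.P.MP_f1a348_lc.PG

open Matrix

theorem s_ADD (p n : ℕ) [Fact p.Prime] (hp : 5 ≤ p) : S_ADD p n := by
  intro ℓ B r s W R b f h hW hR hd H
  set X : VS p n := Vb ℓ b ⊓ perp W
  have m1 : ∀ (T : VS p n) y, y ∈ T ⊔ orb (Com B) y := fun T y =>
    Submodule.mem_sup_right (self_mem_orb y)
  have m2 : ∀ {T : VS p n} {y v}, y ∈ T → v ∉ T → y + v ∉ T := fun hy hv e =>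
    hv ((Submodule.add_mem_iff_right _ hy).1 e)
  have m3 : ∀ y z, R ⊔ orb (Com B) (y + z) ≤ R ⊔ orb (Com B) y ⊔ orb (Com B) z := fun y z =>
    sup_le (le_sup_left.trans le_sup_left) (((hR.1.sup (stab_orb y)).sup (stab_orb z)).orb_le
      (add_mem (Submodule.mem_sup_left (m1 R y)) (m1 _ z)))
  have m4 : ∀ S T U : VS p n, S ⊔ U ≤ S ⊔ T ⊔ U := fun S T U => sup_le_sup_right le_sup_left _
  have o : ∀ y ∈ X, ∀ z ∈ X, ∀ u ∈ X, ∃ v ∈ X,
      v ∉ R ⊔ orb (Com B) y ⊔ orb (Com B) z ⊔ orb (Com B) u := fun y hy z hz u hu =>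
    (out h hW (((hR.sup h.alg (small_orb h hy.1)).sup h.alg (small_orb h hz.1)).sup h.alg
      (small_orb h hu.1)) hd).imp fun v hv => ⟨⟨hv.1, hv.2.1⟩, hv.2.2⟩
  have key : ∀ y ∈ X, ∀ v ∈ X, ∀ u ∈ X, v ∉ R ⊔ orb (Com B) y →
      u ∉ R ⊔ orb (Com B) y ⊔ orb (Com B) v → f (y + v) - f v = f (y + u) - f u := by
    intro y hy v hv u hu h1 h2
    have h3 := H _ (add_mem hy hv).1 (add_mem hy hv).2
      (fun e => m2 (m1 R y) h1 (Submodule.mem_sup_left e)) u hu.1 hu.2 fun e => h2 (m3 y v e)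
    have h4 := H v hv.1 hv.2 (fun e => h1 (Submodule.mem_sup_left e)) _ (add_mem hy hu).1
      (add_mem hy hu).2 fun e => m2 (Submodule.mem_sup_left (m1 R y)) h2
        (m4 _ _ _ e)
    rw [add_left_comm, ← add_assoc, h3] at h4
    rw [sub_eq_sub_iff_add_eq_add, h4, add_comm]
  have ind : ∀ y ∈ X, ∀ v ∈ X, ∀ u ∈ X, v ∉ R ⊔ orb (Com B) y → u ∉ R ⊔ orb (Com B) y →
      f (y + v) - f v = f (y + u) - f u := fun y hy v hv u hu h1 h2 => by
    obtain ⟨w, hw, h3⟩ := o y hy v hv u hu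
    rw [key y hy v hv w hw h1 fun e => h3 (Submodule.mem_sup_left e),
      key y hy u hu w hw h2 fun e => h3 (m4 _ _ _ e)]
  have o1 : ∀ y : X, ∃ v ∈ X, v ∉ R ⊔ orb (Com B) y := fun y =>
    (o y y.2 y y.2 y y.2).imp fun v hv => ⟨hv.1, by simpa using hv.2⟩
  choose v hv hv' using o1
  obtain ⟨L, hL⟩ := LinearMap.exists_extend (AddMonoidHom.toZModLinearMap p
    (AddMonoidHom.mk' (fun y : X => f (y + v y) - f (v y)) fun y z => by
      obtain ⟨u, hu, h1⟩ := o y y.2 z z.2 z z.2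
      rw [sup_assoc, sup_idem] at h1
      rw [ind _ (y + z).2 _ (hv _) u hu (hv' _) fun e => h1 (m3 y z e),
        ind _ y.2 _ (hv _) _ (add_mem z.2 hu) (hv' _)
          fun e => m2 (m1 _ _) h1 (Submodule.mem_sup_left e),
        ind _ z.2 _ (hv _) u hu (hv' _) fun e => h1 (m4 _ _ _ e),
        Submodule.coe_add, add_assoc, sub_add_sub_cancel]))
  refine ⟨L, fun y h1 h2 h3 => (LinearMap.congr_fun hL ⟨y, h1, h2⟩).trans ?_⟩
  exact sub_eq_iff_eq_add.2 (H y h1 h2 h3 _ (hv _).1 (hv _).2 (hv' ⟨y, h1, h2⟩))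

end Pool.Agent.P.MP_f1a348_lc.PG
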