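import Pool.Agent.P.MP_f1a348_lc.PG.Iface

/-! Project PG: the Baer sum. -/

namespace Pool.Agent.P.MP_f1a348_lc.PG

open scoped commutatorElement

namespace BAERx

variable {p : ℕ} {G : Type} [Group G]

/-- the commutator as a central element -/
def cm (h : Cl2 p G) (x y : G) : Subgroup.center G :=
  ⟨⁅x, y⁆, Subgroup.mem_center_iff.2 fun z =>
    (commutatorElement_eq_one_iff_commute.1 (h.cen x y z)).eq.symm⟩

theorem cm_coe (h : Cl2 p G) (x y : G) : ⁅x, y⁆ = (cm h x y : G) := rfl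

theorem sw (c : Subgroup.center G) (x : G) : (c : G) * x = x * c :=
  (Subgroup.mem_center_iff.1 c.2 x).symm

theorem cc (c d : Subgroup.center G) : Commute c d := Subtype.ext (sw c d)

theorem cm_inv (h : Cl2 p G) (x y : G) : cm h y x = (cm h x y)⁻¹ :=
  Subtype.ext (commutatorElement_inv x y).symm

theorem cm_left (h : Cl2 p G) (x y z : G) : cm h (x * y) z = cm h x z * cm h y z := by
  refine Subtype.ext ?_
  have e : ⁅x * y, z⁆ = x * ⁅y, z⁆ * (x⁻¹ * ⁅x, z⁆) := by
    simp only [commutatorElement_def]; group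
  change ⁅x * y, z⁆ = (cm h x z : G) * cm h y z
  rw [e, cm_coe h, cm_coe h, ← sw, mul_assoc, mul_inv_cancel_left, sw]

theorem cm_right (h : Cl2 p G) (x y z : G) : cm h x (y * z) = cm h x y * cm h x z := by
  rw [cm_inv, cm_left, (cc _ _).mul_inv, ← cm_inv, ← cm_inv]

theorem cm_cl (h : Cl2 p G) (c : Subgroup.center G) (z : G) : cm h c z = 1 :=
  Subtype.ext (commutatorElement_eq_one_iff_commute.2 (sw c z))

theorem cm_cr (h : Cl2 p G) (c : Subgroup.center G) (z : G) : cm h z c = 1 := by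
  rw [cm_inv, cm_cl, inv_one]

theorem comm (h : Cl2 p G) (x y : G) : x * y = y * x * cm h x y := by
  rw [← sw, ← cm_coe, commutatorElement_def]; group

theorem bs_eq (h : Cl2 p G) (x y : G) :
    bs p x y = x * y * (cm h y x ^ ((p + 1) / 2) : Subgroup.center G) := rfl

theorem half (h : Cl2 p G) (ho : Odd p) (c : Subgroup.center G) :
    c ^ ((p + 1) / 2) * c ^ ((p + 1) / 2) = c := by
  have e : (p + 1) / 2 + (p + 1) / 2 = p + 1 := by obtain ⟨k, rfl⟩ := ho; omega
  have e1 : c ^ p = 1 := Subtype.ext (h.pow c)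
  rw [← pow_add, e, pow_succ, e1, one_mul]

theorem mv (x z : G) (c d : Subgroup.center G) : x * c * z * d = x * z * (c * d : Subgroup.center G) := by
  rw [mul_assoc x, sw, Subgroup.coe_mul, mul_assoc, mul_assoc, mul_assoc]

theorem mv' (x : G) (c d : Subgroup.center G) : x * c * d = x * (c * d : Subgroup.center G) := by
  rw [Subgroup.coe_mul, mul_assoc]

end BAERx

open BAERx in
theorem s_BAER (p : ℕ) [Fact p.Prime] (hp : 5 ≤ p) : S_BAER p := by
  intro G _ h
  have ho : Odd p := (Fact.out : p.Prime).odd_of_ne_two (by omega)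
  refine ⟨fun x y => ?_, fun x y z => ?_, fun x j k => ?_, fun x y z => ?_, fun x y => ?_⟩
  · rw [bs_eq h, bs_eq h, comm h x y, mv', cm_inv h x y, inv_pow]
    congr 2
    rw [mul_inv_eq_iff_eq_mul, half h ho]
  · rw [bs_eq h, bs_eq h, bs_eq h, bs_eq h, mv, ← mul_assoc, ← mul_assoc, mv']
    congr 2
    simp only [cm_left, cm_right, cm_cl, cm_cr, mul_one]
    rw [(cc _ _).mul_pow, (cc _ _).mul_pow, ← mul_assoc, (cc _ _).eq]
  · rw [bs, commutatorElement_eq_one_iff_commute.2 (Commute.pow_pow_self x k j), one_pow, mul_one,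
      pow_add]
  · rw [bs_eq h, bs_eq h, cm_coe h, cm_coe h x, cm_coe h y, cm_cl, cm_left, cm_left, cm_cl]
    simp
  · rw [cm_coe h, ← Subgroup.coe_pow, bs_eq h, bs_eq h, cm_cl, mv', cm_inv h x y]
    simp

end Pool.Agent.P.MP_f1a348_lc.PG
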