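import Pool.Agent.P.MP_f1a348_lc.PG.Iface

namespace Pool.Agent.P.MP_f1a348_lc.PG

open Matrix Module

theorem s_CLS2 (p n : ℕ) [Fact p.Prime] (hp : 5 ≤ p) (hCLS : S_CLS p n) : S_CLS2 p n := by
  classical
  intro ℓ ℓ' B Bt B' h
  have _ := hp
  obtain ⟨c1, c2, -⟩ := hCLS ℓ' B' h.str'
  refine ⟨fun a => ?_, fun a β => ?_, fun γ t => ?_⟩
  · have e : ∀ β, (if Rep ℓ' B' β then mm ℓ ℓ' B' a β else 0) =
        ∑ γ, if Rep ℓ' B' β ∧ ℓ γ = ℓ a ∧ Cb ℓ' B' β γ ≠ ⊥ then 1 else 0 := fun β => by
      by_cases r : Rep ℓ' B' β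
      · rw [if_pos r, mm, Finset.card_filter]
        exact Finset.sum_congr rfl fun γ _ => by simp only [r, true_and]
      · simp [r]
    rw [Finset.sum_congr rfl fun β _ => e β, Finset.sum_comm, nb, Finset.card_filter]
    refine Finset.sum_congr rfl fun γ _ => ?_
    obtain ⟨α, a1, a2⟩ := c1 γ
    rw [Finset.sum_eq_single α]
    · simp only [a1, a2, true_and, and_true, ne_eq, not_false_eq_true]
    · intro β _ hβ
      exact if_neg fun r => hβ (c2 β α r.1 a1 (cb_trans h.str' r.2.2 (cb_symm h.str' a2)))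
    · simp
  · rw [mm, Finset.card_eq_sum_card_image ℓ']
    refine Finset.dvd_sum fun y hy => ?_
    obtain ⟨δ, hδ, rfl⟩ := Finset.mem_image.1 hy
    obtain ⟨-, d1, d2⟩ := Finset.mem_filter.1 hδ
    rw [nb_eq h.str' d2, nb]
    refine dvd_of_eq (congrArg Finset.card ?_)
    ext γ
    simp only [Finset.mem_filter, Finset.mem_univ, true_and]
    refine ⟨fun e => ⟨⟨?_, ?_⟩, e⟩, fun e => e.2⟩
    · rw [← d1]; exact le_antisymm (h.ref.fine _ _ e.le) (h.ref.fine _ _ e.ge)
    · rwa [Cb_congr rfl e]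
  · refine cb_ne_of (C := Matrix.single γ (c0 n) 1) ⟨fun b' hb' => ?_, ?_⟩ fun e => ?_
    · rw [h.ref.eq] at hb'
      obtain ⟨b, hb, rfl⟩ := hb'
      have hb1 := h.le hb
      have h1 := triv_act h.str t (single_mem_Vb rfl (1 : ZMod p)) hb1
      have h2 : ∀ α, b α γ = if α = γ then b (c0 n) (c0 n) else 0 := fun α => by
        have := congrFun h1 α
        simpa [Pi.single_apply] using this
      have h3 : ∀ β, b (c0 n) β = if β = c0 n then b (c0 n) (c0 n) else 0 := fun β => by
        split_ifs with e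
        · rw [e]
        · exact ((h.str.alg.dg b hb1).tri h.str.lab).row_c0 e
      have h4 : (gr ℓ' ∘ₗ cj (st (1 : Mat p n))) b = gr ℓ' b := by simp
      rw [h4]
      ext α β
      by_cases e1 : α = γ <;> by_cases e2 : β = c0 n
      · subst e1 e2
        rw [Matrix.single_mul_apply_same, Matrix.mul_single_apply_same, gr_apply, gr_apply,
          if_pos rfl, if_pos rfl, h2 α, if_pos rfl, one_mul, mul_one]
      · subst e1
        rw [Matrix.single_mul_apply_same, Matrix.mul_single_apply_of_ne _ _ _ _ _ e2, gr_apply,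
          h3 β, if_neg e2, ite_self, mul_zero]
      · subst e2
        rw [Matrix.single_mul_apply_of_ne _ _ _ _ _ e1, Matrix.mul_single_apply_same, gr_apply,
          h2 α, if_neg e1, ite_self, zero_mul]
      · rw [Matrix.single_mul_apply_of_ne _ _ _ _ _ e1, Matrix.mul_single_apply_of_ne _ _ _ _ _ e2]
    · ext α β
      rw [mul_pr_apply, pr_mul_apply, Matrix.single_apply]
      by_cases e : γ = α ∧ c0 n = β
      · obtain ⟨rfl, rfl⟩ := e
        simp
      · simp [e]
    · have := congrFun (congrFun e γ) (c0 n)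
      simp at this

end Pool.Agent.P.MP_f1a348_lc.PG
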