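import Pool.Agent.P.MP_f1a348_lc.PG.Iface

namespace Pool.Agent.P.MP_f1a348_lc.PG

open Matrix Module

namespace CSTx

variable {p n : ℕ} {ℓ : Ix n → ℕ} {T T' : Frm p n} {I : Set (Fin 3 → Ix n)} {t : ℕ}
  {z g g' u : Mat p n}

theorem lf (h1 : ∀ k, key ℓ k < t → k ∈ I) (h : LfI ℓ T T' I z g) : Lf ℓ T T' t z g :=
  ⟨h.1, h.2.1, fun k hk => by rw [Pi.sub_apply, h.2.2 k (h1 k hk), sub_self]⟩

theorem coord (hl : Lab ℓ) (hg : Lf ℓ T T' t z g) (hu : Lf ℓ T T t 1 u) {k : Fin 3 → Ix n}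
    (hk : key ℓ k ≤ t) :
    pull1 (g * u) T' k - T k = (pull1 g T' k - T k) + (pull1 u T k - T k) := by
  rcases hk.lt_or_eq with hk | hk
  · have e1 : pull1 (g * u) T' k - T k = 0 := (hg.mul hu).2.2 k hk
    have e2 : pull1 g T' k - T k = 0 := hg.2.2 k hk
    have e3 : pull1 u T k - T k = 0 := hu.2.2 k hk
    rw [e1, e2, e3, add_zero]
  · have e := congrFun (cmp_mul hl hg hu) k
    rw [pull1_one] at e
    have c : ∀ w : Frm p n, cmp ℓ t w k = w k := fun w => if_pos hk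
    rw [Pi.add_apply, c, c, c] at e
    exact e

theorem part2 (hl : Lab ℓ) (h1 : ∀ k, key ℓ k < t → k ∈ I) (h2 : ∀ k ∈ I, key ℓ k ≤ t)
    (hg : LfI ℓ T T' I z g) (hu : LfI ℓ T T I 1 u) : LfI ℓ T T' I z (g * u) := by
  have hm := (lf h1 hg).mul (lf h1 hu)
  refine ⟨hm.1, by rw [hm.2.1, mul_one], fun k hk => ?_⟩
  have e := coord hl (lf h1 hg) (lf h1 hu) (h2 k hk)
  rw [hg.2.2 k hk, hu.2.2 k hk, sub_self, add_zero, sub_eq_zero] at e
  exact e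

theorem part3 (hl : Lab ℓ) (h1 : ∀ k, key ℓ k < t → k ∈ I) (h2 : ∀ k ∈ I, key ℓ k ≤ t)
    (hg : LfI ℓ T T' I z g) (hg' : LfI ℓ T T' I z g') : LfI ℓ T T I 1 (st g * g') := by
  have hz : st z * z = 1 := by
    have := (hg.1.gr hl).2.1
    rw [hg.2.1] at this
    exact this
  have hm := ((lf h1 hg).star hl).mul (lf h1 hg')
  rw [hz] at hm
  refine ⟨hm.1, hm.2.1, fun k hk => ?_⟩
  have e := coord hl (lf h1 hg) hm (h2 k hk)
  rw [← mul_assoc, hg.1.2.1.mul_st, one_mul, hg.2.2 k hk, hg'.2.2 k hk, sub_self, zero_add] at e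
  exact sub_eq_zero.1 e.symm

theorem one (T : Frm p n) (I : Set (Fin 3 → Ix n)) : LfI ℓ T T I 1 1 :=
  ⟨Par.one, Dg.one.gr_eq, fun k _ => by rw [pull1_one]⟩

end CSTx

open CSTx in
theorem s_CST (p n : ℕ) [Fact p.Prime] (hp : 5 ≤ p) : S_CST p n := by
  intro ℓ T T' I i hl h1 h2
  refine ⟨⟨one T I, fun a ha b hb => part2 hl h1 h2 ha hb, fun a ha => ha.1.2.1, fun a ha => ?_⟩,
    fun z g u hg hu => ⟨part2 hl h1 h2 hg hu, coord hl (lf h1 hg) (lf h1 hu) le_rfl⟩,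
    fun z g g' hg hg' => part3 hl h1 h2 hg hg'⟩
  have := part3 hl h1 h2 ha (one T I)
  rw [mul_one] at this
  exact this

end Pool.Agent.P.MP_f1a348_lc.PG
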