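import Pool.Agent.P.MP_f1a348_lc.PG.Iface

/-! Project PG: dual frames. -/

namespace Pool.Agent.P.MP_f1a348_lc.PG

open Matrix Module

namespace DFRx

variable {p n : ℕ} [Fact p.Prime] {ℓ : Ix n → ℕ} {B : Sub p n} {a : Fin 3 → Ix n}
  {y : Fin 3 → Vec p n}

/-- the data attached to one slot -/
structure Dt (ℓ : Ix n → ℕ) (B : Sub p n) (a : Fin 3 → Ix n) (y : Fin 3 → Vec p n) (j : Fin 3)
    (π : Mat p n) (x : Vec p n) : Prop where
  mem : π ∈ B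
  iso : Iso π
  eo : π * eo ℓ B = π
  triv : Triv ℓ B (a j) → π = 0
  fy : ¬ Triv ℓ B (a j) → π *ᵥ y j = y j
  sy : st π *ᵥ y j = 0
  xm : x ∈ Vb ℓ (a j)
  x0 : x ≠ 0
  fx : ¬ Triv ℓ B (a j) → st π *ᵥ x = x
  im : im (st π) ≤ orb (Co ℓ B) x
  kill : ∀ k, k ≠ j → ∀ w ∈ orb (Co ℓ B) (y k), π *ᵥ w = 0 ∧ st π *ᵥ w = 0

theorem f3 : ∀ j : Fin 3, j ≠ j + 1 ∧ j ≠ j + 2 ∧ ∀ k, k ≠ j → k = j + 1 ∨ k = j + 2 := by decide

/-- orthogonal idempotents -/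
def Ort (π ρ : Mat p n) : Prop := π * ρ = 0 ∧ π * st ρ = 0 ∧ st π * ρ = 0 ∧ st π * st ρ = 0

theorem Ort.symm {π ρ : Mat p n} (h : Ort π ρ) : Ort ρ π := by
  obtain ⟨h1, h2, h3, h4⟩ := h
  refine ⟨st_eq_zero.1 ?_, st_eq_zero.1 ?_, st_eq_zero.1 ?_, st_eq_zero.1 ?_⟩ <;>
    simp only [st_mul, st_st, *]

theorem ort_of {π ρ ε : Mat p n} (h1 : π * ε = 0) (h2 : st π * ε = 0) (h3 : ε * ρ = ρ)
    (h4 : ε * st ρ = st ρ) : Ort π ρ :=
  ⟨by rw [← h3, ← mul_assoc, h1, zero_mul], by rw [← h4, ← mul_assoc, h1, zero_mul],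
    by rw [← h3, ← mul_assoc, h2, zero_mul], by rw [← h4, ← mul_assoc, h2, zero_mul]⟩

theorem step (hS : S_SEPI p n) (h : Str ℓ B) (hy : Gen ℓ B (fun j => (a j).rev) y) (j : Fin 3)
    {ε : Mat p n} (h1 : ε ∈ B) (h2 : ε * ε = ε) (h3 : st ε = ε)
    (h4 : ¬ Triv ℓ B (a j) → ε *ᵥ y j = 0)
    (h5 : ∀ k, ∀ w ∈ orb (Co ℓ B) (y k), ε *ᵥ w ∈ orb (Co ℓ B) (y k)) :
    ∃ π x, Dt ℓ B a y j π x ∧ π * ε = 0 ∧ st π * ε = 0 := by
  by_cases t : Triv ℓ B (a j)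
  · refine ⟨0, Pi.single (a j) 1, ⟨zero_mem _, ⟨by simp, by simp, by simp⟩, by simp, fun _ => rfl,
      fun h => absurd t h, by simp, single_mem_Vb rfl 1, fun h0 => ?_, fun h => absurd t h,
      ?_, fun k _ w _ => by simp⟩, by simp, by simp⟩
    · simpa using congrFun h0 (a j)
    · rintro _ ⟨v, rfl⟩
      simp
  have t' : ¬ Triv ℓ B (a j).rev := mt (triv_rev h).1 t
  obtain ⟨π, x, c1, c2, c3, c4, c5, c6, -, c8, c9, c10, c11⟩ := hS ℓ B
    ((orb (Co ℓ B) (y (j + 1)) ⊔ orb (Co ℓ B) (y (j + 2))) ⊔ im ε) (a j).rev (y j) h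
    (((stab_orb_co _).sup (stab_orb_co _)).sup (stab_im h1)) t' (hy.mem j)
    (isot_iff.2 (orb_co_ntriv h.alg (hy.mem j) t' ▸ hy.orth j j))
    (mem_perp_sup.2 ⟨mem_perp_sup.2 ⟨hy.orth _ j, hy.orth _ j⟩, mem_perp.2 fun w hw => by
      obtain ⟨v, rfl⟩ := mem_im.1 hw
      rw [ip_mulVec, h3, h4 t, ip_zero_right]⟩) (fun hm => by
      obtain ⟨r, hr, w, hw, e⟩ := Submodule.mem_sup.1 hm
      obtain ⟨v, rfl⟩ := mem_im.1 hw
      obtain ⟨r1, hr1, r2, hr2, rfl⟩ := Submodule.mem_sup.1 hr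
      have e1 := h4 t
      rw [← e, mulVec_add, mulVec_mulVec, h2, mulVec_add] at e1
      refine hy.ind j t' ?_
      rw [← e, eq_neg_of_add_eq_zero_right e1]
      exact add_mem hr (neg_mem (Submodule.add_mem_sup (h5 _ _ hr1) (h5 _ _ hr2))))
  rw [Fin.rev_rev] at c8
  refine ⟨π, x, ⟨c1.mem, c2, c3, fun h => absurd h t, fun _ => c4, c5, c8, fun h0 => ?_,
    fun _ => c10, orb_co_ntriv h.alg c8 t ▸ c11, fun k hk w hw => c6 w ?_⟩,
    mat_ext fun v => ?_, mat_ext fun v => ?_⟩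
  · simp [h0] at c9
  · rcases (f3 j).2.2 k hk with rfl | rfl
    · exact Submodule.mem_sup_left (Submodule.mem_sup_left hw)
    · exact Submodule.mem_sup_left (Submodule.mem_sup_right hw)
  · rw [← mulVec_mulVec, zero_mulVec]
    exact (c6 _ (Submodule.mem_sup_right (mem_im.2 ⟨v, rfl⟩))).1
  · rw [← mulVec_mulVec, zero_mulVec]
    exact (c6 _ (Submodule.mem_sup_right (mem_im.2 ⟨v, rfl⟩))).2

variable {j : Fin 3} {π : Mat p n} {x : Vec p n}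

theorem Dt.pres (h : Str ℓ B) (d : Dt ℓ B a y j π x) (k : Fin 3) (w : Vec p n)
    (hw : w ∈ orb (Co ℓ B) (y k)) : (π + st π) *ᵥ w ∈ orb (Co ℓ B) (y k) := by
  rw [add_mulVec]
  by_cases e : k = j
  · subst e
    by_cases t : Triv ℓ B (a k)
    · simp [d.triv t]
    · obtain ⟨C, hC, rfl⟩ := mem_orb.1 hw
      rwa [← com_mulVec hC.1 d.mem, ← com_mulVec hC.1 (h.alg.star _ d.mem), d.fy t, d.sy,
        mulVec_zero, add_zero]
  · rw [(d.kill k e w hw).1, (d.kill k e w hw).2, add_zero]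
    exact zero_mem _

theorem Dt.killy (h : Str ℓ B) (hy : Gen ℓ B (fun j => (a j).rev) y) (d : Dt ℓ B a y j π x)
    {k : Fin 3} (e : k ≠ j) (t : ¬ Triv ℓ B (a k)) : (π + st π) *ᵥ y k = 0 := by
  have hw : y k ∈ orb (Co ℓ B) (y k) :=
    orb_co_ntriv h.alg (hy.mem k) (mt (triv_rev h).1 t) ▸ self_mem_orb _
  rw [add_mulVec, (d.kill k e _ hw).1, (d.kill k e _ hw).2, add_zero]

theorem fin (h : Str ℓ B) {π : Fin 3 → Mat p n} {x : Fin 3 → Vec p n}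
    (d : ∀ j, Dt ℓ B a y j (π j) (x j)) (o : ∀ i j, i ≠ j → Ort (π i) (π j)) :
    Gen ℓ B a x ∧ (∀ j, x j ≠ 0) ∧ Frame ℓ B a x (fun j => st (π j)) ∧
      ∀ j, ¬ Triv ℓ B (a j) → st (st (π j)) *ᵥ y j = y j := by
  have key : ∀ i, ∀ w ∈ orb (Co ℓ B) (x i), st (π i) *ᵥ w = w := fun i w hw => by
    by_cases t : Triv ℓ B (a i)
    · rw [orb_co_triv (d i).xm t, Submodule.mem_bot] at hw
      rw [hw, mulVec_zero]
    · obtain ⟨C, hC, rfl⟩ := mem_orb.1 hw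
      rw [← com_mulVec hC.1 (h.alg.star _ (d i).mem), (d i).fx t]
  refine ⟨⟨fun j => (d j).xm, fun i j => ?_, fun j t hm => (d j).x0 ?_⟩, fun j => (d j).x0,
    ⟨fun j => h.alg.star _ (d j).mem, fun j => (d j).iso.star, fun j => ?_,
      fun j t => by rw [(d j).triv t, st_zero], fun j => (d j).fx, fun j => (d j).im,
      fun i j e => ?_⟩, fun j t => by rw [st_st, (d j).fy t]⟩
  · by_cases t : Triv ℓ B (a j)
    · exact triv_mem_perp h (d j).xm t _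
    refine mem_perp.2 fun w hw => ?_
    have e : π j * st (π i) = 0 := by
      by_cases e : j = i
      · exact e ▸ (d j).iso.2.1
      · exact (o j i e).2.1
    rw [← key i w hw, ← (d j).fx t, ip_mulVec_right, st_st, mulVec_mulVec, e, zero_mulVec,
      ip_zero_left]
  · obtain ⟨u, hu, v, hv, e⟩ := Submodule.mem_sup.1 hm
    rw [← (d j).fx t, ← e, mulVec_add, ← key _ u hu, ← key _ v hv, mulVec_mulVec, mulVec_mulVec,
      (o j (j + 1) (f3 j).1).2.2.2, (o j (j + 2) (f3 j).2.1).2.2.2,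
      zero_mulVec, zero_mulVec, add_zero]
  · rw [← st_eo h, ← st_mul, (h.alg.dg _ (d j).mem).comm_eo, (d j).eo]
  · rw [st_st, st_st]
    exact ⟨(o i j e).2.2.2, (o i j e).2.2.1, (o i j e).2.1⟩

end DFRx

open DFRx in
theorem s_DFR (p n : ℕ) [Fact p.Prime] (hp : 5 ≤ p) (hSEPI : S_SEPI p n) : S_DFR p n := by
  intro ℓ B a y h hy
  have sa : ∀ π : Mat p n, st (π + st π) = π + st π := fun π => by rw [st_add, st_st, add_comm]
  obtain ⟨π0, x0, d0, -, -⟩ := step hSEPI h hy 0 (zero_mem B) (by simp) (by simp) (by simp)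
    (by simp)
  obtain ⟨π1, x1, d1, a1, b1⟩ := step hSEPI h hy 1 (add_mem d0.mem (h.alg.star _ d0.mem))
    d0.iso.idem (sa _) (d0.killy h hy (by decide)) (d0.pres h)
  have f : ∀ {π : Mat p n}, Iso π → (π + st π) * π = π ∧ (π + st π) * st π = st π := fun h =>
    ⟨by rw [add_mul, h.1, h.2.2, add_zero], by rw [add_mul, h.2.1, h.star.1, zero_add]⟩
  have o10 := ort_of a1 b1 (f d0.iso).1 (f d0.iso).2
  have g : ∀ {π ρ : Mat p n}, Ort π ρ → (π + st π) * ρ = 0 ∧ (π + st π) * st ρ = 0 := fun h =>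
    ⟨by rw [add_mul, h.1, h.2.2.1, add_zero], by rw [add_mul, h.2.1, h.2.2.2, zero_add]⟩
  have e0 : (π0 + st π0 + (π1 + st π1)) * π0 = π0 ∧ (π0 + st π0 + (π1 + st π1)) * st π0 = st π0 :=
    ⟨by rw [add_mul, (f d0.iso).1, (g o10).1, add_zero],
      by rw [add_mul, (f d0.iso).2, (g o10).2, add_zero]⟩
  have e1 : (π0 + st π0 + (π1 + st π1)) * π1 = π1 ∧ (π0 + st π0 + (π1 + st π1)) * st π1 = st π1 :=
    ⟨by rw [add_mul, (f d1.iso).1, (g o10.symm).1, zero_add],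
      by rw [add_mul, (f d1.iso).2, (g o10.symm).2, zero_add]⟩
  obtain ⟨π2, x2, d2, a2, b2⟩ := step hSEPI h hy 2 (ε := π0 + st π0 + (π1 + st π1))
    (add_mem (add_mem d0.mem (h.alg.star _ d0.mem)) (add_mem d1.mem (h.alg.star _ d1.mem)))
    (by rw [mul_add, mul_add, mul_add, e0.1, e0.2, e1.1, e1.2]) (by rw [st_add, sa, sa])
    (fun t => by
      rw [add_mulVec, d0.killy h hy (by decide) t, d1.killy h hy (by decide) t, add_zero])
    fun k w hw => by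
      rw [add_mulVec]
      exact add_mem (d0.pres h k w hw) (d1.pres h k w hw)
  have o20 := ort_of a2 b2 e0.1 e0.2
  have o21 := ort_of a2 b2 e1.1 e1.2
  refine ⟨![x0, x1, x2], _, fin h (π := ![π0, π1, π2]) (fun j => ?_) fun i j e => ?_⟩
  · fin_cases j
    exacts [d0, d1, d2]
  · fin_cases i <;> fin_cases j
    exacts [absurd rfl e, o10.symm, o20.symm, o10, absurd rfl e, o21.symm, o20, o21, absurd rfl e]

end Pool.Agent.P.MP_f1a348_lc.PG
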