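import Pool.Agent.P.MP_f1a348_lc.PG.Iface

/-! Project PG: traceless forms are spanned by generic pure forms. -/

namespace Pool.Agent.P.MP_f1a348_lc.PG

open Matrix Module

namespace DUALx

variable {p n : ℕ}

theorem dual_eq (φ : Frm p n →ₗ[ZMod p] ZMod p) (v : Frm p n) :
    φ v = pair v fun i => φ (Pi.single (fun j => (i j).rev) 1) := by
  simp only [pair, Fin.rev_rev]
  conv_lhs => rw [pi_eq_sum_univ' v]
  rw [map_sum]
  exact Finset.sum_congr rfl fun i _ => by rw [map_smul, smul_eq_mul]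

end DUALx

theorem s_DUAL (p n : ℕ) [Fact p.Prime] (hp : 5 ≤ p) (hTR : S_TR p n) : S_DUAL p n := by
  intro ℓ B a w h hB hw
  by_contra hn
  obtain ⟨φ, h0, h1⟩ := Submodule.exists_dual_map_eq_bot_of_notMem hn inferInstance
  obtain ⟨w1, h2⟩ : ∃ w1 : Frm p n, ∀ v, φ v = pair v w1 := ⟨_, DUALx.dual_eq φ⟩
  have h3 : cmp ℓ (key ℓ fun j => (a j).rev) w1 ∈ Tr ℓ B := by
    refine hTR ℓ B (fun j => (a j).rev) _ h hB (cmp_mem _ _) fun y hy => ?_
    rw [ev_cmp h.lab w1 hy.mem, ← pair_pf, ← h2, ← Submodule.mem_bot (ZMod p), ← h1]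
    exact Submodule.mem_map_of_mem (Submodule.subset_span ⟨y, hy, rfl⟩)
  have h4 := mem_W0_iff.1 hw
  have h5 := h4.2 _ h3
  refine h0 ?_
  rw [h2, ← mem_Wt_iff.1 h4.1, cmp_key h.lab, pair_pull]
  simp only [st_pr h.lab]
  rwa [cmp_key h.lab] at h5

end Pool.Agent.P.MP_f1a348_lc.PG
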