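import Pool.Agent.P.MP_f1a348_lc.PG.Iface

/-!
Project PG: lifting the class idempotent.
-/

namespace Pool.Agent.P.MP_f1a348_lc.PG

open Matrix Module

namespace ETAx

variable {p n : ℕ} {ℓ : Ix n → ℕ}

theorem nil_step {N : Mat p n} (hN : Tri ℓ N) (h0 : gr ℓ N = 0) (k : ℕ) :
    ∀ α γ, (N ^ k) α γ ≠ 0 → ℓ α + k ≤ ℓ γ := by
  induction k with
  | zero =>
    intro α γ e
    have : α = γ := by
      by_contra h
      exact e (by rw [pow_zero]; exact Matrix.one_apply_ne h)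
    subst this
    omega
  | succ k ih =>
    intro α γ e
    rw [pow_succ] at e
    obtain ⟨δ, h1, h2⟩ := exists_of_mul_ne e
    have a1 := ih α δ h1
    have a2 := (hN _ _ h2).1
    have a3 : ℓ δ ≠ ℓ γ := fun h => h2 (by
      have := congrFun (congrFun h0 δ) γ
      rwa [gr_apply, if_pos h] at this)
    omega

theorem nil (hl : Lab ℓ) {N : Mat p n} (hN : Tri ℓ N) (h0 : gr ℓ N = 0) {k : ℕ}
    (hk : 2 * n + 1 ≤ k) : N ^ k = 0 := by
  ext α γ
  by_contra e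
  have h1 := nil_step hN h0 k α γ e
  have h2 := hl.lt γ
  omega

theorem dg_pow {g : Mat p n} (hg : Dg ℓ g) (k : ℕ) : Dg ℓ (g ^ k) := by
  induction k with
  | zero => rw [pow_zero]; exact Dg.one
  | succ k ih => rw [pow_succ]; exact ih.mul hg

theorem rank_diag [Fact p.Prime] (P : Ix n → Prop) [DecidablePred P] (a : Ix n) :
    finrank (ZMod p) (im (Matrix.diagonal fun γ => if P γ then 0 else 1 : Mat p n) ⊓ Vb ℓ a :
      VS p n) = (Finset.univ.filter fun γ => ℓ γ = ℓ a ∧ ¬ P γ).card := by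
  let W : VS p n := im (Matrix.diagonal fun γ => if P γ then 0 else 1 : Mat p n) ⊓ Vb ℓ a
  have hW : ∀ x : Vec p n, x ∈ W ↔ ∀ γ, ¬ (ℓ γ = ℓ a ∧ ¬ P γ) → x γ = 0 := by
    intro x
    constructor
    · rintro ⟨⟨y, hy⟩, h2⟩ γ hγ
      by_cases h : ℓ γ = ℓ a
      · have hP : P γ := by
          by_contra h3
          exact hγ ⟨h, h3⟩
        rw [← hy]
        simp [Matrix.mulVec_diagonal, hP]
      · exact h2 γ h
    · intro h
      refine ⟨⟨x, ?_⟩, fun γ hγ => h γ fun e => hγ e.1⟩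
      funext γ
      by_cases hP : P γ
      · simp [Matrix.mulVec_diagonal, hP, h γ fun e => e.2 hP]
      · simp [Matrix.mulVec_diagonal, hP]
  let e : W ≃ₗ[ZMod p] ({γ : Ix n // ℓ γ = ℓ a ∧ ¬ P γ} → ZMod p) :=
    { toFun := fun x γ => x.1 γ.1
      map_add' := fun _ _ => rfl
      map_smul' := fun _ _ => rfl
      invFun := fun y => ⟨fun γ => if h : ℓ γ = ℓ a ∧ ¬ P γ then y ⟨γ, h⟩ else 0,
        (hW _).2 fun γ h => dif_neg h⟩
      left_inv := fun x => Subtype.ext (funext fun γ => by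
        by_cases h : ℓ γ = ℓ a ∧ ¬ P γ
        · exact dif_pos h
        · exact (dif_neg h).trans ((hW _).1 x.2 γ h).symm)
      right_inv := fun y => funext fun γ => dif_pos γ.2 }
  change finrank (ZMod p) W = _
  rw [e.finrank_eq, Module.finrank_fintype_fun_eq_card, Fintype.card_subtype]

theorem rank_conj [Fact p.Prime] {η ε u v : Mat p n} (hu : Dg ℓ u) (hv : Dg ℓ v)
    (uv : u * v = 1) (vu : v * u = 1) (hc : η * u = u * ε) (a : Ix n) :
    finrank (ZMod p) (im η ⊓ Vb ℓ a : VS p n) = finrank (ZMod p) (im ε ⊓ Vb ℓ a : VS p n) := by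
  have inj : Function.Injective u.mulVecLin := fun x y h => by
    have h1 : v *ᵥ (u *ᵥ x) = v *ᵥ (u *ᵥ y) := congrArg (fun z => v *ᵥ z) h
    rwa [Matrix.mulVec_mulVec, Matrix.mulVec_mulVec, vu, Matrix.one_mulVec,
      Matrix.one_mulVec] at h1
  have h1 : η = u * ε * v := by rw [← hc, mul_assoc, uv, mul_one]
  have key : (im η ⊓ Vb ℓ a : VS p n) = (im ε ⊓ Vb ℓ a : VS p n).map u.mulVecLin := by
    ext x
    constructor
    · rintro ⟨⟨y, hy⟩, h2⟩
      refine ⟨v *ᵥ x, ⟨⟨v *ᵥ y, ?_⟩, hv.mulVec_mem h2⟩, ?_⟩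
      · change ε *ᵥ (v *ᵥ y) = v *ᵥ x
        have hy' : η *ᵥ y = x := hy
        rw [← hy', h1, Matrix.mulVec_mulVec, Matrix.mulVec_mulVec, ← mul_assoc, ← mul_assoc, vu,
          one_mul]
      · change u *ᵥ (v *ᵥ x) = x
        rw [Matrix.mulVec_mulVec, uv, Matrix.one_mulVec]
    · rintro ⟨y, ⟨⟨z, hz⟩, h2⟩, rfl⟩
      refine ⟨⟨u *ᵥ z, ?_⟩, hu.mulVec_mem h2⟩
      change η *ᵥ (u *ᵥ z) = u *ᵥ y
      have hz' : ε *ᵥ z = y := hz
      rw [← hz', Matrix.mulVec_mulVec, Matrix.mulVec_mulVec, hc]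
  rw [key]
  exact (LinearEquiv.finrank_eq (Submodule.equivMapOfInjective _ inj _)).symm

end ETAx

open ETAx in
theorem s_ETA (p n : ℕ) [Fact p.Prime] (hp : 5 ≤ p) : S_ETA p n := by
  classical
  intro ℓ ℓ' B Bt B' β h
  have hl' : Lab ℓ' := h.ref.lab
  set ε : Mat p n := ec ℓ' B' β with hε
  have εB : ε ∈ B' := by
    refine diagonal_mem h.str' fun α γ e => ?_
    by_cases h1 : Cb ℓ' B' β α = ⊥
    · have h2 : Cb ℓ' B' β γ = ⊥ := by
        by_contra h2
        exact cb_trans h.str' h2 (cb_symm h.str' e) h1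
      rw [if_pos h1, if_pos h2]
    · rw [if_neg h1, if_neg (cb_trans h.str' h1 e)]
  have εε : ε * ε = ε := by
    rw [hε, ec, Matrix.diagonal_mul_diagonal]
    congr 1
    funext γ
    split_ifs <;> simp
  have εd : ∀ m : Ix n → ℕ, Dg m ε := fun m => dg_diagonal _
  have εt : Tri ℓ' ε := (εd ℓ').tri hl'
  have εg : gr ℓ' ε = ε := (εd ℓ').gr_eq
  have tri : ∀ b ∈ Bt, Tri ℓ' b := fun b hb => by simpa using h.ref.tri b hb
  obtain ⟨b, hb, hbε⟩ : ∃ b ∈ Bt, gr ℓ' b = ε := by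
    have h1 := εB
    rw [h.ref.eq] at h1
    obtain ⟨b, hb, e⟩ := h1
    exact ⟨b, hb, by simpa using e⟩
  have hq : 2 * n + 1 ≤ p ^ (2 * n + 1) := (Nat.lt_pow_self (by omega)).le
  have hq0 : p ^ (2 * n + 1) - 1 + 1 = p ^ (2 * n + 1) := by omega
  have : CharP (Mat p n) p := Matrix.charP p
  set q := p ^ (2 * n + 1) with hqd
  have bt := tri b hb
  have εq : ε ^ q = ε := by
    rw [← hq0]
    exact IsIdempotentElem.pow_succ_eq _ εε
  have ηm : b ^ q ∈ Bt := h.alg.pow hb q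
  have ηη : b ^ q * b ^ q = b ^ q := by
    have h1 : (b * b - b) ^ q = 0 := nil hl' ((bt.mul bt).sub bt)
      (by rw [map_sub, gr_mul bt bt, hbε, εε, sub_self]) hq
    rw [hqd, sub_pow_char_pow_of_commute p _ ((Commute.refl b).mul_left (Commute.refl b)),
      (Commute.refl b).mul_pow, sub_eq_zero] at h1
    exact h1
  have ηg : gr ℓ' (b ^ q) = ε := by rw [gr_pow bt, hbε, εq]
  generalize b ^ q = η at ηm ηη ηg
  have ηt := tri η ηm
  have ηd : Dg ℓ η := h.alg.dg η ηm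
  set u : Mat p n := η * ε + (1 - η) * (1 - ε) with hu
  have ut : Tri ℓ' u := (ηt.mul εt).add ((Tri.one.sub ηt).mul (Tri.one.sub εt))
  have ud : Dg ℓ u := (ηd.mul (εd ℓ)).add ((Dg.one.sub ηd).mul (Dg.one.sub (εd ℓ)))
  have ug : gr ℓ' u = 1 := by
    rw [hu, map_add, gr_mul ηt εt, gr_mul (Tri.one.sub ηt) (Tri.one.sub εt), map_sub, map_sub,
      gr_one, ηg, εg, εε, sub_mul, mul_sub, mul_sub, εε]
    simp
  have uq : u ^ q = 1 := by
    have h1 : (u - 1) ^ q = 0 := nil hl' (ut.sub Tri.one) (by rw [map_sub, ug, gr_one, sub_self]) hq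
    rw [hqd, sub_pow_char_pow_of_commute p _ (Commute.one_right u), one_pow, sub_eq_zero] at h1
    exact h1
  have uv : u * u ^ (q - 1) = 1 := by rw [← pow_succ', hq0, uq]
  have vu : u ^ (q - 1) * u = 1 := by rw [← pow_succ, hq0, uq]
  have cj : η * u = u * ε := by
    have a1 : η * u = η * ε := by
      rw [hu, mul_add, ← mul_assoc, ηη, ← mul_assoc, mul_sub η 1 η, ηη]
      simp
    have a2 : u * ε = η * ε := by
      rw [hu, add_mul, mul_assoc, εε, mul_assoc, sub_mul 1 ε, εε]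
      simp
    rw [a1, a2]
  refine ⟨η, u, u ^ (q - 1), ηm, ηη, ηg, ut, ut.pow _, ud, dg_pow ud _, ug, ?_, uv, vu, cj,
    fun a => ?_⟩
  · rw [gr_pow ut, ug, one_pow]
  · rw [rank_conj ud (dg_pow ud _) uv vu cj a]
    exact rank_diag (fun γ => Cb ℓ' B' β γ = ⊥) a

end Pool.Agent.P.MP_f1a348_lc.PG
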