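import Pool.Agent.P.MP_f1a348_lc.PG.Iface

/-! Project PG: cocycles of forms with a non-trivial slot are coboundaries on the tests. -/

namespace Pool.Agent.P.MP_f1a348_lc.PG

open Matrix Module

namespace EXx

variable {p n : ℕ} {ℓ : Ix n → ℕ} {B : Sub p n}

theorem t0 {X : Type} (m : Fin 3) (q : X × X × X) : (tri3 m).symm q m = q.1 :=
  congrArg Prod.fst ((tri3 m).apply_symm_apply q)

theorem t1' {X : Type} (m : Fin 3) (q : X × X × X) : (tri3 m).symm q (m + 1) = q.2.1 :=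
  congrArg (fun r => r.2.1) ((tri3 m).apply_symm_apply q)

theorem t2' {X : Type} (m : Fin 3) (q : X × X × X) : (tri3 m).symm q (m + 2) = q.2.2 :=
  congrArg (fun r => r.2.2) ((tri3 m).apply_symm_apply q)

/-- the slice of a form at the index `a0` in the place `m` -/
noncomputable def sc (m : Fin 3) (a0 : Ix n) : Frm p n →ₗ[ZMod p] Mat p n where
  toFun w := Matrix.of fun α β => w ((tri3 m).symm (a0, β, α.rev))
  map_add' _ _ := rfl
  map_smul' _ _ := rfl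

theorem sc_apply (m : Fin 3) (a0 : Ix n) (w : Frm p n) (α β : Ix n) :
    sc m a0 w α β = w ((tri3 m).symm (a0, β, α.rev)) := rfl

theorem sc_trf (m : Fin 3) (a0 : Ix n) (Y : Mat p n) (u : Vec p n) :
    sc m a0 (trf m Y u) = u a0.rev • Y := by
  ext α β
  rw [sc_apply, trf_apply, t0, t1', t2', Fin.rev_rev, Matrix.smul_apply, smul_eq_mul, mul_comm]

theorem trf_sub (m : Fin 3) (C D : Mat p n) (v : Vec p n) :
    trf m (C - D) v = trf m C v - trf m D v := by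
  funext i; simp [trf_apply, sub_mul]

theorem sc_supp (h : Lab ℓ) {a : Fin 3 → Ix n} (m : Fin 3) {w : Frm p n}
    (hw : w ∈ Wt ℓ (key ℓ a)) :
    pr ℓ (a (m + 2)).rev * sc m (a m) w * pr ℓ (a (m + 1)) = sc m (a m) w := by
  ext α β
  rw [mul_pr_apply, pr_mul_apply]
  split_ifs with h1 h2
  · rfl
  · refine (hw _ fun e => h2 ?_).symm
    have := (key_eq_iff h).1 e (m + 2)
    rw [t2'] at this
    exact h.rev_eq'.1 this
  · refine (hw _ fun e => h1 ?_).symm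
    have := (key_eq_iff h).1 e (m + 1)
    rwa [t1'] at this

theorem cmp_trf (h : Lab ℓ) (a : Fin 3 → Ix n) (m : Fin 3) (C : Mat p n) (u : Vec p n) :
    cmp ℓ (key ℓ a) (trf m C u) =
      trf m (pr ℓ (a (m + 2)).rev * C * pr ℓ (a (m + 1))) (pr ℓ (a m).rev *ᵥ u) := by
  rw [cmp_key h, pull_trf, st_pr h, st_pr h]

variable [Fact p.Prime]

theorem odd (hp : 5 ≤ p) (h : Str ℓ B) {t : ℕ} {c : Mat p n → Frm p n} (hc : Coc ℓ B t c)
    (ho : ∀ w ∈ Wt ℓ t, pull1 (z0 ℓ B) w = -w) :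
    ∃ θ ∈ Wt ℓ t, ∀ z, Test ℓ B z → pull1 z θ - θ - c z ∈ Tr ℓ B := by
  refine ⟨(-(2 : ZMod p)⁻¹) • c (z0 ℓ B), Submodule.smul_mem _ _ (hc.mem _), fun z hz => ?_⟩
  have h0 := ((test_z0 (ℓ := ℓ) (B := B)).lo hp h).1
  have h1 := (hz.lo hp h).1
  have e1 := hc.mul _ h0 _ h1
  have e2 := hc.mul _ h1 _ h0
  rw [ho _ (hc.mem z), ← com_z0 h.alg z (lo_spec h h1).1] at e2
  have e3 := sub_mem e1 e2
  refine mem_of_two_smul hp ?_
  have e4 : (2 : ZMod p) * -(2 : ZMod p)⁻¹ = -1 := by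
    rw [mul_neg, mul_inv_cancel₀ (two_ne_zero' hp)]
  have e5 : (2 : ZMod p) • (pull1 z ((-(2 : ZMod p)⁻¹) • c (z0 ℓ B)) -
      (-(2 : ZMod p)⁻¹) • c (z0 ℓ B) - c z) =
      c (z0 ℓ B * z) - (pull1 z (c (z0 ℓ B)) + c z) -
        (c (z0 ℓ B * z) - (-c z + c (z0 ℓ B))) := by
    rw [map_smul, smul_sub, smul_sub, smul_smul, smul_smul, e4, two_smul, neg_one_smul,
      neg_one_smul]
    abel
  rw [e5]
  exact e3

theorem eq_of_triv (h : Str ℓ B) {a β : Ix n} (t : Triv ℓ B a) (e : ℓ β = ℓ a) : β = a := by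
  have h1 := triv_nb h t
  rw [nb] at h1
  exact Finset.card_le_one.1 h1.le β (by simpa using e) a (by simp)

theorem eq_trf (h : Str ℓ B) {a : Fin 3 → Ix n} {m : Fin 3} (t : Triv ℓ B (a m)) {w : Frm p n}
    (hw : w ∈ Wt ℓ (key ℓ a)) : w = trf m (sc m (a m) w) (Pi.single (a m).rev 1) := by
  funext i
  rw [trf_apply, sc_apply, Fin.rev_rev]
  by_cases e : i m = a m
  · rw [← e, Pi.single_eq_same, mul_one]
    exact congrArg w ((tri3 m).symm_apply_apply i).symm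
  · rw [Pi.single_eq_of_ne (fun e' => e (Fin.rev_inj.1 e')), mul_zero]
    exact hw i fun e' => e (eq_of_triv h t ((key_eq_iff h.lab).1 e' m))

theorem pull1_v (h : Str ℓ B) {a0 : Ix n} (t : Triv ℓ B a0) (m : Fin 3) {g : Mat p n}
    (hg : g ∈ Lo B) (Y : Mat p n) :
    pull1 g (trf m Y (Pi.single a0.rev 1)) = trf m (st g * Y * g) (Pi.single a0.rev 1) := by
  rw [pull1, pull_trf, lo_triv h (lo_st h.alg hg) ((triv_rev h).2 t) (single_mem_Vb rfl 1)]

theorem sc_tr (h : Str ℓ B) {a : Fin 3 → Ix n} {m : Fin 3} (t : Triv ℓ B (a m)) {w : Frm p n}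
    (hw : w ∈ Tr ℓ B) :
    sc m (a m) (cmp ℓ (key ℓ a) w) ∈ Cb ℓ B (a (m + 2)).rev (a (m + 1)) := by
  induction hw using Submodule.span_induction with
  | mem x hx =>
    obtain ⟨m', C, hC, u, rfl⟩ := hx
    rw [cmp_trf h.lab]
    have hm : m' = m ∨ m' + 1 = m ∨ m' + 2 = m :=
      (by decide : ∀ m m' : Fin 3, m' = m ∨ m' + 1 = m ∨ m' + 2 = m) m m'
    rcases hm with e | e | e
    · subst e
      rw [sc_trf]
      exact Submodule.smul_mem _ _ (cb_of_com h.alg hC.1 _ _)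
    · have e0 : C * pr ℓ (a (m' + 1)) = 0 := by
        rw [e, ← hC.2, mul_assoc, (dg_pr _).comm_eo, pr_mul_eo_triv t, mul_zero]
      rw [mul_assoc, e0, mul_zero, trf_zero, map_zero]
      exact zero_mem _
    · have e0 : pr ℓ (a (m' + 2)).rev * C = 0 := by
        rw [e, ← co_left h hC, ← mul_assoc, pr_mul_eo_triv ((triv_rev h).2 t), zero_mul]
      rw [e0, zero_mul, trf_zero, map_zero]
      exact zero_mem _
  | zero => rw [map_zero, map_zero]; exact zero_mem _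
  | add x y _ _ hx hy => rw [map_add, map_add]; exact add_mem hx hy
  | smul c x _ hx => rw [map_smul, map_smul]; exact Submodule.smul_mem _ c hx

theorem even (hp : 5 ≤ p) (hEX2 : S_EX2 p n) (h : Str ℓ B) (hB : Big ℓ B 30) {a : Fin 3 → Ix n}
    {c : Mat p n → Frm p n} (hc : Coc ℓ B (key ℓ a) c) {m : Fin 3} (t : Triv ℓ B (a m))
    (t1 : ¬ Triv ℓ B (a (m + 1))) (t2 : ¬ Triv ℓ B (a (m + 2))) :
    ∃ θ ∈ Wt ℓ (key ℓ a), ∀ z, Test ℓ B z → pull1 z θ - θ - c z ∈ Tr ℓ B := by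
  have hM : MCoc ℓ B (a (m + 1)) (a (m + 2)) fun g => sc m (a m) (c g) := by
    refine ⟨fun g => sc_supp h.lab m (hc.mem g), fun g hg k hk => ?_⟩
    have h1 := sc_tr h t (hc.mul g hg k hk)
    have h2 : c (g * k) - (pull1 k (c g) + c k) ∈ Wt ℓ (key ℓ a) :=
      sub_mem (hc.mem _) (add_mem
        (pull1_mem_Wt h.lab (h.alg.dg k (lo_spec h hk).1) (hc.mem g)) (hc.mem k))
    have h3 : sc m (a m) (pull1 k (c g)) = st k * sc m (a m) (c g) * k := by
      conv_lhs => rw [eq_trf h t (hc.mem g)]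
      rw [pull1_v h t m hk, sc_trf, Pi.single_eq_same, one_smul]
    rwa [mem_Wt_iff.1 h2, map_sub, map_add, h3] at h1
  obtain ⟨Θ, h1, h2⟩ := hEX2 ℓ B _ _ _ h hB t1 t2 hM
  refine ⟨trf m Θ (Pi.single (a m).rev 1), ?_, fun z hz => ?_⟩
  · rw [mem_Wt_iff, cmp_trf h.lab, h1, mem_Vb_iff.1 (single_mem_Vb rfl 1)]
  · have h3 := hz.lo hp h
    have h4 := trf_mem_Tr m (co_of_cb (h2 z hz) t1) (Pi.single (a m).rev 1)
    rw [trf_sub, trf_sub, ← eq_trf h t (hc.mem z)] at h4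
    rwa [pull1_v h t m h3.1, h3.2.1]

end EXx

theorem s_EX (p n : ℕ) [Fact p.Prime] (hp : 5 ≤ p) (hEX2 : S_EX2 p n) : S_EX p n := by
  intro ℓ B a c h hB hj hc
  by_cases h0 : Triv ℓ B (a 0) <;> by_cases h1 : Triv ℓ B (a 1) <;> by_cases h2 : Triv ℓ B (a 2)
  · obtain ⟨j, hj⟩ := hj
    fin_cases j
    exacts [absurd h0 hj, absurd h1 hj, absurd h2 hj]
  · exact EXx.odd hp h hc fun w hw => by
      rw [pull1_z0 h.lab hw, Fin.prod_univ_three]; simp [h0, h1, h2]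
  · exact EXx.odd hp h hc fun w hw => by
      rw [pull1_z0 h.lab hw, Fin.prod_univ_three]; simp [h0, h1, h2]
  · exact EXx.even hp hEX2 h hB hc (m := 0) h0 h1 h2
  · exact EXx.odd hp h hc fun w hw => by
      rw [pull1_z0 h.lab hw, Fin.prod_univ_three]; simp [h0, h1, h2]
  · exact EXx.even hp hEX2 h hB hc (m := 1) h1 h2 h0
  · exact EXx.even hp hEX2 h hB hc (m := 2) h2 h0 h1
  · exact EXx.odd hp h hc fun w hw => by
      rw [pull1_z0 h.lab hw, Fin.prod_univ_three]; simp [h0, h1, h2]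

end Pool.Agent.P.MP_f1a348_lc.PG
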