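import Pool.Agent.P.MP_f1a348_lc.PG.Iface

/-!
Project PG, task EX2: a matrix cocycle is a coboundary on the tests.
-/

namespace Pool.Agent.P.MP_f1a348_lc.PG

open Matrix Module

namespace EX2x

variable {p n : ℕ} {ℓ : Ix n → ℕ} {B : Sub p n} {a b : Ix n}

/-- matrices supported on one pair of blocks -/
def Su (ℓ : Ix n → ℕ) (a b : Ix n) : Sub p n where
  carrier := {X | pr ℓ b.rev * X * pr ℓ a = X}
  add_mem' hC hD := by
    simp only [Set.mem_ofPred_eq] at hC hD ⊢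
    rw [mul_add, add_mul, hC, hD]
  zero_mem' := by simp
  smul_mem' c C hC := by
    simp only [Set.mem_ofPred_eq] at hC ⊢
    rw [mul_smul_comm, smul_mul_assoc, hC]

theorem su_conj {z X : Mat p n} (hz : Dg ℓ z) (hX : X ∈ Su ℓ a b) : z * X * z ∈ Su ℓ a b := by
  have h1 : pr ℓ b.rev * X * pr ℓ a = X := hX
  change pr ℓ b.rev * (z * X * z) * pr ℓ a = z * X * z
  calc pr ℓ b.rev * (z * X * z) * pr ℓ a = (pr ℓ b.rev * z) * X * (z * pr ℓ a) := by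
        simp only [mul_assoc]
    _ = (z * pr ℓ b.rev) * X * (pr ℓ a * z) := by rw [hz.comm_pr, hz.comm_pr]
    _ = z * (pr ℓ b.rev * X * pr ℓ a) * z := by simp only [mul_assoc]
    _ = z * X * z := by rw [h1]

theorem su_ext (h : Lab ℓ) {X Y : Mat p n} (hX : X ∈ Su ℓ a b) (hY : Y ∈ Su ℓ a b)
    (H : ∀ x ∈ Vb ℓ a, ∀ y ∈ Vb ℓ b, ip (X *ᵥ x) y = ip (Y *ᵥ x) y) : X = Y := by
  have h1 : pr ℓ b.rev * (X - Y) * pr ℓ a = X - Y := sub_mem hX hY
  refine sub_eq_zero.1 (mat_ext fun x => ?_)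
  rw [Matrix.zero_mulVec, ← h1, ← Matrix.mulVec_mulVec, ← Matrix.mulVec_mulVec]
  refine eq_zero_of_ip h (pr_mulVec_mem _ _) fun y hy => ?_
  rw [ip_mulVec, st_pr h, Fin.rev_rev, mem_Vb_iff.1 hy, Matrix.sub_mulVec, ip_sub_left,
    H _ (pr_mulVec_mem _ _) y hy, sub_self]

theorem ip_conj {z : Mat p n} (hz : st z = z) (X : Mat p n) (x y : Vec p n) :
    ip ((z * X * z) *ᵥ x) y = ip (X *ᵥ (z *ᵥ x)) (z *ᵥ y) := by
  rw [← Matrix.mulVec_mulVec, ← Matrix.mulVec_mulVec, ip_mulVec z, hz]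

theorem z_fix {ε : Mat p n} {x : Vec p n} (h : ε *ᵥ x = x) :
    (1 - (2 : ZMod p) • ε) *ᵥ x = -x := by
  rw [Matrix.sub_mulVec, Matrix.one_mulVec, Matrix.smul_mulVec, h]; module

theorem z_kill {ε : Mat p n} {x : Vec p n} (h : ε *ᵥ x = 0) :
    (1 - (2 : ZMod p) • ε) *ᵥ x = x := by
  rw [Matrix.sub_mulVec, Matrix.one_mulVec, Matrix.smul_mulVec, h, smul_zero, sub_zero]

theorem ip_sep {ε : Mat p n} (hz : st (1 - (2 : ZMod p) • ε) = 1 - (2 : ZMod p) • ε)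
    (X : Mat p n) {x y : Vec p n}
    (h : (ε *ᵥ x = x ∧ ε *ᵥ y = 0) ∨ (ε *ᵥ x = 0 ∧ ε *ᵥ y = y)) :
    ip (((1 - (2 : ZMod p) • ε) * X * (1 - (2 : ZMod p) • ε)) *ᵥ x) y = -ip (X *ᵥ x) y := by
  rw [ip_conj hz]
  rcases h with ⟨h1, h2⟩ | ⟨h1, h2⟩
  · rw [z_fix h1, z_kill h2, Matrix.mulVec_neg, ip_neg_left]
  · rw [z_kill h1, z_fix h2, ip_neg_right]

/-- a matrix that vanishes on separated pairs commutes with the reflection -/
theorem conj_eq (h : Str ℓ B) {ε X : Mat p n} (hε : Eps ℓ B ε)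
    (hz : st (1 - (2 : ZMod p) • ε) = 1 - (2 : ZMod p) • ε) (hX : X ∈ Su ℓ a b)
    (H : ∀ x ∈ Vb ℓ a, ∀ y ∈ Vb ℓ b,
      (ε *ᵥ x = x ∧ ε *ᵥ y = 0) ∨ (ε *ᵥ x = 0 ∧ ε *ᵥ y = y) → ip (X *ᵥ x) y = 0) :
    (1 - (2 : ZMod p) • ε) * X * (1 - (2 : ZMod p) • ε) = X := by
  have hd := h.alg.dg ε hε.mem
  refine su_ext h.lab (su_conj (Dg.one.sub (hd.smul _)) hX) hX fun x hx y hy => ?_
  have f1 : ∀ v : Vec p n, ε *ᵥ (ε *ᵥ v) = ε *ᵥ v := fun v => by
    rw [Matrix.mulVec_mulVec, hε.idem]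
  have f0 : ∀ v : Vec p n, ε *ᵥ (v - ε *ᵥ v) = 0 := fun v => by
    rw [Matrix.mulVec_sub, f1, sub_self]
  have e1 := H _ (hd.mulVec_mem hx) _ (sub_mem hy (hd.mulVec_mem hy)) (Or.inl ⟨f1 x, f0 y⟩)
  have e2 := H _ (sub_mem hx (hd.mulVec_mem hx)) _ (hd.mulVec_mem hy) (Or.inr ⟨f0 x, f1 y⟩)
  rw [ip_conj hz]
  simp only [Matrix.sub_mulVec, Matrix.one_mulVec, Matrix.smul_mulVec, Matrix.mulVec_sub,
    Matrix.mulVec_smul, ip_sub_left, ip_sub_right, ip_smul_left, ip_smul_right] at e1 e2 ⊢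
  linear_combination (-2) * e1 + (-2) * e2

variable [Fact p.Prime]

theorem coc_sq {c : Mat p n → Mat p n} (hc : MCoc ℓ B a b c) {z : Mat p n} (h1 : z ∈ Lo B)
    (h2 : st z = z) (h3 : z * z = 1) : z * c z * z + c z ∈ Cb ℓ B b.rev a := by
  have e1 := hc.mul 1 (one_mem _) 1 (one_mem _)
  have e2 := hc.mul z h1 z h1
  rw [h3, h2] at e2
  rw [st_one, one_mul, one_mul, mul_one] at e1
  have := neg_mem (add_mem e1 e2)
  convert this using 1
  abel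

theorem z0_conj (hp : 5 ≤ p) (h : Str ℓ B) (ha : ¬ Triv ℓ B a) (hb : ¬ Triv ℓ B b)
    {X : Mat p n} (hX : X ∈ Su ℓ a b) : z0 ℓ B * X * z0 ℓ B = X := by
  refine su_ext h.lab (su_conj (Dg.one.sub (dg_eo.smul _)) hX) hX fun x hx y hy => ?_
  rw [ip_conj (test_z0.lo hp h).2.1, z0_ntriv hx ha, z0_ntriv hy hb, Matrix.mulVec_neg,
    ip_neg_left, ip_neg_right, neg_neg]

end EX2x

open EX2x in
theorem s_EX2 (p n : ℕ) [Fact p.Prime] (hp : 5 ≤ p) (hBIL : S_BIL p n) (hTSM : S_TSM p n)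
    (hSEP : S_SEP p n) (hREL : S_REL p n) : S_EX2 p n := by
  intro ℓ B a b c h hB ha hb hc
  obtain ⟨θ0, s0, H0⟩ := hBIL ℓ B a b c h hB ha hb hc
  have sθ : (-(2 : ZMod p)⁻¹) • θ0 ∈ Su ℓ a b := Submodule.smul_mem _ _ (show θ0 ∈ Su ℓ a b from s0)
  have sc : ∀ g, c g ∈ Su ℓ a b := hc.supp
  have h2 := two_ne_zero' hp
  refine ⟨(-(2 : ZMod p)⁻¹) • θ0, sθ, ?_⟩
  rintro z (rfl | ⟨π, p1, p2, p3, rfl⟩)
  · rw [z0_conj hp h ha hb sθ, sub_self, zero_sub]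
    refine neg_mem ?_
    obtain ⟨l0, st0, _⟩ := (test_z0 (ℓ := ℓ) (B := B)).lo hp h
    have key : ∀ x ∈ Vb ℓ a, ∀ y ∈ Vb ℓ b, y ∈ perp (orb (Com B) x) → y ∉ orb (Com B) x →
        ip (c (z0 ℓ B) *ᵥ x) y = 0 := by
      intro x hx y hy hp1 hn
      obtain ⟨ε, hε, e1, e2⟩ := hSEP ℓ B _ b y h (stab_orb x) hb hy hp1 hn
      have e3 := e2 x (self_mem_orb x)
      obtain ⟨l1, st1, _⟩ := refl_lo hp h hε.mem hε.idem hε.star hε.eo
      have m1 := hc.mul _ l0 _ l1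
      have m2 := hc.mul _ l1 _ l0
      rw [com_z0 h.alg _ (lo_spec h l1).1, st1] at m1
      rw [st0, z0_conj hp h ha hb (sc _)] at m2
      have m3 : (1 - (2 : ZMod p) • ε) * c (z0 ℓ B) * (1 - (2 : ZMod p) • ε) - c (z0 ℓ B) ∈
          Cb ℓ B b.rev a := by
        have := sub_mem m2 m1
        convert this using 1
        abel
      have m4 : ip (((1 - (2 : ZMod p) • ε) * c (z0 ℓ B) * (1 - (2 : ZMod p) • ε) -
          c (z0 ℓ B)) *ᵥ x) y = 0 := by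
        rw [← e1, ip_mulVec_right, hε.star, ← com_mulVec m3.1 hε.mem, e3, Matrix.mulVec_zero,
          ip_zero_left]
      rw [Matrix.sub_mulVec, ip_sub_left, ip_sep st1 _ (Or.inr ⟨e3, e1⟩)] at m4
      refine mul_left_cancel₀ h2 ?_
      linear_combination -m4
    obtain ⟨C, hC, e⟩ := (hREL ℓ B 0 0 ⊥ ⊥ a b h small_bot small_bot ha
      (lt_of_lt_of_le (by norm_num) (hB a ha))).1 (ipL ∘ₗ (c (z0 ℓ B)).mulVecLin) (by
        intro x hx _ y hy _ hp1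
        rw [orb_co_ntriv h.alg hx ha] at hp1
        change ip (c (z0 ℓ B) *ᵥ x) y = 0
        by_cases hn : y ∈ orb (Com B) x
        · obtain ⟨v, v1, v2, v3⟩ := out h (small_orb h hx) (small_orb h hx)
            (lt_of_lt_of_le (by norm_num) (hB b hb))
          have k1 := key x hx v v1 v2 v3
          have k2 := key x hx (y - v) (sub_mem hy v1) (sub_mem hp1 v2) fun e =>
            v3 (by simpa using sub_mem hn e)
          rw [ip_sub_right, k1, sub_zero] at k2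
          exact k2
        · exact key x hx y hy hp1 hn)
    rw [su_ext h.lab (sc _) (show C ∈ Su ℓ a b from hC.2) fun x hx y hy =>
      e x hx (by simp) y hy (by simp)]
    exact hC
  · have hε := hTSM ℓ B π h p1 p2 p3
    rw [rf_eq]
    generalize π + st π = ε at hε
    obtain ⟨l1, st1, sq⟩ := refl_lo hp h hε.mem hε.idem hε.star hε.eo
    have hd : Dg ℓ (1 - (2 : ZMod p) • ε) := Dg.one.sub ((h.alg.dg ε hε.mem).smul _)
    have e1 := conj_eq h hε st1 (sub_mem (sub_mem (su_conj hd sθ) sθ) (sc _)) (by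
      intro x hx y hy hs
      rw [Matrix.sub_mulVec, Matrix.sub_mulVec, ip_sub_left, ip_sub_left, ip_sep st1 _ hs,
        H0 ε hε x hx y hy hs, Matrix.smul_mulVec, ip_smul_left]
      field_simp
      ring)
    have e2 := neg_mem (coc_sq hc l1 st1 sq)
    refine mem_of_two_smul hp ?_
    generalize (1 - (2 : ZMod p) • ε) = z at e1 e2 sq ⊢
    generalize (-(2 : ZMod p)⁻¹) • θ0 = θ at e1 ⊢
    have e3 : z * (z * θ * z) * z = θ := by
      calc z * (z * θ * z) * z = (z * z) * θ * (z * z) := by simp only [mul_assoc]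
        _ = θ := by rw [sq, one_mul, mul_one]
    rw [mul_sub, mul_sub, sub_mul, sub_mul, e3] at e1
    convert e2 using 1
    rw [two_smul]
    nth_rewrite 1 [← e1]
    abel

end Pool.Agent.P.MP_f1a348_lc.PG
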