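import Pool.Agent.P.MP_f1a348_lc.PG.Iface

/-! Proof of G2. -/

namespace Pool.Agent.P.MP_f1a348_lc.PG

open Matrix Module

namespace G2x

/-- rank-nullity for a relation -/
theorem rel_le {K X Y : Type} [Field K] [AddCommGroup X] [Module K X] [AddCommGroup Y] [Module K Y]
    [Module.Finite K X] [Module.Finite K Y] (D : Submodule K (X × Y)) (R : Submodule K X)
    (S : Submodule K Y) (h : ∀ z ∈ S, ∃ y ∈ R, (y, z) ∈ D) :
    finrank K S ≤ finrank K R + finrank K (D.comap (LinearMap.inr K X Y)) := by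
  let E := D ⊓ R.comap (LinearMap.fst K X Y)
  let f := (LinearMap.fst K X Y).domRestrict E
  have h1 : S ≤ E.map (LinearMap.snd K X Y) := fun z hz =>
    let ⟨y, hy, hD⟩ := h z hz; ⟨(y, z), ⟨hD, hy⟩, rfl⟩
  have h2 : LinearMap.range f ≤ R := by
    rintro _ ⟨x, rfl⟩
    exact x.2.2
  have h3 : (LinearMap.ker f).map E.subtype ≤
      (D.comap (LinearMap.inr K X Y)).map (LinearMap.inr K X Y) := by
    rintro _ ⟨⟨⟨y, z⟩, hx⟩, h0, rfl⟩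
    obtain rfl : y = 0 := h0
    exact ⟨z, hx.1, rfl⟩
  have h4 := (Submodule.finrank_mono h1).trans (Submodule.finrank_map_le _ _)
  have h5 := (Submodule.finrank_mono h3).trans (Submodule.finrank_map_le _ _)
  have h6 := Submodule.finrank_mono h2
  have h7 := f.finrank_range_add_finrank_ker
  rw [Submodule.finrank_map_subtype_eq] at h5
  omega

end G2x

theorem s_G2 (p n : ℕ) [Fact p.Prime] (hp : 5 ≤ p) : S_G2 p n := by
  intro ℓ B Bt a c η df D hB ht hle hc hD hs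
  have h1 : 1 - η ∈ Bt := sub_mem ht.one hc.mem
  have hR : ∀ b, ∀ x ∈ Vb ℓ b, (1 - η) *ᵥ x ∈ im (1 - η) ⊓ Vb ℓ b := fun b x hx =>
    ⟨⟨x, rfl⟩, (ht.dg _ h1).mulVec_mem hx⟩
  by_cases hA : ∀ x ∈ D, ∃ y ∈ im (1 - η) ⊓ Vb ℓ a, (y, x.2) ∈ D
  · refine ⟨0, zero_mem _, hc.on a (cb_refl hB.alg a) ▸ G2x.rel_le D _ _ ?_⟩
    rintro _ ⟨x, hx, rfl⟩
    simpa using hA x hx
  have hac : Cb ℓ B a c ≠ ⊥ := fun e => hA fun x hx => by
    refine ⟨_, hR a _ (hD x hx).1, ?_⟩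
    have h2 := hs _ h1 x hx
    have h3 : η *ᵥ x.2 = 0 := by
      rw [← mem_Vb_iff.1 (hD x hx).2, mulVec_mulVec, hc.off c e, zero_mulVec]
    rwa [sub_mulVec _ _ x.2, h3, one_mulVec, sub_zero] at h2
  obtain ⟨x0, hx0, h0⟩ : ∃ x ∈ D, η *ᵥ x.1 ≠ 0 := by
    by_contra! e
    refine hA fun x hx => ⟨x.1, ?_, hx⟩
    have h2 := hR a _ (hD x hx).1
    rwa [sub_mulVec, e x hx, one_mulVec, sub_zero] at h2
  have hy : η *ᵥ x0.1 ∈ Vb ℓ a := (ht.dg _ hc.mem).mulVec_mem (hD _ hx0).1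
  have hz : η *ᵥ x0.2 ∈ Vb ℓ c := (ht.dg _ hc.mem).mulVec_mem (hD _ hx0).2
  have key : ∀ b ∈ B, (η *ᵥ (b *ᵥ (η *ᵥ x0.1)), η *ᵥ (b *ᵥ (η *ᵥ x0.2))) ∈ D := fun b hb => by
    simpa only [mulVec_mulVec, mul_assoc] using hs _ (hc.corner b hb) x0 hx0
  suffices ∃ C ∈ Cb ℓ B c a, ∀ x ∈ D, (0, η *ᵥ (x.2 - C *ᵥ x.1)) ∈ D by
    obtain ⟨C, hC, h2⟩ := this
    refine ⟨C, hC, hc.on c hac ▸ (Submodule.finrank_mono ?_).trans
      (Submodule.finrank_add_le_finrank_add_finrank _ _)⟩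
    rintro _ ⟨x, hx, rfl⟩
    refine Submodule.mem_sup.2 ⟨_, hR c _ (sub_mem (hD x hx).2 (cb_mulVec_mem hC x.1)),
      η *ᵥ (x.2 - C *ᵥ x.1), h2 x hx, ?_⟩
    rw [← add_mulVec, sub_add_cancel, one_mulVec]
    rfl
  by_cases hB2 : η *ᵥ x0.2 ∈ orb (Com B) (η *ᵥ x0.1)
  · obtain ⟨C, hC, e⟩ := mem_orb.1 (orb_inf_Vb hB.alg hy c ▸ Submodule.mem_inf.2 ⟨hB2, hz⟩)
    refine ⟨C, hC, fun x hx => ?_⟩
    obtain ⟨b, hb, eb⟩ := hB.sim a _ hy h0 _ (hD x hx).1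
    have h2 := key b hb
    rw [← e, ← com_mulVec hC.1 hb, eb] at h2
    simpa [mulVec_sub] using sub_mem (hs _ hc.mem x hx) h2
  · refine ⟨0, zero_mem _, fun x hx => ?_⟩
    obtain ⟨b, hb, e1, e2⟩ := dens hB (stab_orb _) hz hB2 (hD x hx).2
    simpa [e1, e2 _ (self_mem_orb _)] using key b hb

end Pool.Agent.P.MP_f1a348_lc.PG
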