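import Pool.Agent.P.MP_f1a348_lc.PG.Iface

/-!
Project PG, task GAIN: the gain of a refinement after a change of basis.
-/

namespace Pool.Agent.P.MP_f1a348_lc.PG

open Matrix Module

namespace GAINx

variable {p n : ℕ} {ℓ : Ix n → ℕ} {g : Mat p n}

theorem im_cj (h : Lev ℓ g) (X : Mat p n) (b : Ix n) :
    (im (cj g X) ⊓ Vb ℓ b : VS p n) = (im X ⊓ Vb ℓ b : VS p n).map g.mulVecLin := by
  ext y
  constructor
  · rintro ⟨hy, hb⟩
    obtain ⟨x, rfl⟩ := mem_im.1 hy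
    have e : cj g X *ᵥ x = g *ᵥ (X *ᵥ (st g *ᵥ x)) := by
      rw [cj_apply, Matrix.mulVec_mulVec, Matrix.mulVec_mulVec]
    refine ⟨X *ᵥ (st g *ᵥ x), ⟨mem_im.2 ⟨_, rfl⟩, ?_⟩, e.symm⟩
    have := h.star.dg.mulVec_mem hb
    rwa [e, h.un.st_mulVec] at this
  · rintro ⟨x, ⟨hx, hb⟩, rfl⟩
    obtain ⟨w, rfl⟩ := mem_im.1 hx
    exact ⟨mem_im.2 ⟨g *ᵥ w, h.un.cj_mulVec X w⟩, h.dg.mulVec_mem hb⟩

theorem finrank_im_cj (h : Lev ℓ g) (X : Mat p n) (b : Ix n) :
    finrank (ZMod p) (im (cj g X) ⊓ Vb ℓ b : VS p n) =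
      finrank (ZMod p) (im X ⊓ Vb ℓ b : VS p n) := by
  rw [im_cj h]
  refine (Submodule.equivMapOfInjective _ (fun x y e => ?_) _).finrank_eq.symm
  have := congrArg (st g *ᵥ ·) e
  simpa only [Matrix.mulVecLin_apply, h.un.st_mulVec] using this

theorem cor (h : Lev ℓ g) {B Bt : Sub p n} {a : Ix n} {η : Mat p n} {df : ℕ}
    (c : Cor ℓ (B.map (cj (st g))) (Bt.map (cj (st g))) a η df) : Cor ℓ B Bt a (cj g η) df where
  mem := by simpa only [st_st] using h.star.un.mem_map_cj.1 c.mem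
  idem := by rw [← h.un.cj_mul, c.idem]
  off b e := by
    rw [← h.cj_pr b, ← h.un.cj_mul, c.off b ((h.star.cb_eq_bot B a b).2 e), map_zero]
  on b e := by
    rw [← h.un.cj_one, ← map_sub, finrank_im_cj h]
    exact c.on b fun e' => e ((h.star.cb_eq_bot B a b).1 e')
  corner x hx := by
    have := h.star.un.mem_map_cj.1 (c.corner _ ⟨x, hx, rfl⟩)
    rwa [st_st, h.un.cj_mul, h.un.cj_mul, h.un.cj_cj'] at this

end GAINx

open GAINx in
theorem s_GAIN (p n : ℕ) [Fact p.Prime] (hp : 5 ≤ p) (hGAIN0 : S_GAIN0 p n) (hREF : S_REF p n) :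
    S_GAIN p n := by
  intro ℓ ℓ' B Bt B' g h hBt hle hr hs
  have hg : Lev ℓ g := ⟨h.lab, hr.par, hr.dg⟩
  have S : Set0 ℓ (B.map (cj (st g))) (Bt.map (cj (st g))) ℓ' B' :=
    { str := hg.star.str h
      alg := hg.star.alg hBt
      le := Submodule.map_mono hle
      ref :=
        { lab := hr.lab
          fine := hr.fine
          par := Par.one
          dg := Dg.one
          tri := by
            rintro _ ⟨b, hb, rfl⟩
            simpa only [st_one, one_mul, mul_one, cj_apply, st_st] using hr.tri b hb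
          eq := by
            rw [hr.eq, ← Submodule.map_comp]
            congr 1
            refine LinearMap.ext fun X => ?_
            simp only [LinearMap.comp_apply, cj_apply, st_one, one_mul, mul_one] }
      str' := ⟨hr.lab, (hREF ℓ Bt h.lab hBt).2.1 ℓ' g B' hr, hs⟩ }
  obtain ⟨h1, h2⟩ := hGAIN0 ℓ ℓ' _ _ B' S
  rw [hg.star.phi] at h1 h2
  refine ⟨h1, fun a t => ?_⟩
  obtain ⟨η, df, c, e⟩ := h2 a fun t' => t ((hg.star.triv B a).1 t')
  exact ⟨_, df, cor hg c, e⟩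

end Pool.Agent.P.MP_f1a348_lc.PG
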