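import Pool.Agent.P.MP_f1a348_lc.PG.Iface

/-!
Project PG: the gain of a refinement in adapted coordinates.
-/

namespace Pool.Agent.P.MP_f1a348_lc.PG

open Matrix Module

namespace GAIN0x

theorem sum_sub {ι : Type} [Fintype ι] (P : ι → Prop) [DecidablePred P] [Fintype {x // P x}]
    (f : ι → ℕ) : ∑ x, (if P x then f x else 0) = ∑ x : {x // P x}, f x := by
  rw [← Finset.sum_filter]
  exact Finset.sum_subtype _ (by simp) f

variable {p n : ℕ} [Fact p.Prime] {ℓ ℓ' : Ix n → ℕ} {B Bt B' : Sub p n}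

theorem split {η : Mat p n} (h : η * η = η) (hd : Dg ℓ η) (b : Ix n) :
    finrank (ZMod p) (im η ⊓ Vb ℓ b : VS p n) + finrank (ZMod p) (im (1 - η) ⊓ Vb ℓ b : VS p n) =
      nb ℓ b := by
  rw [← Submodule.finrank_sup_add_finrank_inf_eq]
  have h1 : (im η ⊓ Vb ℓ b ⊔ im (1 - η) ⊓ Vb ℓ b : VS p n) = Vb ℓ b := by
    refine le_antisymm (sup_le inf_le_right inf_le_right) fun x hx => ?_
    refine Submodule.mem_sup.2 ⟨η *ᵥ x, ⟨⟨x, rfl⟩, hd.mulVec_mem hx⟩, (1 - η) *ᵥ x,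
      ⟨⟨x, rfl⟩, (Dg.one.sub hd).mulVec_mem hx⟩, ?_⟩
    rw [Matrix.sub_mulVec, Matrix.one_mulVec, add_sub_cancel]
  have h2 : ((im η ⊓ Vb ℓ b) ⊓ (im (1 - η) ⊓ Vb ℓ b) : VS p n) = ⊥ := by
    rw [eq_bot_iff]
    rintro x ⟨⟨h1, _⟩, h2, _⟩
    obtain ⟨y, hy⟩ := mem_im.1 h1
    obtain ⟨z, hz⟩ := mem_im.1 h2
    have a1 : η *ᵥ x = x := by rw [← hy, Matrix.mulVec_mulVec, h]
    have a2 : η *ᵥ x = 0 := by
      rw [← hz, Matrix.mulVec_mulVec, mul_sub, mul_one, h, sub_self, Matrix.zero_mulVec]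
    rw [Submodule.mem_bot, ← a1, a2]
  rw [h1, h2, finrank_bot, add_zero, finrank_Vb]

theorem mul_pr_eq {η : Mat p n} (hd : Dg ℓ η) {b : Ix n}
    (h : finrank (ZMod p) (im η ⊓ Vb ℓ b : VS p n) = 0) : η * pr ℓ b = 0 := by
  have h1 := Submodule.finrank_eq_zero.1 h
  refine mat_ext fun x => ?_
  have : η *ᵥ (pr ℓ b *ᵥ x) ∈ (im η ⊓ Vb ℓ b : VS p n) :=
    ⟨⟨_, rfl⟩, hd.mulVec_mem (pr_mulVec_mem b x)⟩
  rw [h1, Submodule.mem_bot] at this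
  rw [← Matrix.mulVec_mulVec, this, Matrix.zero_mulVec]

theorem mm_eq (hETA : S_ETA p n) (h : Set0 ℓ B Bt ℓ' B') {a b : Ix n} (e : Cb ℓ B a b ≠ ⊥)
    (β : Ix n) : mm ℓ ℓ' B' a β = mm ℓ ℓ' B' b β := by
  obtain ⟨η, u, v, hη⟩ := hETA ℓ ℓ' B Bt B' β h
  rw [← hη.rk, ← hη.rk]
  exact finrank_im_inf h.str (stab_im (h.le hη.mem)) e

theorem mm_self (h : Set0 ℓ B Bt ℓ' B') (β : Ix n) : 0 < mm ℓ ℓ' B' β β := by
  unfold mm
  exact Finset.card_pos.2 ⟨β, Finset.mem_filter.2 ⟨Finset.mem_univ _, rfl, cb_refl h.str'.alg β⟩⟩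

theorem mm_triv (h : Set0 ℓ B Bt ℓ' B') (h3 : ∀ γ, Triv ℓ B γ → Triv ℓ' B' γ) {b β : Ix n}
    (hb : Triv ℓ B b) (hβ : ¬ Triv ℓ' B' β) : mm ℓ ℓ' B' b β = 0 := by
  unfold mm
  rw [Finset.card_eq_zero, Finset.filter_eq_empty_iff]
  rintro γ _ ⟨e1, e2⟩
  exact hβ ((triv_iff h.str' e2).2 (h3 γ ((Triv_congr e1).2 hb)))

end GAIN0x

open GAIN0x in
theorem s_GAIN0 (p n : ℕ) [Fact p.Prime] (hp : 5 ≤ p) (hETA : S_ETA p n) (hLOC : S_LOC p n)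
    (hCLS : S_CLS p n) (hCLS2 : S_CLS2 p n) (hACCT : S_ACCT) : S_GAIN0 p n := by
  classical
  intro ℓ ℓ' B Bt B' h
  obtain ⟨c1, c2, c3, -, -, -⟩ := hCLS ℓ B h.str
  obtain ⟨-, -, c3', -, -, -⟩ := hCLS ℓ' B' h.str'
  obtain ⟨d1, d2, d3⟩ := hCLS2 ℓ ℓ' B Bt B' h
  have key := hACCT {α // Rep ℓ B α ∧ ¬ Triv ℓ B α} {β // Rep ℓ' B' β} (fun A => nb ℓ A.1)
    (fun A => eb ℓ B A.1) (fun X => nb ℓ' X.1) (fun X => eb ℓ' B' X.1)
    (fun A X => mm ℓ ℓ' B' A.1 X.1) (fun X => ¬ Triv ℓ' B' X.1) (Phi ℓ B) (Phi ℓ' B')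
    (fun A => ⟨eb_pos h.str.alg _, eb_dvd_nb h.str _, by
      rw [d1 A.1]
      exact sum_sub (fun β => Rep ℓ' B' β) fun β => mm ℓ ℓ' B' A.1 β⟩)
    (fun X => ⟨nb_pos _ _, eb_dvd_nb h.str' _⟩)
    (fun X hX => by
      obtain ⟨α, hα, e⟩ := c1 X.1
      refine ⟨⟨α, hα, fun t => hX (d3 _ ((triv_iff h.str e).1 t))⟩, ?_⟩
      change 0 < mm ℓ ℓ' B' α X.1
      rw [mm_eq hETA h e]
      exact mm_self h _)
    (fun A X hm => by
      obtain ⟨η, u, v, hη⟩ := hETA ℓ ℓ' B Bt B' X.1 h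
      obtain ⟨l1, l2, l3, -⟩ := hLOC ℓ ℓ' B Bt B' X.1 A.1 η u v h hη hm
      exact ⟨l1, d2 _ _, l2, l3⟩)
    (by
      rw [c3]
      exact sum_sub (fun α => Rep ℓ B α ∧ ¬ Triv ℓ B α)
        fun α => nb ℓ α * (2 + Nat.size (db ℓ B α)))
    (by
      rw [c3']
      refine Eq.trans ?_ (sum_sub (fun β => Rep ℓ' B' β)
        fun β => if ¬ Triv ℓ' B' β then nb ℓ' β * (2 + Nat.size (db ℓ' B' β)) else 0) |>.trans ?_
      · refine Finset.sum_congr rfl fun β _ => ?_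
        by_cases r1 : Rep ℓ' B' β <;> by_cases r2 : Triv ℓ' B' β <;> simp [r1, r2]
      · refine Finset.sum_congr rfl fun X _ => ?_
        by_cases r2 : Triv ℓ' B' X.1 <;> simp [r2, db])
  refine ⟨key.1, fun a ha => ?_⟩
  obtain ⟨α, hα, e⟩ := c1 a
  have hαt : ¬ Triv ℓ B α := fun t => ha ((triv_iff h.str e).1 t)
  rcases key.2 ⟨α, hα, hαt⟩ with k1 | ⟨X, x1, x2, x3, x4, x5⟩
  · refine ⟨0, nb ℓ α, ⟨zero_mem _, by simp, fun b _ => by simp, fun b hb => ?_,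
      fun c _ => by simp⟩, k1⟩
    have : (im (1 - 0 : Mat p n) : VS p n) = ⊤ := by
      rw [eq_top_iff]
      intro x _
      exact mem_im.2 ⟨x, by simp⟩
    rw [this, top_inf_eq, finrank_Vb, nb_eq h.str (cb_trans h.str e hb)]
  · obtain ⟨η, u, v, hη⟩ := hETA ℓ ℓ' B Bt B' X.1 h
    have hd : Dg ℓ η := h.alg.dg _ hη.mem
    change mm ℓ ℓ' B' α X.1 = nb ℓ' X.1 at x2
    change eb ℓ B α = eb ℓ' B' X.1 at x3
    have off : ∀ b, Cb ℓ B α b = ⊥ → η * pr ℓ b = 0 := fun b hb => by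
      refine mul_pr_eq hd ?_
      rw [hη.rk]
      by_cases tb : Triv ℓ B b
      · exact mm_triv h d3 tb x1
      · obtain ⟨α', hα', e'⟩ := c1 b
        rw [← mm_eq hETA h e']
        refine x4 ⟨α', hα', fun t => tb ((triv_iff h.str e').1 t)⟩ fun q => e' ?_
        have : α' = α := congrArg Subtype.val q
        rw [this, hb]
    have hm : 0 < mm ℓ ℓ' B' α X.1 := by rw [x2]; exact nb_pos _ _
    obtain ⟨-, -, -, l4⟩ := hLOC ℓ ℓ' B Bt B' X.1 α η u v h hη hm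
    refine ⟨η, nb ℓ α - mm ℓ ℓ' B' α X.1, ⟨hη.mem, hη.idem, fun b hb => off b ?_, fun b hb => ?_,
      l4 x2 x3 off⟩, x5⟩
    · by_contra q
      exact cb_trans h.str (cb_symm h.str e) q hb
    · have q := cb_trans h.str e hb
      have s := split hη.idem hd b
      rw [hη.rk, ← mm_eq hETA h q, ← nb_eq h.str q] at s
      omega

end Pool.Agent.P.MP_f1a348_lc.PG
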