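import Pool.Agent.P.MP_f1a348_lc.PG.Iface

/-! Existence of the coboundary attached to an annihilating operator. -/

namespace Pool.Agent.P.MP_f1a348_lc.PG

theorem s_HC (p n : ℕ) [Fact p.Prime] (hp : 5 ≤ p) (hEX : S_EX p n) (hLAMAA : S_LAMAA p n) :
    S_HC p n := by
  intro ℓ s a c hs hb hL hj hA
  have hl := hs.str.lab
  have hμ := (hLAMAA ℓ s a hs).1 c
  have hk : ∀ g, (lam ℓ (CL s) (key ℓ a) c ∘ₗ cmp ℓ (key ℓ a)) (kap ℓ s.T (key ℓ a) g) =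
      lam ℓ (CL s) (key ℓ a) c (kap ℓ s.T (key ℓ a) g) := fun g => by
    rw [LinearMap.comp_apply, mem_Wt_iff.1 (kap_mem _ _ _)]
  choose! g hg using hL
  obtain ⟨θ, h1, h2⟩ := hEX ℓ s.B a
    (fun z => lam ℓ (CL s) (key ℓ a) c (kap ℓ s.T (key ℓ a) (g z))) hs.str hb hj
    ⟨fun z => hk _ ▸ aa_mem_Wt hl hμ _, fun z hz y hy => by
      have h3 := hA _ (kap_sub_mem hl ((hg z hz).mul (hg y hy)) (hg _ (mul_mem hz hy)))
      rwa [map_sub, ← hk (g z * g y), kap_mul hl (hg z hz) (hg y hy), map_add,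
        aa_pull1 hμ (lo_spec hs.str hy).1, hk, hk] at h3⟩
  refine ⟨θ, h1, fun z g' hz h3 => ?_⟩
  have h4 := sub_mem (h2 z hz) (hA _ (kap_sub_mem hl (hg z (hz.lo hp hs.str).1) h3))
  rwa [map_sub, sub_sub, add_sub_cancel] at h4

end Pool.Agent.P.MP_f1a348_lc.PG
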