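import Pool.Agent.P.MP_f1a348_lc.PG.Iface

/-!
Project PG: the invariant of a coset passes through a refinement.
-/

namespace Pool.Agent.P.MP_f1a348_lc.PG

open Matrix Module

namespace INVx

variable {p n : ℕ} {ℓ ℓ' : Ix n → ℕ}

/-- strictly block upper triangular -/
def Sut (ℓ : Ix n → ℕ) (N : Mat p n) : Prop := Tri ℓ N ∧ ∀ α β, N α β ≠ 0 → ℓ α < ℓ β

theorem sut_sub {φ : Mat p n} (hφ : Tri ℓ φ) : Sut ℓ (φ - gr ℓ φ) := by
  have key : ∀ α β, (φ - gr ℓ φ) α β ≠ 0 → φ α β ≠ 0 ∧ ℓ α ≠ ℓ β := fun α β e => by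
    rw [Matrix.sub_apply, gr_apply] at e
    by_cases h : ℓ α = ℓ β
    · rw [if_pos h, sub_self] at e
      exact absurd rfl e
    · rw [if_neg h, sub_zero] at e
      exact ⟨e, h⟩
  exact ⟨fun α β e => hφ α β (key α β e).1,
    fun α β e => lt_of_le_of_ne (hφ α β (key α β e).1).1 (key α β e).2⟩

theorem Sut.conj {a N b : Mat p n} (hN : Sut ℓ N) (ha : Tri ℓ a) (hb : Tri ℓ b) :
    Sut ℓ (a * N * b) := by
  refine ⟨(ha.mul hN.1).mul hb, fun α β e => ?_⟩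
  obtain ⟨γ, h1, h2⟩ := exists_of_mul_ne e
  obtain ⟨δ, h3, h4⟩ := exists_of_mul_ne h1
  exact ((ha _ _ h3).1.trans_lt (hN.2 _ _ h4)).trans_le (hb _ _ h2).1

theorem Sut.fine {N : Mat p n} (hN : Sut ℓ N) (hf : ∀ α β, ℓ' α ≤ ℓ' β → ℓ α ≤ ℓ β) :
    Sut ℓ' N := by
  have key : ∀ α β, N α β ≠ 0 → ℓ' α < ℓ' β := fun α β e =>
    lt_of_not_ge fun h => absurd (hf _ _ h) (not_le.2 (hN.2 α β e))
  exact ⟨fun α β e => ⟨(key α β e).le, (hN.1 α β e).2⟩, key⟩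

theorem Sut.gr_eq {N : Mat p n} (hN : Sut ℓ N) : gr ℓ N = 0 := by
  ext α β
  rw [gr_apply, Matrix.zero_apply]
  split_ifs with h
  · by_contra e
    exact absurd h (hN.2 α β e).ne
  · rfl

end INVx

open INVx in
theorem s_INV (p n : ℕ) [Fact p.Prime] (hp : 5 ≤ p) : S_INV p n := by
  intro ℓ ℓ' B B' g g' φ hℓ hr hφ hg' _ ht
  have hN : Sut ℓ' (st g' * (φ - gr ℓ φ) * g) :=
    ((sut_sub hφ.1).conj (hg'.1.st hℓ) hr.par.1).fine hr.fine
  have hsum : st g' * φ * g = st g' * gr ℓ φ * g + st g' * (φ - gr ℓ φ) * g := by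
    rw [← add_mul, ← mul_add, add_sub_cancel]
  have hP : Par ℓ (st g' * φ * g) := ((hg'.star hℓ).mul hφ).mul hr.par
  have hgr : gr ℓ' (st g' * φ * g) = gr ℓ' (st g' * gr ℓ φ * g) := by
    rw [hsum, map_add, hN.gr_eq, add_zero]
  refine ⟨⟨by rw [hsum]; exact ht.add hN.1, hP.2⟩, ?_⟩
  have key : ∀ b ∈ B, gr ℓ' (st g' * (gr ℓ φ * b) * g)
      = gr ℓ' (st g' * φ * g) * gr ℓ' (st g * b * g) := fun b hb => by
    rw [hgr, ← gr_mul ht (hr.tri b hb)]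
    congr 1
    calc st g' * (gr ℓ φ * b) * g = st g' * gr ℓ φ * (g * st g) * b * g := by
          rw [hr.par.2.1.mul_st, mul_one, mul_assoc (st g') (gr ℓ φ) b]
      _ = st g' * gr ℓ φ * g * (st g * b * g) := by simp only [mul_assoc]
  rw [hr.eq, ← Submodule.map_comp, ← Submodule.map_comp]
  ext x
  simp only [Submodule.mem_map, LinearMap.comp_apply, lm_apply, lr_apply, cj_apply, st_st]
  exact ⟨fun ⟨b, hb, e⟩ => ⟨b, hb, (key b hb).symm.trans e⟩,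
    fun ⟨b, hb, e⟩ => ⟨b, hb, (key b hb).trans e⟩⟩

end Pool.Agent.P.MP_f1a348_lc.PG
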