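import Pool.Agent.P.MP_f1a348_lc.PG.Iface

/-!
Project PG: the local inequality between a class of blocks and a class of the refinement.
-/

namespace Pool.Agent.P.MP_f1a348_lc.PG

open Matrix Module

theorem s_LOC (p n : ℕ) [Fact p.Prime] (hp : 5 ≤ p) (hEBAS : S_EBAS p n) (hLOC1 : S_LOC1 p n)
    (hLOC2 : S_LOC2 p n) : S_LOC p n := by
  intro ℓ ℓ' B Bt B' β a η u v h0 hη hm
  have hηB : η ∈ B := h0.le hη.mem
  have e1 := hEBAS ℓ B η a h0.str hηB hη.idem
  rw [hη.rk a] at e1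
  have e2 := hLOC1 ℓ ℓ' B Bt B' β a η u v h0 hη hm
  have hle : Bt.map (crn ℓ η a) ≤ B.map (crn ℓ η a) := Submodule.map_mono h0.le
  have e3 := Submodule.finrank_mono hle
  refine ⟨?_, ?_, hLOC2 ℓ ℓ' B Bt B' β a η u v h0 hη, fun hmn he hoff c hc => ?_⟩
  · calc nb ℓ' β ^ 2 * eb ℓ B a
        ≤ finrank (ZMod p) (B.map (crn ℓ η a)) * eb ℓ' B' β * eb ℓ B a :=
          Nat.mul_le_mul_right _ (e2.trans (Nat.mul_le_mul_right _ e3))
      _ = mm ℓ ℓ' B' a β ^ 2 * eb ℓ' B' β := by rw [← e1]; ring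
  · have := eb_dvd h0.str (stab_im hηB) a
    rwa [hη.rk a] at this
  · have e4 : finrank (ZMod p) (B.map (crn ℓ η a)) ≤ finrank (ZMod p) (Bt.map (crn ℓ η a)) := by
      rw [← he, ← hmn, ← e1] at e2
      exact Nat.le_of_mul_le_mul_right e2 (eb_pos h0.str.alg a)
    have e5 := Submodule.eq_of_le_of_finrank_le hle e4
    have hc1 : crn ℓ η a c ∈ Bt.map (crn ℓ η a) := by
      rw [e5]; exact Submodule.mem_map_of_mem hc
    obtain ⟨c', hc', e6⟩ := hc1
    have hA := h0.str.alg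
    have hy : η * (c - c') * η ∈ B := hA.mul _ (hA.mul _ hηB _ (sub_mem hc (h0.le hc'))) _ hηB
    have hya : η * (c - c') * η * pr ℓ a = 0 := by
      have : crn ℓ η a (c - c') = 0 := by rw [map_sub, e6, sub_self]
      exact this
    have hyb : ∀ b, η * (c - c') * η * pr ℓ b = 0 := fun b => by
      by_cases hb : Cb ℓ B a b = ⊥
      · rw [mul_assoc, hoff b hb, mul_zero]
      · obtain ⟨C, hC, hC0⟩ := Submodule.exists_mem_ne_zero_of_ne_bot hb
        obtain ⟨D, hD, -, e7⟩ := schur h0.str hC hC0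
        rw [← e7, ← mul_assoc, ← hD.1 _ hy, ← cb_left hC, mul_assoc D, ← mul_assoc _ (pr ℓ a), hya,
          zero_mul, mul_zero]
    have hy0 : η * (c - c') * η = 0 := by
      rw [← mul_one (η * (c - c') * η), ← sum_pr h0.str.lab, Finset.mul_sum]
      exact Finset.sum_eq_zero fun b _ => hyb b
    have : η * c * η = η * c' * η := by
      rw [mul_sub, sub_mul, sub_eq_zero] at hy0; exact hy0
    rw [this]
    exact h0.alg.mul _ (h0.alg.mul _ hη.mem _ hc') _ hη.mem

end Pool.Agent.P.MP_f1a348_lc.PG
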