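import Pool.Agent.P.MP_f1a348_lc.PG.Iface

/-!
Project PG: one level either lifts or gives a recipe that makes progress.
-/

namespace Pool.Agent.P.MP_f1a348_lc.PG

open Matrix Module

namespace LVLx

variable {p n : ℕ} {ℓ : Ix n → ℕ}

theorem lam_apply (L : List (Mat p n)) (t : ℕ) (c : ℕ → ZMod p) (w : Frm p n) :
    lam ℓ L t c w = cmp ℓ t (∑ x ∈ Finset.range (nc L), c x • lamX L x w) := by
  simp only [lam, LinearMap.comp_apply, LinearMap.sum_apply, LinearMap.smul_apply]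

theorem lam_zero (L : List (Mat p n)) (t : ℕ) (w : Frm p n) : lam ℓ L t 0 w = 0 := by
  simp [lam_apply]

theorem lam_add (L : List (Mat p n)) (t : ℕ) (c c' : ℕ → ZMod p) (w : Frm p n) :
    lam ℓ L t (c + c') w = lam ℓ L t c w + lam ℓ L t c' w := by
  simp only [lam_apply, Pi.add_apply, add_smul, Finset.sum_add_distrib, map_add]

theorem lam_smul (L : List (Mat p n)) (t : ℕ) (r : ZMod p) (c : ℕ → ZMod p) (w : Frm p n) :
    lam ℓ L t (r • c) w = r • lam ℓ L t c w := by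
  simp only [lam_apply, Pi.smul_apply, smul_eq_mul, mul_smul, ← Finset.smul_sum, map_smul]

theorem lam_congr (L : List (Mat p n)) (t : ℕ) {c c' : ℕ → ZMod p} (h : ∀ x < nc L, c x = c' x)
    (w : Frm p n) : lam ℓ L t c w = lam ℓ L t c' w := by
  rw [lam_apply, lam_apply,
    Finset.sum_congr rfl fun x hx => by rw [h x (Finset.mem_range.1 hx)]]

theorem ann_zero (s : Side p n) (t : ℕ) : Ann ℓ s t 0 := fun w _ => by
  rw [lam_zero]; exact zero_mem _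

/-- the recipes without a choice -/
theorem prg_easy [Fact p.Prime] (hACC0 : S_ACC0 p n) {s : Side p n} (hs : Good ℓ s)
    (cs : ℕ → Set (ℕ → ZMod p)) (a : Fin 3 → Ix n) (k : ℕ) (hk : k = 2 ∨ k = 3)
    (h : ¬ s.B ≤ Ht s.B (Dd ℓ s ⟨k, a, 0, 0, 0, 0⟩ 0 (0, 0)) (Dd ℓ s ⟨k, a, 0, 0, 0, 0⟩ 0 (0, 0))) :
    Prg ℓ s cs ⟨k, a, 0, 0, 0, 0⟩ := by
  refine ⟨by simp only; omega, by simp, by simp, Or.inl rfl,
    ⟨zero_mem _, ann_zero s _, fun e => ?_, fun e => ?_⟩, fun θ _ => ?_⟩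
  · simp only at e; omega
  · simp only at e; omega
  · have := hACC0 ℓ s.B _ hs.str h
    rcases hk with rfl | rfl
    · simpa [Dd, cost] using this
    · simpa [Dd, cost] using this

end LVLx

open LVLx in
theorem s_LVL (p n : ℕ) [Fact p.Prime] (hp : 5 ≤ p) (hSTEP : S_STEP p n) (hHC : S_HC p n) (hRIG : S_RIG p n) (hPLP : S_PLP p n) (hACC0 : S_ACC0 p n) : S_LVL p n := by
  intro ℓ s cs t hs hB hcs hL
  have h30 : Big ℓ s.B 30 := hB.mono (by have := tt_ge n; omega)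
  by_cases ht : ∀ a, key ℓ a ≠ t
  · refine Or.inl fun z hz => ?_
    obtain ⟨g, hg⟩ := hL z hz
    exact ⟨g, hg.succ (Wt_eq_bot ht (kap_mem _ _ _))⟩
  push Not at ht
  obtain ⟨a, rfl⟩ := ht
  by_cases h2 : s.B ≤ Ht s.B (D2 ℓ s (key ℓ a)) (D2 ℓ s (key ℓ a))
  swap
  · exact Or.inr ⟨_, prg_easy hACC0 hs cs a 2 (Or.inl rfl) (by
      simpa [Dd, Rc.t, pm_zero] using h2)⟩
  by_cases h3 : s.B ≤ Ht s.B (D3 ℓ s (key ℓ a)) (D3 ℓ s (key ℓ a))
  swap
  · exact Or.inr ⟨_, prg_easy hACC0 hs cs a 3 (Or.inr rfl) (by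
      simpa [Dd, Rc.t, pm_zero] using h3)⟩
  have hA : AllLift ℓ s (key ℓ a) := hL.all hp hs.str
  by_cases h4 : (∃ j, ¬ Triv ℓ s.B (a j)) ∧
      ∃ c ∈ cs (key ℓ a), ¬ ∃ θ ∈ Tr ℓ s.B, Th ℓ s (key ℓ a) c θ
  · obtain ⟨hj, c, hc, hn⟩ := h4
    obtain ⟨θ0, h0⟩ := hHC ℓ s a c hs h30 hL hj (hcs.ann _ c hc)
    obtain ⟨ρ, e1, e2, e3, e4, e5, e6, e7, e8⟩ :=
      hPLP ℓ s a θ0 c hs hB hj h0.1 fun e => hn ⟨θ0, e, h0⟩
    have hR := hRIG ℓ s.B a hs.str h30 hj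
    refine Or.inr ⟨ρ, e3, e4, e5, Or.inr (by rw [e1, e6]; exact hc),
      ⟨e7, by rw [e1, e6]; exact hcs.ann _ c hc, fun e => by omega,
        fun _ => by rw [e1, e6]; exact ⟨hA, hR, θ0, h0⟩⟩, fun θ hθ => ?_⟩
    have h1 := hθ e2
    rw [e1, e6] at h1
    refine e8 θ h1.1 (hR _ (sub_mem h1.1 h0.1) fun z hz => ?_)
    obtain ⟨g, hg⟩ := hA z hz
    have := sub_mem (h1.2 z g hz hg) (h0.2 z g hz hg)
    rw [map_sub]
    have e : ∀ u v x y q : Frm p n, u - v - (x - y) = u - x - q - (v - y - q) := by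
      intro u v x y q; abel
    rwa [e _ _ _ _ (lam ℓ (CL s) (key ℓ a) c (kap ℓ s.T (key ℓ a) g))]
  · refine Or.inl (hSTEP ℓ s a hs h30 hL h2 h3 fun hj c hc => ⟨0, zero_mem _, zero_mem _,
      fun z g hz hg => ?_⟩)
    obtain ⟨c', hc', e⟩ := hcs.span _ c hc
    rw [map_zero, sub_zero, zero_sub, lam_congr _ _ e]
    refine neg_mem ?_
    refine Submodule.span_induction (p := fun c' _ =>
      lam ℓ (CL s) (key ℓ a) c' (kap ℓ s.T (key ℓ a) g) ∈ Tr ℓ s.B) (fun x hx => ?_)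
      (by rw [lam_zero]; exact zero_mem _) (fun x y _ _ hx hy => by
        rw [lam_add]; exact add_mem hx hy) (fun r x _ hx => by
        rw [lam_smul]; exact Submodule.smul_mem _ r hx) hc'
    have : ∃ θ ∈ Tr ℓ s.B, Th ℓ s (key ℓ a) x θ := by
      by_contra hn
      exact h4 ⟨hj, x, hx, hn⟩
    obtain ⟨θ, h1, h5⟩ := this
    obtain ⟨l1, l2, l3⟩ := hz.lo hp hs.str
    have hzB : z ∈ s.B := by
      obtain ⟨ε, m1, -, -, -, rfl⟩ := hz.refl hs.str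
      exact sub_mem hs.str.alg.one (Submodule.smul_mem _ _ m1)
    have hu : Un z := by unfold Un; rw [l2, l3]
    have := sub_mem (sub_mem (pull1_mem_Tr hzB hu h1) h1) (h5.2 z g hz hg)
    rwa [sub_sub_cancel] at this

end Pool.Agent.P.MP_f1a348_lc.PG
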