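import Pool.Agent.P.MP_f1a348_lc.PG.Iface

namespace Pool.Agent.P.MP_f1a348_lc.PG

open Matrix Module

namespace MIDx

variable {p n : ℕ} [Fact p.Prime] {ℓ : Ix n → ℕ} {B : Sub p n} {a : Fin 3 → Ix n}

/-- the maps that send `S` to the traces -/
def II (ℓ : Ix n → ℕ) (B : Sub p n) (a : Fin 3 → Ix n) (S : Submodule (ZMod p) (Frm p n)) :
    Submodule (ZMod p) (Frm p n →ₗ[ZMod p] Frm p n) where
  carrier := {μ | μ ∈ AA ℓ B a ∧ ∀ v ∈ S, μ v ∈ Tr ℓ B}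
  add_mem' hx hy := ⟨add_mem hx.1 hy.1, fun v hv => add_mem (hx.2 v hv) (hy.2 v hv)⟩
  zero_mem' := ⟨zero_mem _, fun _ _ => zero_mem _⟩
  smul_mem' c _ hx := ⟨Submodule.smul_mem _ c hx.1, fun v hv => Submodule.smul_mem _ c (hx.2 v hv)⟩

theorem pf_mem (h : Lab ℓ) {y : Fin 3 → Vec p n} (hy : ∀ j, y j ∈ Vb ℓ (a j).rev) :
    pf y ∈ Wt ℓ (key ℓ a) := by
  intro i hi
  have : ¬ ∀ j, ℓ (i j) = ℓ (a j) := fun e => hi ((key_eq_iff h).2 e)
  obtain ⟨j, hj⟩ := not_forall.1 this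
  exact Finset.prod_eq_zero (Finset.mem_univ j) (hy j _ fun e => hj (h.rev_eq.1 e))

/-- evaluation of the images of a form -/
noncomputable def phi (ℓ : Ix n → ℕ) (B : Sub p n) (a : Fin 3 → Ix n) (x : Fin 3 → Vec p n) :
    Frm p n →ₗ[ZMod p] Module.Dual (ZMod p) (AA ℓ B a) :=
  LinearMap.mk₂ (ZMod p) (fun v (μ : AA ℓ B a) => ev (μ.1 v) x)
    (fun v w μ => by rw [map_add, ev_add])
    (fun c v μ => by rw [map_smul, ev_smul, smul_eq_mul])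
    (fun v μ ν => by rw [Submodule.coe_add, LinearMap.add_apply, ev_add])
    (fun c v μ => by rw [Submodule.coe_smul, LinearMap.smul_apply, ev_smul, smul_eq_mul])

theorem phi_apply (x : Fin 3 → Vec p n) (v : Frm p n) (μ : AA ℓ B a) :
    phi ℓ B a x v μ = ev (μ.1 v) x := rfl

theorem mem_II (hTRANS : S_TRANS p n) (hTR : S_TR p n) (h : Str ℓ B) (hb : Big ℓ B 30)
    {S : Submodule (ZMod p) (Frm p n)} (hS : ∀ z ∈ Lo B, ∀ v ∈ S, pull1 z v ∈ S)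
    {x : Fin 3 → Vec p n} (hx : Gen ℓ B a x) (hx0 : ∀ j, x j ≠ 0)
    {μ : Frm p n →ₗ[ZMod p] Frm p n} (hμ : μ ∈ AA ℓ B a) (H : ∀ s ∈ S, ev (μ s) x = 0) :
    μ ∈ II ℓ B a S := by
  refine ⟨hμ, fun s hs => hTR ℓ B a _ h hb (aa_mem_Wt h.lab hμ s) fun x' hx' => ?_⟩
  obtain ⟨z, hz, hzx⟩ := hTRANS ℓ B a x x' h hb hx hx'
  have hc : ∀ j, ∃ c : ZMod p, x' j = c • (z *ᵥ x j) := fun j => by
    by_cases t : Triv ℓ B (a j)
    · rw [lo_triv h hz t (hx.mem j)]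
      exact triv_line h t (hx.mem j) (hx0 j) (hx'.mem j)
    · exact ⟨1, by rw [hzx j t, one_smul]⟩
  choose c hc using hc
  have e : x' = fun j => c j • (z *ᵥ x j) := funext hc
  rw [e, ev_smul_slots, ← ev_pull1, ← aa_pull1 hμ (lo_spec h hz).1, H _ (hS z hz s hs), mul_zero]

theorem pf_sub (hDFR : S_DFR p n) (hTRANS : S_TRANS p n) (hGP : S_GP p n) (hTR : S_TR p n)
    (h : Str ℓ B) (hb : Big ℓ B 30) {S : Submodule (ZMod p) (Frm p n)}
    (hW : S ≤ Wt ℓ (key ℓ a)) (hS : ∀ z ∈ Lo B, ∀ v ∈ S, pull1 z v ∈ S)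
    {e : Frm p n →ₗ[ZMod p] Frm p n} (he : e ∈ AA ℓ B a) (hI : ∀ ν ∈ II ℓ B a S, ν ∘ₗ e = ν)
    {y : Fin 3 → Vec p n} (hy : Gen ℓ B (fun j => (a j).rev) y) : pf y - e (pf y) ∈ S := by
  obtain ⟨x, π, hx, hx0, hF, hπ⟩ := hDFR ℓ B a y h hy
  obtain ⟨G, G1, G2, G3, G4⟩ := hGP ℓ B a x π h hF hx.mem hx0
  have h1 : phi ℓ B a x (pf y - e (pf y)) ∈ S.map (phi ℓ B a x) := by
    rw [← Subspace.dualCoannihilator_dualAnnihilator_eq (W := S.map (phi ℓ B a x)),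
      Submodule.mem_dualAnnihilator]
    intro μ hμ
    rw [Submodule.mem_dualCoannihilator] at hμ
    have hm : μ.1 ∈ II ℓ B a S :=
      mem_II hTRANS hTR h hb hS hx hx0 μ.2 fun s hs => hμ _ ⟨s, hs, rfl⟩
    have h2 : μ.1 (e (pf y)) = μ.1 (pf y) := LinearMap.congr_fun (hI _ hm) (pf y)
    rw [phi_apply, map_sub, h2, sub_self]
    exact map_zero (evL x)
  obtain ⟨s, hs, hs'⟩ := h1
  have h3 : G (pf y - e (pf y) - s) = 0 := by
    refine G4 _ (sub_mem (sub_mem (pf_mem h.lab hy.mem) (aa_mem_Wt h.lab he _)) (hW hs))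
      fun μ hμ => ?_
    have h4 := LinearMap.congr_fun hs' ⟨μ, hμ⟩
    rw [phi_apply, phi_apply] at h4
    rw [map_sub, ev_sub, h4, sub_self]
  have h5 : G (pf y) = pf y := G3 y hy.mem hπ
  rw [map_sub, map_sub, G2 e he, h5, sub_eq_zero] at h3
  rw [h3]
  exact G1 S hS s hs

end MIDx

open MIDx in
theorem s_MID (p n : ℕ) [Fact p.Prime] (hp : 5 ≤ p) (hMASCHKE : S_MASCHKE p n) (hDUAL : S_DUAL p n)
    (hDFR : S_DFR p n) (hTRANS : S_TRANS p n) (hGP : S_GP p n) (hTR : S_TR p n) : S_MID p n := by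
  intro ℓ B a S w h hb hW hS hw H
  obtain ⟨e, he, hI⟩ := hMASCHKE ℓ B a (II ℓ B a S) h (fun μ hμ => hμ.1)
    fun μ hμ ν hν => ⟨aa_comp hμ hν.1, fun v hv => aa_Tr h hμ (hν.2 v hv)⟩
  have h1 : e w ∈ Tr ℓ B := H e he.1 he.2
  have h2 : ∀ v ∈ Submodule.span (ZMod p)
      {v | ∃ y, Gen ℓ B (fun j => (a j).rev) y ∧ v = pf y}, v - e v ∈ S := by
    intro v hv
    induction hv using Submodule.span_induction with
    | mem v hv =>
      obtain ⟨y, hy, rfl⟩ := hv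
      exact pf_sub hDFR hTRANS hGP hTR h hb hW hS he.1 hI hy
    | zero => simp
    | add u v _ _ hu hv =>
      have : u + v - e (u + v) = (u - e u) + (v - e v) := by rw [map_add]; abel
      rw [this]; exact add_mem hu hv
    | smul c v _ hv =>
      have : c • v - e (c • v) = c • (v - e v) := by rw [map_smul, smul_sub]
      rw [this]; exact Submodule.smul_mem _ c hv
  have h3 : w = (w - e w) + e w := by abel
  rw [h3]
  exact Submodule.add_mem_sup (h2 w (hDUAL ℓ B a w h hb hw)) h1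

end Pool.Agent.P.MP_f1a348_lc.PG
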