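import Pool.Agent.P.MP_f1a348_lc.PG.Iface

/-! Project PG: adapted changes of basis. -/

namespace Pool.Agent.P.MP_f1a348_lc.PG

open Matrix Module

namespace MKGx

variable {p n : ℕ} {ℓ : Ix n → ℕ} {a : Ix n} {X : Mat p n}

theorem supp (h1 : pr ℓ a * X = X) (h2 : X * pr ℓ a = X) {γ β : Ix n} (e : X γ β ≠ 0) :
    ℓ γ = ℓ a ∧ ℓ β = ℓ a := by
  constructor
  · by_contra h
    exact e (by rw [← h1, pr_mul_apply, if_neg h])
  · by_contra h
    exact e (by rw [← h2, mul_pr_apply, if_neg h])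

theorem dg (h1 : pr ℓ a * X = X) (h2 : X * pr ℓ a = X) : Dg ℓ X := fun _ _ e =>
  (supp h1 h2 e).1.trans (supp h1 h2 e).2.symm

end MKGx

open MKGx in
theorem s_MKG (p n : ℕ) [Fact p.Prime] (hp : 5 ≤ p) : S_MKG p n := by
  intro ℓ α W G G' h hα hG h1 h2 h3
  have ne : ℓ α ≠ ℓ α.rev := fun e => lt_asymm hα (c0_lt_rev.1 ((h.c0_lt e).1 hα))
  have n0 : ℓ (c0 n) ≠ ℓ α := fun e => hα.ne' (h.ctr α e.symm)
  have n1 : ℓ (c0 n) ≠ ℓ α.rev := fun e => n0 (by rw [← h.rev_eq, rev_c0, e])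
  have hG' := mul_eq_one_comm.1 hG
  obtain ⟨N, rfl⟩ : ∃ N, G = 1 + N := ⟨G - 1, by abel⟩
  obtain ⟨M, rfl⟩ : ∃ M, G' = 1 + M := ⟨G' - 1, by abel⟩
  have a0 : ∀ γ β, ℓ β ≠ ℓ α → N γ β = 0 := fun γ β e => by simpa using h1 γ β e
  have a1 : N * pr ℓ α = N := by
    ext γ β
    rw [mul_pr_apply]
    split_ifs with e
    exacts [rfl, (a0 γ β e).symm]
  have a2 : pr ℓ α * N = N := by
    ext γ β
    rw [pr_mul_apply]
    split_ifs with e
    · rfl
    by_cases e' : ℓ β = ℓ α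
    · have := h2 γ β e' e
      rwa [Matrix.add_apply, one_apply_ne (fun h0 => e (by rw [h0, e'])), zero_add, eq_comm] at this
    · exact (a0 γ β e').symm
  have b1 : M = -N - N * M := by
    rw [mul_add, mul_one, add_mul, one_mul] at hG
    linear_combination (norm := abel) hG
  have b2 : M = -N - M * N := by
    rw [mul_add, add_mul, add_mul, mul_one, mul_one, one_mul] at hG'
    linear_combination (norm := abel) hG'
  have a3 : pr ℓ α * M = M := by
    rw [b1, mul_sub, mul_neg, ← mul_assoc, a2]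
  have a4 : M * pr ℓ α = M := by
    rw [b2, sub_mul, neg_mul, mul_assoc, a1]
  have a5 : pr ℓ α.rev * st M = st M := by rw [← st_pr h, ← st_mul, a4]
  have a6 : st M * pr ℓ α.rev = st M := by rw [← st_pr h, ← st_mul, a3]
  have a7 : st N * pr ℓ α.rev = st N := by rw [← st_pr h, ← st_mul, a2]
  have z : ∀ X : Mat p n, X * pr ℓ α = X → X * st M = 0 := fun X e => by
    rw [← e, ← a5, mul_assoc, ← mul_assoc (pr ℓ α), pr_mul_pr_of_ne ne, zero_mul, mul_zero]
  have z2 : st N * N = 0 := by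
    rw [← a7, ← a2, mul_assoc, ← mul_assoc (pr ℓ α.rev), pr_mul_pr_of_ne ne.symm, zero_mul,
      mul_zero]
  have e : (1 + N) * st (1 + M) = 1 + N + st M := by
    rw [st_add, st_one, mul_add, mul_one, add_mul, one_mul, z N a1, add_zero]
  have d : Dg ℓ (1 + N + st M) := (Dg.one.add (dg a2 a1)).add (dg a5 a6)
  rw [e]
  refine ⟨⟨d.tri h, ?_, ?_⟩, d, fun β e1 e2 => ?_⟩
  · have b3 := congrArg st b2
    rw [st_sub, st_neg, st_mul] at b3
    simp only [Un, st_add, st_one, st_st, mul_add, add_mul, mul_one, one_mul, z2, z M a4]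
    linear_combination (norm := abel) b2 + b3
  · rw [Matrix.add_apply, Matrix.add_apply, a0 _ _ n0, one_apply_eq, add_zero,
      not_not.1 (mt (fun h => (supp a5 a6 h).1) n1), add_zero]
  · have : (fun γ => (1 + N + st M) γ β) = fun γ => (1 + N) γ β := funext fun γ => by
      rw [Matrix.add_apply, not_not.1 (mt (fun h => (supp a5 a6 h).2) (e1 ▸ ne)), add_zero]
    exact this ▸ h3 β e1 e2

end Pool.Agent.P.MP_f1a348_lc.PG
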