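import Pool.Agent.P.MP_f1a348_lc.PG.Iface

/-! Project PG: naturality of annihilators, trivialisations, lifts and rigidity. -/

namespace Pool.Agent.P.MP_f1a348_lc.PG

open Matrix Module

namespace NAT2x

variable {p n : ℕ} {ℓ : Ix n → ℕ} {f : Mat p n}

theorem lamX_map (h : Un f) (L : List (Mat p n)) (x : ℕ) (w : Frm p n) :
    lamX (L.map (cj f)) x (pull1 (st f) w) = pull1 (st f) (lamX L x w) := by
  have e : ∀ C : Mat p n, st f * cj f C = C * st f := fun C => by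
    rw [cj_apply, ← mul_assoc, ← mul_assoc, h.st_mul, one_mul]
  simp only [lamX, LinearMap.comp_apply, List.length_map, getD_map_lin]
  rw [pull1_perm (pm_bij _), pull1, pull_pull, pull_pull]
  congr 3
  funext j
  fin_cases j <;> exact e _

theorem lam_map (h : Lev ℓ f) (L : List (Mat p n)) (t : ℕ) (c : ℕ → ZMod p) (w : Frm p n) :
    lam ℓ (L.map (cj f)) t c (pull1 (st f) w) = pull1 (st f) (lam ℓ L t c w) := by
  have e : nc (L.map (cj f)) = nc L := by simp only [nc, List.length_map]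
  simp only [lam, LinearMap.comp_apply, e, LinearMap.sum_apply, LinearMap.smul_apply,
    lamX_map h.un]
  rw [← cmp_pull1_dg h.lab h.star.dg, map_sum (pull1 (st f))]
  simp only [map_smul]

theorem pull_cj (h : Un f) (z : Mat p n) (θ : Frm p n) :
    pull1 (cj f z) (pull1 (st f) θ) = pull1 (st f) (pull1 z θ) := by
  rw [← pull1_mul, ← pull1_mul, cj_apply, ← mul_assoc, ← mul_assoc, h.st_mul, one_mul]

end NAT2x

open NAT2x

theorem s_NAT2 (p n : ℕ) [Fact p.Prime] (hp : 5 ≤ p) (hNAT1 : S_NAT1 p n) : S_NAT2 p n := by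
  intro ℓ φ s s' t c hs hN
  have hl := hs.str.lab
  have hf := hN.lev hl
  have hφ : Un φ := hN.par.2.1
  obtain ⟨h1, h2, -, -⟩ := hNAT1 ℓ φ s s' t hs hN
  obtain ⟨h3, -, -, -⟩ := hNAT1 ℓ (st φ) s' s t (hN.good hs) (hN.symm hl)
  refine ⟨fun hA w hw => ?_, fun θ hθ => ⟨pull1_mem_Wt hl hf.star.dg hθ.1, fun z g hz hg => ?_⟩,
    fun hA z hz => ?_, fun hR θ hθ hz => ?_⟩
  · rw [h2] at hw
    obtain ⟨v, hv, rfl⟩ := hw
    rw [hN.cl, lam_map hf, hN.B, hf.mem_tr]
    exact hA v hv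
  · rw [hN.B, hf.test_iff] at hz
    obtain ⟨a1, a2⟩ := h3 z g hg
    rw [gr_st hl] at a1 a2
    have a3 := hθ.2 _ _ hz a1
    have a4 : kap ℓ s'.T t g = pull1 (st (gr ℓ φ)) (kap ℓ s.T t (st φ * g * st (st φ))) := by
      rw [a2, st_st, hf.un.pull1_st]
    rw [a4, hN.cl, lam_map hf, hN.B, ← hf.un.cj_cj' z, pull_cj hf.un, ← map_sub, ← map_sub,
      hf.mem_tr]
    exact a3
  · rw [hN.B, hf.test_iff] at hz
    obtain ⟨g, hg⟩ := hA _ hz
    have := (h1 _ g hg).1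
    rw [hf.un.cj_cj'] at this
    exact ⟨_, this⟩
  · rw [← hf.un.pull1_st θ, hN.B, hf.mem_tr]
    refine hR _ (pull1_mem_Wt hl hf.dg hθ) fun z hz' => ?_
    have := hz _ (hN.B ▸ hf.test hz')
    rw [← hf.un.pull1_st θ, pull_cj hf.un, ← map_sub, hN.B, hf.mem_tr] at this
    exact this

end Pool.Agent.P.MP_f1a348_lc.PG
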