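import Pool.Agent.P.MP_f1a348_lc.PG.Iface

/-!
Project PG: naturality of the recipes.
-/

namespace Pool.Agent.P.MP_f1a348_lc.PG

open Matrix Module

set_option linter.unusedSectionVars false

namespace NATURx

variable {p n : ℕ} [Fact p.Prime] {ℓ : Ix n → ℕ}

theorem D0_map {f : Mat p n} (hf : Par ℓ f) (u : Vec p n) :
    D0 (f *ᵥ u) = (D0 u).map (act f) := by
  rw [D0, D0, Submodule.map_span, Set.image_singleton, act_t1, Matrix.mulVec_add, hf.mulVec_e0]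

theorem cj_cj (f z C : Mat p n) : cj (f * z) C = cj f (cj z C) := by
  simp only [cj_apply, st_mul, mul_assoc]

theorem map_cj_self {B : Sub p n} (hB : Alg ℓ B) {z : Mat p n} (hz : z ∈ B) (hu : Un z) :
    B.map (cj z) = B := by
  ext X
  rw [hu.mem_map_cj]
  refine ⟨fun h => ?_, fun h => ?_⟩
  · rw [← hu.cj_cj' X]
    exact hB.mul _ (hB.mul _ hz _ h) _ (hB.star _ hz)
  · exact hB.mul _ (hB.mul _ (hB.star _ hz) _ h) _ (hB.star _ (hB.star _ hz))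

theorem map_lm_mul {B : Sub p n} (hB : Alg ℓ B) {z : Mat p n} (hz : z ∈ B) (hu : Un z)
    (f : Mat p n) : B.map (lm (f * z)) = B.map (lm f) := by
  ext X
  constructor
  · rintro ⟨b, hb, rfl⟩
    exact ⟨z * b, hB.mul _ hz _ hb, by simp only [lm_apply, mul_assoc]⟩
  · rintro ⟨b, hb, rfl⟩
    refine ⟨st z * b, hB.mul _ (hB.star _ hz) _ hb, ?_⟩
    simp only [lm_apply]
    rw [mul_assoc, ← mul_assoc z, hu.mul_st, one_mul]

/-- an isomorphism of sides may be composed with an automorphism whose diagonal part is in `B` -/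
theorem nt_mul {φ g : Mat p n} {s s' : Side p n} (hs : Good ℓ s) (h : Nt ℓ φ s s')
    (hg : Par ℓ g) (hT : pull1 g s.T = s.T) (hz : gr ℓ g ∈ s.B) :
    Nt ℓ (φ * g) s s' ∧ gr ℓ (φ * g) = gr ℓ φ * gr ℓ g := by
  have e : gr ℓ (φ * g) = gr ℓ φ * gr ℓ g := gr_mul h.par.1 hg.1
  have hu : Un (gr ℓ g) := (hg.lev hs.str.lab).un
  refine ⟨⟨h.par.mul hg, by rw [pull1_mul, h.T, hT], ?_, fun a b => ?_⟩, e⟩
  · have : cj (gr ℓ φ * gr ℓ g) = cj (gr ℓ φ) ∘ₗ cj (gr ℓ g) := LinearMap.ext fun C => cj_cj _ _ C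
    rw [e, this, Submodule.map_comp, map_cj_self hs.str.alg hz hu, h.B]
  · rw [h.Cs, e]
    refine List.map_congr_left fun C hC => ?_
    rw [cj_cj, hu.cj_of_comm ((hs.mem_cb hC).1 _ hz)]

end NATURx

open NATURx

theorem s_NATUR (p n : ℕ) [Fact p.Prime] (hp : 5 ≤ p) (hNAT1 : S_NAT1 p n) (hNAT2 : S_NAT2 p n)
    (hNAT3 : S_NAT3 p n) (hHINV : S_HINV p n) (hSWAP : S_SWAP p n) : S_NATUR p n := by
  intro ℓ φ s s' ρ S θ θ' hs hN hV hS hθ hθ'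
  have hl := hs.str.lab
  have hf : Lev ℓ (gr ℓ φ) := hN.lev hl
  have hs' : Good ℓ s' := hN.good hs
  have hfu : gr ℓ φ *ᵥ ρ.u ∈ Vb ℓ (ρ.a 0) := hf.dg.mulVec_mem hV.mem
  by_cases k0 : ρ.kind = 0
  · refine ⟨φ, (gr ℓ φ *ᵥ ρ.u, 0), hS.pin k0 _ hfu, hN, rfl, ?_⟩
    have k01 : ρ.kind ≤ 1 := by omega
    rw [Dd, Dd, if_pos k01, if_pos k01]
    exact D0_map hf.par _
  by_cases k1 : ρ.kind = 1
  · obtain ⟨hu0, hui, hnt, hbig, hall⟩ := hV.free k1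
    obtain ⟨u', hu', hu'0, hu'i, hu'S⟩ := hS.free k1 ⟨_, hfu, fun e => hu0 (by
      rw [← hf.un.st_mulVec ρ.u, e, Matrix.mulVec_zero]), hN.B ▸ hf.un.isot hui⟩
    have h2i : Isot s.B (st (gr ℓ φ) *ᵥ u') := by
      have := hf.star.un.isot hu'i
      rwa [hN.B, hf.un.map_cj_cj] at this
    have h20 : st (gr ℓ φ) *ᵥ u' ≠ 0 := fun e => hu'0 (by
      rw [← hf.un.mulVec_st u', e, Matrix.mulVec_zero])
    obtain ⟨z1, z2, t1, t2, e, -⟩ := hSWAP ℓ s.B 0 ⊥ (ρ.a 0) ρ.u (st (gr ℓ φ) *ᵥ u') hs.str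
      small_bot hnt ((by norm_num : 2 * (0 + 2) + 3 ≤ 30).trans (hbig _ hnt)) hV.mem hui
      (by rw [perp_bot]; trivial) (by simpa using hu0) (hf.star.dg.mulVec_mem hu') h2i
      (by rw [perp_bot]; trivial) (by simpa using h20)
    obtain ⟨g1, hg1⟩ := hall z1 t1
    obtain ⟨g2, hg2⟩ := hall z2 t2
    have hg := hg2.mul hg1
    have m1 := (lo_spec hs.str (t1.lo hp hs.str).1)
    have m2 := (lo_spec hs.str (t2.lo hp hs.str).1)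
    have hz : gr ℓ (g2 * g1) ∈ s.B := by
      rw [hg.2.1]; exact hs.str.alg.mul _ m2.1 _ m1.1
    obtain ⟨hN', eg⟩ := nt_mul hs hN hg.1 (hg.eq_top hl) hz
    refine ⟨φ * (g2 * g1), (u', 0), hu'S, hN', ?_, ?_⟩
    · rw [eg]
      exact map_lm_mul hs.str.alg hz (hg.1.lev hl).un _
    · have k01 : ρ.kind ≤ 1 := by omega
      rw [Dd, Dd, if_pos k01, if_pos k01, ← D0_map (hN'.lev hl).par, eg, hg.2.1,
        ← Matrix.mulVec_mulVec, ← Matrix.mulVec_mulVec, e, hf.un.mulVec_st]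
  have k01 : ¬ ρ.kind ≤ 1 := by omega
  by_cases k2 : ρ.kind = 2
  · obtain ⟨q', hq'⟩ := hS.oth k0 k1 (by omega)
    refine ⟨φ, q', hq', hN, rfl, ?_⟩
    rw [Dd, Dd, if_neg k01, if_neg k01, if_pos k2, if_pos k2]
    exact (hNAT1 ℓ φ s s' _ hs hN).2.2.1
  by_cases k3 : ρ.kind = 3
  · obtain ⟨q', hq'⟩ := hS.oth k0 k1 (by omega)
    refine ⟨φ, q', hq', hN, rfl, ?_⟩
    rw [Dd, Dd, if_neg k01, if_neg k01, if_neg k2, if_neg k2, if_pos k3, if_pos k3]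
    exact (hNAT1 ℓ φ s s' _ hs hN).2.2.2
  have k4 : 4 ≤ ρ.kind := by omega
  obtain ⟨hall, hrig, -⟩ := hV.rig k4
  obtain ⟨-, n2, n3, n4⟩ := hNAT2 ℓ φ s s' (ρ.t ℓ) ρ.c hs hN
  have T1 := n2 θ (hθ k4)
  have T2 := hθ' k4
  have hW : θ' - pull1 (st (gr ℓ φ)) θ ∈ Wt ℓ (ρ.t ℓ) := sub_mem T2.1 T1.1
  have hTr : θ' - pull1 (st (gr ℓ φ)) θ ∈ Tr ℓ s'.B := n4 hrig _ hW fun z hz => by
    obtain ⟨g, hg⟩ := n3 hall z hz
    have := sub_mem (T2.2 z g hz hg) (T1.2 z g hz hg)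
    convert this using 1
    rw [map_sub]
    abel
  have hτ := perm_mem_Tr hs'.str (pm_bij ρ.k) hTr
  have hτW := perm_mem_Wt hl (pm_bij ρ.k) (a := ρ.a) hW
  obtain ⟨i4, i5⟩ := hHINV ℓ s' ρ.a (pull1 (st (gr ℓ φ)) (perm (pm ρ.k) θ)) _ hs' hτ hτW
  have e : pull1 (st (gr ℓ φ)) (perm (pm ρ.k) θ) +
      perm (pm ρ.k) (θ' - pull1 (st (gr ℓ φ)) θ) = perm (pm ρ.k) θ' := by
    rw [map_sub, pull1_perm (pm_bij ρ.k)]
    abel
  rw [e] at i4 i5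
  obtain ⟨j4, j5⟩ := hNAT3 ℓ φ s s' ρ.a (perm (pm ρ.k) θ) hs hN
  by_cases k5 : ρ.kind = 4
  · obtain ⟨q', hq', -, eq⟩ := i4 (gr ℓ φ *ᵥ ρ.u, 0) ⟨hfu, fun _ _ => rfl⟩
    refine ⟨φ, q', hS.sli k5 q' hq', hN, rfl, ?_⟩
    rw [Dd, Dd, if_neg k01, if_neg k01, if_neg k2, if_neg k2, if_neg k3, if_neg k3,
      if_pos k5, if_pos k5, eq]
    exact j4 (ρ.u, 0)
  obtain ⟨q', hq'⟩ := hS.oth k0 k1 k5
  refine ⟨φ, q', hq', hN, rfl, ?_⟩
  rw [Dd, Dd, if_neg k01, if_neg k01, if_neg k2, if_neg k2, if_neg k3, if_neg k3,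
    if_neg k5, if_neg k5]
  by_cases k6 : ρ.kind = 5
  · rw [if_pos k6, if_pos k6, (i5 ρ.r).2.1]
    exact (j5 ρ.r).1
  · rw [if_neg k6, if_neg k6, (i5 ρ.r).2.2]
    exact (j5 ρ.r).2

end Pool.Agent.P.MP_f1a348_lc.PG
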