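import Pool.Agent.P.MP_f1a348_lc.PG.Iface

/-! Project PG: polycyclic sequences generate. -/

namespace Pool.Agent.P.MP_f1a348_lc.PG

theorem s_PCS (p n : ℕ) [Fact p.Prime] (hp : 5 ≤ p) : S_PCS p n := by
  intro L
  have _ := hp
  induction L with
  | nil =>
    intro H hH h
    refine ⟨by simp, fun κ hκ u hu => ?_⟩
    have e : H = {1} := h
    rw [e] at hu
    have h1 := hκ 1 hH.one 1 hH.one
    rw [mul_one, left_eq_add] at h1
    rw [Set.mem_singleton_iff.1 hu, h1]
    exact zero_mem _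
  | cons g L ih =>
    intro H hH h
    obtain ⟨hg, H', h1, h2, h3, -, -, h4⟩ := h
    obtain ⟨i1, i2⟩ := ih H' h1 h3
    refine ⟨fun x hx => ?_, fun κ hκ u hu => ?_⟩
    · rcases List.mem_cons.1 hx with rfl | hx
      · exact hg
      · exact h2 (i1 x hx)
    obtain ⟨k, u', hu', rfl⟩ := h4 u hu
    have h5 : ∀ k : ℕ, g ^ k ∈ H ∧
        κ (g ^ k) ∈ (spL ((g :: L).map κ) : Submodule (ZMod p) (Frm p n)) := fun k => by
      induction k with
      | zero =>
        have h1 := hκ 1 hH.one 1 hH.one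
        rw [mul_one, left_eq_add] at h1
        rw [pow_zero, h1]
        exact ⟨hH.one, zero_mem _⟩
      | succ k ih =>
        rw [pow_succ, hκ _ ih.1 _ hg]
        exact ⟨hH.mul _ ih.1 _ hg, add_mem ih.2 (mem_spL (by simp))⟩
    rw [hκ _ (h5 k).1 _ (h2 hu')]
    refine add_mem (h5 k).2 (spL_le.2 (fun x hx => mem_spL ?_)
      (i2 κ (fun a ha b hb => hκ a (h2 ha) b (h2 hb)) u' hu'))
    exact List.mem_cons_of_mem _ hx

end Pool.Agent.P.MP_f1a348_lc.PG
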