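import Pool.Agent.P.MP_f1a348_lc.PG.Iface

/-!
Project PG: peeling off one trace.
-/

namespace Pool.Agent.P.MP_f1a348_lc.PG

open Matrix Module

namespace PEELx

variable {p n : ℕ} {ℓ : Ix n → ℕ} {B : Sub p n}

/-- the form read from the place `m` on -/
noncomputable def E3 (w : Frm p n) (m : Fin 3) (v : Vec p n) :
    Vec p n →ₗ[ZMod p] Vec p n →ₗ[ZMod p] ZMod p :=
  LinearMap.mk₂ (ZMod p) (fun y z => ∑ i, w i * (v (i m) * y (i (m + 1)) * z (i (m + 2))))
    (fun y y' z => by simp [mul_add, add_mul, Finset.sum_add_distrib])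
    (fun c y z => by
      simp only [Pi.smul_apply, smul_eq_mul, Finset.mul_sum]
      exact Finset.sum_congr rfl fun i _ => by ring)
    (fun y z z' => by simp [mul_add, Finset.sum_add_distrib])
    (fun c y z => by
      simp only [Pi.smul_apply, smul_eq_mul, Finset.mul_sum]
      exact Finset.sum_congr rfl fun i _ => by ring)

theorem E3_apply (w : Frm p n) (m : Fin 3) (v y z : Vec p n) :
    E3 w m v y z = ∑ i, w i * (v (i m) * y (i (m + 1)) * z (i (m + 2))) := rfl

theorem ev_eq (w : Frm p n) (m : Fin 3) (x : Fin 3 → Vec p n) :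
    ev w x = E3 w m (x m) (x (m + 1)) (x (m + 2)) := by
  simp only [ev, E3_apply, prod_three m]

theorem E3_add (w : Frm p n) (m : Fin 3) (v v' y z : Vec p n) :
    E3 w m (v + v') y z = E3 w m v y z + E3 w m v' y z := by
  simp [E3_apply, mul_add, add_mul, Finset.sum_add_distrib]

theorem E3_smul (w : Frm p n) (m : Fin 3) (c : ZMod p) (v y z : Vec p n) :
    E3 w m (c • v) y z = c * E3 w m v y z := by
  simp only [E3_apply, Pi.smul_apply, smul_eq_mul, Finset.mul_sum]
  exact Finset.sum_congr rfl fun i _ => by ring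

open Classical in
/-- the optional orbit -/
noncomputable def Wo (ℓ : Ix n → ℕ) (B : Sub p n) (q : Prop) (v : Vec p n) : VS p n :=
  if q then orb (Co ℓ B) v else ⊥

theorem mem_perp_Wo {q : Prop} {v y : Vec p n} :
    y ∈ perp (Wo ℓ B q v) ↔ (q → y ∈ perp (orb (Co ℓ B) v)) := by
  unfold Wo
  by_cases h : q
  · simp [h]
  · simp [h]

theorem perp_Wo_add {q : Prop} {v v' y : Vec p n} (h : y ∈ perp (Wo ℓ B q v))
    (h' : y ∈ perp (Wo ℓ B q v')) : y ∈ perp (Wo ℓ B q (v + v')) := by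
  rw [mem_perp_Wo] at h h' ⊢
  intro e
  refine mem_perp_orb.2 fun C hC => ?_
  rw [Matrix.mulVec_add, ip_add_left, mem_perp_orb.1 (h e) C hC, mem_perp_orb.1 (h' e) C hC,
    add_zero]

theorem perp_Wo_smul {q : Prop} {v y : Vec p n} (c : ZMod p) (h : y ∈ perp (Wo ℓ B q v)) :
    y ∈ perp (Wo ℓ B q (c • v)) := by
  rw [mem_perp_Wo] at h ⊢
  intro e
  refine mem_perp_orb.2 fun C hC => ?_
  rw [Matrix.mulVec_smul, ip_smul_left, mem_perp_orb.1 (h e) C hC, mul_zero]

theorem small_Wo [Fact p.Prime] (h : Str ℓ B) (q : Prop) {b : Ix n} {v : Vec p n}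
    (hv : v ∈ Vb ℓ b) : Small ℓ B 1 (Wo ℓ B q v) := by
  unfold Wo
  by_cases e : q
  · rw [if_pos e]; exact small_orb_co h hv
  · rw [if_neg e]; exact small_bot.mono (by omega)

theorem three (m k : Fin 3) : k = m ∨ k = m + 1 ∨ k = m + 2 := by
  revert m k; decide

theorem a12 (m : Fin 3) : m + 1 + 2 = m := by revert m; decide
theorem a11 (m : Fin 3) : m + 1 + 1 = m + 2 := by revert m; decide
theorem a21 (m : Fin 3) : m + 2 + 1 = m := by revert m; decide
theorem a22 (m : Fin 3) : m + 2 + 2 = m + 1 := by revert m; decide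
theorem n1 (m : Fin 3) : m + 1 ≠ m := by revert m; decide
theorem n2 (m : Fin 3) : m + 2 ≠ m := by revert m; decide

theorem t0 {X : Type} (m : Fin 3) (q : X × X × X) : (tri3 m).symm q m = q.1 :=
  congrArg Prod.fst ((tri3 m).apply_symm_apply q)

theorem t1 {X : Type} (m : Fin 3) (q : X × X × X) : (tri3 m).symm q (m + 1) = q.2.1 :=
  congrArg (fun r => r.2.1) ((tri3 m).apply_symm_apply q)

theorem t2 {X : Type} (m : Fin 3) (q : X × X × X) : (tri3 m).symm q (m + 2) = q.2.2 :=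
  congrArg (fun r => r.2.2) ((tri3 m).apply_symm_apply q)

end PEELx

open PEELx in
theorem s_PEEL (p n : ℕ) [Fact p.Prime] (hp : 5 ≤ p) (hREL : S_REL p n) : S_PEEL p n := by
  intro ℓ B a m f w hS hB H
  by_cases ht : Triv ℓ B (a (m + 1))
  · refine ⟨0, zero_mem _, fun x hx hk => ?_⟩
    rw [ev_zero]
    refine H x hx fun k hf => ?_
    by_cases e : k = m
    · subst e
      rw [orb_co_triv (hx _) ht, perp_bot]; trivial
    · exact hk k (hf.resolve_right e) e
  have hd := hB _ ht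
  have key : ∀ v : Vb (p := p) ℓ (a m), ∃ C ∈ Cb ℓ B (a (m + 2)).rev (a (m + 1)),
      ∀ y ∈ Vb ℓ (a (m + 1)), y ∈ perp (Wo ℓ B (f (m + 2)) v.1) →
        ∀ z ∈ Vb ℓ (a (m + 2)), z ∈ perp (Wo ℓ B (f (m + 1)) v.1) →
          E3 w m v.1 y z = ip (C *ᵥ y) z := by
    intro v
    refine (hREL ℓ B 1 1 _ _ (a (m + 1)) (a (m + 2)) hS (small_Wo hS _ v.2) (small_Wo hS _ v.2)
      ht (by omega)).1 (E3 w m v.1) fun y hy hy' z hz hz' hyz => ?_
    have e := H ((tri3 m).symm (v.1, y, z)) (fun j => by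
      rcases three m j with rfl | rfl | rfl
      · rw [t0]; exact v.2
      · rw [PEELx.t1]; exact hy
      · rw [PEELx.t2]; exact hz) fun k hk => by
      rcases three m k with rfl | rfl | rfl
      · rw [PEELx.t1, PEELx.t2]; exact hyz
      · rw [a12, a11, t0, PEELx.t2]
        exact perp_orb_co_symm hS (mem_perp_Wo.1 hz' (hk.resolve_right (n1 m)))
      · rw [a22, a21, t0, PEELx.t1]
        exact mem_perp_Wo.1 hy' (hk.resolve_right (n2 m))
    rwa [ev_eq w m, t0, PEELx.t1, PEELx.t2] at e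
  choose C hC hE using key
  have hadd : ∀ v v', C (v + v') = C v + C v' := by
    intro v v'
    rw [← sub_eq_zero]
    refine (hREL ℓ B (1 + 1) (1 + 1) _ _ (a (m + 1)) (a (m + 2)) hS
      ((small_Wo hS (f (m + 2)) v.2).sup hS.alg (small_Wo hS (f (m + 2)) v'.2))
      ((small_Wo hS (f (m + 1)) v.2).sup hS.alg (small_Wo hS (f (m + 1)) v'.2))
      ht (by omega)).2 _ (sub_mem (hC _) (add_mem (hC _) (hC _))) fun y hy hy' z hz hz' => ?_
    rw [mem_perp_sup] at hy' hz'
    rw [Matrix.sub_mulVec, Matrix.add_mulVec, ip_sub_left, ip_add_left,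
      ← hE v y hy hy'.1 z hz hz'.1, ← hE v' y hy hy'.2 z hz hz'.2,
      ← hE (v + v') y hy (perp_Wo_add hy'.1 hy'.2) z hz (perp_Wo_add hz'.1 hz'.2),
      Submodule.coe_add, E3_add, sub_self]
  have hsmul : ∀ (c : ZMod p) v, C (c • v) = c • C v := by
    intro c v
    rw [← sub_eq_zero]
    refine (hREL ℓ B 1 1 _ _ (a (m + 1)) (a (m + 2)) hS
      (small_Wo hS (f (m + 2)) v.2) (small_Wo hS (f (m + 1)) v.2)
      ht (by omega)).2 _ (sub_mem (hC _) (Submodule.smul_mem _ c (hC _)))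
      fun y hy hy' z hz hz' => ?_
    rw [Matrix.sub_mulVec, Matrix.smul_mulVec, ip_sub_left, ip_smul_left,
      ← hE v y hy hy' z hz hz',
      ← hE (c • v) y hy (perp_Wo_smul c hy') z hz (perp_Wo_smul c hz'),
      Submodule.coe_smul, E3_smul, sub_self]
  let CL : Vb (p := p) ℓ (a m) →ₗ[ZMod p] Mat p n :=
    { toFun := C, map_add' := hadd, map_smul' := hsmul }
  let Cf : Vec p n →ₗ[ZMod p] Mat p n :=
    CL ∘ₗ LinearMap.codRestrict _ (pr ℓ (a m)).mulVecLin fun v => pr_mulVec_mem (a m) v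
  have hCf : ∀ v, Cf v ∈ Co ℓ B := fun v => co_of_cb (hC _) ht
  refine ⟨∑ α, trf m (Cf (Pi.single α 1)) (Pi.single α.rev 1),
    Submodule.sum_mem _ fun α _ => trf_mem_Tr m (hCf _) _, fun x hx hk => ?_⟩
  have e1 : Cf (x m) = C ⟨x m, hx m⟩ :=
    congrArg C (Subtype.ext (mem_Vb_iff.1 (hx m)))
  have e2 : Cf (x m) = ∑ α, x m α • Cf (Pi.single α 1) := by
    conv_lhs => rw [pi_eq_sum_univ' (x m)]
    simp only [map_sum, map_smul]
  rw [ev_eq w m, hE ⟨x m, hx m⟩ _ (hx _) (mem_perp_Wo.2 fun e => by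
      have := hk (m + 2) e (n2 m)
      rwa [a22, a21] at this) _ (hx _) (mem_perp_Wo.2 fun e => by
      have := hk (m + 1) e (n1 m)
      rw [a12, a11] at this
      exact perp_orb_co_symm hS this), ← e1, e2, ev_sum, Matrix.sum_mulVec, ip_sum_left]
  refine Finset.sum_congr rfl fun α _ => ?_
  rw [ev_trf, ip_single_right, Fin.rev_rev, Matrix.smul_mulVec, ip_smul_left, mul_comm]

end Pool.Agent.P.MP_f1a348_lc.PG
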