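import Pool.Agent.P.MP_f1a348_lc.PG.Iface

/-!
Project PG, task PLP: a form that is not a trace yields a recipe of kind 4, 5 or 6.
-/

namespace Pool.Agent.P.MP_f1a348_lc.PG

open Matrix Module

namespace PLPx

theorem arith {t n0 e0 d0 : ℕ} (ht : 12 ≤ t) (hn : 0 < n0) (hd : 8 * t ≤ d0) (e : d0 * e0 = n0) :
    2 * t * ((n0 - 1) / (8 * t - 1) + 2 * e0) < n0 := by
  have h1 : (n0 - 1) / (8 * t - 1) * (8 * t - 1) ≤ n0 - 1 := Nat.div_mul_le_self _ _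
  generalize (n0 - 1) / (8 * t - 1) = x at h1 ⊢
  have h2 : x * (4 * t) ≤ x * (8 * t - 1) := Nat.mul_le_mul_left _ (by omega)
  have h3 : 8 * t * e0 ≤ n0 := e ▸ Nat.mul_le_mul_right _ hd
  have h4 : 2 * (2 * t * (x + 2 * e0)) = x * (4 * t) + 8 * t * e0 := by ring
  omega

end PLPx

set_option linter.unusedVariables false in
open PLPx in
theorem s_PLP (p n : ℕ) [Fact p.Prime] (hp : 5 ≤ p) (hPLP1 : S_PLP1 p n) (hPLP4 : S_PLP4 p n)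
    (hPLP5 : S_PLP5 p n) (hHINV : S_HINV p n) (hACC0 : S_ACC0 p n) : S_PLP p n := by
  intro ℓ s a θ0 c hs hbig hnt hθ0 hn0
  have hl := hs.str.lab
  obtain ⟨j0, hj0⟩ : ∃ j0, Triv ℓ s.B (a j0) ∨
      ((∀ j, ¬ Triv ℓ s.B (a j)) ∧ ∀ j, nb ℓ (a j0) ≤ nb ℓ (a j)) := by
    by_cases ht : ∃ j, Triv ℓ s.B (a j)
    · exact ht.imp fun j hj => Or.inl hj
    · obtain ⟨j0, -, h0⟩ := Finset.exists_min_image Finset.univ (fun j => nb ℓ (a j))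
        Finset.univ_nonempty
      exact ⟨j0, Or.inr ⟨fun j hj => ht ⟨j, hj⟩, fun j => h0 j (Finset.mem_univ j)⟩⟩
  obtain ⟨k, hk, ek⟩ := exists_pm (Equiv.swap (0 : Fin 3) j0).bijective
  have hσ : ∀ j, pm k (pm k j) = j := fun j => by rw [ek]; exact Equiv.swap_apply_self _ _ j
  have h0 : pm k 0 = j0 := by rw [ek]; exact Equiv.swap_apply_left _ _
  obtain ⟨b, hb⟩ : ∃ b : Fin 3 → Ix n, b = fun j => a (pm k j) := ⟨_, rfl⟩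
  have hba : (fun j => b (pm k j)) = a := by funext j; rw [hb]; dsimp only; rw [hσ]
  have hb0 : b 0 = a j0 := by rw [hb]; dsimp only; rw [h0]
  have hW : ∀ θ : Frm p n, θ ∈ Wt ℓ (key ℓ a) → perm (pm k) θ ∈ Wt ℓ (key ℓ b) := fun θ hθ =>
    perm_mem_Wt hl (pm_bij k) (hba.symm ▸ hθ)
  have hT : ∀ θ : Frm p n, θ ∈ Tr ℓ s.B → perm (pm k) θ ∈ Tr ℓ s.B := fun θ hθ =>
    perm_mem_Tr hs.str (pm_bij k) hθ
  have hN : ∀ θ : Frm p n, θ - θ0 ∈ Tr ℓ s.B → perm (pm k) θ ∉ Tr ℓ s.B := fun θ h1 h2 => by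
    have h3 := hT _ h2
    rw [perm_perm, show pm k ∘ pm k = id from funext hσ, perm_id] at h3
    exact hn0 (by simpa using sub_mem h3 h1)
  have hkey : key ℓ (fun j => b (pm k j)) = key ℓ a := by rw [hba]
  -- recipes of kind 4
  have K4 : ∀ u ∈ (Vb ℓ (b 0) : VS p n), (∀ θ ∈ Wt ℓ (key ℓ a), θ - θ0 ∈ Tr ℓ s.B →
      Acc ℓ s.B (D4 ℓ s b (perm (pm k) θ) (u, 0))
        (nb ℓ (b 0) + (Cso ℓ s (b 2).rev (b 1)).length)) →
      ∃ ρ : Rc p n, ρ.c = c ∧ 4 ≤ ρ.kind ∧ ρ.kind < 7 ∧ ρ.k < 6 ∧ ρ.r < 2 * (2 * n + 1) ∧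
        ρ.t ℓ = key ℓ a ∧ ρ.u ∈ Vb ℓ (ρ.a 0) ∧ ∀ θ ∈ Wt ℓ (key ℓ a), θ - θ0 ∈ Tr ℓ s.B →
          Acc ℓ s.B (Dd ℓ s ρ θ (ρ.u, 0)) (cost ℓ s ρ) := fun u hu H =>
    ⟨⟨4, b, k, c, u, 0⟩, rfl, le_rfl, by norm_num, hk, by dsimp only; omega, hkey, hu,
      fun θ h1 h2 => by simpa [Dd, cost] using H θ h1 h2⟩
  rcases hj0 with ht | ⟨hall, hmin⟩
  · have hne : ¬ Triv ℓ s.B (b 1) ∨ ¬ Triv ℓ s.B (b 2) := by
      obtain ⟨j, hj⟩ := hnt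
      rw [← congrFun hba j] at hj
      generalize pm k j = m at hj
      fin_cases m
      · exact absurd (hb0 ▸ ht) hj
      · exact Or.inl hj
      · exact Or.inr hj
    refine K4 (Pi.single (b 0) 1) (single_mem_Vb rfl 1) fun θ h1 h2 =>
      hPLP1 ℓ s b _ _ hs (hW θ h1) (hN θ h2) (hb0 ▸ ht) hne (single_mem_Vb rfl 1) fun e => ?_
    simpa using congrFun e (b 0)
  · by_cases hA : ∃ u ∈ (Vb ℓ (b 0) : VS p n), ∀ θ ∈ Wt ℓ (key ℓ a), θ - θ0 ∈ Tr ℓ s.B →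
        Acc ℓ s.B (D4 ℓ s b (perm (pm k) θ) (u, 0))
          (nb ℓ (b 0) + (Cso ℓ s (b 2).rev (b 1)).length)
    · obtain ⟨u, hu, H⟩ := hA
      exact K4 u hu H
    have hnb : ∀ j, ¬ Triv ℓ s.B (b j) := fun j => by rw [hb]; exact hall _
    have hmin' : ∀ j, nb ℓ (b 0) ≤ nb ℓ (b j) := fun j => by
      rw [hb0]; rw [hb]; exact hmin _
    obtain ⟨r, hr⟩ : ∃ r, r = (nb ℓ (b 0) - 1) / (8 * tt n - 1) + 2 * eb ℓ s.B (b 0) := ⟨_, rfl⟩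
    have hr1 : 2 * tt n * r < nb ℓ (b 0) :=
      hr ▸ arith (tt_ge n) (nb_pos ℓ _) (hbig _ (hnb 0)) (db_mul_eb hs.str _)
    have hr2 : r < 2 * (2 * n + 1) := by
      have h1 := nb_le ℓ (b 0)
      have h2 : 1 * r ≤ 2 * tt n * r := Nat.mul_le_mul_right _ (by have := tt_ge n; omega)
      omega
    have hlow : ∀ u ∈ (Vb ℓ (b 0) : VS p n), ∃ q ∈ Low ℓ s b (perm (pm k) θ0) r, q.1 = u := by
      intro u hu
      by_contra hc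
      refine hA ⟨u, hu, fun θ h1 h2 => ?_⟩
      refine (hPLP4 ℓ s b _ u hs (hW θ h1) (hnb 1) hu).resolve_right ?_
      rintro ⟨q, hq, e⟩
      have h3 : θ0 - θ ∈ Tr ℓ s.B := by simpa using neg_mem h2
      obtain ⟨q', hq', e'⟩ := ((hHINV ℓ s b (perm (pm k) θ) _ hs (hT _ h3)
        (hW _ (sub_mem hθ0 h1))).2 r).1 q (hr ▸ hq)
      rw [← map_add, add_sub_cancel] at hq'
      exact hc ⟨q', hq', e'.trans e⟩
    have hinv : ∀ θ ∈ Wt ℓ (key ℓ a), θ - θ0 ∈ Tr ℓ s.B →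
        D5 ℓ s b (perm (pm k) θ) r = D5 ℓ s b (perm (pm k) θ0) r ∧
        D6 ℓ s b (perm (pm k) θ) r = D6 ℓ s b (perm (pm k) θ0) r := fun θ h1 h2 => by
      have := ((hHINV ℓ s b (perm (pm k) θ0) _ hs (hT _ h2) (hW _ (sub_mem h1 hθ0))).2 r).2
      rwa [← map_add, add_sub_cancel] at this
    rcases hPLP5 ℓ s b _ r hs (hW θ0 hθ0) (hN θ0 (by simp)) (hr1.trans_le (hmin' 1))
      (hr1.trans_le (hmin' 2)) hlow with H | H
    · exact ⟨⟨5, b, k, c, 0, r⟩, rfl, by norm_num, by norm_num, hk, hr2, hkey, zero_mem _,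
        fun θ h1 h2 => by simpa [Dd, cost, (hinv θ h1 h2).1] using hACC0 ℓ s.B _ hs.str H⟩
    · exact ⟨⟨6, b, k, c, 0, r⟩, rfl, by norm_num, by norm_num, hk, hr2, hkey, zero_mem _,
        fun θ h1 h2 => by simpa [Dd, cost, (hinv θ h1 h2).2] using hACC0 ℓ s.B _ hs.str H⟩

end Pool.Agent.P.MP_f1a348_lc.PG
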