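import Pool.Agent.P.MP_f1a348_lc.PG.Iface

/-!
Project PG, task PLP1: progress when the first block is trivial.
-/

namespace Pool.Agent.P.MP_f1a348_lc.PG

open Matrix Module

namespace PLP1x

variable {p n : ℕ} {ℓ : Ix n → ℕ}

/-- the slice as a linear map -/
noncomputable def auL (θ : Frm p n) (u : Vec p n) : Vec p n →ₗ[ZMod p] Vec p n where
  toFun y := au θ u y
  map_add' y z := by
    funext α
    simp only [au, Pi.add_apply, ← Finset.sum_add_distrib]
    exact Finset.sum_congr rfl fun i _ => by split_ifs <;> simp [mul_add]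
  map_smul' c y := by
    funext α
    simp only [au, Pi.smul_apply, smul_eq_mul, Finset.mul_sum, RingHom.id_apply]
    exact Finset.sum_congr rfl fun i _ => by split_ifs <;> ring

theorem auL_apply (θ : Frm p n) (u y : Vec p n) : auL θ u y = au θ u y := rfl

/-- the graph of the slice -/
noncomputable def gph (ℓ : Ix n → ℕ) (b : Ix n) (θ : Frm p n) (u : Vec p n) :
    Submodule (ZMod p) (HH p n) :=
  (Vb ℓ b).map (LinearMap.id.prod (auL θ u))

theorem mem_gph {b : Ix n} {θ : Frm p n} {u : Vec p n} {y : HH p n} :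
    y ∈ gph ℓ b θ u ↔ y.1 ∈ Vb ℓ b ∧ y.2 = au θ u y.1 := by
  constructor
  · rintro ⟨x, hx, rfl⟩
    exact ⟨hx, rfl⟩
  · rintro ⟨h1, h2⟩
    exact ⟨y.1, h1, Prod.ext rfl h2.symm⟩

theorem cso_nil {s : Side p n} {b : Ix n} (t : Triv ℓ s.B b) (a : Ix n) : Cso ℓ s a b = [] := by
  simp [Cso, t]

theorem hat_eq {s : Side p n} {a : Fin 3 → Ix n} (t : Triv ℓ s.B (a 0)) (θ : Frm p n)
    (u : Vec p n) (y : HH p n) : hat ℓ s a θ (u, 0) y = (au θ u y.1, 0) := by
  refine Prod.ext ?_ ?_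
  · rw [hat_fst, cso_nil t]
    simp [cmb]
  · funext i
    rw [hat_snd, cso_nil t]
    simp

theorem D4_eq {s : Side p n} {a : Fin 3 → Ix n} (t : Triv ℓ s.B (a 0)) (θ : Frm p n)
    (u : Vec p n) : D4 ℓ s a θ (u, 0) = (gph ℓ (a 1) θ u).map t2 := by
  ext τ
  constructor
  · rintro ⟨y, ⟨hy, -⟩, rfl⟩
    refine ⟨(y.1, au θ u y.1), mem_gph.2 ⟨hy.1, rfl⟩, ?_⟩
    simp [hat_eq t]
  · rintro ⟨y, hy, rfl⟩
    obtain ⟨h1, h2⟩ := mem_gph.1 hy
    refine ⟨y, ⟨⟨h1, trivial⟩, ?_⟩, ?_⟩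
    · simp [hat_eq t]
    · simp [hat_eq t, ← h2]

variable [Fact p.Prime] {B : Sub p n}

theorem mem_Tr (h : Str ℓ B) {a : Fin 3 → Ix n} {θ : Frm p n} (hθ : θ ∈ Wt ℓ (key ℓ a))
    (t : Triv ℓ B (a 0)) {u : Vec p n} (hu : u ∈ Vb ℓ (a 0)) (h0 : u ≠ 0) {C : Mat p n}
    (hC : C ∈ Co ℓ B) (H : ∀ y ∈ Vb ℓ (a 1), au θ u y = C *ᵥ y) : θ ∈ Tr ℓ B := by
  obtain ⟨w, hw⟩ : ∃ w, ip u w ≠ 0 := by
    by_contra e
    push Not at e
    exact h0 (ip_nondeg e)
  have hv : ip u ((ip u w)⁻¹ • w) = 1 := by rw [ip_smul_right, inv_mul_cancel₀ hw]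
  have e : θ = cmp ℓ (key ℓ a) (trf 0 C ((ip u w)⁻¹ • w)) := by
    refine Wt_ext h.lab hθ (cmp_mem _ _) fun x hx => ?_
    rw [ev_cmp h.lab _ hx, ev_trf]
    obtain ⟨c, hc⟩ := triv_line h t hu h0 (hx 0)
    have ex : x = fun j => (![c, 1, 1] : Fin 3 → ZMod p) j • (![u, x 1, x 2] : Fin 3 → _) j := by
      funext j
      fin_cases j <;> simp [hc]
    have e1 : ev θ x = c * ev θ ![u, x 1, x 2] := by
      conv_lhs => rw [ex]
      rw [ev_smul_slots, Fin.prod_univ_three]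
      simp
    rw [e1, ← ip_au, H _ (hx 1), hc, ip_smul_left, hv]
    simp [mul_comm]
  rw [e]
  exact cmp_mem_Tr h _ (trf_mem_Tr _ hC _)

end PLP1x

open PLP1x in
theorem s_PLP1 (p n : ℕ) [Fact p.Prime] (hp : 5 ≤ p) (hGAIN : S_GAIN p n) (hG2 : S_G2 p n)
    (hACC0 : S_ACC0 p n) : S_PLP1 p n := by
  intro ℓ s a θ u hs hθ hn t0 hor hu h0
  have h := hs.str
  have htt := tt_ge n
  rw [triv_nb h t0, D4_eq t0]
  have stab : ∀ b ∈ Ht s.B ((gph ℓ (a 1) θ u).map t2) ((gph ℓ (a 1) θ u).map t2),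
      ∀ y ∈ gph ℓ (a 1) θ u, (b *ᵥ y.1, b *ᵥ y.2) ∈ gph ℓ (a 1) θ u := by
    intro b hb y hy
    obtain ⟨y', hy', e⟩ := (mem_Ht.1 hb).2.1 _ ⟨y, hy, rfl⟩
    rw [act_t2] at e
    exact t2_inj e ▸ hy'
  by_cases both : ¬ Triv ℓ s.B (a 1) ∧ ¬ Triv ℓ s.B (a 2)
  · intro ℓ' g B' hr hsim
    have G := hGAIN ℓ ℓ' s.B _ B' g h (Ht_alg h.alg _) (Ht_le _ _ _) hr hsim
    obtain ⟨η, df, cor, hdf⟩ := G.2 (a 1) both.1
    obtain ⟨C, hC, hrk⟩ := hG2 ℓ s.B _ (a 1) (a 2).rev η df (gph ℓ (a 1) θ u) h (Ht_alg h.alg _)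
      (Ht_le _ _ _) cor
      (fun y hy => ⟨(mem_gph.1 hy).1, (mem_gph.1 hy).2 ▸ au_mem h.lab hθ _ _⟩) stab
    have hb : (gph ℓ (a 1) θ u).comap (LinearMap.inr (ZMod p) (Vec p n) (Vec p n)) = ⊥ := by
      refine (Submodule.eq_bot_iff _).2 fun z hz => ?_
      have := (mem_gph.1 hz).2
      simp only [LinearMap.inr_apply] at this
      rw [this, ← auL_apply, map_zero]
    rw [hb, finrank_bot, add_zero] at hrk
    have hpos : 0 < df := by
      by_contra e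
      have e0 : df = 0 := by omega
      rw [e0, Nat.le_zero, Submodule.finrank_eq_zero] at hrk
      refine hn (mem_Tr h hθ t0 hu h0 (co_of_cb hC both.1) fun y hy => ?_)
      have := (Submodule.eq_bot_iff _).1 hrk _
        ⟨(y, au θ u y), mem_gph.2 ⟨hy, rfl⟩, rfl⟩
      simpa [sub_eq_zero] using this
    have hdvd : eb ℓ s.B (a 1) ∣ df := by
      rw [← cor.on (a 1) (cb_refl h.alg _)]
      exact eb_dvd h (stab_im (sub_mem h.alg.one (Ht_le _ _ _ cor.mem))) _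
    have hlen : (Cso ℓ s (a 2).rev (a 1)).length ≤ df :=
      ((hs.length_cso _ _).trans (finrank_cb_le h _ _)).trans (Nat.le_of_dvd hpos hdvd)
    refine ⟨by omega, ?_⟩
    generalize Phi ℓ s.B - Phi ℓ' B' = γ at hdf ⊢
    nlinarith
  · have hlen : (Cso ℓ s (a 2).rev (a 1)).length = 0 := by
      by_cases t1 : Triv ℓ s.B (a 1)
      · rw [cso_nil t1]; rfl
      · have t2 : Triv ℓ s.B (a 2) := by
          by_contra t2
          exact both ⟨t1, t2⟩
        have := hs.length_cso (a 2).rev (a 1)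
        rw [cb_eq_bot h ((triv_rev h).2 t2) t1, finrank_bot] at this
        omega
    have hne : ¬ s.B ≤ Ht s.B ((gph ℓ (a 1) θ u).map t2) ((gph ℓ (a 1) θ u).map t2) := by
      intro e
      have hz : z0 ℓ s.B ∈ s.B := sub_mem h.alg.one (Submodule.smul_mem _ _ (eo_mem h))
      refine hn (mem_Tr h hθ t0 hu h0 (zero_mem _) fun y hy => ?_)
      have hA := au_mem h.lab hθ u y
      have key := (mem_gph.1 (stab _ (e hz) (y, au θ u y) (mem_gph.2 ⟨hy, rfl⟩))).2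
      simp only at key
      have two : (2 : ZMod p) • au θ u y = 0 := by
        by_cases t1 : Triv ℓ s.B (a 1)
        · have t2 : ¬ Triv ℓ s.B (a 2).rev := fun t2 =>
            hor.elim (fun e => e t1) fun e => e ((triv_rev h).1 t2)
          rw [z0_triv hy t1, z0_ntriv hA t2] at key
          rw [two_smul]
          nth_rewrite 1 [← key]
          exact neg_add_cancel _
        · have t2 : Triv ℓ s.B (a 2).rev := by
            refine (triv_rev h).2 ?_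
            by_contra t2
            exact both ⟨t1, t2⟩
          rw [z0_ntriv hy t1, z0_triv hA t2, ← auL_apply θ u (-y), map_neg, auL_apply] at key
          rw [two_smul]
          nth_rewrite 1 [key]
          exact neg_add_cancel _
      rw [Matrix.zero_mulVec]
      exact (smul_eq_zero.1 two).resolve_left (two_ne_zero' hp)
    intro ℓ' g B' hr hsim
    have := (hACC0 ℓ s.B _ h hne ℓ' g B' hr hsim).1
    refine ⟨this, ?_⟩
    rw [hlen]
    have h1 : 1 ≤ Phi ℓ s.B - Phi ℓ' B' := by omega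
    generalize Phi ℓ s.B - Phi ℓ' B' = γ at h1 ⊢
    nlinarith

end Pool.Agent.P.MP_f1a348_lc.PG
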