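import Pool.Agent.P.MP_f1a348_lc.PG.Iface

/-!
Project PG: either the graph of a slice pays for the pin, or the slice has low rank.
-/

namespace Pool.Agent.P.MP_f1a348_lc.PG

open Matrix Module

namespace PLP4x

theorem rk_split {K V W : Type} [Field K] [AddCommGroup V] [Module K V] [AddCommGroup W]
    [Module K W] [Module.Finite K V] (f : V →ₗ[K] W) (R : Submodule K V) :
    finrank K R = finrank K (R.map f) + finrank K (R ⊓ LinearMap.ker f : Submodule K V) := by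
  rw [← (f.domRestrict R).finrank_range_add_finrank_ker, LinearMap.range_domRestrict,
    LinearMap.ker_domRestrict, ← Submodule.finrank_map_subtype_eq R, Submodule.map_comap_subtype]

variable {p n : ℕ} {ℓ : Ix n → ℕ}

theorem au_pr (h : Lab ℓ) {a : Fin 3 → Ix n} {θ : Frm p n} (hθ : θ ∈ Wt ℓ (key ℓ a))
    (u y : Vec p n) : au θ u (pr ℓ (a 1) *ᵥ y) = au θ u y := by
  refine ip_ext fun z => ?_
  rw [ip_au, ip_au, ev_Wt h hθ, ev_Wt h hθ ![u, y, z]]
  congr 1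
  funext j
  fin_cases j <;> simp [Matrix.mulVec_mulVec]

theorem ip_pr' (h : Lab ℓ) {b : Ix n} {x : Vec p n} (hx : x ∈ Vb ℓ b.rev) (y : Vec p n) :
    ip x (pr ℓ b *ᵥ y) = ip x y := by
  have := ip_pr h hx y
  rw [Fin.rev_rev] at this
  rw [ip_comm, this, ip_comm]

theorem snd_le [Fact p.Prime] (s : Side p n) (a : Fin 3 → Ix n) (θ : Frm p n) (q : HH p n) :
    finrank (ZMod p) ((LinearMap.range (hat ℓ s a θ q)).map (LinearMap.snd _ _ _)) ≤
      (Cso ℓ s (a 1).rev (a 0)).length := by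
  set L := Cso ℓ s (a 1).rev (a 0) with hL
  let Ψ : (Fin L.length → ZMod p) →ₗ[ZMod p] Vec p n :=
    LinearMap.pi fun i => if h : i.val < L.length then LinearMap.proj ⟨i.val, h⟩ else 0
  have h1 : (LinearMap.range (hat ℓ s a θ q)).map (LinearMap.snd _ _ _) ≤ LinearMap.range Ψ := by
    rintro _ ⟨_, ⟨y, rfl⟩, rfl⟩
    refine ⟨fun j => ip (L.getD j.val 0 *ᵥ q.1) y.1, funext fun i => ?_⟩
    rw [LinearMap.snd_apply, hat_snd, ← hL]
    by_cases h : i.val < L.length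
    · simp [Ψ, h]
    · simp [Ψ, h]
  exact (Submodule.finrank_mono h1).trans ((LinearMap.finrank_range_le Ψ).trans (by simp))

end PLP4x

open PLP4x in
theorem s_PLP4 (p n : ℕ) [Fact p.Prime] (hp : 5 ≤ p) (hGAIN : S_GAIN p n) (hG2 : S_G2 p n) :
    S_PLP4 p n := by
  intro ℓ s a θ u h hθ ha1 hu
  refine or_iff_not_imp_left.2 fun hA => ?_
  simp only [Acc, not_forall] at hA
  obtain ⟨ℓ', g, B', hr, hs, hA⟩ := hA
  have hl := h.str.lab
  obtain ⟨hΦ, hout⟩ := hGAIN ℓ ℓ' s.B _ B' g h.str (Ht_alg h.str.alg _) (Ht_le _ _ _) hr hs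
  obtain ⟨η, df, hcor, hdf⟩ := hout (a 1) ha1
  have hdvd : eb ℓ s.B (a 1) ∣ df := by
    rw [← hcor.on (a 1) (cb_refl h.str.alg _)]
    exact eb_dvd h.str (stab_im (sub_mem h.str.alg.one (Ht_le _ _ _ hcor.mem))) _
  have ht := tt_ge n
  have hdf' : df ≤ (nb ℓ (a 0) - 1) / (8 * tt n - 1) := by
    rw [Nat.le_div_iff_mul_le (by omega)]
    by_contra hc
    have h0 := nb_pos ℓ (a 0)
    have h1 : 0 < df := Nat.pos_of_ne_zero fun e => hc (by simp [e])
    have h2 : (Cso ℓ s (a 2).rev (a 1)).length ≤ df :=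
      (h.length_cso _ _).trans ((finrank_cb_le h.str _ _).trans (Nat.le_of_dvd h1 hdvd))
    refine hA ⟨by omega, ?_⟩
    obtain ⟨k, hk⟩ : ∃ k, 8 * tt n = k + 1 := ⟨8 * tt n - 1, by omega⟩
    have h3 : nb ℓ (a 0) ≤ df * k := by
      have : 8 * tt n - 1 = k := by omega
      rw [this] at hc
      omega
    calc _ ≤ df * k + df := add_le_add h3 h2
      _ = 8 * tt n * df := by rw [hk]; ring
      _ ≤ 8 * tt n * (2 * (Phi ℓ s.B - Phi ℓ' B')) := Nat.mul_le_mul_left _ hdf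
      _ = _ := by ring
  set D : Submodule (ZMod p) (HH p n) :=
    (Dom ℓ (a 1) ⊓ LinearMap.ker (LinearMap.snd _ _ _ ∘ₗ hat ℓ s a θ (u, 0))).map
      ((LinearMap.fst _ _ _).prod (LinearMap.fst _ _ _ ∘ₗ hat ℓ s a θ (u, 0))) with hD
  have hD4 : D4 ℓ s a θ (u, 0) = D.map t2 := Submodule.map_comp _ _ _
  obtain ⟨C, hC, hrk⟩ := hG2 ℓ s.B _ (a 1) (a 2).rev η df D h.str (Ht_alg h.str.alg _)
    (Ht_le _ _ _) hcor
    (by
      rintro _ ⟨x, hx, rfl⟩
      refine ⟨hx.1.1, ?_⟩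
      change (hat ℓ s a θ (u, 0) x).1 ∈ _
      rw [hat_fst]
      exact add_mem (add_mem (au_mem hl hθ _ _) (cb_mulVec_mem (h.cmb_mem _ _ _).1 _))
        (cb_mulVec_mem (h.cmb_mem _ _ _).1 _))
    (by
      intro b hb y hy
      have h1 := hb.2.1 (t2 y) (hD4 ▸ Submodule.mem_map_of_mem hy)
      rw [act_t2, hD4] at h1
      obtain ⟨z, hz, e⟩ := h1
      exact t2_inj e ▸ hz)
  have hCs : -C ∈ (spL (Cso ℓ s (a 2).rev (a 1)) : Sub p n) := by
    rw [h.spL_cso]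
    exact neg_mem ⟨hC, co_of_cb hC ha1⟩
  obtain ⟨κ, hκ, eκ⟩ := exists_cmb (h.length_cso_le _ _) hCs
  refine ⟨(u, κ), ⟨⟨hu, hκ⟩, ?_⟩, rfl⟩
  have hind : finrank (ZMod p) (D.comap (LinearMap.inr _ _ _)) ≤ eb ℓ s.B (a 0) := by
    have h1 : D.comap (LinearMap.inr _ _ _) ≤ orb (Cb ℓ s.B (a 2).rev (a 0)) u := by
      rintro v ⟨x, -, e⟩
      have e1 : x.1 = 0 := congrArg Prod.fst e
      have e2 : (hat ℓ s a θ (u, 0) x).1 = v := congrArg Prod.snd e
      have e3 : au θ u 0 = 0 := by funext α; simp [au]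
      rw [hat_fst, e1, e3, Matrix.mulVec_zero, zero_add, zero_add] at e2
      exact mem_orb.2 ⟨_, (h.cmb_mem _ _ _).1, e2⟩
    exact (Submodule.finrank_mono h1).trans
      ((Submodule.finrank_map_le _ _).trans (finrank_cb_le h.str _ _))
  have hker : LinearMap.range (hat ℓ s a θ (u, κ)) ⊓ LinearMap.ker (LinearMap.snd _ _ _) ≤
      (D.map (LinearMap.snd _ _ _ - C.mulVecLin ∘ₗ LinearMap.fst _ _ _)).map
        (LinearMap.inl _ _ _) := by
    rintro _ ⟨⟨y, rfl⟩, h0⟩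
    have h1 : (hat ℓ s a θ (u, κ) y).2 = 0 := h0
    refine ⟨_, ⟨_, ⟨(pr ℓ (a 1) *ᵥ y.1, y.2), ⟨⟨pr_mulVec_mem _ _, trivial⟩, ?_⟩, rfl⟩, rfl⟩, ?_⟩
    · change (hat ℓ s a θ (u, 0) (pr ℓ (a 1) *ᵥ y.1, y.2)).2 = 0
      funext i
      have h2 := congrFun h1 i
      rw [hat_snd] at h2 ⊢
      have h3 : (Cso ℓ s (a 1).rev (a 0)).getD i.val 0 ∈ Cb ℓ s.B (a 1).rev (a 0) := by
        have := getD_mem_spL (p := p) (Cso ℓ s (a 1).rev (a 0)) i.val
        rw [h.spL_cso] at this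
        exact this.1
      rw [ip_pr' hl (cb_mulVec_mem h3 _)]
      exact h2
    · refine Prod.ext ?_ h1.symm
      change (hat ℓ s a θ (u, 0) (pr ℓ (a 1) *ᵥ y.1, y.2)).1 - C *ᵥ (pr ℓ (a 1) *ᵥ y.1) = _
      rw [hat_fst, hat_fst, eκ, au_pr hl hθ, cmb_zero, Matrix.zero_mulVec, Matrix.mulVec_mulVec,
        cb_right hC, Matrix.neg_mulVec]
      abel
  have h1 := snd_le (ℓ := ℓ) s a θ (u, κ)
  have h2 := (h.length_cso (a 1).rev (a 0)).trans (finrank_cb_le h.str _ _)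
  have h3 := (Submodule.finrank_mono hker).trans (Submodule.finrank_map_le _ _)
  rw [rk_split (LinearMap.snd _ _ _)]
  exact (add_le_add (h1.trans h2) ((h3.trans hrk).trans (add_le_add hdf' hind))).trans_eq
    (by ring)

end Pool.Agent.P.MP_f1a348_lc.PG
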