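import Pool.Agent.P.MP_f1a348_lc.PG.Iface

/-!
Project PG: progress when all slices have small rank.
-/

namespace Pool.Agent.P.MP_f1a348_lc.PG

open Matrix Module

namespace PLP5x

variable {p n : ℕ} [Fact p.Prime] {ℓ : Ix n → ℕ} {s : Side p n} {a : Fin 3 → Ix n}
  {θ : Frm p n} {r : ℕ}

theorem rk_add (f g : HH p n →ₗ[ZMod p] HH p n) :
    finrank (ZMod p) (LinearMap.range (f + g)) ≤
      finrank (ZMod p) (LinearMap.range f) + finrank (ZMod p) (LinearMap.range g) := by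
  refine le_trans (Submodule.finrank_mono ?_) (Submodule.finrank_add_le_finrank_add_finrank _ _)
  rintro _ ⟨x, rfl⟩
  exact add_mem (Submodule.mem_sup_left ⟨x, rfl⟩) (Submodule.mem_sup_right ⟨x, rfl⟩)

theorem rk_smul (c : ZMod p) (f : HH p n →ₗ[ZMod p] HH p n) :
    finrank (ZMod p) (LinearMap.range (c • f)) ≤ finrank (ZMod p) (LinearMap.range f) := by
  refine Submodule.finrank_mono ?_
  rintro _ ⟨x, rfl⟩
  exact Submodule.smul_mem _ c ⟨x, rfl⟩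

theorem hat0 (κ : Vec p n) (y : HH p n) :
    hat ℓ s a θ (0, κ) y = (cmb (Cso ℓ s (a 2).rev (a 1)) κ *ᵥ y.1, 0) := by
  refine Prod.ext ?_ (funext fun i => ?_)
  · have : au θ 0 y.1 = 0 := by
      funext α
      simp [au]
    simp [hat_fst, this]
  · simp [hat_snd]

theorem low_add (hG : Good ℓ s) (h1 : 2 * tt n * r < nb ℓ (a 1))
    (hL : ∀ u ∈ Vb ℓ (a 0), ∃ q ∈ Low ℓ s a θ r, q.1 = u) {q q' : HH p n}
    (hq : q ∈ Low ℓ s a θ r) (hq' : q' ∈ Low ℓ s a θ r) : q + q' ∈ Low ℓ s a θ r := by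
  obtain ⟨q2, hq2, e⟩ := hL _ (add_mem hq.1.1 hq'.1.1)
  have e1 : q + q' + (-1 : ZMod p) • q2 = (0, q.2 + q'.2 - q2.2) :=
    Prod.ext (by simp [e]) (by simp [sub_eq_add_neg])
  have e2 : hat ℓ s a θ (0, q.2 + q'.2 - q2.2) =
      hat ℓ s a θ q + hat ℓ s a θ q' + (-1 : ZMod p) • hat ℓ s a θ q2 := by
    rw [← e1, ← hatL_coe, map_add, map_add, map_smul]
  have hC : cmb (Cso ℓ s (a 2).rev (a 1)) (q.2 + q'.2 - q2.2) = 0 := by
    by_contra hC
    let g := (hat ℓ s a θ (0, q.2 + q'.2 - q2.2) ∘ₗ LinearMap.inl (ZMod p) _ _).domRestrict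
      (Vb ℓ (a 1))
    have hg : Function.Injective g := by
      refine (injective_iff_map_eq_zero g).2 fun x hx => Subtype.ext ?_
      by_contra h0
      refine hC (cb_inj hG.str (hG.cmb_mem _ _ _).1 x.2 h0 ?_)
      exact congrArg Prod.fst ((hat0 _ (x.1, 0)).symm.trans hx)
    have h2 := LinearMap.finrank_range_of_inj hg
    have h3 : LinearMap.range g ≤ LinearMap.range (hat ℓ s a θ (0, q.2 + q'.2 - q2.2)) := by
      rintro _ ⟨x, rfl⟩
      exact ⟨_, rfl⟩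
    have h4 := Submodule.finrank_mono h3
    rw [h2, finrank_Vb, e2] at h4
    have h5 := rk_add (hat ℓ s a θ q + hat ℓ s a θ q') ((-1 : ZMod p) • hat ℓ s a θ q2)
    have h6 := rk_add (hat ℓ s a θ q) (hat ℓ s a θ q')
    have h7 := rk_smul (-1 : ZMod p) (hat ℓ s a θ q2)
    have h8 := hq.2
    have h9 := hq'.2
    have h10 := hq2.2
    have h11 := Nat.mul_le_mul_right r (Nat.mul_le_mul_left 2 (tt_ge n))
    omega
  have e3 : hat ℓ s a θ (0, q.2 + q'.2 - q2.2) = 0 := LinearMap.ext fun y => by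
    rw [hat0, hC, Matrix.zero_mulVec]
    rfl
  refine ⟨add_mem hq.1 hq'.1, ?_⟩
  have e4 : hat ℓ s a θ (q + q') = hat ℓ s a θ q2 := by
    have e5 : q + q' = (0, q.2 + q'.2 - q2.2) + q2 := Prod.ext (by simp [e]) (by simp)
    rw [e5, ← hatL_coe, map_add, hatL_coe, e3, zero_add]
  rw [e4]
  exact hq2.2

/-- the pins of small rank form a subspace -/
noncomputable def lowS (hG : Good ℓ s) (h1 : 2 * tt n * r < nb ℓ (a 1))
    (hL : ∀ u ∈ Vb ℓ (a 0), ∃ q ∈ Low ℓ s a θ r, q.1 = u) : Submodule (ZMod p) (HH p n) where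
  carrier := Low ℓ s a θ r
  add_mem' := low_add hG h1 hL
  zero_mem' := ⟨zero_mem _, by
    rw [← hatL_coe, map_zero, LinearMap.range_zero, finrank_bot]
    exact Nat.zero_le _⟩
  smul_mem' c q hq := ⟨Submodule.smul_mem _ c hq.1, by
    rw [← hatL_coe, map_smul]
    exact (rk_smul c _).trans hq.2⟩

theorem num (m : ℕ) : 2 * m * 7 ^ (6 * (Nat.size m + 1)) ≤ 8 ^ (6 * (Nat.size m + 1)) := by
  have h1 : 2 * m ≤ 2 ^ (Nat.size m + 1) := by
    have := Nat.lt_size_self m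
    rw [pow_succ]
    omega
  calc 2 * m * 7 ^ (6 * (Nat.size m + 1)) ≤ 2 ^ (Nat.size m + 1) * (7 ^ 6) ^ (Nat.size m + 1) := by
        rw [pow_mul]
        exact Nat.mul_le_mul_right _ h1
    _ = (2 * 7 ^ 6) ^ (Nat.size m + 1) := (mul_pow _ _ _).symm
    _ ≤ (8 ^ 6) ^ (Nat.size m + 1) := Nat.pow_le_pow_left (by norm_num) _
    _ = _ := (pow_mul _ _ _).symm

theorem rh_le (hG : Good ℓ s) (hθ : θ ∈ Wt ℓ (key ℓ a)) (h0 : (0 : HH p n) ∈ Low ℓ s a θ r) :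
    Rh ℓ s a θ r ≤ (Vb ℓ (a 2).rev).prod ⊤ := by
  refine Submodule.span_le.2 fun z hz => ?_
  have h1 : 0 < {qs : Fin (tt n) → HH p n | ∀ j, qs j ∈ Low ℓ s a θ r}.ncard :=
    (Set.ncard_pos (Set.toFinite _)).2 ⟨fun _ => 0, fun _ => h0⟩
  have h2 := lt_of_lt_of_le h1 hz
  obtain ⟨qs, -, hq⟩ := Set.nonempty_of_ncard_ne_zero (Nat.pos_of_mul_pos_left h2).ne'
  refine (iSup_le fun j => ?_ : _ ≤ (Vb ℓ (a 2).rev).prod ⊤) hq
  rintro _ ⟨y, rfl⟩
  refine ⟨?_, trivial⟩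
  change (hat ℓ s a θ (qs j) y).1 ∈ Vb ℓ (a 2).rev
  rw [hat_fst]
  exact add_mem (add_mem (au_mem hG.str.lab hθ _ _) (cb_mulVec_mem (hG.cmb_mem _ _ _).1 _))
    (cb_mulVec_mem (hG.cmb_mem _ _ _).1 _)

/-- linear sections -/
theorem sec (T : Submodule (ZMod p) (HH p n)) : ∃ κ : Vec p n →ₗ[ZMod p] Vec p n,
    ∀ q ∈ T, (q.1, κ q.1) ∈ T := by
  let f := LinearMap.fst (ZMod p) (Vec p n) (Vec p n) ∘ₗ T.subtype
  obtain ⟨g, hg⟩ := f.rangeRestrict.exists_rightInverse_of_surjective f.range_rangeRestrict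
  obtain ⟨g', hg'⟩ := LinearMap.exists_extend (T.subtype ∘ₗ g)
  refine ⟨LinearMap.snd _ _ _ ∘ₗ g', fun q hq => ?_⟩
  let u : LinearMap.range f := ⟨q.1, ⟨q, hq⟩, rfl⟩
  have h1 : g' q.1 = (g u).1 := LinearMap.congr_fun hg' u
  have h2 : (g u).1.1 = q.1 := congrArg Subtype.val (LinearMap.congr_fun hg u)
  have h3 : (q.1, (LinearMap.snd _ _ _ ∘ₗ g') q.1) = (g u).1 :=
    Prod.ext h2.symm (congrArg Prod.snd h1 :)
  rw [h3]
  exact (g u).2

theorem cmb_neg (L : List (Mat p n)) (c : Vec p n) : cmb L (-c) = -cmb L c := by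
  simp [cmb]

theorem rk_inl (V : VS p n) :
    finrank (ZMod p) (V.map (LinearMap.inl (ZMod p) (Vec p n) (Vec p n))) = finrank (ZMod p) V :=
  (Submodule.equivMapOfInjective _ LinearMap.inl_injective V).finrank_eq.symm

theorem meet (V : VS p n) (U : Submodule (ZMod p) (HH p n)) (k : ℕ)
    (hU : finrank (ZMod p) (HH p n) ≤ finrank (ZMod p) U + k) (hV : k < finrank (ZMod p) V) :
    ∃ y ∈ V, y ≠ 0 ∧ (y, 0) ∈ U := by
  by_contra hc
  have h6 : V.map (LinearMap.inl (ZMod p) _ (Vec p n)) ⊓ U = ⊥ := by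
    refine (Submodule.eq_bot_iff _).2 ?_
    rintro _ ⟨⟨y, hy, rfl⟩, hy'⟩
    have : y = 0 := not_not.1 fun e => hc ⟨y, hy, e, hy'⟩
    rw [this, map_zero]
  have h4 := Submodule.finrank_add_finrank_le_of_disjoint (disjoint_iff.2 h6)
  have h7 : finrank (ZMod p) V + finrank (ZMod p) U ≤ finrank (ZMod p) (HH p n) :=
    rk_inl V ▸ h4
  omega

end PLP5x

open PLP5x in
theorem s_PLP5 (p n : ℕ) [Fact p.Prime] (hp : 5 ≤ p) (hHALF : S_HALF p) (hPOP : S_POP p)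
    (hDEC : S_DEC p n) : S_PLP5 p n := by
  intro ℓ s a θ r hG hθ hT h1 h2 hL
  have _ := hp
  have hm : finrank (ZMod p) (HH p n) = 2 * (2 * n + 1) := by
    rw [Module.finrank_prod, Module.finrank_fintype_fun_eq_card, Fintype.card_fin, two_mul (_ + _)]
  have h0 : (0 : HH p n) ∈ Low ℓ s a θ r := (lowS hG h1 hL).zero_mem
  have hR : finrank (ZMod p) (Rh ℓ s a θ r) ≤ 2 * tt n * r :=
    hPOP _ _ _ (Low ℓ s a θ r) (hat ℓ s a θ) r (tt n) ⟨0, h0⟩ fun q hq => hq.2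
  obtain ⟨U, hU, hU'⟩ := hHALF _ _ _ (lowS hG h1 hL) (hatL ℓ s a θ) r (tt n) (fun q hq => hq.2)
    (by rw [hm]; exact num _)
  by_cases h5 : (Rh ℓ s a θ r).comap (LinearMap.inl (ZMod p) _ _) = ⊥
  swap
  · refine Or.inl (not_le_Ht hG.str (a := (a 2).rev) (fun x hx => (rh_le hG hθ h0 hx).1) h5
      fun e => ?_)
    have h4 := Submodule.finrank_mono
      (Submodule.map_comap_le (LinearMap.inl (ZMod p) _ _) (Rh ℓ s a θ r))
    rw [e] at h4
    have h6 := (rk_inl _).symm.trans_le h4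
    rw [finrank_Vb, hG.str.lab.nb_rev] at h6
    exact absurd (h6.trans hR) (not_le.2 h2)
  right
  rw [D6, Submodule.map_comp]
  set T := Dom ℓ (a 1) ⊓ ⨅ q ∈ Low ℓ s a θ r, (Rh ℓ s a θ r).comap (hat ℓ s a θ q) with hT6
  refine not_le_Ht hG.str (a := a 1) ?_ (fun e => ?_) fun e => hT ?_
  · rintro _ ⟨y, hy, rfl⟩
    exact hy.1.1
  · have h8 := Nat.mul_le_mul_right r (Nat.mul_le_mul_left 2 (tt_ge n))
    obtain ⟨y, hy, hy0, hy'⟩ := meet (Vb ℓ (a 1)) U (4 * r) hU (by rw [finrank_Vb]; omega)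
    have : y ∈ T.map (LinearMap.fst (ZMod p) _ _) := by
      refine ⟨(y, 0), ⟨⟨hy, trivial⟩, ?_⟩, rfl⟩
      refine (Submodule.mem_iInf _).2 fun q => (Submodule.mem_iInf _).2 fun hq => ?_
      exact Submodule.subset_span (hU' q hq _ hy')
    rw [e, Submodule.mem_bot] at this
    exact hy0 this
  · obtain ⟨κ, hκ⟩ := sec (lowS hG h1 hL)
    obtain ⟨y2, hy2⟩ := sec T
    obtain ⟨ψ, hψ⟩ := sec ((Rh ℓ s a θ r).comap (LinearEquiv.prodComm (ZMod p) _ _).toLinearMap)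
    have h3 : ∀ z ∈ Rh ℓ s a θ r, ψ z.2 = z.1 := fun z hz => by
      have h4 : (ψ z.2, z.2) ∈ Rh ℓ s a θ r := hψ (z.2, z.1) hz
      have h6 : ψ z.2 - z.1 ∈ (Rh ℓ s a θ r).comap (LinearMap.inl (ZMod p) _ _) := by
        have := sub_mem h4 hz
        rwa [show (ψ z.2, z.2) - z = (ψ z.2 - z.1, 0) from Prod.ext rfl (sub_self _)] at this
      rwa [h5, Submodule.mem_bot, sub_eq_zero] at h6
    refine (hDEC ℓ s a hG).2 θ hθ (-κ) (-y2) ψ fun u hu y hy => ?_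
    obtain ⟨q, hq, rfl⟩ := hL u hu
    obtain ⟨w, hw, rfl⟩ : y ∈ T.map (LinearMap.fst (ZMod p) _ _) := e ▸ hy
    have h6 := h3 _ ((Submodule.mem_iInf _).1 ((Submodule.mem_iInf _).1 (hy2 w hw).2 _) (hκ q hq))
    rw [hat_fst] at h6
    have h7 : (hat ℓ s a θ (q.1, κ q.1) (w.1, y2 w.1)).2 =
        fun i => ip ((Cso ℓ s (a 1).rev (a 0)).getD i.val 0 *ᵥ q.1) w.1 := rfl
    rw [h7] at h6
    simp only [LinearMap.fst_apply, LinearMap.neg_apply, cmb_neg, Matrix.neg_mulVec, h6]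
    abel

end Pool.Agent.P.MP_f1a348_lc.PG
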