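import Pool.Agent.P.MP_f1a348_lc.PG.Iface

/-! Project PG: naturality of popular vectors. -/

namespace Pool.Agent.P.MP_f1a348_lc.PG

namespace POPNx

theorem card_eq {Q : Type} {S S' : Set Q} {σ : Q → Q} (h : Set.BijOn σ S S') {t : ℕ}
    {P P' : (Fin t → Q) → Prop} (e : ∀ qs, (∀ j, qs j ∈ S) → (P qs ↔ P' (σ ∘ qs))) :
    {qs | (∀ j, qs j ∈ S) ∧ P qs}.ncard = {qs | (∀ j, qs j ∈ S') ∧ P' qs}.ncard := by
  refine Set.ncard_congr (fun qs _ => σ ∘ qs) (fun qs hq => ⟨fun j => h.1 (hq.1 j), (e qs hq.1).1 hq.2⟩)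
    (fun a b ha hb hab => funext fun j => h.2.1 (ha.1 j) (hb.1 j) (congrFun hab j)) fun b hb => ?_
  choose a ha hab using fun j => h.2.2 (hb.1 j)
  have : σ ∘ a = b := funext hab
  exact ⟨a, ⟨ha, (e a ha).2 (this ▸ hb.2)⟩, this⟩

end POPNx

theorem s_POPN (p : ℕ) [Fact p.Prime] (hp : 5 ≤ p) : S_POPN p := by
  intro Q X Y _ _ _ _ S S' A A' σ R t h hA
  have _ := hp
  have key : ∀ r, R r ∈ Pop A' S' t ↔ r ∈ Pop A S t := fun r => by
    have e1 := POPNx.card_eq h (t := t) (P := fun _ => True) (P' := fun _ => True) fun _ _ => Iff.rfl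
    have e2 := POPNx.card_eq h (t := t) (P := fun qs => r ∈ ⨆ j, LinearMap.range (A (qs j)))
      (P' := fun qs => R r ∈ ⨆ j, LinearMap.range (A' (qs j))) fun qs hq => by
        simp only [Function.comp_apply, hA _ (hq _), ← Submodule.map_iSup]
        exact ⟨fun e => ⟨r, e, rfl⟩, fun ⟨x, e, e'⟩ => R.injective e' ▸ e⟩
    simp only [and_true] at e1
    simp only [Pop, Set.mem_setOf_eq, e1, e2]
  rw [Submodule.map_span]
  congr 1
  ext y
  obtain ⟨r, rfl⟩ := R.surjective y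
  rw [key]
  exact ⟨fun e => ⟨r, e, rfl⟩, fun ⟨x, e, e'⟩ => R.injective e' ▸ e⟩

end Pool.Agent.P.MP_f1a348_lc.PG
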