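import Pool.Agent.P.MP_f1a348_lc.PG.Iface

/-!
Project PG: some recipe makes progress.
-/

namespace Pool.Agent.P.MP_f1a348_lc.PG

open Matrix Module

namespace PROGx

variable {p n : ℕ}

theorem ann_zero (ℓ : Ix n → ℕ) (s : Side p n) (t : ℕ) : Ann ℓ s t 0 := by
  intro w _
  have : lam ℓ (CL s) t (0 : ℕ → ZMod p) w = 0 := by simp [lam]
  rw [this]
  exact zero_mem _

end PROGx

theorem s_PROG (p n : ℕ) [Fact p.Prime] (hp : 5 ≤ p) (hLVL : S_LVL p n) (hPIN : S_PIN p n)
    (hCW : S_CW p n) (hCLS : S_CLS p n) : S_PROG p n := by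
  intro ℓ s cs hs hΦ hcs
  have htt := tt_ge n
  by_cases hb : Big ℓ s.B (8 * tt n)
  · have key : ∀ t, LoLift ℓ s t ∨ ∃ ρ, Prg ℓ s cs ρ := by
      intro t
      induction t with
      | zero =>
        refine Or.inl fun z hz => ⟨z, Lf.zero (lo_spec hs.str hz).2 ?_ _ _⟩
        exact hs.str.alg.dg z (lo_spec hs.str hz).1
      | succ t ih =>
        rcases ih with h | h
        · exact hLVL ℓ s cs t hs hb hcs h
        · exact Or.inr h
    rcases key (top n) with h | h
    · obtain ⟨a, ha⟩ := (hCLS ℓ s.B hs.str).2.2.2.2.1 hΦ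
      have hd := hb a ha
      obtain ⟨u, hu, hi, _, hn⟩ := hCW ℓ s.B 0 ⊥ a hs.str small_bot (by omega)
      have hu0 : u ≠ 0 := fun e => hn (by rw [e]; exact zero_mem _)
      refine ⟨⟨1, fun _ => a, 0, 0, u, 0⟩, by norm_num, by norm_num, by positivity, Or.inl rfl,
        ⟨hu, PROGx.ann_zero _ _ _, fun _ => ⟨hu0, hi, ha, hb.mono (by omega), h.all hp hs.str⟩,
          fun e => absurd e (by norm_num)⟩, fun θ _ => ?_⟩
      have := (hPIN ℓ s.B a u hs.str ha hu hu0).1
      simpa [Dd, cost] using this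
    · exact h
  · unfold Big at hb
    push Not at hb
    obtain ⟨a, ha, hd⟩ := hb
    have hu : (Pi.single a 1 : Vec p n) ∈ Vb ℓ a := fun β h =>
      Pi.single_eq_of_ne (fun e => h (by rw [e])) _
    have hu0 : (Pi.single a 1 : Vec p n) ≠ 0 := fun e => by
      have := congrFun e a
      simp at this
    refine ⟨⟨0, fun _ => a, 0, 0, Pi.single a 1, 0⟩, by norm_num, by norm_num, by positivity,
      Or.inl rfl, ⟨hu, PROGx.ann_zero _ _ _, fun e => absurd e (by norm_num),
        fun e => absurd e (by norm_num)⟩, fun θ _ => ?_⟩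
    have := (hPIN ℓ s.B a _ hs.str ha hu hu0).2 hd.le
    simpa [Dd, cost] using this

end Pool.Agent.P.MP_f1a348_lc.PG
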