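import Pool.Agent.P.MP_f1a348_lc.PG.Iface

/-! Refinements: reflexivity, the new algebra, transitivity, a test for simplicity. -/

namespace Pool.Agent.P.MP_f1a348_lc.PG

open Matrix Module

namespace REFx

variable {p n : ℕ} {ℓ ℓ' : Ix n → ℕ} {B B' : Sub p n}

/-- strictly block upper triangular -/
def Nil (ℓ : Ix n → ℕ) (g : Mat p n) : Prop :=
  ∀ α β, g α β ≠ 0 → ℓ α < ℓ β ∧ (α < c0 n ↔ β < c0 n) ∧ (c0 n < α ↔ c0 n < β)

theorem nil_sub {y : Mat p n} (h : Tri ℓ y) : Nil ℓ (y - gr ℓ y) := fun α β e => by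
  rw [Matrix.sub_apply, gr_apply] at e
  split_ifs at e with e'
  · simp at e
  · have := h α β (by simpa using e)
    exact ⟨lt_of_le_of_ne this.1 e', this.2⟩

theorem Nil.conj (hl : Lab ℓ) {N g h : Mat p n} (hN : Nil ℓ N) (hg : Dg ℓ g) (hh : Dg ℓ h) :
    Nil ℓ (g * N * h) := fun α β e => by
  obtain ⟨δ, e1, e2⟩ := exists_of_mul_ne e
  obtain ⟨γ, e3, e4⟩ := exists_of_mul_ne e1
  have a1 := hg α γ e3
  have a2 := hh δ β e2
  obtain ⟨a3, a4, a5⟩ := hN γ δ e4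
  exact ⟨by omega, (hl.lt_c0 a1).trans (a4.trans (hl.lt_c0 a2)),
    (hl.c0_lt a1).trans (a5.trans (hl.c0_lt a2))⟩

theorem Nil.fine {N : Mat p n} (hN : Nil ℓ N) (h : ∀ α β, ℓ' α ≤ ℓ' β → ℓ α ≤ ℓ β) : Nil ℓ' N :=
  fun α β e => ⟨lt_of_not_ge fun e' => (hN α β e).1.not_ge (h β α e'), (hN α β e).2⟩

theorem Nil.tri {N : Mat p n} (hN : Nil ℓ N) : Tri ℓ N :=
  fun α β e => ⟨(hN α β e).1.le, (hN α β e).2⟩

theorem Nil.gr_eq {N : Mat p n} (hN : Nil ℓ N) : gr ℓ N = 0 := by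
  ext α β
  rw [gr_apply]
  split_ifs with e
  · by_contra e'
    exact (hN α β e').1.ne e
  · rfl

theorem mem_ref {g x : Mat p n} (h : Ref ℓ B ℓ' g B') :
    x ∈ B' ↔ ∃ b ∈ B, gr ℓ' (st g * b * g) = x := by
  rw [h.eq, Submodule.mem_map]
  simp only [LinearMap.comp_apply, cj_apply, st_st]

theorem refl (hl : Lab ℓ) (hB : Alg ℓ B) : Ref ℓ B ℓ 1 B where
  lab := hl
  fine _ _ h := h
  par := Par.one
  dg := Dg.one
  tri b hb := by simpa [st_one] using (hB.dg b hb).tri hl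
  eq := by
    ext x
    rw [Submodule.mem_map]
    simp only [LinearMap.comp_apply, cj_apply, st_one, one_mul, mul_one]
    exact ⟨fun hx => ⟨x, hx, (hB.dg x hx).gr_eq⟩, fun ⟨b, hb, e⟩ => e ▸ (hB.dg b hb).gr_eq.symm ▸ hb⟩

theorem alg (hB : Alg ℓ B) {g : Mat p n} (h : Ref ℓ B ℓ' g B') : Alg ℓ' B' where
  one := (mem_ref h).2 ⟨1, hB.one, by rw [mul_one, h.par.2.1.st_mul, gr_one]⟩
  mul x hx y hy := by
    obtain ⟨a, ha, rfl⟩ := (mem_ref h).1 hx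
    obtain ⟨b, hb, rfl⟩ := (mem_ref h).1 hy
    refine (mem_ref h).2 ⟨a * b, hB.mul a ha b hb, ?_⟩
    rw [← gr_mul (h.tri a ha) (h.tri b hb)]
    congr 1
    calc st g * (a * b) * g = st g * a * (g * st g) * b * g := by
          rw [h.par.2.1.mul_st]; simp only [mul_assoc, one_mul]
      _ = _ := by simp only [mul_assoc]
  star x hx := by
    obtain ⟨a, ha, rfl⟩ := (mem_ref h).1 hx
    refine (mem_ref h).2 ⟨st a, hB.star a ha, ?_⟩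
    rw [← gr_st h.lab, st_mul, st_mul, st_st, mul_assoc]
  dg x hx := by
    obtain ⟨a, -, rfl⟩ := (mem_ref h).1 hx
    exact dg_gr _

theorem trans (hl : Lab ℓ) {ℓ1 ℓ2 : Ix n → ℕ} {g1 g2 : Mat p n} {B1 B2 : Sub p n}
    (h1 : Ref ℓ B ℓ1 g1 B1) (h2 : Ref ℓ1 B1 ℓ2 g2 B2) : Ref ℓ B ℓ2 (g1 * g2) B2 := by
  have d2 : Dg ℓ g2 := fun α β e =>
    le_antisymm (h1.fine _ _ (h2.dg α β e).le) (h1.fine _ _ (h2.dg α β e).ge)
  have key : ∀ b ∈ B, ∃ N, Nil ℓ2 N ∧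
      st (g1 * g2) * b * (g1 * g2) = st g2 * gr ℓ1 (st g1 * b * g1) * g2 + N := fun b hb =>
    ⟨_, ((nil_sub (h1.tri b hb)).conj h1.lab (h2.dg.st h1.lab) h2.dg).fine h2.fine, by
      rw [← add_mul, ← mul_add, add_sub_cancel, st_mul]
      simp only [mul_assoc]⟩
  refine ⟨h2.lab, fun α β e => h1.fine _ _ (h2.fine _ _ e), h1.par.mul ⟨d2.tri hl, h2.par.2⟩,
    h1.dg.mul d2, fun b hb => ?_, ?_⟩
  · obtain ⟨N, hN, e⟩ := key b hb
    rw [e]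
    exact (h2.tri _ ((mem_ref h1).2 ⟨b, hb, rfl⟩)).add hN.tri
  · have k2 : ∀ b ∈ B, gr ℓ2 (st (g1 * g2) * b * (g1 * g2)) =
        gr ℓ2 (st g2 * gr ℓ1 (st g1 * b * g1) * g2) := fun b hb => by
      obtain ⟨N, hN, e⟩ := key b hb
      rw [e, map_add, hN.gr_eq, add_zero]
    ext x
    rw [mem_ref h2, Submodule.mem_map]
    simp only [LinearMap.comp_apply, cj_apply, st_st]
    constructor
    · rintro ⟨y, hy, rfl⟩
      obtain ⟨b, hb, rfl⟩ := (mem_ref h1).1 hy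
      exact ⟨b, hb, k2 b hb⟩
    · rintro ⟨b, hb, rfl⟩
      exact ⟨_, (mem_ref h1).2 ⟨b, hb, rfl⟩, (k2 b hb).symm⟩

theorem orb_eq [Fact p.Prime] (hB : Alg ℓ B) {a : Ix n} {x : Vec p n} (hx : x ∈ Vb ℓ a)
    (h : nb ℓ a ≤ finrank (ZMod p) (orb B x)) : orb B x = Vb ℓ a := by
  refine Submodule.eq_of_le_of_finrank_le (fun y hy => ?_) (by rwa [finrank_Vb])
  obtain ⟨b, hb, rfl⟩ := mem_orb.1 hy
  exact (hB.dg b hb).mulVec_mem hx

theorem sim [Fact p.Prime] (hl : Lab ℓ) (hB : Alg ℓ B)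
    (h : ∀ α, c0 n < α → ∀ x ∈ Vb ℓ α, x ≠ 0 → nb ℓ α ≤ finrank (ZMod p) (orb B x)) : Sim ℓ B := by
  intro a x hx h0 y hy
  rcases lt_trichotomy a (c0 n) with ha | rfl | ha
  · refine mem_orb.1 (orb_eq hB hx ?_ ▸ hy)
    have hb : perp (orb B x) ⊓ Vb ℓ a.rev = ⊥ := by
      rw [eq_bot_iff]
      rintro x' ⟨h1, h2⟩
      by_contra h3
      have h4 := orb_eq hB h2 (h _ (c0_lt_rev.2 ha) x' h2 h3)
      refine h0 (eq_zero_of_ip hl (b := a.rev) (by rwa [Fin.rev_rev]) fun z hz => ?_)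
      obtain ⟨b, hb, rfl⟩ := mem_orb.1 (h4 ▸ hz)
      rw [ip_mulVec_right]
      exact mem_perp.1 h1 _ (mem_orb.2 ⟨_, hB.star b hb, rfl⟩)
    have e1 := Submodule.finrank_sup_add_finrank_inf_eq (perp (orb B x)) (Vb ℓ a.rev)
    have e2 := finrank_perp (orb B x)
    have e3 := Submodule.finrank_le (perp (orb B x) ⊔ Vb ℓ a.rev)
    rw [hb, finrank_bot, finrank_Vb, hl.nb_rev] at e1
    simp only [Module.finrank_fintype_fun_eq_card, Fintype.card_fin] at e3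
    omega
  · have hc : x (c0 n) ≠ 0 := fun e => h0 (by rw [Vb_c0 hl hx, e, zero_smul])
    refine ⟨(y (c0 n) / x (c0 n)) • 1, B.smul_mem _ hB.one, ?_⟩
    rw [Matrix.smul_mulVec, Matrix.one_mulVec]
    conv_lhs => rw [Vb_c0 hl hx]
    conv_rhs => rw [Vb_c0 hl hy]
    simp [smul_smul, e0, hc]
  · exact mem_orb.1 (orb_eq hB hx (h a ha x hx h0) ▸ hy)

end REFx

theorem s_REF (p n : ℕ) [Fact p.Prime] (hp : 5 ≤ p) : S_REF p n := fun _ _ hl hB =>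
  have _ := hp
  ⟨REFx.refl hl hB, fun _ _ _ h => REFx.alg hB h, fun _ _ _ _ _ _ h1 h2 => REFx.trans hl h1 h2,
    REFx.sim hl hB⟩

end Pool.Agent.P.MP_f1a348_lc.PG
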