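import Pool.Agent.P.MP_f1a348_lc.PG.Iface

/-! Isotropic idempotents through an isotropic vector. -/

namespace Pool.Agent.P.MP_f1a348_lc.PG

open Matrix Module

namespace SEPIx

theorem alg {K A : Type} [CommRing K] [Ring A] [Algebra K A] {ρ σ : A} {h : K} (h1 : ρ * ρ = ρ)
    (h2 : σ * σ = σ) (h3 : σ * ρ = 0) (h4 : h + h = 1) :
    (ρ - h • (ρ * σ)) * (ρ - h • (ρ * σ)) = ρ - h • (ρ * σ) ∧
    (ρ - h • (ρ * σ)) * (σ - h • (ρ * σ)) = 0 ∧ (σ - h • (ρ * σ)) * (ρ - h • (ρ * σ)) = 0 := by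
  have a1 : ∀ x, ρ * (ρ * x) = ρ * x := fun x => by rw [← mul_assoc, h1]
  have a3 : ∀ x, σ * (ρ * x) = 0 := fun x => by rw [← mul_assoc, h3, zero_mul]
  simp only [mul_sub, sub_mul, smul_mul_assoc, mul_smul_comm, mul_assoc, a1, a3, h1, h2, h3,
    mul_zero, smul_zero, sub_zero, sub_self, and_true, true_and]
  rw [sub_sub, ← add_smul, h4, one_smul, sub_self]

end SEPIx

theorem s_SEPI (p n : ℕ) [Fact p.Prime] (hp : 5 ≤ p) : S_SEPI p n := by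
  intro ℓ B W b y h hW ht hy hi hp' hn
  obtain ⟨ρ, r1, r2, r3, r4, r5⟩ := proj h hW hy hn
  have hO : orb (Com B) y ≤ perp (orb (Com B) y) :=
    ((stab_orb y).perp h.alg).orb_le (isot_iff.1 hi)
  have s1 : st ρ * ρ = 0 := mat_ext fun u => by
    rw [← Matrix.mulVec_mulVec, Matrix.zero_mulVec]
    refine ip_nondeg fun v => ?_
    rw [← ip_mulVec_right]
    exact hO (r5 ⟨v, rfl⟩) _ (r5 ⟨u, rfl⟩)
  have s2 : ∀ w ∈ W, st ρ *ᵥ w = 0 := fun w hw => ip_nondeg fun v => by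
    rw [← ip_mulVec_right]
    exact (hW.perp h.alg).orb_le hp' (r5 ⟨v, rfl⟩) w hw
  have s3 : st ρ *ᵥ y = 0 := by rw [← r3, Matrix.mulVec_mulVec, s1, Matrix.zero_mulVec]
  obtain ⟨a1, a2, a3⟩ := SEPIx.alg (h := (2 : ZMod p)⁻¹) r2 (by rw [← st_mul, r2]) s1
    (by rw [← two_mul, mul_inv_cancel₀ (two_ne_zero' hp)])
  have e : st (ρ - (2 : ZMod p)⁻¹ • (ρ * st ρ)) = st ρ - (2 : ZMod p)⁻¹ • (ρ * st ρ) := by
    rw [st_sub, st_smul, st_mul, st_st]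
  have k : ∀ w, st ρ *ᵥ w = 0 → (ρ - (2 : ZMod p)⁻¹ • (ρ * st ρ)) *ᵥ w = ρ *ᵥ w ∧
      st (ρ - (2 : ZMod p)⁻¹ • (ρ * st ρ)) *ᵥ w = 0 := fun w hw => by
    simp [e, Matrix.sub_mulVec, Matrix.smul_mulVec, ← Matrix.mulVec_mulVec, hw]
  have p1 : ρ - (2 : ZMod p)⁻¹ • (ρ * st ρ) ∈ B :=
    sub_mem r1 (B.smul_mem _ (h.alg.mul _ r1 _ (h.alg.star _ r1)))
  have p2 : im (ρ - (2 : ZMod p)⁻¹ • (ρ * st ρ)) ≤ orb (Com B) y := by
    rintro _ ⟨u, rfl⟩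
    refine r5 ⟨u - (2 : ZMod p)⁻¹ • st ρ *ᵥ u, ?_⟩
    simp [Matrix.sub_mulVec, Matrix.smul_mulVec, Matrix.mulVec_sub, Matrix.mulVec_smul]
  have p3 := (k y s3).1.trans r3
  have p4 := (k y s3).2
  have p5 := fun w hw => And.intro ((k w (s2 w hw)).1.trans (r4 w hw)) (k w (s2 w hw)).2
  rw [← e] at a2 a3
  generalize ρ - (2 : ZMod p)⁻¹ • (ρ * st ρ) = π at a1 a2 a3 p1 p2 p3 p4 p5
  have p6 : ∀ a ∈ B, a *ᵥ y = 0 → a * π = 0 := fun a ha h0 => mat_ext fun u => by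
    obtain ⟨C, hC, e⟩ := mem_orb.1 (p2 ⟨u, rfl⟩)
    rw [← Matrix.mulVec_mulVec, Matrix.zero_mulVec, show π *ᵥ u = C *ᵥ y from e.symm,
      ← com_mulVec hC ha, h0, Matrix.mulVec_zero]
  have p7 : π * eo ℓ B = π := by
    have := p6 (1 - eo ℓ B) (sub_mem h.alg.one (eo_mem h))
      (by rw [Matrix.sub_mulVec, Matrix.one_mulVec, eo_mulVec_ntriv hy ht, sub_self])
    rw [sub_mul, one_mul, sub_eq_zero, (h.alg.dg π p1).comm_eo] at this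
    exact this.symm
  obtain ⟨a, ha, h0⟩ : ∃ a ∈ Vb ℓ b.rev, ip y a ≠ 0 := by
    by_contra! hc
    exact hn (eq_zero_of_ip h.lab (b := b.rev) (by rwa [Fin.rev_rev]) hc ▸ W.zero_mem)
  have q1 := h.alg.star π p1
  obtain ⟨x, x1, x2, x3⟩ : ∃ x ∈ Vb ℓ b.rev, ip x y = 1 ∧ st π *ᵥ x = x :=
    ⟨st π *ᵥ ((ip y a)⁻¹ • a), (h.alg.dg _ q1).mulVec_mem (Submodule.smul_mem _ _ ha),
      by rw [← ip_mulVec_right, p3, ip_smul_left, ip_comm a, inv_mul_cancel₀ h0],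
      by rw [Matrix.mulVec_mulVec, ← st_mul, a1]⟩
  have K : ∀ v ∈ orb (Com B) y, v ∈ perp (orb (Com B) x) → v = 0 := fun v h1 h2 => by
    by_contra h3
    exact one_ne_zero (x2.symm.trans
      (mem_of_orb h ((stab_orb x).perp h.alg) hy h1 h3 h2 x (self_mem_orb x)))
  refine ⟨π, x, ⟨b, y, x, hy, ⟨p1, p6⟩, x3, fun τ hτ h1 => mat_ext fun u => ?_⟩, ⟨a1, a2, a3⟩,
    p7, p3, p4, p5, p2, x1, x2, x3, ?_⟩
  · have := hτ.2 (1 - π) (sub_mem h.alg.one p1)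
      (by rw [Matrix.sub_mulVec, Matrix.one_mulVec, p3, sub_self])
    rw [sub_mul, one_mul, sub_eq_zero] at this
    rw [Matrix.zero_mulVec]
    refine K _ (p2 ⟨τ *ᵥ u, ?_⟩) (mem_perp_orb.2 fun C hC => ?_)
    · exact (Matrix.mulVec_mulVec _ _ _).trans (by rw [← this])
    · rw [ip_mulVec_right, ← com_mulVec hC (h.alg.star _ hτ.1), h1, Matrix.mulVec_zero,
        ip_zero_left]
  · rintro _ ⟨v, rfl⟩
    rw [← perp_perp (orb (Com B) x)]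
    intro u hu
    have : π *ᵥ u = 0 := K _ (p2 ⟨u, rfl⟩) (mem_perp_orb.2 fun C hC => by
      rw [ip_mulVec_right, ← com_mulVec hC q1, x3]
      exact mem_perp_orb.1 hu C hC)
    exact (ip_mulVec π u v).symm.trans (by rw [this, ip_zero_left])

end Pool.Agent.P.MP_f1a348_lc.PG
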