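import Pool.Agent.P.MP_f1a348_lc.PG.Iface

/-!
Project PG: isotropic vectors outside a small subspace span.
-/

namespace Pool.Agent.P.MP_f1a348_lc.PG

open Matrix Module

namespace SPx

theorem half (p : ℕ) [Fact p.Prime] (hp : 5 ≤ p) : ∃ h : ZMod p, h + h = 1 := by
  have h2 : (2 : ZMod p) ≠ 0 := by
    intro e
    have : ((2 : ℕ) : ZMod p) = 0 := by exact_mod_cast e
    rw [ZMod.natCast_eq_zero_iff] at this
    have := Nat.le_of_dvd (by norm_num) this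
    omega
  exact ⟨2⁻¹, by rw [← two_mul, mul_inv_cancel₀ h2]⟩

end SPx

open SPx in
theorem s_SP (p n : ℕ) [Fact p.Prime] (hp : 5 ≤ p) (hCW : S_CW p n) (hSEPI : S_SEPI p n) :
    S_SP p n := by
  intro ℓ B r s W R b y h hW hR hb hd hy hyW
  have hW1 : Small ℓ B (r + s + 1) (W ⊔ R ⊔ orb (Com B) y) :=
    (hW.sup h.alg hR).sup h.alg (small_orb h hy)
  obtain ⟨v, v1, v2, v3, v4⟩ := hCW ℓ B _ _ b h hW1 hd
  obtain ⟨π, x, c1, c2, -, c4, -, c6, -⟩ := hSEPI ℓ B _ b v h hW1.1 hb v1 v2 v3 v4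
  have hπ : π ∈ B := c1.mem
  have hv0 : v ≠ 0 := fun e => v4 (e ▸ zero_mem _)
  obtain ⟨b1, hb1, e1⟩ := h.sim b v v1 hv0 y hy
  obtain ⟨c, hc⟩ := half p hp
  have inW : ∀ w ∈ W, w ∈ W ⊔ R ⊔ orb (Com B) y := fun w hw =>
    Submodule.mem_sup_left (Submodule.mem_sup_left hw)
  have inR : ∀ w ∈ R, w ∈ W ⊔ R ⊔ orb (Com B) y := fun w hw =>
    Submodule.mem_sup_left (Submodule.mem_sup_right hw)
  have inO : ∀ C ∈ Com B, C *ᵥ y ∈ W ⊔ R ⊔ orb (Com B) y := fun C hC =>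
    Submodule.mem_sup_right (mem_orb.2 ⟨C, hC, rfl⟩)
  obtain ⟨u, hu⟩ : ∃ u, u = c • (st π *ᵥ (st b1 *ᵥ y)) := ⟨_, rfl⟩
  have ipu : ∀ z, ip z u = c * ip (b1 *ᵥ (π *ᵥ z)) y := fun z => by
    rw [hu, ip_smul_right, ← ip_mulVec, ← ip_mulVec]
  have u1 : u ∈ Vb ℓ b := by
    rw [hu]
    exact Submodule.smul_mem _ _ ((h.alg.dg _ (h.alg.star _ hπ)).mulVec_mem
      ((h.alg.dg _ (h.alg.star _ hb1)).mulVec_mem hy))
  have u2 : π *ᵥ u = 0 := by
    rw [hu, Matrix.mulVec_smul, Matrix.mulVec_mulVec, c2.2.1, Matrix.zero_mulVec, smul_zero]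
  have u3 : st π *ᵥ u = u := by
    rw [hu, Matrix.mulVec_smul, Matrix.mulVec_mulVec, ← st_mul, c2.1]
  have u4 : ∀ w ∈ W ⊔ R ⊔ orb (Com B) y, ip w u = 0 := fun w hw => by
    rw [ipu, (c6 w hw).1, Matrix.mulVec_zero, ip_zero_left, mul_zero]
  have u5 : Isot B u := fun C hC => by
    rw [ipu, ← com_mulVec hC hπ, u2, Matrix.mulVec_zero, Matrix.mulVec_zero, ip_zero_left, mul_zero]
  have u6 : ∀ C ∈ Com B, ip (C *ᵥ v) u = c * ip (C *ᵥ y) y := fun C hC => by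
    rw [ipu, ← com_mulVec hC hπ, c4, ← com_mulVec hC hb1, e1]
  have w5 : Isot B (y + v - u) := fun C hC => by
    have hs := com_st h.alg hC
    have a1 : ip (C *ᵥ y) v = 0 := v3 _ (inO C hC)
    have a2 : ip (C *ᵥ y) u = 0 := u4 _ (inO C hC)
    have a3 : ip (C *ᵥ v) y = 0 := by rw [ip_mulVec, ip_comm]; exact v3 _ (inO _ hs)
    have a4 : ip (C *ᵥ v) v = 0 := v2 C hC
    have a5 := u6 C hC
    have a6 : ip (C *ᵥ u) y = 0 := by rw [ip_mulVec, ip_comm]; exact u4 _ (inO _ hs)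
    have a7 : ip (C *ᵥ u) v = c * ip (C *ᵥ y) y := by
      rw [ip_mulVec, ip_comm, u6 _ hs, ← ip_mulVec_right, ip_comm]
    have a8 := u5 C hC
    rw [Matrix.mulVec_sub, Matrix.mulVec_add]
    simp only [ip_sub_left, ip_sub_right, ip_add_left, ip_add_right]
    rw [a1, a2, a3, a4, a5, a6, a7, a8]
    linear_combination (-ip (C *ᵥ y) y) * hc
  have vW : v ∈ perp W := fun w hw => v3 w (inW w hw)
  have uW : u ∈ perp W := fun w hw => u4 w (inW w hw)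
  have e : y = (y + v - u) - v + u := by abel
  rw [e]
  refine add_mem (sub_mem (Submodule.subset_span ⟨sub_mem (add_mem hy v1) u1, w5,
    sub_mem (add_mem hyW vW) uW, fun q => hv0 ?_⟩)
    (Submodule.subset_span ⟨v1, v2, vW, fun q => v4 (inR _ q)⟩)) ?_
  · have q1 := (c6 _ (inR _ q)).1
    have q2 := (c6 _ (inO 1 com_one)).1
    rw [Matrix.one_mulVec] at q2
    rwa [Matrix.mulVec_sub, Matrix.mulVec_add, q2, c4, u2, zero_add, sub_zero] at q1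
  · by_cases q : u ∈ R
    · rw [← u3, (c6 _ (inR _ q)).2]
      exact zero_mem _
    · exact Submodule.subset_span ⟨u1, u5, uW, q⟩

end Pool.Agent.P.MP_f1a348_lc.PG
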