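import Pool.Agent.P.MP_f1a348_lc.PG.Iface

/-! Stability of the second canonical subspace. -/

namespace Pool.Agent.P.MP_f1a348_lc.PG

open Matrix Module

namespace STAx

variable {p n : ℕ} {ℓ : Ix n → ℕ} {B : Sub p n}

theorem con_zero_left (m : Fin 3) (w : Frm p n) : con m (0 : Mat p n) w = 0 := by
  funext α
  simp [con_apply]

theorem con_add_left (m : Fin 3) (C D : Mat p n) (w : Frm p n) :
    con m (C + D) w = con m C w + con m D w := by
  funext α
  simp only [con_apply, Pi.add_apply, ← Finset.sum_add_distrib]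
  refine Finset.sum_congr rfl fun i _ => ?_
  split_ifs <;> simp [mul_add]

theorem con_smul_left (m : Fin 3) (c : ZMod p) (C : Mat p n) (w : Frm p n) :
    con m (c • C) w = c • con m C w := by
  funext α
  simp only [con_apply, Pi.smul_apply, smul_eq_mul, Finset.mul_sum]
  refine Finset.sum_congr rfl fun i _ => ?_
  split_ifs <;> simp [mul_left_comm]

theorem con_span {L : List (Mat p n)} {m : Fin 3} {w : Frm p n}
    (H : ∀ i, con m (L.getD i 0) w = 0) {C : Mat p n} (hC : C ∈ (spL L : Sub p n)) :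
    con m C w = 0 := by
  induction hC using Submodule.span_induction with
  | mem x hx =>
    obtain ⟨i, hi, rfl⟩ := List.getElem_of_mem hx
    have := H i
    rwa [List.getD_eq_getElem _ _ hi] at this
  | zero => exact con_zero_left m w
  | add x y _ _ hx hy => rw [con_add_left, hx, hy, add_zero]
  | smul c x _ hx => rw [con_smul_left, hx, smul_zero]

theorem cn_zero (L : List (Mat p n)) (y : ZMod p × Frm p n) : cn L y 0 = y.1 • e0 := rfl

theorem cn_succ (L : List (Mat p n)) (y : ZMod p × Frm p n) (k : ℕ) :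
    cn L y (k + 1) = con (sl k) (L.getD (k / 3) 0) y.2 := rfl

theorem cn_slot (L : List (Mat p n)) (y : ZMod p × Frm p n) (i : ℕ) (m : Fin 3) :
    cn L y (3 * i + m.val + 1) = con m (L.getD i 0) y.2 := by
  have h1 : sl (3 * i + m.val) = m := Fin.ext (by simp only [sl]; omega)
  have h2 : (3 * i + m.val) / 3 = i := by omega
  rw [cn_succ, h1, h2]

variable [Fact p.Prime]

theorem act_cn {s : Side p n} (h : Good ℓ s) {z : Mat p n} (hz : z ∈ Lo s.B) (w : Frm p n) :
    act (st z) (cn (CoL ℓ s) (1, w)) = cn (CoL ℓ s) (1, pull1 z w) := by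
  have h1 := lo_spec h.str hz
  funext k
  show st z *ᵥ cn (CoL ℓ s) (1, w) k = _
  cases k with
  | zero => rw [cn_zero, cn_zero, one_smul]; exact (h1.2.star h.str.lab).mulVec_e0
  | succ k =>
    rw [cn_succ, cn_succ]
    exact (con_pull1 h1.1 h1.2.2.1 (co_le_com (h.spL_CoL ▸ getD_mem_spL (CoL ℓ s) (k / 3))) _ w).symm

theorem odd {s : Side p n} (h : Good ℓ s) {t : ℕ}
    (hB : s.B ≤ Ht s.B (D2 ℓ s t) (D2 ℓ s t)) {z g0 : Mat p n} (hz : z ∈ Lo s.B)
    (h0 : Lf ℓ s.T s.T t (z0 ℓ s.B) g0) :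
    kap ℓ s.T t g0 - pull1 z (kap ℓ s.T t g0) ∈ Sp ℓ s.T t ⊔ W0 ℓ s.B t := by
  have h1 := lo_spec h.str hz
  have h2 : ((1 : ZMod p), kap ℓ s.T t g0) ∈ Sh ℓ s t := Submodule.subset_span ⟨g0, h0, rfl⟩
  obtain ⟨y, hy, e⟩ := (mem_Ht.1 (hB h1.1)).2.2 _ (Submodule.mem_map_of_mem h2)
  rw [act_cn h hz] at e
  have e1 : y.1 = 1 := by
    have := congrFun (congrFun e 0) (c0 n)
    simpa [cn_zero, e0] using this
  have h3 := (mem_Sh h.str.lab h0).1 hy
  rw [e1, one_smul] at h3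
  have h4 : y.2 - pull1 z (kap ℓ s.T t g0) ∈ W0 ℓ s.B t := by
    refine mem_W0.2 ⟨sub_mem ?_ (pull1_mem_Wt h.str.lab (h.str.alg.dg z h1.1) (kap_mem _ _ _)),
      fun m C hC => con_span (L := CoL ℓ s) (fun i => ?_) (h.spL_CoL ▸ hC)⟩
    · simpa using add_mem (Sp_le_Wt _ _ h3) (kap_mem s.T t g0)
    · have := congrFun e (3 * i + m.val + 1)
      rw [cn_slot, cn_slot] at this
      rw [map_sub, this, sub_self]
  have := sub_mem (Submodule.mem_sup_right (S := Sp ℓ s.T t) h4)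
    (Submodule.mem_sup_left (T := W0 ℓ s.B t) h3)
  convert this using 1
  abel

open Classical in
theorem even (h : Str ℓ B) {a : Fin 3 → Ix n}
    (hs : (∏ j, if Triv ℓ B (a j) then (1 : ZMod p) else -1) ≠ -1) {z : Mat p n} (hz : z ∈ Lo B)
    {w : Frm p n} (hw : w ∈ Wt ℓ (key ℓ a)) : pull1 z w - w ∈ W0 ℓ B (key ℓ a) := by
  have h1 := lo_spec h hz
  refine mem_W0.2 ⟨sub_mem (pull1_mem_Wt h.lab (h.alg.dg z h1.1) hw) hw, fun m C hC => ?_⟩
  rw [map_sub, con_pull1 h1.1 h1.2.2.1 (co_le_com hC), sub_eq_zero]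
  have e : con m C w = st (pr ℓ (a m)) *ᵥ
      con m (pr ℓ (a (m + 2)) * C * st (pr ℓ (a (m + 1)))) w := by
    rw [← con_pull (fun j => pr ℓ (a j)), ← cmp_key h.lab, mem_Wt_iff.1 hw]
  by_cases t2 : Triv ℓ B (a (m + 2))
  · rw [← co_left h hC, ← mul_assoc, pr_mul_eo_triv t2, zero_mul, zero_mul, con_zero_left,
      mulVec_zero, co_left h hC] at e
    rw [e, mulVec_zero]
  by_cases t1 : Triv ℓ B (a (m + 1))
  · have e1 : C * st (pr ℓ (a (m + 1))) = 0 := by
      rw [← hC.2, mul_assoc, ← st_eo h, ← st_mul, pr_mul_eo_triv t1, st_zero, mul_zero]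
    rw [mul_assoc, e1, mul_zero, con_zero_left, mulVec_zero] at e
    rw [e, mulVec_zero]
  have t0 : Triv ℓ B (a m) := by
    by_contra t0
    apply hs
    rw [prod_three m, if_neg t0, if_neg t1, if_neg t2]
    ring
  refine lo_triv h (lo_st h.alg hz) ((triv_rev h).2 t0) ?_
  rw [e, st_pr h.lab]
  exact pr_mulVec_mem _ _

end STAx

theorem s_STA (p n : ℕ) [Fact p.Prime] (hp : 5 ≤ p) : S_STA p n := by
  classical
  intro ℓ s t h H hB z hz g hg
  by_cases ht : ∀ a, key ℓ a ≠ t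
  · rw [Wt_eq_bot ht (kap_mem s.T t g)]
    exact zero_mem _
  push Not at ht
  obtain ⟨a, rfl⟩ := ht
  by_cases hs : (∏ j, if Triv ℓ s.B (a j) then (1 : ZMod p) else -1) = -1
  · obtain ⟨g0, h0⟩ := H _ (Test.lo hp h.str test_z0).1
    have h1 := odd_arg h.str (fun w hw => by rw [pull1_z0 h.str.lab hw, hs, neg_one_smul])
      (lo_spec h.str hz).1 hg h0
    refine mem_of_two_smul hp ?_
    simpa using add_mem (Submodule.mem_sup_left h1) (STAx.odd h hB hz h0)
  · exact hom_arg hp h.str H (Q := Wt ℓ (key ℓ a)) le_sup_left (fun _ _ g _ => kap_mem _ _ g)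
      (fun z hz w hw => Submodule.mem_sup_right (STAx.even h.str hs hz hw)) hz hg

end Pool.Agent.P.MP_f1a348_lc.PG
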