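import Pool.Agent.P.MP_f1a348_lc.PG.Iface

/-! Project PG: the traceless part of the obstruction. -/

namespace Pool.Agent.P.MP_f1a348_lc.PG

theorem s_STB (p n : ℕ) [Fact p.Prime] (hp : 5 ≤ p) (hMID : S_MID p n) (hLAMAA : S_LAMAA p n)
    (hRIG : S_RIG p n) : S_STB p n := by
  intro ℓ s a hs hb hL hj hc z hz g hg hw
  have h := hs.str
  refine hMID ℓ s.B a _ _ h hb (Sp_le_Wt _ _)
    (fun z hz v hv => (hL z hz).elim fun g hg => pull1_mem_Sp h.lab hg hv) hw fun μ hμ hS => ?_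
  obtain ⟨c, e⟩ := (hLAMAA ℓ s a hs).2 μ hμ
  have e' : ∀ w ∈ Wt ℓ (key ℓ a), lam ℓ (CL s) (key ℓ a) c w = μ w := fun w hw => by
    rw [← e, LinearMap.comp_apply, mem_Wt_iff.1 hw]
  obtain ⟨θ, h1, -, h2⟩ := hc c fun w hw => e' w (Sp_le_Wt _ _ hw) ▸ hS w hw
  have k : ∀ z g, Test ℓ s.B z → Lf ℓ s.T s.T (key ℓ a) z g →
      μ (kap ℓ s.T (key ℓ a) g) ∈ Tr ℓ s.B := fun z g t l => by
    have b := lo_spec h (t.lo hp h).1
    have := sub_mem (sub_mem (pull1_mem_Tr b.1 b.2.2.1 h1) h1) (h2 z g t l)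
    rwa [sub_sub_cancel, e' _ (kap_mem _ _ _)] at this
  refine hRIG ℓ s.B a h hb hj _ (aa_mem_Wt h.lab hμ _) fun z1 t => ?_
  have b := lo_spec h hz
  have b1 := (t.lo hp h).1
  obtain ⟨g1, l⟩ := hL z1 b1
  have l2 := (hg.mul l).mul (hg.star h.lab)
  have e1 := kap_mul h.lab l2 hg
  rw [mul_assoc, hg.1.2.1.st_mul, mul_one, kap_mul h.lab hg l] at e1
  have e2 := congrArg μ e1
  rw [map_add, map_add, aa_pull1 hμ (lo_spec h b1).1, aa_pull1 hμ b.1] at e2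
  rw [eq_sub_of_add_eq e2, sub_right_comm, add_sub_cancel_right]
  exact sub_mem (pull1_mem_Tr b.1 b.2.2.1 (k _ _ (t.conj h b.1 b.2.2.1) l2)) (k _ _ t l)

end Pool.Agent.P.MP_f1a348_lc.PG
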