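import Pool.Agent.P.MP_f1a348_lc.PG.Iface

/-! The traces can be removed from the classes of lifts. -/

namespace Pool.Agent.P.MP_f1a348_lc.PG

open Matrix Module

namespace STCx

variable {p n : ℕ} [Fact p.Prime] {ℓ : Ix n → ℕ} {s : Side p n} {B : Sub p n}

theorem ex_tau (h : Good ℓ s) {w : Frm p n} (hw : w ∈ Tr ℓ s.B) :
    ∃ τ ∈ Amb (CoL ℓ s).length, τ 0 = 0 ∧ (tn (CoL ℓ s) τ).2 = w := by
  have ha : ∀ u v : Frm p n, (∃ τ ∈ Amb (CoL ℓ s).length, τ 0 = 0 ∧ (tn (CoL ℓ s) τ).2 = u) →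
      (∃ τ ∈ Amb (CoL ℓ s).length, τ 0 = 0 ∧ (tn (CoL ℓ s) τ).2 = v) →
      ∃ τ ∈ Amb (CoL ℓ s).length, τ 0 = 0 ∧ (tn (CoL ℓ s) τ).2 = u + v := by
    rintro _ _ ⟨σ, a, b, rfl⟩ ⟨τ, a', b', rfl⟩
    exact ⟨σ + τ, add_mem a a', by simp [b, b'], by rw [map_add]; rfl⟩
  have hs : ∀ (c : ZMod p) (u : Frm p n),
      (∃ τ ∈ Amb (CoL ℓ s).length, τ 0 = 0 ∧ (tn (CoL ℓ s) τ).2 = u) →
      ∃ τ ∈ Amb (CoL ℓ s).length, τ 0 = 0 ∧ (tn (CoL ℓ s) τ).2 = c • u := by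
    rintro c _ ⟨σ, a, b, rfl⟩
    exact ⟨c • σ, Submodule.smul_mem _ c a, by simp [b], by rw [map_smul]; rfl⟩
  have h0 : ∃ τ ∈ Amb (CoL ℓ s).length, τ 0 = 0 ∧ (tn (CoL ℓ s) τ).2 = (0 : Frm p n) :=
    ⟨0, zero_mem _, rfl, by rw [map_zero]; rfl⟩
  induction hw using Submodule.span_induction with
  | zero => exact h0
  | add u v _ _ a b => exact ha u v a b
  | smul c u _ a => exact hs c u a
  | mem w hw =>
    obtain ⟨m, C, hC, v, rfl⟩ := hw
    rw [← h.spL_CoL] at hC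
    induction hC using Submodule.span_induction with
    | zero => rw [trf_zero]; exact h0
    | add u v _ _ a b => rw [trf_add]; exact ha _ _ a b
    | smul c u _ a => rw [trf_smul]; exact hs c _ a
    | mem C hC =>
      obtain ⟨i, hi, rfl⟩ := List.getElem_of_mem hC
      have hm := m.2
      refine ⟨Pi.single (3 * i + m + 1) v, ⟨fun α _ => by simp, fun k hk =>
        Pi.single_eq_of_ne (by omega) _⟩, by simp, ?_⟩
      change ∑ x ∈ Finset.range _, _ = _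
      rw [Finset.sum_eq_single (3 * i + m) (fun x _ hx => by
        rw [Pi.single_eq_of_ne (by omega), map_zero]) (fun hx => absurd (by simp; omega) hx),
        Pi.single_eq_same, show sl (3 * i + m) = m from Fin.ext (by simp [sl]),
        show (3 * i + m) / 3 = i by omega, List.getD_eq_getElem _ _ hi]

theorem tn_act (h : Good ℓ s) {z : Mat p n} (hz : z ∈ Lo s.B) (τ : Tup p n) :
    tn (CoL ℓ s) (act (st z) τ) = ((tn (CoL ℓ s) τ).1, pull1 z (tn (CoL ℓ s) τ).2) := by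
  obtain ⟨h1, h2⟩ := lo_spec h.str hz
  refine Prod.ext ?_ ?_
  · change (st z *ᵥ τ 0) (c0 n) = τ 0 (c0 n)
    rw [(h2.star h.str.lab).1.mulVec_c0, (h2.star h.str.lab).2.2, one_mul]
  · change ∑ x ∈ Finset.range _, _ = pull1 z (∑ x ∈ Finset.range _, _)
    rw [map_sum]
    refine Finset.sum_congr rfl fun x hx => (pull1_trf h1 h2.2.1 ?_ _ _).symm
    rw [List.getD_eq_getElem _ _ (by have := Finset.mem_range.1 hx; omega)]
    exact co_le_com (h.spL_CoL ▸ mem_spL (List.getElem_mem _))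

theorem fix (h : Str ℓ B) {a : Fin 3 → Ix n}
    (ha : ∀ m, ¬ Triv ℓ B (a (m + 1)) → ¬ Triv ℓ B (a (m + 2)) → Triv ℓ B (a m)) {z : Mat p n}
    (hz : z ∈ Lo B) {w : Frm p n} (hw : w ∈ Tr ℓ B) :
    pull1 z (cmp ℓ (key ℓ a) w) = cmp ℓ (key ℓ a) w := by
  induction hw using Submodule.span_induction with
  | zero => simp only [map_zero]
  | add u v _ _ a b => simp only [map_add, a, b]
  | smul c u _ a => simp only [map_smul, a]
  | mem w hw =>
    obtain ⟨m, C, hC, v, rfl⟩ := hw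
    rw [cmp_key h.lab, pull_trf, st_pr h.lab, st_pr h.lab]
    by_cases c1 : Triv ℓ B (a (m + 1))
    · rw [← hC.2, mul_assoc, mul_assoc, (dg_pr _).comm_eo, pr_mul_eo_triv c1, mul_zero, mul_zero,
        trf_zero, map_zero]
    by_cases c2 : Triv ℓ B (a (m + 2))
    · rw [← co_left h hC, ← mul_assoc, pr_mul_eo_triv ((triv_rev h).2 c2), zero_mul, zero_mul,
        trf_zero, map_zero]
    rw [pull1_trf (lo_spec h hz).1 (lo_spec h hz).2.2.1
      (com_mul (com_mul (com_pr h.alg _) hC.1) (com_pr h.alg _)),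
      lo_triv h (lo_st h.alg hz) ((triv_rev h).2 (ha m c1 c2)) (pr_mulVec_mem _ _)]

end STCx

theorem s_STC (p n : ℕ) [Fact p.Prime] (hp : 5 ≤ p) : S_STC p n := by
  classical
  intro ℓ s t h H hD hk z hz g hg
  by_cases ht : ∀ a, key ℓ a ≠ t
  · rw [Wt_eq_bot ht (kap_mem _ _ _)]
    exact zero_mem _
  obtain ⟨a, rfl⟩ : ∃ a, key ℓ a = t := by simpa using ht
  by_cases c : ∀ m, ¬ Triv ℓ s.B (a (m + 1)) → ¬ Triv ℓ s.B (a (m + 2)) → Triv ℓ s.B (a m)
  swap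
  · push Not at c
    obtain ⟨m, c1, c2, c0'⟩ := c
    have ho : ∀ w ∈ Wt ℓ (key ℓ a), pull1 (z0 ℓ s.B) w = -w := fun w hw => by
      rw [pull1_z0 h.str.lab hw, prod_three m, if_neg c0', if_neg c1, if_neg c2]
      simp
    have z1 := (test_z0.lo hp h.str).1
    obtain ⟨g1, h1⟩ := H _ z1
    obtain ⟨u, hu, v, hv, e⟩ := Submodule.mem_sup.1 (hk _ z1 g1 h1)
    obtain ⟨g0, h0, e0'⟩ := h1.adjust h.str.lab (neg_mem hu)
    rw [← e, add_neg_cancel_comm] at e0'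
    obtain ⟨τ, t1, t2, t3⟩ := STCx.ex_tau h hv
    obtain ⟨η, η1, η2⟩ : ∃ η : Tup p n, η 0 = e0 ∧ ∀ k, k ≠ 0 → η k = 0 :=
      ⟨fun k => if k = 0 then e0 else 0, if_pos rfl, fun k hk => if_neg hk⟩
    have t4 : tn (CoL ℓ s) (τ + η) = (1, v) := by
      refine Prod.ext ?_ ?_
      · change (τ + η) 0 (c0 n) = 1
        simp [t2, η1, e0]
      · rw [← t3]
        change ∑ x ∈ Finset.range _, _ = ∑ x ∈ Finset.range _, _
        exact Finset.sum_congr rfl fun x _ => by simp [η2]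
    have t5 : τ + η ∈ D3 ℓ s (key ℓ a) := by
      refine ⟨add_mem t1 ⟨fun α hα => by simp [η1, e0, hα], fun k hk => η2 k (by omega)⟩, ?_⟩
      change tn _ _ ∈ Sh ℓ s _
      rw [t4, mem_Sh h.str.lab h0, e0']
      simp
    have t6 : tn _ _ ∈ Sh ℓ s _ := ((hD (lo_spec h.str hz).1).2.2 _ t5).2
    rw [STCx.tn_act h hz, t4, mem_Sh h.str.lab h0, one_smul, e0'] at t6
    have := sub_mem (odd_arg h.str ho (lo_spec h.str hz).1 hg h0) t6
    rw [e0', sub_sub, sub_add_sub_cancel, sub_self, sub_zero] at this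
    exact mem_of_two_smul hp this
  · refine hom_arg hp h.str H le_rfl (Q := Sp ℓ s.T (key ℓ a) ⊔ Tr ℓ s.B ⊓ Wt ℓ (key ℓ a))
      (fun z hz g hg => ?_) (fun z hz w hw => ?_) hz hg
    · obtain ⟨u, hu, v, hv, e⟩ := Submodule.mem_sup.1 (hk z hz g hg)
      refine Submodule.mem_sup.2 ⟨u, hu, v, ⟨hv, ?_⟩, e⟩
      rw [eq_sub_of_add_eq' e]
      exact sub_mem (kap_mem _ _ _) (Sp_le_Wt _ _ hu)
    · obtain ⟨u, hu, v, hv, rfl⟩ := Submodule.mem_sup.1 hw
      obtain ⟨g', hg'⟩ := H z hz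
      have := STCx.fix h.str c hz hv.1
      rw [mem_Wt_iff.1 hv.2] at this
      rw [map_add, this, add_sub_add_right_eq_sub]
      exact sub_mem (pull1_mem_Sp h.str.lab hg' hu) hu

end Pool.Agent.P.MP_f1a348_lc.PG
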