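import Pool.Agent.P.MP_f1a348_lc.PG.Iface

/-! The step from one level to the next. -/

namespace Pool.Agent.P.MP_f1a348_lc.PG

theorem s_STEP (p n : ℕ) [Fact p.Prime] (hp : 5 ≤ p) (hSTA : S_STA p n) (hSTB : S_STB p n)
    (hSTC : S_STC p n) : S_STEP p n := by
  intro ℓ s a hs hb hL h2 h3 hT z hz
  have hl := hs.str.lab
  obtain ⟨g, hg⟩ := hL z hz
  refine hg.lifts_succ hl ?_
  by_cases hj : ∃ j, ¬ Triv ℓ s.B (a j)
  · refine hSTC ℓ s _ hs hL h3 (fun y hy u hu => ?_) z hz g hg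
    obtain ⟨v, hv, w, hw, e⟩ := Submodule.mem_sup.1 (hSTA ℓ s _ hs hL h2 y hy u hu)
    obtain ⟨u', h4, h5⟩ := hu.adjust hl (neg_mem hv)
    have h6 := hSTB ℓ s a hs hb hL hj (hT hj) y hy u' h4 (by
      rwa [h5, ← e, add_neg_cancel_comm])
    have h7 := add_mem h6 (Submodule.mem_sup_left hv)
    rwa [h5, neg_add_cancel_right] at h7
  · refine hom_arg hp hs.str hL le_rfl (fun _ _ u _ => kap_mem _ _ u) (fun y hy w hw => ?_) hz hg
    rw [Wt_ext hl (pull1_mem_Wt hl (hs.str.alg.dg y (lo_spec hs.str hy).1) hw) hw fun x hx => by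
      rw [ev_pull1]
      exact congrArg _ (funext fun j => lo_triv hs.str hy (not_not.1 fun h => hj ⟨j, h⟩) (hx j)),
      sub_self]
    exact zero_mem _

end Pool.Agent.P.MP_f1a348_lc.PG
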