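import Pool.Agent.P.MP_f1a348_lc.PG.Iface

/-! Two tests move an isotropic vector to another one. -/

namespace Pool.Agent.P.MP_f1a348_lc.PG

open Matrix Module

namespace SWAPx

variable {p n : ℕ} [Fact p.Prime] {ℓ : Ix n → ℕ} {B : Sub p n}

theorem rf_fix {π : Mat p n} {x : Vec p n} (h1 : π *ᵥ x = 0) (h2 : st π *ᵥ x = 0) :
    rf π *ᵥ x = x := by
  rw [rf, Matrix.sub_mulVec, Matrix.sub_mulVec, Matrix.one_mulVec, Matrix.smul_mulVec,
    Matrix.smul_mulVec, h1, h2, smul_zero, sub_zero, sub_zero]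

theorem rf_neg {π : Mat p n} {x : Vec p n} (h1 : π *ᵥ x = x) (h2 : st π *ᵥ x = 0) :
    rf π *ᵥ x = -x := by
  rw [rf, Matrix.sub_mulVec, Matrix.sub_mulVec, Matrix.one_mulVec, Matrix.smul_mulVec,
    Matrix.smul_mulVec, h1, h2, smul_zero, sub_zero, two_smul]
  abel

theorem not_mem (hp : 5 ≤ p) (h : Str ℓ B) {W : VS p n} (hW : Stab B W) {b : Ix n}
    {u w : Vec p n} (hu : u ∈ Vb ℓ b) (hw : w ∈ Vb ℓ b) (nu : u ∉ W)
    (nw : w ∉ W ⊔ orb (Com B) u) : u - w ∉ W ⊔ orb (Com B) (u + w) := by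
  intro hm
  obtain ⟨w0, h0, v, hv, e⟩ := Submodule.mem_sup.1 hm
  obtain ⟨C, hC, rfl⟩ := mem_orb.1 hv
  have hC1 : 1 + C ∈ Com B := add_mem com_one hC
  have e1 : (1 + C) *ᵥ w = -w0 + (1 - C) *ᵥ u := by
    rw [Matrix.mulVec_add] at e
    rw [Matrix.add_mulVec, Matrix.sub_mulVec, Matrix.one_mulVec, Matrix.one_mulVec]
    have : w0 = u - w - (C *ᵥ u + C *ᵥ w) := by rw [← e]; abel
    rw [this]; abel
  by_cases hz : (1 + C) *ᵥ w = 0
  · have w0' : w ≠ 0 := fun e => nw (e ▸ zero_mem _)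
    have h1 : pr ℓ b * (1 + C) * pr ℓ b = 0 :=
      cb_inj h (cb_of_com h.alg hC1 b b) hw w0' (by rw [cb_comp b hw, hz, Matrix.mulVec_zero])
    have h2 : pr ℓ b *ᵥ ((1 + C) *ᵥ u) = 0 := by rw [← cb_comp b hu, h1, Matrix.zero_mulVec]
    have h3 : w0 = (2 : ZMod p) • u - (1 + C) *ᵥ u := by
      rw [hz] at e1
      have : w0 = (1 - C) *ᵥ u := by rw [eq_comm, neg_add_eq_zero] at e1; exact e1
      rw [this, Matrix.add_mulVec, Matrix.sub_mulVec, Matrix.one_mulVec, two_smul]; abel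
    have h4 := hW _ (com_pr h.alg b) _ h0
    rw [h3, Matrix.mulVec_sub, h2, sub_zero, Matrix.mulVec_smul, mem_Vb_iff.1 hu] at h4
    exact nu (mem_of_two_smul hp h4)
  · refine nw (mem_of_mulVec_mem h (hW.sup (stab_orb u)) hw hC1 hz ?_)
    rw [e1]
    exact Submodule.add_mem_sup (neg_mem h0) (mem_orb.2 ⟨_, sub_mem com_one hC, rfl⟩)

theorem one (hp : 5 ≤ p) (hSEPI : S_SEPI p n) (h : Str ℓ B) {W : VS p n} (hW : Stab B W)
    {b : Ix n} (ht : ¬ Triv ℓ B b) {u w : Vec p n} (hu : u ∈ Vb ℓ b) (hw : w ∈ Vb ℓ b)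
    (iu : Isot B u) (iw : Isot B w) (pu : u ∈ perp W) (pw : w ∈ perp W)
    (wu : w ∈ perp (orb (Com B) u)) (nu : u ∉ W) (nw : w ∉ W ⊔ orb (Com B) u) :
    ∃ z, Test ℓ B z ∧ z *ᵥ u = w ∧ z *ᵥ w = u ∧ ∀ x ∈ W, z *ᵥ x = x := by
  have uw := perp_orb_symm h.alg wu
  have a1 : ∀ C ∈ Com B, ip (C *ᵥ u) w = 0 := mem_perp_orb.1 wu
  have a2 : ∀ C ∈ Com B, ip (C *ᵥ w) u = 0 := mem_perp_orb.1 uw
  obtain ⟨π, x, c1, c2, c3, c4, c5, c6, -⟩ := hSEPI ℓ B (W ⊔ orb (Com B) (u + w)) b (u - w) h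
    (hW.sup (stab_orb _)) ht (sub_mem hu hw)
    (fun C hC => by
      rw [Matrix.mulVec_sub, ip_sub_left, ip_sub_right, ip_sub_right, iu C hC, iw C hC, a1 C hC,
        a2 C hC, sub_zero, sub_zero])
    (mem_perp_sup.2 ⟨sub_mem pu pw, mem_perp_orb.2 fun C hC => by
      rw [Matrix.mulVec_add, ip_add_left, ip_sub_right, ip_sub_right, iu C hC, iw C hC, a1 C hC,
        a2 C hC, sub_zero, add_zero]⟩)
    (not_mem hp h hW hu hw nu nw)
  have d1 := rf_neg c4 c5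
  have d2 : rf π *ᵥ (u + w) = u + w :=
    have := c6 _ (Submodule.mem_sup_right (self_mem_orb (u + w)))
    rf_fix this.1 this.2
  rw [Matrix.mulVec_sub] at d1
  rw [Matrix.mulVec_add] at d2
  have d3 : rf π *ᵥ u = w := by
    refine smul_right_injective _ (two_ne_zero' hp) ?_
    have : (2 : ZMod p) • (rf π *ᵥ u) =
        (rf π *ᵥ u - rf π *ᵥ w) + (rf π *ᵥ u + rf π *ᵥ w) := by rw [two_smul]; abel
    change (2 : ZMod p) • (rf π *ᵥ u) = (2 : ZMod p) • w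
    rw [this, d1, d2, two_smul]; abel
  refine ⟨rf π, Or.inr ⟨π, c1, c2, c3, rfl⟩, d3, ?_, fun y hy => ?_⟩
  · rw [d3, add_comm u w] at d2
    exact add_left_cancel d2
  · have := c6 _ (Submodule.mem_sup_left hy)
    exact rf_fix this.1 this.2

end SWAPx

theorem s_SWAP (p n : ℕ) [Fact p.Prime] (hp : 5 ≤ p) (hCW : S_CW p n) (hSEPI : S_SEPI p n) :
    S_SWAP p n := by
  intro ℓ B r W b u u' h hW ht hd hu iu pu nu hu' iu' pu' nu'
  obtain ⟨w, hw, iw, pw, nw⟩ := hCW ℓ B (r + 1 + 1) (W ⊔ orb (Com B) u ⊔ orb (Com B) u') b h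
    ((hW.sup h.alg (small_orb h hu)).sup h.alg (small_orb h hu')) hd
  rw [mem_perp_sup, mem_perp_sup] at pw
  obtain ⟨z1, t1, e1, -, f1⟩ := SWAPx.one hp hSEPI h hW.1 ht hu hw iu iw pu pw.1.1 pw.1.2 nu
    fun e => nw (Submodule.mem_sup_left e)
  obtain ⟨z2, t2, -, e2, f2⟩ := SWAPx.one hp hSEPI h hW.1 ht hu' hw iu' iw pu' pw.1.1 pw.2 nu'
    fun e => nw (sup_le_sup_right (le_sup_left (b := orb (Com B) u)) _ e)
  exact ⟨z1, z2, t1, t2, by rw [e1, e2], fun x hx => ⟨f1 x hx, f2 x hx⟩⟩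

end Pool.Agent.P.MP_f1a348_lc.PG
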