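import Pool.Agent.P.MP_f1a348_lc.PG.Iface

/-!
Project PG: isomorphism of groups of class two and exponent `p` is equivalence of the commutator
tensors under the parabolic group of the coarsest labelling.
-/

namespace Pool.Agent.P.MP_f1a348_lc.PG

open Matrix Module
open scoped commutatorElement

namespace TENSx

variable {p n : ℕ}

/-- the primal indices -/
def up (k : Fin n) : Ix n := ⟨n + 1 + k.val, by omega⟩

/-- the primal coordinates -/
def res : Vec p n →ₗ[ZMod p] (Fin n → ZMod p) where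
  toFun x k := x (up k)
  map_add' _ _ := rfl
  map_smul' _ _ := rfl

/-- the primal part -/
def emb : (Fin n → ZMod p) →ₗ[ZMod p] Vec p n where
  toFun v α := if h : n < α.val then v ⟨α.val - n - 1, by omega⟩ else 0
  map_add' v w := by funext α; simp only [Pi.add_apply]; split_ifs <;> simp
  map_smul' c v := by funext α; simp only [Pi.smul_apply, RingHom.id_apply]; split_ifs <;> simp

theorem res_apply (x : Vec p n) (k : Fin n) : res x k = x (up k) := rfl

theorem emb_apply (v : Fin n → ZMod p) (α : Ix n) :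
    emb v α = if h : n < α.val then v ⟨α.val - n - 1, by omega⟩ else 0 := rfl

theorem res_emb (v : Fin n → ZMod p) : res (emb v) = v := by
  funext k
  rw [res_apply, emb_apply, dif_pos (by simp only [up]; omega)]
  congr 1
  exact Fin.ext (by simp only [up]; omega)

/-- the three projections -/
def dg (s : ℕ → Prop) [DecidablePred s] : Mat p n :=
  Matrix.diagonal fun α => if s α.val then 1 else 0

theorem emb_res (x : Vec p n) : emb (res x) = dg (n < ·) *ᵥ x := by
  funext α
  rw [emb_apply, dg, Matrix.mulVec_diagonal]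
  split_ifs with h
  · rw [one_mul, res_apply]
    congr 1
    exact Fin.ext (by simp only [up]; omega)
  · rw [zero_mul]

theorem res_single (a : Ix n) : res (Pi.single a 1 : Vec p n) =
    if n < a.val then un1 (a.val - n - 1) else 0 := by
  funext k
  rw [res_apply, Pi.single_apply]
  by_cases h : n < a.val
  · simp only [if_pos h, un1, Fin.ext_iff, up]
    exact if_congr (by omega) rfl rfl
  · rw [if_neg h, if_neg]
    · rfl
    · rw [Fin.ext_iff]; simp only [up]; omega

theorem tri_ev (T : Vec p n →ₗ[ZMod p] Vec p n →ₗ[ZMod p] Vec p n →ₗ[ZMod p] ZMod p)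
    (x : Fin 3 → Vec p n) :
    ev (fun i => T (Pi.single (i 0) 1) (Pi.single (i 1) 1) (Pi.single (i 2) 1)) x =
      T (x 0) (x 1) (x 2) := by
  have e := sum_three (2 : Fin 3) fun c a b : Ix n =>
    T (Pi.single a 1) (Pi.single b 1) (Pi.single c 1) * (x 0 a * x 1 b * x 2 c)
  simp only [ev, Fin.prod_univ_three]
  refine e.trans ?_
  conv_rhs => rw [pi_eq_sum_univ' (x 0), pi_eq_sum_univ' (x 1), pi_eq_sum_univ' (x 2)]
  simp only [map_sum, map_smul, LinearMap.sum_apply, LinearMap.smul_apply, smul_eq_mul,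
    Finset.mul_sum]
  refine Finset.sum_congr rfl fun c _ => Finset.sum_comm.trans ?_
  exact Finset.sum_congr rfl fun b _ => Finset.sum_congr rfl fun a _ => by ring

/-- the tensor of a bilinear map -/
def tb (b : (Fin n → ZMod p) →ₗ[ZMod p] (Fin n → ZMod p) →ₗ[ZMod p] (Fin n → ZMod p)) :
    Frm p n := fun i =>
  if h : n < (i 0).val ∧ n < (i 1).val ∧ (i 2).val < n then
    b (un1 ((i 0).val - n - 1)) (un1 ((i 1).val - n - 1)) ⟨n - 1 - (i 2).val, by omega⟩
  else 0

theorem ev_tb (b : (Fin n → ZMod p) →ₗ[ZMod p] (Fin n → ZMod p) →ₗ[ZMod p] (Fin n → ZMod p))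
    (x : Fin 3 → Vec p n) : ev (tb b) x = ip (emb (b (res (x 0)) (res (x 1)))) (x 2) := by
  refine Eq.trans ?_ (tri_ev ((b.compl₁₂ res res).compr₂ (ipL ∘ₗ emb)) x)
  congr 1
  funext i
  simp only [LinearMap.compr₂_apply, LinearMap.compl₁₂_apply, LinearMap.comp_apply, ipL_apply,
    ip_single_right, res_single, tb, emb_apply, Fin.val_rev]
  have := (i 2).2
  by_cases h0 : n < (i 0).val
  · by_cases h1 : n < (i 1).val
    · by_cases h2 : (i 2).val < n
      · rw [dif_pos ⟨h0, h1, h2⟩, dif_pos (by omega), if_pos h0, if_pos h1]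
        exact congrArg _ (Fin.ext (by simp only []; omega))
      · rw [dif_neg (by omega), dif_neg (by omega)]
    · simp [h1]
  · simp [h0]

/-- the action on the primal part -/
def gg (ψ : Mat p n) : (Fin n → ZMod p) →ₗ[ZMod p] (Fin n → ZMod p) :=
  res ∘ₗ ψ.mulVecLin ∘ₗ emb

theorem gg_apply (ψ : Mat p n) (v : Fin n → ZMod p) : gg ψ v = res (ψ *ᵥ emb v) := rfl

theorem dg_comm {ψ : Mat p n} (h : Tri (l0 n) ψ) : dg (n < ·) * ψ = ψ * dg (n < ·) :=
  h.dg_l0.comm_diagonal fun α β e => if_congr (by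
    simp only [l0] at e; split_ifs at e <;> omega) rfl rfl

theorem emb_gg {ψ : Mat p n} (h : Tri (l0 n) ψ) (v : Fin n → ZMod p) :
    emb (gg ψ v) = ψ *ᵥ emb v := by
  rw [gg_apply, emb_res, Matrix.mulVec_mulVec, dg_comm h, ← Matrix.mulVec_mulVec, ← emb_res,
    res_emb]

theorem res_gg {ψ : Mat p n} (h : Tri (l0 n) ψ) (x : Vec p n) : res (ψ *ᵥ x) = gg ψ (res x) := by
  rw [gg_apply, emb_res, Matrix.mulVec_mulVec, ← dg_comm h, ← Matrix.mulVec_mulVec, ← emb_res,
    res_emb]

theorem pull_iff {ψ : Mat p n} (h : Par (l0 n) ψ)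
    (b b' : (Fin n → ZMod p) →ₗ[ZMod p] (Fin n → ZMod p) →ₗ[ZMod p] (Fin n → ZMod p)) :
    pull1 ψ (tb b') = tb b ↔ ∀ u v, b' (gg ψ u) (gg ψ v) = gg ψ (b u v) := by
  constructor
  · intro e u v
    have key : emb (b' (gg ψ u) (gg ψ v)) = emb (gg ψ (b u v)) := ip_ext fun z => by
      have := congrArg (fun w => ev w ![emb u, emb v, st ψ *ᵥ z]) e
      simp only [ev_pull1, ev_tb, Matrix.cons_val_zero, Matrix.cons_val_one, Matrix.cons_val,
        res_gg h.1, res_emb, h.2.1.mulVec_st] at this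
      rw [this, emb_gg h.1, ip_mulVec]
    simpa only [res_emb] using congrArg res key
  · intro e
    refine frm_ext fun x => ?_
    simp only [ev_pull1, ev_tb, res_gg h.1, e, emb_gg h.1, h.2.1.ip]

theorem gg_bij {ψ : Mat p n} (h : Par (l0 n) ψ) : Function.Bijective (gg ψ) := by
  refine Function.bijective_iff_has_inverse.2 ⟨gg (st ψ), fun v => ?_, fun v => ?_⟩
  · rw [gg_apply, emb_gg h.1, h.2.1.st_mulVec, res_emb]
  · rw [gg_apply, emb_gg (h.1.st lab_l0), h.2.1.mulVec_st, res_emb]

/-- a map of the primal part as a matrix -/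
noncomputable def blk (g : (Fin n → ZMod p) →ₗ[ZMod p] (Fin n → ZMod p)) : Mat p n :=
  LinearMap.toMatrix' (emb ∘ₗ g ∘ₗ res)

theorem blk_mulVec (g : (Fin n → ZMod p) →ₗ[ZMod p] (Fin n → ZMod p)) (x : Vec p n) :
    blk g *ᵥ x = emb (g (res x)) := by
  rw [blk, LinearMap.toMatrix'_mulVec]; rfl

theorem dg_blk (g : (Fin n → ZMod p) →ₗ[ZMod p] (Fin n → ZMod p)) :
    dg (n < ·) * blk g = blk g :=
  mat_ext fun x => by rw [← Matrix.mulVec_mulVec, ← emb_res, blk_mulVec, res_emb]

theorem blk_dg (g : (Fin n → ZMod p) →ₗ[ZMod p] (Fin n → ZMod p)) :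
    blk g * dg (n < ·) = blk g :=
  mat_ext fun x => by rw [← Matrix.mulVec_mulVec, ← emb_res, blk_mulVec, blk_mulVec, res_emb]

theorem blk_ne {g : (Fin n → ZMod p) →ₗ[ZMod p] (Fin n → ZMod p)} {α β : Ix n}
    (h : blk g α β ≠ 0) : n < α.val ∧ n < β.val := by
  constructor
  · by_contra e
    rw [← dg_blk, dg, Matrix.diagonal_mul, if_neg e, zero_mul] at h
    exact h rfl
  · by_contra e
    rw [← blk_dg, dg, Matrix.mul_diagonal, if_neg e, mul_zero] at h
    exact h rfl

theorem dg_mul (s t : ℕ → Prop) [DecidablePred s] [DecidablePred t] (h : ∀ a, s a → ¬ t a) :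
    (dg s : Mat p n) * dg t = 0 := by
  simp only [dg, Matrix.diagonal_mul_diagonal]
  rw [← Matrix.diagonal_zero]
  congr 1; funext α
  by_cases e : s α.val
  · rw [if_neg (h _ e), mul_zero]
  · rw [if_neg e, zero_mul]

theorem st_dg (s t : ℕ → Prop) [DecidablePred s] [DecidablePred t]
    (h : ∀ a, a ≤ 2 * n → (s (2 * n - a) ↔ t a)) : st (dg s : Mat p n) = dg t := by
  rw [dg, st_diagonal, dg]
  congr 1; funext α
  have := α.2
  refine if_congr ?_ rfl rfl
  rw [← h _ (by omega), Fin.val_rev]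
  exact iff_of_eq (congrArg s (by omega))

theorem mul_zero_of {X Y D E : Mat p n} (hX : X * D = X) (hY : E * Y = Y) (h : D * E = 0) :
    X * Y = 0 := by
  rw [← hX, ← hY, mul_assoc, ← mul_assoc D, h, zero_mul, mul_zero]

theorem exists_par (g : (Fin n → ZMod p) ≃ₗ[ZMod p] (Fin n → ZMod p)) :
    ∃ ψ : Mat p n, Par (l0 n) ψ ∧ ∀ v, gg ψ v = g v := by
  have sP : st (dg (n < ·) : Mat p n) = dg (· < n) := st_dg _ _ fun a _ => by omega
  have sE : st (dg (· = n) : Mat p n) = dg (· = n) := st_dg _ _ fun a _ => by omega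
  have EE : (dg (· = n) : Mat p n) * dg (· = n) = dg (· = n) := by
    simp only [dg, Matrix.diagonal_mul_diagonal]
    congr 1; funext α; split_ifs <;> simp
  have l : ∀ f, (dg (· < n) : Mat p n) * st (blk f) = st (blk f) := fun f => by
    rw [← sP, ← st_mul, blk_dg]
  have r : ∀ f, st (blk f) * (dg (· < n) : Mat p n) = st (blk f) := fun f => by
    rw [← sP, ← st_mul, dg_blk]
  have inv : blk g.symm.toLinearMap * blk g.toLinearMap = (dg (n < ·) : Mat p n) :=
    mat_ext fun x => by
      rw [← Matrix.mulVec_mulVec, blk_mulVec, blk_mulVec, res_emb, ← emb_res]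
      exact congrArg emb (g.symm_apply_apply _)
  have tb : ∀ f, Dg (l0 n) (blk f : Mat p n) := fun f α β e => by
    have := blk_ne e
    simp only [l0]; split_ifs <;> omega
  refine ⟨blk g.toLinearMap + dg (· = n) + st (blk g.symm.toLinearMap),
    ⟨(((tb _).add (dg_diagonal _)).add ((tb _).st lab_l0)).tri lab_l0, ?_, ?_⟩, fun v => ?_⟩
  · rw [Un, st_add, st_add, st_st, sE]
    simp only [add_mul, mul_add]
    rw [mul_zero_of (r _) (dg_blk _) (dg_mul _ _ fun a => by omega),
      mul_zero_of EE (dg_blk _) (dg_mul _ _ fun a => by omega), inv,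
      mul_zero_of (r _) EE (dg_mul _ _ fun a => by omega), EE,
      mul_zero_of (blk_dg _) EE (dg_mul _ _ fun a => by omega), ← st_mul, inv, sP,
      mul_zero_of EE (l _) (dg_mul _ _ fun a => by omega),
      mul_zero_of (blk_dg _) (l _) (dg_mul _ _ fun a => by omega)]
    simp only [zero_add, add_zero, dg, Matrix.diagonal_add]
    rw [← Matrix.diagonal_one]
    congr 1; funext α
    split_ifs <;> first | omega | simp
  · have z : ∀ f, (blk f : Mat p n) (c0 n) (c0 n) = 0 := fun f => by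
      by_contra e
      exact lt_irrefl _ (blk_ne e).1
    simp only [Matrix.add_apply, st_apply, rev_c0, z, dg, Matrix.diagonal_apply_eq, c0_val]
    simp
  · have e : emb v = (dg (n < ·) : Mat p n) *ᵥ emb v := by rw [← emb_res, res_emb]
    rw [gg_apply, Matrix.add_mulVec, Matrix.add_mulVec, blk_mulVec, res_emb, e,
      Matrix.mulVec_mulVec, Matrix.mulVec_mulVec, dg_mul _ _ fun a => by omega, ← r, mul_assoc,
      dg_mul _ _ fun a => by omega]
    simp [res_emb]

section
variable {G : Type} [Group G] {κ : G ≃ (Fin n → ZMod p)}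

theorem k_one (h : Coord κ) : κ 1 = 0 := by
  have := h 1 1
  simp only [bs, commutatorElement_self, one_pow, mul_one] at this
  exact left_eq_add.1 this

theorem k_inv (h : Coord κ) (x : G) : κ x⁻¹ = -κ x := by
  have := h x x⁻¹
  rw [bs, commutatorElement_eq_one_iff_commute.2 (Commute.refl x).inv_left, one_pow, mul_one,
    mul_inv_cancel, k_one h] at this
  exact eq_neg_of_add_eq_zero_right this.symm

theorem k_symm (h : Coord κ) (u v : Fin n → ZMod p) :
    κ.symm (u + v) = bs p (κ.symm u) (κ.symm v) := by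
  rw [Equiv.symm_apply_eq, h, κ.apply_symm_apply, κ.apply_symm_apply]

variable [Fact p.Prime]

theorem exists_bil (hB : S_BAER p) (hG : Cl2 p G) (h : Coord κ) :
    ∃ b : (Fin n → ZMod p) →ₗ[ZMod p] (Fin n → ZMod p) →ₗ[ZMod p] (Fin n → ZMod p),
      (∀ x y, b (κ x) (κ y) = κ ⁅x, y⁆) ∧ tens κ = tb b ∧
      ∀ x y, κ (x * y) = κ x + κ y + ((p + 1) / 2) • b (κ x) (κ y) := by
  obtain ⟨-, -, h3, h4, h5⟩ := hB G hG
  have pw : ∀ (x : G) (k : ℕ), κ (x ^ k) = k • κ x := fun x k => by
    induction k with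
    | zero => rw [pow_zero, k_one h, zero_smul]
    | succ k ih => rw [← h3, h, ih, pow_one, succ_nsmul]
  let f : (Fin n → ZMod p) → (Fin n → ZMod p) → (Fin n → ZMod p) :=
    fun u v => κ ⁅κ.symm u, κ.symm v⁆
  have al : ∀ u v w, f (u + v) w = f u w + f v w := fun u v w => by
    simp only [f]; rw [k_symm h, h4, h]
  have sk : ∀ u v, f u v = -f v u := fun u v => by
    simp only [f]; rw [← k_inv h, commutatorElement_inv]
  have ar : ∀ u v w, f u (v + w) = f u v + f u w := fun u v w => by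
    rw [sk, al, sk u v, sk u w, neg_add]
  refine ⟨LinearMap.mk₂ (ZMod p) f al
    (fun c u w => ZMod.map_smul (AddMonoidHom.mk' (fun u => f u w) fun a b => al a b w) c u) ar
    (fun c u w => ZMod.map_smul (AddMonoidHom.mk' (f u) (ar u)) c w), fun x y => ?_, rfl,
    fun x y => ?_⟩
  · simp only [LinearMap.mk₂_apply, f, Equiv.symm_apply_apply]
  · simp only [LinearMap.mk₂_apply, f, Equiv.symm_apply_apply]
    rw [h5, h, h, pw]

end

end TENSx

open TENSx in
theorem s_TENS (p n : ℕ) [Fact p.Prime] (hp : 5 ≤ p) (hBAER : S_BAER p) : S_TENS p n := by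
  intro G H _ _ κ κ' hG hH hκ hκ'
  have _ := hp
  obtain ⟨b, b1, b2, b3⟩ := exists_bil hBAER hG hκ
  obtain ⟨b', c1, c2, c3⟩ := exists_bil hBAER hH hκ'
  rw [b2, c2]
  constructor
  · rintro ⟨f⟩
    let e : (Fin n → ZMod p) ≃+ (Fin n → ZMod p) :=
      { κ.symm.trans (f.toEquiv.trans κ') with
        map_add' := fun u v => by
          change κ' (f (κ.symm (u + v))) = κ' (f (κ.symm u)) + κ' (f (κ.symm v))
          rw [k_symm hκ, ← hκ']
          simp only [bs, map_mul, map_pow, map_commutatorElement] }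
    obtain ⟨ψ, h1, h2⟩ := exists_par { e with map_smul' := fun c u => ZMod.map_smul e c u }
    refine ⟨ψ, h1, (pull_iff h1 b b').2 fun u v => ?_⟩
    obtain ⟨x, rfl⟩ := κ.surjective u
    obtain ⟨y, rfl⟩ := κ.surjective v
    have h3 : ∀ x, gg ψ (κ x) = κ' (f x) := fun x => by
      rw [h2]
      exact congrArg (fun t => κ' (f t)) (κ.symm_apply_apply x)
    rw [b1, h3, h3, h3, c1, map_commutatorElement f]
  · rintro ⟨ψ, h1, h2⟩
    rw [pull_iff h1] at h2
    let e : G ≃ H := κ.trans ((Equiv.ofBijective _ (gg_bij h1)).trans κ'.symm)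
    have h3 : ∀ x, κ' (e x) = gg ψ (κ x) := fun x => κ'.apply_symm_apply _
    refine ⟨{ e with map_mul' := fun x y => κ'.injective ?_ }⟩
    change κ' (e (x * y)) = κ' (e x * e y)
    rw [c3, h3, h3, h3, b3, h2, map_add, map_add, map_nsmul]

end Pool.Agent.P.MP_f1a348_lc.PG
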