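import Pool.Agent.P.MP_f1a348_lc.PG.Iface

/-! Project PG: task TRANS. -/

namespace Pool.Agent.P.MP_f1a348_lc.PG

open Matrix Module

namespace TRANSx

variable {p n : ℕ} {ℓ : Ix n → ℕ} {B : Sub p n} {a : Fin 3 → Ix n}

/-- the orbit of `x i` if `i < j`, and zero otherwise -/
noncomputable def part (ℓ : Ix n → ℕ) (B : Sub p n) (x : Fin 3 → Vec p n) (j i : Fin 3) :
    VS p n :=
  if i < j then orb (Co ℓ B) (x i) else ⊥

theorem part_le (x : Fin 3 → Vec p n) (j i : Fin 3) : part ℓ B x j i ≤ orb (Co ℓ B) (x i) := by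
  unfold part
  split_ifs
  · exact le_rfl
  · exact bot_le

theorem part_small [Fact p.Prime] (h : Str ℓ B) {x : Fin 3 → Vec p n} (hx : Gen ℓ B a x)
    (j i : Fin 3) : Small ℓ B 1 (part ℓ B x j i) := by
  unfold part
  split_ifs
  · exact small_orb_co h (hx.mem i)
  · exact small_bot.mono (by omega)

theorem part_eq {x y : Fin 3 → Vec p n} (hx : Gen ℓ B a x) (hy : Gen ℓ B a y) {j : Fin 3}
    (H : ∀ i, i < j → ¬ Triv ℓ B (a i) → x i = y i) (i : Fin 3) :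
    part ℓ B x j i = part ℓ B y j i := by
  unfold part
  split_ifs with e
  · by_cases t : Triv ℓ B (a i)
    · rw [orb_co_triv (hx.mem i) t, orb_co_triv (hy.mem i) t]
    · rw [H i e t]
  · rfl

theorem facts (h : Str ℓ B) {x : Fin 3 → Vec p n} (hx : Gen ℓ B a x) {j : Fin 3}
    (t : ¬ Triv ℓ B (a j)) : Isot B (x j) ∧
      x j ∈ perp (part ℓ B x j (j + 1) ⊔ part ℓ B x j (j + 2)) ∧
      x j ∉ part ℓ B x j (j + 1) ⊔ part ℓ B x j (j + 2) := by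
  refine ⟨isot_iff.2 ?_, mem_perp_sup.2 ⟨perp_anti (part_le x j _) (hx.orth _ j),
    perp_anti (part_le x j _) (hx.orth _ j)⟩,
    fun hm => hx.ind j t (sup_le_sup (part_le x j _) (part_le x j _) hm)⟩
  rw [← orb_co_ntriv h.alg (hx.mem j) t]
  exact hx.orth j j

theorem mem_part (h : Str ℓ B) {x : Fin 3 → Vec p n} (hx : Gen ℓ B a x) {j i : Fin 3}
    (e : i < j) (t : ¬ Triv ℓ B (a i)) :
    x i ∈ part ℓ B x j (j + 1) ⊔ part ℓ B x j (j + 2) := by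
  have h1 : x i ∈ part ℓ B x j i := by
    rw [part, if_pos e, orb_co_ntriv h.alg (hx.mem i) t]
    exact self_mem_orb _
  have h2 : ∀ j i : Fin 3, i < j → i = j + 1 ∨ i = j + 2 := by decide
  rcases h2 j i e with rfl | rfl
  · exact Submodule.mem_sup_left h1
  · exact Submodule.mem_sup_right h1

theorem step [Fact p.Prime] (hp : 5 ≤ p) (hSWAP : S_SWAP p n) (h : Str ℓ B) (hb : Big ℓ B 30)
    {x y : Fin 3 → Vec p n} (hx : Gen ℓ B a x) (hy : Gen ℓ B a y) (j : Fin 3)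
    (H : ∀ i, i < j → ¬ Triv ℓ B (a i) → x i = y i) :
    ∃ z ∈ Lo B, ∀ i, i ≤ j → ¬ Triv ℓ B (a i) → z *ᵥ x i = y i := by
  by_cases t : Triv ℓ B (a j)
  · refine ⟨1, one_mem _, fun i hi ti => ?_⟩
    rw [Matrix.one_mulVec]
    exact H i (lt_of_le_of_ne hi fun e => ti (e ▸ t)) ti
  obtain ⟨x1, x2, x3⟩ := facts h hx t
  obtain ⟨y1, y2, y3⟩ := facts h hy t
  rw [← part_eq hx hy H, ← part_eq hx hy H] at y2 y3
  have hs := (part_small h hx j (j + 1)).sup h.alg (part_small h hx j (j + 2))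
  have hd := hb _ t
  obtain ⟨z1, z2, t1, t2, e, hf⟩ := hSWAP ℓ B _ _ (a j) (x j) (y j) h hs t (by omega)
    (hx.mem j) x1 x2 x3 (hy.mem j) y1 y2 y3
  refine ⟨z2 * z1, mul_mem (t2.lo hp h).1 (t1.lo hp h).1, fun i hi ti => ?_⟩
  rw [← Matrix.mulVec_mulVec]
  rcases lt_or_eq_of_le hi with hi | rfl
  · have := hf _ (mem_part h hx hi ti)
    rw [this.1, this.2, H i hi ti]
  · exact e

end TRANSx

open TRANSx in
theorem s_TRANS (p n : ℕ) [Fact p.Prime] (hp : 5 ≤ p) (hSWAP : S_SWAP p n) : S_TRANS p n := by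
  intro ℓ B a x y h hb hx hy
  have g : ∀ {x : Fin 3 → Vec p n} {z : Mat p n}, Gen ℓ B a x → z ∈ Lo B →
      Gen ℓ B a fun j => z *ᵥ x j := fun hx hz =>
    hx.map h.alg (lo_spec h hz).1 (lo_spec h hz).2.2.1
  obtain ⟨z0, m0, h0⟩ := step hp hSWAP h hb hx hy 0 fun i hi => absurd hi (Fin.not_lt_zero i)
  obtain ⟨z1, m1, h1⟩ := step hp hSWAP h hb (g hx m0) hy 1 fun i hi =>
    h0 i ((by decide : ∀ i : Fin 3, i < 1 → i ≤ 0) i hi)
  obtain ⟨z2, m2, h2⟩ := step hp hSWAP h hb (g (g hx m0) m1) hy 2 fun i hi =>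
    h1 i ((by decide : ∀ i : Fin 3, i < 2 → i ≤ 1) i hi)
  refine ⟨z2 * (z1 * z0), mul_mem m2 (mul_mem m1 m0), fun j t => ?_⟩
  rw [← Matrix.mulVec_mulVec, ← Matrix.mulVec_mulVec]
  exact h2 j ((by decide : ∀ i : Fin 3, i ≤ 2) j) t

end Pool.Agent.P.MP_f1a348_lc.PG
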