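import Pool.Agent.P.MP_f1a348_lc.PG.Iface

/-!
Project PG: test idempotents have small image.
-/

namespace Pool.Agent.P.MP_f1a348_lc.PG

open Matrix Module

namespace TSMx

variable {p n : ℕ} {ℓ : Ix n → ℕ}

theorem im_inf {g : Mat p n} (hg : Dg ℓ g) (a : Ix n) :
    (im g ⊓ Vb ℓ a : VS p n) = im (g * pr ℓ a) := by
  ext x
  constructor
  · rintro ⟨⟨y, hy⟩, h2⟩
    refine ⟨y, ?_⟩
    have hy' : g *ᵥ y = x := hy
    change (g * pr ℓ a) *ᵥ y = x
    rw [← hg.comm_pr, ← Matrix.mulVec_mulVec, hy']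
    exact mem_Vb_iff.1 h2
  · rintro ⟨y, hy⟩
    have hy' : (g * pr ℓ a) *ᵥ y = x := hy
    refine ⟨⟨pr ℓ a *ᵥ y, ?_⟩, ?_⟩
    · change g *ᵥ (pr ℓ a *ᵥ y) = x
      rw [Matrix.mulVec_mulVec, hy']
    · rw [← hy', ← hg.comm_pr, ← Matrix.mulVec_mulVec]
      exact pr_mulVec_mem a _

theorem finrank_st [Fact p.Prime] (g : Mat p n) :
    finrank (ZMod p) (im (st g)) = finrank (ZMod p) (im g) := by
  have h1 : st g = (gᵀ).submatrix Fin.revPerm Fin.revPerm := rfl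
  change (st g).rank = g.rank
  rw [h1, Matrix.rank_submatrix, Matrix.rank_transpose]

end TSMx

open TSMx in
theorem s_TSM (p n : ℕ) [Fact p.Prime] (hp : 5 ≤ p) : S_TSM p n := by
  intro ℓ B π h hc hi he
  have _ := hp
  have hm : π ∈ B := hc.mem
  have hs : st π ∈ B := h.alg.star _ hm
  have s1 : Small ℓ B 1 (im π) := by
    obtain ⟨a, x, _, hx, hN, _⟩ := hc
    refine (small_orb h hx).of_le (stab_im hm) ?_
    by_cases h0 : x = 0
    · have h1 : π = 0 := by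
        have := hN.2 1 h.alg.one (by rw [h0, Matrix.mulVec_zero])
        rwa [one_mul] at this
      rintro y ⟨z, rfl⟩
      rw [h1]
      simp
    · obtain ⟨ρ, h1, _, h3, _, h5⟩ := proj h stab_bot hx (by simpa using h0)
      have h6 := hN.2 (1 - ρ) (sub_mem h.alg.one h1) (by
        rw [Matrix.sub_mulVec, Matrix.one_mulVec, h3, sub_self])
      rw [sub_mul, one_mul, sub_eq_zero] at h6
      rintro y ⟨z, rfl⟩
      refine h5 ⟨π *ᵥ z, ?_⟩
      change ρ *ᵥ (π *ᵥ z) = π *ᵥ z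
      rw [Matrix.mulVec_mulVec, ← h6]
  have s2 : Small ℓ B 1 (im (st π)) := ⟨stab_im hs, fun a => by
    have hd := h.alg.dg _ hm
    rw [im_inf (h.alg.dg _ hs), ← finrank_st, st_mul, st_st, st_pr h.lab, hd.comm_pr,
      ← im_inf hd, ← eb_rev h a]
    exact s1.2 a.rev⟩
  refine ⟨add_mem hm hs, hi.idem, by rw [st_add, st_st, add_comm], ?_, ?_⟩
  · rw [add_mul, he, ← st_eo h, ← st_mul, (h.alg.dg _ hm).comm_eo, he]
  · refine (Small.sup h.alg s1 s2).of_le (stab_im (add_mem hm hs)) ?_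
    rintro y ⟨z, rfl⟩
    change (π + st π) *ᵥ z ∈ _
    rw [Matrix.add_mulVec]
    exact Submodule.add_mem_sup ⟨z, rfl⟩ ⟨z, rfl⟩

end Pool.Agent.P.MP_f1a348_lc.PG
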