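import Pool.Agent.P.MP_f1a348_lc.PG.Iface

/-!
The value of a matrix cocycle on a separating reflection does not depend on the reflection.
-/

namespace Pool.Agent.P.MP_f1a348_lc.PG

open Matrix Module

namespace WDx

variable {p n : ℕ} {ℓ : Ix n → ℕ} {B : Sub p n}

/-- `ε` fixes one of the two vectors and kills the other one -/
def Sep (ε : Mat p n) (x y : Vec p n) : Prop :=
  (ε *ᵥ x = x ∧ ε *ᵥ y = 0) ∨ (ε *ᵥ x = 0 ∧ ε *ᵥ y = y)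

theorem Sep.symm {ε : Mat p n} {x y : Vec p n} (h : Sep ε x y) : Sep ε y x :=
  h.elim (fun e => Or.inr ⟨e.2, e.1⟩) fun e => Or.inl ⟨e.2, e.1⟩

theorem com_zero {ε k : Mat p n} (hε : Eps ℓ B ε) (hk : k ∈ Com B) {x y : Vec p n}
    (h : Sep ε x y) : ip (k *ᵥ x) y = 0 := by
  have e := hk ε hε.mem
  rcases h with ⟨h1, h2⟩ | ⟨h1, h2⟩
  · rw [← h1, Matrix.mulVec_mulVec, e, ← Matrix.mulVec_mulVec, ip_mulVec, hε.star, h2,
      ip_zero_right]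
  · rw [← h2, ip_mulVec_right, hε.star, Matrix.mulVec_mulVec, ← e, ← Matrix.mulVec_mulVec, h1,
      Matrix.mulVec_zero, ip_zero_left]

theorem z_fix {ε : Mat p n} {x : Vec p n} (h : ε *ᵥ x = x) :
    (1 - (2 : ZMod p) • ε) *ᵥ x = -x := by
  rw [Matrix.sub_mulVec, Matrix.one_mulVec, Matrix.smul_mulVec, h, two_smul]; abel

theorem z_kill {ε : Mat p n} {x : Vec p n} (h : ε *ᵥ x = 0) :
    (1 - (2 : ZMod p) • ε) *ᵥ x = x := by
  rw [Matrix.sub_mulVec, Matrix.one_mulVec, Matrix.smul_mulVec, h, smul_zero, sub_zero]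

theorem conj_neg {ε : Mat p n} (X : Mat p n) {x y : Vec p n} (h : Sep ε x y) :
    ip ((st (1 - (2 : ZMod p) • ε) * X * (1 - (2 : ZMod p) • ε)) *ᵥ x) y = -ip (X *ᵥ x) y := by
  rw [← Matrix.mulVec_mulVec, ← Matrix.mulVec_mulVec, ip_mulVec, st_st]
  rcases h with ⟨h1, h2⟩ | ⟨h1, h2⟩
  · rw [z_fix h1, z_kill h2, Matrix.mulVec_neg, ip_neg_left]
  · rw [z_kill h1, z_fix h2, ip_neg_right]

theorem perp_of_kill {ε : Mat p n} (hε : Eps ℓ B ε) {w : Vec p n} (h : ε *ᵥ w = 0) :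
    w ∈ perp (im ε) := by
  rintro _ ⟨t, rfl⟩
  change ip (ε *ᵥ t) w = 0
  rw [ip_mulVec, hε.star, h, ip_zero_right]

theorem kill_of_perp {ε : Mat p n} (hε : Eps ℓ B ε) {w : Vec p n} (h : w ∈ perp (im ε)) :
    ε *ᵥ w = 0 :=
  ip_nondeg fun t => by rw [ip_mulVec, hε.star, ip_comm]; exact h _ ⟨t, rfl⟩

theorem comm_of_kill {ε η : Mat p n} (hε : Eps ℓ B ε) (hη : Eps ℓ B η)
    (h : ∀ w ∈ im ε, η *ᵥ w = 0) : ε * η = η * ε := by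
  have e1 : η * ε = 0 := mat_ext fun t => by
    rw [← Matrix.mulVec_mulVec, h (ε *ᵥ t) ⟨t, rfl⟩, Matrix.zero_mulVec]
  have e2 : ε * η = 0 := by
    rw [← st_eq_zero, st_mul, hε.star, hη.star, e1]
  rw [e1, e2]

variable [Fact p.Prime]

theorem comm (hp : 5 ≤ p) (h : Str ℓ B) {a b : Ix n} {c : Mat p n → Mat p n}
    (hc : MCoc ℓ B a b c) {ε η : Mat p n} (hε : Eps ℓ B ε) (hη : Eps ℓ B η)
    (e : ε * η = η * ε) {x y : Vec p n} (s1 : Sep ε x y) (s2 : Sep η x y) :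
    ip (c (1 - (2 : ZMod p) • ε) *ᵥ x) y = ip (c (1 - (2 : ZMod p) • η) *ᵥ x) y := by
  have l1 := (refl_lo hp h hε.mem hε.idem hε.star hε.eo).1
  have l2 := (refl_lo hp h hη.mem hη.idem hη.star hη.eo).1
  have e' : (1 - (2 : ZMod p) • ε) * (1 - (2 : ZMod p) • η) =
      (1 - (2 : ZMod p) • η) * (1 - (2 : ZMod p) • ε) := by
    simp only [mul_sub, sub_mul, mul_one, one_mul, smul_mul_assoc, mul_smul_comm, e, smul_sub]
    abel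
  have k1 := com_zero hε (hc.mul _ l1 _ l2).1 s1
  have k2 := com_zero hε (hc.mul _ l2 _ l1).1 s1
  rw [Matrix.sub_mulVec, Matrix.add_mulVec, ip_sub_left, ip_add_left] at k1 k2
  rw [conj_neg _ s2, e'] at k1
  rw [conj_neg _ s1] at k2
  refine mul_left_cancel₀ (two_ne_zero' hp) ?_
  linear_combination k1 - k2

theorem same (hSEP : S_SEP p n) (h : Str ℓ B) (hb : Big ℓ B 30) {b : Ix n} (t : ¬ Triv ℓ B b)
    {u : Vec p n} (V : Mat p n → Vec p n → ZMod p)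
    (hadd : ∀ ε w w', V ε (w + w') = V ε w + V ε w')
    (hcom : ∀ ε η w, Eps ℓ B ε → Eps ℓ B η → ε * η = η * ε → Sep ε u w → Sep η u w →
      V ε w = V η w)
    {ε η : Mat p n} (hε : Eps ℓ B ε) (hη : Eps ℓ B η) (f1 : ε *ᵥ u = u) (f2 : η *ᵥ u = u)
    {w : Vec p n} (hw : w ∈ Vb ℓ b) (g1 : ε *ᵥ w = 0) (g2 : η *ᵥ w = 0) : V ε w = V η w := by
  have hW : Small ℓ B (2 + 2) (im ε ⊔ im η) := hε.small.sup h.alg hη.small
  have key : ∀ v ∈ Vb ℓ b, v ∈ perp (im ε ⊔ im η) → v ∉ im ε ⊔ im η → V ε v = V η v := by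
    intro v hv h1 h2
    obtain ⟨θ, hθ, a1, a2⟩ := hSEP ℓ B _ b v h hW.1 t hv h1 h2
    have a3 : θ *ᵥ u = 0 := a2 u (Submodule.mem_sup_left ⟨u, f1⟩)
    have b1 := hcom ε θ v hε hθ
      (comm_of_kill hε hθ fun w hw => a2 w (Submodule.mem_sup_left hw))
      (Or.inl ⟨f1, kill_of_perp hε (mem_perp_sup.1 h1).1⟩) (Or.inr ⟨a3, a1⟩)
    have b2 := hcom η θ v hη hθ
      (comm_of_kill hη hθ fun w hw => a2 w (Submodule.mem_sup_right hw))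
      (Or.inl ⟨f2, kill_of_perp hη (mem_perp_sup.1 h1).2⟩) (Or.inr ⟨a3, a1⟩)
    rw [b1, b2]
  have hp : w ∈ perp (im ε ⊔ im η) := mem_perp_sup.2 ⟨perp_of_kill hε g1, perp_of_kill hη g2⟩
  by_cases hm : w ∈ im ε ⊔ im η
  · obtain ⟨v, v1, v2, v3⟩ := out h hW hW (b := b) (lt_of_lt_of_le (by norm_num) (hb b t))
    have e : w = v + (w - v) := by abel
    have v4 : w - v ∉ im ε ⊔ im η := fun q => v3 (by simpa using sub_mem hm q)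
    rw [e, hadd, hadd, key v v1 v2 v3, key (w - v) (sub_mem hw v1) (sub_mem hp v2) v4]
  · exact key w hw hp hm

end WDx

open WDx in
theorem s_WD (p n : ℕ) [Fact p.Prime] (hp : 5 ≤ p) (hSEP : S_SEP p n) : S_WD p n := by
  intro ℓ B a b c h hb ta tb hc
  have same1 : ∀ {ε η : Mat p n} {x y : Vec p n}, Eps ℓ B ε → Eps ℓ B η → y ∈ Vb ℓ b →
      ε *ᵥ x = x → η *ᵥ x = x → ε *ᵥ y = 0 → η *ᵥ y = 0 →
      ip (c (1 - (2 : ZMod p) • ε) *ᵥ x) y = ip (c (1 - (2 : ZMod p) • η) *ᵥ x) y :=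
    fun {ε η x y} hε hη hy f1 f2 g1 g2 =>
      same hSEP h hb tb (fun ε w => ip (c (1 - (2 : ZMod p) • ε) *ᵥ x) w)
        (fun _ _ _ => ip_add_right _ _ _)
        (fun _ _ _ e1 e2 e s1 s2 => comm hp h hc e1 e2 e s1 s2) hε hη f1 f2 hy g1 g2
  have same2 : ∀ {ε η : Mat p n} {x y : Vec p n}, Eps ℓ B ε → Eps ℓ B η → x ∈ Vb ℓ a →
      ε *ᵥ y = y → η *ᵥ y = y → ε *ᵥ x = 0 → η *ᵥ x = 0 →
      ip (c (1 - (2 : ZMod p) • ε) *ᵥ x) y = ip (c (1 - (2 : ZMod p) • η) *ᵥ x) y :=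
    fun {ε η x y} hε hη hx f1 f2 g1 g2 =>
      same hSEP h hb ta (fun ε w => ip (c (1 - (2 : ZMod p) • ε) *ᵥ w) y)
        (fun _ _ _ => by rw [Matrix.mulVec_add, ip_add_left])
        (fun _ _ _ e1 e2 e s1 s2 => comm hp h hc e1 e2 e s1.symm s2.symm) hε hη f1 f2 hx g1 g2
  have cross : ∀ {ε η : Mat p n} {x y : Vec p n}, Eps ℓ B ε → Eps ℓ B η → x ∈ Vb ℓ a →
      y ∈ Vb ℓ b → ε *ᵥ x = x → ε *ᵥ y = 0 → η *ᵥ x = 0 → η *ᵥ y = y →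
      ip (c (1 - (2 : ZMod p) • ε) *ᵥ x) y = ip (c (1 - (2 : ZMod p) • η) *ᵥ x) y := by
    intro ε η x y hε hη hx hy f1 g1 g2 f2
    by_cases hm : y ∈ im ε
    · obtain ⟨t, ht⟩ := mem_im.1 hm
      have : y = 0 := by rw [← g1, ← ht, Matrix.mulVec_mulVec, hε.idem]
      rw [this, ip_zero_right, ip_zero_right]
    · obtain ⟨θ, hθ, a1, a2⟩ := hSEP ℓ B _ b y h hε.small.1 tb hy (perp_of_kill hε g1) hm
      have a3 : θ *ᵥ x = 0 := a2 x ⟨x, f1⟩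
      rw [comm hp h hc hε hθ (comm_of_kill hε hθ a2) (Or.inl ⟨f1, g1⟩) (Or.inr ⟨a3, a1⟩)]
      exact same2 hθ hη hx a1 f2 a3 g2
  classical
  refine ⟨fun x y => if e : ∃ ε, Eps ℓ B ε ∧ Sep ε x y then
    ip (c (1 - (2 : ZMod p) • e.choose) *ᵥ x) y else 0, fun ε hε x hx y hy s => ?_⟩
  have e : ∃ ε, Eps ℓ B ε ∧ Sep ε x y := ⟨ε, hε, s⟩
  simp only [dif_pos e]
  obtain ⟨hη, s'⟩ := e.choose_spec
  rcases s with ⟨f1, g1⟩ | ⟨g1, f1⟩ <;> rcases s' with ⟨f2, g2⟩ | ⟨g2, f2⟩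
  · exact same1 hε hη hy f1 f2 g1 g2
  · exact cross hε hη hx hy f1 g1 g2 f2
  · exact (cross hη hε hx hy f2 g2 g1 f1).symm
  · exact same2 hε hη hx f1 f2 g1 g2

end Pool.Agent.P.MP_f1a348_lc.PG
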