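import Pool.Agent.P.MP_f1a348_lc.PG.TACCT
import Pool.Agent.P.MP_f1a348_lc.PG.TADD
import Pool.Agent.P.MP_f1a348_lc.PG.TBAER
import Pool.Agent.P.MP_f1a348_lc.PG.TBIL
import Pool.Agent.P.MP_f1a348_lc.PG.TCLS
import Pool.Agent.P.MP_f1a348_lc.PG.TCLS2
import Pool.Agent.P.MP_f1a348_lc.PG.TCMP
import Pool.Agent.P.MP_f1a348_lc.PG.TCST
import Pool.Agent.P.MP_f1a348_lc.PG.TCUT
import Pool.Agent.P.MP_f1a348_lc.PG.TCW
import Pool.Agent.P.MP_f1a348_lc.PG.TDEC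
import Pool.Agent.P.MP_f1a348_lc.PG.TDFR
import Pool.Agent.P.MP_f1a348_lc.PG.TDUAL
import Pool.Agent.P.MP_f1a348_lc.PG.TEBAS
import Pool.Agent.P.MP_f1a348_lc.PG.TETA
import Pool.Agent.P.MP_f1a348_lc.PG.TEX
import Pool.Agent.P.MP_f1a348_lc.PG.TEX2
import Pool.Agent.P.MP_f1a348_lc.PG.TG1
import Pool.Agent.P.MP_f1a348_lc.PG.TG2
import Pool.Agent.P.MP_f1a348_lc.PG.TGAIN
import Pool.Agent.P.MP_f1a348_lc.PG.TGAIN0
import Pool.Agent.P.MP_f1a348_lc.PG.TGP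
import Pool.Agent.P.MP_f1a348_lc.PG.THALF
import Pool.Agent.P.MP_f1a348_lc.PG.THC
import Pool.Agent.P.MP_f1a348_lc.PG.THINV
import Pool.Agent.P.MP_f1a348_lc.PG.TINV
import Pool.Agent.P.MP_f1a348_lc.PG.TL1
import Pool.Agent.P.MP_f1a348_lc.PG.TLAMAA
import Pool.Agent.P.MP_f1a348_lc.PG.TLOC
import Pool.Agent.P.MP_f1a348_lc.PG.TLOC1
import Pool.Agent.P.MP_f1a348_lc.PG.TLOC2
import Pool.Agent.P.MP_f1a348_lc.PG.TLVL
import Pool.Agent.P.MP_f1a348_lc.PG.TMASCHKE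
import Pool.Agent.P.MP_f1a348_lc.PG.TMID
import Pool.Agent.P.MP_f1a348_lc.PG.TMKG
import Pool.Agent.P.MP_f1a348_lc.PG.TNAT1
import Pool.Agent.P.MP_f1a348_lc.PG.TNAT2
import Pool.Agent.P.MP_f1a348_lc.PG.TNAT3
import Pool.Agent.P.MP_f1a348_lc.PG.TNATUR
import Pool.Agent.P.MP_f1a348_lc.PG.TPC0
import Pool.Agent.P.MP_f1a348_lc.PG.TPCK
import Pool.Agent.P.MP_f1a348_lc.PG.TPCS
import Pool.Agent.P.MP_f1a348_lc.PG.TPEEL
import Pool.Agent.P.MP_f1a348_lc.PG.TPIN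
import Pool.Agent.P.MP_f1a348_lc.PG.TPL
import Pool.Agent.P.MP_f1a348_lc.PG.TPLP
import Pool.Agent.P.MP_f1a348_lc.PG.TPLP1
import Pool.Agent.P.MP_f1a348_lc.PG.TPLP4
import Pool.Agent.P.MP_f1a348_lc.PG.TPLP5
import Pool.Agent.P.MP_f1a348_lc.PG.TPOP
import Pool.Agent.P.MP_f1a348_lc.PG.TPOPN
import Pool.Agent.P.MP_f1a348_lc.PG.TPROG
import Pool.Agent.P.MP_f1a348_lc.PG.TREF
import Pool.Agent.P.MP_f1a348_lc.PG.TREL
import Pool.Agent.P.MP_f1a348_lc.PG.TRIG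
import Pool.Agent.P.MP_f1a348_lc.PG.TSEP
import Pool.Agent.P.MP_f1a348_lc.PG.TSEPI
import Pool.Agent.P.MP_f1a348_lc.PG.TSP
import Pool.Agent.P.MP_f1a348_lc.PG.TSPL
import Pool.Agent.P.MP_f1a348_lc.PG.TSTA
import Pool.Agent.P.MP_f1a348_lc.PG.TSTB
import Pool.Agent.P.MP_f1a348_lc.PG.TSTC
import Pool.Agent.P.MP_f1a348_lc.PG.TSTEP
import Pool.Agent.P.MP_f1a348_lc.PG.TSWAP
import Pool.Agent.P.MP_f1a348_lc.PG.TTENS
import Pool.Agent.P.MP_f1a348_lc.PG.TTR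
import Pool.Agent.P.MP_f1a348_lc.PG.TTRANS
import Pool.Agent.P.MP_f1a348_lc.PG.TTSM
import Pool.Agent.P.MP_f1a348_lc.PG.TWD
import Pool.Agent.P.MP_f1a348_lc.PG.QDefs

/-!
Project PG: all mathematical statements hold.
-/

namespace Pool.Agent.P.MP_f1a348_lc.PG

theorem all_math (p : ℕ) [Fact p.Prime] (hp : 5 ≤ p) (n : ℕ) : Mth p n := by
  have hCW : S_CW p n := s_CW p n hp
  have hSEPI : S_SEPI p n := s_SEPI p n hp
  have hTSM : S_TSM p n := s_TSM p n hp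
  have hSEP : S_SEP p n := s_SEP p n hp hSEPI hTSM
  have hSP : S_SP p n := s_SP p n hp hCW hSEPI
  have hSWAP : S_SWAP p n := s_SWAP p n hp hCW hSEPI
  have hTRANS : S_TRANS p n := s_TRANS p n hp hSWAP
  have hDFR : S_DFR p n := s_DFR p n hp hSEPI
  have hREL : S_REL p n := s_REL p n hp
  have hPEEL : S_PEEL p n := s_PEEL p n hp hREL
  have hTR : S_TR p n := s_TR p n hp hSP hPEEL
  have hRIG : S_RIG p n := s_RIG p n hp hTR hSEPI
  have hDUAL : S_DUAL p n := s_DUAL p n hp hTR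
  have hMASCHKE : S_MASCHKE p n := s_MASCHKE p n hp
  have hGP : S_GP p n := s_GP p n hp
  have hMID : S_MID p n := s_MID p n hp hMASCHKE hDUAL hDFR hTRANS hGP hTR
  have hLAMAA : S_LAMAA p n := s_LAMAA p n hp
  have hWD : S_WD p n := s_WD p n hp hSEP
  have hADD : S_ADD p n := s_ADD p n hp
  have hPL : S_PL p n := s_PL p n hp hADD
  have hBIL : S_BIL p n := s_BIL p n hp hWD hADD hPL hSEP
  have hEX2 : S_EX2 p n := s_EX2 p n hp hBIL hTSM hSEP hREL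
  have hEX : S_EX p n := s_EX p n hp hEX2
  have hHC : S_HC p n := s_HC p n hp hEX hLAMAA
  have hSTA : S_STA p n := s_STA p n hp
  have hSTB : S_STB p n := s_STB p n hp hMID hLAMAA hRIG
  have hSTC : S_STC p n := s_STC p n hp
  have hSTEP : S_STEP p n := s_STEP p n hp hSTA hSTB hSTC
  have hETA : S_ETA p n := s_ETA p n hp
  have hEBAS : S_EBAS p n := s_EBAS p n hp
  have hLOC1 : S_LOC1 p n := s_LOC1 p n hp hEBAS
  have hLOC2 : S_LOC2 p n := s_LOC2 p n hp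
  have hLOC : S_LOC p n := s_LOC p n hp hEBAS hLOC1 hLOC2
  have hCLS : S_CLS p n := s_CLS p n hp
  have hCLS2 : S_CLS2 p n := s_CLS2 p n hp hCLS
  have hACCT : S_ACCT := s_ACCT
  have hGAIN0 : S_GAIN0 p n := s_GAIN0 p n hp hETA hLOC hCLS hCLS2 hACCT
  have hREF : S_REF p n := s_REF p n hp
  have hGAIN : S_GAIN p n := s_GAIN p n hp hGAIN0 hREF
  have hG1 : S_G1 p n := s_G1 p n hp
  have hG2 : S_G2 p n := s_G2 p n hp
  have hACC0 : S_ACC0 p n := s_ACC0 hGAIN hG1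
  have hPIN : S_PIN p n := s_PIN p n hp hGAIN hACC0
  have hCMP : S_CMP p := s_CMP p hp
  have hL1 : S_L1 p := s_L1 p hp hCMP
  have hHALF : S_HALF p := s_HALF p hp hL1
  have hPOP : S_POP p := s_POP p hp
  have hPOPN : S_POPN p := s_POPN p hp
  have hDEC : S_DEC p n := s_DEC p n hp
  have hHINV : S_HINV p n := s_HINV p n hp hDEC hPOPN
  have hPLP1 : S_PLP1 p n := s_PLP1 p n hp hGAIN hG2 hACC0
  have hPLP4 : S_PLP4 p n := s_PLP4 p n hp hGAIN hG2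
  have hPLP5 : S_PLP5 p n := s_PLP5 p n hp hHALF hPOP hDEC
  have hPLP : S_PLP p n := s_PLP p n hp hPLP1 hPLP4 hPLP5 hHINV hACC0
  have hLVL : S_LVL p n := s_LVL p n hp hSTEP hHC hRIG hPLP hACC0
  have hPROG : S_PROG p n := s_PROG p n hp hLVL hPIN hCW hCLS
  have hNAT1 : S_NAT1 p n := s_NAT1 p n hp
  have hNAT2 : S_NAT2 p n := s_NAT2 p n hp hNAT1
  have hNAT3 : S_NAT3 p n := s_NAT3 p n hp hPOPN
  have hNATUR : S_NATUR p n := s_NATUR p n hp hNAT1 hNAT2 hNAT3 hHINV hSWAP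
  have hCUT : S_CUT n := s_CUT n
  have hSPL : S_SPL p n := s_SPL p n hp hCUT
  have hMKG : S_MKG p n := s_MKG p n hp
  have hINV : S_INV p n := s_INV p n hp
  have hPC0 : S_PC0 p n := s_PC0 p n hp
  have hPCS : S_PCS p n := s_PCS p n hp
  have hPCK : S_PCK p n := s_PCK p n hp hPCS
  have hCST : S_CST p n := s_CST p n hp
  have hBAER : S_BAER p := s_BAER p hp
  have hTENS : S_TENS p n := s_TENS p n hp hBAER
  exact ⟨hp, hPROG, hNATUR, hNAT2, hCUT, hSPL, hMKG, hREF, hINV, hCLS, hPC0, hPCS, hPCK, hCST,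
    hBAER, hTENS⟩

end Pool.Agent.P.MP_f1a348_lc.PG
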