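import Pool.Agent.P.MP_f1a348_lc.PG.QParse
import Pool.Agent.P.MP_f1a348_lc.GI.Prog
import Pool.Agent.Lib.Helper47.Pad

/-!
Project PG: the machine and its running time.
-/

namespace Pool.Agent.P.MP_f1a348_lc.PG

open Pool.Agent.Lib.Helper47

namespace QTimex

/-- the exponent of the padding -/
def ex (N : ℕ) : ℕ := 288 * (N.bits.length.bits.length + 4) ^ 2

theorem ex_eq (N : ℕ) : ex N = 288 * (Nat.size (Nat.size N) + 4) ^ 2 := by
  rw [ex, Nat.size_eq_bits_len, Nat.size_eq_bits_len]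

/-- the length of the padding -/
noncomputable def sp (x : List Bool) : ℕ := GI.ordN x ^ ex (GI.ordN x)

theorem size_le_self (m : ℕ) : Nat.size m ≤ m := Nat.size_le.2 Nat.lt_two_pow_self

theorem pt_sp : PT sp := by
  have h1 := GI.pt_ordN
  have h2 : PT (fun x => ex (GI.ordN x)) := by
    have : PT (fun x => 288 * (((GI.ordN x).bits.length.bits.length + 4) *
        ((GI.ordN x).bits.length.bits.length + 4))) := by fun_prop
    exact this.of_eq (fun x => by rw [ex, sq])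
  refine PT.pow h1 h2 ?_
  refine ((PB.const 288).mul ((PB.self.add (PB.const 4)).pow 2)).mono (fun x => ?_)
  rw [ex_eq]
  have a1 : GI.ordN x ≤ x.length := List.countP_le_length.trans (by simp)
  have a2 := length_lt_size x
  have a3 := size_le_self (GI.ordN x)
  have a4 := size_le_self (Nat.size (GI.ordN x))
  exact Nat.mul_le_mul_left _ (Nat.pow_le_pow_left (by omega) 2)

theorem ordN_eq {G H : Type} [Group G] [Group H] {N : ℕ} (e : Fin N ≃ G) (e' : Fin N ≃ H) :
    GI.ordN (GI.tbits e ++ GI.tbits e') = N := by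
  have hN : 0 < N := Fin.pos (e.symm 1)
  have hl : (GI.tbits e ++ GI.tbits e').length = 2 * (N * N * N) := by
    rw [List.length_append, GI.length_tbits, GI.length_tbits]; ring
  rw [GI.ordN, hl]
  refine GI.countP_range_lt _ _ (by nlinarith [Nat.mul_pos hN hN]) _ (fun i => ?_)
  rw [Nat.ble_eq]
  constructor
  · intro h
    by_contra hc
    have h1 : N < i + 1 := by omega
    have := Nat.mul_lt_mul'' (Nat.mul_lt_mul'' h1 h1) h1
    omega
  · intro h
    have := Nat.mul_le_mul (Nat.mul_le_mul (Nat.succ_le_of_lt h) (Nat.succ_le_of_lt h))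
      (Nat.succ_le_of_lt h)
    simp only [Nat.succ_eq_add_one] at this
    omega

theorem idx_lt {N : ℕ} (a b c : Fin N) : (a * N + b) * N + c < N * N * N := by
  have h1 : a * N + b < N * N := by nlinarith [a.2, b.2]
  nlinarith [c.2]

theorem tbl1 {G H : Type} [Group G] [Group H] {N : ℕ} (e : Fin N ≃ G) (e' : Fin N ≃ H) :
    Tbl e (List.range N, GI.tbits e ++ GI.tbits e', 0) :=
  ⟨rfl, fun a b c => by
    dsimp only
    rw [zero_add, List.getD_append _ _ _ _ (by rw [GI.length_tbits]; exact idx_lt a b c),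
      GI.tbits_getD]⟩

theorem tbl2 {G H : Type} [Group G] [Group H] {N : ℕ} (e : Fin N ≃ G) (e' : Fin N ≃ H) :
    Tbl e' (List.range N, GI.tbits e ++ GI.tbits e', N * N * N) :=
  ⟨rfl, fun a b c => by
    dsimp only
    rw [List.getD_append_right _ _ _ _ (by rw [GI.length_tbits]; omega), GI.length_tbits,
      Nat.add_sub_cancel_left, GI.tbits_getD]⟩

theorem bud_le {p n N : ℕ} (hp : 2 ≤ p) (hn : 0 < n) (h : p ^ n = N) :
    p ^ bud n ≤ N ^ ex N := by
  have h1 : n < Nat.size N := Nat.lt_size.2 (h ▸ Nat.pow_le_pow_left hp n)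
  have h2 := Nat.lt_size_self (Nat.size N)
  rw [ex_eq]
  generalize Nat.size (Nat.size N) = l at h2 ⊢
  have h3 : Nat.size (2 * (2 * n + 1)) ≤ l + 2 := Nat.size_le.2 (by rw [pow_add]; omega)
  have h4 : Nat.size (2 * n + 1) ≤ l + 2 := Nat.size_le.2 (by rw [pow_add]; omega)
  rw [← h, ← pow_mul]
  refine Nat.pow_le_pow_right (by omega) ?_
  have h5 : tt n ≤ 6 * (l + 4) := by unfold tt; omega
  calc bud n ≤ 16 * (6 * (l + 4)) * ((3 * n) * (l + 4)) :=
        Nat.mul_le_mul (Nat.mul_le_mul_left _ h5) (Nat.mul_le_mul (by omega) (by omega))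
    _ = _ := by ring

theorem size_le_logb {m : ℕ} (hm : 0 < m) : (Nat.size m : ℝ) ≤ Real.logb 2 m + 1 := by
  have h1 : 0 < Nat.size m := Nat.size_pos.2 hm
  obtain ⟨k, hk⟩ := Nat.exists_eq_succ_of_ne_zero h1.ne'
  have h2 : 2 ^ k ≤ m := Nat.lt_size.1 (by omega)
  have h3 : (k : ℝ) ≤ Real.logb 2 m := by
    rw [Real.le_logb_iff_rpow_le one_lt_two (by exact_mod_cast hm), Real.rpow_natCast]
    exact_mod_cast h2
  rw [hk]
  push_cast
  linarith

theorem ex_le {N : ℕ} (hN : 4 ≤ N) :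
    (ex N : ℝ) ≤ 288 * 49 * Real.logb 2 (Real.logb 2 N) ^ 2 := by
  have hN' : (4 : ℝ) ≤ N := by exact_mod_cast hN
  have h1 : (2 : ℝ) ≤ Real.logb 2 N := by
    rw [Real.le_logb_iff_rpow_le one_lt_two (by linarith)]
    norm_num
    exact hN
  have h2 : (1 : ℝ) ≤ Real.logb 2 (Real.logb 2 N) := by
    rw [Real.le_logb_iff_rpow_le one_lt_two (by linarith), Real.rpow_one]
    exact h1
  have h3 := size_le_logb (show 0 < N by omega)
  have h0 : 0 < Nat.size N := Nat.size_pos.2 (by omega)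
  have h4 := size_le_logb h0
  have h5 : Real.logb 2 (Nat.size N) ≤ Real.logb 2 (2 * Real.logb 2 N) :=
    Real.logb_le_logb_of_le one_lt_two (by exact_mod_cast h0) (by linarith)
  rw [Real.logb_mul two_ne_zero (by linarith), Real.logb_self_eq_one one_lt_two] at h5
  rw [ex_eq]
  push_cast
  have h6 : ((Nat.size (Nat.size N) : ℕ) : ℝ) + 4 ≤ 7 * Real.logb 2 (Real.logb 2 N) := by
    linarith
  have h7 := pow_le_pow_left₀ (by positivity) h6 2
  nlinarith

theorem time_le (c d : ℕ) {N : ℕ} (hN : N = 1 ∨ 4 ≤ N) :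
    ((c * (2 * (N * N * N) + N ^ ex N + 1) ^ d : ℕ) : ℝ) ≤ ((c * 4 ^ d + 288 * 49 * d : ℕ) : ℝ) *
      (N : ℝ) ^ (((c * 4 ^ d + 288 * 49 * d : ℕ) : ℝ) * Real.logb 2 (Real.logb 2 N) ^ 2) := by
  have hN0 : 0 < N := by omega
  have h1 : N * N * N ≤ N ^ ex N := by
    refine le_trans (le_of_eq (by ring)) (Nat.pow_le_pow_right hN0 (show 3 ≤ _ from ?_))
    rw [ex_eq]
    have := pow_pos (show 0 < Nat.size (Nat.size N) + 4 by omega) 2
    omega
  have h2 : 0 < N ^ ex N := pow_pos hN0 _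
  have h3 : c * (2 * (N * N * N) + N ^ ex N + 1) ^ d ≤ c * 4 ^ d * N ^ (ex N * d) := by
    rw [mul_assoc c, pow_mul, ← mul_pow]
    exact Nat.mul_le_mul_left _ (Nat.pow_le_pow_left (by omega) d)
  have h4 : ((N ^ (ex N * d) : ℕ) : ℝ) ≤
      (N : ℝ) ^ (((c * 4 ^ d + 288 * 49 * d : ℕ) : ℝ) * Real.logb 2 (Real.logb 2 N) ^ 2) := by
    rcases hN with rfl | hN
    · simp
    · rw [Nat.cast_pow, ← Real.rpow_natCast]
      refine Real.rpow_le_rpow_of_exponent_le (by exact_mod_cast hN0) ?_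
      have h5 := mul_le_mul_of_nonneg_right (ex_le hN) (Nat.cast_nonneg (α := ℝ) d)
      have h6 : (0 : ℝ) ≤ c * 4 ^ d * Real.logb 2 (Real.logb 2 N) ^ 2 := by positivity
      push_cast
      nlinarith
  calc ((c * (2 * (N * N * N) + N ^ ex N + 1) ^ d : ℕ) : ℝ)
      ≤ ((c * 4 ^ d : ℕ) : ℝ) * ((N ^ (ex N * d) : ℕ) : ℝ) := by exact_mod_cast h3
    _ ≤ _ := mul_le_mul (by exact_mod_cast Nat.le_add_right _ _) h4 (Nat.cast_nonneg _)
        (Nat.cast_nonneg _)

end QTimex

open Classical in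
theorem final (hPT : PT (fun x : U × Tb × Tb => mainP x.1 x.2.1 x.2.2))
    (m : ∀ (p : ℕ) [Fact p.Prime], 5 ≤ p → ∀ n, Mth p n) :
    ∃ M : BTM, M.Fin ∧ ∃ C : ℝ, ∀ p : ℕ, p.Prime → 5 ≤ p →
      ∀ (G H : Type) [Group G] [Group H], Cl2 p G → Cl2 p H →
      ∀ (N : ℕ) (e : Fin N ≃ G) (e' : Fin N ≃ H), ∃ t : ℕ,
        (t : ℝ) ≤ C * (N : ℝ) ^ (C * Real.logb 2 (Real.logb 2 N) ^ 2) ∧
        Out M (GI.tbits e ++ GI.tbits e') [decide (Nonempty (G ≃* H))] t := by
  have h1 := GI.pt_ordN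
  have h2 := GI.pt_range
  have h3 : PT (fun x : List Bool => (((List.range (GI.ordN x), x, 0) : Tb),
      ((List.range (GI.ordN x), x, GI.ordN x * GI.ordN x * GI.ordN x) : Tb))) := by fun_prop
  have hF : PT (fun x : Pad (List Bool) QTimex.sp =>
      [mainP (List.replicate (QTimex.sp x.val) ()) (List.range (GI.ordN x.val), x.val, 0)
        (List.range (GI.ordN x.val), x.val, GI.ordN x.val * GI.ordN x.val * GI.ordN x.val)]) :=
    PT.cons (hPT.comp (PT.prodMk PT.padList (h3.comp (PT.padVal PT.id)))) (PT.const [])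
  obtain ⟨M, q, hM, hq⟩ := (Constr.of_PT QTimex.pt_sp).btm
    (F := fun x => [mainP (List.replicate (QTimex.sp x) ()) (List.range (GI.ordN x), x, 0)
        (List.range (GI.ordN x), x, GI.ordN x * GI.ordN x * GI.ordN x)]) hF
  obtain ⟨c, d, hc⟩ := eval_le_pow q
  refine ⟨M, hM, ((c * 4 ^ d + 288 * 49 * d : ℕ) : ℝ), fun p hp h5 G H _ _ hG hH N e e' => ?_⟩
  have : Fact p.Prime := ⟨hp⟩
  have ho := QTimex.ordN_eq e e'
  have hs : QTimex.sp (GI.tbits e ++ GI.tbits e') = N ^ QTimex.ex N := by rw [QTimex.sp, ho]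
  have hl : (GI.tbits e ++ GI.tbits e').length = 2 * (N * N * N) := by
    rw [List.length_append, GI.length_tbits, GI.length_tbits]; ring
  have hN : N = 1 ∨ 4 ≤ N := by
    obtain ⟨k, rfl⟩ := card_eq e hG
    rcases k with _ | k
    · exact Or.inl rfl
    · exact Or.inr (le_trans (by omega) (Nat.le_self_pow (Nat.succ_ne_zero k) p))
  have hO := hq (GI.tbits e ++ GI.tbits e')
  rw [ho, hs, hl] at hO
  refine ⟨q.eval (2 * (N * N * N) + N ^ QTimex.ex N), le_trans ?_ (QTimex.time_le c d hN), ?_⟩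
  rotate_left
  · have hb : mainP (List.replicate (N ^ QTimex.ex N) ())
        (List.range N, GI.tbits e ++ GI.tbits e', 0)
        (List.range N, GI.tbits e ++ GI.tbits e', N * N * N) = decide (Nonempty (G ≃* H)) := by
      rw [Bool.eq_iff_iff, decide_eq_true_iff]
      exact mainP_spec (m p h5) (QTimex.tbl1 e e') (QTimex.tbl2 e e') hG hH fun n hn h => by
        rw [List.length_replicate]
        exact QTimex.bud_le hp.two_le hn h
    rw [hb] at hO
    exact hO
  · exact_mod_cast hc _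

end Pool.Agent.P.MP_f1a348_lc.PG
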