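import Pool.Agent.P.MP_f1a348_lc.PG.Iface

/-! The accounting of the potential. -/

namespace Pool.Agent.P.MP_f1a348_lc.PG

namespace ACCTx

theorem half {d d' : ℕ} (h0 : 0 < d') (h : 2 * d' ≤ d) : Nat.size d' + 1 ≤ Nat.size d := by
  have h1 : 0 < Nat.size d' := Nat.size_pos.2 h0
  have h2 : 2 ^ (Nat.size d' - 1) ≤ d' := Nat.lt_size.1 (by omega)
  refine Nat.lt_size.2 (le_trans ?_ h)
  rw [show Nat.size d' = Nat.size d' - 1 + 1 by omega, pow_succ]
  omega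

theorem loc {k e k' e' m : ℕ} (he : 0 < e) (hk : e ∣ k) (hm : m ≤ k) (hk' : 0 < k') (he' : e' ∣ k')
    (h0 : 0 < m) (h1 : k' ^ 2 * e ≤ m ^ 2 * e') (h2 : k' ∣ m) (h3 : e ∣ m) (h4 : m = k' → e ∣ e') :
    k' * (2 + Nat.size (k' / e')) ≤ m * (2 + Nat.size (k / e)) ∧
      (2 * (k' * (2 + Nat.size (k' / e'))) + m ≤ 2 * (m * (2 + Nat.size (k / e))) ∨
        (m = k' ∧ e = e' ∧ k < 2 * m)) := by
  obtain ⟨d, rfl⟩ := hk
  obtain ⟨d', hd'⟩ := he'
  obtain ⟨μ, hμ⟩ := h2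
  obtain ⟨δ, hδ⟩ := h3
  have a1 : 0 < e' := Nat.pos_of_mul_pos_right (hd' ▸ hk')
  have a2 : 0 < d' := Nat.pos_of_mul_pos_left (hd' ▸ hk')
  have a3 : δ ≤ d := Nat.le_of_mul_le_mul_left (hδ ▸ hm) he
  have a4 : 0 < δ := Nat.pos_of_mul_pos_left (hδ ▸ h0)
  have a5 : 0 < μ := Nat.pos_of_mul_pos_left (hμ ▸ h0)
  have a6 : d' ≤ μ * δ := by
    refine Nat.le_of_mul_le_mul_left (c := k' * e' * e) ?_ (by positivity)
    calc k' * e' * e * d' = k' * (e' * d') * e := by ring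
      _ = k' ^ 2 * e := by rw [← hd', sq]
      _ ≤ m * m * e' := by rw [← sq]; exact h1
      _ = k' * μ * (e * δ) * e' := by rw [← hμ, ← hδ]
      _ = _ := by ring
  have e1 : k' / e' = d' := by rw [hd', Nat.mul_div_cancel_left _ a1]
  rw [e1, Nat.mul_div_cancel_left _ he]
  have s1 : 0 < Nat.size d := Nat.size_pos.2 (by omega)
  suffices h : 2 * (k' * (2 + Nat.size d')) + m ≤ 2 * (m * (2 + Nat.size d)) ∨
      (m = k' ∧ e = e' ∧ e * d < 2 * m ∧ d' ≤ d) by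
    rcases h with h | ⟨b1, b2, b3, b4⟩
    · exact ⟨by omega, .inl h⟩
    · exact ⟨b1 ▸ Nat.mul_le_mul_left _ (Nat.add_le_add_left (Nat.size_le_size b4) _),
        .inr ⟨b1, b2, b3⟩⟩
  rcases (show 2 ≤ μ ∨ μ = 1 by omega) with c | rfl
  · left
    have b1 : Nat.size d' ≤ Nat.size μ + Nat.size d := by
      rw [Nat.size_le, pow_add]
      exact (a6.trans (Nat.mul_le_mul_left _ a3)).trans_lt
        (Nat.mul_lt_mul'' (Nat.lt_size_self μ) (Nat.lt_size_self d))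
    have b2 : Nat.size μ ≤ μ := Nat.size_le.2 Nat.lt_two_pow_self
    have b3 : 2 * (2 + Nat.size d') + μ ≤ 2 * (μ * (2 + Nat.size d)) := by
      obtain ⟨u, rfl⟩ := Nat.exists_eq_add_of_le c
      nlinarith [Nat.mul_le_mul_left u s1]
    calc _ = k' * (2 * (2 + Nat.size d') + μ) := by rw [hμ]; ring
      _ ≤ k' * (2 * (μ * (2 + Nat.size d))) := Nat.mul_le_mul_left _ b3
      _ = _ := by rw [hμ]; ring
  · rw [mul_one] at hμ
    by_cases c : 2 * d' ≤ d
    · left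
      have := Nat.mul_le_mul_left m (half a2 c)
      rw [← hμ, mul_add m, mul_add m]
      rw [mul_add] at this
      omega
    · obtain ⟨j, rfl⟩ := h4 hμ
      have b1 : δ = j * d' := Nat.eq_of_mul_eq_mul_left he (by rw [← hδ, hμ, hd', mul_assoc])
      have b2 : 0 < j := Nat.pos_of_mul_pos_left a1
      obtain rfl : j = 1 := by
        by_contra b
        have := Nat.mul_le_mul_right d' (show 2 ≤ j by omega)
        omega
      refine .inr ⟨hμ, (mul_one e).symm, ?_, by omega⟩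
      rw [hδ, mul_left_comm]
      exact Nat.mul_lt_mul_of_pos_left (by omega) he

end ACCTx

open Finset in
theorem s_ACCT : S_ACCT := by
  classical
  intro I J _ _ k e k' e' m nt Φ Φ' h1 h2 h3 h4 hΦ hΦ'
  choose o ho using h3
  obtain ⟨L, hL⟩ : ∃ L : I → J → ℕ, ∀ A X, L A X =
      if ∃ h : nt X, A = o X h then k' X * (2 + Nat.size (k' X / e' X)) else 0 := ⟨_, fun _ _ => rfl⟩
  have le : ∀ A X, m A X ≤ k A := fun A X =>
    (h1 A).2.2 ▸ single_le_sum (f := m A) (fun _ _ => Nat.zero_le _) (mem_univ X)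
  have key : ∀ A X, ∃ g, g + L A X = m A X * (2 + Nat.size (k A / e A)) ∧
      ((¬ ∃ h : nt X, A = o X h) → 2 * m A X ≤ g) ∧
      (m A X ≤ 2 * g ∨ ((∃ h : nt X, A = o X h) ∧ m A X = k' X ∧ e A = e' X ∧ k A < 2 * m A X)) := by
    intro A X
    by_cases c : ∃ h : nt X, A = o X h
    · have c' := c
      obtain ⟨h, e1⟩ := c'
      have p : 0 < m A X := e1 ▸ ho X h
      obtain ⟨b1, b2, b3, b4⟩ := h4 A X p
      obtain ⟨l1, l2⟩ := ACCTx.loc (h1 A).1 (h1 A).2.1 (le A X) (h2 X).1 (h2 X).2 p b1 b2 b3 b4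
      rw [hL, if_pos c]
      exact ⟨_, Nat.sub_add_cancel l1, fun n => absurd c n, l2.imp (by omega) fun t => ⟨c, t⟩⟩
    · rw [hL, if_neg c]
      refine ⟨_, add_zero _, fun _ => ?_, .inl ?_⟩ <;> rw [mul_add] <;> omega
  choose g g1 g2 g3 using key
  have e1 : Φ = ∑ A, ∑ X, g A X + Φ' := by
    have : Φ' = ∑ A, ∑ X, L A X := by
      rw [hΦ', sum_comm]
      refine sum_congr rfl fun X _ => ?_
      by_cases c : nt X <;> simp [hL, c]
    rw [this, ← sum_add_distrib, hΦ]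
    refine sum_congr rfl fun A _ => ?_
    rw [← sum_add_distrib, sum_congr rfl fun X _ => g1 A X, ← sum_mul, ← (h1 A).2.2]
  have e2 : Φ - Φ' = ∑ A, ∑ X, g A X := by omega
  refine ⟨by omega, fun A => ?_⟩
  rw [e2]
  have r : ∑ X, g A X ≤ ∑ A, ∑ X, g A X :=
    single_le_sum (f := fun A => ∑ X, g A X) (fun _ _ => Nat.zero_le _) (mem_univ A)
  by_cases c : ∀ X, m A X ≤ 2 * g A X
  · left
    rw [(h1 A).2.2]
    refine (sum_le_sum fun X _ => c X).trans ?_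
    rw [← mul_sum]
    omega
  obtain ⟨X, hX⟩ := not_forall.1 c
  obtain ⟨⟨n1, n2⟩, n3, n4, n5⟩ := (g3 A X).resolve_left hX
  have s1 := add_sum_erase univ (m A) (mem_univ X)
  rw [← (h1 A).2.2] at s1
  have s2 : ∑ Y ∈ univ.erase X, m A Y ≤ 2 * ∑ Y, g A Y := by
    refine le_trans (sum_le_sum fun Y hY => (g3 A Y).resolve_right fun t => ?_)
      ((mul_sum _ _ _).ge.trans (Nat.mul_le_mul_left 2 (sum_le_sum_of_subset (erase_subset X _))))
    have := single_le_sum (f := m A) (fun _ _ => Nat.zero_le _) hY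
    omega
  by_cases c' : ∀ A', A' ≠ A → m A' X = 0
  · exact .inr ⟨X, n1, n3, n4, c', by omega⟩
  · left
    push Not at c'
    obtain ⟨A', a1, a2⟩ := c'
    have a3 := Nat.le_of_dvd (Nat.pos_of_ne_zero a2) (h4 A' X (Nat.pos_of_ne_zero a2)).2.1
    have a4 := g2 A' X fun ⟨_, t⟩ => a1 (t.trans n2.symm)
    have a5 : g A' X ≤ ∑ Y, g A' Y := single_le_sum (fun _ _ => Nat.zero_le _) (mem_univ X)
    have a6 := add_sum_erase univ (fun A => ∑ X, g A X) (mem_univ A)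
    have a7 : ∑ Y, g A' Y ≤ ∑ B ∈ univ.erase A, ∑ Y, g B Y :=
      single_le_sum (f := fun B => ∑ Y, g B Y) (fun _ _ => Nat.zero_le _) (by simpa using a1)
    omega

end Pool.Agent.P.MP_f1a348_lc.PG
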