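import Pool.Agent.P.MP_f1a348_lc.PG.Iface

/-!
Project PG: the decomposition of the slices of a trace form, and its converse.
-/

namespace Pool.Agent.P.MP_f1a348_lc.PG

open Matrix Module

namespace DECx

variable {p n : ℕ} {ℓ : Ix n → ℕ}

/-- `cmb L` as a linear map -/
noncomputable def cmbL (L : List (Mat p n)) : Vec p n →ₗ[ZMod p] Mat p n where
  toFun := cmb L
  map_add' := cmb_add L
  map_smul' := cmb_smul L

/-- the plain dot product with `κ` -/
noncomputable def dotL (κ : Vec p n) : Vec p n →ₗ[ZMod p] ZMod p where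
  toFun z := ∑ i, κ i * z i
  map_add' x y := by simp [mul_add, Finset.sum_add_distrib]
  map_smul' c x := by simp [Finset.mul_sum, mul_left_comm]

theorem lin_exp {X : Type} [AddCommGroup X] [Module (ZMod p) X] (f : Vec p n →ₗ[ZMod p] X)
    (x : Vec p n) : f x = ∑ α, x α • f (Pi.single α 1) := by
  conv_lhs => rw [pi_eq_sum_univ' x]
  rw [map_sum]
  exact Finset.sum_congr rfl fun α _ => by rw [map_smul]

theorem au_smul (c : ZMod p) (θ : Frm p n) (u y : Vec p n) : au (c • θ) u y = c • au θ u y :=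
  ip_ext fun z => by simp only [ip_smul_left, ip_au, ev_smul]

theorem au_zero (u y : Vec p n) : au (0 : Frm p n) u y = 0 :=
  ip_ext fun z => by rw [ip_au, ev_zero]; simp [ip]

theorem au0 (C : Mat p n) (v u y : Vec p n) : au (trf 0 C v) u y = ip v u • C *ᵥ y :=
  ip_ext fun z => by
    rw [ip_au, ev_trf, ip_smul_left, ip_comm v u, mul_comm]; rfl

theorem au1 (C : Mat p n) (v u y : Vec p n) : au (trf 1 C v) u y = ip v y • st C *ᵥ u :=
  ip_ext fun z => by
    rw [ip_au, ev_trf, ip_smul_left, ip_comm v y, mul_comm, ip_comm (st C *ᵥ u), ← ip_mulVec]; rfl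

theorem au2 (C : Mat p n) (v u y : Vec p n) : au (trf 2 C v) u y = ip (C *ᵥ u) y • v :=
  ip_ext fun z => by
    rw [ip_au, ev_trf, ip_smul_left, ip_comm v z]; rfl

theorem ip_cmb (L : List (Mat p n)) (κ u y : Vec p n) :
    ip (cmb L κ *ᵥ u) y = ∑ i, κ i * ip (L.getD i.val 0 *ᵥ u) y := by
  rw [cmb, Matrix.sum_mulVec, ip_sum_left]
  exact Finset.sum_congr rfl fun i _ => by rw [Matrix.smul_mulVec, ip_smul_left]

/-- the statement of the first part -/
def PP (ℓ : Ix n → ℕ) (s : Side p n) (a : Fin 3 → Ix n) (τ : Frm p n) : Prop :=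
  ∃ k0 k1 ψ, Dcp ℓ s a τ Set.univ k0 k1 ψ ∧
    ∀ u (α : Ix n), (Cso ℓ s (a 2).rev (a 1)).length ≤ α.val → k0 u α = 0

theorem pp_gen [Fact p.Prime] {s : Side p n} (h : Good ℓ s) (a : Fin 3 → Ix n) (m : Fin 3)
    {C : Mat p n} (hC : C ∈ Co ℓ s.B) (v : Vec p n) :
    PP ℓ s a (cmp ℓ (key ℓ a) (trf m C v)) := by
  have hA := h.str.alg
  rw [cmp_key h.str.lab, pull_trf, st_pr h.str.lab, st_pr h.str.lab]
  have h1 : pr ℓ (a (m + 2)).rev * C * pr ℓ (a (m + 1)) ∈ Cb ℓ s.B (a (m + 2)).rev (a (m + 1)) :=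
    cb_of_com hA hC.1 _ _
  have h2 : pr ℓ (a (m + 2)).rev * C * pr ℓ (a (m + 1)) ∈ Co ℓ s.B :=
    co_mul' h.str (co_mul (com_pr hA _) hC) (com_pr hA _)
  generalize pr ℓ (a (m + 2)).rev * C * pr ℓ (a (m + 1)) = D at h1 h2
  generalize pr ℓ (a m).rev *ᵥ v = w
  have hm : m = 0 ∨ m = 1 ∨ m = 2 := by clear h1; revert m; decide
  rcases hm with rfl | rfl | rfl
  · obtain ⟨κ, hκ, e⟩ := exists_cmb (h.length_cso_le (a 2).rev (a 1)) (C := D)
      (by rw [h.spL_cso]; exact ⟨h1, h2⟩)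
    refine ⟨(ipL w).smulRight κ, 0, 0, fun u _ y _ => ?_, fun u α hα => ?_⟩
    · rw [au0, LinearMap.smulRight_apply, cmb_smul, e, ipL_apply]
      simp [Matrix.smul_mulVec]
    · simp [hκ α hα]
  · have h3 : st D ∈ Cb ℓ s.B (a 2).rev (a 0) := by
      have := cb_st h.str.lab hA h1
      rwa [Fin.rev_rev] at this
    obtain ⟨κ, -, e⟩ := exists_cmb (h.length_cso_le (a 2).rev (a 0)) (C := st D)
      (by rw [h.spL_cso]; exact ⟨h3, co_st h.str h2⟩)
    refine ⟨0, (ipL w).smulRight κ, 0, fun u _ y _ => ?_, fun u α _ => rfl⟩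
    rw [au1, LinearMap.smulRight_apply, cmb_smul, e, ipL_apply]
    simp [Matrix.smul_mulVec]
  · obtain ⟨κ, -, e⟩ := exists_cmb (h.length_cso_le (a 1).rev (a 0)) (C := D)
      (by rw [h.spL_cso]; exact ⟨h1, h2⟩)
    refine ⟨0, 0, (dotL κ).smulRight w, fun u _ y _ => ?_, fun u α _ => rfl⟩
    rw [au2, LinearMap.smulRight_apply, ← e, ip_cmb]
    simp [dotL]

theorem pp_all [Fact p.Prime] {s : Side p n} (h : Good ℓ s) (a : Fin 3 → Ix n) {τ : Frm p n}
    (hτ : τ ∈ Tr ℓ s.B) : PP ℓ s a (cmp ℓ (key ℓ a) τ) := by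
  induction hτ using Submodule.span_induction with
  | mem x hx =>
    obtain ⟨m, C, hC, v, rfl⟩ := hx
    exact pp_gen h a m hC v
  | zero =>
    refine ⟨0, 0, 0, fun u _ y _ => ?_, fun u α _ => rfl⟩
    rw [map_zero, au_zero]; simp
  | add x y _ _ hx hy =>
    obtain ⟨k0, k1, ψ, d, e⟩ := hx
    obtain ⟨k0', k1', ψ', d', e'⟩ := hy
    refine ⟨k0 + k0', k1 + k1', ψ + ψ', fun u hu z hz => ?_, fun u α hα => ?_⟩
    · rw [map_add, au_add, d u hu z hz, d' u hu z hz]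
      simp only [LinearMap.add_apply, cmb_add, Matrix.add_mulVec]
      abel
    · simp [e u α hα, e' u α hα]
  | smul c x _ hx =>
    obtain ⟨k0, k1, ψ, d, e⟩ := hx
    refine ⟨c • k0, c • k1, c • ψ, fun u hu z hz => ?_, fun u α hα => ?_⟩
    · rw [map_smul, au_smul, d u hu z hz]
      simp only [LinearMap.smul_apply, cmb_smul, Matrix.smul_mulVec, smul_add]
    · simp [e u α hα]

theorem ip_cmb_lin (L : List (Mat p n)) (k : Vec p n →ₗ[ZMod p] Vec p n) (x y z : Vec p n) :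
    ip (cmb L (k x) *ᵥ y) z = ∑ α, ip (cmb L (k (Pi.single α 1)) *ᵥ y) z * x α := by
  have := lin_exp (cmbL L ∘ₗ k) x
  change cmb L (k x) = ∑ α, x α • cmb L (k (Pi.single α 1)) at this
  rw [this, Matrix.sum_mulVec, ip_sum_left]
  exact Finset.sum_congr rfl fun α _ => by rw [Matrix.smul_mulVec, ip_smul_left, mul_comm]

end DECx

open DECx in
theorem s_DEC (p n : ℕ) [Fact p.Prime] (hp : 5 ≤ p) : S_DEC p n := by
  intro ℓ s a h
  refine ⟨fun τ hτ hw => ?_, fun θ hθ k0 k1 ψ d => ?_⟩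
  · have := pp_all h a hτ
    rwa [mem_Wt_iff.1 hw] at this
  · have hτ : ∑ α : Ix n, trf 0 (cmb (Cso ℓ s (a 2).rev (a 1)) (k0 (Pi.single α 1)))
          (Pi.single α.rev 1) +
        ∑ α : Ix n, trf 1 (st (cmb (Cso ℓ s (a 2).rev (a 0)) (k1 (Pi.single α 1))))
          (Pi.single α.rev 1) +
        ∑ i : Ix n, trf 2 ((Cso ℓ s (a 1).rev (a 0)).getD i.val 0) (ψ (Pi.single i 1)) ∈
          Tr ℓ s.B := by
      refine add_mem (add_mem (Submodule.sum_mem _ fun α _ => ?_)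
        (Submodule.sum_mem _ fun α _ => ?_)) (Submodule.sum_mem _ fun i _ => ?_)
      · exact trf_mem_Tr 0 (h.cmb_mem _ _ _).2 _
      · exact trf_mem_Tr 1 (co_st h.str (h.cmb_mem _ _ _).2) _
      · have := getD_mem_spL (p := p) (Cso ℓ s (a 1).rev (a 0)) i.val
        rw [h.spL_cso] at this
        exact trf_mem_Tr 2 this.2 _
    have hc := cmp_mem_Tr h.str (key ℓ a) hτ
    refine (Wt_ext h.str.lab hθ (cmp_mem _ _) fun x hx => ?_) ▸ hc
    have ex : x = ![x 0, x 1, x 2] := by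
      funext j; fin_cases j <;> rfl
    rw [ev_cmp h.str.lab _ hx]
    conv_lhs => rw [ex, ← ip_au, d _ (hx 0) _ (hx 1)]
    rw [ip_add_left, ip_add_left, ev_add, ev_add, ev_sum, ev_sum, ev_sum, ip_cmb_lin, ip_cmb_lin,
      lin_exp ψ, ip_sum_left]
    congr 1
    · congr 1
      · refine Finset.sum_congr rfl fun α _ => ?_
        rw [ev_trf, ip_single_right, Fin.rev_rev]; rfl
      · refine Finset.sum_congr rfl fun α _ => ?_
        rw [ev_trf, ip_single_right, Fin.rev_rev, ip_mulVec (st _), st_st, ip_comm]; rfl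
    · refine Finset.sum_congr rfl fun i _ => ?_
      rw [ev_trf, ip_smul_left, ip_comm (ψ _)]; rfl

end Pool.Agent.P.MP_f1a348_lc.PG
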