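import Pool.Agent.P.MP_f1a348_lc.PG.Iface

/-! Proof of GP. -/

namespace Pool.Agent.P.MP_f1a348_lc.PG

open Matrix Module

namespace GPx

abbrev Cl : Type := Option (Fin 3 × Bool)

/-- the weight of a colour -/
def e (j : Fin 3) (c : Cl) : ℤ :=
  if c = some (j, true) then 1 else if c = some (j, false) then -1 else 0

theorem comb : ∀ (t : Fin 3 → Bool) (γ : Fin 3 → Cl), (∀ i, t i → γ i = none) →
    (∀ j, t j ∨ ∑ i, e j (γ i) - 1 = 0 ∨ 4 ≤ |∑ i, e j (γ i) - 1|) →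
    ∃ k : Fin 6, ∀ i, t i ∧ pm k i = i ∨ γ i = some (pm k i, true) := by
  decide +kernel

theorem comb2 : ∀ (t : Fin 3 → Bool) (j : Fin 3),
    t j ∨ ∑ i, e j (if t i then none else some (i, false)) = -1 := by
  decide +kernel

variable {p n : ℕ} [Fact p.Prime] {ℓ : Ix n → ℕ} {B : Sub p n} {a : Fin 3 → Ix n}
  {x : Fin 3 → Vec p n} {π : Fin 3 → Mat p n}

theorem sz {k : ℤ} (h : ∑ s : (ZMod p)ˣ, (s : ZMod p) ^ k ≠ 0) : ((p - 1 : ℕ) : ℤ) ∣ k := by
  obtain ⟨m, rfl | rfl⟩ := k.eq_nat_or_neg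
  · simp only [zpow_natCast, FiniteField.sum_pow_units, ZMod.card] at h
    exact Int.natCast_dvd_natCast.2 (by_contra fun e => h (if_neg e))
  · rw [← Equiv.sum_comp (Equiv.inv _)] at h
    simp only [Equiv.inv_apply, Units.val_inv_eq_inv_val, _root_.zpow_neg, zpow_natCast, inv_pow,
      inv_inv, FiniteField.sum_pow_units, ZMod.card] at h
    exact dvd_neg.2 (Int.natCast_dvd_natCast.2 (by_contra fun e => h (if_neg e)))

def R (π : Fin 3 → Mat p n) (c : Fin 3 × Bool) : Mat p n := if c.2 then π c.1 else st (π c.1)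

noncomputable def Q (π : Fin 3 → Mat p n) : Cl → Mat p n
  | none => 1 - ∑ c, R π c
  | some c => R π c

def Col (π : Fin 3 → Mat p n) (c : Cl) (v : Vec p n) : Prop :=
  ∀ d, R π d *ᵥ v = if c = some d then v else 0

noncomputable def hh (π : Mat p n) (s : ZMod p) : Mat p n :=
  1 + (s - 1) • π + (s⁻¹ - 1) • st π

theorem RR (h : Frame ℓ B a x π) (c d : Fin 3 × Bool) :
    R π d * R π c = if c = d then R π c else 0 := by
  obtain ⟨i, b⟩ := c
  obtain ⟨j, b'⟩ := d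
  by_cases hij : i = j
  · subst hij
    cases b <;> cases b' <;> simp [R, ← st_mul, (h.iso i).1, (h.iso i).2.1, (h.iso i).2.2]
  · have h1 := h.orth i j hij
    have h2 := h.orth j i (Ne.symm hij)
    cases b <;> cases b' <;> simp [R, ← st_mul, hij, h1, h2]

theorem col_fix (h : Frame ℓ B a x π) {c : Fin 3 × Bool} {v : Vec p n} (hv : R π c *ᵥ v = v) :
    Col π (some c) v := fun d => by
  rw [← hv, mulVec_mulVec, RR h]
  by_cases e : c = d <;> simp [e]

theorem col_Q (h : Frame ℓ B a x π) (c : Cl) (v : Vec p n) : Col π c (Q π c *ᵥ v) := by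
  cases c with
  | none => intro d; simp [Q, mul_sub, Finset.mul_sum, RR h]
  | some c => exact col_fix h (by simp [Q, RR h])

theorem R_mem (hB : Str ℓ B) (h : Frame ℓ B a x π) (c : Fin 3 × Bool) :
    R π c ∈ B ∧ R π c * eo ℓ B = R π c := by
  unfold R
  split_ifs
  · exact ⟨h.mem _, h.eo _⟩
  · exact ⟨hB.alg.star _ (h.mem _), by
      rw [← st_eo hB, ← st_mul, (hB.alg.dg _ (h.mem _)).comm_eo, h.eo]⟩

theorem col_triv (hB : Str ℓ B) (h : Frame ℓ B a x π) {b : Ix n} {v : Vec p n}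
    (hv : v ∈ Vb ℓ b) (t : Triv ℓ B b) : Col π none v := fun d => by
  rw [← (R_mem hB h d).2, ← mulVec_mulVec, eo_mulVec_triv hv t]
  simp

theorem eig {c : Cl} {v : Vec p n} (h : Col π c v) (j : Fin 3) (s : ZMod p) :
    hh (π j) s *ᵥ v = s ^ e j c • v := by
  have h1 : π j *ᵥ v = _ := h (j, true)
  have h2 : st (π j) *ᵥ v = _ := h (j, false)
  rw [hh, add_mulVec, add_mulVec, smul_mulVec, smul_mulVec, h1, h2, one_mulVec, e]
  split_ifs with e1 e2
  · simp [e1] at e2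
  all_goals simp [sub_smul]

theorem hh_st (π : Mat p n) (s : ZMod p) : st (hh π s) = hh π s⁻¹ := by
  simp only [hh, st_add, st_smul, st_one, st_st, inv_inv]
  abel

theorem hh_lo (hB : Str ℓ B) (h : Frame ℓ B a x π) (j : Fin 3) (s : (ZMod p)ˣ) :
    hh (π j) s ∈ Lo B := by
  have h1 : hh (π j) 1 = 1 := by simp [hh]
  have h2 : ∀ s t, hh (π j) (s * t) = hh (π j) s * hh (π j) t := fun s t => by
    simp only [hh, add_mul, mul_add, one_mul, mul_one, smul_mul_assoc, mul_smul_comm, ← st_mul,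
      (h.iso j).1, (h.iso j).2.1, (h.iso j).2.2, mul_inv]
    module
  have h3 : ∀ c, R π c (c0 n) (c0 n) = 0 := fun c => by
    rw [← (R_mem hB h c).2, ((hB.alg.dg _ (R_mem hB h c).1).tri hB.lab).mul_c0, eo_c0 hB.alg,
      mul_zero]
  refine Submonoid.subset_closure ⟨add_mem (add_mem hB.alg.one (B.smul_mem _ (h.mem j)))
    (B.smul_mem _ (hB.alg.star _ (h.mem j))), ?_, ?_, ?_⟩
  · rw [Un, hh_st, ← h2, Units.inv_mul', h1]
  · simp only [hh, Matrix.add_apply, Matrix.smul_apply, one_apply_eq, st_apply, rev_c0,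
      show π j (c0 n) (c0 n) = 0 from h3 (j, true), smul_zero, add_zero]
  · rw [← h1, ← ZMod.pow_card_sub_one_eq_one s.ne_zero]
    exact (map_pow (⟨⟨hh (π j), h1⟩, h2⟩ : ZMod p →* Mat p n) _ _).symm

theorem exG (hB : Str ℓ B) (h : Frame ℓ B a x π) (j : Fin 3) :
    ∃ G : Frm p n →ₗ[ZMod p] Frm p n,
    (∀ S : Submodule (ZMod p) (Frm p n), (∀ z ∈ Lo B, ∀ w ∈ S, pull1 z w ∈ S) →
      ∀ w ∈ S, G w ∈ S) ∧ (∀ μ ∈ AA ℓ B a, ∀ w, G (μ w) = μ (G w)) ∧
    ∀ (γ : Fin 3 → Cl) (y : Fin 3 → Vec p n), (∀ i, Col π (γ i) (y i)) →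
      (Triv ℓ B (a j) ∨ ∑ i, e j (γ i) = -1 → G (pf y) = pf y) ∧ ∀ w, ev (G w) y ≠ 0 →
        ev w y ≠ 0 ∧ (Triv ℓ B (a j) ∨ ((p - 1 : ℕ) : ℤ) ∣ ∑ i, e j (γ i) - 1) := by
  by_cases t : Triv ℓ B (a j)
  · exact ⟨.id, fun _ _ _ hw => hw, fun _ _ _ => rfl, fun _ _ _ => ⟨fun _ => rfl,
      fun _ hw => ⟨hw, .inl t⟩⟩⟩
  have key : ∀ (s : (ZMod p)ˣ) (γ : Fin 3 → Cl),
      ∏ i, (s : ZMod p) ^ e j (γ i) = (s : ZMod p) ^ ∑ i, e j (γ i) := fun s γ => by
    simp only [Fin.prod_univ_three, Fin.sum_univ_three, zpow_add₀ s.ne_zero]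
  refine ⟨-∑ s : (ZMod p)ˣ, (s : ZMod p)⁻¹ • pull1 (hh (π j) s), fun S hS w hw => ?_,
    fun μ hμ w => ?_, fun γ y hy => ⟨fun H => ?_, fun w hw => ?_⟩⟩ <;>
    simp only [LinearMap.neg_apply, LinearMap.sum_apply, LinearMap.smul_apply] at *
  · exact neg_mem (sum_mem fun s _ => S.smul_mem _ (hS _ (hh_lo hB h j s) w hw))
  · simp only [map_neg, map_sum, map_smul, aa_pull1 hμ (lo_spec hB (hh_lo hB h j _)).1]
  · have h1 : ∀ s : (ZMod p)ˣ, (s : ZMod p)⁻¹ • pull1 (hh (π j) s) (pf y) =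
        (s : ZMod p) ^ 0 • pf y := fun s => by
      ext i
      simp only [pull1, pull_pf, hh_st, eig (hy _), pf, Pi.smul_apply, smul_eq_mul,
        Finset.prod_mul_distrib, _root_.inv_zpow, Finset.prod_inv_distrib, key, H.resolve_left t]
      rw [_root_.zpow_neg_one, inv_inv, inv_mul_cancel_left₀ s.ne_zero, pow_zero, one_mul]
    simp only [h1, ← Finset.sum_smul, FiniteField.sum_pow_units]
    simp
  · have h1 : ∀ s : (ZMod p)ˣ, ev ((s : ZMod p)⁻¹ • pull1 (hh (π j) s) w) y =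
        (s : ZMod p) ^ (∑ i, e j (γ i) - 1) * ev w y := fun s => by
      simp only [ev_smul, ev_pull1, eig (hy _), ev_smul_slots, key, zpow_sub_one₀ s.ne_zero]
      ring
    rw [ev_neg, ev_sum, neg_ne_zero] at hw
    simp only [h1, ← Finset.sum_mul] at hw
    exact ⟨right_ne_zero_of_mul hw, .inr (sz (left_ne_zero_of_mul hw))⟩

end GPx

open GPx in
theorem s_GP (p n : ℕ) [Fact p.Prime] (hp : 5 ≤ p) : S_GP p n := by
  classical
  intro ℓ B a x π hB h hx h0
  choose G g1 g2 g3 using exG hB h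
  have g0 := fun S hS w hw => g1 0 S hS _ (g1 1 S hS _ (g1 2 S hS w hw))
  refine ⟨G 0 ∘ₗ G 1 ∘ₗ G 2, g0, fun μ hμ w => by simp only [LinearMap.comp_apply, g2 _ μ hμ],
    fun y hy H => ?_, fun w hw H => ?_⟩
  · have h1 := fun j => (g3 j (fun i => if decide (Triv ℓ B (a i)) then none else some (i, false))
      y fun i => by
        by_cases t : Triv ℓ B (a i)
        · simpa [t] using col_triv hB h (hy i) ((triv_rev hB).2 t)
        · simpa [t] using col_fix h (c := (i, false)) (H i t)).1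
          ((comb2 (fun i => decide (Triv ℓ B (a i))) j).imp_left of_decide_eq_true)
    simp only [LinearMap.comp_apply, h1]
  refine Wt_ext hB.lab (g0 _ (fun z hz w hw => pull1_mem_Wt hB.lab
    (hB.alg.dg _ (lo_spec hB hz).1) hw) w hw) (zero_mem _) fun y hy => ?_
  have e1 : y = fun i => ∑ c, Q π c *ᵥ y i := by
    ext1 i
    simp [← sum_mulVec, Q]
  rw [e1, ev_zero, ← evM_apply, MultilinearMap.map_sum]
  refine Finset.sum_eq_zero fun γ _ => by_contra fun e => ?_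
  rw [evM_apply] at e
  have g4 := fun j => (g3 j γ _ fun i => col_Q h (γ i) (y i)).2
  obtain ⟨e, d0⟩ := g4 0 _ e
  obtain ⟨e, d1⟩ := g4 1 _ e
  obtain ⟨e, d2⟩ := g4 2 _ e
  obtain ⟨k, h1⟩ := comb (fun i => decide (Triv ℓ B (a i))) γ (fun i t => by
    cases hc : γ i with
    | none => rfl
    | some c =>
      exact absurd (ev_slot_zero w (j := i) (by
        simpa [hc, Q] using col_triv hB h (hy i) (of_decide_eq_true t) c)) e) fun j =>
    (by fin_cases j <;> assumption : Triv ℓ B (a j) ∨ ((p - 1 : ℕ) : ℤ) ∣ _).imp decide_eq_true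
      fun d => or_iff_not_imp_right.2 fun l => Int.eq_zero_of_abs_lt_dvd d (by omega)
  have h2 : ∀ i, Q π (γ i) *ᵥ y i ∈ orb (Cb ℓ B (a i) (a (pm k i))) (x (pm k i)) := fun i => by
    have h3 : Q π (γ i) *ᵥ y i ∈ Vb ℓ (a i) := by
      refine (hB.alg.dg _ ?_).mulVec_mem (hy i)
      cases γ i with
      | none => exact sub_mem hB.alg.one (sum_mem fun c _ => (R_mem hB h c).1)
      | some c => exact (R_mem hB h c).1
    rw [← orb_inf_Vb hB.alg (hx _)]
    refine ⟨?_, h3⟩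
    rcases h1 i with ⟨t, e⟩ | e
    · obtain ⟨c, hc⟩ := triv_line hB (of_decide_eq_true t) (hx i) (h0 i) h3
      rw [hc, e]
      exact Submodule.smul_mem _ _ (self_mem_orb _)
    · rw [e]
      exact Submodule.map_mono co_le_com (h.im _ (mem_im.2 ⟨y i, rfl⟩))
  choose C hC h3 using fun i => mem_orb.1 (h2 i)
  have := H _ (aa_gen (.ofBijective _ (pm_bij k)) hC)
  rw [ev_gen] at this
  exact e (by simpa only [Equiv.ofBijective_apply, h3] using this)

end Pool.Agent.P.MP_f1a348_lc.PG
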