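import Pool.Agent.P.MP_f1a348_lc.PG.Iface

/-!
Project PG: left ideals of the algebra `AA` are generated by a right unit.
-/

namespace Pool.Agent.P.MP_f1a348_lc.PG

open Matrix Module

namespace MASCHKEx

/-- averaging over a finite group of order prime to `p` -/
theorem avg0 {p : ℕ} [Fact p.Prime] {R G : Type} [Ring R] [Algebra (ZMod p) R] [Group G]
    [Finite G] (f : G →* R) (hS : ∀ g : G, ∃ k, ¬ p ∣ k ∧ g ^ k = 1) (I : Submodule (ZMod p) R)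
    (hI : ∀ g, ∀ ν ∈ I, f g * ν ∈ I) :
    ∃ Q : R →ₗ[ZMod p] R, (∀ x, Q x ∈ I) ∧ (∀ ν ∈ I, Q ν = ν) ∧
      ∀ g x, Q (f g * x) = f g * Q x := by
  classical
  have : Fintype G := Fintype.ofFinite G
  have hc : ((Fintype.card G : ℕ) : ZMod p) ≠ 0 := fun e => by
    obtain ⟨g, hg⟩ := exists_prime_orderOf_dvd_card p ((ZMod.natCast_eq_zero_iff _ _).1 e)
    obtain ⟨k, h1, h2⟩ := hS g
    exact h1 (hg ▸ orderOf_dvd_of_pow_eq_one h2)
  obtain ⟨J, hJ⟩ := I.exists_isCompl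
  let P : R →ₗ[ZMod p] R := I.subtype ∘ₗ I.projectionOnto J hJ
  have P1 : ∀ x, P x ∈ I := fun x => (I.projectionOnto J hJ x).2
  have P2 : ∀ ν ∈ I, P ν = ν := fun ν hν =>
    congrArg Subtype.val (Submodule.projectionOnto_apply_left hJ ⟨ν, hν⟩)
  refine ⟨((Fintype.card G : ℕ) : ZMod p)⁻¹ • ∑ g : G, LinearMap.mulLeft (ZMod p) (f g⁻¹) ∘ₗ
    P ∘ₗ LinearMap.mulLeft (ZMod p) (f g), fun x => ?_, fun ν hν => ?_, fun δ x => ?_⟩
  · simp only [LinearMap.smul_apply, LinearMap.sum_apply, LinearMap.comp_apply,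
      LinearMap.mulLeft_apply]
    exact I.smul_mem _ (I.sum_mem fun g _ => hI _ _ (P1 _))
  · simp only [LinearMap.smul_apply, LinearMap.sum_apply, LinearMap.comp_apply,
      LinearMap.mulLeft_apply]
    rw [Finset.sum_congr rfl fun g _ => show f g⁻¹ * P (f g * ν) = ν by
      rw [P2 _ (hI _ _ hν), ← mul_assoc, ← map_mul, inv_mul_cancel, map_one, one_mul]]
    rw [Finset.sum_const, Finset.card_univ, ← Nat.cast_smul_eq_nsmul (ZMod p), smul_smul,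
      inv_mul_cancel₀ hc, one_smul]
  · simp only [LinearMap.smul_apply, LinearMap.sum_apply, LinearMap.comp_apply,
      LinearMap.mulLeft_apply]
    rw [mul_smul_comm, Finset.mul_sum]
    congr 1
    refine Fintype.sum_equiv (Equiv.mulRight δ) _ _ fun g => ?_
    rw [Equiv.coe_mulRight]
    beta_reduce
    rw [← mul_assoc (f δ), ← map_mul, show δ * (g * δ)⁻¹ = g⁻¹ by group, map_mul f g δ,
      mul_assoc (f g)]

/-- averaging over a finite monoid whose elements have order prime to `p` -/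
theorem avg {p : ℕ} [Fact p.Prime] {R : Type} [Ring R] [Algebra (ZMod p) R] [Finite R]
    (S : Submonoid R) (hS : ∀ g ∈ S, ∃ k, ¬ p ∣ k ∧ g ^ k = 1) (I : Submodule (ZMod p) R)
    (hI : ∀ g ∈ S, ∀ ν ∈ I, g * ν ∈ I) :
    ∃ Q : R →ₗ[ZMod p] R, (∀ x, Q x ∈ I) ∧ (∀ ν ∈ I, Q ν = ν) ∧
      ∀ g ∈ S, ∀ x, Q (g * x) = g * Q x := by
  have hS' : ∀ g : S, ∃ k, ¬ p ∣ k ∧ g ^ k = 1 := fun g => by
    obtain ⟨k, h1, h2⟩ := hS g g.2
    exact ⟨k, h1, Subtype.ext h2⟩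
  have ht : IsMulTorsion S := fun g => by
    obtain ⟨k, h1, h2⟩ := hS' g
    exact isOfFinOrder_iff_pow_eq_one.2 ⟨k, Nat.pos_of_ne_zero fun e => h1 (e ▸ dvd_zero p), h2⟩
  obtain ⟨Q, h1, h2, h3⟩ := @avg0 p _ R S _ _ (IsMulTorsion.group ht) _ S.subtype hS' I
    fun g => hI g g.2
  exact ⟨Q, h1, h2, fun g hg => h3 ⟨g, hg⟩⟩

theorem shift_mul {R : Type} [Ring R] {u x y : R} (hu : u * u = u) (hx : x * u = x)
    (hy : u * y = y) : (x + (1 - u)) * (y + (1 - u)) = x * y + (1 - u) := by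
  simp only [add_mul, mul_add, mul_sub, sub_mul, mul_one, one_mul, hu, hx, hy]
  abel

theorem shift_pow {R : Type} [Ring R] {u x : R} (hu : u * u = u) (hx : x * u = x)
    (hx' : u * x = x) (k : ℕ) : (x + (1 - u)) ^ (k + 1) = x ^ (k + 1) + (1 - u) := by
  induction k with
  | zero => simp
  | succ k ih =>
    rw [pow_succ, ih, shift_mul hu (by rw [pow_succ, mul_assoc, hx]) hx', ← pow_succ]

variable {p n : ℕ} [Fact p.Prime] {ℓ : Ix n → ℕ} {B : Sub p n}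

theorem mul_ne (h : Str ℓ B) {a b c : Ix n} {C D : Mat p n} (hC : C ∈ Cb ℓ B a b)
    (hD : D ∈ Cb ℓ B b c) (h1 : C ≠ 0) (h2 : D ≠ 0) : C * D ≠ 0 := fun e => by
  obtain ⟨E, _, _, e1⟩ := schur h hC h1
  exact h2 (by rw [← cb_left hD, ← e1, mul_assoc, e, mul_zero])

theorem pow_mem (h : Str ℓ B) {a : Ix n} {C : Mat p n} (hC : C ∈ Cb ℓ B a a) (k : ℕ) :
    C ^ (k + 1) ∈ Cb ℓ B a a ∧ (C ≠ 0 → C ^ (k + 1) ≠ 0) := by
  induction k with
  | zero => simpa using hC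
  | succ k ih =>
    rw [pow_succ]
    exact ⟨cb_mul ih.1 hC, fun e => mul_ne h ih.1 hC (ih.2 e) e⟩

theorem exists_exp (h : Str ℓ B) : ∃ m : ℕ, ¬ p ∣ m + 1 ∧
    ∀ (a : Ix n) (E : Mat p n), E ∈ Cb ℓ B a a → E ≠ 0 → E ^ (m + 1) = pr ℓ a := by
  have hp : p.Prime := Fact.out
  obtain ⟨s, m, h1, h2⟩ := Nat.exists_eq_pow_mul_and_not_dvd
    (Nat.card_pos (α := (Mat p n)ˣ)).ne' p hp.one_lt.ne'
  obtain ⟨m, rfl⟩ : ∃ k, m = k + 1 :=
    Nat.exists_eq_succ_of_ne_zero fun e => h1 (e ▸ dvd_zero p)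
  refine ⟨m, h1, fun a E hE h0 => ?_⟩
  obtain ⟨D, hD, e1, e2⟩ := schur h hE h0
  let w : (Mat p n)ˣ := ⟨E + (1 - pr ℓ a), D + (1 - pr ℓ a),
    by rw [shift_mul (pr_mul_pr a) (cb_right hE) (cb_left hD), e1, add_sub_cancel],
    by rw [shift_mul (pr_mul_pr a) (cb_right hD) (cb_left hE), e2, add_sub_cancel]⟩
  have e3 : ((E + (1 - pr ℓ a)) ^ (m + 1)) ^ p ^ s = 1 := by
    have := congrArg Units.val (pow_card_eq_one' (x := w))
    rw [h2, mul_comm (p ^ s), pow_mul] at this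
    simpa using this
  have e4 := sub_pow_char_pow_of_commute p s
    (Commute.one_right ((E + (1 - pr ℓ a)) ^ (m + 1)))
  rw [e3, one_pow, sub_self, shift_pow (pr_mul_pr a) (cb_right hE) (cb_left hE),
    show E ^ (m + 1) + (1 - pr ℓ a) - 1 = E ^ (m + 1) - pr ℓ a by abel] at e4
  obtain ⟨t, ht⟩ : ∃ t, p ^ s = t + 1 :=
    Nat.exists_eq_succ_of_ne_zero (pow_ne_zero s hp.ne_zero)
  by_contra hne
  exact (pow_mem h (sub_mem (pow_mem h hE m).1 (cb_pr h.alg a)) t).2 (sub_ne_zero.2 hne) (ht ▸ e4)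

/-- the generators with non-zero module maps -/
def Gn (ℓ : Ix n → ℕ) (B : Sub p n) (a : Fin 3 → Ix n) (σ : Equiv.Perm (Fin 3))
    (γ : Module.End (ZMod p) (Frm p n)) : Prop :=
  ∃ C : Fin 3 → Mat p n, (∀ j, C j ∈ Cb ℓ B (a j) (a (σ j)) ∧ C j ≠ 0) ∧ γ = perm σ ∘ₗ pull C

variable {a : Fin 3 → Ix n}

theorem Gn.mem {σ : Equiv.Perm (Fin 3)} {γ : Module.End (ZMod p) (Frm p n)}
    (hγ : Gn ℓ B a σ γ) : γ ∈ AA ℓ B a := by
  obtain ⟨C, hC, rfl⟩ := hγ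
  exact aa_gen σ fun j => (hC j).1

theorem Gn.mul (h : Str ℓ B) {σ τ : Equiv.Perm (Fin 3)} {γ δ : Module.End (ZMod p) (Frm p n)}
    (hγ : Gn ℓ B a σ γ) (hδ : Gn ℓ B a τ δ) : Gn ℓ B a (σ * τ) (γ * δ) := by
  obtain ⟨C, hC, rfl⟩ := hγ
  obtain ⟨D, hD, rfl⟩ := hδ
  exact ⟨_, fun j => ⟨cb_mul (hD j).1 (hC (τ j)).1,
    mul_ne h (hD j).1 (hC (τ j)).1 (hD j).2 (hC (τ j)).2⟩, gen_comp σ τ C D⟩

theorem Gn.pow (h : Str ℓ B) {σ : Equiv.Perm (Fin 3)} {γ : Module.End (ZMod p) (Frm p n)}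
    (hγ : Gn ℓ B a σ γ) (k : ℕ) : Gn ℓ B a (σ ^ (k + 1)) (γ ^ (k + 1)) := by
  induction k with
  | zero => simpa using hγ
  | succ k ih => rw [pow_succ, pow_succ γ]; exact ih.mul h hγ

theorem pull_pow (D : Fin 3 → Mat p n) (k : ℕ) :
    (pull D : Module.End (ZMod p) (Frm p n)) ^ (k + 1) = pull fun j => D j ^ (k + 1) := by
  induction k with
  | zero => simp
  | succ k ih =>
    refine LinearMap.ext fun w => ?_
    rw [pow_succ', Module.End.mul_apply, ih, pull_pull]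
    simp only [← pow_succ]

theorem left (h : Lab ℓ) {μ : Module.End (ZMod p) (Frm p n)} (hμ : μ ∈ AA ℓ B a) :
    (cmp ℓ (key ℓ a) : Module.End (ZMod p) (Frm p n)) * μ = μ :=
  LinearMap.ext fun w => mem_Wt_iff.1 (aa_mem_Wt h hμ w)

theorem right (h : Lab ℓ) {μ : Module.End (ZMod p) (Frm p n)} (hμ : μ ∈ AA ℓ B a) :
    μ * (cmp ℓ (key ℓ a) : Module.End (ZMod p) (Frm p n)) = μ :=
  LinearMap.ext fun w => aa_cmp_right h hμ w

theorem Gn.order (hp : 5 ≤ p) (h : Str ℓ B) {σ : Equiv.Perm (Fin 3)}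
    {γ : Module.End (ZMod p) (Frm p n)} (hγ : Gn ℓ B a σ γ) :
    ∃ k, ¬ p ∣ k + 1 ∧ γ ^ (k + 1) = cmp ℓ (key ℓ a) := by
  obtain ⟨m, h1, h2⟩ := exists_exp h
  have e : σ ^ (5 + 1) = 1 := by
    have := pow_card_eq_one (x := σ)
    rwa [Fintype.card_perm, Fintype.card_fin] at this
  have h3 := hγ.pow h 5
  rw [e] at h3
  obtain ⟨D, hD, e1⟩ := h3
  refine ⟨6 * m + 5, fun hd => ?_, ?_⟩
  · rw [show 6 * m + 5 + 1 = 2 * (3 * (m + 1)) by ring] at hd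
    have hp' : p.Prime := Fact.out
    rcases (Nat.Prime.dvd_mul hp').1 hd with h4 | h4
    · exact absurd (Nat.le_of_dvd (by norm_num) h4) (by omega)
    · rcases (Nat.Prime.dvd_mul hp').1 h4 with h5 | h5
      · exact absurd (Nat.le_of_dvd (by norm_num) h5) (by omega)
      · exact h1 h5
  · rw [show 6 * m + 5 + 1 = (5 + 1) * (m + 1) by ring, pow_mul, e1,
      show perm (1 : Equiv.Perm (Fin 3)) ∘ₗ pull D = pull D from rfl, pull_pow]
    refine LinearMap.ext fun w => ?_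
    rw [cmp_key h.lab]
    exact congrArg (fun C => pull C w) (funext fun j => h2 _ _ (hD j).1 (hD j).2)

end MASCHKEx

open MASCHKEx in
theorem s_MASCHKE (p n : ℕ) [Fact p.Prime] (hp : 5 ≤ p) : S_MASCHKE p n := by
  intro ℓ B a I h hI hL
  have hu := aa_cmp h.lab h.alg a
  set u : Module.End (ZMod p) (Frm p n) := cmp ℓ (key ℓ a) with hu0
  have huu : u * u = u := left h.lab hu
  have hg : Gn ℓ B a 1 u := ⟨fun j => pr ℓ (a j), fun j => ⟨cb_pr h.alg _, pr_ne_zero _⟩,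
    LinearMap.ext fun w => cmp_key h.lab a w⟩
  let S : Submonoid (Module.End (ZMod p) (Frm p n)) :=
    { carrier := {g | ∃ σ γ, Gn ℓ B a σ γ ∧ g = γ + (1 - u)}
      one_mem' := ⟨1, u, hg, (add_sub_cancel _ _).symm⟩
      mul_mem' := by
        rintro _ _ ⟨σ, γ, h1, rfl⟩ ⟨τ, δ, h2, rfl⟩
        exact ⟨_, _, h1.mul h h2, shift_mul huu (right h.lab h1.mem) (left h.lab h2.mem)⟩ }
  have hz : ∀ γ ν : Module.End (ZMod p) (Frm p n), u * ν = ν → (γ + (1 - u)) * ν = γ * ν :=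
    fun γ ν e => by rw [add_mul, sub_mul, one_mul, e, sub_self, add_zero]
  have : Finite (Module.End (ZMod p) (Frm p n)) :=
    Finite.of_injective _ (DFunLike.coe_injective (F := Module.End (ZMod p) (Frm p n)))
  obtain ⟨Q, Q1, Q2, Q3⟩ := avg (p := p) S (by
      rintro _ ⟨σ, γ, h1, rfl⟩
      obtain ⟨k, h2, h3⟩ := h1.order hp h
      exact ⟨k + 1, h2, by
        rw [shift_pow huu (right h.lab h1.mem) (left h.lab h1.mem), h3, add_sub_cancel]⟩) I (by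
      rintro _ ⟨σ, γ, h1, rfl⟩ ν hν
      rw [hz γ ν (left h.lab (hI hν))]
      exact hL γ h1.mem ν hν)
  refine ⟨Q u, Q1 u, fun ν hν => ?_⟩
  have key' : ∀ μ ∈ AA ℓ B a, Q (μ * u) = μ * Q u := fun μ hμ => by
    refine aa_ind (P := fun μ => Q (μ * u) = μ * Q u) (fun σ C hC => ?_) (by simp)
      (fun x y hx hy => by rw [add_mul, map_add, hx, hy, add_mul])
      (fun c x hx => by rw [smul_mul_assoc, map_smul, hx, smul_mul_assoc]) hμ
    by_cases h0 : ∀ j, C j ≠ 0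
    · have := Q3 _ ⟨σ, _, ⟨C, fun j => ⟨hC j, h0 j⟩, rfl⟩, rfl⟩ u
      rwa [hz _ _ huu, hz _ _ (left h.lab (hI (Q1 u)))] at this
    · obtain ⟨j, hj⟩ := not_forall.1 h0
      have : pull C = 0 := LinearMap.ext fun w => funext fun i => by
        rw [pull_apply]
        refine Finset.sum_eq_zero fun k _ => ?_
        rw [Finset.prod_eq_zero (Finset.mem_univ j) (by rw [not_not.1 hj]; rfl), mul_zero]
      simp [this]
  have := key' ν (hI hν)
  rw [right h.lab (hI hν), Q2 ν hν] at this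
  exact this.symm

end Pool.Agent.P.MP_f1a348_lc.PG
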