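import Pool.Agent.P.MP_f1a348_lc.PG.Iface

/-!
Project PG, task RIG: rigidity of forms with a non-trivial slot.
-/

namespace Pool.Agent.P.MP_f1a348_lc.PG

open Matrix Module

namespace RIGx

theorem fin3 (i j : Fin 3) (h : i ≠ j) : i = j + 1 ∨ i = j + 2 := by
  revert i j; decide

theorem rf_mulVec {p n : ℕ} (π : Mat p n) (x : Vec p n) :
    rf π *ᵥ x = x - (2 : ZMod p) • (π *ᵥ x) - (2 : ZMod p) • (st π *ᵥ x) := by
  simp only [rf, Matrix.sub_mulVec, Matrix.one_mulVec, Matrix.smul_mulVec]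

end RIGx

theorem s_RIG (p n : ℕ) [Fact p.Prime] (hp : 5 ≤ p) (hTR : S_TR p n) (hSEPI : S_SEPI p n) :
    S_RIG p n := by
  rintro ℓ B a h hB ⟨j, nt⟩ θ hθ H
  refine hTR ℓ B a θ h hB hθ fun x hx => ?_
  have hI : Isot B (x j) := by
    rw [isot_iff, ← orb_co_ntriv h.alg (hx.mem j) nt]
    exact hx.orth j j
  have hP : x j ∈ perp (orb (Co ℓ B) (x (j + 1)) ⊔ orb (Co ℓ B) (x (j + 2))) := by
    intro w hw
    obtain ⟨u, hu, v, hv, rfl⟩ := Submodule.mem_sup.1 hw
    rw [ip_add_left, hx.orth _ j u hu, hx.orth _ j v hv, add_zero]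
  obtain ⟨π, y, h1, h2, h3, h4, h5, h6, -⟩ := hSEPI ℓ B _ (a j) (x j) h
    ((stab_orb_co _).sup (stab_orb_co _)) nt (hx.mem j) hI hP (hx.ind j nt)
  have hz : Test ℓ B (rf π) := Or.inr ⟨π, h1, h2, h3, rfl⟩
  have e : (fun i => rf π *ᵥ x i) = fun i => (if i = j then (-1 : ZMod p) else 1) • x i := by
    funext i
    by_cases hi : i = j
    · subst hi
      rw [if_pos rfl, RIGx.rf_mulVec, h4, h5, smul_zero, sub_zero, two_smul, neg_smul, one_smul]
      abel
    · rw [if_neg hi, one_smul]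
      by_cases t : Triv ℓ B (a i)
      · exact lo_triv h (hz.lo hp h).1 t (hx.mem i)
      · have hm : x i ∈ orb (Co ℓ B) (x i) := by
          rw [orb_co_ntriv h.alg (hx.mem i) t]
          exact self_mem_orb _
        have hw : x i ∈ orb (Co ℓ B) (x (j + 1)) ⊔ orb (Co ℓ B) (x (j + 2)) := by
          rcases RIGx.fin3 i j hi with e | e
          · exact Submodule.mem_sup_left (e ▸ hm)
          · exact Submodule.mem_sup_right (e ▸ hm)
        rw [RIGx.rf_mulVec, (h6 _ hw).1, (h6 _ hw).2, smul_zero, sub_zero, sub_zero]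
  have h0 := hx.ev_Tr (H _ hz)
  rw [ev_sub, ev_pull1, e, ev_smul_slots, Finset.prod_ite_eq', if_pos (Finset.mem_univ _)] at h0
  have h7 : (2 : ZMod p) * ev θ x = 0 := by linear_combination -h0
  exact (mul_eq_zero.1 h7).resolve_left (two_ne_zero' hp)

end Pool.Agent.P.MP_f1a348_lc.PG
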