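import Pool.Agent.P.MP_f1a348_lc.PG.Forms

/-!
Project PG: toolbox, part 3 (structure of algebras with simple blocks).
-/

namespace Pool.Agent.P.MP_f1a348_lc.PG

open Matrix Module

set_option linter.unusedSectionVars false

variable {p n : ℕ} {ℓ : Ix n → ℕ} {B : Sub p n}

theorem eq_sum_pr (h : Lab ℓ) (x : Vec p n) :
    x = ∑ a ∈ Finset.univ.filter (fun a : Ix n => ℓ a = a.val), pr ℓ a *ᵥ x := by
  rw [← Matrix.sum_mulVec, sum_pr h, Matrix.one_mulVec]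

theorem exists_pr_ne (ℓ : Ix n → ℕ) {x : Vec p n} (hx : x ≠ 0) : ∃ a, pr ℓ a *ᵥ x ≠ 0 := by
  obtain ⟨a, ha⟩ := Function.ne_iff.1 hx
  exact ⟨a, fun e => ha (by have := congrFun e a; rwa [pr_mulVec, if_pos rfl] at this)⟩

/-- a subspace that contains all blocks is everything -/
theorem mem_of_blocks (h : Lab ℓ) {W : VS p n} {x : Vec p n} (H : ∀ a, pr ℓ a *ᵥ x ∈ W) :
    x ∈ W := by
  rw [eq_sum_pr h x]; exact Submodule.sum_mem _ fun a _ => H a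

/-! ### the double commutant -/

/-- the algebra as a ring of endomorphisms -/
noncomputable def Alg.ring (h : Alg ℓ B) : Subalgebra (ZMod p) (Module.End (ZMod p) (Vec p n)) :=
  (B.toSubalgebra h.one fun a b ha hb => h.mul a ha b hb).map Matrix.toLinAlgEquiv'.toAlgHom

theorem Alg.mem_ring (h : Alg ℓ B) {f : Module.End (ZMod p) (Vec p n)} :
    f ∈ h.ring ↔ ∃ b ∈ B, ∀ x, f x = b *ᵥ x := by
  constructor
  · rintro ⟨b, hb, rfl⟩
    exact ⟨b, hb, fun x => rfl⟩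
  · rintro ⟨b, hb, e⟩
    exact ⟨b, hb, LinearMap.ext fun x => (e x).symm⟩

theorem dc (h : Str ℓ B) {C : Mat p n} (hC : C ∈ Com (Com B)) : C ∈ B := by
  classical
  let R := h.alg.ring
  have hs : ∀ (r : R) (x : Vec p n), r • x = r.1 x := fun _ _ => rfl
  let V : Ix n → Submodule R (Vec p n) := fun a =>
    { carrier := (Vb ℓ a : VS p n)
      add_mem' := add_mem
      zero_mem' := zero_mem _
      smul_mem' := fun r x hx => by
        obtain ⟨b, hb, e⟩ := h.alg.mem_ring.1 r.2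
        rw [hs, e]
        exact (h.alg.dg b hb).mulVec_mem (a := a) hx }
  have : IsSemisimpleModule R (Vec p n) := by
    refine IsSemisimpleModule.of_sSup_simples_eq_top (eq_top_iff.2 fun x _ => ?_)
    rw [eq_sum_pr h.lab x]
    refine Submodule.sum_mem _ fun a _ => ?_
    by_cases e : pr ℓ a *ᵥ x = 0
    · rw [e]; exact zero_mem _
    refine Submodule.mem_sSup_of_mem (s := V a) ?_ (pr_mulVec_mem a x)
    refine isSimpleModule_iff_isAtom.2 (isAtom_iff_le_of_ge.2 ⟨fun e' => e ?_, fun W hW hle y hy => ?_⟩)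
    · exact (Submodule.mem_bot R).1 (e' ▸ (pr_mulVec_mem a x : pr ℓ a *ᵥ x ∈ V a))
    · obtain ⟨w, hw, hw0⟩ := Submodule.exists_mem_ne_zero_of_ne_bot hW
      obtain ⟨b, hb, e⟩ := h.sim a w (hle hw) hw0 y hy
      rw [← e]
      exact W.smul_mem ⟨Matrix.toLin' b, h.alg.mem_ring.2 ⟨b, hb, fun _ => rfl⟩⟩ hw
  let f : Module.End (Module.End R (Vec p n)) (Vec p n) :=
    { toFun := fun x => C *ᵥ x
      map_add' := Matrix.mulVec_add C
      map_smul' := fun φ x => by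
        let ψ : Vec p n →ₗ[ZMod p] Vec p n :=
          { toFun := φ
            map_add' := map_add φ
            map_smul' := fun c x => φ.map_smul (algebraMap (ZMod p) R c) x }
        have h1 : ∀ y, LinearMap.toMatrix' ψ *ᵥ y = φ y := fun y =>
          (Matrix.toLin'_apply _ y).symm.trans (by rw [Matrix.toLin'_toMatrix']; rfl)
        have h2 : LinearMap.toMatrix' ψ ∈ Com B := fun b hb => mat_ext fun y => by
          rw [← Matrix.mulVec_mulVec, ← Matrix.mulVec_mulVec, h1, h1]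
          exact φ.map_smul ⟨Matrix.toLin' b, h.alg.mem_ring.2 ⟨b, hb, fun _ => rfl⟩⟩ y
        change C *ᵥ φ x = φ (C *ᵥ x)
        rw [← h1, ← h1, com_mulVec hC h2] }
  obtain ⟨r, hr⟩ := jacobson_density (R := R) (M := Vec p n) f
    (Finset.univ.image fun β : Ix n => (Pi.single β 1 : Vec p n))
  obtain ⟨b, hb, e⟩ := h.alg.mem_ring.1 r.2
  have : C = b := by
    ext α β
    have h1 := congrFun (hr (Pi.single β 1) (Finset.mem_image_of_mem _ (Finset.mem_univ β))) α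
    rw [hs, e] at h1
    simpa [f] using h1
  rw [this]; exact hb

/-! ### the lemma of Schur -/

theorem cb_inj (h : Str ℓ B) {a b : Ix n} {C : Mat p n} (hC : C ∈ Cb ℓ B a b) {x : Vec p n}
    (hx : x ∈ Vb ℓ b) (h0 : x ≠ 0) (e : C *ᵥ x = 0) : C = 0 := by
  refine mat_ext fun y => ?_
  obtain ⟨c, hc, e'⟩ := h.sim b x hx h0 _ (pr_mulVec_mem b y)
  rw [← cb_right hC, ← Matrix.mulVec_mulVec, ← e', com_mulVec hC.1 hc, e, Matrix.mulVec_zero,
    Matrix.zero_mulVec]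

theorem schur (h : Str ℓ B) {a b : Ix n} {C : Mat p n} (hC : C ∈ Cb ℓ B a b) (h0 : C ≠ 0) :
    ∃ D ∈ Cb ℓ B b a, C * D = pr ℓ a ∧ D * C = pr ℓ b := by
  obtain ⟨x, hx⟩ : ∃ x, C *ᵥ x ≠ 0 := by
    by_contra hc
    exact h0 (mat_ext fun x => by rw [Matrix.zero_mulVec]; exact not_not.1 fun e => hc ⟨x, e⟩)
  have h1 : ∀ β : Ix n, ∃ y, C *ᵥ y = pr ℓ a *ᵥ Pi.single β 1 := fun β => by
    obtain ⟨c, hc, e⟩ := h.sim a _ (cb_mulVec_mem hC x) hx _ (pr_mulVec_mem a (Pi.single β 1))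
    exact ⟨c *ᵥ x, by rw [com_mulVec hC.1 hc, e]⟩
  choose y hy using h1
  let D0 : Mat p n := Matrix.of fun α β => y β α
  have h2 : C * D0 = pr ℓ a := by
    ext α β
    have := congrFun (hy β) α
    simpa [Matrix.mul_apply, Matrix.mulVec, dotProduct, D0, Pi.single_apply] using this
  have h3 : C * (pr ℓ b * D0 * pr ℓ a) = pr ℓ a := by
    rw [← mul_assoc, ← mul_assoc, cb_right hC, h2, pr_mul_pr]
  have h4 : pr ℓ b * (pr ℓ b * D0 * pr ℓ a) = pr ℓ b * D0 * pr ℓ a := by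
    rw [← mul_assoc, ← mul_assoc, pr_mul_pr]
  have h5 : pr ℓ b * D0 * pr ℓ a * pr ℓ a = pr ℓ b * D0 * pr ℓ a := by
    rw [mul_assoc, pr_mul_pr]
  generalize pr ℓ b * D0 * pr ℓ a = D at h3 h4 h5
  have h6 : D * C = pr ℓ b := by
    refine mat_ext fun x => sub_eq_zero.1 ?_
    by_contra hne
    refine h0 (cb_inj h hC (sub_mem ?_ (pr_mulVec_mem b x)) hne ?_)
    · rw [← h4, mul_assoc, ← Matrix.mulVec_mulVec]; exact pr_mulVec_mem _ _
    · rw [Matrix.mulVec_sub, Matrix.mulVec_mulVec, Matrix.mulVec_mulVec, ← mul_assoc, h3,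
        cb_left hC, cb_right hC, sub_self]
  refine ⟨D, ⟨fun c hc => ?_, by rw [h4, h5]⟩, h3, h6⟩
  calc D * c = D * (pr ℓ a * c) := by rw [← mul_assoc, h5]
    _ = D * (c * (C * D)) := by rw [(h.alg.dg c hc).comm_pr, h3]
    _ = D * C * c * D := by rw [← mul_assoc c, ← hC.1 c hc]; simp only [mul_assoc]
    _ = c * D := by rw [h6, (h.alg.dg c hc).comm_pr, mul_assoc, h4]

theorem pr_ne_zero [Fact p.Prime] (a : Ix n) : (pr ℓ a : Mat p n) ≠ 0 := fun e => by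
  have h2 := congrFun (congrFun e a) a
  simp [pr] at h2

theorem exists_cb_ne {a b : Ix n} (e : Cb ℓ B a b ≠ ⊥) : ∃ C ∈ Cb ℓ B a b, C ≠ 0 :=
  Submodule.exists_mem_ne_zero_of_ne_bot e

theorem cb_ne_of {a b : Ix n} {C : Mat p n} (hC : C ∈ Cb ℓ B a b) (h0 : C ≠ 0) :
    Cb ℓ B a b ≠ ⊥ := fun e => h0 ((Submodule.mem_bot _).1 (e ▸ hC))

/-- a cyclic module over the commutant with generator in a block is simple -/
theorem mem_of_mulVec_mem (h : Str ℓ B) {W : VS p n} (hW : Stab B W) {b : Ix n} {x : Vec p n}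
    (hx : x ∈ Vb ℓ b) {C : Mat p n} (hC : C ∈ Com B) (h0 : C *ᵥ x ≠ 0) (hm : C *ᵥ x ∈ W) :
    x ∈ W := by
  obtain ⟨a, ha⟩ := exists_pr_ne ℓ h0
  have h1 := cb_of_com h.alg hC a b
  obtain ⟨D, hD, _, e⟩ := schur h h1 fun e => ha (by rw [← cb_comp a hx, e, Matrix.zero_mulVec])
  have h2 := hW D hD.1 _ (hW _ (com_pr h.alg a) _ hm)
  rwa [← cb_comp a hx, Matrix.mulVec_mulVec, e, mem_Vb_iff.1 hx] at h2

theorem mem_of_orb (h : Str ℓ B) {W : VS p n} (hW : Stab B W) {b : Ix n} {x y : Vec p n}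
    (hx : x ∈ Vb ℓ b) (hy : y ∈ orb (Com B) x) (h0 : y ≠ 0) (hm : y ∈ W) : x ∈ W := by
  obtain ⟨C, hC, rfl⟩ := hy
  exact mem_of_mulVec_mem h hW hx hC h0 hm

/-- the exchange lemma -/
theorem exchange (h : Str ℓ B) {W : VS p n} (hW : Stab B W) {b : Ix n} {x y : Vec p n}
    (hx : x ∈ Vb ℓ b) (hy : y ∈ W ⊔ orb (Com B) x) (h0 : y ∉ W) : x ∈ W ⊔ orb (Com B) y := by
  obtain ⟨w, hw, v, hv, rfl⟩ := Submodule.mem_sup.1 hy
  refine mem_of_orb h (hW.sup (stab_orb _)) hx hv (fun e => h0 (by rwa [e, add_zero])) ?_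
  have := sub_mem (Submodule.mem_sup_right (S := W) (self_mem_orb (B := B) (w + v)))
    (Submodule.mem_sup_left hw)
  rwa [add_sub_cancel_left] at this

section field
variable [Fact p.Prime]

theorem cb_refl (h : Alg ℓ B) (a : Ix n) : Cb ℓ B a a ≠ ⊥ := cb_ne_of (cb_pr h a) (pr_ne_zero a)

theorem cb_symm (h : Str ℓ B) {a b : Ix n} (e : Cb ℓ B a b ≠ ⊥) : Cb ℓ B b a ≠ ⊥ := by
  obtain ⟨C, hC, h0⟩ := exists_cb_ne e
  obtain ⟨D, hD, e1, _⟩ := schur h hC h0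
  exact cb_ne_of hD fun e2 => pr_ne_zero a (by rw [← e1, e2, mul_zero])

theorem cb_trans (h : Str ℓ B) {a b c : Ix n} (e : Cb ℓ B a b ≠ ⊥) (e' : Cb ℓ B b c ≠ ⊥) :
    Cb ℓ B a c ≠ ⊥ := by
  obtain ⟨C, hC, h0⟩ := exists_cb_ne e
  obtain ⟨C', hC', h0'⟩ := exists_cb_ne e'
  obtain ⟨D, _, _, e1⟩ := schur h hC h0
  exact cb_ne_of (cb_mul hC hC') fun e2 => h0' (by
    rw [← cb_left hC', ← e1, mul_assoc, e2, mul_zero])

theorem cb_rev (h : Str ℓ B) {a b : Ix n} (e : Cb ℓ B a b ≠ ⊥) : Cb ℓ B b.rev a.rev ≠ ⊥ := by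
  obtain ⟨C, hC, h0⟩ := exists_cb_ne e
  exact cb_ne_of (cb_st h.lab h.alg hC) fun e => h0 (st_eq_zero.1 e)

theorem triv_iff (h : Str ℓ B) {a b : Ix n} (e : Cb ℓ B a b ≠ ⊥) : Triv ℓ B a ↔ Triv ℓ B b :=
  ⟨fun t => cb_trans h (cb_symm h e) t, fun t => cb_trans h e t⟩

theorem triv_rev (h : Str ℓ B) {a : Ix n} : Triv ℓ B a.rev ↔ Triv ℓ B a := by
  have key : ∀ a : Ix n, Triv ℓ B a → Triv ℓ B a.rev := fun a t => by
    have := cb_rev h (cb_symm h t)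
    rwa [rev_c0] at this
  exact ⟨fun t => by simpa using key _ t, key a⟩

theorem cb_eq_bot (h : Str ℓ B) {a b : Ix n} (ha : Triv ℓ B a) (hb : ¬ Triv ℓ B b) :
    Cb ℓ B a b = ⊥ := by
  by_contra e; exact hb ((triv_iff h e).1 ha)

theorem cb_eq_bot' (h : Str ℓ B) {a b : Ix n} (ha : ¬ Triv ℓ B a) (hb : Triv ℓ B b) :
    Cb ℓ B a b = ⊥ := by
  by_contra e; exact ha ((triv_iff h e).2 hb)

/-- a diagonal matrix that is constant on isomorphism classes of blocks lies in the algebra -/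
theorem diagonal_mem (h : Str ℓ B) {d : Ix n → ZMod p}
    (hd : ∀ α β, Cb ℓ B α β ≠ ⊥ → d α = d β) : Matrix.diagonal d ∈ B := by
  refine dc h fun C hC => ?_
  ext α β
  rw [Matrix.diagonal_mul, Matrix.mul_diagonal]
  by_cases e : C α β = 0
  · simp [e]
  · rw [hd α β (cb_ne_of (cb_of_com h.alg hC α β) fun e' => e ?_), mul_comm]
    have := congrFun (congrFun e' α) β
    rwa [mul_pr_apply, if_pos rfl, pr_mul_apply, if_pos rfl] at this

theorem eo_mem (h : Str ℓ B) : eo ℓ B ∈ B :=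
  diagonal_mem h fun α β e => by rw [propext (triv_iff h e)]

theorem st_eo (h : Str ℓ B) : st (eo ℓ B) = eo ℓ B := by
  rw [eo, st_diagonal]
  congr 1; funext α; rw [propext (triv_rev h)]

theorem co_left (h : Str ℓ B) {C : Mat p n} (hC : C ∈ Co ℓ B) : eo ℓ B * C = C := by
  rw [← hC.1 _ (eo_mem h), hC.2]

theorem co_st (h : Str ℓ B) {C : Mat p n} (hC : C ∈ Co ℓ B) : st C ∈ Co ℓ B :=
  ⟨com_st h.alg hC.1, by rw [← st_eo h, ← st_mul, co_left h hC]⟩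

theorem co_mul' (h : Str ℓ B) {C D : Mat p n} (hC : C ∈ Co ℓ B) (hD : D ∈ Com B) :
    C * D ∈ Co ℓ B :=
  ⟨com_mul hC.1 hD, by rw [mul_assoc, hD _ (eo_mem h), ← mul_assoc, hC.2]⟩

theorem perp_orb_co_symm (h : Str ℓ B) {x y : Vec p n} (e : y ∈ perp (orb (Co ℓ B) x)) :
    x ∈ perp (orb (Co ℓ B) y) :=
  mem_perp_orb.2 fun C hC => by
    rw [ip_mulVec, ip_comm]; exact mem_perp_orb.1 e _ (co_st h hC)

/-- vectors in trivial blocks are orthogonal to everything in sight -/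
theorem triv_mem_perp (h : Str ℓ B) {a : Ix n} {y : Vec p n} (hy : y ∈ Vb ℓ a) (t : Triv ℓ B a)
    (x : Vec p n) : y ∈ perp (orb (Co ℓ B) x) :=
  perp_orb_co_symm h (by rw [orb_co_triv hy t, perp_bot]; trivial)

theorem Vb_c0 (h : Lab ℓ) {x : Vec p n} (hx : x ∈ Vb ℓ (c0 n)) : x = x (c0 n) • e0 := by
  funext β
  by_cases e : β = c0 n
  · subst e; simp [e0]
  · simp [e0, e, hx β fun e' => e (h.ctr β e')]

/-- elements of the algebra act on trivial blocks by their central entry -/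
theorem triv_act (h : Str ℓ B) {a : Ix n} (t : Triv ℓ B a) {x : Vec p n} (hx : x ∈ Vb ℓ a)
    {b : Mat p n} (hb : b ∈ B) : b *ᵥ x = b (c0 n) (c0 n) • x := by
  obtain ⟨C, hC, h0⟩ := exists_cb_ne t
  obtain ⟨D, hD, e, _⟩ := schur h hC h0
  have h1 : x = C *ᵥ (D *ᵥ x) := by rw [Matrix.mulVec_mulVec, e, mem_Vb_iff.1 hx]
  rw [h1, ← com_mulVec hC.1 hb, ← Matrix.mulVec_smul, Vb_c0 h.lab (cb_mulVec_mem hD x),
    Matrix.mulVec_smul, ((h.alg.dg b hb).tri h.lab).mulVec_e0, smul_comm]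

/-- trivial blocks are lines -/
theorem triv_line (h : Str ℓ B) {a : Ix n} (t : Triv ℓ B a) {x y : Vec p n} (hx : x ∈ Vb ℓ a)
    (h0 : x ≠ 0) (hy : y ∈ Vb ℓ a) : ∃ c : ZMod p, y = c • x := by
  obtain ⟨b, hb, e⟩ := h.sim a x hx h0 y hy
  exact ⟨_, by rw [← e, triv_act h t hx hb]⟩

theorem triv_nb (h : Str ℓ B) {a : Ix n} (t : Triv ℓ B a) : nb ℓ a = 1 := by
  rw [nb, Finset.card_eq_one]
  refine ⟨a, Finset.eq_singleton_iff_unique_mem.2 ⟨by simp, fun β hβ => ?_⟩⟩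
  simp only [Finset.mem_filter, Finset.mem_univ, true_and] at hβ
  obtain ⟨c, hc⟩ := triv_line h t (single_mem_Vb rfl (1 : ZMod p))
    (fun e => by simpa using congrFun e a) (single_mem_Vb hβ (1 : ZMod p))
  by_contra e
  simpa [e] using congrFun hc β

theorem ntriv_c0 (h : Str ℓ B) {a : Ix n} (t : ¬ Triv ℓ B a) {x : Vec p n} (hx : x ∈ Vb ℓ a) :
    x (c0 n) = 0 :=
  hx _ fun e => t ((Triv_congr e).1 (triv_c0 h.alg))

theorem eo_c0 (h : Alg ℓ B) : eo ℓ B (c0 n) (c0 n) = 0 := by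
  simp [eo, triv_c0 h]

/-! ### projections -/

/-- the projection along a decomposition into stable subspaces lies in the algebra -/
theorem proj_mem (h : Str ℓ B) {W W' : VS p n} (hc : IsCompl W W') (hW : Stab B W)
    (hW' : Stab B W') : ∃ ρ ∈ B, (∀ w ∈ W, ρ *ᵥ w = w) ∧ (∀ w ∈ W', ρ *ᵥ w = 0) ∧
      ρ * ρ = ρ ∧ ∀ x, ρ *ᵥ x ∈ W := by
  let f := Submodule.projection W W' hc
  have h0 : ∀ y, LinearMap.toMatrix' f *ᵥ y = f y := fun y =>
    (Matrix.toLin'_apply _ y).symm.trans (by rw [Matrix.toLin'_toMatrix'])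
  have h1 : ∀ w ∈ W, LinearMap.toMatrix' f *ᵥ w = w := fun w hw => by
    rw [h0]; exact Submodule.projection_apply_left hc ⟨w, hw⟩
  have h2 : ∀ w ∈ W', LinearMap.toMatrix' f *ᵥ w = 0 := fun w hw => by
    rw [h0]; exact Submodule.projection_apply_right hc ⟨w, hw⟩
  have h3 : ∀ x, LinearMap.toMatrix' f *ᵥ x ∈ W := fun x => by
    rw [h0]; exact Submodule.projection_apply_mem hc x
  refine ⟨LinearMap.toMatrix' f, dc h fun C hC => mat_ext fun x => ?_, h1, h2,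
    mat_ext fun x => by rw [← Matrix.mulVec_mulVec, h1 _ (h3 x)], h3⟩
  obtain ⟨u, hu, v, hv, rfl⟩ := Submodule.mem_sup.1 (hc.sup_eq_top ▸ Submodule.mem_top (x := x))
  simp only [← Matrix.mulVec_mulVec, Matrix.mulVec_add, h1 u hu, h2 v hv, h1 _ (hW C hC u hu),
    h2 _ (hW' C hC v hv), Matrix.mulVec_zero]

/-- every stable subspace that does not contain `y` is killed by a projection onto the module
generated by `y` -/
theorem proj (h : Str ℓ B) {W : VS p n} (hW : Stab B W) {b : Ix n} {y : Vec p n}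
    (hy : y ∈ Vb ℓ b) (hn : y ∉ W) : ∃ ρ ∈ B, ρ * ρ = ρ ∧ ρ *ᵥ y = y ∧ (∀ w ∈ W, ρ *ᵥ w = 0) ∧
      im ρ ≤ orb (Com B) y := by
  obtain ⟨W1, ⟨h1, h2, h3⟩, hmax⟩ := set_has_maximal_iff_noetherian.2
    (inferInstance : IsNoetherian (ZMod p) (Vec p n))
    {W1 : VS p n | Stab B W1 ∧ W ≤ W1 ∧ y ∉ W1} ⟨W, hW, le_rfl, hn⟩
  have hc : IsCompl (orb (Com B) y) W1 := by
    refine ⟨Submodule.disjoint_def.2 fun v hv hv' => ?_, codisjoint_iff.2 (eq_top_iff.2 ?_)⟩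
    · by_contra e
      exact h3 (mem_of_orb h h1 hy hv e hv')
    · intro x _
      refine mem_of_blocks h.lab fun a => ?_
      have hx := pr_mulVec_mem (ℓ := ℓ) a x
      generalize pr ℓ a *ᵥ x = x at hx
      by_cases e : x ∈ W1
      · exact Submodule.mem_sup_right e
      · rw [sup_comm]
        refine exchange h h1 hx ?_ h3
        by_contra e'
        exact hmax _ ⟨h1.sup (stab_orb x), h2.trans le_sup_left, e'⟩
          (lt_of_le_of_ne le_sup_left fun e2 => e (e2 ▸ Submodule.mem_sup_right (self_mem_orb x)))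
  obtain ⟨ρ, hρ, a1, a2, a3, a4⟩ := proj_mem h hc (stab_orb y) h1
  exact ⟨ρ, hρ, a3, a1 y (self_mem_orb y), fun w hw => a2 w (h2 hw), by
    rintro _ ⟨x, rfl⟩; exact a4 x⟩

/-- density: `y` can be sent anywhere in its block while `W` is killed -/
theorem dens (h : Str ℓ B) {W : VS p n} (hW : Stab B W) {b : Ix n} {y z : Vec p n}
    (hy : y ∈ Vb ℓ b) (hn : y ∉ W) (hz : z ∈ Vb ℓ b) :
    ∃ c ∈ B, c *ᵥ y = z ∧ ∀ w ∈ W, c *ᵥ w = 0 := by
  obtain ⟨ρ, hρ, _, a2, a3, _⟩ := proj h hW hy hn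
  obtain ⟨c, hc, e⟩ := h.sim b y hy (fun e => hn (e ▸ zero_mem _)) z hz
  exact ⟨c * ρ, h.alg.mul _ hc _ hρ, by rw [← Matrix.mulVec_mulVec, a2, e], fun w hw => by
    rw [← Matrix.mulVec_mulVec, a3 w hw, Matrix.mulVec_zero]⟩

/-! ### dimensions -/

theorem eb_pos (h : Alg ℓ B) (a : Ix n) : 0 < eb ℓ B a :=
  Nat.pos_of_ne_zero fun e => cb_refl h a (Submodule.finrank_eq_zero.1 e)

theorem finrank_le_of_mul {S S' : Sub p n} (f g : Mat p n →ₗ[ZMod p] Mat p n)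
    (h1 : ∀ C ∈ S, f C ∈ S') (h2 : ∀ C ∈ S, g (f C) = C) :
    finrank (ZMod p) S ≤ finrank (ZMod p) S' :=
  LinearMap.finrank_le_finrank_of_injective (f := f.restrict h1) fun x y e => Subtype.ext (by
    rw [← h2 _ x.2, ← h2 _ y.2]; exact congrArg g (congrArg Subtype.val e))

theorem finrank_cb_left (h : Str ℓ B) {a a' : Ix n} (e : Cb ℓ B a a' ≠ ⊥) (b : Ix n) :
    finrank (ZMod p) (Cb ℓ B a b) = finrank (ZMod p) (Cb ℓ B a' b) := by
  have key : ∀ a a', Cb ℓ B a a' ≠ ⊥ →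
      finrank (ZMod p) (Cb ℓ B a' b) ≤ finrank (ZMod p) (Cb ℓ B a b) := fun a a' e => by
    obtain ⟨C, hC, h0⟩ := exists_cb_ne e
    obtain ⟨D, _, _, e1⟩ := schur h hC h0
    exact finrank_le_of_mul (lm C) (lm D) (fun X hX => cb_mul hC hX) fun X hX => by
      rw [lm_apply, lm_apply, ← mul_assoc, e1, cb_left hX]
  exact le_antisymm (key _ _ (cb_symm h e)) (key _ _ e)

theorem finrank_cb_rev (h : Str ℓ B) (a b : Ix n) :
    finrank (ZMod p) (Cb ℓ B b.rev a.rev) = finrank (ZMod p) (Cb ℓ B a b) := by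
  have key : ∀ a b : Ix n,
      finrank (ZMod p) (Cb ℓ B a b) ≤ finrank (ZMod p) (Cb ℓ B b.rev a.rev) := fun a b =>
    finrank_le_of_mul stL stL (fun X hX => cb_st h.lab h.alg hX) fun X _ => st_st X
  have := key b.rev a.rev
  rw [Fin.rev_rev, Fin.rev_rev] at this
  exact le_antisymm this (key a b)

theorem eb_rev (h : Str ℓ B) (a : Ix n) : eb ℓ B a.rev = eb ℓ B a := finrank_cb_rev h a a

theorem db_rev (h : Str ℓ B) (a : Ix n) : db ℓ B a.rev = db ℓ B a := by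
  rw [db, db, h.lab.nb_rev, eb_rev h]

theorem finrank_cb_eq (h : Str ℓ B) {a b : Ix n} (e : Cb ℓ B a b ≠ ⊥) :
    finrank (ZMod p) (Cb ℓ B a b) = eb ℓ B b := finrank_cb_left h e b

theorem finrank_cb_le (h : Str ℓ B) (a b : Ix n) : finrank (ZMod p) (Cb ℓ B a b) ≤ eb ℓ B b := by
  by_cases e : Cb ℓ B a b = ⊥
  · rw [e, finrank_bot]; exact Nat.zero_le _
  · exact (finrank_cb_eq h e).le

theorem finrank_cb_le' (h : Str ℓ B) (a b : Ix n) : finrank (ZMod p) (Cb ℓ B a b) ≤ eb ℓ B a := by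
  rw [← finrank_cb_rev h, ← eb_rev h]; exact finrank_cb_le h _ _

theorem eb_eq (h : Str ℓ B) {a b : Ix n} (e : Cb ℓ B a b ≠ ⊥) : eb ℓ B a = eb ℓ B b :=
  le_antisymm (finrank_cb_eq h (cb_symm h e) ▸ finrank_cb_le' h b a)
    (finrank_cb_eq h e ▸ finrank_cb_le' h a b)

/-- an element of the algebra has the same rank on isomorphic blocks -/
theorem finrank_im_inf (h : Str ℓ B) {W : VS p n} (hW : Stab B W) {a b : Ix n}
    (e : Cb ℓ B a b ≠ ⊥) :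
    finrank (ZMod p) (W ⊓ Vb ℓ a : VS p n) = finrank (ZMod p) (W ⊓ Vb ℓ b : VS p n) := by
  have key : ∀ a b, Cb ℓ B a b ≠ ⊥ → finrank (ZMod p) (W ⊓ Vb ℓ b : VS p n) ≤
      finrank (ZMod p) (W ⊓ Vb ℓ a : VS p n) := fun a b e => by
    obtain ⟨C, hC, h0⟩ := exists_cb_ne e
    obtain ⟨D, _, _, e1⟩ := schur h hC h0
    refine LinearMap.finrank_le_finrank_of_injective (f := C.mulVecLin.restrict
      (p := W ⊓ Vb ℓ b) (q := W ⊓ Vb ℓ a) fun x hx => ⟨hW C hC.1 x hx.1, cb_mulVec_mem hC x⟩)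
      fun x y e => Subtype.ext ?_
    have e2 : C *ᵥ x.1 = C *ᵥ y.1 := congrArg Subtype.val e
    rw [← mem_Vb_iff.1 x.2.2, ← mem_Vb_iff.1 y.2.2, ← e1, ← Matrix.mulVec_mulVec,
      ← Matrix.mulVec_mulVec, e2]
  exact le_antisymm (key _ _ (cb_symm h e)) (key _ _ e)

theorem nb_eq (h : Str ℓ B) {a b : Ix n} (e : Cb ℓ B a b ≠ ⊥) : nb ℓ a = nb ℓ b := by
  have := finrank_im_inf h (W := ⊤) (fun _ _ _ _ => trivial) e
  rwa [top_inf_eq, top_inf_eq, finrank_Vb, finrank_Vb] at this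

theorem db_eq (h : Str ℓ B) {a b : Ix n} (e : Cb ℓ B a b ≠ ⊥) : db ℓ B a = db ℓ B b := by
  rw [db, db, nb_eq h e, eb_eq h e]

theorem orb_inf_Vb (h : Alg ℓ B) {b : Ix n} {x : Vec p n} (hx : x ∈ Vb ℓ b) (a : Ix n) :
    orb (Com B) x ⊓ Vb ℓ a = orb (Cb ℓ B a b) x := by
  refine le_antisymm ?_ ?_
  · rintro _ ⟨⟨C, hC, rfl⟩, h2⟩
    exact ⟨_, cb_of_com h hC a b, (cb_comp a hx).trans (mem_Vb_iff.1 h2)⟩
  · rintro _ ⟨C, hC, rfl⟩
    exact ⟨⟨C, hC.1, rfl⟩, cb_mulVec_mem hC x⟩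

theorem finrank_orb_cb (h : Str ℓ B) {b : Ix n} {x : Vec p n} (hx : x ∈ Vb ℓ b) (h0 : x ≠ 0)
    (a : Ix n) : finrank (ZMod p) (orb (Cb ℓ B a b) x) = finrank (ZMod p) (Cb ℓ B a b) := by
  have : orb (Cb ℓ B a b) x = LinearMap.range ((evx x).domRestrict (Cb ℓ B a b)) :=
    (LinearMap.range_domRestrict _ _).symm
  rw [this, LinearMap.finrank_range_of_inj]
  rw [injective_iff_map_eq_zero]
  exact fun C e => Subtype.ext (cb_inj h C.2 hx h0 e)

theorem sup_inf_Vb (h : Alg ℓ B) {W W' : VS p n} (hW : Stab B W) (hW' : Stab B W') (a : Ix n) :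
    (W ⊔ W') ⊓ Vb ℓ a = W ⊓ Vb ℓ a ⊔ W' ⊓ Vb ℓ a := by
  refine le_antisymm ?_ (sup_le (inf_le_inf_right _ le_sup_left) (inf_le_inf_right _ le_sup_right))
  rintro x ⟨h1, h2⟩
  obtain ⟨u, hu, v, hv, rfl⟩ := Submodule.mem_sup.1 h1
  rw [← mem_Vb_iff.1 h2, Matrix.mulVec_add]
  exact Submodule.add_mem_sup ⟨hW _ (com_pr h a) u hu, pr_mulVec_mem _ _⟩
    ⟨hW' _ (com_pr h a) v hv, pr_mulVec_mem _ _⟩

/-- adjoining a new vector of the block increases the dimension by `eb` -/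
theorem finrank_sup_orb (h : Str ℓ B) {W : VS p n} (hW : Stab B W) {a : Ix n} {x : Vec p n}
    (hx : x ∈ Vb ℓ a) (hn : x ∉ W) :
    finrank (ZMod p) ((W ⊔ orb (Com B) x) ⊓ Vb ℓ a : VS p n) =
      finrank (ZMod p) (W ⊓ Vb ℓ a : VS p n) + eb ℓ B a := by
  have h0 : x ≠ 0 := fun e => hn (e ▸ zero_mem _)
  have h1 := Submodule.finrank_sup_add_finrank_inf_eq (W ⊓ Vb ℓ a) (orb (Com B) x ⊓ Vb ℓ a)
  have h2 : W ⊓ Vb ℓ a ⊓ (orb (Com B) x ⊓ Vb ℓ a) = ⊥ := by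
    rw [eq_bot_iff]
    intro v hv
    by_contra e
    exact hn (mem_of_orb h hW hx hv.2.1 e hv.1.1)
  rw [h2, finrank_bot, add_zero, ← sup_inf_Vb h.alg hW (stab_orb x)] at h1
  rw [h1, orb_inf_Vb h.alg hx, finrank_orb_cb h hx h0]
  rfl

theorem eb_dvd (h : Str ℓ B) {W : VS p n} (hW : Stab B W) (a : Ix n) :
    eb ℓ B a ∣ finrank (ZMod p) (W ⊓ Vb ℓ a : VS p n) := by
  have key : ∀ (k : ℕ) (W' : VS p n), Stab B W' → W' ≤ W →
      eb ℓ B a ∣ finrank (ZMod p) (W' ⊓ Vb ℓ a : VS p n) →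
      finrank (ZMod p) (W ⊓ Vb ℓ a : VS p n) ≤ finrank (ZMod p) (W' ⊓ Vb ℓ a : VS p n) + k →
      eb ℓ B a ∣ finrank (ZMod p) (W ⊓ Vb ℓ a : VS p n) := by
    intro k
    induction k with
    | zero =>
      intro W' _ h2 h3 h4
      rwa [← le_antisymm (Submodule.finrank_mono (inf_le_inf_right (Vb ℓ a) h2)) h4]
    | succ k ih =>
      intro W' h1 h2 h3 h4
      by_cases e : W ⊓ Vb ℓ a ≤ W'
      · rwa [le_antisymm (le_inf e inf_le_right) (inf_le_inf_right (Vb ℓ a) h2)]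
      · obtain ⟨x, hx, hn⟩ := SetLike.not_le_iff_exists.1 e
        have h5 := finrank_sup_orb h h1 hx.2 hn
        have h6 := eb_pos h.alg a
        exact ih _ (h1.sup (stab_orb x)) (sup_le h2 (hW.orb_le hx.1))
          (h5 ▸ dvd_add h3 dvd_rfl) (by omega)
  exact key _ ⊥ stab_bot bot_le (by rw [bot_inf_eq, finrank_bot]; exact dvd_zero _)
    (Nat.le_add_left _ _)

theorem eb_dvd_nb (h : Str ℓ B) (a : Ix n) : eb ℓ B a ∣ nb ℓ a := by
  have := eb_dvd h (W := ⊤) (fun _ _ _ _ => trivial) a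
  rwa [top_inf_eq, finrank_Vb] at this

theorem db_mul_eb (h : Str ℓ B) (a : Ix n) : db ℓ B a * eb ℓ B a = nb ℓ a :=
  Nat.div_mul_cancel (eb_dvd_nb h a)

theorem finrank_cb_le_M (h : Str ℓ B) (a b : Ix n) : finrank (ZMod p) (Cb ℓ B a b) ≤ 2 * n + 1 :=
  (finrank_cb_le h a b).trans ((Nat.le_of_dvd (nb_pos ℓ b) (eb_dvd_nb h b)).trans (nb_le ℓ b))

theorem small_bot : Small ℓ B 0 ⊥ := ⟨stab_bot, fun a => by simp⟩

theorem Small.mono {r s : ℕ} {W : VS p n} (h : Small ℓ B r W) (hs : r ≤ s) : Small ℓ B s W :=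
  ⟨h.1, fun a => (h.2 a).trans (Nat.mul_le_mul_right _ hs)⟩

theorem Small.of_le {r : ℕ} {W W' : VS p n} (h : Small ℓ B r W) (hW : Stab B W') (e : W' ≤ W) :
    Small ℓ B r W' :=
  ⟨hW, fun a => (Submodule.finrank_mono (inf_le_inf_right _ e)).trans (h.2 a)⟩

theorem Small.sup (h : Alg ℓ B) {r s : ℕ} {W W' : VS p n} (h1 : Small ℓ B r W)
    (h2 : Small ℓ B s W') : Small ℓ B (r + s) (W ⊔ W') :=
  ⟨h1.1.sup h2.1, fun a => by
    rw [sup_inf_Vb h h1.1 h2.1, add_mul]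
    exact (Submodule.finrank_add_le_finrank_add_finrank _ _).trans (add_le_add (h1.2 a) (h2.2 a))⟩

theorem small_orb (h : Str ℓ B) {b : Ix n} {x : Vec p n} (hx : x ∈ Vb ℓ b) :
    Small ℓ B 1 (orb (Com B) x) :=
  ⟨stab_orb x, fun a => by
    rw [orb_inf_Vb h.alg hx, one_mul]
    exact (Submodule.finrank_map_le _ _).trans (finrank_cb_le' h a b)⟩

theorem small_orb_co (h : Str ℓ B) {b : Ix n} {x : Vec p n} (hx : x ∈ Vb ℓ b) :
    Small ℓ B 1 (orb (Co ℓ B) x) :=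
  (small_orb h hx).of_le (stab_orb_co x) (Submodule.map_mono co_le_com)

theorem finrank_perp_inf (h : Str ℓ B) {r : ℕ} {W : VS p n} (hW : Small ℓ B r W) (b : Ix n) :
    nb ℓ b ≤ finrank (ZMod p) (perp W ⊓ Vb ℓ b : VS p n) + r * eb ℓ B b := by
  have h1 : perp (W ⊓ Vb ℓ b.rev) ⊓ Vb ℓ b ≤ perp W ⊓ Vb ℓ b := fun y hy =>
    ⟨fun w hw => by
      rw [← ip_pr h.lab hy.2]
      exact hy.1 _ ⟨hW.1 _ (com_pr h.alg _) w hw, pr_mulVec_mem _ _⟩, hy.2⟩
  have h2 := Submodule.finrank_mono h1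
  have h3 := Submodule.finrank_sup_add_finrank_inf_eq (perp (W ⊓ Vb ℓ b.rev)) (Vb ℓ b)
  have h4 := finrank_perp (W ⊓ Vb ℓ b.rev)
  have h5 := Submodule.finrank_le (perp (W ⊓ Vb ℓ b.rev) ⊔ Vb ℓ b)
  have h6 := hW.2 b.rev
  rw [eb_rev h] at h6
  rw [finrank_Vb] at h3
  simp only [Module.finrank_fintype_fun_eq_card, Fintype.card_fin] at h5
  omega

/-- there is room outside small subspaces -/
theorem out (h : Str ℓ B) {r s : ℕ} {W R : VS p n} (hW : Small ℓ B r W) (hR : Small ℓ B s R)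
    {b : Ix n} (hd : r + s < db ℓ B b) : ∃ v ∈ Vb ℓ b, v ∈ perp W ∧ v ∉ R := by
  by_contra hc
  have h1 : perp W ⊓ Vb ℓ b ≤ R ⊓ Vb ℓ b := fun v hv =>
    ⟨not_not.1 fun e => hc ⟨v, hv.2, hv.1, e⟩, hv.2⟩
  have h2 := (Submodule.finrank_mono h1).trans (hR.2 b)
  have h3 := finrank_perp_inf h hW b
  have h4 := db_mul_eb h b
  have h5 := eb_pos h.alg b
  nlinarith

/-! ### tests -/

theorem Cyc.mem {π : Mat p n} (h : Cyc ℓ B π) : π ∈ B := by
  obtain ⟨_, _, _, _, h, _⟩ := h; exact h.1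

/-- the reflection attached to a self-adjoint idempotent that kills the trivial blocks -/
theorem refl_lo (hp : 5 ≤ p) (h : Str ℓ B) {ε : Mat p n} (h1 : ε ∈ B) (h2 : ε * ε = ε)
    (h3 : st ε = ε) (h4 : ε * eo ℓ B = ε) :
    1 - (2 : ZMod p) • ε ∈ Lo B ∧ st (1 - (2 : ZMod p) • ε) = 1 - (2 : ZMod p) • ε ∧
      (1 - (2 : ZMod p) • ε) * (1 - (2 : ZMod p) • ε) = 1 := by
  have a1 : st (1 - (2 : ZMod p) • ε) = 1 - (2 : ZMod p) • ε := by
    rw [st_sub, st_one, st_smul, h3]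
  have a2 : (1 - (2 : ZMod p) • ε) * (1 - (2 : ZMod p) • ε) = 1 := by
    simp only [sub_mul, mul_sub, one_mul, mul_one, smul_mul_assoc, mul_smul_comm, h2]
    module
  refine ⟨Submonoid.subset_closure ⟨sub_mem h.alg.one (B.smul_mem _ h1), by rw [Un, a1, a2], ?_,
    ?_⟩, a1, a2⟩
  · have : ε (c0 n) (c0 n) = 0 := by
      rw [← h4, ((h.alg.dg ε h1).tri h.lab).mul_c0, eo_c0 h.alg, mul_zero]
    simp [this]
  · obtain ⟨k, hk⟩ := (Fact.out : p.Prime).even_sub_one (by omega)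
    rw [hk, ← two_mul, pow_mul, sq, a2, one_pow]

theorem rf_eq (π : Mat p n) : rf π = 1 - (2 : ZMod p) • (π + st π) := by
  rw [rf, smul_add, sub_sub]

theorem Iso.idem {π : Mat p n} (h : Iso π) : (π + st π) * (π + st π) = π + st π := by
  rw [add_mul, mul_add, mul_add, h.1, h.2.1, h.2.2, ← st_mul, h.1, add_zero, zero_add]

theorem Iso.star {π : Mat p n} (h : Iso π) : Iso (st π) :=
  ⟨by rw [← st_mul, h.1], by rw [st_st, h.2.2], by rw [st_st, h.2.1]⟩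

/-- tests are reflections -/
theorem Test.refl (h : Str ℓ B) {z : Mat p n} (hz : Test ℓ B z) :
    ∃ ε ∈ B, ε * ε = ε ∧ st ε = ε ∧ ε * eo ℓ B = ε ∧ z = 1 - (2 : ZMod p) • ε := by
  rcases hz with rfl | ⟨π, h1, h2, h3, rfl⟩
  · exact ⟨_, eo_mem h, eo_mul_eo, st_eo h, eo_mul_eo, rfl⟩
  · refine ⟨π + st π, add_mem h1.mem (h.alg.star _ h1.mem), h2.idem, by
      rw [st_add, st_st, add_comm], ?_, rf_eq π⟩
    rw [add_mul, h3, ← st_eo h, ← st_mul, (h.alg.dg _ h1.mem).comm_eo, h3]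

theorem Test.lo (hp : 5 ≤ p) (h : Str ℓ B) {z : Mat p n} (hz : Test ℓ B z) :
    z ∈ Lo B ∧ st z = z ∧ z * z = 1 := by
  obtain ⟨ε, h1, h2, h3, h4, rfl⟩ := hz.refl h
  exact refl_lo hp h h1 h2 h3 h4

theorem test_z0 : Test ℓ B (z0 ℓ B) := Or.inl rfl

theorem z0_triv {a : Ix n} {x : Vec p n} (hx : x ∈ Vb ℓ a) (t : Triv ℓ B a) :
    z0 ℓ B *ᵥ x = x := by
  rw [z0, Matrix.sub_mulVec, Matrix.one_mulVec, Matrix.smul_mulVec, eo_mulVec_triv hx t, smul_zero,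
    sub_zero]

theorem z0_ntriv {a : Ix n} {x : Vec p n} (hx : x ∈ Vb ℓ a) (t : ¬ Triv ℓ B a) :
    z0 ℓ B *ᵥ x = -x := by
  rw [z0, Matrix.sub_mulVec, Matrix.one_mulVec, Matrix.smul_mulVec, eo_mulVec_ntriv hx t]
  module

theorem com_z0 (h : Alg ℓ B) : z0 ℓ B ∈ Com B :=
  sub_mem com_one ((Com B).smul_mem _ (com_eo h))

theorem LoLift.all (hp : 5 ≤ p) {s : Side p n} (h : Str ℓ s.B) {t : ℕ} (H : LoLift ℓ s t) :
    AllLift ℓ s t := fun z hz => H z (hz.lo hp h).1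

/-- elements of `Lo` fix the trivial blocks -/
theorem lo_triv (h : Str ℓ B) {z : Mat p n} (hz : z ∈ Lo B) {a : Ix n} (t : Triv ℓ B a)
    {x : Vec p n} (hx : x ∈ Vb ℓ a) : z *ᵥ x = x := by
  rw [triv_act h t hx (lo_spec h hz).1, (lo_spec h hz).2.2.2, one_smul]

/-- conjugates of tests are tests -/
theorem Test.conj (h : Str ℓ B) {g z : Mat p n} (hg : g ∈ B) (hu : Un g) (hz : Test ℓ B z) :
    Test ℓ B (g * z * st g) := by
  have hs := h.alg.star g hg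
  rcases hz with rfl | ⟨π, ⟨a, x, y, a1, a2, a3, a4⟩, h2, h3, rfl⟩
  · left
    rw [← com_z0 h.alg g hg, mul_assoc, hu.mul_st, mul_one]
  · have e1 : st (g * π * st g) = g * st π * st g := by
      rw [st_mul, st_mul, st_st, mul_assoc]
    have e2 : ∀ X Y : Mat p n, g * X * st g * (g * Y * st g) = g * (X * Y) * st g := fun X Y => by
      simp only [mul_assoc]; rw [← mul_assoc (st g) g, hu.st_mul, one_mul]
    refine Or.inr ⟨g * π * st g, ⟨a, g *ᵥ x, g *ᵥ y, (h.alg.dg g hg).mulVec_mem a1,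
      ⟨h.alg.mul _ (h.alg.mul _ hg _ a2.1) _ hs, fun c hc e => ?_⟩, ?_, fun ρ hρ e => ?_⟩,
      ⟨by rw [e2, h2.1], by rw [e1, e2, h2.2.1, mul_zero, zero_mul],
        by rw [e1, e2, h2.2.2, mul_zero, zero_mul]⟩, ?_, ?_⟩
    · rw [Matrix.mulVec_mulVec] at e
      rw [← mul_assoc, ← mul_assoc, a2.2 _ (h.alg.mul _ hc _ hg) e, zero_mul]
    · rw [e1, ← Matrix.mulVec_mulVec, hu.st_mulVec, ← Matrix.mulVec_mulVec, a3]
    · have := a4 (st g * ρ * g) ⟨h.alg.mul _ (h.alg.mul _ hs _ hρ.1) _ hg, fun c hc e' => by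
        rw [← mul_assoc, ← mul_assoc, hρ.2 _ (h.alg.mul _ hc _ hs) (by
          rw [← Matrix.mulVec_mulVec, hu.st_mulVec, e']), zero_mul]⟩ (by
        rw [st_mul, st_mul, st_st, ← Matrix.mulVec_mulVec, ← Matrix.mulVec_mulVec, e,
          Matrix.mulVec_zero])
      calc ρ = g * (st g * ρ * g) * st g := by
            simp only [mul_assoc]; rw [hu.mul_st, mul_one, ← mul_assoc, hu.mul_st, one_mul]
        _ = 0 := by rw [this, mul_zero, zero_mul]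
    · rw [mul_assoc, ← (h.alg.dg _ hs).comm_eo, ← mul_assoc, mul_assoc g, h3]
    · simp only [rf, e1, mul_sub, sub_mul, mul_one, hu.mul_st, mul_smul_comm, smul_mul_assoc]

/-! ### traces -/

theorem cmp_mem_Tr (h : Str ℓ B) (t : ℕ) {w : Frm p n} (hw : w ∈ Tr ℓ B) : cmp ℓ t w ∈ Tr ℓ B := by
  by_cases e : ∃ a, key ℓ a = t
  · obtain ⟨a, rfl⟩ := e
    refine Submodule.span_le.2 (?_ : _ ⊆ ((Tr ℓ B).comap (cmp ℓ _) : Set (Frm p n))) hw
    rintro _ ⟨m, C, hC, v, rfl⟩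
    change cmp ℓ _ (trf m C v) ∈ Tr ℓ B
    rw [cmp_key h.lab, pull_trf]
    exact trf_mem_Tr m (co_mul' h (co_mul (com_st h.alg (com_pr h.alg _)) hC) (com_pr h.alg _)) _
  · rw [Wt_eq_bot (fun a e' => e ⟨a, e'⟩) (cmp_mem t w)]; exact zero_mem _

theorem pull_mem_Tr (h : Str ℓ B) {C : Fin 3 → Mat p n} (hC : ∀ j, C j ∈ Com B) {w : Frm p n}
    (hw : w ∈ Tr ℓ B) : pull C w ∈ Tr ℓ B := by
  refine Submodule.span_le.2 (?_ : _ ⊆ ((Tr ℓ B).comap (pull C) : Set (Frm p n))) hw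
  rintro _ ⟨m, D, hD, v, rfl⟩
  change pull C (trf m D v) ∈ Tr ℓ B
  rw [pull_trf]
  exact trf_mem_Tr m (co_mul' h (co_mul (com_st h.alg (hC _)) hD) (hC _)) _

theorem perm_mem_Tr (h : Str ℓ B) {σ : Fin 3 → Fin 3} (hσ : Function.Bijective σ) {w : Frm p n}
    (hw : w ∈ Tr ℓ B) : perm σ w ∈ Tr ℓ B := by
  refine Submodule.span_le.2 (?_ : _ ⊆ ((Tr ℓ B).comap (perm σ) : Set (Frm p n))) hw
  rintro _ ⟨m, D, hD, v, rfl⟩
  change perm σ (trf m D v) ∈ Tr ℓ B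
  have key : ∀ σ : Fin 3 → Fin 3, Function.Injective σ → ∀ m, (σ (m + 1) = σ m + 1 ∧
      σ (m + 2) = σ m + 2) ∨ (σ (m + 1) = σ m + 2 ∧ σ (m + 2) = σ m + 1) := by decide
  rcases key σ hσ.1 m with ⟨e1, e2⟩ | ⟨e1, e2⟩
  · have : perm σ (trf m D v) = trf (σ m) D v := by
      funext i; simp only [perm_apply, trf_apply, e1, e2]
    rw [this]; exact trf_mem_Tr _ hD v
  · have : perm σ (trf m D v) = trf (σ m) (st D) v := by
      funext i; simp only [perm_apply, trf_apply, e1, e2, st_apply, Fin.rev_rev]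
    rw [this]; exact trf_mem_Tr _ (co_st h hD) v

/-- traces vanish on orthogonal triples -/
theorem ev_Tr {x : Fin 3 → Vec p n} (hx : ∀ m, x (m + 2) ∈ perp (orb (Co ℓ B) (x (m + 1))))
    {w : Frm p n} (hw : w ∈ Tr ℓ B) : ev w x = 0 := by
  refine Submodule.span_le.2 (?_ : _ ⊆ (LinearMap.ker (evL x) : Set (Frm p n))) hw
  rintro _ ⟨m, D, hD, v, rfl⟩
  change ev (trf m D v) x = 0
  rw [ev_trf, mem_perp_orb.1 (hx m) D hD, zero_mul]

theorem Gen.ev_Tr {a : Fin 3 → Ix n} {x : Fin 3 → Vec p n} (hx : Gen ℓ B a x) {w : Frm p n}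
    (hw : w ∈ Tr ℓ B) : ev w x = 0 := PG.ev_Tr (fun _ => hx.orth _ _) hw

/-- isometries in the algebra preserve generic triples -/
theorem Gen.map (h : Alg ℓ B) {a : Fin 3 → Ix n} {x : Fin 3 → Vec p n} (hx : Gen ℓ B a x)
    {z : Mat p n} (hz : z ∈ B) (hu : Un z) : Gen ℓ B a fun j => z *ᵥ x j where
  mem j := (h.dg z hz).mulVec_mem (hx.mem j)
  orth i j := mem_perp_orb.2 fun C hC => by
    rw [com_mulVec hC.1 hz, hu.ip]; exact mem_perp_orb.1 (hx.orth i j) C hC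
  ind j t e := by
    obtain ⟨_, ⟨C, hC, rfl⟩, _, ⟨D, hD, rfl⟩, e⟩ := Submodule.mem_sup.1 e
    refine hx.ind j t (Submodule.mem_sup.2 ⟨_, ⟨C, hC, rfl⟩, _, ⟨D, hD, rfl⟩, ?_⟩)
    have := congrArg (st z *ᵥ ·) e
    simpa only [evx_apply, com_mulVec hC.1 hz, com_mulVec hD.1 hz, Matrix.mulVec_add,
      hu.st_mulVec] using this

/-! ### lists of module maps -/

theorem mem_CL {s : Side p n} {C : Mat p n} : C ∈ CL s ↔ ∃ a b, C ∈ s.Cs a b := by
  simp [CL]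

theorem mem_CoL {s : Side p n} {C : Mat p n} : C ∈ CoL ℓ s ↔ ∃ a b, C ∈ Cso ℓ s a b := by
  simp [CoL]

theorem Good.mem_cb {s : Side p n} (h : Good ℓ s) {a b : Ix n} {C : Mat p n}
    (hC : C ∈ s.Cs a b) : C ∈ Cb ℓ s.B a b := h.sp a b ▸ mem_spL hC

theorem Good.cso_mem {s : Side p n} (h : Good ℓ s) {a b : Ix n} {C : Mat p n}
    (hC : C ∈ Cso ℓ s a b) : C ∈ Cb ℓ s.B a b ∧ C ∈ Co ℓ s.B := by
  unfold Cso at hC
  split_ifs at hC with t
  · simp at hC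
  · exact ⟨h.mem_cb hC, co_of_cb (h.mem_cb hC) t⟩

theorem Good.spL_cso {s : Side p n} (h : Good ℓ s) (a b : Ix n) :
    spL (Cso ℓ s a b) = Cb ℓ s.B a b ⊓ Co ℓ s.B := by
  refine le_antisymm (spL_le.2 fun C hC => h.cso_mem hC) fun C hC => ?_
  unfold Cso
  split_ifs with t
  · have : C = 0 := by
      rw [← cb_right hC.1, ← hC.2.2, mul_assoc, (dg_pr b).comm_eo, pr_mul_eo_triv t, mul_zero]
    rw [this]; exact zero_mem _
  · rw [h.sp]; exact hC.1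

theorem eq_sum_cb (h : Lab ℓ) (C : Mat p n) :
    C = ∑ a ∈ Finset.univ.filter (fun a : Ix n => ℓ a = a.val),
      ∑ b ∈ Finset.univ.filter (fun a : Ix n => ℓ a = a.val), pr ℓ a * C * pr ℓ b := by
  simp only [← Finset.mul_sum, ← Finset.sum_mul, sum_pr h, one_mul, mul_one]

theorem Good.spL_CL {s : Side p n} (h : Good ℓ s) : spL (CL s) = Com s.B := by
  refine le_antisymm (spL_le.2 fun C hC => ?_) fun C hC => ?_
  · obtain ⟨a, b, hC⟩ := mem_CL.1 hC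
    exact (h.mem_cb hC).1
  · rw [eq_sum_cb h.str.lab C]
    refine Submodule.sum_mem _ fun a _ => Submodule.sum_mem _ fun b _ => ?_
    have := cb_of_com h.str.alg hC a b
    rw [← h.sp] at this
    exact spL_le.2 (fun D hD => mem_spL (mem_CL.2 ⟨a, b, hD⟩)) this

theorem Good.spL_CoL {s : Side p n} (h : Good ℓ s) : spL (CoL ℓ s) = Co ℓ s.B := by
  refine le_antisymm (spL_le.2 fun C hC => ?_) fun C hC => ?_
  · obtain ⟨a, b, hC⟩ := mem_CoL.1 hC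
    exact (h.cso_mem hC).2
  · rw [eq_sum_cb h.str.lab C]
    refine Submodule.sum_mem _ fun a _ => Submodule.sum_mem _ fun b _ => ?_
    have : pr ℓ a * C * pr ℓ b ∈ (spL (Cso ℓ s a b) : Sub p n) := by
      rw [h.spL_cso]
      exact ⟨cb_of_com h.str.alg hC.1 a b,
        co_mul' h.str (co_mul (com_pr h.str.alg a) hC) (com_pr h.str.alg b)⟩
    exact spL_le.2 (fun D hD => mem_spL (mem_CoL.2 ⟨a, b, hD⟩)) this

theorem Good.length_cso {s : Side p n} (h : Good ℓ s) (a b : Ix n) :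
    (Cso ℓ s a b).length ≤ finrank (ZMod p) (Cb ℓ s.B a b) := by
  unfold Cso
  split_ifs
  · exact Nat.zero_le _
  · exact (h.len a b).le

end field

end Pool.Agent.P.MP_f1a348_lc.PG
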