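import Pool.Agent.P.MP_f1a348_lc.PG.QDefs

/-!
Project PG: coordinates.
-/

namespace Pool.Agent.P.MP_f1a348_lc.PG

open Matrix Module

variable {p n : ℕ} [Fact p.Prime]

namespace QCoordx

variable {X : Type} [AddCommGroup X] [Module (ZMod p) X] {N : ℕ}

/-- a linear combination of the first `m` vectors -/
def cb (g : ℕ → X) (m : ℕ) (w : ℕ → ZMod p) : X := ∑ j ∈ Finset.range m, w j • g j

/-- the invariant -/
structure Iv (p : ℕ) [Fact p.Prime] [Module (ZMod p) X] (e : Fin N ≃ X) (g : ℕ → X) (m : ℕ)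
    (s : List ℕ × List (ℕ × V)) (D : List ℕ) : Prop where
  len : s.1.length = m
  gen : ∀ i < m, s.1.getD i 0 = (e.symm (g i)).val
  ind : ∀ w : ℕ → ZMod p, cb g m w = 0 → ∀ j < m, w j = 0
  ent : ∀ y ∈ s.2, y.2.length = m ∧ y.1 = (e.symm (cb g m (tv p y.2))).val
  all : ∀ w : ℕ → ZMod p, ∃ y ∈ s.2, y.1 = (e.symm (cb g m w)).val
  cnt : s.2.length = p ^ m
  old : ∀ x ∈ D, ∃ w : ℕ → ZMod p, x = (e.symm (cb g m w)).val

theorem cb_succ (g : ℕ → X) (m : ℕ) (x : X) (w : ℕ → ZMod p) :
    cb (Function.update g m x) (m + 1) w = w m • x + cb g m w := by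
  rw [cb, Finset.sum_range_succ, Function.update_self, add_comm]
  congr 1
  exact Finset.sum_congr rfl fun j hj => by
    rw [Function.update_of_ne (Finset.mem_range.1 hj).ne]

theorem cb_congr (g : ℕ → X) {m : ℕ} {v w : ℕ → ZMod p} (h : ∀ j < m, v j = w j) :
    cb g m v = cb g m w :=
  Finset.sum_congr rfl fun j hj => by rw [h j (Finset.mem_range.1 hj)]

theorem cb_smul (g : ℕ → X) (m : ℕ) (a : ZMod p) (w : ℕ → ZMod p) :
    cb g m (fun j => a * w j) = a • cb g m w := by
  simp only [cb, Finset.smul_sum, mul_smul]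

theorem cb_fin (g : ℕ → X) (m : ℕ) (w : ℕ → ZMod p) :
    Fintype.linearCombination (ZMod p) (fun j : Fin m => g j) (fun j => w j) = cb g m w := by
  rw [Fintype.linearCombination_apply, cb, Finset.sum_range]

theorem inj {g : ℕ → X} {m : ℕ} (h : ∀ w : ℕ → ZMod p, cb g m w = 0 → ∀ j < m, w j = 0) :
    Function.Injective (Fintype.linearCombination (ZMod p) fun j : Fin m => g j) := by
  refine (injective_iff_map_eq_zero _).2 fun u hu => funext fun j => ?_
  obtain ⟨w, rfl⟩ : ∃ w : ℕ → ZMod p, u = fun j : Fin m => w j :=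
    ⟨fun i => if h : i < m then u ⟨i, h⟩ else 0, funext fun j => by simp only [j.2, dif_pos]⟩
  exact h w ((cb_fin g m w).symm.trans hu) j j.2

theorem card_le (e : Fin N ≃ X) {g : ℕ → X} {m : ℕ}
    (h : ∀ w : ℕ → ZMod p, cb g m w = 0 → ∀ j < m, w j = 0) : p ^ m ≤ N := by
  have := Fintype.card_le_of_injective _ (e.symm.injective.comp (inj h))
  simpa using this

theorem Iv.step {e : Fin N ≃ X} {G : Tb} (h1 : G.1 = List.range N)
    (h3 : ∀ (a b : Fin N) (k : ℕ), k < p →
      tbs G (List.range p) (tpow G (List.range p) a.val k) b.val =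
        (e.symm ((k : ZMod p) • e a + e b)).val)
    {g : ℕ → X} {m : ℕ} {s : List ℕ × List (ℕ × V)} {D : List ℕ} (h : Iv p e g m s D) (a : Fin N) :
    ∃ g' m', Iv p e g' m' (coord1 G (List.range p) s a.val) (D ++ [a.val]) := by
  unfold coord1
  cases hs : s.2.any fun y => y.1 == a.val with
  | true =>
    obtain ⟨y, hy, ey⟩ := List.any_eq_true.1 hs
    refine ⟨g, m, h.len, h.gen, h.ind, h.ent, h.all, h.cnt, fun x hx => ?_⟩
    rcases List.mem_append.1 hx with hx | hx
    · exact h.old x hx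
    · exact ⟨_, (List.mem_singleton.1 hx).trans ((beq_iff_eq.1 ey).symm.trans (h.ent y hy).2)⟩
  | false =>
    have hno : ∀ w : ℕ → ZMod p, cb g m w ≠ e a := fun w hw => by
      obtain ⟨y, hy, ey⟩ := h.all w
      rw [hw, e.symm_apply_apply] at ey
      exact List.any_eq_false.1 hs y hy (beq_iff_eq.2 ey)
    have hind : ∀ w : ℕ → ZMod p, cb (Function.update g m (e a)) (m + 1) w = 0 →
        ∀ j < m + 1, w j = 0 := fun w hw j hj => by
      rw [cb_succ] at hw
      have h0 : w m = 0 := by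
        by_contra h0
        refine hno (fun j => -(w m)⁻¹ * w j) ?_
        rw [cb_smul, eq_neg_of_add_eq_zero_right hw, smul_neg, neg_smul, neg_neg,
          inv_smul_smul₀ h0]
      rw [h0, zero_smul, zero_add] at hw
      rcases Nat.lt_succ_iff_lt_or_eq.1 hj with hj | rfl
      · exact h.ind w hw j hj
      · exact h0
    have hlen : ((List.range p).flatMap fun k => s.2.map fun y =>
        (tbs G (List.range p) (tpow G (List.range p) a.val k) y.1, y.2 ++ [k])).length =
        p ^ (m + 1) := by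
      simp [List.length_flatMap, h.cnt, pow_succ']
    rw [cond_false, List.take_of_length_le
      (by rw [hlen, h1, List.length_range]; exact card_le e hind)]
    refine ⟨Function.update g m (e a), m + 1, by simp [h.len], fun i hi => ?_, hind,
      fun y hy => ?_, fun w => ?_, hlen, fun x hx => ?_⟩
    · rcases Nat.lt_succ_iff_lt_or_eq.1 hi with hi | rfl
      · rw [Function.update_of_ne hi.ne, ← h.gen i hi]
        exact List.getD_append _ _ _ _ (h.len ▸ hi)
      · rw [Function.update_self, e.symm_apply_apply, ← h.len]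
        simp
    · obtain ⟨k, hk, hy⟩ := List.mem_flatMap.1 hy
      obtain ⟨y, hy', rfl⟩ := List.mem_map.1 hy
      obtain ⟨e1, e2⟩ := h.ent y hy'
      refine ⟨by simp [e1], ?_⟩
      have e3 : tv p (y.2 ++ [k]) m = (k : ZMod p) := by
        rw [← e1]; exact tv_append_right y.2 [k] 0
      show tbs _ _ _ y.1 = _
      rw [e2, h3 a _ k (List.mem_range.1 hk), e.apply_symm_apply, cb_succ, e3,
        cb_congr g fun j hj => tv_append_left [k] (e1 ▸ hj)]
    · obtain ⟨y, hy, ey⟩ := h.all w
      refine ⟨_, List.mem_flatMap.2 ⟨(w m).val, List.mem_range.2 (ZMod.val_lt _),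
        List.mem_map_of_mem hy⟩, ?_⟩
      show tbs _ _ _ y.1 = _
      rw [ey, h3 a _ _ (ZMod.val_lt _), e.apply_symm_apply, cb_succ, ZMod.natCast_zmod_val]
    · rcases List.mem_append.1 hx with hx | hx
      · obtain ⟨w, rfl⟩ := h.old x hx
        refine ⟨Function.update w m 0, ?_⟩
        rw [cb_succ, Function.update_self, zero_smul, zero_add,
          cb_congr g fun j hj => Function.update_of_ne hj.ne 0 w]
      · refine ⟨Pi.single m 1, ?_⟩
        rw [List.mem_singleton.1 hx, cb_succ, Pi.single_eq_same, one_smul,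
          cb_congr g (w := 0) fun j hj => Pi.single_eq_of_ne hj.ne 1]
        simp [cb]

theorem fold {e : Fin N ≃ X} {G : Tb} (h1 : G.1 = List.range N) (h2 : tone G = (e.symm 0).val)
    (h3 : ∀ (a b : Fin N) (k : ℕ), k < p →
      tbs G (List.range p) (tpow G (List.range p) a.val k) b.val =
        (e.symm ((k : ZMod p) • e a + e b)).val) (u : List ℕ) (hu : ∀ x ∈ u, x < N) :
    ∃ g m, Iv p e g m (u.foldl (coord1 G (List.range p)) ([], [(tone G, [])])) u := by
  induction u using List.reverseRecOn with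
  | nil =>
    refine ⟨0, 0, rfl, by simp, by simp, fun y hy => ?_, fun w => ⟨_, List.mem_singleton_self _, ?_⟩,
      by simp, by simp⟩
    · rw [List.mem_singleton.1 hy]
      exact ⟨rfl, by simp [cb, h2]⟩
    · simp [cb, h2]
  | append_singleton u x ih =>
    obtain ⟨g, m, h⟩ := ih fun y hy => hu y (by simp [hy])
    rw [List.foldl_append]
    exact h.step h1 h3 ⟨x, hu x (by simp)⟩

end QCoordx

open QCoordx in
theorem coords_spec {X : Type} [AddCommGroup X] [Module (ZMod p) X] {N : ℕ} (e : Fin N ≃ X)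
    {G : Tb} (h1 : G.1 = List.range N) (h2 : tone G = (e.symm 0).val)
    (h3 : ∀ (a b : Fin N) (k : ℕ), k < p →
      tbs G (List.range p) (tpow G (List.range p) a.val k) b.val =
        (e.symm ((k : ZMod p) • e a + e b)).val)
    (hn : (coords G (List.range p)).1.length = n) :
    ∃ κ : X ≃ₗ[ZMod p] (Fin n → ZMod p),
      (∀ i < n, (coords G (List.range p)).1.getD i 0 = (e.symm (κ.symm (un1 i))).val) ∧
      ∀ a : Fin N, ∃ v, ((coords G (List.range p)).2.find? fun y => y.1 == a.val).map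
        (fun y => y.2) = some v ∧ ∀ j : Fin n, tv p v j.val = κ (e a) j := by
  obtain ⟨g, m, h⟩ := fold h1 h2 h3 G.1 fun x hx => List.mem_range.1 (h1 ▸ hx)
  change Iv p e g m (coords G (List.range p)) G.1 at h
  obtain rfl : m = n := h.len.symm.trans hn
  have hall : ∀ a : Fin N, ∃ w : ℕ → ZMod p, e a = cb g m w := fun a => by
    obtain ⟨w, hw⟩ := h.old a.val (h1 ▸ List.mem_range.2 a.2)
    exact ⟨w, by rw [Fin.ext hw, e.apply_symm_apply]⟩
  have hsur : Function.Surjective (Fintype.linearCombination (ZMod p) fun j : Fin m => g j) :=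
    fun x => by
      obtain ⟨w, hw⟩ := hall (e.symm x)
      exact ⟨_, (cb_fin g m w).trans (hw.symm.trans (e.apply_symm_apply x))⟩
  refine ⟨(LinearEquiv.ofBijective _ ⟨inj h.ind, hsur⟩).symm, fun i hi => ?_, fun a => ?_⟩
  · rw [h.gen i hi, LinearEquiv.symm_symm, LinearEquiv.ofBijective_apply,
      Fintype.linearCombination_apply, Finset.sum_eq_single ⟨i, hi⟩
        (fun j _ hj => by rw [un1, if_neg fun e => hj (Fin.ext e), zero_smul]) (by simp),
      un1, if_pos rfl, one_smul]
  · obtain ⟨w, hw⟩ := hall a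
    obtain ⟨y, hy, ey⟩ := h.all w
    rw [← hw, e.symm_apply_apply] at ey
    obtain ⟨z, hz⟩ := Option.isSome_iff_exists.1 
      ((List.find?_isSome (p := fun y : ℕ × V => y.1 == a.val)).2 ⟨y, hy, beq_iff_eq.2 ey⟩)
    have e1 : z.1 = a.val :=
      beq_iff_eq.1 (List.find?_some (p := fun y : ℕ × V => y.1 == a.val) hz)
    have e2 := (h.ent z (List.mem_of_find?_eq_some hz)).2
    refine ⟨z.2, by rw [hz]; rfl, fun j => ?_⟩
    rw [Fin.ext (e1.symm.trans e2), e.apply_symm_apply, ← cb_fin,
      ← LinearEquiv.ofBijective_apply (hf := ⟨inj h.ind, hsur⟩), LinearEquiv.symm_apply_apply]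

end Pool.Agent.P.MP_f1a348_lc.PG
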