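import Pool.Agent.P.MP_f1a348_lc.PG.Defs

/-!
Project PG: toolbox, part 1 (the form, adjoints, labels, triangular matrices, commutants).
-/

namespace Pool.Agent.P.MP_f1a348_lc.PG

open Matrix Module

variable {p n : ℕ} {ℓ : Ix n → ℕ} {B : Sub p n}

/-! ### the form -/

theorem sum_rev {X : Type} [AddCommMonoid X] (f : Ix n → X) : ∑ α : Ix n, f α.rev = ∑ α, f α :=
  Equiv.sum_comp Fin.revPerm f

theorem ip_comm (x y : Vec p n) : ip x y = ip y x := by
  unfold ip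
  rw [← sum_rev]
  exact Finset.sum_congr rfl fun α _ => by rw [Fin.rev_rev, mul_comm]

theorem ip_add_left (x y z : Vec p n) : ip (x + y) z = ip x z + ip y z := by
  simp [ip, add_mul, Finset.sum_add_distrib]

theorem ip_add_right (x y z : Vec p n) : ip x (y + z) = ip x y + ip x z := by
  simp [ip, mul_add, Finset.sum_add_distrib]

theorem ip_smul_left (c : ZMod p) (x y : Vec p n) : ip (c • x) y = c * ip x y := by
  simp [ip, Finset.mul_sum, mul_assoc]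

theorem ip_smul_right (c : ZMod p) (x y : Vec p n) : ip x (c • y) = c * ip x y := by
  simp [ip, Finset.mul_sum, mul_left_comm]

/-- the form as a bilinear map -/
noncomputable def ipL : Vec p n →ₗ[ZMod p] Vec p n →ₗ[ZMod p] ZMod p :=
  LinearMap.mk₂ _ ip ip_add_left ip_smul_left ip_add_right ip_smul_right

@[simp] theorem ipL_apply (x y : Vec p n) : ipL x y = ip x y := rfl

@[simp] theorem ip_zero_left (y : Vec p n) : ip 0 y = 0 := by simp [ip]
@[simp] theorem ip_zero_right (y : Vec p n) : ip y 0 = 0 := by simp [ip]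

theorem ip_neg_left (x y : Vec p n) : ip (-x) y = -ip x y := by simp [ip]
theorem ip_neg_right (x y : Vec p n) : ip x (-y) = -ip x y := by simp [ip]

theorem ip_sub_left (x y z : Vec p n) : ip (x - y) z = ip x z - ip y z := by
  simp [ip, sub_mul]

theorem ip_sub_right (x y z : Vec p n) : ip x (y - z) = ip x y - ip x z := by
  simp [ip, mul_sub]

theorem ip_sum_left {ι : Type} (s : Finset ι) (x : ι → Vec p n) (y : Vec p n) :
    ip (∑ i ∈ s, x i) y = ∑ i ∈ s, ip (x i) y := by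
  rw [← ipL_apply, map_sum, LinearMap.sum_apply]; rfl

theorem ip_sum_right {ι : Type} (s : Finset ι) (x : Vec p n) (y : ι → Vec p n) :
    ip x (∑ i ∈ s, y i) = ∑ i ∈ s, ip x (y i) := by
  rw [← ipL_apply, map_sum]; rfl

theorem ip_single_right (x : Vec p n) (β : Ix n) : ip x (Pi.single β 1) = x β.rev := by
  unfold ip
  rw [Finset.sum_eq_single β.rev]
  · simp
  · intro α _ h
    rw [Pi.single_eq_of_ne (fun e => h (by rw [← e, Fin.rev_rev])), mul_zero]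
  · simp

theorem ip_single_left (x : Vec p n) (β : Ix n) : ip (Pi.single β 1) x = x β.rev := by
  rw [ip_comm, ip_single_right]

theorem ip_nondeg {x : Vec p n} (h : ∀ y, ip x y = 0) : x = 0 := by
  funext β
  have := h (Pi.single β.rev 1)
  rwa [ip_single_right, Fin.rev_rev] at this

theorem ip_ext {x y : Vec p n} (h : ∀ z, ip x z = ip y z) : x = y :=
  sub_eq_zero.1 (ip_nondeg fun z => by rw [ip_sub_left, h, sub_self])

@[simp] theorem st_apply (g : Mat p n) (α β : Ix n) : st g α β = g β.rev α.rev := rfl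

theorem ip_mulVec (g : Mat p n) (x y : Vec p n) : ip (g *ᵥ x) y = ip x (st g *ᵥ y) := by
  simp only [ip, Matrix.mulVec, dotProduct, st_apply, Finset.sum_mul, Finset.mul_sum, Fin.rev_rev]
  rw [Finset.sum_comm]
  refine Finset.sum_congr rfl fun β _ => ?_
  rw [← sum_rev]
  exact Finset.sum_congr rfl fun α _ => by rw [Fin.rev_rev]; ring

@[simp] theorem st_st (g : Mat p n) : st (st g) = g := by ext α β; simp

theorem ip_mulVec_right (g : Mat p n) (x y : Vec p n) : ip x (g *ᵥ y) = ip (st g *ᵥ x) y := by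
  rw [ip_mulVec, st_st]

theorem mat_ext {g h : Mat p n} (H : ∀ x, g *ᵥ x = h *ᵥ x) : g = h := by
  ext α β
  have := congrFun (H (Pi.single β 1)) α
  simpa using this

theorem st_mul (g h : Mat p n) : st (g * h) = st h * st g := by
  ext α β
  simp only [st_apply, Matrix.mul_apply]
  rw [← sum_rev]
  exact Finset.sum_congr rfl fun γ _ => mul_comm _ _

@[simp] theorem st_one : st (1 : Mat p n) = 1 := by
  ext α β
  simp only [st_apply, Matrix.one_apply, Fin.rev_inj, eq_comm]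

@[simp] theorem st_zero : st (0 : Mat p n) = 0 := rfl
theorem st_add (g h : Mat p n) : st (g + h) = st g + st h := rfl
theorem st_sub (g h : Mat p n) : st (g - h) = st g - st h := rfl
theorem st_neg (g : Mat p n) : st (-g) = -st g := rfl
theorem st_smul (c : ZMod p) (g : Mat p n) : st (c • g) = c • st g := rfl

/-- the adjoint as a linear map -/
noncomputable def stL : Mat p n →ₗ[ZMod p] Mat p n where
  toFun := st
  map_add' := st_add
  map_smul' := st_smul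

@[simp] theorem stL_apply (g : Mat p n) : stL g = st g := rfl

theorem st_pow (g : Mat p n) (k : ℕ) : st (g ^ k) = st g ^ k := by
  induction k with
  | zero => simp
  | succ k ih => rw [pow_succ, st_mul, ih, pow_succ']

theorem st_diagonal (d : Ix n → ZMod p) :
    st (Matrix.diagonal d : Mat p n) = Matrix.diagonal fun α => d α.rev := by
  ext α β
  simp only [st_apply, Matrix.diagonal_apply, Fin.rev_inj]
  split_ifs with h1 h2 h2
  · rw [h1]
  · exact absurd h1.symm h2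
  · exact absurd h2.symm h1
  · rfl

theorem st_eq_zero {g : Mat p n} : st g = 0 ↔ g = 0 :=
  ⟨fun h => by rw [← st_st g, h, st_zero], fun h => by rw [h, st_zero]⟩

@[simp] theorem cj_apply (f C : Mat p n) : cj f C = f * C * st f := rfl
@[simp] theorem lr_apply (a b C : Mat p n) : lr a b C = a * C * b := rfl
@[simp] theorem crn_apply (η : Mat p n) (a : Ix n) (C : Mat p n) :
    crn ℓ η a C = η * C * η * pr ℓ a := rfl
@[simp] theorem lm_apply (f C : Mat p n) : lm f C = f * C := rfl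
@[simp] theorem evx_apply (x : Vec p n) (b : Mat p n) : evx x b = b *ᵥ x := rfl
@[simp] theorem act_apply (b : Mat p n) (τ : Tup p n) (k : ℕ) : act b τ k = b *ᵥ τ k := rfl

theorem act_mul (a b : Mat p n) (τ : Tup p n) : act (a * b) τ = act a (act b τ) := by
  funext k; simp [Matrix.mulVec_mulVec]

@[simp] theorem act_one (τ : Tup p n) : act (1 : Mat p n) τ = τ := by funext k; simp

theorem Un.st_mul {g : Mat p n} (h : Un g) : st g * g = 1 := h
theorem Un.mul_st {g : Mat p n} (h : Un g) : g * st g = 1 := mul_eq_one_comm.1 h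
theorem Un.one : Un (1 : Mat p n) := by simp [Un]
theorem Un.star {g : Mat p n} (h : Un g) : Un (st g) := by rw [Un, st_st]; exact h.mul_st

theorem Un.mul {g h : Mat p n} (hg : Un g) (hh : Un h) : Un (g * h) := by
  rw [Un, PG.st_mul, mul_assoc, ← mul_assoc (st g), hg.st_mul, one_mul, hh.st_mul]

theorem Un.pow {g : Mat p n} (hg : Un g) (k : ℕ) : Un (g ^ k) := by
  induction k with
  | zero => simpa using Un.one
  | succ k ih => rw [pow_succ]; exact ih.mul hg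

theorem Un.ip {g : Mat p n} (hg : Un g) (x y : Vec p n) : ip (g *ᵥ x) (g *ᵥ y) = ip x y := by
  rw [ip_mulVec, Matrix.mulVec_mulVec, hg.st_mul, Matrix.one_mulVec]

theorem Un.st_mulVec {g : Mat p n} (hg : Un g) (x : Vec p n) : st g *ᵥ (g *ᵥ x) = x := by
  rw [Matrix.mulVec_mulVec, hg.st_mul, Matrix.one_mulVec]

theorem Un.mulVec_st {g : Mat p n} (hg : Un g) (x : Vec p n) : g *ᵥ (st g *ᵥ x) = x := by
  rw [Matrix.mulVec_mulVec, hg.mul_st, Matrix.one_mulVec]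

/-! ### labels -/

@[simp] theorem rev_c0 : (c0 n).rev = c0 n := Fin.ext (by simp [c0, Fin.val_rev]; omega)

@[simp] theorem c0_val : (c0 n).val = n := rfl

theorem rev_lt_c0 {α : Ix n} : α.rev < c0 n ↔ c0 n < α := by
  rw [← rev_c0, Fin.rev_lt_rev, rev_c0]

theorem c0_lt_rev {α : Ix n} : c0 n < α.rev ↔ α < c0 n := by
  rw [← rev_c0, Fin.rev_lt_rev, rev_c0]

theorem Lab.rev_le (h : Lab ℓ) {α β : Ix n} : ℓ α.rev ≤ ℓ β.rev ↔ ℓ β ≤ ℓ α :=
  ⟨fun e => by simpa using h.sym _ _ e, h.sym _ _⟩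

theorem Lab.rev_eq (h : Lab ℓ) {α β : Ix n} : ℓ α.rev = ℓ β.rev ↔ ℓ α = ℓ β := by
  rw [le_antisymm_iff, le_antisymm_iff, h.rev_le, h.rev_le, and_comm]

theorem Lab.rev_eq' (h : Lab ℓ) {α β : Ix n} : ℓ α.rev = ℓ β ↔ ℓ α = ℓ β.rev := by
  rw [← h.rev_eq, Fin.rev_rev]

theorem Lab.lt (h : Lab ℓ) (α : Ix n) : ℓ α < 2 * n + 1 := (h.le α).trans_lt α.2

theorem Lab.lt_c0 (h : Lab ℓ) {α β : Ix n} (e : ℓ α = ℓ β) : α < c0 n ↔ β < c0 n := by
  have key : ∀ α β : Ix n, ℓ α = ℓ β → α < c0 n → β < c0 n := fun α β e hα => by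
    by_contra hβ
    have h1 := h.mono hα.le
    have h2 := h.mono (not_lt.1 hβ)
    exact hα.ne (h.ctr α (by omega))
  exact ⟨key α β e, key β α e.symm⟩

theorem Lab.c0_lt (h : Lab ℓ) {α β : Ix n} (e : ℓ α = ℓ β) : c0 n < α ↔ c0 n < β := by
  rw [← rev_lt_c0, ← rev_lt_c0]
  exact h.lt_c0 (h.rev_eq.2 e)

/-- the first index of the block of `a` -/
def Lab.fst (h : Lab ℓ) (a : Ix n) : Ix n := ⟨ℓ a, h.lt a⟩

theorem Lab.lab_fst (h : Lab ℓ) (a : Ix n) : ℓ (h.fst a) = ℓ a :=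
  le_antisymm (h.le _) (h.can a _ le_rfl)

theorem nb_congr {a b : Ix n} (e : ℓ a = ℓ b) : nb ℓ a = nb ℓ b := by simp only [nb, e]
theorem pr_congr {a b : Ix n} (e : ℓ a = ℓ b) : (pr ℓ a : Mat p n) = pr ℓ b := by simp only [pr, e]
theorem Vb_congr {a b : Ix n} (e : ℓ a = ℓ b) : (Vb ℓ a : VS p n) = Vb ℓ b := by simp only [Vb, e]

theorem nb_pos (ℓ : Ix n → ℕ) (a : Ix n) : 0 < nb ℓ a :=
  Finset.card_pos.2 ⟨a, by simp⟩

theorem nb_le (ℓ : Ix n → ℕ) (a : Ix n) : nb ℓ a ≤ 2 * n + 1 :=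
  (Finset.card_le_univ _).trans (by simp)

theorem Lab.nb_rev (h : Lab ℓ) (a : Ix n) : nb ℓ a.rev = nb ℓ a := by
  unfold nb
  refine Finset.card_bij (fun β _ => β.rev) (fun β hβ => ?_) (fun _ _ _ _ e => Fin.rev_inj.1 e)
    (fun β hβ => ⟨β.rev, ?_, Fin.rev_rev β⟩)
  · simp only [Finset.mem_filter, Finset.mem_univ, true_and] at hβ ⊢
    exact h.rev_eq'.2 hβ
  · simp only [Finset.mem_filter, Finset.mem_univ, true_and] at hβ ⊢
    exact h.rev_eq.2 hβ

/-- a block is an interval -/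
theorem Lab.block (h : Lab ℓ) (a β : Ix n) : ℓ β = ℓ a ↔ ℓ a ≤ β.val ∧ β.val < ℓ a + nb ℓ a := by
  have key : ∀ β : Ix n, ℓ β = ℓ a → ∀ γ : Ix n, ℓ a ≤ γ.val → γ ≤ β → ℓ γ = ℓ a :=
    fun β e γ h1 h2 => le_antisymm (e ▸ h.mono h2) (h.can a γ h1)
  have hc : ∀ S : Finset (Ix n), (S.image Fin.val).card = S.card := fun S =>
    Finset.card_image_of_injective _ Fin.val_injective
  constructor
  · intro e
    have h1 : ℓ a ≤ β.val := e ▸ h.le β
    refine ⟨h1, ?_⟩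
    have h2 : Finset.Icc (ℓ a) β.val ⊆ (Finset.univ.filter fun γ => ℓ γ = ℓ a).image Fin.val := by
      intro x hx
      rw [Finset.mem_Icc] at hx
      exact Finset.mem_image.2 ⟨⟨x, hx.2.trans_lt β.2⟩,
        by simpa using key β e ⟨x, hx.2.trans_lt β.2⟩ hx.1 hx.2, rfl⟩
    have h3 := Finset.card_le_card h2
    rw [hc, Nat.card_Icc] at h3
    unfold nb
    omega
  · rintro ⟨h1, h2⟩
    by_contra hne
    have h3 : (Finset.univ.filter fun γ => ℓ γ = ℓ a).image Fin.val ⊆ Finset.Ico (ℓ a) β.val := by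
      intro x hx
      obtain ⟨γ, hγ, rfl⟩ := Finset.mem_image.1 hx
      simp only [Finset.mem_filter, Finset.mem_univ, true_and] at hγ
      refine Finset.mem_Ico.2 ⟨hγ ▸ h.le γ, ?_⟩
      by_contra hc'
      exact hne (key γ hγ β h1 (not_lt.1 hc'))
    have h4 := Finset.card_le_card h3
    rw [hc, Nat.card_Ico] at h4
    unfold nb at h2
    omega

theorem lab_l0 : Lab (l0 n) where
  mono α β h := by
    have : α.val ≤ β.val := h
    simp only [l0]; split_ifs <;> omega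
  sym α β := by
    have := α.2
    have := β.2
    simp only [l0, Fin.val_rev]; split_ifs <;> omega
  ctr α := by
    simp only [l0, c0_val, lt_irrefl, if_false, if_true]
    intro h
    refine Fin.ext ?_
    rw [c0_val]
    split_ifs at h <;> omega
  le α := by simp only [l0]; split_ifs <;> omega
  can α β := by simp only [l0]; split_ifs <;> omega

/-! ### triangular matrices -/

@[simp] theorem gr_apply (g : Mat p n) (α β : Ix n) :
    gr ℓ g α β = if ℓ α = ℓ β then g α β else 0 := rfl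

theorem Dg.tri (h : Lab ℓ) {g : Mat p n} (hg : Dg ℓ g) : Tri ℓ g := fun α β e =>
  ⟨(hg α β e).le, h.lt_c0 (hg α β e), h.c0_lt (hg α β e)⟩

theorem exists_of_mul_ne {g h : Mat p n} {α β : Ix n} (e : (g * h) α β ≠ 0) :
    ∃ γ, g α γ ≠ 0 ∧ h γ β ≠ 0 := by
  rw [Matrix.mul_apply] at e
  obtain ⟨γ, _, hγ⟩ := Finset.exists_ne_zero_of_sum_ne_zero e
  exact ⟨γ, left_ne_zero_of_mul hγ, right_ne_zero_of_mul hγ⟩

theorem Tri.mul {g h : Mat p n} (hg : Tri ℓ g) (hh : Tri ℓ h) : Tri ℓ (g * h) := fun α β e => by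
  obtain ⟨γ, h1, h2⟩ := exists_of_mul_ne e
  obtain ⟨a1, a2, a3⟩ := hg _ _ h1
  obtain ⟨b1, b2, b3⟩ := hh _ _ h2
  exact ⟨a1.trans b1, a2.trans b2, a3.trans b3⟩

theorem Dg.mul {g h : Mat p n} (hg : Dg ℓ g) (hh : Dg ℓ h) : Dg ℓ (g * h) := fun α β e => by
  obtain ⟨γ, h1, h2⟩ := exists_of_mul_ne e
  exact (hg _ _ h1).trans (hh _ _ h2)

theorem dg_diagonal (d : Ix n → ZMod p) : Dg ℓ (Matrix.diagonal d : Mat p n) := fun α β e => by
  by_contra h
  exact e (Matrix.diagonal_apply_ne _ fun e' => h (by rw [e']))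

theorem Dg.one : Dg ℓ (1 : Mat p n) := dg_diagonal _

theorem Tri.one : Tri ℓ (1 : Mat p n) := fun α β e => by
  have : α = β := by by_contra h; exact e (Matrix.one_apply_ne h)
  subst this
  exact ⟨le_rfl, Iff.rfl, Iff.rfl⟩

theorem Tri.pow {g : Mat p n} (hg : Tri ℓ g) (k : ℕ) : Tri ℓ (g ^ k) := by
  induction k with
  | zero => simpa using Tri.one
  | succ k ih => rw [pow_succ]; exact ih.mul hg

theorem Tri.add {g h : Mat p n} (hg : Tri ℓ g) (hh : Tri ℓ h) : Tri ℓ (g + h) := fun α β e => by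
  by_cases h1 : g α β = 0
  · exact hh α β (by simpa [h1] using e)
  · exact hg α β h1

theorem Tri.smul {g : Mat p n} (hg : Tri ℓ g) (c : ZMod p) : Tri ℓ (c • g) := fun α β e =>
  hg α β (right_ne_zero_of_mul e)

theorem Tri.sub {g h : Mat p n} (hg : Tri ℓ g) (hh : Tri ℓ h) : Tri ℓ (g - h) := fun α β e => by
  by_cases h1 : g α β = 0
  · exact hh α β (by simpa [h1] using e)
  · exact hg α β h1

theorem Dg.add {g h : Mat p n} (hg : Dg ℓ g) (hh : Dg ℓ h) : Dg ℓ (g + h) := fun α β e => by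
  by_cases h1 : g α β = 0
  · exact hh α β (by simpa [h1] using e)
  · exact hg α β h1

theorem Dg.smul {g : Mat p n} (hg : Dg ℓ g) (c : ZMod p) : Dg ℓ (c • g) := fun α β e =>
  hg α β (right_ne_zero_of_mul e)

theorem Dg.sub {g h : Mat p n} (hg : Dg ℓ g) (hh : Dg ℓ h) : Dg ℓ (g - h) := fun α β e => by
  by_cases h1 : g α β = 0
  · exact hh α β (by simpa [h1] using e)
  · exact hg α β h1

theorem Tri.st (h : Lab ℓ) {g : Mat p n} (hg : Tri ℓ g) : Tri ℓ (st g) := fun α β e => by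
  obtain ⟨a1, a2, a3⟩ := hg _ _ e
  refine ⟨h.rev_le.1 a1, ?_, ?_⟩
  · rw [← c0_lt_rev, ← c0_lt_rev, a3]
  · rw [← rev_lt_c0, ← rev_lt_c0, a2]

theorem Dg.st (h : Lab ℓ) {g : Mat p n} (hg : Dg ℓ g) : Dg ℓ (st g) := fun _ _ e =>
  (h.rev_eq.1 (hg _ _ e)).symm

theorem dg_gr (g : Mat p n) : Dg ℓ (gr ℓ g) := fun α β e => by
  by_contra h
  exact e (by simp [h])

theorem Dg.gr_eq {g : Mat p n} (hg : Dg ℓ g) : gr ℓ g = g := by
  ext α β
  rw [gr_apply]
  split_ifs with h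
  · rfl
  · by_contra e
    exact h (hg α β (Ne.symm e))

@[simp] theorem gr_one : gr ℓ (1 : Mat p n) = 1 := Dg.one.gr_eq

@[simp] theorem gr_gr (g : Mat p n) : gr ℓ (gr ℓ g) = gr ℓ g := (dg_gr g).gr_eq

theorem gr_st (h : Lab ℓ) (g : Mat p n) : gr ℓ (st g) = st (gr ℓ g) := by
  ext α β
  simp only [gr_apply, st_apply, h.rev_eq, eq_comm]

theorem gr_mul {g h : Mat p n} (hg : Tri ℓ g) (hh : Tri ℓ h) :
    gr ℓ (g * h) = gr ℓ g * gr ℓ h := by
  ext α β
  simp only [gr_apply, Matrix.mul_apply]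
  split_ifs with e
  · refine Finset.sum_congr rfl fun γ _ => ?_
    by_cases h1 : g α γ = 0
    · simp [h1]
    by_cases h2 : h γ β = 0
    · simp [h2]
    have a := (hg _ _ h1).1
    have b := (hh _ _ h2).1
    rw [if_pos (by omega), if_pos (by omega)]
  · refine (Finset.sum_eq_zero fun γ _ => ?_).symm
    split_ifs with h1 h2
    · exact absurd (h1.trans h2) e
    all_goals simp

theorem gr_pow {g : Mat p n} (hg : Tri ℓ g) (k : ℕ) : gr ℓ (g ^ k) = gr ℓ g ^ k := by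
  induction k with
  | zero => simp
  | succ k ih => rw [pow_succ, gr_mul (hg.pow k) hg, ih, pow_succ]

theorem Tri.col_c0 {g : Mat p n} (hg : Tri ℓ g) {α : Ix n} (h : α ≠ c0 n) : g α (c0 n) = 0 := by
  by_contra e
  obtain ⟨_, a, b⟩ := hg _ _ e
  rcases lt_or_gt_of_ne h with h | h
  · exact lt_irrefl _ (a.1 h)
  · exact lt_irrefl _ (b.1 h)

theorem Tri.row_c0 {g : Mat p n} (hg : Tri ℓ g) {α : Ix n} (h : α ≠ c0 n) : g (c0 n) α = 0 := by
  by_contra e
  obtain ⟨_, a, b⟩ := hg _ _ e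
  rcases lt_or_gt_of_ne h with h | h
  · exact lt_irrefl _ (a.2 h)
  · exact lt_irrefl _ (b.2 h)

theorem Tri.mul_c0 {g h : Mat p n} (hg : Tri ℓ g) :
    (g * h) (c0 n) (c0 n) = g (c0 n) (c0 n) * h (c0 n) (c0 n) := by
  rw [Matrix.mul_apply, Finset.sum_eq_single (c0 n)]
  · intro γ _ e; rw [hg.row_c0 e, zero_mul]
  · simp

theorem Tri.mulVec_e0 {g : Mat p n} (hg : Tri ℓ g) : g *ᵥ e0 = g (c0 n) (c0 n) • e0 := by
  funext α
  by_cases h : α = c0 n
  · subst h; simp [e0]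
  · simp [e0, h, hg.col_c0 h]

theorem Tri.mulVec_c0 {g : Mat p n} (hg : Tri ℓ g) (x : Vec p n) :
    (g *ᵥ x) (c0 n) = g (c0 n) (c0 n) * x (c0 n) := by
  rw [Matrix.mulVec, dotProduct, Finset.sum_eq_single (c0 n)]
  · intro γ _ e; rw [hg.row_c0 e, zero_mul]
  · simp

theorem Tri.l0 {g : Mat p n} (hg : Tri ℓ g) : Tri (l0 n) g := fun α β e => by
  obtain ⟨_, a, b⟩ := hg _ _ e
  refine ⟨?_, a, b⟩
  simp only [Fin.lt_def, c0_val] at a b
  simp only [PG.l0]; split_ifs <;> omega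

theorem Tri.dg_l0 {g : Mat p n} (hg : Tri ℓ g) : Dg (PG.l0 n) g := fun α β e => by
  obtain ⟨_, a, b⟩ := hg _ _ e
  simp only [Fin.lt_def, c0_val] at a b
  simp only [PG.l0]; split_ifs <;> omega

theorem Par.one : Par ℓ (1 : Mat p n) := ⟨Tri.one, Un.one, Matrix.one_apply_eq _⟩

theorem Par.mul {g h : Mat p n} (hg : Par ℓ g) (hh : Par ℓ h) : Par ℓ (g * h) :=
  ⟨hg.1.mul hh.1, hg.2.1.mul hh.2.1, by rw [hg.1.mul_c0, hg.2.2, hh.2.2, one_mul]⟩

theorem Par.star (h : Lab ℓ) {g : Mat p n} (hg : Par ℓ g) : Par ℓ (st g) :=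
  ⟨hg.1.st h, hg.2.1.star, by rw [st_apply, rev_c0, hg.2.2]⟩

theorem Par.pow {g : Mat p n} (hg : Par ℓ g) (k : ℕ) : Par ℓ (g ^ k) := by
  induction k with
  | zero => simpa using Par.one
  | succ k ih => rw [pow_succ]; exact ih.mul hg

theorem Par.gr (h : Lab ℓ) {g : Mat p n} (hg : Par ℓ g) : Par ℓ (gr ℓ g) :=
  ⟨(dg_gr g).tri h, by rw [Un, ← gr_st h, ← gr_mul (hg.1.st h) hg.1, hg.2.1.st_mul, gr_one],
    by simpa using hg.2.2⟩

theorem Par.l0 {g : Mat p n} (hg : Par ℓ g) : Par (l0 n) g := ⟨hg.1.l0, hg.2⟩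

theorem Par.mulVec_e0 {g : Mat p n} (hg : Par ℓ g) : g *ᵥ e0 = e0 := by
  rw [hg.1.mulVec_e0, hg.2.2, one_smul]

/-! ### blocks -/

theorem mem_Vb {a : Ix n} {x : Vec p n} : x ∈ Vb ℓ a ↔ ∀ β, ℓ β ≠ ℓ a → x β = 0 := Iff.rfl

theorem pr_mulVec (a : Ix n) (x : Vec p n) (β : Ix n) :
    (pr ℓ a *ᵥ x) β = if ℓ β = ℓ a then x β else 0 := by
  simp [pr, Matrix.mulVec_diagonal]

theorem pr_mulVec_mem (a : Ix n) (x : Vec p n) : pr ℓ a *ᵥ x ∈ Vb ℓ a := fun β h => by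
  rw [pr_mulVec, if_neg h]

theorem mem_Vb_iff {a : Ix n} {x : Vec p n} : x ∈ Vb ℓ a ↔ pr ℓ a *ᵥ x = x := by
  refine ⟨fun h => funext fun β => ?_, fun h => h ▸ pr_mulVec_mem a x⟩
  rw [pr_mulVec]
  split_ifs with e
  · rfl
  · exact (h β e).symm

theorem pr_mulVec_of_ne {a b : Ix n} {x : Vec p n} (hx : x ∈ Vb ℓ b) (h : ℓ a ≠ ℓ b) :
    pr ℓ a *ᵥ x = 0 := funext fun β => by
  rw [pr_mulVec]
  split_ifs with e
  · exact hx β (e ▸ h)
  · rfl

theorem single_mem_Vb {a β : Ix n} (h : ℓ β = ℓ a) (c : ZMod p) :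
    (Pi.single β c : Vec p n) ∈ Vb ℓ a := fun γ hγ =>
  Pi.single_eq_of_ne (fun e => hγ (by rw [e, h])) _

@[simp] theorem pr_mul_pr (a : Ix n) : (pr ℓ a : Mat p n) * pr ℓ a = pr ℓ a := by
  simp only [pr, Matrix.diagonal_mul_diagonal]
  congr 1; funext β; split_ifs <;> simp

theorem pr_mul_pr_of_ne {a b : Ix n} (h : ℓ a ≠ ℓ b) : (pr ℓ a : Mat p n) * pr ℓ b = 0 := by
  simp only [pr, Matrix.diagonal_mul_diagonal]
  rw [← Matrix.diagonal_zero]
  congr 1; funext β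
  split_ifs with h1 h2
  · exact absurd (h1.symm.trans h2) h
  all_goals simp

theorem st_pr (h : Lab ℓ) (a : Ix n) : st (pr ℓ a : Mat p n) = pr ℓ a.rev := by
  simp only [pr, st_diagonal, h.rev_eq']

theorem dg_pr (a : Ix n) : Dg ℓ (pr ℓ a : Mat p n) := dg_diagonal _

theorem pr_mul_apply (a : Ix n) (g : Mat p n) (α β : Ix n) :
    (pr ℓ a * g : Mat p n) α β = if ℓ α = ℓ a then g α β else 0 := by
  simp [pr, Matrix.diagonal_mul]

theorem mul_pr_apply (a : Ix n) (g : Mat p n) (α β : Ix n) :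
    (g * pr ℓ a : Mat p n) α β = if ℓ β = ℓ a then g α β else 0 := by
  simp [pr, Matrix.mul_diagonal]

/-- the projections to the blocks add up to the identity -/
theorem sum_pr (h : Lab ℓ) :
    ∑ a ∈ Finset.univ.filter (fun a : Ix n => ℓ a = a.val), (pr ℓ a : Mat p n) = 1 := by
  ext α β
  simp only [Matrix.sum_apply, pr, Matrix.diagonal_apply, Matrix.one_apply]
  split_ifs with e
  · rw [Finset.sum_eq_single (h.fst α)]
    · rw [if_pos (h.lab_fst α).symm]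
    · intro b hb hne
      simp only [Finset.mem_filter, Finset.mem_univ, true_and] at hb
      rw [if_neg fun e' => hne (Fin.ext (hb.symm.trans e'.symm))]
    · intro hn
      exact (hn (Finset.mem_filter.2 ⟨Finset.mem_univ _, h.lab_fst α⟩)).elim
  · simp

/-- a block diagonal matrix commutes with diagonal matrices that are constant on blocks -/
theorem Dg.comm_diagonal {g : Mat p n} (hg : Dg ℓ g) {d : Ix n → ZMod p}
    (hd : ∀ α β, ℓ α = ℓ β → d α = d β) : Matrix.diagonal d * g = g * Matrix.diagonal d := by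
  ext α β
  rw [Matrix.diagonal_mul, Matrix.mul_diagonal]
  by_cases e : g α β = 0
  · simp [e]
  · rw [hd α β (hg α β e), mul_comm]

theorem Dg.comm_pr {g : Mat p n} (hg : Dg ℓ g) (a : Ix n) : pr ℓ a * g = g * pr ℓ a :=
  hg.comm_diagonal fun α β e => by rw [e]

theorem Dg.mulVec_mem {g : Mat p n} (hg : Dg ℓ g) {a : Ix n} {x : Vec p n} (hx : x ∈ Vb ℓ a) :
    g *ᵥ x ∈ Vb ℓ a := by
  rw [mem_Vb_iff] at hx ⊢
  rw [Matrix.mulVec_mulVec, hg.comm_pr, ← Matrix.mulVec_mulVec, hx]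

theorem ip_pr (h : Lab ℓ) {b : Ix n} {y : Vec p n} (hy : y ∈ Vb ℓ b) (x : Vec p n) :
    ip (pr ℓ b.rev *ᵥ x) y = ip x y := by
  rw [ip_mulVec, st_pr h, Fin.rev_rev, mem_Vb_iff.1 hy]

/-- the pairing between a block and its dual block is perfect -/
theorem eq_zero_of_ip (h : Lab ℓ) {b : Ix n} {x : Vec p n} (hx : x ∈ Vb ℓ b.rev)
    (H : ∀ y ∈ Vb ℓ b, ip x y = 0) : x = 0 := by
  refine ip_nondeg fun y => ?_
  rw [← mem_Vb_iff.1 hx, ip_mulVec, st_pr h, Fin.rev_rev]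
  exact H _ (pr_mulVec_mem _ _)

theorem finrank_Vb [Fact p.Prime] (a : Ix n) : finrank (ZMod p) (Vb ℓ a : VS p n) = nb ℓ a := by
  let e : (Vb ℓ a : VS p n) ≃ₗ[ZMod p] ({β : Ix n // ℓ β = ℓ a} → ZMod p) :=
    { toFun := fun x β => x.1 β.1
      map_add' := fun _ _ => rfl
      map_smul' := fun _ _ => rfl
      invFun := fun y => ⟨fun β => if h : ℓ β = ℓ a then y ⟨β, h⟩ else 0, fun β h => dif_neg h⟩
      left_inv := fun x => Subtype.ext (funext fun β => by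
        by_cases h : ℓ β = ℓ a
        · simp [h]
        · simp [h, x.2 β h])
      right_inv := fun y => funext fun β => by simp [β.2] }
  rw [e.finrank_eq, Module.finrank_fintype_fun_eq_card, Fintype.card_subtype]
  rfl

/-! ### commutants -/

theorem mem_Com {C : Mat p n} : C ∈ Com B ↔ ∀ b ∈ B, C * b = b * C := Iff.rfl

theorem mem_Cb {a b : Ix n} {C : Mat p n} :
    C ∈ Cb ℓ B a b ↔ C ∈ Com B ∧ pr ℓ a * C * pr ℓ b = C := Iff.rfl

theorem mem_Co {C : Mat p n} : C ∈ Co ℓ B ↔ C ∈ Com B ∧ C * eo ℓ B = C := Iff.rfl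

theorem mem_Ht {H : Sub p n} {D D' : Submodule (ZMod p) (Tup p n)} {h : Mat p n} :
    h ∈ Ht H D D' ↔ h ∈ H ∧ (∀ τ ∈ D, act h τ ∈ D') ∧ ∀ τ ∈ D', act (st h) τ ∈ D := Iff.rfl

theorem mem_orb {S : Sub p n} {x y : Vec p n} : y ∈ orb S x ↔ ∃ C ∈ S, C *ᵥ x = y :=
  Submodule.mem_map

theorem mem_perp {W : VS p n} {y : Vec p n} : y ∈ perp W ↔ ∀ w ∈ W, ip w y = 0 := Iff.rfl

theorem mem_im {g : Mat p n} {y : Vec p n} : y ∈ im g ↔ ∃ x, g *ᵥ x = y := Iff.rfl

theorem com_one : (1 : Mat p n) ∈ Com B := fun b _ => by simp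

theorem com_mul {C D : Mat p n} (hC : C ∈ Com B) (hD : D ∈ Com B) : C * D ∈ Com B :=
  fun b hb => by rw [mul_assoc, hD b hb, ← mul_assoc, hC b hb, mul_assoc]

theorem com_st (h : Alg ℓ B) {C : Mat p n} (hC : C ∈ Com B) : st C ∈ Com B := fun b hb => by
  rw [← st_st b, ← st_mul, ← st_mul, hC _ (h.star b hb)]

theorem com_pr (h : Alg ℓ B) (a : Ix n) : pr ℓ a ∈ Com B := fun b hb => (h.dg b hb).comm_pr a

theorem com_mulVec {C b : Mat p n} (hC : C ∈ Com B) (hb : b ∈ B) (x : Vec p n) :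
    C *ᵥ (b *ᵥ x) = b *ᵥ (C *ᵥ x) := by
  rw [Matrix.mulVec_mulVec, Matrix.mulVec_mulVec, hC b hb]

theorem Alg.pow (h : Alg ℓ B) {b : Mat p n} (hb : b ∈ B) (k : ℕ) : b ^ k ∈ B := by
  induction k with
  | zero => simpa using h.one
  | succ k ih => rw [pow_succ]; exact h.mul _ ih _ hb

theorem Cb_congr {a a' b b' : Ix n} (e : ℓ a = ℓ a') (e' : ℓ b = ℓ b') :
    Cb ℓ B a b = Cb ℓ B a' b' := by
  ext C; rw [mem_Cb, mem_Cb, pr_congr e, pr_congr e']

theorem Triv_congr {a b : Ix n} (e : ℓ a = ℓ b) : Triv ℓ B a ↔ Triv ℓ B b := by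
  rw [Triv, Triv, Cb_congr e rfl]

theorem eb_congr {a b : Ix n} (e : ℓ a = ℓ b) : eb ℓ B a = eb ℓ B b := by
  rw [eb, eb, Cb_congr e e]

theorem db_congr {a b : Ix n} (e : ℓ a = ℓ b) : db ℓ B a = db ℓ B b := by
  rw [db, db, nb_congr e, eb_congr e]

theorem cb_of_com (h : Alg ℓ B) {C : Mat p n} (hC : C ∈ Com B) (a b : Ix n) :
    pr ℓ a * C * pr ℓ b ∈ Cb ℓ B a b :=
  ⟨com_mul (com_mul (com_pr h a) hC) (com_pr h b), by
    rw [← mul_assoc, ← mul_assoc, pr_mul_pr, mul_assoc, pr_mul_pr]⟩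

theorem cb_left {a b : Ix n} {C : Mat p n} (hC : C ∈ Cb ℓ B a b) : pr ℓ a * C = C := by
  rw [← hC.2, ← mul_assoc, ← mul_assoc, pr_mul_pr]

theorem cb_right {a b : Ix n} {C : Mat p n} (hC : C ∈ Cb ℓ B a b) : C * pr ℓ b = C := by
  rw [← hC.2, mul_assoc, pr_mul_pr]

theorem cb_mul {a b c : Ix n} {C D : Mat p n} (hC : C ∈ Cb ℓ B a b) (hD : D ∈ Cb ℓ B b c) :
    C * D ∈ Cb ℓ B a c :=
  ⟨com_mul hC.1 hD.1, by rw [← mul_assoc, cb_left hC, mul_assoc, cb_right hD]⟩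

theorem cb_pr (h : Alg ℓ B) (a : Ix n) : pr ℓ a ∈ Cb ℓ B a a := ⟨com_pr h a, by simp⟩

theorem cb_st (h : Lab ℓ) (hB : Alg ℓ B) {a b : Ix n} {C : Mat p n} (hC : C ∈ Cb ℓ B a b) :
    st C ∈ Cb ℓ B b.rev a.rev :=
  ⟨com_st hB hC.1, by rw [← st_pr h, ← st_pr h, ← st_mul, ← st_mul, ← mul_assoc, hC.2]⟩

theorem cb_mulVec_mem {a b : Ix n} {C : Mat p n} (hC : C ∈ Cb ℓ B a b) (x : Vec p n) :
    C *ᵥ x ∈ Vb ℓ a := by
  rw [← cb_left hC, ← Matrix.mulVec_mulVec]; exact pr_mulVec_mem _ _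

/-- on vectors of the block of `b`, the component in the block of `a` -/
theorem cb_comp {C : Mat p n} (a : Ix n) {b : Ix n} {x : Vec p n} (hx : x ∈ Vb ℓ b) :
    (pr ℓ a * C * pr ℓ b) *ᵥ x = pr ℓ a *ᵥ (C *ᵥ x) := by
  rw [← Matrix.mulVec_mulVec, ← Matrix.mulVec_mulVec, mem_Vb_iff.1 hx]

theorem dg_eo : Dg ℓ (eo ℓ B) := dg_diagonal _

theorem Dg.comm_eo {g : Mat p n} (hg : Dg ℓ g) : eo ℓ B * g = g * eo ℓ B :=
  hg.comm_diagonal fun α β e => by rw [propext (Triv_congr (B := B) e)]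

theorem com_eo (h : Alg ℓ B) : eo ℓ B ∈ Com B := fun b hb => (h.dg b hb).comm_eo

@[simp] theorem eo_mul_eo : eo ℓ B * eo ℓ B = eo ℓ B := by
  simp only [eo, Matrix.diagonal_mul_diagonal]
  congr 1; funext β; split_ifs <;> simp

theorem eo_mulVec_triv {a : Ix n} {x : Vec p n} (hx : x ∈ Vb ℓ a) (h : Triv ℓ B a) :
    eo ℓ B *ᵥ x = 0 := funext fun β => by
  simp only [eo, Matrix.mulVec_diagonal, Pi.zero_apply]
  by_cases e : ℓ β = ℓ a
  · rw [if_pos ((Triv_congr e).2 h), zero_mul]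
  · rw [hx β e, mul_zero]

theorem eo_mulVec_ntriv {a : Ix n} {x : Vec p n} (hx : x ∈ Vb ℓ a) (h : ¬ Triv ℓ B a) :
    eo ℓ B *ᵥ x = x := funext fun β => by
  simp only [eo, Matrix.mulVec_diagonal]
  by_cases e : ℓ β = ℓ a
  · rw [if_neg fun h' => h ((Triv_congr e).1 h'), one_mul]
  · rw [hx β e, mul_zero]

theorem pr_mul_eo_triv {a : Ix n} (h : Triv ℓ B a) : pr ℓ a * eo ℓ B = 0 := by
  rw [← (dg_pr a).comm_eo]
  exact mat_ext fun x => by
    rw [← Matrix.mulVec_mulVec, eo_mulVec_triv (pr_mulVec_mem a x) h, Matrix.zero_mulVec]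

theorem pr_mul_eo_ntriv {a : Ix n} (h : ¬ Triv ℓ B a) : pr ℓ a * eo ℓ B = pr ℓ a := by
  rw [← (dg_pr a).comm_eo]
  exact mat_ext fun x => by rw [← Matrix.mulVec_mulVec, eo_mulVec_ntriv (pr_mulVec_mem a x) h]

theorem triv_c0 [Fact p.Prime] (h : Alg ℓ B) : Triv ℓ B (c0 n) := fun e => by
  have h1 := cb_pr h (c0 n)
  rw [e, Submodule.mem_bot] at h1
  have h2 := congrFun (congrFun h1 (c0 n)) (c0 n)
  simp [pr] at h2

theorem co_le_com : Co ℓ B ≤ Com B := fun _ h => h.1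

theorem co_mul {C D : Mat p n} (hC : C ∈ Com B) (hD : D ∈ Co ℓ B) : C * D ∈ Co ℓ B :=
  ⟨com_mul hC hD.1, by rw [mul_assoc, hD.2]⟩

theorem co_of_cb {a b : Ix n} {C : Mat p n} (hC : C ∈ Cb ℓ B a b) (h : ¬ Triv ℓ B b) :
    C ∈ Co ℓ B :=
  ⟨hC.1, by rw [← cb_right hC, mul_assoc, pr_mul_eo_ntriv h]⟩

theorem co_mulVec_triv {a : Ix n} {x : Vec p n} (hx : x ∈ Vb ℓ a) (h : Triv ℓ B a) {C : Mat p n}
    (hC : C ∈ Co ℓ B) : C *ᵥ x = 0 := by
  rw [← hC.2, ← Matrix.mulVec_mulVec, eo_mulVec_triv hx h, Matrix.mulVec_zero]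

theorem orb_co_triv {a : Ix n} {x : Vec p n} (hx : x ∈ Vb ℓ a) (h : Triv ℓ B a) :
    orb (Co ℓ B) x = ⊥ := by
  rw [eq_bot_iff]
  rintro _ ⟨C, hC, rfl⟩
  exact co_mulVec_triv hx h hC

theorem orb_co_ntriv (hB : Alg ℓ B) {a : Ix n} {x : Vec p n} (hx : x ∈ Vb ℓ a)
    (h : ¬ Triv ℓ B a) : orb (Co ℓ B) x = orb (Com B) x := by
  refine le_antisymm (Submodule.map_mono co_le_com) ?_
  rintro _ ⟨C, hC, rfl⟩
  exact ⟨C * eo ℓ B, ⟨com_mul hC (com_eo hB), by rw [mul_assoc, eo_mul_eo]⟩, by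
    rw [evx_apply, evx_apply, ← Matrix.mulVec_mulVec, eo_mulVec_ntriv hx h]⟩

theorem self_mem_orb (x : Vec p n) : x ∈ orb (Com B) x := ⟨1, com_one, by simp⟩

theorem stab_orb (x : Vec p n) : Stab B (orb (Com B) x) := by
  rintro C hC _ ⟨D, hD, rfl⟩
  exact ⟨C * D, com_mul hC hD, by simp [Matrix.mulVec_mulVec]⟩

theorem stab_orb_co (x : Vec p n) : Stab B (orb (Co ℓ B) x) := by
  rintro C hC _ ⟨D, hD, rfl⟩
  exact ⟨C * D, co_mul hC hD, by simp [Matrix.mulVec_mulVec]⟩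

theorem stab_bot : Stab B ⊥ := fun C _ w hw => by
  rw [Submodule.mem_bot] at hw ⊢; rw [hw, Matrix.mulVec_zero]

theorem Stab.sup {W W' : VS p n} (h : Stab B W) (h' : Stab B W') : Stab B (W ⊔ W') := by
  intro C hC w hw
  obtain ⟨x, hx, y, hy, rfl⟩ := Submodule.mem_sup.1 hw
  rw [Matrix.mulVec_add]
  exact Submodule.add_mem_sup (h C hC x hx) (h' C hC y hy)

theorem Stab.inf {W W' : VS p n} (h : Stab B W) (h' : Stab B W') : Stab B (W ⊓ W') :=
  fun C hC w hw => ⟨h C hC w hw.1, h' C hC w hw.2⟩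

theorem Stab.perp (hB : Alg ℓ B) {W : VS p n} (h : Stab B W) : Stab B (perp W) :=
  fun C hC y hy w hw => by rw [ip_mulVec_right]; exact hy _ (h _ (com_st hB hC) w hw)

theorem Stab.orb_le {W : VS p n} (h : Stab B W) {x : Vec p n} (hx : x ∈ W) :
    orb (Com B) x ≤ W := by
  rintro _ ⟨C, hC, rfl⟩
  exact h C hC x hx

theorem stab_im {b : Mat p n} (hb : b ∈ B) : Stab B (im b) := by
  rintro C hC _ ⟨x, rfl⟩
  exact ⟨C *ᵥ x, (com_mulVec hC hb x).symm⟩

theorem mem_perp_sup {W W' : VS p n} {y : Vec p n} :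
    y ∈ perp (W ⊔ W') ↔ y ∈ perp W ∧ y ∈ perp W' := by
  refine ⟨fun h => ⟨fun w hw => h w (Submodule.mem_sup_left hw),
    fun w hw => h w (Submodule.mem_sup_right hw)⟩, fun h w hw => ?_⟩
  obtain ⟨x, hx, z, hz, rfl⟩ := Submodule.mem_sup.1 hw
  rw [ip_add_left, h.1 x hx, h.2 z hz, add_zero]

theorem perp_anti {W W' : VS p n} (h : W ≤ W') : perp W' ≤ perp W := fun _ hy w hw => hy w (h hw)

@[simp] theorem perp_bot : perp (⊥ : VS p n) = ⊤ := by
  rw [eq_top_iff]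
  intro y _ w hw
  rw [(Submodule.mem_bot _).1 hw, ip_zero_left]

theorem mem_perp_orb {S : Sub p n} {x y : Vec p n} :
    y ∈ perp (orb S x) ↔ ∀ C ∈ S, ip (C *ᵥ x) y = 0 :=
  ⟨fun h C hC => h _ ⟨C, hC, rfl⟩, fun h => by rintro _ ⟨C, hC, rfl⟩; exact h C hC⟩

theorem isot_iff {x : Vec p n} : Isot B x ↔ x ∈ perp (orb (Com B) x) := mem_perp_orb.symm

theorem perp_orb_symm (hB : Alg ℓ B) {x y : Vec p n} (h : y ∈ perp (orb (Com B) x)) :
    x ∈ perp (orb (Com B) y) :=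
  mem_perp_orb.2 fun C hC => by
    rw [ip_mulVec, ip_comm]; exact mem_perp_orb.1 h _ (com_st hB hC)

theorem perp_eq_orthogonal (W : VS p n) : perp W = LinearMap.BilinForm.orthogonal ipL W := by
  ext y; rfl

theorem ipL_refl : LinearMap.BilinForm.IsRefl (ipL : LinearMap.BilinForm (ZMod p) (Vec p n)) :=
  fun x y h => by rw [ipL_apply, ip_comm]; exact h

theorem ipL_nondeg :
    LinearMap.BilinForm.Nondegenerate (ipL : LinearMap.BilinForm (ZMod p) (Vec p n)) :=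
  ⟨fun _ h => ip_nondeg h, fun _ h => ip_nondeg fun y => by rw [ip_comm]; exact h y⟩

theorem finrank_perp [Fact p.Prime] (W : VS p n) :
    finrank (ZMod p) (perp W) + finrank (ZMod p) W = 2 * n + 1 := by
  rw [perp_eq_orthogonal, LinearMap.BilinForm.finrank_orthogonal ipL_nondeg W]
  have := Submodule.finrank_le W
  simp only [Module.finrank_fintype_fun_eq_card, Fintype.card_fin] at this ⊢
  omega

theorem perp_perp [Fact p.Prime] (W : VS p n) : perp (perp W) = W := by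
  rw [perp_eq_orthogonal, perp_eq_orthogonal]
  exact LinearMap.BilinForm.orthogonal_orthogonal ipL_nondeg ipL_refl W

/-- a vector of the dual block that is orthogonal to the part of `perp W` in the block is in `W` -/
theorem mem_of_ip [Fact p.Prime] (h : Lab ℓ) (hB : Alg ℓ B) {W : VS p n} (hW : Stab B W)
    {b : Ix n} {v : Vec p n} (hv : v ∈ Vb ℓ b.rev)
    (H : ∀ y ∈ Vb ℓ b, y ∈ perp W → ip v y = 0) : v ∈ W := by
  rw [← perp_perp W]
  intro y hy
  rw [ip_comm, ← mem_Vb_iff.1 hv, ip_mulVec, st_pr h, Fin.rev_rev]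
  exact H _ (pr_mulVec_mem _ _) (hW.perp hB _ (com_pr hB b) y hy)

theorem Ht_alg (h : Alg ℓ B) (D : Submodule (ZMod p) (Tup p n)) : Alg ℓ (Ht B D D) where
  one := ⟨h.one, fun τ hτ => by simpa using hτ, fun τ hτ => by simpa using hτ⟩
  mul a ha b hb := ⟨h.mul a ha.1 b hb.1, fun τ hτ => by
    rw [act_mul]; exact ha.2.1 _ (hb.2.1 _ hτ), fun τ hτ => by
    rw [st_mul, act_mul]; exact hb.2.2 _ (ha.2.2 _ hτ)⟩
  star a ha := ⟨h.star a ha.1, ha.2.2, by simpa using ha.2.1⟩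
  dg a ha := h.dg a ha.1

theorem Ht_le (H : Sub p n) (D D' : Submodule (ZMod p) (Tup p n)) : Ht H D D' ≤ H :=
  fun _ h => h.1

/-! ### the group generated by elements of order dividing `p - 1` -/

theorem lo_spec (h : Str ℓ B) {z : Mat p n} (hz : z ∈ Lo B) : z ∈ B ∧ Par ℓ z := by
  induction hz using Submonoid.closure_induction with
  | mem g hg => exact ⟨hg.1, (h.alg.dg g hg.1).tri h.lab, hg.2.1, hg.2.2.1⟩
  | one => exact ⟨h.alg.one, Par.one⟩
  | mul a b _ _ ha hb => exact ⟨h.alg.mul a ha.1 b hb.1, ha.2.mul hb.2⟩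

theorem lo_st (h : Alg ℓ B) {z : Mat p n} (hz : z ∈ Lo B) : st z ∈ Lo B := by
  induction hz using Submonoid.closure_induction with
  | mem g hg =>
    exact Submonoid.subset_closure ⟨h.star g hg.1, hg.2.1.star,
      by rw [st_apply, rev_c0, hg.2.2.1], by rw [← st_pow, hg.2.2.2, st_one]⟩
  | one => rw [st_one]; exact one_mem _
  | mul a b _ _ ha hb => rw [st_mul]; exact mul_mem hb ha

theorem two_ne_zero' [Fact p.Prime] (hp : 5 ≤ p) : (2 : ZMod p) ≠ 0 := by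
  intro h
  have h1 : ((2 : ℕ) : ZMod p) = 0 := by exact_mod_cast h
  have := Nat.le_of_dvd two_pos ((ZMod.natCast_eq_zero_iff 2 p).1 h1)
  omega

end Pool.Agent.P.MP_f1a348_lc.PG
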