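import Pool.Agent.P.MP_f1a348_lc.PG.Struct

/-!
Project PG: toolbox, part 4 (conjugation, the algebra `AA`, cocycle arguments, slices).
-/

namespace Pool.Agent.P.MP_f1a348_lc.PG

open Matrix Module

set_option linter.unusedSectionVars false

variable {p n : ℕ} {ℓ : Ix n → ℕ} {B : Sub p n}

/-! ### conjugation by a block diagonal isometry -/

section conj
variable {f : Mat p n}

theorem Un.cj_mul (h : Un f) (X Y : Mat p n) : cj f (X * Y) = cj f X * cj f Y := by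
  simp only [cj_apply, mul_assoc]; rw [← mul_assoc (st f) f, h.st_mul, one_mul]

theorem Un.cj_one (h : Un f) : cj f 1 = 1 := by rw [cj_apply, mul_one, h.mul_st]

theorem cj_st (f X : Mat p n) : cj f (st X) = st (cj f X) := by
  simp only [cj_apply, st_mul, st_st, mul_assoc]

theorem Un.cj_cj (h : Un f) (X : Mat p n) : cj (st f) (cj f X) = X := by
  simp only [cj_apply, st_st, mul_assoc]; rw [h.st_mul, mul_one, ← mul_assoc, h.st_mul, one_mul]

theorem Un.cj_cj' (h : Un f) (X : Mat p n) : cj f (cj (st f) X) = X := by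
  simpa only [st_st] using h.star.cj_cj X

theorem Un.cj_inj (h : Un f) : Function.Injective (cj f) := fun X Y e => by
  rw [← h.cj_cj X, e, h.cj_cj]

theorem Un.cj_mulVec (h : Un f) (X : Mat p n) (x : Vec p n) :
    cj f X *ᵥ (f *ᵥ x) = f *ᵥ (X *ᵥ x) := by
  rw [cj_apply, ← Matrix.mulVec_mulVec, h.st_mulVec, Matrix.mulVec_mulVec]

theorem Un.mem_map_cj (h : Un f) {S : Sub p n} {X : Mat p n} :
    X ∈ S.map (cj f) ↔ cj (st f) X ∈ S :=
  ⟨by rintro ⟨Y, hY, rfl⟩; rwa [h.cj_cj], fun e => ⟨_, e, h.cj_cj' X⟩⟩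

theorem Un.map_cj_cj (h : Un f) (S : Sub p n) : (S.map (cj f)).map (cj (st f)) = S := by
  ext X; rw [h.star.mem_map_cj, st_st, h.mem_map_cj, h.cj_cj]

theorem Un.finrank_map_cj (h : Un f) (S : Sub p n) :
    finrank (ZMod p) (S.map (cj f)) = finrank (ZMod p) S :=
  (Submodule.equivMapOfInjective _ h.cj_inj S).finrank_eq.symm

theorem Un.cj_of_comm (h : Un f) {X : Mat p n} (e : X * f = f * X) : cj f X = X := by
  rw [cj_apply, ← e, mul_assoc, h.mul_st, mul_one]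

theorem Un.com_map (h : Un f) (B : Sub p n) : Com (B.map (cj f)) = (Com B).map (cj f) := by
  ext C
  rw [h.mem_map_cj]
  constructor
  · intro e b hb
    apply h.cj_inj
    rw [h.cj_mul, h.cj_mul, h.cj_cj', e _ ⟨b, hb, rfl⟩]
  · rintro e _ ⟨b, hb, rfl⟩
    rw [← h.cj_cj' C, ← h.cj_mul, ← h.cj_mul, e b hb]

/-- block diagonal elements of the parabolic group -/
structure Lev (ℓ : Ix n → ℕ) (f : Mat p n) : Prop where
  lab : Lab ℓ
  par : Par ℓ f
  dg : Dg ℓ f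

theorem Par.lev (h : Lab ℓ) {φ : Mat p n} (hφ : Par ℓ φ) : Lev ℓ (PG.gr ℓ φ) :=
  ⟨h, hφ.gr h, dg_gr φ⟩

theorem Lev.un (h : Lev ℓ f) : Un f := h.par.2.1
theorem Lev.star (h : Lev ℓ f) : Lev ℓ (st f) := ⟨h.lab, h.par.star h.lab, h.dg.st h.lab⟩

theorem Lev.cj_pr (h : Lev ℓ f) (a : Ix n) : cj f (pr ℓ a) = pr ℓ a :=
  h.un.cj_of_comm (h.dg.comm_pr a)

theorem Lev.cj_dg (h : Lev ℓ f) {X : Mat p n} (hX : Dg ℓ X) : Dg ℓ (cj f X) :=
  (h.dg.mul hX).mul h.star.dg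

theorem Lev.cj_c0 (h : Lev ℓ f) {X : Mat p n} (hX : Tri ℓ X) :
    cj f X (c0 n) (c0 n) = X (c0 n) (c0 n) := by
  rw [cj_apply, (h.par.1.mul hX).mul_c0, h.par.1.mul_c0, h.par.2.2, h.star.par.2.2, one_mul,
    mul_one]

theorem Lev.alg (h : Lev ℓ f) (hB : Alg ℓ B) : Alg ℓ (B.map (cj f)) where
  one := ⟨1, hB.one, h.un.cj_one⟩
  mul := by
    rintro _ ⟨a, ha, rfl⟩ _ ⟨b, hb, rfl⟩
    exact ⟨a * b, hB.mul a ha b hb, h.un.cj_mul a b⟩
  star := by
    rintro _ ⟨a, ha, rfl⟩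
    exact ⟨st a, hB.star a ha, cj_st f a⟩
  dg := by
    rintro _ ⟨a, ha, rfl⟩
    exact h.cj_dg (hB.dg a ha)

theorem Lev.str (h : Lev ℓ f) (hB : Str ℓ B) : Str ℓ (B.map (cj f)) :=
  ⟨hB.lab, h.alg hB.alg, fun a x hx h0 y hy => by
    obtain ⟨b, hb, e⟩ := hB.sim a _ (h.star.dg.mulVec_mem hx)
      (fun e => h0 (by rw [← h.un.mulVec_st x, e, Matrix.mulVec_zero])) _
      (h.star.dg.mulVec_mem hy)
    exact ⟨_, ⟨b, hb, rfl⟩, by rw [← h.un.mulVec_st x, h.un.cj_mulVec, e, h.un.mulVec_st]⟩⟩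

theorem Lev.cb_map (h : Lev ℓ f) (B : Sub p n) (a b : Ix n) :
    Cb ℓ (B.map (cj f)) a b = (Cb ℓ B a b).map (cj f) := by
  ext C
  rw [h.un.mem_map_cj, mem_Cb, mem_Cb, h.un.com_map, h.un.mem_map_cj]
  refine and_congr_right fun _ => ?_
  rw [← h.star.un.cj_inj.eq_iff, h.star.un.cj_mul, h.star.un.cj_mul, h.star.cj_pr, h.star.cj_pr]

theorem Lev.cb_eq_bot (h : Lev ℓ f) (B : Sub p n) (a b : Ix n) :
    Cb ℓ (B.map (cj f)) a b = ⊥ ↔ Cb ℓ B a b = ⊥ := by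
  rw [h.cb_map]
  refine ⟨fun e => ?_, fun e => by rw [e, Submodule.map_bot]⟩
  rw [← h.un.map_cj_cj (Cb ℓ B a b), e, Submodule.map_bot]

theorem Lev.triv (h : Lev ℓ f) (B : Sub p n) (a : Ix n) :
    Triv ℓ (B.map (cj f)) a ↔ Triv ℓ B a := not_congr (h.cb_eq_bot B _ _)

theorem Lev.eb (h : Lev ℓ f) (B : Sub p n) (a : Ix n) : eb ℓ (B.map (cj f)) a = eb ℓ B a := by
  rw [PG.eb, PG.eb, h.cb_map, h.un.finrank_map_cj]

theorem Lev.db (h : Lev ℓ f) (B : Sub p n) (a : Ix n) : db ℓ (B.map (cj f)) a = db ℓ B a := by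
  rw [PG.db, PG.db, h.eb]

theorem Lev.eo (h : Lev ℓ f) (B : Sub p n) : eo ℓ (B.map (cj f)) = eo ℓ B := by
  classical
  unfold PG.eo
  congr 1; funext β; exact if_congr (h.triv B β) rfl rfl

theorem Lev.z0 (h : Lev ℓ f) (B : Sub p n) : z0 ℓ (B.map (cj f)) = z0 ℓ B := by
  rw [PG.z0, PG.z0, h.eo]

theorem Lev.cj_eo (h : Lev ℓ f) (B : Sub p n) : cj f (PG.eo ℓ B) = PG.eo ℓ B :=
  h.un.cj_of_comm h.dg.comm_eo

theorem Lev.cj_z0 (h : Lev ℓ f) (B : Sub p n) : cj f (PG.z0 ℓ B) = PG.z0 ℓ B := by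
  rw [PG.z0, map_sub, map_smul, h.un.cj_one, h.cj_eo]

theorem Lev.big (h : Lev ℓ f) (B : Sub p n) (d : ℕ) : Big ℓ (B.map (cj f)) d ↔ Big ℓ B d := by
  simp only [Big, h.triv, h.db]

theorem Lev.phi (h : Lev ℓ f) (B : Sub p n) : Phi ℓ (B.map (cj f)) = Phi ℓ B := by
  classical
  unfold Phi
  refine Finset.sum_congr rfl fun α _ => if_congr ?_ (by rw [h.db]) rfl
  simp only [First, h.triv, h.cb_eq_bot]

theorem Lev.co_map (h : Lev ℓ f) (B : Sub p n) : Co ℓ (B.map (cj f)) = (Co ℓ B).map (cj f) := by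
  ext C
  rw [h.un.mem_map_cj, mem_Co, mem_Co, h.un.com_map, h.un.mem_map_cj, h.eo]
  refine and_congr_right fun _ => ?_
  rw [← h.star.un.cj_inj.eq_iff, h.star.un.cj_mul, h.star.cj_eo]

theorem Un.isot (h : Un f) {x : Vec p n} (hx : Isot B x) : Isot (B.map (cj f)) (f *ᵥ x) := by
  intro C hC
  rw [h.com_map] at hC
  obtain ⟨D, hD, rfl⟩ := hC
  rw [h.cj_mulVec, h.ip, hx D hD]

theorem Un.nn (h : Un f) {x : Vec p n} {b : Mat p n} (hb : NN B x b) :
    NN (B.map (cj f)) (f *ᵥ x) (cj f b) := by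
  refine ⟨⟨b, hb.1, rfl⟩, ?_⟩
  rintro _ ⟨a, ha, rfl⟩ e
  rw [h.cj_mulVec] at e
  rw [← h.cj_mul, hb.2 a ha (by rw [← h.st_mulVec (a *ᵥ x), e, Matrix.mulVec_zero]), map_zero]

theorem Lev.test (h : Lev ℓ f) {z : Mat p n} (hz : Test ℓ B z) :
    Test ℓ (B.map (cj f)) (cj f z) := by
  have hu := h.un
  rcases hz with rfl | ⟨π, ⟨a, x, y, a1, a2, a3, a4⟩, h2, h3, rfl⟩
  · left; rw [h.cj_z0, h.z0]
  · refine Or.inr ⟨cj f π, ⟨a, f *ᵥ x, f *ᵥ y, h.dg.mulVec_mem a1, hu.nn a2, ?_, fun ρ hρ e => ?_⟩,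
      ⟨by rw [← hu.cj_mul, h2.1], by rw [← cj_st, ← hu.cj_mul, h2.2.1, map_zero],
        by rw [← cj_st, ← hu.cj_mul, h2.2.2, map_zero]⟩, ?_, ?_⟩
    · rw [← cj_st, hu.cj_mulVec, a3]
    · have h1 := hu.star.nn hρ
      rw [hu.map_cj_cj, hu.st_mulVec] at h1
      rw [← hu.cj_cj' ρ, a4 _ h1 (by
        rw [← cj_st, ← hu.st_mulVec y, hu.star.cj_mulVec, e, Matrix.mulVec_zero]), map_zero]
    · rw [h.eo, ← h.cj_eo B, ← hu.cj_mul, h3]
    · simp only [rf, map_sub, map_smul, hu.cj_one, cj_st]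

theorem Lev.test_iff (h : Lev ℓ f) {z : Mat p n} :
    Test ℓ (B.map (cj f)) z ↔ Test ℓ B (cj (st f) z) :=
  ⟨fun e => by simpa only [h.un.map_cj_cj] using h.star.test e,
    fun e => by simpa only [h.un.cj_cj'] using h.test e⟩

theorem Lev.tr_map (h : Lev ℓ f) (B : Sub p n) :
    Tr ℓ (B.map (cj f)) = (Tr ℓ B).map (pull1 (st f)) := by
  have e : ∀ m C v, pull1 (st f) (trf m C v) = trf m (cj f C) (f *ᵥ v) := fun m C v => by
    rw [pull1, pull_trf, st_st, cj_apply]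
  rw [Tr, Tr, Submodule.map_span, h.co_map]
  congr 1
  ext w
  constructor
  · rintro ⟨m, _, ⟨C, hC, rfl⟩, v, rfl⟩
    exact ⟨_, ⟨m, C, hC, st f *ᵥ v, rfl⟩, by rw [e, h.un.mulVec_st]⟩
  · rintro ⟨_, ⟨m, C, hC, v, rfl⟩, rfl⟩
    exact ⟨m, _, ⟨C, hC, rfl⟩, _, e m C v⟩

theorem Lev.mem_tr (h : Lev ℓ f) {w : Frm p n} :
    pull1 (st f) w ∈ Tr ℓ (B.map (cj f)) ↔ w ∈ Tr ℓ B := by
  rw [h.tr_map]
  refine ⟨?_, fun e => ⟨w, e, rfl⟩⟩
  rintro ⟨v, hv, e⟩
  rwa [← h.un.pull1_st' w, ← e, h.un.pull1_st']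

theorem spL_map {X Y : Type} [AddCommGroup X] [Module (ZMod p) X] [AddCommGroup Y]
    [Module (ZMod p) Y] (g : X →ₗ[ZMod p] Y) (L : List X) : spL (L.map g) = (spL L).map g := by
  rw [spL, spL, Submodule.map_span]
  congr 1; ext y; simp

variable {φ : Mat p n} {s s' : Side p n}

theorem Nt.lev (h : Nt ℓ φ s s') (hl : Lab ℓ) : Lev ℓ (gr ℓ φ) := h.par.lev hl

theorem Nt.good (h : Nt ℓ φ s s') (hs : Good ℓ s) : Good ℓ s' where
  str := h.B ▸ (h.lev hs.str.lab).str hs.str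
  sp a b := by rw [h.Cs, h.B, spL_map, hs.sp, (h.lev hs.str.lab).cb_map]
  len a b := by
    rw [h.Cs, h.B, List.length_map, hs.len, (h.lev hs.str.lab).cb_map,
      (h.lev hs.str.lab).un.finrank_map_cj]

theorem Nt.symm (h : Nt ℓ φ s s') (hl : Lab ℓ) : Nt ℓ (st φ) s' s where
  par := h.par.star hl
  T := by rw [← h.T, h.par.2.1.pull1_st]
  B := by rw [h.B, gr_st hl, (h.lev hl).un.map_cj_cj]
  Cs a b := by
    rw [h.Cs, gr_st hl, List.map_map]
    exact (List.map_id _).symm.trans (List.map_congr_left fun C _ => ((h.lev hl).un.cj_cj C).symm)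

theorem Nt.cso (h : Nt ℓ φ s s') (hl : Lab ℓ) (a b : Ix n) :
    Cso ℓ s' a b = (Cso ℓ s a b).map (cj (gr ℓ φ)) := by
  have e : Triv ℓ s'.B b ↔ Triv ℓ s.B b := h.B ▸ (h.lev hl).triv s.B b
  by_cases t : Triv ℓ s.B b
  · rw [Cso, Cso, if_pos t, if_pos (e.2 t), List.map_nil]
  · rw [Cso, Cso, if_neg t, if_neg fun t' => t (e.1 t'), h.Cs]

theorem Nt.cl (h : Nt ℓ φ s s') : CL s' = (CL s).map (cj (gr ℓ φ)) := by
  simp only [CL, h.Cs, List.map_flatMap]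

theorem Nt.col (h : Nt ℓ φ s s') (hl : Lab ℓ) : CoL ℓ s' = (CoL ℓ s).map (cj (gr ℓ φ)) := by
  simp only [CoL, h.cso hl, List.map_flatMap]

theorem getD_map_lin {X Y : Type} [AddCommGroup X] [Module (ZMod p) X] [AddCommGroup Y]
    [Module (ZMod p) Y] (g : X →ₗ[ZMod p] Y) (L : List X) (i : ℕ) :
    (L.map g).getD i 0 = g (L.getD i 0) := by
  rw [← map_zero g, List.getD_map]

theorem Ht_map (h : Un f) (B : Sub p n) (D : Submodule (ZMod p) (Tup p n)) :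
    Ht (B.map (lm f)) D (D.map (act f)) = (Ht B D D).map (lm f) := by
  have e : ∀ τ : Tup p n, act (st f) (act f τ) = τ := fun τ => by rw [← act_mul, h.st_mul, act_one]
  ext X
  constructor
  · rintro ⟨⟨b, hb, rfl⟩, h1, h2⟩
    refine ⟨b, ⟨hb, fun τ hτ => ?_, fun τ hτ => ?_⟩, rfl⟩
    · obtain ⟨σ, hσ, e1⟩ := h1 τ hτ
      rw [lm_apply, act_mul] at e1
      rwa [← e (act b τ), ← e1, e]
    · have := h2 _ ⟨τ, hτ, rfl⟩
      rwa [lm_apply, st_mul, act_mul, e] at this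
  · rintro ⟨b, ⟨hb, h1, h2⟩, rfl⟩
    refine ⟨⟨b, hb, rfl⟩, fun τ hτ => ⟨_, h1 τ hτ, (act_mul _ _ _).symm⟩, ?_⟩
    rintro _ ⟨τ, hτ, rfl⟩
    rw [lm_apply, st_mul, act_mul, e]
    exact h2 τ hτ

end conj

/-! ### the algebra `AA` -/

section aa
variable {a : Fin 3 → Ix n}

theorem aa_gen (σ : Equiv.Perm (Fin 3)) {C : Fin 3 → Mat p n}
    (hC : ∀ j, C j ∈ Cb ℓ B (a j) (a (σ j))) : perm σ ∘ₗ pull C ∈ AA ℓ B a :=
  Submodule.subset_span ⟨σ, C, hC, rfl⟩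

theorem aa_ind {P : (Frm p n →ₗ[ZMod p] Frm p n) → Prop}
    (h0 : ∀ (σ : Equiv.Perm (Fin 3)) (C : Fin 3 → Mat p n),
      (∀ j, C j ∈ Cb ℓ B (a j) (a (σ j))) → P (perm σ ∘ₗ pull C))
    (h1 : P 0) (h2 : ∀ x y, P x → P y → P (x + y)) (h3 : ∀ (c : ZMod p) x, P x → P (c • x))
    {μ : Frm p n →ₗ[ZMod p] Frm p n} (hμ : μ ∈ AA ℓ B a) : P μ := by
  induction hμ using Submodule.span_induction with
  | mem x hx => obtain ⟨σ, C, hC, rfl⟩ := hx; exact h0 σ C hC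
  | zero => exact h1
  | add x y _ _ hx hy => exact h2 x y hx hy
  | smul c x _ hx => exact h3 c x hx

theorem aa_cmp (h : Lab ℓ) (hB : Alg ℓ B) (a : Fin 3 → Ix n) : cmp ℓ (key ℓ a) ∈ AA ℓ B a := by
  have : cmp ℓ (key ℓ a) = perm (1 : Equiv.Perm (Fin 3)) ∘ₗ pull fun j => (pr ℓ (a j) : Mat p n) :=
    LinearMap.ext fun w => cmp_key h a w
  rw [this]; exact aa_gen 1 fun j => cb_pr hB _

theorem gen_comp (σ τ : Equiv.Perm (Fin 3)) (C D : Fin 3 → Mat p n) :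
    (perm σ ∘ₗ pull C) ∘ₗ (perm τ ∘ₗ pull D) =
      perm (σ * τ : Equiv.Perm (Fin 3)) ∘ₗ pull fun j => D j * C (τ j) :=
  LinearMap.ext fun w => by
    simp only [LinearMap.comp_apply, pull_perm τ.bijective, pull_pull, perm_perm]; rfl

theorem aa_comp {μ ν : Frm p n →ₗ[ZMod p] Frm p n} (hμ : μ ∈ AA ℓ B a) (hν : ν ∈ AA ℓ B a) :
    μ ∘ₗ ν ∈ AA ℓ B a := by
  refine aa_ind (P := fun μ => μ ∘ₗ ν ∈ AA ℓ B a) (fun σ C hC => ?_) (by simp)
    (fun x y hx hy => by rw [LinearMap.add_comp]; exact add_mem hx hy)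
    (fun c x hx => by rw [LinearMap.smul_comp]; exact Submodule.smul_mem _ c hx) hμ
  refine aa_ind (P := fun ν => (perm σ ∘ₗ pull C) ∘ₗ ν ∈ AA ℓ B a) (fun τ D hD => ?_) (by simp)
    (fun x y hx hy => by rw [LinearMap.comp_add]; exact add_mem hx hy)
    (fun c x hx => by rw [LinearMap.comp_smul]; exact Submodule.smul_mem _ c hx) hν
  rw [gen_comp]
  exact aa_gen _ fun j => cb_mul (hD j) (hC (τ j))

theorem aa_cmp_right (h : Lab ℓ) {μ : Frm p n →ₗ[ZMod p] Frm p n} (hμ : μ ∈ AA ℓ B a)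
    (w : Frm p n) : μ (cmp ℓ (key ℓ a) w) = μ w := by
  refine aa_ind (P := fun μ => μ (cmp ℓ (key ℓ a) w) = μ w) (fun σ C hC => ?_) rfl
    (fun x y hx hy => by simp only [LinearMap.add_apply, hx, hy])
    (fun c x hx => by simp only [LinearMap.smul_apply, hx]) hμ
  simp only [LinearMap.comp_apply, cmp_key h, pull_pull, cb_left (hC _)]

theorem aa_mem_Wt (h : Lab ℓ) {μ : Frm p n →ₗ[ZMod p] Frm p n} (hμ : μ ∈ AA ℓ B a)
    (w : Frm p n) : μ w ∈ Wt ℓ (key ℓ a) := by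
  refine aa_ind (P := fun μ => μ w ∈ Wt ℓ (key ℓ a)) (fun σ C hC => ?_) (zero_mem _)
    (fun x y hx hy => add_mem hx hy) (fun c x hx => Submodule.smul_mem _ c hx) hμ
  rw [mem_Wt_iff, cmp_key h]
  simp only [LinearMap.comp_apply, pull_perm σ.bijective, pull_pull, cb_right (hC _)]

theorem aa_pull1 {μ : Frm p n →ₗ[ZMod p] Frm p n} (hμ : μ ∈ AA ℓ B a) {z : Mat p n} (hz : z ∈ B)
    (w : Frm p n) : μ (pull1 z w) = pull1 z (μ w) := by
  refine aa_ind (P := fun μ => μ (pull1 z w) = pull1 z (μ w)) (fun σ C hC => ?_) (by simp)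
    (fun x y hx hy => by simp only [LinearMap.add_apply, hx, hy, map_add])
    (fun c x hx => by simp only [LinearMap.smul_apply, hx, map_smul]) hμ
  simp only [LinearMap.comp_apply, pull1, pull_perm σ.bijective, pull_pull, (hC _).1 z hz]

theorem ev_gen (σ : Equiv.Perm (Fin 3)) (C : Fin 3 → Mat p n) (w : Frm p n)
    (x : Fin 3 → Vec p n) : ev ((perm σ ∘ₗ pull C) w) x = ev w fun j => C j *ᵥ x (σ j) := by
  rw [LinearMap.comp_apply, ev_perm σ.bijective, ev_pull]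

theorem pair_perm (σ : Equiv.Perm (Fin 3)) (v w : Frm p n) :
    pair (perm σ v) w = pair v (perm σ.symm w) := by
  unfold pair
  refine Fintype.sum_equiv (Equiv.arrowCongr σ.symm (Equiv.refl _)) _ _ fun i => ?_
  simp [Equiv.arrowCongr, Function.comp_def]

theorem pair_add_left (u v w : Frm p n) : pair (u + v) w = pair u w + pair v w := by
  simp [pair, add_mul, Finset.sum_add_distrib]

theorem pair_smul_left (c : ZMod p) (v w : Frm p n) : pair (c • v) w = c * pair v w := by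
  simp [pair, Finset.mul_sum, mul_assoc]

theorem mem_W0_iff {t : ℕ} {w : Frm p n} :
    w ∈ W0 ℓ B t ↔ w ∈ Wt ℓ t ∧ ∀ τ ∈ Tr ℓ B, pair w τ = 0 := by
  rw [mem_W0]
  refine and_congr_right fun _ => ⟨fun h τ hτ => ?_, fun h m C hC => ip_nondeg fun v => ?_⟩
  · induction hτ using Submodule.span_induction with
    | mem x hx => obtain ⟨m, C, hC, v, rfl⟩ := hx; rw [← ip_con, h m C hC, ip_zero_left]
    | zero => simp [pair]
    | add x y _ _ hx hy => rw [pair_comm, pair_add_left, pair_comm x, pair_comm y, hx, hy, add_zero]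
    | smul c x _ hx => rw [pair_comm, pair_smul_left, pair_comm x, hx, mul_zero]
  · rw [ip_con]; exact h _ (trf_mem_Tr m hC v)

variable [Fact p.Prime]

theorem aa_Tr (h : Str ℓ B) {μ : Frm p n →ₗ[ZMod p] Frm p n} (hμ : μ ∈ AA ℓ B a) {w : Frm p n}
    (hw : w ∈ Tr ℓ B) : μ w ∈ Tr ℓ B :=
  aa_ind (P := fun μ => μ w ∈ Tr ℓ B)
    (fun σ _ hC => perm_mem_Tr h σ.bijective (pull_mem_Tr h (fun j => (hC j).1) hw)) (zero_mem _)
    (fun _ _ hx hy => add_mem hx hy) (fun c _ hx => Submodule.smul_mem _ c hx) hμ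

theorem aa_W0 (h : Str ℓ B) {μ : Frm p n →ₗ[ZMod p] Frm p n} (hμ : μ ∈ AA ℓ B a) {w : Frm p n}
    (hw : w ∈ W0 ℓ B (key ℓ a)) : μ w ∈ W0 ℓ B (key ℓ a) := by
  refine aa_ind (P := fun μ => μ w ∈ W0 ℓ B (key ℓ a)) (fun σ C hC => ?_) (zero_mem _)
    (fun _ _ hx hy => add_mem hx hy) (fun c _ hx => Submodule.smul_mem _ c hx) hμ
  refine mem_W0_iff.2 ⟨aa_mem_Wt h.lab (aa_gen σ hC) w, fun τ hτ => ?_⟩
  rw [LinearMap.comp_apply, pair_perm, pair_pull]
  exact (mem_W0_iff.1 hw).2 _ (pull_mem_Tr h (fun j => com_st h.alg (hC j).1)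
    (perm_mem_Tr h σ.symm.bijective hτ))

end aa

/-! ### two cocycle arguments -/

section cocycle
variable [Fact p.Prime] {s : Side p n} {t : ℕ}

open Classical in
/-- the central reflection acts on a level by a sign -/
theorem pull1_z0 (h : Lab ℓ) {a : Fin 3 → Ix n} {w : Frm p n} (hw : w ∈ Wt ℓ (key ℓ a)) :
    pull1 (z0 ℓ B) w = (∏ j, if Triv ℓ B (a j) then (1 : ZMod p) else -1) • w := by
  refine Wt_ext h (pull1_mem_Wt h (Dg.one.sub (dg_eo.smul _)) hw) (Submodule.smul_mem _ _ hw)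
    fun x hx => ?_
  rw [ev_pull1, ev_smul, ← ev_smul_slots]
  congr 1; funext j
  split_ifs with e
  · rw [z0_triv (hx j) e, one_smul]
  · rw [z0_ntriv (hx j) e, neg_one_smul]

/-- a cocycle with trivial action on `Q / P` vanishes -/
theorem hom_arg (hp : 5 ≤ p) (h : Str ℓ s.B) (H : LoLift ℓ s t)
    {P Q : Submodule (ZMod p) (Frm p n)} (hP : Sp ℓ s.T t ≤ P)
    (hQ : ∀ z ∈ Lo s.B, ∀ g, Lf ℓ s.T s.T t z g → kap ℓ s.T t g ∈ Q)
    (ha : ∀ z ∈ Lo s.B, ∀ w ∈ Q, pull1 z w - w ∈ P) {z : Mat p n} (hz : z ∈ Lo s.B)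
    {g : Mat p n} (hg : Lf ℓ s.T s.T t z g) : kap ℓ s.T t g ∈ P := by
  have hm : ∀ z ∈ Lo s.B, ∀ z' ∈ Lo s.B, ∀ g g', Lf ℓ s.T s.T t z g → Lf ℓ s.T s.T t z' g' →
      kap ℓ s.T t (g * g') - (kap ℓ s.T t g + kap ℓ s.T t g') ∈ P := fun z hz z' hz' g g' a b => by
    rw [kap_mul h.lab a b, add_sub_add_right_eq_sub]
    exact ha z' hz' _ (hQ z hz g a)
  induction hz using Submonoid.closure_induction generalizing g with
  | mem z hz =>
    have hz' : z ∈ Lo s.B := Submonoid.subset_closure hz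
    have h1 : ∀ k : ℕ, kap ℓ s.T t (g ^ k) - (k : ZMod p) • kap ℓ s.T t g ∈ P := fun k => by
      induction k with
      | zero => simp
      | succ k ih =>
        have := add_mem (hm _ (pow_mem hz' k) z hz' _ _ (hg.pow k) hg) ih
        rw [pow_succ, Nat.cast_succ, add_smul, one_smul]
        convert this using 1; abel
    have h2 := sub_mem (h1 (p - 1)) (hP (kap_mem_Sp (hz.2.2.2 ▸ hg.pow (p - 1))))
    rw [Nat.cast_sub (by omega), ZMod.natCast_self] at h2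
    simpa using h2
  | one => exact hP (kap_mem_Sp hg)
  | mul a b ha' hb' iha ihb =>
    obtain ⟨g1, h1⟩ := H a ha'
    obtain ⟨g2, h2⟩ := H b hb'
    have := add_mem (add_mem (hP (kap_sub_mem h.lab (h1.mul h2) hg)) (hm a ha' b hb' _ _ h1 h2))
      (add_mem (iha h1) (ihb h2))
    simpa using this

/-- the argument with the central reflection -/
theorem odd_arg (h : Str ℓ B) {T : Frm p n} (ho : ∀ w ∈ Wt ℓ t, pull1 (z0 ℓ B) w = -w)
    {z g g0 : Mat p n} (hz : z ∈ B) (hg : Lf ℓ T T t z g) (h0 : Lf ℓ T T t (z0 ℓ B) g0) :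
    (2 : ZMod p) • kap ℓ T t g - (kap ℓ T t g0 - pull1 z (kap ℓ T t g0)) ∈ Sp ℓ T t := by
  have h1 := kap_sub_mem h.lab (hg.mul h0) (com_z0 h.alg z hz ▸ h0.mul hg)
  rw [kap_mul h.lab h0 hg, kap_mul h.lab hg h0, ho _ (kap_mem T t g)] at h1
  convert h1 using 1
  rw [two_smul]; abel

theorem mem_Sh (h : Lab ℓ) {g0 : Mat p n} (h0 : Lf ℓ s.T s.T t (z0 ℓ s.B) g0)
    {y : ZMod p × Frm p n} : y ∈ Sh ℓ s t ↔ y.2 - y.1 • kap ℓ s.T t g0 ∈ Sp ℓ s.T t := by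
  refine ⟨fun hy => ?_, fun hy => ?_⟩
  · induction hy using Submodule.span_induction with
    | mem x hx => obtain ⟨g, hg, rfl⟩ := hx; simpa using kap_sub_mem h h0 hg
    | zero => simp
    | add x y _ _ hx hy =>
      have := add_mem hx hy
      rw [Prod.fst_add, Prod.snd_add, add_smul]
      convert this using 1; abel
    | smul c x _ hx =>
      have := Submodule.smul_mem _ c hx
      rwa [smul_sub, smul_smul] at this
  · obtain ⟨g, hg, e⟩ := h0.adjust h hy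
    have h1 : ((1 : ZMod p), kap ℓ s.T t g) ∈ Sh ℓ s t := Submodule.subset_span ⟨g, hg, rfl⟩
    have h2 : ((1 : ZMod p), kap ℓ s.T t g0) ∈ Sh ℓ s t := Submodule.subset_span ⟨g0, h0, rfl⟩
    have := add_mem (sub_mem h1 h2) (Submodule.smul_mem _ y.1 h2)
    convert this using 1
    rw [e]
    ext <;> simp

theorem mem_of_two_smul (hp : 5 ≤ p) {X : Type} [AddCommGroup X] [Module (ZMod p) X]
    {S : Submodule (ZMod p) X} {x : X} (h : (2 : ZMod p) • x ∈ S) : x ∈ S :=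
  (S.smul_mem_iff (two_ne_zero' hp)).1 h

end cocycle

/-! ### slices -/

theorem cmb_add (L : List (Mat p n)) (c d : Vec p n) : cmb L (c + d) = cmb L c + cmb L d := by
  simp [cmb, add_smul, Finset.sum_add_distrib]

theorem cmb_smul (L : List (Mat p n)) (a : ZMod p) (c : Vec p n) : cmb L (a • c) = a • cmb L c := by
  simp [cmb, Finset.smul_sum, mul_smul]

@[simp] theorem cmb_zero (L : List (Mat p n)) : cmb L 0 = 0 := by simp [cmb]

theorem getD_mem_spL {X : Type} [AddCommGroup X] [Module (ZMod p) X] (L : List X) (i : ℕ) :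
    L.getD i 0 ∈ (spL L : Submodule (ZMod p) X) := by
  by_cases h : i < L.length
  · rw [List.getD_eq_getElem _ _ h]; exact mem_spL (List.getElem_mem h)
  · rw [List.getD_eq_default _ _ (not_lt.1 h)]; exact zero_mem _

theorem cmb_mem (L : List (Mat p n)) (c : Vec p n) : cmb L c ∈ (spL L : Sub p n) :=
  Submodule.sum_mem _ fun _ _ => Submodule.smul_mem _ _ (getD_mem_spL L _)

theorem exists_cmb {L : List (Mat p n)} (hL : L.length ≤ 2 * n + 1) {C : Mat p n}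
    (hC : C ∈ (spL L : Sub p n)) :
    ∃ c : Vec p n, (∀ α : Ix n, L.length ≤ α.val → c α = 0) ∧ cmb L c = C := by
  induction hC using Submodule.span_induction with
  | mem x hx =>
    obtain ⟨i, hi, rfl⟩ := List.getElem_of_mem hx
    refine ⟨Pi.single ⟨i, by omega⟩ 1, fun α h => Pi.single_eq_of_ne (fun e => ?_) _, ?_⟩
    · rw [e] at h; exact absurd hi (not_lt.2 h)
    · rw [cmb, Finset.sum_eq_single ⟨i, by omega⟩]
      · simp [hi]
      · intro b _ hb; rw [Pi.single_eq_of_ne hb, zero_smul]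
      · simp
  | zero => exact ⟨0, fun _ _ => rfl, cmb_zero L⟩
  | add x y _ _ hx hy =>
    obtain ⟨c, h1, rfl⟩ := hx
    obtain ⟨d, h2, rfl⟩ := hy
    exact ⟨c + d, fun α h => by simp [h1 α h, h2 α h], cmb_add L c d⟩
  | smul a x _ hx =>
    obtain ⟨c, h1, rfl⟩ := hx
    exact ⟨a • c, fun α h => by simp [h1 α h], cmb_smul L a c⟩

theorem Good.length_cso_le [Fact p.Prime] {s : Side p n} (h : Good ℓ s) (a b : Ix n) :
    (Cso ℓ s a b).length ≤ 2 * n + 1 := (h.length_cso a b).trans (finrank_cb_le_M h.str a b)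

theorem Good.cmb_mem {s : Side p n} (h : Good ℓ s) (a b : Ix n) (c : Vec p n) :
    cmb (Cso ℓ s a b) c ∈ Cb ℓ s.B a b ∧ cmb (Cso ℓ s a b) c ∈ Co ℓ s.B :=
  ⟨spL_le.2 (fun C hC => by
      unfold Cso at hC
      split_ifs at hC
      · simp at hC
      · exact h.sp a b ▸ mem_spL hC) (PG.cmb_mem _ c),
    spL_le.2 (fun C hC => by
      unfold Cso at hC
      split_ifs at hC with t
      · simp at hC
      · exact co_of_cb (h.sp a b ▸ mem_spL hC) t) (PG.cmb_mem _ c)⟩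

theorem au_add (θ τ : Frm p n) (u y : Vec p n) : au (θ + τ) u y = au θ u y + au τ u y :=
  ip_ext fun z => by simp only [ip_add_left, ip_au, ev_add]

theorem au_mem (h : Lab ℓ) {a : Fin 3 → Ix n} {θ : Frm p n} (hθ : θ ∈ Wt ℓ (key ℓ a))
    (u y : Vec p n) : au θ u y ∈ Vb ℓ (a 2).rev := fun β hβ =>
  Finset.sum_eq_zero fun i _ => by
    split_ifs with e
    · rw [hθ i fun e' => hβ (h.rev_eq'.1 (e ▸ (key_eq_iff h).1 e' 2)), zero_mul, zero_mul]
    · rfl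

theorem hat_fst (s : Side p n) (a : Fin 3 → Ix n) (θ : Frm p n) (q y : HH p n) :
    (hat ℓ s a θ q y).1 = au θ q.1 y.1 + cmb (Cso ℓ s (a 2).rev (a 1)) q.2 *ᵥ y.1 +
      cmb (Cso ℓ s (a 2).rev (a 0)) y.2 *ᵥ q.1 := rfl

theorem hat_snd (s : Side p n) (a : Fin 3 → Ix n) (θ : Frm p n) (q y : HH p n) (i : Ix n) :
    (hat ℓ s a θ q y).2 i = ip ((Cso ℓ s (a 1).rev (a 0)).getD i.val 0 *ᵥ q.1) y.1 := rfl

/-- the slices depend linearly on the pin -/
noncomputable def hatL (ℓ : Ix n → ℕ) (s : Side p n) (a : Fin 3 → Ix n) (θ : Frm p n) :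
    HH p n →ₗ[ZMod p] HH p n →ₗ[ZMod p] HH p n where
  toFun := hat ℓ s a θ
  map_add' q r := LinearMap.ext fun y => Prod.ext (by
    have h1 : au θ (q.1 + r.1) y.1 = au θ q.1 y.1 + au θ r.1 y.1 := by
      funext α
      simp only [au, Pi.add_apply, ← Finset.sum_add_distrib]
      exact Finset.sum_congr rfl fun i _ => by split_ifs <;> ring
    simp only [LinearMap.add_apply, Prod.fst_add, Prod.snd_add, hat_fst, h1, cmb_add,
      Matrix.add_mulVec, Matrix.mulVec_add]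
    abel) (funext fun i => by
    simp only [LinearMap.add_apply, Prod.fst_add, Prod.snd_add, Pi.add_apply, hat_snd,
      Matrix.mulVec_add, ip_add_left])
  map_smul' c q := LinearMap.ext fun y => Prod.ext (by
    have h1 : au θ (c • q.1) y.1 = c • au θ q.1 y.1 := by
      funext α
      simp only [au, Pi.smul_apply, smul_eq_mul, Finset.mul_sum]
      exact Finset.sum_congr rfl fun i _ => by split_ifs <;> ring
    simp only [LinearMap.smul_apply, Prod.smul_fst, Prod.smul_snd, hat_fst, h1, cmb_smul,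
      Matrix.smul_mulVec, Matrix.mulVec_smul, RingHom.id_apply, smul_add]) (funext fun i => by
    simp only [LinearMap.smul_apply, Prod.smul_fst, Prod.smul_snd, Pi.smul_apply, hat_snd,
      Matrix.mulVec_smul, ip_smul_left, RingHom.id_apply, smul_eq_mul])

theorem hatL_coe (s : Side p n) (a : Fin 3 → Ix n) (θ : Frm p n) :
    ⇑(hatL ℓ s a θ) = hat ℓ s a θ := rfl

theorem t2_zero (y : HH p n) : t2 y 0 = y.1 := rfl
theorem t2_one (y : HH p n) : t2 y 1 = y.2 := rfl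
theorem t2_inj : Function.Injective (t2 : HH p n → Tup p n) := fun _ _ e =>
  Prod.ext (congrFun e 0) (congrFun e 1)

theorem t1_apply (x : Vec p n) : t1 x = t2 (x, 0) := rfl
theorem t1_inj : Function.Injective (t1 : Vec p n → Tup p n) := fun _ _ e => congrFun e 0

theorem act_t2 (b : Mat p n) (y : HH p n) : act b (t2 y) = t2 (b *ᵥ y.1, b *ᵥ y.2) := by
  funext k
  simp only [act_apply, t2, LinearMap.coe_mk, AddHom.coe_mk]
  split_ifs <;> simp

theorem act_t1 (b : Mat p n) (x : Vec p n) : act b (t1 x) = t1 (b *ᵥ x) := by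
  rw [t1_apply, act_t2, t1_apply, Matrix.mulVec_zero]

/-- a proper non-zero subspace of a block is not stable -/
theorem not_le_Ht (h : Str ℓ B) {a : Ix n} {W : VS p n} (h1 : W ≤ Vb ℓ a) (h2 : W ≠ ⊥)
    (h3 : W ≠ Vb ℓ a) : ¬ B ≤ Ht B (W.map t1) (W.map t1) := fun e => by
  obtain ⟨x, hx, h0⟩ := Submodule.exists_mem_ne_zero_of_ne_bot h2
  refine h3 (le_antisymm h1 fun y hy => ?_)
  obtain ⟨b, hb, rfl⟩ := h.sim a x (h1 hx) h0 y hy
  obtain ⟨w, hw, e'⟩ := (e hb).2.1 _ ⟨x, hx, rfl⟩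
  rw [act_t1] at e'
  exact t1_inj e' ▸ hw

theorem tt_ge (n : ℕ) : 12 ≤ tt n := by
  have : 0 < Nat.size (2 * (2 * n + 1)) := Nat.size_pos.2 (by omega)
  unfold tt; omega

theorem Big.mono {d d' : ℕ} (h : Big ℓ B d) (e : d' ≤ d) : Big ℓ B d' :=
  fun a t => e.trans (h a t)

end Pool.Agent.P.MP_f1a348_lc.PG
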