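import Mathlib

/-!
Project PG: isomorphism of trilinear forms over `ZMod p` under a parabolic group.
Mathematical definitions.  The space `Vec p n` has a primal part (indices above the centre),
a centre `c0` and a dual part, with the symmetric form `ip`.
-/

namespace Pool.Agent.P.MP_f1a348_lc.PG

open Matrix Module
open scoped commutatorElement

abbrev Ix (n : ℕ) : Type := Fin (2 * n + 1)
abbrev Vec (p n : ℕ) : Type := Ix n → ZMod p
abbrev Mat (p n : ℕ) : Type := Matrix (Ix n) (Ix n) (ZMod p)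
abbrev Frm (p n : ℕ) : Type := (Fin 3 → Ix n) → ZMod p
abbrev Tup (p n : ℕ) : Type := ℕ → Vec p n
abbrev HH (p n : ℕ) : Type := Vec p n × Vec p n
abbrev Sub (p n : ℕ) : Type := Submodule (ZMod p) (Mat p n)
abbrev VS (p n : ℕ) : Type := Submodule (ZMod p) (Vec p n)

/-- the centre -/
def c0 (n : ℕ) : Ix n := ⟨n, by omega⟩

noncomputable section
variable {p n : ℕ}

/-! ### the form, adjoints, labels -/

def ip (x y : Vec p n) : ZMod p := ∑ α, x α * y α.rev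

/-- the adjoint -/
def st (g : Mat p n) : Mat p n := Matrix.of fun α β => g β.rev α.rev

def e0 : Vec p n := Pi.single (c0 n) 1

/-- `ℓ α` is the first index of the block of `α` -/
structure Lab (ℓ : Ix n → ℕ) : Prop where
  mono : Monotone ℓ
  sym : ∀ α β, ℓ α ≤ ℓ β → ℓ β.rev ≤ ℓ α.rev
  ctr : ∀ α, ℓ α = ℓ (c0 n) → α = c0 n
  le : ∀ α, ℓ α ≤ α.val
  can : ∀ α β : Ix n, ℓ α ≤ β.val → ℓ α ≤ ℓ β

/-- block upper triangular, not mixing primal part, centre and dual part -/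
def Tri (ℓ : Ix n → ℕ) (g : Mat p n) : Prop :=
  ∀ α β, g α β ≠ 0 → ℓ α ≤ ℓ β ∧ (α < c0 n ↔ β < c0 n) ∧ (c0 n < α ↔ c0 n < β)

/-- block diagonal -/
def Dg (ℓ : Ix n → ℕ) (g : Mat p n) : Prop := ∀ α β, g α β ≠ 0 → ℓ α = ℓ β

/-- the block diagonal part -/
def gr (ℓ : Ix n → ℕ) : Mat p n →ₗ[ZMod p] Mat p n where
  toFun g := Matrix.of fun α β => if ℓ α = ℓ β then g α β else 0
  map_add' g h := by ext α β; simp only [Matrix.of_apply, Matrix.add_apply]; split_ifs <;> simp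
  map_smul' c g := by
    ext α β; simp only [Matrix.of_apply, Matrix.smul_apply, RingHom.id_apply]; split_ifs <;> simp

/-- the projection to the block of `a` -/
def pr (ℓ : Ix n → ℕ) (a : Ix n) : Mat p n := Matrix.diagonal fun β => if ℓ β = ℓ a then 1 else 0

/-- the block of `a` -/
def Vb (ℓ : Ix n → ℕ) (a : Ix n) : VS p n where
  carrier := {x | ∀ β, ℓ β ≠ ℓ a → x β = 0}
  add_mem' hx hy β h := by simp [hx β h, hy β h]
  zero_mem' _ _ := rfl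
  smul_mem' c x hx β h := by simp [hx β h]

/-- the dimension of the block of `a` -/
def nb (ℓ : Ix n → ℕ) (a : Ix n) : ℕ := (Finset.univ.filter fun β => ℓ β = ℓ a).card

def Un (g : Mat p n) : Prop := st g * g = 1

/-- the parabolic group -/
def Par (ℓ : Ix n → ℕ) (g : Mat p n) : Prop := Tri ℓ g ∧ Un g ∧ g (c0 n) (c0 n) = 1

/-- the coarsest labelling -/
def l0 (n : ℕ) : Ix n → ℕ := fun β => if β.val < n then 0 else if β.val = n then n else n + 1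

/-- `C ↦ f * C * st f` -/
def cj (f : Mat p n) : Mat p n →ₗ[ZMod p] Mat p n where
  toFun C := f * C * st f
  map_add' C D := by rw [mul_add, add_mul]
  map_smul' c C := by simp

/-! ### algebras -/

structure Alg (ℓ : Ix n → ℕ) (B : Sub p n) : Prop where
  one : (1 : Mat p n) ∈ B
  mul : ∀ a ∈ B, ∀ b ∈ B, a * b ∈ B
  star : ∀ a ∈ B, st a ∈ B
  dg : ∀ a ∈ B, Dg ℓ a

/-- every block is a simple module -/
def Sim (ℓ : Ix n → ℕ) (B : Sub p n) : Prop :=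
  ∀ a, ∀ x ∈ Vb ℓ a, x ≠ 0 → ∀ y ∈ Vb ℓ a, ∃ b ∈ B, b *ᵥ x = y

structure Str (ℓ : Ix n → ℕ) (B : Sub p n) : Prop where
  lab : Lab ℓ
  alg : Alg ℓ B
  sim : Sim ℓ B

/-- the commutant -/
def Com (B : Sub p n) : Sub p n where
  carrier := {C | ∀ b ∈ B, C * b = b * C}
  add_mem' hC hD b hb := by rw [add_mul, mul_add, hC b hb, hD b hb]
  zero_mem' b _ := by simp
  smul_mem' c C hC b hb := by rw [smul_mul_assoc, mul_smul_comm, hC b hb]

/-- module maps from the block of `b` to the block of `a` -/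
def Cb (ℓ : Ix n → ℕ) (B : Sub p n) (a b : Ix n) : Sub p n where
  carrier := {C | C ∈ Com B ∧ pr ℓ a * C * pr ℓ b = C}
  add_mem' hC hD := ⟨add_mem hC.1 hD.1, by rw [mul_add, add_mul, hC.2, hD.2]⟩
  zero_mem' := ⟨zero_mem _, by simp⟩
  smul_mem' c C hC := ⟨Submodule.smul_mem _ c hC.1, by rw [mul_smul_comm, smul_mul_assoc, hC.2]⟩

def eb (ℓ : Ix n → ℕ) (B : Sub p n) (a : Ix n) : ℕ := finrank (ZMod p) (Cb ℓ B a a)

def db (ℓ : Ix n → ℕ) (B : Sub p n) (a : Ix n) : ℕ := nb ℓ a / eb ℓ B a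

/-- the block of `a` is isomorphic to the centre -/
def Triv (ℓ : Ix n → ℕ) (B : Sub p n) (a : Ix n) : Prop := Cb ℓ B a (c0 n) ≠ ⊥

open Classical in
/-- the projection to the non-trivial blocks -/
def eo (ℓ : Ix n → ℕ) (B : Sub p n) : Mat p n :=
  Matrix.diagonal fun β => if Triv ℓ B β then 0 else 1

def z0 (ℓ : Ix n → ℕ) (B : Sub p n) : Mat p n := 1 - (2 : ZMod p) • eo ℓ B

/-- the part of the commutant that kills the trivial blocks -/
def Co (ℓ : Ix n → ℕ) (B : Sub p n) : Sub p n where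
  carrier := {C | C ∈ Com B ∧ C * eo ℓ B = C}
  add_mem' hC hD := ⟨add_mem hC.1 hD.1, by rw [add_mul, hC.2, hD.2]⟩
  zero_mem' := ⟨zero_mem _, by simp⟩
  smul_mem' c C hC := ⟨Submodule.smul_mem _ c hC.1, by rw [smul_mul_assoc, hC.2]⟩

def Big (ℓ : Ix n → ℕ) (B : Sub p n) (d : ℕ) : Prop := ∀ a, ¬ Triv ℓ B a → d ≤ db ℓ B a

/-- no earlier block is isomorphic to the block of `a` -/
def First (ℓ : Ix n → ℕ) (B : Sub p n) (a : Ix n) : Prop := ∀ β, ℓ β < ℓ a → Cb ℓ B a β = ⊥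

open Classical in
/-- the potential -/
def Phi (ℓ : Ix n → ℕ) (B : Sub p n) : ℕ :=
  ∑ α, if ¬ Triv ℓ B α ∧ First ℓ B α then 2 + Nat.size (db ℓ B α) else 0

/-! ### geometry over the commutant -/

/-- `b ↦ b *ᵥ x` -/
def evx (x : Vec p n) : Mat p n →ₗ[ZMod p] Vec p n where
  toFun b := b *ᵥ x
  map_add' a b := Matrix.add_mulVec a b x
  map_smul' c a := Matrix.smul_mulVec c a x

/-- `S x` -/
def orb (S : Sub p n) (x : Vec p n) : VS p n := S.map (evx x)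

/-- the orthogonal complement -/
def perp (W : VS p n) : VS p n where
  carrier := {y | ∀ w ∈ W, ip w y = 0}
  add_mem' {x y} hx hy w hw := by
    have h1 := hx w hw
    have h2 := hy w hw
    simp only [ip, Pi.add_apply, mul_add, Finset.sum_add_distrib] at h1 h2 ⊢
    rw [h1, h2, add_zero]
  zero_mem' w _ := by simp [ip]
  smul_mem' c x hx w hw := by
    have h1 := hx w hw
    simp only [ip, Pi.smul_apply, smul_eq_mul, mul_left_comm _ c, ← Finset.mul_sum] at h1 ⊢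
    rw [h1, mul_zero]

/-- stable under the commutant -/
def Stab (B : Sub p n) (W : VS p n) : Prop := ∀ C ∈ Com B, ∀ w ∈ W, C *ᵥ w ∈ W

/-- stable and of dimension at most `r` over the endomorphism field in every block -/
def Small (ℓ : Ix n → ℕ) (B : Sub p n) (r : ℕ) (W : VS p n) : Prop :=
  Stab B W ∧ ∀ a, finrank (ZMod p) (W ⊓ Vb ℓ a : VS p n) ≤ r * eb ℓ B a

def Isot (B : Sub p n) (x : Vec p n) : Prop := ∀ C ∈ Com B, ip (C *ᵥ x) x = 0

/-- the image of a matrix -/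
def im (g : Mat p n) : VS p n := LinearMap.range g.mulVecLin

def Iso (π : Mat p n) : Prop := π * π = π ∧ π * st π = 0 ∧ st π * π = 0

def NN (B : Sub p n) (x : Vec p n) (b : Mat p n) : Prop :=
  b ∈ B ∧ ∀ a ∈ B, a *ᵥ x = 0 → a * b = 0

def Cyc (ℓ : Ix n → ℕ) (B : Sub p n) (π : Mat p n) : Prop :=
  ∃ a x y, x ∈ Vb ℓ a ∧ NN B x π ∧ st π *ᵥ y = y ∧ ∀ ρ, NN B x ρ → st ρ *ᵥ y = 0 → ρ = 0

/-- the reflection in the image of `π + st π` -/
def rf (π : Mat p n) : Mat p n := 1 - (2 : ZMod p) • π - (2 : ZMod p) • st π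

def Test (ℓ : Ix n → ℕ) (B : Sub p n) (z : Mat p n) : Prop :=
  z = z0 ℓ B ∨ ∃ π, Cyc ℓ B π ∧ Iso π ∧ π * eo ℓ B = π ∧ z = rf π

def Lo (B : Sub p n) : Submonoid (Mat p n) :=
  Submonoid.closure {g | g ∈ B ∧ Un g ∧ g (c0 n) (c0 n) = 1 ∧ g ^ (p - 1) = 1}

/-- generic triples -/
structure Gen (ℓ : Ix n → ℕ) (B : Sub p n) (a : Fin 3 → Ix n) (x : Fin 3 → Vec p n) : Prop where
  mem : ∀ j, x j ∈ Vb ℓ (a j)
  orth : ∀ i j, x j ∈ perp (orb (Co ℓ B) (x i))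
  ind : ∀ j, ¬ Triv ℓ B (a j) → x j ∉ orb (Co ℓ B) (x (j + 1)) ⊔ orb (Co ℓ B) (x (j + 2))

/-- a system of orthogonal isotropic idempotents through `x` -/
structure Frame (ℓ : Ix n → ℕ) (B : Sub p n) (a : Fin 3 → Ix n) (x : Fin 3 → Vec p n)
    (π : Fin 3 → Mat p n) : Prop where
  mem : ∀ j, π j ∈ B
  iso : ∀ j, Iso (π j)
  eo : ∀ j, π j * eo ℓ B = π j
  triv : ∀ j, Triv ℓ B (a j) → π j = 0
  fix : ∀ j, ¬ Triv ℓ B (a j) → π j *ᵥ x j = x j
  im : ∀ j, im (π j) ≤ orb (Co ℓ B) (x j)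
  orth : ∀ i j, i ≠ j → π i * π j = 0 ∧ π i * st (π j) = 0 ∧ st (π i) * π j = 0

/-! ### trilinear forms -/

def ev (w : Frm p n) (x : Fin 3 → Vec p n) : ZMod p := ∑ i, w i * ∏ j, x j (i j)

def pull (g : Fin 3 → Mat p n) : Frm p n →ₗ[ZMod p] Frm p n where
  toFun w := fun i => ∑ k, w k * ∏ j, g j (k j) (i j)
  map_add' v w := by ext i; simp [add_mul, Finset.sum_add_distrib]
  map_smul' c w := by ext i; simp [Finset.mul_sum, mul_assoc]

def pull1 (g : Mat p n) : Frm p n →ₗ[ZMod p] Frm p n := pull fun _ => g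

def perm (σ : Fin 3 → Fin 3) : Frm p n →ₗ[ZMod p] Frm p n where
  toFun w := fun i => w fun j => i (σ j)
  map_add' _ _ := rfl
  map_smul' _ _ := rfl

/-- the six permutations of three letters -/
def pm (k : ℕ) (m : Fin 3) : Fin 3 := ⟨((1 + k / 3 % 2) * m.val + k) % 3, Nat.mod_lt _ (by omega)⟩

/-- the pure form `y ↦ ∏ ip (y j) (x j)` -/
def pf (x : Fin 3 → Vec p n) : Frm p n := fun i => ∏ j, x j (i j).rev

/-- the trace form `x ↦ ip (C x (m+1)) (x (m+2)) * ip (x m) v` -/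
def trf (m : Fin 3) (C : Mat p n) : Vec p n →ₗ[ZMod p] Frm p n where
  toFun v := fun i => C (i (m + 2)).rev (i (m + 1)) * v (i m).rev
  map_add' v w := by ext i; simp [mul_add]
  map_smul' c v := by ext i; simp [mul_left_comm]

/-- the contraction dual to `trf` -/
def con (m : Fin 3) (C : Mat p n) : Frm p n →ₗ[ZMod p] Vec p n where
  toFun w := fun α => ∑ i, if i m = α.rev then w i * C (i (m + 2)) (i (m + 1)).rev else 0
  map_add' v w := by
    ext α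
    simp only [Pi.add_apply, ← Finset.sum_add_distrib]
    exact Finset.sum_congr rfl fun i _ => by split_ifs <;> simp [add_mul]
  map_smul' c w := by
    ext α
    simp only [Pi.smul_apply, smul_eq_mul, RingHom.id_apply, Finset.mul_sum]
    exact Finset.sum_congr rfl fun i _ => by split_ifs <;> simp [mul_assoc]

def key (ℓ : Ix n → ℕ) (i : Fin 3 → Ix n) : ℕ :=
  (ℓ (i 0) * (2 * n + 1) + ℓ (i 1)) * (2 * n + 1) + ℓ (i 2)

/-- the last level -/
def top (n : ℕ) : ℕ := (2 * n + 1) * (2 * n + 1) * (2 * n + 1)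

def Van (ℓ : Ix n → ℕ) (t : ℕ) : Submodule (ZMod p) (Frm p n) where
  carrier := {w | ∀ i, key ℓ i < t → w i = 0}
  add_mem' hx hy i h := by simp [hx i h, hy i h]
  zero_mem' _ _ := rfl
  smul_mem' c x hx i h := by simp [hx i h]

def Wt (ℓ : Ix n → ℕ) (t : ℕ) : Submodule (ZMod p) (Frm p n) where
  carrier := {w | ∀ i, key ℓ i ≠ t → w i = 0}
  add_mem' hx hy i h := by simp [hx i h, hy i h]
  zero_mem' _ _ := rfl
  smul_mem' c x hx i h := by simp [hx i h]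

def cmp (ℓ : Ix n → ℕ) (t : ℕ) : Frm p n →ₗ[ZMod p] Frm p n where
  toFun w := fun i => if key ℓ i = t then w i else 0
  map_add' v w := by ext i; simp only [Pi.add_apply]; split_ifs <;> simp
  map_smul' c w := by ext i; simp only [Pi.smul_apply, RingHom.id_apply]; split_ifs <;> simp

/-- the traces -/
def Tr (ℓ : Ix n → ℕ) (B : Sub p n) : Submodule (ZMod p) (Frm p n) :=
  Submodule.span (ZMod p) {w | ∃ m, ∃ C ∈ Co ℓ B, ∃ v, w = trf m C v}

/-- the traceless forms -/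
def W0 (ℓ : Ix n → ℕ) (B : Sub p n) (t : ℕ) : Submodule (ZMod p) (Frm p n) :=
  Wt ℓ t ⊓ ⨅ m, ⨅ C ∈ Co ℓ B, LinearMap.ker (con m C)

/-- the algebra of permutations of the slots combined with module maps -/
def AA (ℓ : Ix n → ℕ) (B : Sub p n) (a : Fin 3 → Ix n) :
    Submodule (ZMod p) (Frm p n →ₗ[ZMod p] Frm p n) :=
  Submodule.span (ZMod p) {L | ∃ (σ : Equiv.Perm (Fin 3)) (C : Fin 3 → Mat p n),
    (∀ j, C j ∈ Cb ℓ B (a j) (a (σ j))) ∧ L = perm σ ∘ₗ pull C}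

/-! ### lifting through the levels -/

def Lf (ℓ : Ix n → ℕ) (T T' : Frm p n) (t : ℕ) (z g : Mat p n) : Prop :=
  Par ℓ g ∧ gr ℓ g = z ∧ pull1 g T' - T ∈ Van ℓ t

def kap (ℓ : Ix n → ℕ) (T : Frm p n) (t : ℕ) (g : Mat p n) : Frm p n := cmp ℓ t (pull1 g T - T)

def Sp (ℓ : Ix n → ℕ) (T : Frm p n) (t : ℕ) : Submodule (ZMod p) (Frm p n) :=
  Submodule.span (ZMod p) {w | ∃ g, Lf ℓ T T t 1 g ∧ w = kap ℓ T t g}

def Lifts (ℓ : Ix n → ℕ) (T : Frm p n) (t : ℕ) (z : Mat p n) : Prop := ∃ g, Lf ℓ T T t z g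

/-- a cocycle with values in honest forms modulo traces -/
structure Coc (ℓ : Ix n → ℕ) (B : Sub p n) (t : ℕ) (c : Mat p n → Frm p n) : Prop where
  mem : ∀ g, c g ∈ Wt ℓ t
  mul : ∀ g ∈ Lo B, ∀ h ∈ Lo B, c (g * h) - (pull1 h (c g) + c h) ∈ Tr ℓ B

/-- groups of isometries -/
structure Grp (H : Set (Mat p n)) : Prop where
  one : (1 : Mat p n) ∈ H
  mul : ∀ a ∈ H, ∀ b ∈ H, a * b ∈ H
  un : ∀ a ∈ H, Un a
  star : ∀ a ∈ H, st a ∈ H

/-- polycyclic generating sequences -/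
def PC : List (Mat p n) → Set (Mat p n) → Prop
  | [], H => H = {1}
  | g :: L, H => g ∈ H ∧ ∃ H', Grp H' ∧ H' ⊆ H ∧ PC L H' ∧ (∀ x ∈ H', st g * x * g ∈ H') ∧
      g ^ p ∈ H' ∧ ∀ u ∈ H, ∃ k : ℕ, ∃ u' ∈ H', u = g ^ k * u'

/-! ### sides -/

/-- a form, an algebra and bases of the spaces of module maps between blocks -/
structure Side (p n : ℕ) where
  T : Frm p n
  B : Sub p n
  Cs : Ix n → Ix n → List (Mat p n)

/-- the span of a list -/
def spL {X : Type} [AddCommGroup X] [Module (ZMod p) X] (L : List X) : Submodule (ZMod p) X :=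
  Submodule.span (ZMod p) {x | x ∈ L}

structure Good (ℓ : Ix n → ℕ) (s : Side p n) : Prop where
  str : Str ℓ s.B
  sp : ∀ a b, spL (s.Cs a b) = Cb ℓ s.B a b
  len : ∀ a b, (s.Cs a b).length = finrank (ZMod p) (Cb ℓ s.B a b)

/-- `φ` is an isomorphism of sides -/
structure Nt (ℓ : Ix n → ℕ) (φ : Mat p n) (s s' : Side p n) : Prop where
  par : Par ℓ φ
  T : pull1 φ s'.T = s.T
  B : s'.B = s.B.map (cj (gr ℓ φ))
  Cs : ∀ a b, s'.Cs a b = (s.Cs a b).map (cj (gr ℓ φ))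

open Classical in
def Cso (ℓ : Ix n → ℕ) (s : Side p n) (a b : Ix n) : List (Mat p n) :=
  if Triv ℓ s.B b then [] else s.Cs a b

def CL (s : Side p n) : List (Mat p n) :=
  (List.finRange _).flatMap fun a => (List.finRange _).flatMap fun b => s.Cs a b

def CoL (ℓ : Ix n → ℕ) (s : Side p n) : List (Mat p n) :=
  (List.finRange _).flatMap fun a => (List.finRange _).flatMap fun b => Cso ℓ s a b

def AllLift (ℓ : Ix n → ℕ) (s : Side p n) (t : ℕ) : Prop := ∀ z, Test ℓ s.B z → Lifts ℓ s.T t z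

def LoLift (ℓ : Ix n → ℕ) (s : Side p n) (t : ℕ) : Prop := ∀ z ∈ Lo s.B, Lifts ℓ s.T t z

/-! ### canonical subspaces -/

def act (b : Mat p n) : Tup p n →ₗ[ZMod p] Tup p n where
  toFun τ := fun k => b *ᵥ τ k
  map_add' σ τ := by funext k; exact Matrix.mulVec_add _ _ _
  map_smul' c τ := by funext k; exact Matrix.mulVec_smul b c (τ k)

/-- the elements of `H` that map `D` to `D'` and whose adjoints map `D'` to `D` -/
def Ht (H : Sub p n) (D D' : Submodule (ZMod p) (Tup p n)) : Sub p n where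
  carrier := {h | h ∈ H ∧ (∀ τ ∈ D, act h τ ∈ D') ∧ ∀ τ ∈ D', act (st h) τ ∈ D}
  add_mem' {a b} ha hb := ⟨add_mem ha.1 hb.1, fun τ hτ => by
      have : act (a + b) τ = act a τ + act b τ := by funext k; exact Matrix.add_mulVec a b (τ k)
      rw [this]; exact add_mem (ha.2.1 τ hτ) (hb.2.1 τ hτ), fun τ hτ => by
      have : act (st (a + b)) τ = act (st a) τ + act (st b) τ := by
        funext k; exact Matrix.add_mulVec (st a) (st b) (τ k)
      rw [this]; exact add_mem (ha.2.2 τ hτ) (hb.2.2 τ hτ)⟩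
  zero_mem' := ⟨zero_mem _, fun τ _ => by
      have : act (0 : Mat p n) τ = 0 := by funext k; exact Matrix.zero_mulVec (τ k)
      rw [this]; exact zero_mem _, fun τ _ => by
      have : act (st (0 : Mat p n)) τ = 0 := by funext k; exact Matrix.zero_mulVec (τ k)
      rw [this]; exact zero_mem _⟩
  smul_mem' c a ha := ⟨Submodule.smul_mem _ c ha.1, fun τ hτ => by
      have : act (c • a) τ = c • act a τ := by funext k; exact Matrix.smul_mulVec c a (τ k)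
      rw [this]; exact Submodule.smul_mem _ c (ha.2.1 τ hτ), fun τ hτ => by
      have : act (st (c • a)) τ = c • act (st a) τ := by
        funext k; exact Matrix.smul_mulVec c (st a) (τ k)
      rw [this]; exact Submodule.smul_mem _ c (ha.2.2 τ hτ)⟩

def Sh (ℓ : Ix n → ℕ) (s : Side p n) (t : ℕ) : Submodule (ZMod p) (ZMod p × Frm p n) :=
  Submodule.span (ZMod p) {y | ∃ g, Lf ℓ s.T s.T t (z0 ℓ s.B) g ∧ y = (1, kap ℓ s.T t g)}

/-- the place `r % 3` -/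
def sl (r : ℕ) : Fin 3 := ⟨r % 3, Nat.mod_lt _ (by omega)⟩

/-- all contractions -/
def cn (L : List (Mat p n)) : (ZMod p × Frm p n) →ₗ[ZMod p] Tup p n where
  toFun y := fun k => if k = 0 then y.1 • e0 else con (sl (k - 1)) (L.getD ((k - 1) / 3) 0) y.2
  map_add' y z := by funext k; simp only [Pi.add_apply]; split_ifs <;> simp [add_smul]
  map_smul' c y := by
    funext k; simp only [Pi.smul_apply, RingHom.id_apply]; split_ifs <;> simp [mul_smul]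

/-- all traces -/
def tn (L : List (Mat p n)) : Tup p n →ₗ[ZMod p] (ZMod p × Frm p n) where
  toFun τ := (τ 0 (c0 n), ∑ x ∈ Finset.range (3 * L.length), trf (sl x) (L.getD (x / 3) 0) (τ (x + 1)))
  map_add' σ τ := by simp [Finset.sum_add_distrib]
  map_smul' c τ := by simp [Finset.smul_sum]

def Amb (K : ℕ) : Submodule (ZMod p) (Tup p n) where
  carrier := {τ | (∀ α, α ≠ c0 n → τ 0 α = 0) ∧ ∀ k, 3 * K < k → τ k = 0}
  add_mem' hx hy := ⟨fun α h => by simp [hx.1 α h, hy.1 α h], fun k h => by simp [hx.2 k h, hy.2 k h]⟩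
  zero_mem' := ⟨fun _ _ => rfl, fun _ _ => rfl⟩
  smul_mem' c x hx := ⟨fun α h => by simp [hx.1 α h], fun k h => by simp [hx.2 k h]⟩

def D2 (ℓ : Ix n → ℕ) (s : Side p n) (t : ℕ) : Submodule (ZMod p) (Tup p n) :=
  (Sh ℓ s t).map (cn (CoL ℓ s))

def D3 (ℓ : Ix n → ℕ) (s : Side p n) (t : ℕ) : Submodule (ZMod p) (Tup p n) :=
  Amb (CoL ℓ s).length ⊓ (Sh ℓ s t).comap (tn (CoL ℓ s))

/-- the term number `x` -/
def lamX (L : List (Mat p n)) (x : ℕ) : Frm p n →ₗ[ZMod p] Frm p n :=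
  perm (pm (x % 6)) ∘ₗ pull ![L.getD (x / 6 % L.length) 0, L.getD (x / 6 / L.length % L.length) 0,
    L.getD (x / 6 / L.length / L.length) 0]

def nc (L : List (Mat p n)) : ℕ := 6 * L.length * L.length * L.length

def lam (ℓ : Ix n → ℕ) (L : List (Mat p n)) (t : ℕ) (c : ℕ → ZMod p) :
    Frm p n →ₗ[ZMod p] Frm p n :=
  cmp ℓ t ∘ₗ ∑ x ∈ Finset.range (nc L), c x • lamX L x

def Ann (ℓ : Ix n → ℕ) (s : Side p n) (t : ℕ) (c : ℕ → ZMod p) : Prop :=
  ∀ w ∈ Sp ℓ s.T t, lam ℓ (CL s) t c w ∈ Tr ℓ s.B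

def Th (ℓ : Ix n → ℕ) (s : Side p n) (t : ℕ) (c : ℕ → ZMod p) (θ : Frm p n) : Prop :=
  θ ∈ Wt ℓ t ∧ ∀ z g, Test ℓ s.B z → Lf ℓ s.T s.T t z g →
    pull1 z θ - θ - lam ℓ (CL s) t c (kap ℓ s.T t g) ∈ Tr ℓ s.B

def Rig (ℓ : Ix n → ℕ) (B : Sub p n) (t : ℕ) : Prop :=
  ∀ θ ∈ Wt ℓ t, (∀ z, Test ℓ B z → pull1 z θ - θ ∈ Tr ℓ B) → θ ∈ Tr ℓ B

/-- the linear combination of a short list -/
def cmb (L : List (Mat p n)) (c : Vec p n) : Mat p n := ∑ α, c α • L.getD α.val 0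

/-- `ip (au θ u y) z = ev θ ![u, y, z]` -/
def au (θ : Frm p n) (u y : Vec p n) : Vec p n :=
  fun α => ∑ i, if i 2 = α.rev then θ i * u (i 0) * y (i 1) else 0

/-- the slice of `θ` at `q`, made independent of traces -/
def hat (ℓ : Ix n → ℕ) (s : Side p n) (a : Fin 3 → Ix n) (θ : Frm p n) (q : HH p n) :
    HH p n →ₗ[ZMod p] HH p n where
  toFun y := (au θ q.1 y.1 + cmb (Cso ℓ s (a 2).rev (a 1)) q.2 *ᵥ y.1 +
      cmb (Cso ℓ s (a 2).rev (a 0)) y.2 *ᵥ q.1,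
    fun i => ip ((Cso ℓ s (a 1).rev (a 0)).getD i.val 0 *ᵥ q.1) y.1)
  map_add' y z := by
    refine Prod.ext ?_ ?_
    · have h1 : au θ q.1 (y.1 + z.1) = au θ q.1 y.1 + au θ q.1 z.1 := by
        funext α
        simp only [au, Pi.add_apply, ← Finset.sum_add_distrib]
        exact Finset.sum_congr rfl fun i _ => by split_ifs <;> simp [mul_add]
      simp only [Prod.fst_add, Prod.snd_add, h1, cmb, Pi.add_apply, add_smul,
        Finset.sum_add_distrib, Matrix.add_mulVec, Matrix.mulVec_add]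
      abel
    · funext i; simp [ip, mul_add, Finset.sum_add_distrib]
  map_smul' c y := by
    refine Prod.ext ?_ ?_
    · have h1 : au θ q.1 (c • y.1) = c • au θ q.1 y.1 := by
        funext α
        simp only [au, Pi.smul_apply, smul_eq_mul, Finset.mul_sum]
        exact Finset.sum_congr rfl fun i _ => by split_ifs <;> ring
      have h2 : ∀ L : List (Mat p n), cmb L (c • y.2) = c • cmb L y.2 := fun L => by
        simp [cmb, Finset.smul_sum, mul_smul]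
      simp only [Prod.smul_fst, Prod.smul_snd, h1, h2, RingHom.id_apply, smul_add,
        Matrix.smul_mulVec, Matrix.mulVec_smul]
    · funext i; simp [ip, Finset.mul_sum, mul_left_comm]

/-- pairs as tuples -/
def t2 : HH p n →ₗ[ZMod p] Tup p n where
  toFun y := fun k => if k = 0 then y.1 else if k = 1 then y.2 else 0
  map_add' y z := by funext k; simp only [Pi.add_apply]; split_ifs <;> simp
  map_smul' c y := by funext k; simp only [Pi.smul_apply, RingHom.id_apply]; split_ifs <;> simp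

def t1 : Vec p n →ₗ[ZMod p] Tup p n := t2 ∘ₗ LinearMap.inl _ _ _

def D0 (u : Vec p n) : Submodule (ZMod p) (Tup p n) := Submodule.span (ZMod p) {t1 (u + e0)}

/-- the admissible pins -/
def Qs (ℓ : Ix n → ℕ) (s : Side p n) (a : Fin 3 → Ix n) : Submodule (ZMod p) (HH p n) where
  carrier := {q | q.1 ∈ Vb ℓ (a 0) ∧ ∀ α : Ix n, (Cso ℓ s (a 2).rev (a 1)).length ≤ α.val → q.2 α = 0}
  add_mem' hx hy := ⟨add_mem hx.1 hy.1, fun α h => by simp [hx.2 α h, hy.2 α h]⟩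
  zero_mem' := ⟨zero_mem _, fun _ _ => rfl⟩
  smul_mem' c x hx := ⟨Submodule.smul_mem _ c hx.1, fun α h => by simp [hx.2 α h]⟩

def Dom (ℓ : Ix n → ℕ) (b : Ix n) : Submodule (ZMod p) (HH p n) := (Vb ℓ b).prod ⊤

def D4 (ℓ : Ix n → ℕ) (s : Side p n) (a : Fin 3 → Ix n) (θ : Frm p n) (q : HH p n) :
    Submodule (ZMod p) (Tup p n) :=
  (Dom ℓ (a 1) ⊓ LinearMap.ker (LinearMap.snd _ _ _ ∘ₗ hat ℓ s a θ q)).map
    (t2 ∘ₗ (LinearMap.fst _ _ _).prod (LinearMap.fst _ _ _ ∘ₗ hat ℓ s a θ q))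

def Low (ℓ : Ix n → ℕ) (s : Side p n) (a : Fin 3 → Ix n) (θ : Frm p n) (r : ℕ) : Set (HH p n) :=
  {q | q ∈ Qs ℓ s a ∧ finrank (ZMod p) (LinearMap.range (hat ℓ s a θ q)) ≤ r}

/-- vectors that lie in the sum of the images for at least half of the `t`-tuples from `S` -/
def Pop {Q X Y : Type} [AddCommGroup X] [Module (ZMod p) X] [AddCommGroup Y] [Module (ZMod p) Y]
    (A : Q → X →ₗ[ZMod p] Y) (S : Set Q) (t : ℕ) : Set Y :=
  {r | {qs : Fin t → Q | ∀ j, qs j ∈ S}.ncard ≤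
    2 * {qs : Fin t → Q | (∀ j, qs j ∈ S) ∧ r ∈ ⨆ j, LinearMap.range (A (qs j))}.ncard}

def tt (n : ℕ) : ℕ := 6 * (Nat.size (2 * (2 * n + 1)) + 1)

def Rh (ℓ : Ix n → ℕ) (s : Side p n) (a : Fin 3 → Ix n) (θ : Frm p n) (r : ℕ) :
    Submodule (ZMod p) (HH p n) :=
  Submodule.span (ZMod p) (Pop (hat ℓ s a θ) (Low ℓ s a θ r) (tt n))

def D5 (ℓ : Ix n → ℕ) (s : Side p n) (a : Fin 3 → Ix n) (θ : Frm p n) (r : ℕ) :
    Submodule (ZMod p) (Tup p n) :=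
  ((Rh ℓ s a θ r).comap (LinearMap.inl _ _ _)).map t1

def D6 (ℓ : Ix n → ℕ) (s : Side p n) (a : Fin 3 → Ix n) (θ : Frm p n) (r : ℕ) :
    Submodule (ZMod p) (Tup p n) :=
  (Dom ℓ (a 1) ⊓ ⨅ q ∈ Low ℓ s a θ r, (Rh ℓ s a θ r).comap (hat ℓ s a θ q)).map
    (t1 ∘ₗ LinearMap.fst _ _ _)

/-! ### recipes -/

structure Rc (p n : ℕ) where
  kind : ℕ
  a : Fin 3 → Ix n
  k : ℕ
  c : ℕ → ZMod p
  u : Vec p n
  r : ℕ

/-- the level of a recipe -/
def Rc.t (ρ : Rc p n) (ℓ : Ix n → ℕ) : ℕ := key ℓ fun j => ρ.a (pm ρ.k j)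

def Dd (ℓ : Ix n → ℕ) (s : Side p n) (ρ : Rc p n) (θ : Frm p n) (q : HH p n) :
    Submodule (ZMod p) (Tup p n) :=
  if ρ.kind ≤ 1 then D0 q.1 else if ρ.kind = 2 then D2 ℓ s (ρ.t ℓ) else
  if ρ.kind = 3 then D3 ℓ s (ρ.t ℓ) else if ρ.kind = 4 then D4 ℓ s ρ.a (perm (pm ρ.k) θ) q else
  if ρ.kind = 5 then D5 ℓ s ρ.a (perm (pm ρ.k) θ) ρ.r else D6 ℓ s ρ.a (perm (pm ρ.k) θ) ρ.r

def ThOK (ℓ : Ix n → ℕ) (s : Side p n) (ρ : Rc p n) (θ : Frm p n) : Prop :=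
  4 ≤ ρ.kind → Th ℓ s (ρ.t ℓ) ρ.c θ

structure Valid (ℓ : Ix n → ℕ) (s : Side p n) (ρ : Rc p n) : Prop where
  mem : ρ.u ∈ Vb ℓ (ρ.a 0)
  ann : Ann ℓ s (ρ.t ℓ) ρ.c
  free : ρ.kind = 1 → ρ.u ≠ 0 ∧ Isot s.B ρ.u ∧ ¬ Triv ℓ s.B (ρ.a 0) ∧ Big ℓ s.B 30 ∧
    AllLift ℓ s (top n)
  rig : 4 ≤ ρ.kind → AllLift ℓ s (ρ.t ℓ) ∧ Rig ℓ s.B (ρ.t ℓ) ∧ ∃ θ, Th ℓ s (ρ.t ℓ) ρ.c θ

/-- the set `S` contains enough branches -/
structure Br (ℓ : Ix n → ℕ) (s : Side p n) (ρ : Rc p n) (S : Set (HH p n)) : Prop where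
  pin : ρ.kind = 0 → ∀ u ∈ Vb ℓ (ρ.a 0), (u, 0) ∈ S
  free : ρ.kind = 1 → (∃ u ∈ Vb ℓ (ρ.a 0), u ≠ 0 ∧ Isot s.B u) →
    ∃ u ∈ Vb ℓ (ρ.a 0), u ≠ 0 ∧ Isot s.B u ∧ (u, 0) ∈ S
  sli : ρ.kind = 4 → ∀ q ∈ Qs ℓ s ρ.a, q ∈ S
  oth : ρ.kind ≠ 0 → ρ.kind ≠ 1 → ρ.kind ≠ 4 → S.Nonempty

def cost (ℓ : Ix n → ℕ) (s : Side p n) (ρ : Rc p n) : ℕ :=
  if ρ.kind = 0 then nb ℓ (ρ.a 0) else
  if ρ.kind = 4 then nb ℓ (ρ.a 0) + (Cso ℓ s (ρ.a 2).rev (ρ.a 1)).length else 0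

/-! ### refinement -/

/-- after the change of basis `g` the algebra `B` is triangular for the finer labelling `ℓ'`, with
block diagonal part `B'` -/
structure Ref (ℓ : Ix n → ℕ) (B : Sub p n) (ℓ' : Ix n → ℕ) (g : Mat p n) (B' : Sub p n) :
    Prop where
  lab : Lab ℓ'
  fine : ∀ α β, ℓ' α ≤ ℓ' β → ℓ α ≤ ℓ β
  par : Par ℓ g
  dg : Dg ℓ g
  tri : ∀ b ∈ B, Tri ℓ' (st g * b * g)
  eq : B' = B.map (gr ℓ' ∘ₗ cj (st g))

/-- every refinement along `D` pays for the cost `c` -/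
def Acc (ℓ : Ix n → ℕ) (B : Sub p n) (D : Submodule (ZMod p) (Tup p n)) (c : ℕ) : Prop :=
  ∀ ℓ' g B', Ref ℓ (Ht B D D) ℓ' g B' → Sim ℓ' B' →
    Phi ℓ' B' < Phi ℓ B ∧ c ≤ 16 * tt n * (Phi ℓ B - Phi ℓ' B')

/-- cut the block of `α` after `m` places, and the dual block symmetrically -/
def cutL (ℓ : Ix n → ℕ) (α : Ix n) (m : ℕ) : Ix n → ℕ := fun β =>
  max (ℓ β) (max (if ℓ α + m ≤ β.val then ℓ α + m else 0)
    (if 2 * n + 1 - (ℓ α + m) ≤ β.val then 2 * n + 1 - (ℓ α + m) else 0))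

/-- a change of basis adapted to the subspace `W` of the block of `α` -/
structure Ad (ℓ : Ix n → ℕ) (α : Ix n) (W : VS p n) (g : Mat p n) : Prop where
  par : Par ℓ g
  dg : Dg ℓ g
  col : ∀ β, ℓ β = ℓ α → β.val < ℓ α + finrank (ZMod p) W → (fun γ => g γ β) ∈ W

/-- left multiplication -/
def lm (f : Mat p n) : Mat p n →ₗ[ZMod p] Mat p n := LinearMap.mulLeft (ZMod p) f

/-- `h ↦ a * h * b` -/
def lr (a b : Mat p n) : Mat p n →ₗ[ZMod p] Mat p n where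
  toFun h := a * h * b
  map_add' C D := by rw [mul_add, add_mul]
  map_smul' c C := by simp

/-- the number of blocks -/
def nblk (ℓ : Ix n → ℕ) : ℕ := (Finset.univ.filter fun β : Ix n => ℓ β = β.val).card

/-! ### the accounting of the potential -/

open Classical in
/-- the projection to the blocks isomorphic to the block of `a` -/
def ec (ℓ : Ix n → ℕ) (B : Sub p n) (a : Ix n) : Mat p n :=
  Matrix.diagonal fun β => if Cb ℓ B a β = ⊥ then 0 else 1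

open Classical in
/-- the number of indices in the `ℓ`-block of `a` whose `ℓ'`-block is isomorphic to that of `β` -/
def mm (ℓ ℓ' : Ix n → ℕ) (B' : Sub p n) (a β : Ix n) : ℕ :=
  (Finset.univ.filter fun γ => ℓ γ = ℓ a ∧ Cb ℓ' B' β γ ≠ ⊥).card

/-- the corner `C ↦ η * C * η * pr a` -/
def crn (ℓ : Ix n → ℕ) (η : Mat p n) (a : Ix n) : Mat p n →ₗ[ZMod p] Mat p n where
  toFun C := η * C * η * pr ℓ a
  map_add' C D := by rw [mul_add, add_mul, add_mul]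
  map_smul' c C := by simp

/-- representatives of the isomorphism classes of blocks -/
def Rep (ℓ : Ix n → ℕ) (B : Sub p n) (α : Ix n) : Prop := ℓ α = α.val ∧ First ℓ B α

/-- a subalgebra `Bt` of `B` that is triangular for `ℓ'` with simple diagonal part `B'` -/
structure Set0 (ℓ : Ix n → ℕ) (B Bt : Sub p n) (ℓ' : Ix n → ℕ) (B' : Sub p n) : Prop where
  str : Str ℓ B
  alg : Alg ℓ Bt
  le : Bt ≤ B
  ref : Ref ℓ Bt ℓ' 1 B'
  str' : Str ℓ' B'

/-- `η` is an idempotent lift of `ec ℓ' B' β`, conjugate to it by `u` -/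
structure Eta (ℓ : Ix n → ℕ) (Bt : Sub p n) (ℓ' : Ix n → ℕ) (B' : Sub p n) (β : Ix n)
    (η u v : Mat p n) : Prop where
  mem : η ∈ Bt
  idem : η * η = η
  gre : gr ℓ' η = ec ℓ' B' β
  triu : Tri ℓ' u
  triv : Tri ℓ' v
  dgu : Dg ℓ u
  dgv : Dg ℓ v
  gru : gr ℓ' u = 1
  grv : gr ℓ' v = 1
  uv : u * v = 1
  vu : v * u = 1
  conj : η * u = u * ec ℓ' B' β
  rk : ∀ a, finrank (ZMod p) (im η ⊓ Vb ℓ a : VS p n) = mm ℓ ℓ' B' a β

/-- on the class of `a`, the subalgebra `Bt` contains a corner of `B` of codimension `df` -/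
structure Cor (ℓ : Ix n → ℕ) (B Bt : Sub p n) (a : Ix n) (η : Mat p n) (df : ℕ) : Prop where
  mem : η ∈ Bt
  idem : η * η = η
  off : ∀ b, Cb ℓ B a b = ⊥ → η * pr ℓ b = 0
  on : ∀ b, Cb ℓ B a b ≠ ⊥ → finrank (ZMod p) (im (1 - η) ⊓ Vb ℓ b : VS p n) = df
  corner : ∀ c ∈ B, η * c * η ∈ Bt

/-- the new potential `Φ'` pays for the codimension of the corners -/
def GainOut (ℓ : Ix n → ℕ) (B Bt : Sub p n) (Φ' : ℕ) : Prop :=
  Φ' ≤ Phi ℓ B ∧ ∀ a, ¬ Triv ℓ B a → ∃ η df, Cor ℓ B Bt a η df ∧ df ≤ 2 * (Phi ℓ B - Φ')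

/-- self-adjoint idempotents with small image -/
structure Eps (ℓ : Ix n → ℕ) (B : Sub p n) (ε : Mat p n) : Prop where
  mem : ε ∈ B
  idem : ε * ε = ε
  star : st ε = ε
  eo : ε * eo ℓ B = ε
  small : Small ℓ B 2 (im ε)

/-- matrix cocycles -/
structure MCoc (ℓ : Ix n → ℕ) (B : Sub p n) (a b : Ix n) (c : Mat p n → Mat p n) : Prop where
  supp : ∀ g, pr ℓ b.rev * c g * pr ℓ a = c g
  mul : ∀ g ∈ Lo B, ∀ h ∈ Lo B, c (g * h) - (st h * c g * h + c h) ∈ Cb ℓ B b.rev a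

/-- a decomposition of the slices of a form on the set `Y` -/
def Dcp (ℓ : Ix n → ℕ) (s : Side p n) (a : Fin 3 → Ix n) (τ : Frm p n) (Y : Set (Vec p n))
    (k0 k1 ψ : Vec p n →ₗ[ZMod p] Vec p n) : Prop :=
  ∀ u ∈ Vb ℓ (a 0), ∀ y ∈ Y, au τ u y = cmb (Cso ℓ s (a 2).rev (a 1)) (k0 u) *ᵥ y +
    cmb (Cso ℓ s (a 2).rev (a 0)) (k1 y) *ᵥ u +
    ψ fun i => ip ((Cso ℓ s (a 1).rev (a 0)).getD i.val 0 *ᵥ u) y

/-- a recipe that makes progress -/
structure Prg (ℓ : Ix n → ℕ) (s : Side p n) (cs : ℕ → Set (ℕ → ZMod p)) (ρ : Rc p n) : Prop where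
  kind : ρ.kind < 7
  k : ρ.k < 6
  r : ρ.r < 2 * (2 * n + 1)
  c : ρ.c = 0 ∨ ρ.c ∈ cs (ρ.t ℓ)
  valid : Valid ℓ s ρ
  acc : ∀ θ, ThOK ℓ s ρ θ → Acc ℓ s.B (Dd ℓ s ρ θ (ρ.u, 0)) (cost ℓ s ρ)

/-- `cs t` spans the annihilator at level `t` -/
structure Spn (ℓ : Ix n → ℕ) (s : Side p n) (cs : ℕ → Set (ℕ → ZMod p)) : Prop where
  ann : ∀ t, ∀ c ∈ cs t, Ann ℓ s t c
  span : ∀ t c, Ann ℓ s t c → ∃ c' ∈ Submodule.span (ZMod p) (cs t), ∀ x < nc (CL s), c x = c' x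

/-- the elementary unipotent matrices -/
def elm (α β : Ix n) : Mat p n := 1 + Matrix.single α β 1 - Matrix.single β.rev α.rev 1

/-- the elementary unipotent matrices of the parabolic group, by ascending column -/
def pc0 (ℓ : Ix n → ℕ) : List (Mat p n) :=
  (List.finRange _).flatMap fun β => (List.finRange _).filterMap fun α =>
    if c0 n < α ∧ ℓ α < ℓ β then some (elm α β) else none

/-- lifts with the coordinates in `I` matched -/
def LfI (ℓ : Ix n → ℕ) (T T' : Frm p n) (I : Set (Fin 3 → Ix n)) (z g : Mat p n) : Prop :=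
  Par ℓ g ∧ gr ℓ g = z ∧ ∀ i ∈ I, pull1 g T' i = T i

/-! ### groups -/

/-- the Baer sum -/
def bs (p : ℕ) {G : Type} [Group G] (x y : G) : G := x * y * ⁅y, x⁆ ^ ((p + 1) / 2)

/-- exponent `p` and class two -/
structure Cl2 (p : ℕ) (G : Type) [Group G] : Prop where
  pow : ∀ g : G, g ^ p = 1
  cen : ∀ a b c : G, ⁅⁅a, b⁆, c⁆ = 1

/-- coordinates for the Baer sum -/
def Coord {G : Type} [Group G] (κ : G ≃ (Fin n → ZMod p)) : Prop :=
  ∀ x y, κ (bs p x y) = κ x + κ y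

/-- the unit vector number `i` -/
def un1 (i : ℕ) : Fin n → ZMod p := fun j => if j.val = i then 1 else 0

/-- the commutator tensor -/
def tens {G : Type} [Group G] (κ : G ≃ (Fin n → ZMod p)) : Frm p n := fun i =>
  if h : n < (i 0).val ∧ n < (i 1).val ∧ (i 2).val < n then
    κ ⁅κ.symm (un1 ((i 0).val - n - 1)), κ.symm (un1 ((i 1).val - n - 1))⁆
      ⟨n - 1 - (i 2).val, by omega⟩
  else 0

end

end Pool.Agent.P.MP_f1a348_lc.PG
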