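import Pool.Agent.P.MP_f1a348_lc.PG.Conj

/-!
Project PG: the statements of the mathematical tasks.
-/

namespace Pool.Agent.P.MP_f1a348_lc.PG

open Matrix Module
open scoped commutatorElement

section
variable (p n : ℕ) [Fact p.Prime]

/-! ### geometry over the commutant -/

def S_CW : Prop := ∀ (ℓ : Ix n → ℕ) (B : Sub p n) (r : ℕ) (W : VS p n) (b : Ix n), Str ℓ B →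
  Small ℓ B r W → 2 * r + 3 ≤ db ℓ B b → ∃ v ∈ Vb ℓ b, Isot B v ∧ v ∈ perp W ∧ v ∉ W

def S_SEPI : Prop := ∀ (ℓ : Ix n → ℕ) (B : Sub p n) (W : VS p n) (b : Ix n) (y : Vec p n),
  Str ℓ B → Stab B W → ¬ Triv ℓ B b → y ∈ Vb ℓ b → Isot B y → y ∈ perp W → y ∉ W →
  ∃ π x, Cyc ℓ B π ∧ Iso π ∧ π * eo ℓ B = π ∧ π *ᵥ y = y ∧ st π *ᵥ y = 0 ∧
    (∀ w ∈ W, π *ᵥ w = 0 ∧ st π *ᵥ w = 0) ∧ im π ≤ orb (Com B) y ∧ x ∈ Vb ℓ b.rev ∧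
    ip x y = 1 ∧ st π *ᵥ x = x ∧ im (st π) ≤ orb (Com B) x

def S_TSM : Prop := ∀ (ℓ : Ix n → ℕ) (B : Sub p n) (π : Mat p n), Str ℓ B → Cyc ℓ B π → Iso π →
  π * eo ℓ B = π → Eps ℓ B (π + st π)

def S_SEP : Prop := ∀ (ℓ : Ix n → ℕ) (B : Sub p n) (W : VS p n) (b : Ix n) (y : Vec p n),
  Str ℓ B → Stab B W → ¬ Triv ℓ B b → y ∈ Vb ℓ b → y ∈ perp W → y ∉ W →
  ∃ ε, Eps ℓ B ε ∧ ε *ᵥ y = y ∧ ∀ w ∈ W, ε *ᵥ w = 0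

def S_SP : Prop := ∀ (ℓ : Ix n → ℕ) (B : Sub p n) (r s : ℕ) (W R : VS p n) (b : Ix n)
  (y : Vec p n), Str ℓ B → Small ℓ B r W → Small ℓ B s R → ¬ Triv ℓ B b →
  2 * (r + s + 1) + 3 ≤ db ℓ B b → y ∈ Vb ℓ b → y ∈ perp W →
  y ∈ Submodule.span (ZMod p) {v | v ∈ Vb ℓ b ∧ Isot B v ∧ v ∈ perp W ∧ v ∉ R}

def S_SWAP : Prop := ∀ (ℓ : Ix n → ℕ) (B : Sub p n) (r : ℕ) (W : VS p n) (b : Ix n)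
  (u u' : Vec p n), Str ℓ B → Small ℓ B r W → ¬ Triv ℓ B b → 2 * (r + 2) + 3 ≤ db ℓ B b →
  u ∈ Vb ℓ b → Isot B u → u ∈ perp W → u ∉ W → u' ∈ Vb ℓ b → Isot B u' → u' ∈ perp W → u' ∉ W →
  ∃ z1 z2, Test ℓ B z1 ∧ Test ℓ B z2 ∧ z2 *ᵥ (z1 *ᵥ u) = u' ∧ ∀ w ∈ W, z1 *ᵥ w = w ∧ z2 *ᵥ w = w

def S_TRANS : Prop := ∀ (ℓ : Ix n → ℕ) (B : Sub p n) (a : Fin 3 → Ix n) (x y : Fin 3 → Vec p n),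
  Str ℓ B → Big ℓ B 30 → Gen ℓ B a x → Gen ℓ B a y →
  ∃ z ∈ Lo B, ∀ j, ¬ Triv ℓ B (a j) → z *ᵥ x j = y j

def S_DFR : Prop := ∀ (ℓ : Ix n → ℕ) (B : Sub p n) (a : Fin 3 → Ix n) (y : Fin 3 → Vec p n),
  Str ℓ B → Gen ℓ B (fun j => (a j).rev) y →
  ∃ x π, Gen ℓ B a x ∧ (∀ j, x j ≠ 0) ∧ Frame ℓ B a x π ∧
    ∀ j, ¬ Triv ℓ B (a j) → st (π j) *ᵥ y j = y j

/-! ### traces -/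

def S_REL : Prop := ∀ (ℓ : Ix n → ℕ) (B : Sub p n) (r r' : ℕ) (W W' : VS p n) (a b : Ix n),
  Str ℓ B → Small ℓ B r W → Small ℓ B r' W' → ¬ Triv ℓ B a → r + r' + 2 < db ℓ B a →
  (∀ β : Vec p n →ₗ[ZMod p] Vec p n →ₗ[ZMod p] ZMod p,
    (∀ x ∈ Vb ℓ a, x ∈ perp W → ∀ y ∈ Vb ℓ b, y ∈ perp W' → y ∈ perp (orb (Co ℓ B) x) →
      β x y = 0) →
    ∃ C ∈ Cb ℓ B b.rev a, ∀ x ∈ Vb ℓ a, x ∈ perp W → ∀ y ∈ Vb ℓ b, y ∈ perp W' →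
      β x y = ip (C *ᵥ x) y) ∧
  ∀ C ∈ Cb ℓ B b.rev a, (∀ x ∈ Vb ℓ a, x ∈ perp W → ∀ y ∈ Vb ℓ b, y ∈ perp W' →
    ip (C *ᵥ x) y = 0) → C = 0

def S_PEEL : Prop := ∀ (ℓ : Ix n → ℕ) (B : Sub p n) (a : Fin 3 → Ix n) (m : Fin 3)
  (f : Fin 3 → Prop) (w : Frm p n), Str ℓ B → Big ℓ B 30 →
  (∀ x : Fin 3 → Vec p n, (∀ j, x j ∈ Vb ℓ (a j)) →
    (∀ k, f k ∨ k = m → x (k + 2) ∈ perp (orb (Co ℓ B) (x (k + 1)))) → ev w x = 0) →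
  ∃ w' ∈ Tr ℓ B, ∀ x : Fin 3 → Vec p n, (∀ j, x j ∈ Vb ℓ (a j)) →
    (∀ k, f k → k ≠ m → x (k + 2) ∈ perp (orb (Co ℓ B) (x (k + 1)))) → ev w x = ev w' x

def S_TR : Prop := ∀ (ℓ : Ix n → ℕ) (B : Sub p n) (a : Fin 3 → Ix n) (w : Frm p n), Str ℓ B →
  Big ℓ B 30 → w ∈ Wt ℓ (key ℓ a) → (∀ x, Gen ℓ B a x → ev w x = 0) → w ∈ Tr ℓ B

def S_RIG : Prop := ∀ (ℓ : Ix n → ℕ) (B : Sub p n) (a : Fin 3 → Ix n), Str ℓ B → Big ℓ B 30 →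
  (∃ j, ¬ Triv ℓ B (a j)) → Rig ℓ B (key ℓ a)

def S_DUAL : Prop := ∀ (ℓ : Ix n → ℕ) (B : Sub p n) (a : Fin 3 → Ix n) (w : Frm p n), Str ℓ B →
  Big ℓ B 30 → w ∈ W0 ℓ B (key ℓ a) →
  w ∈ Submodule.span (ZMod p) {v | ∃ y, Gen ℓ B (fun j => (a j).rev) y ∧ v = pf y}

def S_MASCHKE : Prop := ∀ (ℓ : Ix n → ℕ) (B : Sub p n) (a : Fin 3 → Ix n)
  (I : Submodule (ZMod p) (Frm p n →ₗ[ZMod p] Frm p n)), Str ℓ B → I ≤ AA ℓ B a →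
  (∀ μ ∈ AA ℓ B a, ∀ ν ∈ I, μ ∘ₗ ν ∈ I) → ∃ e ∈ I, ∀ ν ∈ I, ν ∘ₗ e = ν

def S_GP : Prop := ∀ (ℓ : Ix n → ℕ) (B : Sub p n) (a : Fin 3 → Ix n) (x : Fin 3 → Vec p n)
  (π : Fin 3 → Mat p n), Str ℓ B → Frame ℓ B a x π → (∀ j, x j ∈ Vb ℓ (a j)) → (∀ j, x j ≠ 0) →
  ∃ G : Frm p n →ₗ[ZMod p] Frm p n,
    (∀ S : Submodule (ZMod p) (Frm p n), (∀ z ∈ Lo B, ∀ w ∈ S, pull1 z w ∈ S) →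
      ∀ w ∈ S, G w ∈ S) ∧
    (∀ μ ∈ AA ℓ B a, ∀ w, G (μ w) = μ (G w)) ∧
    (∀ y : Fin 3 → Vec p n, (∀ j, y j ∈ Vb ℓ (a j).rev) →
      (∀ j, ¬ Triv ℓ B (a j) → st (π j) *ᵥ y j = y j) → G (pf y) = pf y) ∧
    ∀ w ∈ Wt ℓ (key ℓ a), (∀ μ ∈ AA ℓ B a, ev (μ w) x = 0) → G w = 0

def S_MID : Prop := ∀ (ℓ : Ix n → ℕ) (B : Sub p n) (a : Fin 3 → Ix n)
  (S : Submodule (ZMod p) (Frm p n)) (w : Frm p n), Str ℓ B → Big ℓ B 30 →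
  S ≤ Wt ℓ (key ℓ a) → (∀ z ∈ Lo B, ∀ v ∈ S, pull1 z v ∈ S) → w ∈ W0 ℓ B (key ℓ a) →
  (∀ μ ∈ AA ℓ B a, (∀ v ∈ S, μ v ∈ Tr ℓ B) → μ w ∈ Tr ℓ B) → w ∈ S ⊔ Tr ℓ B

def S_LAMAA : Prop := ∀ (ℓ : Ix n → ℕ) (s : Side p n) (a : Fin 3 → Ix n), Good ℓ s →
  (∀ c, lam ℓ (CL s) (key ℓ a) c ∘ₗ cmp ℓ (key ℓ a) ∈ AA ℓ s.B a) ∧
  ∀ μ ∈ AA ℓ s.B a, ∃ c, lam ℓ (CL s) (key ℓ a) c ∘ₗ cmp ℓ (key ℓ a) = μ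

/-! ### cocycles are coboundaries on tests -/

def S_WD : Prop := ∀ (ℓ : Ix n → ℕ) (B : Sub p n) (a b : Ix n) (c : Mat p n → Mat p n),
  Str ℓ B → Big ℓ B 30 → ¬ Triv ℓ B a → ¬ Triv ℓ B b → MCoc ℓ B a b c →
  ∃ bf : Vec p n → Vec p n → ZMod p, ∀ ε, Eps ℓ B ε → ∀ x ∈ Vb ℓ a, ∀ y ∈ Vb ℓ b,
    (ε *ᵥ x = x ∧ ε *ᵥ y = 0) ∨ (ε *ᵥ x = 0 ∧ ε *ᵥ y = y) →
    ip (c (1 - (2 : ZMod p) • ε) *ᵥ x) y = bf x y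

def S_ADD : Prop := ∀ (ℓ : Ix n → ℕ) (B : Sub p n) (r s : ℕ) (W R : VS p n) (b : Ix n)
  (f : Vec p n → Vec p n), Str ℓ B → Small ℓ B r W → Small ℓ B s R → r + s + 3 < db ℓ B b →
  (∀ y ∈ Vb ℓ b, y ∈ perp W → y ∉ R → ∀ y' ∈ Vb ℓ b, y' ∈ perp W → y' ∉ R ⊔ orb (Com B) y →
    f (y + y') = f y + f y') →
  ∃ L : Vec p n →ₗ[ZMod p] Vec p n, ∀ y ∈ Vb ℓ b, y ∈ perp W → y ∉ R → L y = f y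

def S_PL : Prop := ∀ (ℓ : Ix n → ℕ) (B : Sub p n) (a c : Ix n) (t : Vec p n → Vec p n),
  Str ℓ B → 4 < db ℓ B a → (∀ x ∈ Vb ℓ a, t x ∈ Vb ℓ c) →
  (∀ x ∈ Vb ℓ a, x ≠ 0 → ∀ x' ∈ Vb ℓ a, x' ∉ orb (Com B) x →
    t (x + x') - t x - t x' ∈ orb (Com B) x ⊔ orb (Com B) x') →
  ∃ θ : Mat p n, pr ℓ c * θ * pr ℓ a = θ ∧
    ∀ x ∈ Vb ℓ a, x ≠ 0 → θ *ᵥ x - t x ∈ orb (Com B) x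

def S_BIL : Prop := ∀ (ℓ : Ix n → ℕ) (B : Sub p n) (a b : Ix n) (c : Mat p n → Mat p n),
  Str ℓ B → Big ℓ B 30 → ¬ Triv ℓ B a → ¬ Triv ℓ B b → MCoc ℓ B a b c →
  ∃ θ : Mat p n, pr ℓ b.rev * θ * pr ℓ a = θ ∧ ∀ ε, Eps ℓ B ε → ∀ x ∈ Vb ℓ a, ∀ y ∈ Vb ℓ b,
    (ε *ᵥ x = x ∧ ε *ᵥ y = 0) ∨ (ε *ᵥ x = 0 ∧ ε *ᵥ y = y) →
    ip (c (1 - (2 : ZMod p) • ε) *ᵥ x) y = ip (θ *ᵥ x) y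

def S_EX2 : Prop := ∀ (ℓ : Ix n → ℕ) (B : Sub p n) (a b : Ix n) (c : Mat p n → Mat p n),
  Str ℓ B → Big ℓ B 30 → ¬ Triv ℓ B a → ¬ Triv ℓ B b → MCoc ℓ B a b c →
  ∃ θ : Mat p n, pr ℓ b.rev * θ * pr ℓ a = θ ∧
    ∀ z, Test ℓ B z → z * θ * z - θ - c z ∈ Cb ℓ B b.rev a

def S_EX : Prop := ∀ (ℓ : Ix n → ℕ) (B : Sub p n) (a : Fin 3 → Ix n) (c : Mat p n → Frm p n),
  Str ℓ B → Big ℓ B 30 → (∃ j, ¬ Triv ℓ B (a j)) → Coc ℓ B (key ℓ a) c →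
  ∃ θ ∈ Wt ℓ (key ℓ a), ∀ z, Test ℓ B z → pull1 z θ - θ - c z ∈ Tr ℓ B

def S_HC : Prop := ∀ (ℓ : Ix n → ℕ) (s : Side p n) (a : Fin 3 → Ix n) (c : ℕ → ZMod p),
  Good ℓ s → Big ℓ s.B 30 → LoLift ℓ s (key ℓ a) → (∃ j, ¬ Triv ℓ s.B (a j)) →
  Ann ℓ s (key ℓ a) c → ∃ θ, Th ℓ s (key ℓ a) c θ

/-! ### the step from one level to the next -/

def S_STA : Prop := ∀ (ℓ : Ix n → ℕ) (s : Side p n) (t : ℕ), Good ℓ s → LoLift ℓ s t →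
  s.B ≤ Ht s.B (D2 ℓ s t) (D2 ℓ s t) →
  ∀ z ∈ Lo s.B, ∀ g, Lf ℓ s.T s.T t z g → kap ℓ s.T t g ∈ Sp ℓ s.T t ⊔ W0 ℓ s.B t

def S_STB : Prop := ∀ (ℓ : Ix n → ℕ) (s : Side p n) (a : Fin 3 → Ix n), Good ℓ s →
  Big ℓ s.B 30 → LoLift ℓ s (key ℓ a) → (∃ j, ¬ Triv ℓ s.B (a j)) →
  (∀ c, Ann ℓ s (key ℓ a) c → ∃ θ ∈ Tr ℓ s.B, Th ℓ s (key ℓ a) c θ) →
  ∀ z ∈ Lo s.B, ∀ g, Lf ℓ s.T s.T (key ℓ a) z g → kap ℓ s.T (key ℓ a) g ∈ W0 ℓ s.B (key ℓ a) →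
    kap ℓ s.T (key ℓ a) g ∈ Sp ℓ s.T (key ℓ a) ⊔ Tr ℓ s.B

def S_STC : Prop := ∀ (ℓ : Ix n → ℕ) (s : Side p n) (t : ℕ), Good ℓ s → LoLift ℓ s t →
  s.B ≤ Ht s.B (D3 ℓ s t) (D3 ℓ s t) →
  (∀ z ∈ Lo s.B, ∀ g, Lf ℓ s.T s.T t z g → kap ℓ s.T t g ∈ Sp ℓ s.T t ⊔ Tr ℓ s.B) →
  ∀ z ∈ Lo s.B, ∀ g, Lf ℓ s.T s.T t z g → kap ℓ s.T t g ∈ Sp ℓ s.T t

def S_STEP : Prop := ∀ (ℓ : Ix n → ℕ) (s : Side p n) (a : Fin 3 → Ix n), Good ℓ s →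
  Big ℓ s.B 30 → LoLift ℓ s (key ℓ a) →
  s.B ≤ Ht s.B (D2 ℓ s (key ℓ a)) (D2 ℓ s (key ℓ a)) →
  s.B ≤ Ht s.B (D3 ℓ s (key ℓ a)) (D3 ℓ s (key ℓ a)) →
  ((∃ j, ¬ Triv ℓ s.B (a j)) →
    ∀ c, Ann ℓ s (key ℓ a) c → ∃ θ ∈ Tr ℓ s.B, Th ℓ s (key ℓ a) c θ) →
  LoLift ℓ s (key ℓ a + 1)

/-! ### the gain of a refinement -/

def S_ETA : Prop := ∀ (ℓ ℓ' : Ix n → ℕ) (B Bt B' : Sub p n) (β : Ix n), Set0 ℓ B Bt ℓ' B' →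
  ∃ η u v, Eta ℓ Bt ℓ' B' β η u v

def S_EBAS : Prop := ∀ (ℓ : Ix n → ℕ) (B : Sub p n) (η : Mat p n) (a : Ix n), Str ℓ B → η ∈ B →
  η * η = η → finrank (ZMod p) (B.map (crn ℓ η a)) * eb ℓ B a =
    finrank (ZMod p) (im η ⊓ Vb ℓ a : VS p n) ^ 2

def S_LOC1 : Prop := ∀ (ℓ ℓ' : Ix n → ℕ) (B Bt B' : Sub p n) (β a : Ix n) (η u v : Mat p n),
  Set0 ℓ B Bt ℓ' B' → Eta ℓ Bt ℓ' B' β η u v → 0 < mm ℓ ℓ' B' a β →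
  nb ℓ' β ^ 2 ≤ finrank (ZMod p) (Bt.map (crn ℓ η a)) * eb ℓ' B' β

def S_LOC2 : Prop := ∀ (ℓ ℓ' : Ix n → ℕ) (B Bt B' : Sub p n) (β a : Ix n) (η u v : Mat p n),
  Set0 ℓ B Bt ℓ' B' → Eta ℓ Bt ℓ' B' β η u v → mm ℓ ℓ' B' a β = nb ℓ' β →
  eb ℓ B a ∣ eb ℓ' B' β

def S_LOC : Prop := ∀ (ℓ ℓ' : Ix n → ℕ) (B Bt B' : Sub p n) (β a : Ix n) (η u v : Mat p n),
  Set0 ℓ B Bt ℓ' B' → Eta ℓ Bt ℓ' B' β η u v → 0 < mm ℓ ℓ' B' a β →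
  nb ℓ' β ^ 2 * eb ℓ B a ≤ mm ℓ ℓ' B' a β ^ 2 * eb ℓ' B' β ∧ eb ℓ B a ∣ mm ℓ ℓ' B' a β ∧
  (mm ℓ ℓ' B' a β = nb ℓ' β → eb ℓ B a ∣ eb ℓ' B' β) ∧
  (mm ℓ ℓ' B' a β = nb ℓ' β → eb ℓ B a = eb ℓ' B' β →
    (∀ b, Cb ℓ B a b = ⊥ → η * pr ℓ b = 0) → ∀ c ∈ B, η * c * η ∈ Bt)

open Classical in
def S_CLS : Prop := ∀ (ℓ : Ix n → ℕ) (B : Sub p n), Str ℓ B →
  (∀ a, ∃ α, Rep ℓ B α ∧ Cb ℓ B α a ≠ ⊥) ∧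
  (∀ α β, Rep ℓ B α → Rep ℓ B β → Cb ℓ B α β ≠ ⊥ → α = β) ∧
  (Phi ℓ B = ∑ α, if Rep ℓ B α ∧ ¬ Triv ℓ B α then nb ℓ α * (2 + Nat.size (db ℓ B α)) else 0) ∧
  (Phi ℓ B = 0 → B = Submodule.span (ZMod p) {1}) ∧ (0 < Phi ℓ B → ∃ a, ¬ Triv ℓ B a) ∧
  Phi ℓ B ≤ (2 * n + 1) * (2 + Nat.size (2 * n + 1))

open Classical in
def S_CLS2 : Prop := ∀ (ℓ ℓ' : Ix n → ℕ) (B Bt B' : Sub p n), Set0 ℓ B Bt ℓ' B' →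
  (∀ a, nb ℓ a = ∑ β, if Rep ℓ' B' β then mm ℓ ℓ' B' a β else 0) ∧
  (∀ a β, nb ℓ' β ∣ mm ℓ ℓ' B' a β) ∧ ∀ γ, Triv ℓ B γ → Triv ℓ' B' γ

open Classical in
def S_ACCT : Prop := ∀ (I J : Type) [Fintype I] [Fintype J] (k e : I → ℕ) (k' e' : J → ℕ)
  (m : I → J → ℕ) (nt : J → Prop) (Φ Φ' : ℕ),
  (∀ A, 0 < e A ∧ e A ∣ k A ∧ k A = ∑ X, m A X) → (∀ X, 0 < k' X ∧ e' X ∣ k' X) →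
  (∀ X, nt X → ∃ A, 0 < m A X) →
  (∀ A X, 0 < m A X → k' X ^ 2 * e A ≤ m A X ^ 2 * e' X ∧ k' X ∣ m A X ∧ e A ∣ m A X ∧
    (m A X = k' X → e A ∣ e' X)) →
  Φ = ∑ A, k A * (2 + Nat.size (k A / e A)) →
  Φ' = ∑ X, (if nt X then k' X * (2 + Nat.size (k' X / e' X)) else 0) →
  Φ' ≤ Φ ∧ ∀ A, k A ≤ 2 * (Φ - Φ') ∨ ∃ X, nt X ∧ m A X = k' X ∧ e A = e' X ∧
    (∀ A', A' ≠ A → m A' X = 0) ∧ k A - m A X ≤ 2 * (Φ - Φ')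

def S_GAIN0 : Prop := ∀ (ℓ ℓ' : Ix n → ℕ) (B Bt B' : Sub p n), Set0 ℓ B Bt ℓ' B' →
  GainOut ℓ B Bt (Phi ℓ' B')

def S_GAIN : Prop := ∀ (ℓ ℓ' : Ix n → ℕ) (B Bt B' : Sub p n) (g : Mat p n), Str ℓ B →
  Alg ℓ Bt → Bt ≤ B → Ref ℓ Bt ℓ' g B' → Sim ℓ' B' → GainOut ℓ B Bt (Phi ℓ' B')

def S_G1 : Prop := ∀ (ℓ : Ix n → ℕ) (B Bt : Sub p n) (Φ' : ℕ), Str ℓ B → Alg ℓ Bt →
  GainOut ℓ B Bt Φ' → ¬ B ≤ Bt → Φ' < Phi ℓ B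

def S_G2 : Prop := ∀ (ℓ : Ix n → ℕ) (B Bt : Sub p n) (a c : Ix n) (η : Mat p n) (df : ℕ)
  (D : Submodule (ZMod p) (HH p n)), Str ℓ B → Alg ℓ Bt → Bt ≤ B → Cor ℓ B Bt a η df →
  (∀ y ∈ D, y.1 ∈ Vb ℓ a ∧ y.2 ∈ Vb ℓ c) → (∀ b ∈ Bt, ∀ y ∈ D, (b *ᵥ y.1, b *ᵥ y.2) ∈ D) →
  ∃ C ∈ Cb ℓ B c a,
    finrank (ZMod p) (D.map (LinearMap.snd _ _ _ - C.mulVecLin ∘ₗ LinearMap.fst _ _ _)) ≤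
      df + finrank (ZMod p) (D.comap (LinearMap.inr _ _ _))

def S_ACC0 : Prop := ∀ (ℓ : Ix n → ℕ) (B : Sub p n) (D : Submodule (ZMod p) (Tup p n)),
  Str ℓ B → ¬ B ≤ Ht B D D → Acc ℓ B D 0

def S_PIN : Prop := ∀ (ℓ : Ix n → ℕ) (B : Sub p n) (a : Ix n) (u : Vec p n), Str ℓ B →
  ¬ Triv ℓ B a → u ∈ Vb ℓ a → u ≠ 0 →
  Acc ℓ B (D0 u) 0 ∧ (db ℓ B a ≤ 8 * tt n → Acc ℓ B (D0 u) (nb ℓ a))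

/-! ### spaces of linear maps of low rank -/

def S_CMP : Prop := ∀ (X Y : Type) [AddCommGroup X] [Module (ZMod p) X] [AddCommGroup Y]
  [Module (ZMod p) Y] [Module.Finite (ZMod p) X] [Module.Finite (ZMod p) Y]
  (A0 A : X →ₗ[ZMod p] Y),
  (∀ μ : ZMod p, finrank (ZMod p) (LinearMap.range (μ • A0 + A)) ≤
    finrank (ZMod p) (LinearMap.range A0)) →
  p * finrank (ZMod p)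
    (LinearMap.range ((LinearMap.range A0).mkQ ∘ₗ A ∘ₗ (LinearMap.ker A0).subtype)) ≤
    finrank (ZMod p) (LinearMap.range A0)

def S_L1 : Prop := ∀ (X Y : Type) [AddCommGroup X] [Module (ZMod p) X] [AddCommGroup Y]
  [Module (ZMod p) Y] [Module.Finite (ZMod p) X] [Module.Finite (ZMod p) Y]
  (S : Submodule (ZMod p) (X →ₗ[ZMod p] Y)) (r : ℕ),
  (∀ A ∈ S, finrank (ZMod p) (LinearMap.range A) ≤ r) →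
  ∃ U : Submodule (ZMod p) X,
    finrank (ZMod p) X + finrank (ZMod p) (⨆ A ∈ S, U.map A : Submodule (ZMod p) Y) ≤
      finrank (ZMod p) U + 4 * r

def S_HALF : Prop := ∀ (Q X Y : Type) [AddCommGroup Q] [Module (ZMod p) Q] [Finite Q]
  [AddCommGroup X] [Module (ZMod p) X] [AddCommGroup Y] [Module (ZMod p) Y]
  [Module.Finite (ZMod p) X] [Module.Finite (ZMod p) Y] (S : Submodule (ZMod p) Q)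
  (A : Q →ₗ[ZMod p] X →ₗ[ZMod p] Y) (r t : ℕ),
  (∀ q ∈ S, finrank (ZMod p) (LinearMap.range (A q)) ≤ r) →
  2 * finrank (ZMod p) Y * 7 ^ t ≤ 8 ^ t →
  ∃ U : Submodule (ZMod p) X, finrank (ZMod p) X ≤ finrank (ZMod p) U + 4 * r ∧
    ∀ q ∈ S, ∀ x ∈ U, A q x ∈ Pop A (S : Set Q) t

def S_POP : Prop := ∀ (Q X Y : Type) [Finite Q] [AddCommGroup X] [Module (ZMod p) X]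
  [AddCommGroup Y] [Module (ZMod p) Y] [Module.Finite (ZMod p) Y] (S : Set Q)
  (A : Q → X →ₗ[ZMod p] Y) (r t : ℕ), S.Nonempty →
  (∀ q ∈ S, finrank (ZMod p) (LinearMap.range (A q)) ≤ r) →
  finrank (ZMod p) (Submodule.span (ZMod p) (Pop A S t)) ≤ 2 * t * r

def S_POPN : Prop := ∀ (Q X Y : Type) [AddCommGroup X] [Module (ZMod p) X]
  [AddCommGroup Y] [Module (ZMod p) Y] (S S' : Set Q) (A A' : Q → X →ₗ[ZMod p] Y) (σ : Q → Q)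
  (R : Y ≃ₗ[ZMod p] Y) (t : ℕ), Set.BijOn σ S S' →
  (∀ q ∈ S, LinearMap.range (A' (σ q)) = (LinearMap.range (A q)).map R.toLinearMap) →
  Submodule.span (ZMod p) (Pop A' S' t) =
    (Submodule.span (ZMod p) (Pop A S t)).map R.toLinearMap

/-! ### progress -/

def S_DEC : Prop := ∀ (ℓ : Ix n → ℕ) (s : Side p n) (a : Fin 3 → Ix n), Good ℓ s →
  (∀ τ ∈ Tr ℓ s.B, τ ∈ Wt ℓ (key ℓ a) → ∃ k0 k1 ψ, Dcp ℓ s a τ Set.univ k0 k1 ψ ∧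
    ∀ u (α : Ix n), (Cso ℓ s (a 2).rev (a 1)).length ≤ α.val → k0 u α = 0) ∧
  ∀ θ ∈ Wt ℓ (key ℓ a), ∀ k0 k1 ψ, Dcp ℓ s a θ (Vb ℓ (a 1) : VS p n) k0 k1 ψ → θ ∈ Tr ℓ s.B

def S_HINV : Prop := ∀ (ℓ : Ix n → ℕ) (s : Side p n) (a : Fin 3 → Ix n) (θ τ : Frm p n),
  Good ℓ s → τ ∈ Tr ℓ s.B → τ ∈ Wt ℓ (key ℓ a) →
  (∀ q ∈ Qs ℓ s a, ∃ q' ∈ Qs ℓ s a, q'.1 = q.1 ∧ D4 ℓ s a (θ + τ) q' = D4 ℓ s a θ q) ∧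
  ∀ r, (∀ q ∈ Low ℓ s a θ r, ∃ q' ∈ Low ℓ s a (θ + τ) r, q'.1 = q.1) ∧
    D5 ℓ s a (θ + τ) r = D5 ℓ s a θ r ∧ D6 ℓ s a (θ + τ) r = D6 ℓ s a θ r

def S_PLP1 : Prop := ∀ (ℓ : Ix n → ℕ) (s : Side p n) (a : Fin 3 → Ix n) (θ : Frm p n)
  (u : Vec p n), Good ℓ s → θ ∈ Wt ℓ (key ℓ a) → θ ∉ Tr ℓ s.B → Triv ℓ s.B (a 0) →
  (¬ Triv ℓ s.B (a 1) ∨ ¬ Triv ℓ s.B (a 2)) → u ∈ Vb ℓ (a 0) → u ≠ 0 →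
  Acc ℓ s.B (D4 ℓ s a θ (u, 0)) (nb ℓ (a 0) + (Cso ℓ s (a 2).rev (a 1)).length)

def S_PLP4 : Prop := ∀ (ℓ : Ix n → ℕ) (s : Side p n) (a : Fin 3 → Ix n) (θ : Frm p n)
  (u : Vec p n), Good ℓ s → θ ∈ Wt ℓ (key ℓ a) → ¬ Triv ℓ s.B (a 1) → u ∈ Vb ℓ (a 0) →
  Acc ℓ s.B (D4 ℓ s a θ (u, 0)) (nb ℓ (a 0) + (Cso ℓ s (a 2).rev (a 1)).length) ∨
  ∃ q ∈ Low ℓ s a θ ((nb ℓ (a 0) - 1) / (8 * tt n - 1) + 2 * eb ℓ s.B (a 0)), q.1 = u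

def S_PLP5 : Prop := ∀ (ℓ : Ix n → ℕ) (s : Side p n) (a : Fin 3 → Ix n) (θ : Frm p n) (r : ℕ),
  Good ℓ s → θ ∈ Wt ℓ (key ℓ a) → θ ∉ Tr ℓ s.B → 2 * tt n * r < nb ℓ (a 1) →
  2 * tt n * r < nb ℓ (a 2) → (∀ u ∈ Vb ℓ (a 0), ∃ q ∈ Low ℓ s a θ r, q.1 = u) →
  ¬ s.B ≤ Ht s.B (D5 ℓ s a θ r) (D5 ℓ s a θ r) ∨ ¬ s.B ≤ Ht s.B (D6 ℓ s a θ r) (D6 ℓ s a θ r)

def S_PLP : Prop := ∀ (ℓ : Ix n → ℕ) (s : Side p n) (a : Fin 3 → Ix n) (θ0 : Frm p n)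
  (c : ℕ → ZMod p), Good ℓ s → Big ℓ s.B (8 * tt n) → (∃ j, ¬ Triv ℓ s.B (a j)) →
  θ0 ∈ Wt ℓ (key ℓ a) → θ0 ∉ Tr ℓ s.B →
  ∃ ρ : Rc p n, ρ.c = c ∧ 4 ≤ ρ.kind ∧ ρ.kind < 7 ∧ ρ.k < 6 ∧ ρ.r < 2 * (2 * n + 1) ∧
    ρ.t ℓ = key ℓ a ∧ ρ.u ∈ Vb ℓ (ρ.a 0) ∧ ∀ θ ∈ Wt ℓ (key ℓ a), θ - θ0 ∈ Tr ℓ s.B →
      Acc ℓ s.B (Dd ℓ s ρ θ (ρ.u, 0)) (cost ℓ s ρ)

def S_LVL : Prop := ∀ (ℓ : Ix n → ℕ) (s : Side p n) (cs : ℕ → Set (ℕ → ZMod p)) (t : ℕ),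
  Good ℓ s → Big ℓ s.B (8 * tt n) → Spn ℓ s cs → LoLift ℓ s t →
  LoLift ℓ s (t + 1) ∨ ∃ ρ, Prg ℓ s cs ρ

def S_PROG : Prop := ∀ (ℓ : Ix n → ℕ) (s : Side p n) (cs : ℕ → Set (ℕ → ZMod p)), Good ℓ s →
  0 < Phi ℓ s.B → Spn ℓ s cs → ∃ ρ, Prg ℓ s cs ρ

/-! ### naturality -/

def S_NAT1 : Prop := ∀ (ℓ : Ix n → ℕ) (φ : Mat p n) (s s' : Side p n) (t : ℕ), Good ℓ s →
  Nt ℓ φ s s' →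
  (∀ z g, Lf ℓ s.T s.T t z g → Lf ℓ s'.T s'.T t (cj (gr ℓ φ) z) (φ * g * st φ) ∧
    kap ℓ s'.T t (φ * g * st φ) = pull1 (st (gr ℓ φ)) (kap ℓ s.T t g)) ∧
  Sp ℓ s'.T t = (Sp ℓ s.T t).map (pull1 (st (gr ℓ φ))) ∧
  D2 ℓ s' t = (D2 ℓ s t).map (act (gr ℓ φ)) ∧ D3 ℓ s' t = (D3 ℓ s t).map (act (gr ℓ φ))

def S_NAT2 : Prop := ∀ (ℓ : Ix n → ℕ) (φ : Mat p n) (s s' : Side p n) (t : ℕ) (c : ℕ → ZMod p),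
  Good ℓ s → Nt ℓ φ s s' → (Ann ℓ s t c → Ann ℓ s' t c) ∧
  (∀ θ, Th ℓ s t c θ → Th ℓ s' t c (pull1 (st (gr ℓ φ)) θ)) ∧
  (AllLift ℓ s t → AllLift ℓ s' t) ∧ (Rig ℓ s.B t → Rig ℓ s'.B t)

def S_NAT3 : Prop := ∀ (ℓ : Ix n → ℕ) (φ : Mat p n) (s s' : Side p n) (a : Fin 3 → Ix n)
  (θ : Frm p n), Good ℓ s → Nt ℓ φ s s' →
  (∀ q, D4 ℓ s' a (pull1 (st (gr ℓ φ)) θ) (gr ℓ φ *ᵥ q.1, q.2) =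
    (D4 ℓ s a θ q).map (act (gr ℓ φ))) ∧
  ∀ r, D5 ℓ s' a (pull1 (st (gr ℓ φ)) θ) r = (D5 ℓ s a θ r).map (act (gr ℓ φ)) ∧
    D6 ℓ s' a (pull1 (st (gr ℓ φ)) θ) r = (D6 ℓ s a θ r).map (act (gr ℓ φ))

def S_NATUR : Prop := ∀ (ℓ : Ix n → ℕ) (φ : Mat p n) (s s' : Side p n) (ρ : Rc p n)
  (S : Set (HH p n)) (θ θ' : Frm p n), Good ℓ s → Nt ℓ φ s s' → Valid ℓ s ρ → Br ℓ s' ρ S →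
  ThOK ℓ s ρ θ → ThOK ℓ s' ρ θ' →
  ∃ φ', ∃ q' ∈ S, Nt ℓ φ' s s' ∧ s.B.map (lm (gr ℓ φ')) = s.B.map (lm (gr ℓ φ)) ∧
    Dd ℓ s' ρ θ' q' = (Dd ℓ s ρ θ (ρ.u, 0)).map (act (gr ℓ φ'))

/-! ### splitting blocks -/

def S_CUT : Prop := ∀ (ℓ : Ix n → ℕ) (α : Ix n) (m : ℕ), Lab ℓ → c0 n < α → 0 < m → m < nb ℓ α →
  Lab (cutL ℓ α m) ∧ (∀ β γ, cutL ℓ α m β ≤ cutL ℓ α m γ → ℓ β ≤ ℓ γ) ∧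
  nblk ℓ < nblk (cutL ℓ α m) ∧ nblk (cutL ℓ α m) ≤ 2 * n + 1 ∧
  ∀ β γ, ℓ β = ℓ γ → ℓ β ≠ ℓ α.rev →
    (ℓ β = ℓ α → ℓ α + m ≤ β.val → ℓ α + m ≤ γ.val) → cutL ℓ α m β ≤ cutL ℓ α m γ

def S_SPL : Prop := ∀ (ℓ : Ix n → ℕ) (α : Ix n) (W W' : VS p n) (g g' h : Mat p n), Lab ℓ →
  c0 n < α → W ≤ Vb ℓ α → W' ≤ Vb ℓ α → 0 < finrank (ZMod p) W → finrank (ZMod p) W < nb ℓ α →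
  finrank (ZMod p) W' = finrank (ZMod p) W → Ad ℓ α W g → Ad ℓ α W' g' → Dg ℓ h →
  (∀ w ∈ W, h *ᵥ w ∈ W') → (∀ w ∈ W', st h *ᵥ w ∈ W) →
  Tri (cutL ℓ α (finrank (ZMod p) W)) (st g' * h * g)

def S_MKG : Prop := ∀ (ℓ : Ix n → ℕ) (α : Ix n) (W : VS p n) (G G' : Mat p n), Lab ℓ →
  c0 n < α → G * G' = 1 → (∀ γ β, ℓ β ≠ ℓ α → G γ β = (1 : Mat p n) γ β) →
  (∀ γ β, ℓ β = ℓ α → ℓ γ ≠ ℓ α → G γ β = 0) →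
  (∀ β, ℓ β = ℓ α → β.val < ℓ α + finrank (ZMod p) W → (fun γ => G γ β) ∈ W) →
  Ad ℓ α W (G * st G')

def S_REF : Prop := ∀ (ℓ : Ix n → ℕ) (B : Sub p n), Lab ℓ → Alg ℓ B → Ref ℓ B ℓ 1 B ∧
  (∀ ℓ' g B', Ref ℓ B ℓ' g B' → Alg ℓ' B') ∧
  (∀ ℓ1 g1 B1 ℓ2 g2 B2, Ref ℓ B ℓ1 g1 B1 → Ref ℓ1 B1 ℓ2 g2 B2 → Ref ℓ B ℓ2 (g1 * g2) B2) ∧
  ((∀ α, c0 n < α → ∀ x ∈ Vb ℓ α, x ≠ 0 → nb ℓ α ≤ finrank (ZMod p) (orb B x)) → Sim ℓ B)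

def S_INV : Prop := ∀ (ℓ ℓ' : Ix n → ℕ) (B B' : Sub p n) (g g' φ : Mat p n), Lab ℓ →
  Ref ℓ B ℓ' g B' → Par ℓ φ → Par ℓ g' → Dg ℓ g' → Tri ℓ' (st g' * gr ℓ φ * g) →
  Par ℓ' (st g' * φ * g) ∧
  (B.map (lm (gr ℓ φ))).map (gr ℓ' ∘ₗ lr (st g') g) = B'.map (lm (gr ℓ' (st g' * φ * g)))

/-! ### the unipotent tower -/

def S_PC0 : Prop := ∀ ℓ : Ix n → ℕ, Lab ℓ →
  PC (pc0 ℓ : List (Mat p n)) {g | Par ℓ g ∧ gr ℓ g = 1}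

def S_PCS : Prop := ∀ (L : List (Mat p n)) (H : Set (Mat p n)), Grp H → PC L H →
  (∀ g ∈ L, g ∈ H) ∧
  ∀ κ : Mat p n → Frm p n, (∀ a ∈ H, ∀ b ∈ H, κ (a * b) = κ a + κ b) →
    ∀ u ∈ H, κ u ∈ (spL (L.map κ) : Submodule (ZMod p) (Frm p n))

def S_PCK : Prop := ∀ (pre post : List (Mat p n)) (g : Mat p n) (H : Set (Mat p n))
  (ψ : Mat p n → ZMod p) (k : Mat p n → ℕ), Grp H → PC (pre ++ g :: post) H →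
  (∀ a ∈ H, ∀ b ∈ H, ψ (a * b) = ψ a + ψ b) → ψ g ≠ 0 → (∀ h ∈ post, ψ h = 0) →
  (∀ h ∈ pre, ψ h + (k h : ZMod p) * ψ g = 0) →
  PC (pre.map (fun h => h * g ^ k h) ++ post) {u | u ∈ H ∧ ψ u = 0}

def S_CST : Prop := ∀ (ℓ : Ix n → ℕ) (T T' : Frm p n) (I : Set (Fin 3 → Ix n))
  (i : Fin 3 → Ix n), Lab ℓ → (∀ k, key ℓ k < key ℓ i → k ∈ I) →
  (∀ k ∈ I, key ℓ k ≤ key ℓ i) → Grp {u | LfI ℓ T T I 1 u} ∧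
  (∀ z g u, LfI ℓ T T' I z g → LfI ℓ T T I 1 u → LfI ℓ T T' I z (g * u) ∧
    pull1 (g * u) T' i - T i = (pull1 g T' i - T i) + (pull1 u T i - T i)) ∧
  ∀ z g g', LfI ℓ T T' I z g → LfI ℓ T T' I z g' → LfI ℓ T T I 1 (st g * g')

/-! ### groups -/

def S_BAER : Prop := ∀ (G : Type) [Group G], Cl2 p G → (∀ x y : G, bs p x y = bs p y x) ∧
  (∀ x y z : G, bs p (bs p x y) z = bs p x (bs p y z)) ∧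
  (∀ (x : G) (j k : ℕ), bs p (x ^ j) (x ^ k) = x ^ (j + k)) ∧
  (∀ x y z : G, ⁅bs p x y, z⁆ = bs p ⁅x, z⁆ ⁅y, z⁆) ∧
  ∀ x y : G, x * y = bs p (bs p x y) (⁅x, y⁆ ^ ((p + 1) / 2))

def S_TENS : Prop := ∀ (G H : Type) [Group G] [Group H] (κ : G ≃ (Fin n → ZMod p))
  (κ' : H ≃ (Fin n → ZMod p)), Cl2 p G → Cl2 p H → Coord κ → Coord κ' →
  (Nonempty (G ≃* H) ↔ ∃ ψ, Par (l0 n) ψ ∧ pull1 ψ (tens κ') = tens κ)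

end

variable {p n : ℕ} [Fact p.Prime]

theorem s_ACC0 (h1 : S_GAIN p n) (h2 : S_G1 p n) : S_ACC0 p n :=
  fun ℓ B D h hn ℓ' g B' hr hs =>
    ⟨h2 ℓ B _ _ h (Ht_alg h.alg D) (h1 ℓ ℓ' B _ B' g h (Ht_alg h.alg D) (Ht_le B D D) hr hs) hn,
      Nat.zero_le _⟩

end Pool.Agent.P.MP_f1a348_lc.PG
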