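import Pool.Agent.P.MP_f1a348_lc.PG.Prog
import Pool.Agent.P.MP_f1a348_lc.PG.Iface

/-!
Project PG: how the lists of the program are read as vectors, matrices, forms and subspaces.
-/

namespace Pool.Agent.P.MP_f1a348_lc.PG

open Matrix Module

abbrev Sq (p : ℕ) : Type := ℕ → ZMod p
/-- decoders -/
abbrev Dcd (p : ℕ) (X : Type) [AddCommGroup X] [Module (ZMod p) X] : Type := Sq p →ₗ[ZMod p] X

/-- the sequence of residues of a list -/
def tv (p : ℕ) (x : V) : Sq p := fun i => ((x.getD i 0 : ℕ) : ZMod p)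

/-- the number of a triple -/
def enc3 {n : ℕ} (k : Fin 3 → Ix n) : ℕ :=
  ((k 0).val * (2 * n + 1) + (k 1).val) * (2 * n + 1) + (k 2).val

/-- a triple as a list -/
def tr3 {n : ℕ} (a : Fin 3 → Ix n) : V := [(a 0).val, (a 1).val, (a 2).val]

noncomputable section

def shf (p k : ℕ) : Dcd p (Sq p) where
  toFun v := fun i => v (k + i)
  map_add' _ _ := rfl
  map_smul' _ _ := rfl

def vec (p n : ℕ) : Dcd p (Vec p n) where
  toFun v := fun α => v α.val
  map_add' _ _ := rfl
  map_smul' _ _ := rfl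

def mat (p n : ℕ) : Dcd p (Mat p n) where
  toFun v := Matrix.of fun α β => v (α.val * (2 * n + 1) + β.val)
  map_add' _ _ := rfl
  map_smul' _ _ := rfl

def frm (p n : ℕ) : Dcd p (Frm p n) where
  toFun v := fun k => v (enc3 k)
  map_add' _ _ := rfl
  map_smul' _ _ := rfl

def hh (p n : ℕ) : Dcd p (HH p n) := (vec p n).prod (vec p n ∘ₗ shf p (2 * n + 1))

/-- tuples with `K` components -/
def tup (p n K : ℕ) : Dcd p (Tup p n) where
  toFun v := fun k α => if k < K then v (k * (2 * n + 1) + α.val) else 0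
  map_add' v w := by funext k α; simp only [Pi.add_apply]; split_ifs <;> simp
  map_smul' c v := by funext k α; simp only [Pi.smul_apply, RingHom.id_apply]; split_ifs <;> simp

/-- sequences of length `d` -/
def cf (p d : ℕ) : Dcd p (Sq p) where
  toFun v := fun i => if i < d then v i else 0
  map_add' v w := by funext i; simp only [Pi.add_apply]; split_ifs <;> simp
  map_smul' c v := by funext i; simp only [Pi.smul_apply, RingHom.id_apply]; split_ifs <;> simp

section
variable {p : ℕ} {X : Type} [AddCommGroup X] [Module (ZMod p) X]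

/-- one more coordinate in front -/
def pl (δ : Dcd p X) : Dcd p (ZMod p × X) := (LinearMap.proj 0).prod (δ ∘ₗ shf p 1)

/-- `δ` reads exactly the first `d` entries -/
def Dec (δ : Dcd p X) (d : ℕ) : Prop := ∀ v, δ v = 0 ↔ ∀ i < d, v i = 0

def dv (δ : Dcd p X) (x : V) : X := δ (tv p x)

/-- the span of a list -/
def sp (δ : Dcd p X) (L : List V) : Submodule (ZMod p) X := spL (L.map (dv δ))

/-- `L` is a basis of `W` and its vectors are lists of length `d` -/
structure Bas (δ : Dcd p X) (d : ℕ) (L : List V) (W : Submodule (ZMod p) X) : Prop where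
  sp : sp δ L = W
  len : L.length = finrank (ZMod p) W
  norm : ∀ x ∈ L, x.length = d

/-- `L` lists the elements of `S` without repetition -/
structure Enum (δ : Dcd p X) (L : List V) (S : Set X) : Prop where
  mem : ∀ y, y ∈ S ↔ ∃ x ∈ L, dv δ x = y
  nodup : (L.map (dv δ)).Nodup

end

abbrev vV (p n : ℕ) (x : V) : Vec p n := dv (vec p n) x
abbrev mV (p n : ℕ) (x : V) : Mat p n := dv (mat p n) x
abbrev fV (p n : ℕ) (x : V) : Frm p n := dv (frm p n) x
abbrev hV (p n : ℕ) (x : V) : HH p n := dv (hh p n) x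

/-- the budget -/
def bud (n : ℕ) : ℕ := 16 * tt n * ((2 * n + 1) * (2 + Nat.size (2 * n + 1)))

structure Ok (p n : ℕ) (c : Cx) : Prop where
  hp : pp c = p
  hM : mM c = 2 * n + 1
  pad : p ^ bud n ≤ c.2.2.length

def lab (n : ℕ) (l : V) : Ix n → ℕ := fun α => l.getD α.val 0

def sdD (p n : ℕ) (s : Sd) : Side p n :=
  ⟨fV p n s.1, sp (mat p n) s.2.1,
    fun a b => (s.2.2.getD (a.val * (2 * n + 1) + b.val) []).map (mV p n)⟩

/-- a recipe with blocks `a` -/
def rcD (p : ℕ) {n : ℕ} (a : Fin 3 → Ix n) (ρ : Rp) : Rc p n :=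
  ⟨ρ.1, a, ρ.2.2.1, tv p ρ.2.2.2.1, vV p n ρ.2.2.2.2.1, ρ.2.2.2.2.2⟩

/-- the algebra of a left state -/
def alL (p n : ℕ) (x : Lt) : Sub p n := sp (mat p n) x.2.2

/-- the right state `y` follows an isomorphism -/
def Inv (p n : ℕ) (T0 T0' : V) (x : Lt) (y : Rt) : Prop :=
  Par (l0 n) (mV p n y.1) ∧ ∃ φ, Par (lab n x.1) φ ∧
    pull1 φ (pull1 (mV p n y.1) (fV p n T0')) = pull1 (mV p n x.2.1) (fV p n T0) ∧
    sp (mat p n) y.2 = (alL p n x).map (lm (gr (lab n x.1) φ))

end

/-! ### lengths -/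

theorem ran_eq (u : U) : ran u = List.range u.length := by
  refine List.ext_getElem (by simp [ran]) fun i h1 h2 => ?_
  simp [ran]

theorem mem_ran {u : U} {i : ℕ} : i ∈ ran u ↔ i < u.length := by rw [ran_eq, List.mem_range]

@[simp] theorem length_ran (u : U) : (ran u).length = u.length := by simp [ran]

@[simp] theorem length_mulU (u w : U) : (mulU u w).length = u.length * w.length := by
  simp [mulU, List.length_flatMap]

@[simp] theorem length_unL {β : Type} (l : List β) : (unL l).length = l.length := by simp [unL]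

theorem digs_eq (c : Cx) : digs c = List.range (pp c) := by rw [digs, ran_eq]; rfl

@[simp] theorem length_tab (c : Cx) (u : U) (f : ℕ → ℕ) : (tab c u f).length = u.length := by
  simp [tab]

@[simp] theorem length_nv (c : Cx) (u : U) (x : V) : (nv c u x).length = u.length := by simp [nv]

@[simp] theorem length_axpy (c : Cx) (u : U) (a : ℕ) (x y : V) :
    (axpy c u a x y).length = u.length := by simp [axpy]

@[simp] theorem length_unit (c : Cx) (u : U) (i : ℕ) : (unit c u i).length = u.length := by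
  simp [unit]

variable {p n : ℕ} {c : Cx}

protected theorem Ok.len1 (h : Ok p n c) : (u1 c).length = 2 * n + 1 := h.hM
protected theorem Ok.len2 (h : Ok p n c) : (u2 c).length = (2 * n + 1) * (2 * n + 1) := by
  rw [u2, length_mulU, h.len1]
protected theorem Ok.len3 (h : Ok p n c) : (u3 c).length = top n := by
  rw [u3, length_mulU, h.len2, h.len1, top]
protected theorem Ok.lenh (h : Ok p n c) : (uh c).length = 2 * (2 * n + 1) := by
  rw [uh, List.length_append, h.len1]; omega
protected theorem Ok.cz (h : Ok p n c) : cz c = n := by rw [PG.cz, h.hM]; omega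
protected theorem Ok.lenTT (h : Ok p n c) : (uTT c).length = tt n := by
  rw [uTT, length_mulU, List.length_cons (a := ()) (as := unL _), length_unL, h.hM,
    Nat.size_eq_bits_len]; rfl
protected theorem Ok.rv (h : Ok p n c) (α : Ix n) : rv c α.val = α.rev.val := by
  rw [PG.rv, h.hM, Fin.val_rev]; omega

theorem le_bud (n : ℕ) : 2 * (2 * n + 1) * tt n ≤ bud n := by
  rw [bud]; nlinarith [Nat.zero_le (tt n * (2 * n + 1) * Nat.size (2 * n + 1)),
    Nat.zero_le (tt n * (2 * n + 1))]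

protected theorem Ok.pow_le (h : Ok p n c) {k : ℕ} (hk : k ≤ bud n) : p ^ k ≤ c.2.2.length :=
  (Nat.pow_le_pow_right (by rw [← h.hp]; exact Nat.succ_pos _) hk).trans h.pad

protected theorem Ok.pow_le' (h : Ok p n c) {k : ℕ} (hk : k ≤ 2 * (2 * n + 1)) : p ^ k ≤ c.2.2.length :=
  h.pow_le (hk.trans ((Nat.le_mul_of_pos_right _ (by have := tt_ge n; omega)).trans (le_bud n)))

/-! ### triples -/

theorem enc3_lt (k : Fin 3 → Ix n) : enc3 k < top n := by
  have h0 := (k 0).2; have h1 := (k 1).2; have h2 := (k 2).2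
  have h3 : (k 0).val * (2 * n + 1) + (k 1).val + 1 ≤ (2 * n + 1) * (2 * n + 1) := by nlinarith
  rw [enc3, top]; nlinarith

theorem div_enc (a : ℕ) (b : Ix n) : (a * (2 * n + 1) + b.val) / (2 * n + 1) = a := by
  rw [Nat.add_comm, Nat.add_mul_div_right _ _ (by omega), Nat.div_eq_of_lt b.2, Nat.zero_add]

theorem mod_enc (a : ℕ) (b : Ix n) : (a * (2 * n + 1) + b.val) % (2 * n + 1) = b.val := by
  rw [Nat.add_comm, Nat.add_mul_mod_self_right, Nat.mod_eq_of_lt b.2]

theorem enc2_lt (a b : Ix n) : a.val * (2 * n + 1) + b.val < (2 * n + 1) * (2 * n + 1) := by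
  have := a.2; have := b.2; nlinarith

theorem exists_enc2 {K i : ℕ} (h : i < K * (2 * n + 1)) :
    ∃ k < K, ∃ b : Ix n, i = k * (2 * n + 1) + b.val :=
  ⟨i / (2 * n + 1), Nat.div_lt_of_lt_mul (by rwa [Nat.mul_comm]),
    ⟨i % (2 * n + 1), Nat.mod_lt _ (by omega)⟩, (Nat.div_add_mod' _ _).symm⟩

theorem exists_enc3 {i : ℕ} (h : i < top n) : ∃ k : Fin 3 → Ix n, enc3 k = i := by
  obtain ⟨j, hj, b, rfl⟩ := exists_enc2 h
  obtain ⟨a, ha, d, rfl⟩ := exists_enc2 hj
  exact ⟨![⟨a, ha⟩, d, b], rfl⟩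

protected theorem Ok.co (h : Ok p n c) (m : ℕ) (k : Fin 3 → Ix n) : co c m (enc3 k) = (k (sl m)).val := by
  have h3 : m % 3 = 0 ∨ m % 3 = 1 ∨ m % 3 = 2 := by omega
  rw [PG.co, h.hM, enc3, div_enc, div_enc, mod_enc, mod_enc]
  rcases h3 with e | e | e <;> simp [sl, e]

theorem enc3_inj : Function.Injective (enc3 : (Fin 3 → Ix n) → ℕ) := fun k k' e => by
  have e1 := congrArg (· % (2 * n + 1)) e
  have e2 := congrArg (· / (2 * n + 1) % (2 * n + 1)) e
  have e3 := congrArg (· / (2 * n + 1) / (2 * n + 1)) e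
  simp only [enc3, div_enc, mod_enc] at e1 e2 e3
  funext j
  fin_cases j
  · exact Fin.ext e3
  · exact Fin.ext e2
  · exact Fin.ext e1

protected theorem Ok.dg3 (h : Ok p n c) (k : Fin 3 → Ix n) :
    dg3 c (k 0).val (k 1).val (k 2).val = enc3 k := by rw [PG.dg3, h.hM, enc3]

theorem pmN_eq (k : ℕ) (m : Fin 3) : pmN k m.val = (pm k m).val := rfl

theorem sl_val (m : Fin 3) : sl m.val = m := Fin.ext (Nat.mod_eq_of_lt m.2)

theorem sl_add (m : ℕ) (j : Fin 3) : sl (m + j.val) = sl m + j :=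
  Fin.ext (by simp [sl, Fin.val_add])

theorem tr3_getD (a : Fin 3 → Ix n) (j : Fin 3) : (tr3 a).getD j.val 0 = (a j).val := by
  fin_cases j <;> rfl

theorem sum_range_ix {Y : Type} [AddCommMonoid Y] (f : ℕ → Y) :
    ∑ i ∈ Finset.range (2 * n + 1), f i = ∑ α : Ix n, f α.val := (Fin.sum_univ_eq_sum_range f _).symm

theorem sum_range_top {Y : Type} [AddCommMonoid Y] (f : ℕ → Y) :
    ∑ i ∈ Finset.range (top n), f i = ∑ k : Fin 3 → Ix n, f (enc3 k) := by
  refine (Finset.sum_bij (fun k _ => enc3 k) (fun k _ => Finset.mem_range.2 (enc3_lt k))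
    (fun _ _ _ _ e => enc3_inj e) (fun i hi => ?_) (fun _ _ => rfl)).symm
  obtain ⟨k, hk⟩ := exists_enc3 (Finset.mem_range.1 hi)
  exact ⟨k, Finset.mem_univ _, hk⟩

theorem cast_sm (u : U) (f : ℕ → ℕ) :
    ((sm u f : ℕ) : ZMod p) = ∑ i ∈ Finset.range u.length, (f i : ZMod p) := by
  rw [sm, ran_eq, ← Nat.cast_sum]; rfl

theorem sm_eq (u : U) (f : ℕ → ℕ) : sm u f = ∑ i ∈ Finset.range u.length, f i := by
  rw [sm, ran_eq]; rfl

/-! ### sequences -/

theorem tv_apply (x : V) (i : ℕ) : tv p x i = ((x.getD i 0 : ℕ) : ZMod p) := rfl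

@[simp] theorem tv_nil : tv p [] = 0 := by funext i; simp [tv]

theorem tv_of_le {x : V} {i : ℕ} (h : x.length ≤ i) : tv p x i = 0 := by
  rw [tv, List.getD_eq_default _ _ h, Nat.cast_zero]

theorem tv_drop (k : ℕ) (x : V) : tv p (x.drop k) = shf p k (tv p x) := by
  funext i; simp [tv, shf]

theorem tv_tail (x : V) : tv p x.tail = shf p 1 (tv p x) := by rw [← tv_drop, List.drop_one]

theorem tv_append_left {x : V} (y : V) {i : ℕ} (h : i < x.length) : tv p (x ++ y) i = tv p x i := by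
  rw [tv, tv, List.getD_append _ _ _ _ h]

theorem tv_append_right (x y : V) (i : ℕ) : tv p (x ++ y) (x.length + i) = tv p y i := by
  rw [tv, tv, List.getD_append_right _ _ _ _ (Nat.le_add_right _ _), Nat.add_sub_cancel_left]

theorem getD_tab (c : Cx) {u : U} (f : ℕ → ℕ) {i : ℕ} (h : i < u.length) :
    (tab c u f).getD i 0 = f i % pp c := by
  simp [tab, ran_eq, h]

theorem tv_tab (h : pp c = p) (u : U) (f : ℕ → ℕ) (i : ℕ) :
    tv p (tab c u f) i = if i < u.length then (f i : ZMod p) else 0 := by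
  split_ifs with hi
  · rw [tv, getD_tab c f hi, h, ZMod.natCast_mod]
  · exact tv_of_le (by simpa using hi)

theorem cast_ng (h : pp c = p) (a : ℕ) : ((ng c a : ℕ) : ZMod p) = -(a : ZMod p) := by
  have h1 : ((c.1.length + 1 : ℕ) : ZMod p) = 0 := by rw [← pp, h, ZMod.natCast_self]
  rw [Nat.cast_add, Nat.cast_one] at h1
  rw [ng, Nat.cast_mul, eq_neg_of_add_eq_zero_left h1, neg_one_mul]

theorem cast_inv [hp : Fact p.Prime] (h : pp c = p) (a : ℕ) :
    ((inv c a : ℕ) : ZMod p) = (a : ZMod p)⁻¹ := by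
  have key : ∀ b : ℕ, (a * b % p == 1) = true ↔ (a : ZMod p) * b = 1 := fun b => by
    rw [beq_iff_eq, ← Nat.cast_mul, ← Nat.cast_one (R := ZMod p), ZMod.natCast_eq_natCast_iff',
      Nat.mod_eq_of_lt hp.out.one_lt]
  rw [inv, digs_eq, h]
  cases e : (List.range p).find? fun b => a * b % p == 1 with
  | some b => exact eq_inv_of_mul_eq_one_right ((key b).1
      (List.find?_some (p := fun b => a * b % p == 1) e))
  | none =>
    by_cases h0 : (a : ZMod p) = 0
    · simp [h0]
    · exact absurd ((key _).2 (by rw [ZMod.natCast_zmod_val, mul_inv_cancel₀ h0]))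
        (List.find?_eq_none.1 e ((a : ZMod p)⁻¹).val (List.mem_range.2 (ZMod.val_lt _)))

theorem mod_eq_zero_iff (h : pp c = p) (a : ℕ) : (a % pp c == 0) = true ↔ (a : ZMod p) = 0 := by
  rw [beq_iff_eq, h, ZMod.natCast_eq_zero_iff, Nat.dvd_iff_mod_eq_zero]

theorem nz_iff (h : pp c = p) (x : V) (i : ℕ) : nz c x i = true ↔ tv p x i ≠ 0 := by
  rw [nz, bne, Bool.not_eq_true', ← Bool.not_eq_true, mod_eq_zero_iff h]; rfl

theorem nz_false (h : pp c = p) (x : V) (i : ℕ) : nz c x i = false ↔ tv p x i = 0 := by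
  rw [← Bool.not_eq_true, nz_iff h, not_not]

/-! ### decoders -/

section
variable {X : Type} [AddCommGroup X] [Module (ZMod p) X] {δ : Dcd p X} {d : ℕ}

theorem Dec.eq_iff (h : Dec δ d) {v w : Sq p} : δ v = δ w ↔ ∀ i < d, v i = w i := by
  rw [← sub_eq_zero, ← map_sub, h]
  simp only [Pi.sub_apply, sub_eq_zero]

theorem Dec.congr (h : Dec δ d) {v w : Sq p} (e : ∀ i < d, v i = w i) : δ v = δ w := h.eq_iff.2 e

@[simp] theorem dv_nil : dv δ [] = 0 := by rw [dv, tv_nil, map_zero]

theorem dv_tab (h : pp c = p) {u : U} (hδ : Dec δ u.length) (f : ℕ → ℕ) :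
    dv δ (tab c u f) = δ fun i => (f i : ZMod p) :=
  hδ.congr fun i hi => by rw [tv_tab h, if_pos hi]

theorem dv_nv (h : pp c = p) {u : U} (hδ : Dec δ u.length) (x : V) : dv δ (nv c u x) = dv δ x :=
  dv_tab h hδ _

theorem dv_axpy (h : pp c = p) {u : U} (hδ : Dec δ u.length) (a : ℕ) (x y : V) :
    dv δ (axpy c u a x y) = (a : ZMod p) • dv δ x + dv δ y := by
  rw [axpy, dv_tab h hδ, dv, dv, ← map_smul, ← map_add]
  congr 1; funext i; simp [tv]

theorem dv_vsub (h : pp c = p) {u : U} (hδ : Dec δ u.length) (x y : V) :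
    dv δ (vsub c u x y) = dv δ x - dv δ y := by
  rw [vsub, dv_axpy h hδ, cast_ng h, Nat.cast_one, neg_one_smul, neg_add_eq_sub]

theorem isz_iff (h : pp c = p) {u : U} (hδ : Dec δ u.length) (x : V) :
    isz c u x = true ↔ dv δ x = 0 := by
  rw [isz, List.all_eq_true, dv, hδ]
  simp only [mem_ran, Bool.not_eq_true', nz_false h]

theorem dv_unit (h : pp c = p) {u : U} (hδ : Dec δ u.length) (i : ℕ) :
    dv δ (unit c u i) = δ (Pi.single i 1) := by
  rw [unit, dv_tab h hδ]
  congr 1; funext j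
  by_cases e : i = j
  · subst e; simp
  · simp [beq_false_of_ne e, Pi.single_eq_of_ne' e]

theorem dv_append_left (hδ : Dec δ d) {x : V} (y : V) (hx : d ≤ x.length) :
    dv δ (x ++ y) = dv δ x := hδ.congr fun _ hi => tv_append_left y (hi.trans_le hx)

theorem pl_apply (v : Sq p) : pl δ v = (v 0, δ (shf p 1 v)) := rfl

theorem dv_pl (x : V) : dv (pl δ) x = (((x.getD 0 0 : ℕ) : ZMod p), dv δ x.tail) := by
  rw [dv, pl_apply, ← tv_tail]; rfl

theorem dv_pl_cons (a : ℕ) (x : V) : dv (pl δ) (a :: x) = ((a : ZMod p), dv δ x) := dv_pl _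

theorem Dec.pl (h : Dec δ d) : Dec (pl δ) (d + 1) := fun v => by
  rw [pl_apply, Prod.mk_eq_zero, h, Nat.forall_lt_succ_left]
  simp only [shf, LinearMap.coe_mk, AddHom.coe_mk, Nat.add_comm 1]

theorem Dec.pl' {u : U} (h : Dec δ u.length) : Dec (PG.pl δ) (() :: u).length := h.pl

theorem pl_surj (h : Function.Surjective δ) : Function.Surjective (pl δ) := fun y => by
  obtain ⟨v, hv⟩ := h y.2
  refine ⟨fun i => if i = 0 then y.1 else v (i - 1), Prod.ext rfl ?_⟩
  rw [← hv, pl_apply]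
  exact congrArg δ (funext fun i => by simp [shf])

theorem mem_sp {L : List V} {x : V} (h : x ∈ L) : dv δ x ∈ sp δ L :=
  Submodule.subset_span (List.mem_map_of_mem h)

theorem sp_le {L : List V} {W : Submodule (ZMod p) X} : sp δ L ≤ W ↔ ∀ x ∈ L, dv δ x ∈ W := by
  rw [sp, spL, Submodule.span_le]
  exact ⟨fun h x hx => h (List.mem_map_of_mem hx), fun h y hy => by
    obtain ⟨x, hx, rfl⟩ := List.mem_map.1 hy; exact h x hx⟩

theorem sp_eq_span (L : List V) : sp δ L = Submodule.span (ZMod p) (dv δ '' {x | x ∈ L}) := by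
  rw [sp, spL]; congr 1; ext y; simp

@[simp] theorem sp_nil : sp δ [] = ⊥ := le_bot_iff.1 (sp_le.2 (by simp))

theorem sp_append (L L' : List V) : sp δ (L ++ L') = sp δ L ⊔ sp δ L' := by
  rw [sp_eq_span, sp_eq_span, sp_eq_span, ← Submodule.span_union, ← Set.image_union]
  congr 2; ext x; simp

theorem sp_cons (x : V) (L : List V) :
    sp δ (x :: L) = Submodule.span (ZMod p) {dv δ x} ⊔ sp δ L := by
  rw [← List.singleton_append, sp_append, sp_eq_span [x]]; simp

theorem sp_map {Y : Type} [AddCommGroup Y] [Module (ZMod p) Y] {ε : Dcd p Y} {L : List V}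
    {f : V → V} (F : X →ₗ[ZMod p] Y) (h : ∀ x ∈ L, dv ε (f x) = F (dv δ x)) :
    sp ε (L.map f) = (sp δ L).map F := by
  rw [sp_eq_span, sp_eq_span, Submodule.map_span, Set.image_image]
  congr 1; ext y
  simp only [Set.mem_image, Set.mem_ofPred_eq, List.mem_map]
  exact ⟨fun ⟨_, ⟨x, hx, e⟩, e'⟩ => ⟨x, hx, by rw [← h x hx, e, e']⟩,
    fun ⟨x, hx, e⟩ => ⟨_, ⟨x, hx, rfl⟩, by rw [h x hx, e]⟩⟩

/-- the span of some unit vectors -/
theorem mem_sp_units (h : pp c = p) {u : U} (hδ : Dec δ u.length) (I : List ℕ) {y : X} :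
    y ∈ sp δ (I.map (unit c u)) ↔ ∃ v, (∀ i < u.length, i ∉ I → v i = 0) ∧ δ v = y := by
  constructor
  · intro hy
    rw [sp_eq_span] at hy
    induction hy using Submodule.span_induction with
    | mem y hy =>
      obtain ⟨x, hx, rfl⟩ := hy
      obtain ⟨i, hi, rfl⟩ := List.mem_map.1 hx
      exact ⟨_, fun j _ hj => Pi.single_eq_of_ne (fun e : j = i => hj (e ▸ hi)) _, (dv_unit h hδ i).symm⟩
    | zero => exact ⟨0, fun _ _ _ => rfl, map_zero _⟩
    | add y z _ _ hy hz =>
      obtain ⟨v, hv, rfl⟩ := hy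
      obtain ⟨w, hw, rfl⟩ := hz
      exact ⟨v + w, fun i h1 h2 => by simp [hv i h1 h2, hw i h1 h2], map_add _ _ _⟩
    | smul a y _ hy =>
      obtain ⟨v, hv, rfl⟩ := hy
      exact ⟨a • v, fun i h1 h2 => by simp [hv i h1 h2], map_smul _ _ _⟩
  · rintro ⟨v, hv, rfl⟩
    have e : δ v = δ (∑ i ∈ Finset.range u.length, v i • Pi.single i 1) := hδ.congr fun j hj => by
      rw [Finset.sum_apply, Finset.sum_eq_single j (fun i _ e => by simp [Pi.single_eq_of_ne' e])
        (fun e => absurd (Finset.mem_range.2 hj) e)]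
      simp
    rw [e, map_sum]
    refine Submodule.sum_mem _ fun i hi => ?_
    by_cases hI : i ∈ I
    · rw [map_smul, ← dv_unit h hδ]
      exact Submodule.smul_mem _ _ (mem_sp (List.mem_map_of_mem hI))
    · rw [hv i (Finset.mem_range.1 hi) hI, zero_smul, map_zero]; exact zero_mem _

theorem sp_units (h : pp c = p) {u : U} (hδ : Dec δ u.length) :
    sp δ (units c u) = LinearMap.range δ := by
  ext y
  rw [units, mem_sp_units h hδ]
  exact ⟨fun ⟨v, _, e⟩ => ⟨v, e⟩, fun ⟨v, e⟩ => ⟨v, fun i h1 h2 => absurd (mem_ran.2 h1) h2, e⟩⟩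

theorem sp_units_top (h : pp c = p) {u : U} (hδ : Dec δ u.length) (hs : Function.Surjective δ) :
    sp δ (units c u) = ⊤ := by rw [sp_units h hδ, LinearMap.range_eq_top.2 hs]

end

theorem vec_apply (v : Sq p) (α : Ix n) : vec p n v α = v α.val := rfl
theorem mat_apply (v : Sq p) (α β : Ix n) : mat p n v α β = v (α.val * (2 * n + 1) + β.val) := rfl
theorem frm_apply (v : Sq p) (k : Fin 3 → Ix n) : frm p n v k = v (enc3 k) := rfl
theorem hh_apply (v : Sq p) : hh p n v = (vec p n v, vec p n (shf p (2 * n + 1) v)) := rfl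
theorem shf_apply (k : ℕ) (v : Sq p) (i : ℕ) : shf p k v i = v (k + i) := rfl
theorem tup_apply (K : ℕ) (v : Sq p) (k : ℕ) (α : Ix n) :
    tup p n K v k α = if k < K then v (k * (2 * n + 1) + α.val) else 0 := rfl
theorem cf_apply (d : ℕ) (v : Sq p) (i : ℕ) : cf p d v i = if i < d then v i else 0 := rfl
theorem vV_apply (x : V) (α : Ix n) : vV p n x α = ((x.getD α.val 0 : ℕ) : ZMod p) := rfl
theorem fV_apply (x : V) (k : Fin 3 → Ix n) : fV p n x k = ((x.getD (enc3 k) 0 : ℕ) : ZMod p) := rfl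
protected theorem Ok.mV_apply (h : Ok p n c) (x : V) (α β : Ix n) :
    mV p n x α β = ((ent c x α.val β.val : ℕ) : ZMod p) := by rw [ent, h.hM]; rfl
theorem hV_eq (x : V) : hV p n x = (vV p n x, vV p n (x.drop (2 * n + 1))) := by
  rw [hV, dv, hh_apply, ← tv_drop]; rfl

theorem dec_vec : Dec (vec p n) (2 * n + 1) := fun _ =>
  ⟨fun h i hi => congrFun h ⟨i, hi⟩, fun h => funext fun α => h α.val α.2⟩

theorem dec_mat : Dec (mat p n) ((2 * n + 1) * (2 * n + 1)) := fun _ =>
  ⟨fun h i hi => by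
    obtain ⟨a, ha, b, rfl⟩ := exists_enc2 hi
    exact congrFun (congrFun h ⟨a, ha⟩) b,
   fun h => Matrix.ext fun α β => h _ (enc2_lt α β)⟩

theorem dec_frm : Dec (frm p n) (top n) := fun _ =>
  ⟨fun h i hi => by
    obtain ⟨k, rfl⟩ := exists_enc3 hi
    exact congrFun h k,
   fun h => funext fun k => h _ (enc3_lt k)⟩

theorem dec_hh : Dec (hh p n) (2 * (2 * n + 1)) := fun v => by
  rw [hh_apply, Prod.mk_eq_zero, dec_vec, dec_vec]
  refine ⟨fun h i hi => ?_, fun h => ⟨fun i hi => h i (by omega), fun i hi => h _ (by omega)⟩⟩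
  by_cases e : i < 2 * n + 1
  · exact h.1 i e
  · have := h.2 (i - (2 * n + 1)) (by omega)
    rwa [shf_apply, Nat.add_sub_cancel' (by omega)] at this

theorem dec_tup (K : ℕ) : Dec (tup p n K) (K * (2 * n + 1)) := fun v =>
  ⟨fun h i hi => by
    obtain ⟨a, ha, b, rfl⟩ := exists_enc2 hi
    have := congrFun (congrFun h a) b
    rwa [tup_apply, if_pos ha] at this,
   fun h => funext fun k => funext fun α => by
    rw [tup_apply]
    split_ifs with e
    · exact h _ (by have := α.2; nlinarith)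
    · rfl⟩

theorem dec_cf (d : ℕ) : Dec (cf p d) d := fun v =>
  ⟨fun h i hi => by have := congrFun h i; rwa [cf_apply, if_pos hi] at this,
   fun h => funext fun i => by
    rw [cf_apply]
    split_ifs with e
    · exact h i e
    · rfl⟩

protected theorem Ok.d1 (h : Ok p n c) : Dec (vec p n) (u1 c).length := h.len1 ▸ dec_vec
protected theorem Ok.d2 (h : Ok p n c) : Dec (mat p n) (u2 c).length := h.len2 ▸ dec_mat
protected theorem Ok.d3 (h : Ok p n c) : Dec (frm p n) (u3 c).length := h.len3 ▸ dec_frm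
protected theorem Ok.dh (h : Ok p n c) : Dec (hh p n) (uh c).length := h.lenh ▸ dec_hh
protected theorem Ok.dt (h : Ok p n c) (uk : U) : Dec (tup p n uk.length) (mulU uk (u1 c)).length := by
  rw [length_mulU, h.len1]; exact dec_tup _

theorem vec_surj : Function.Surjective (vec p n) := fun y =>
  ⟨fun i => if h : i < 2 * n + 1 then y ⟨i, h⟩ else 0, funext fun α => dif_pos α.2⟩

theorem mat_surj : Function.Surjective (mat p n) := fun y =>
  ⟨fun i => y ⟨i / (2 * n + 1) % (2 * n + 1), Nat.mod_lt _ (by omega)⟩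
      ⟨i % (2 * n + 1), Nat.mod_lt _ (by omega)⟩,
    Matrix.ext fun α β => by simp only [mat_apply, div_enc, mod_enc, Nat.mod_eq_of_lt α.2]⟩

theorem frm_surj : Function.Surjective (frm p n) := fun y =>
  ⟨Function.extend enc3 y 0, funext fun k => enc3_inj.extend_apply y 0 k⟩

theorem hh_surj : Function.Surjective (hh p n) := fun y => by
  obtain ⟨v, hv⟩ := vec_surj y.1
  obtain ⟨w, hw⟩ := vec_surj y.2
  refine ⟨fun i => if i < 2 * n + 1 then v i else w (i - (2 * n + 1)), Prod.ext ?_ ?_⟩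
  · rw [← hv]; funext α; exact if_pos α.2
  · rw [← hw]; funext α
    show (if 2 * n + 1 + α.val < 2 * n + 1 then _ else w (2 * n + 1 + α.val - (2 * n + 1))) = _
    rw [if_neg (by omega), Nat.add_sub_cancel_left]; rfl

theorem hV_append {x : V} (hx : x.length = 2 * n + 1) (y : V) :
    hV p n (x ++ y) = (vV p n x, vV p n y) := by
  rw [hV_eq, List.drop_left' hx, vV, dv_append_left dec_vec y hx.ge]

theorem hV_short {x : V} (hx : x.length = 2 * n + 1) : hV p n x = (vV p n x, 0) := by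
  rw [← dv_nil (δ := vec p n), ← hV_append hx, List.append_nil]

theorem tup_t2 {K : ℕ} (hK : 2 ≤ K) {x : V} (hx : x.length ≤ 2 * (2 * n + 1)) :
    dv (tup p n K) x = t2 (hV p n x) := by
  funext k α
  show (if k < K then tv p x _ else 0) =
    (if k = 0 then vV p n x else if k = 1 then vec p n (shf p (2 * n + 1) (tv p x)) else 0) α
  rcases k with _ | _ | k
  · rw [if_pos (by omega), if_pos rfl, Nat.zero_mul, Nat.zero_add]; rfl
  · rw [if_pos (by omega), if_neg (by omega), if_pos rfl, Nat.zero_add, Nat.one_mul]; rfl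
  · rw [if_neg (show k + 1 + 1 ≠ 0 by omega), if_neg (show k + 1 + 1 ≠ 1 by omega),
      tv_of_le (hx.trans (by nlinarith [Nat.zero_le (k * (2 * n + 1))])), ite_self]; rfl

theorem tup_t1 {K : ℕ} (hK : 2 ≤ K) {x : V} (hx : x.length = 2 * n + 1) :
    dv (tup p n K) x = t1 (vV p n x) := by
  rw [tup_t2 hK (by omega), hV_short hx, t1_apply]

theorem allV_sound {u : U} {x : V} (h : x ∈ allV c u) :
    x.length = u.length ∧ ∀ a ∈ x, a < pp c := by
  obtain ⟨h1, h2⟩ := GI.tuples_sound h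
  exact ⟨h1, fun a ha => by simpa [digs_eq] using h2 a ha⟩

theorem length_allV (c : Cx) (u : U) : (allV c u).length ≤ pp c ^ u.length := by
  simpa [allV, digs_eq] using GI.length_tuples_le c.2.2 (digs c) u

theorem allV_complete (h : pp c = p) {u : U} (hu : p ^ u.length ≤ c.2.2.length) (v : Sq p) :
    ∃ x ∈ allV c u, ∀ i < u.length, tv p x i = v i := by
  have : NeZero p := ⟨by rw [← h]; exact Nat.succ_ne_zero _⟩
  refine ⟨tab c u fun i => (v i).val, GI.tuples_complete (by simpa [digs_eq, h] using hu)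
    (length_tab ..) fun a ha => ?_, fun i hi => by rw [tv_tab h, if_pos hi, ZMod.natCast_zmod_val]⟩
  obtain ⟨i, -, rfl⟩ := List.mem_map.1 ha
  rw [digs_eq]
  exact List.mem_range.2 (Nat.mod_lt _ (Nat.succ_pos _))

theorem tuples_nodup {β γ : Type} (pad : U) {l : List β} (hl : l.Nodup) (u : List γ) :
    (GI.tuples pad l u).Nodup := by
  induction u using List.reverseRecOn with
  | nil => simp [GI.tuples]
  | append_singleton u b ih =>
    rw [GI.tuples_append]
    refine List.Nodup.sublist (List.take_sublist _ _) (List.nodup_flatMap.2 ⟨fun t _ =>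
      hl.map fun x y e => List.head_eq_of_cons_eq e, ih.imp fun {s t} e => ?_⟩)
    intro x h1 h2
    obtain ⟨_, _, rfl⟩ := List.mem_map.1 h1
    obtain ⟨_, _, e'⟩ := List.mem_map.1 h2
    exact e (List.tail_eq_of_cons_eq e').symm

theorem allV_nodup (c : Cx) (u : U) : (allV c u).Nodup :=
  tuples_nodup _ (by rw [digs_eq]; exact List.nodup_range) _

theorem allV_inj (h : pp c = p) {u : U} {x y : V} (hx : x ∈ allV c u) (hy : y ∈ allV c u)
    (e : ∀ i < u.length, tv p x i = tv p y i) : x = y := by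
  obtain ⟨h1, h2⟩ := allV_sound hx
  obtain ⟨h3, h4⟩ := allV_sound hy
  refine List.ext_getElem (h1.trans h3.symm) fun i i1 i2 => ?_
  have := e i (h1 ▸ i1)
  rw [tv, tv, List.getD_eq_getElem _ _ i1, List.getD_eq_getElem _ _ i2,
    ZMod.natCast_eq_natCast_iff', ← h, Nat.mod_eq_of_lt (h2 _ (List.getElem_mem _)),
    Nat.mod_eq_of_lt (h4 _ (List.getElem_mem _))] at this
  exact this

theorem allV_surj {X : Type} [AddCommGroup X] [Module (ZMod p) X] {δ : Dcd p X} (h : pp c = p)
    {u : U} (hδ : Dec δ u.length) (hs : Function.Surjective δ)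
    (hu : p ^ u.length ≤ c.2.2.length) (y : X) : ∃ x ∈ allV c u, dv δ x = y := by
  obtain ⟨v, rfl⟩ := hs y
  obtain ⟨x, hx, e⟩ := allV_complete h hu v
  exact ⟨x, hx, hδ.congr e⟩

theorem same_iff (l : V) (α β : Ix n) : same l α.val β.val = true ↔ lab n l α = lab n l β :=
  beq_iff_eq

protected theorem Ok.csg (h : Ok p n c) (s : Sd) (a b : Ix n) :
    (csg c s a.val b.val).map (mV p n) = (sdD p n s).Cs a b := by rw [PG.csg, h.hM]; rfl

end Pool.Agent.P.MP_f1a348_lc.PG
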