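import Pool.Agent.P.MP_f1a348_lc.PG.PFrm

/-!
Project PG: contractions, traces and the final check are computed correctly.
-/

namespace Pool.Agent.P.MP_f1a348_lc.PG

open Matrix Module

variable {p n : ℕ} [Fact p.Prime] {c : Cx}

theorem getD_mV_x (L : List V) (i : ℕ) : (L.map (mV p n)).getD i 0 = mV p n (L.getD i []) := by
  rw [← dv_nil (δ := mat p n)]
  exact List.getD_map L [] (mV p n)

protected theorem Ok.wtP (h : Ok p n c) (l : V) (t : ℕ) : sp (frm p n) (wtP c l t) = Wt (lab n l) t := by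
  rw [PG.wtP, sp_map (δ := frm p n) (cmp (lab n l) t) (fun x _ => h.cmpP l t x),
    sp_units_top h.hp h.d3 frm_surj]
  ext w
  rw [mem_Wt_iff, Submodule.mem_map]
  exact ⟨fun ⟨y, _, e⟩ => by rw [← e, cmp_cmp], fun e => ⟨w, trivial, e⟩⟩

protected theorem Ok.lamXP (h : Ok p n c) (L : List V) (x : ℕ) (w : V) :
    fV p n (lamXP c L x w) = lamX (L.map (mV p n)) x (fV p n w) := by
  rw [PG.lamXP, h.permP, h.pull3, lamX, LinearMap.comp_apply, getD_mV_x, getD_mV_x, getD_mV_x,
    List.length_map]

theorem length_uN (c : Cx) (s : Sd) :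
    (uN c s).length = nc ((clP c s).map (mV p n)) := by
  simp [uN, nc]

protected theorem Ok.lamP (h : Ok p n c) (l : V) (s : Sd) (t : ℕ) (cs w : V) :
    fV p n (lamP c l s t cs w) =
      lam (lab n l) ((clP c s).map (mV p n)) t (tv p cs) (fV p n w) := by
  rw [PG.lamP, h.cmpP, lam, LinearMap.comp_apply]
  refine congrArg _ ?_
  rw [fV, dv_tab h.hp h.d3]
  funext k
  rw [frm_apply, cast_sm, length_uN (p := p) (n := n), LinearMap.sum_apply, Finset.sum_apply]
  refine Finset.sum_congr rfl fun x _ => ?_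
  rw [LinearMap.smul_apply, ← h.lamXP, Nat.cast_mul]
  rfl

theorem length_uK (c : Cx) (s : Sd) : (uK c s).length = 3 * (colP c s).length + 2 := by
  simp [uK, u3K]

theorem con_zero_x (m : Fin 3) (w : Frm p n) : con m (0 : Mat p n) w = 0 := by
  funext α
  show (∑ i, if i m = α.rev then w i * (0 : Mat p n) (i (m + 2)) (i (m + 1)).rev else 0) = 0
  simp

protected theorem Ok.cnP (h : Ok p n c) (s : Sd) (y : V) :
    dv (tup p n (uK c s).length) (cnP c s y) =
      cn ((colP c s).map (mV p n)) (dv (pl (frm p n)) y) := by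
  rw [PG.cnP, uT, dv_tab h.hp (h.dt _), dv_pl]
  funext k α
  rw [tup_apply]
  show _ = (if k = 0 then ((y.getD 0 0 : ℕ) : ZMod p) • (e0 : Vec p n) else
    con (sl (k - 1)) (((colP c s).map (mV p n)).getD ((k - 1) / 3) 0) (fV p n y.tail)) α
  rw [h.hM, div_enc, mod_enc, h.cz]
  by_cases k0 : k = 0
  · subst k0
    rw [if_pos (by rw [length_uK]; omega), if_pos rfl, Nat.zero_mul, Nat.zero_add]
    by_cases e : α = c0 n
    · subst e
      simp [e0, c0]
    · have e' : α.val ≠ n := fun e' => e (Fin.ext e')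
      simp [e0, Pi.single_eq_of_ne e, beq_false_of_ne e']
  · rw [if_neg k0, beq_false_of_ne k0, cond_false]
    split_ifs with hk
    · rw [getD_mV_x, ← h.conP]
      rfl
    · rw [length_uK] at hk
      rw [List.getD_eq_default _ _ (by rw [List.length_map]; omega), con_zero_x]
      rfl

protected theorem Ok.tnP (h : Ok p n c) (s : Sd) (τ : V) :
    dv (pl (frm p n)) (tnP c s τ) =
      tn ((colP c s).map (mV p n)) (dv (tup p n (uK c s).length) τ) := by
  rw [PG.tnP, dv_pl_cons, dv_tab h.hp h.d3]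
  have e3 : (u3K c s).length = 3 * (colP c s).length := by simp [u3K]
  refine Prod.ext ?_ ?_
  · show _ = tup p n (uK c s).length (tv p τ) 0 (c0 n)
    rw [tup_apply, if_pos (by rw [length_uK]; omega), Nat.zero_mul, Nat.zero_add, h.cz]
    rfl
  · funext k
    show frm p n _ k = (∑ x ∈ Finset.range (3 * ((colP c s).map (mV p n)).length), trf (sl x)
      (((colP c s).map (mV p n)).getD (x / 3) 0) (dv (tup p n (uK c s).length) τ (x + 1))) k
    rw [frm_apply, cast_sm, e3, List.length_map, Finset.sum_apply]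
    refine Finset.sum_congr rfl fun x hx => ?_
    have hx' := Finset.mem_range.1 hx
    have e : dv (tup p n (uK c s).length) τ (x + 1) = vV p n (τ.drop ((x + 1) * mM c)) := by
      funext α
      rw [dv, tup_apply, if_pos (by rw [length_uK]; omega), vV, dv, tv_drop, vec_apply, shf_apply,
        h.hM]
    rw [e, getD_mV_x, ← h.trfP]
    rfl

protected theorem Ok.ambP (h : Ok p n c) (s : Sd) :
    sp (tup p n (uK c s).length) (ambP c s) = Amb (colP c s).length := by
  have e3 : (u3K c s).length = 3 * (colP c s).length := by simp [u3K]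
  have hl : (mulU (uK c s) (u1 c)).length = (uK c s).length * (2 * n + 1) := by
    rw [length_mulU, h.len1]
  have key : ∀ k < (uK c s).length, ∀ α : Ix n, k * (2 * n + 1) + α.val ∈
      ((ran (mulU (uK c s) (u1 c))).filter fun i => i == cz c ||
        (Nat.ble (mM c) i && Nat.ble (i / mM c) (u3K c s).length)) ↔
      (k = 0 ∧ α = c0 n) ∨ (k ≠ 0 ∧ k ≤ 3 * (colP c s).length) := fun k hk α => by
    have h1 : k * (2 * n + 1) + α.val < (uK c s).length * (2 * n + 1) := by
      have := α.2; nlinarith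
    have h2 := α.2
    rw [List.mem_filter, mem_ran, hl, h.hM, h.cz, div_enc, e3]
    simp only [Bool.or_eq_true, Bool.and_eq_true, beq_iff_eq, Nat.ble_eq, h1, true_and, Fin.ext_iff,
      c0]
    rcases k with _ | k
    · simp only [Nat.zero_mul, Nat.zero_add, ne_eq, not_true, false_and, or_false, true_and]
      omega
    · have h3 : (k + 1) * (2 * n + 1) = k * (2 * n + 1) + (2 * n + 1) := by ring
      omega
  ext τ
  rw [PG.ambP, uT, mem_sp_units h.hp (h.dt _)]
  constructor
  · rintro ⟨v, hv, rfl⟩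
    refine ⟨fun α hα => ?_, fun k hk => funext fun α => ?_⟩
    · have h0 : 0 < (uK c s).length := by rw [length_uK]; omega
      rw [tup_apply, if_pos h0]
      refine hv _ (by rw [hl]; have := α.2; nlinarith) fun hm => ?_
      rcases (key 0 h0 α).1 hm with e | e
      · exact hα e.2
      · exact e.1 rfl
    · rw [tup_apply]
      split_ifs with e
      · refine hv _ (by rw [hl]; have := α.2; nlinarith) fun hm => ?_
        rcases (key k e α).1 hm with e | e <;> omega
      · rfl
  · intro hτ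
    refine ⟨fun i => τ (i / (2 * n + 1)) ⟨i % (2 * n + 1), Nat.mod_lt _ (by omega)⟩,
      fun i hi hm => ?_, ?_⟩
    · rw [hl] at hi
      obtain ⟨k, hk, α, rfl⟩ := exists_enc2 hi
      rw [key k hk] at hm
      simp only [div_enc, mod_enc, Fin.eta]
      by_cases k0 : k = 0
      · subst k0
        exact hτ.1 α fun e => hm (Or.inl ⟨rfl, e⟩)
      · exact congrFun (hτ.2 k (by by_contra e; exact hm (Or.inr ⟨k0, by omega⟩))) α
    · funext k α
      rw [tup_apply]
      split_ifs with e
      · simp only [div_enc, mod_enc, Fin.eta]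
      · rw [length_uK] at e
        exact (congrFun (hτ.2 k (by omega)) α).symm

protected theorem Ok.domP (h : Ok p n c) (l : V) (b : Ix n) :
    sp (hh p n) (domP c l b.val) = Dom (lab n l) b := by
  ext y
  rw [PG.domP, mem_sp_units h.hp h.dh, Dom, Submodule.mem_prod]
  have key : ∀ i < (uh c).length, i ∉ ((ran (uh c)).filter fun i => Nat.ble (mM c) i ||
      same l i b.val) ↔ i < 2 * n + 1 ∧ same l i b.val = false := fun i hi => by
    rw [List.mem_filter, mem_ran, h.hM]
    simp only [hi, true_and, Bool.or_eq_true, Nat.ble_eq, not_or, not_le, Bool.not_eq_true]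
  constructor
  · rintro ⟨v, hv, rfl⟩
    refine ⟨fun β hβ => ?_, trivial⟩
    have hb : β.val < (uh c).length := by rw [h.lenh]; have := β.2; omega
    refine hv β.val hb ((key _ hb).2 ⟨β.2, ?_⟩)
    rw [← Bool.not_eq_true, same_iff]
    exact hβ
  · rintro ⟨hy, -⟩
    obtain ⟨v, rfl⟩ := hh_surj y
    refine ⟨v, fun i hi hm => ?_, rfl⟩
    obtain ⟨h1, h2⟩ := (key i hi).1 hm
    refine hy ⟨i, h1⟩ fun e => ?_
    have := (same_iff l ⟨i, h1⟩ b).2 e
    rw [h2] at this
    exact Bool.false_ne_true this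

protected theorem Ok.chkP (h : Ok p n c) (T0 T0' ψ : V) : chkP c T0 T0' ψ = true ↔
    Par (l0 n) (mV p n ψ) ∧ pull1 (mV p n ψ) (fV p n T0') = fV p n T0 := by
  have e1 : (ent c ψ (cz c) (cz c) % pp c == 1) = true ↔ mV p n ψ (c0 n) (c0 n) = 1 := by
    rw [h.mV_apply, h.cz, h.hp, beq_iff_eq, ← Nat.cast_one (R := ZMod p),
      ZMod.natCast_eq_natCast_iff', Nat.mod_eq_of_lt (Fact.out : p.Prime).one_lt]
    rfl
  have e2 : isz c (u3 c) (dif c T0 T0' ψ) = true ↔
      pull1 (mV p n ψ) (fV p n T0') = fV p n T0 := by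
    rw [isz_iff h.hp h.d3, ← sub_eq_zero (a := pull1 _ _), ← h.dif]
  rw [PG.chkP, Bool.and_eq_true, Bool.and_eq_true, Bool.and_eq_true, h.meq, h.meq, e1, e2, h.grP,
    h.l0P, h.mmul, h.mstar, h.oneP, Par, Un]
  refine and_congr_left fun _ => ?_
  rw [and_assoc]
  refine and_congr_left fun _ => ⟨fun e => Dg.tri lab_l0 (e ▸ dg_gr _), fun e => e.dg_l0.gr_eq⟩

end Pool.Agent.P.MP_f1a348_lc.PG
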