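import Pool.Agent.P.MP_f1a348_lc.GI.PTA

/-!
Project PG: the program.  Vectors, matrices and forms over `ZMod p` are lists of natural numbers,
subspaces are lists of spanning vectors, dimensions are given in unary.
-/

namespace Pool.Agent.P.MP_f1a348_lc.PG

open Pool.Agent.P.MP_f1a348_lc.GI (tuples)

abbrev V : Type := List ℕ
abbrev U : Type := List Unit
/-- `p - 1`, the dimension `2 n + 1` and the budget, in unary -/
abbrev Cx : Type := U × U × U

def pp (c : Cx) : ℕ := c.1.length + 1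
def mM (c : Cx) : ℕ := c.2.1.length
def cz (c : Cx) : ℕ := mM c / 2
def ran (u : U) : List ℕ := u.zipIdx.map fun q => q.2
def mulU (u w : U) : U := u.flatMap fun _ => w
def unL {β : Type} (l : List β) : U := l.map fun _ => ()
def u1 (c : Cx) : U := c.2.1
def u2 (c : Cx) : U := mulU (u1 c) (u1 c)
def u3 (c : Cx) : U := mulU (u2 c) (u1 c)
def uh (c : Cx) : U := u1 c ++ u1 c
def digs (c : Cx) : List ℕ := ran (() :: c.1)

/-! ### linear algebra -/

def tab (c : Cx) (u : U) (f : ℕ → ℕ) : V := (ran u).map fun i => f i % pp c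
def nv (c : Cx) (u : U) (x : V) : V := tab c u fun i => x.getD i 0
def inv (c : Cx) (a : ℕ) : ℕ := ((digs c).find? fun b => a * b % pp c == 1).getD 0
def ng (c : Cx) (a : ℕ) : ℕ := c.1.length * a
def axpy (c : Cx) (u : U) (a : ℕ) (x y : V) : V := tab c u fun i => a * x.getD i 0 + y.getD i 0
def vsub (c : Cx) (u : U) (x y : V) : V := axpy c u (ng c 1) y x
def nz (c : Cx) (x : V) (i : ℕ) : Bool := x.getD i 0 % pp c != 0
def isz (c : Cx) (w : U) (x : V) : Bool := (ran w).all fun i => !nz c x i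
def unit (c : Cx) (u : U) (i : ℕ) : V := tab c u fun j => bif i == j then 1 else 0
def units (c : Cx) (u : U) : List V := (ran u).map (unit c u)
def allV (c : Cx) (u : U) : List V := tuples c.2.2 (digs c) u

def elim1 (c : Cx) (w : U) (L : List V) (i : ℕ) : List V :=
  (L.find? fun x => nz c x i).elim L fun x =>
    L.map fun y => axpy c w (ng c (y.getD i 0 * inv c (x.getD i 0))) x y

def elim (c : Cx) (u w : U) (L : List V) : List V := (ran u).foldl (elim1 c w) L

def basis1 (c : Cx) (w : U) (s : List V × List V) (i : ℕ) : List V × List V :=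
  ((s.2.find? fun x => nz c x i).toList.map (nv c w) ++ s.1, elim1 c w s.2 i)

def basis (c : Cx) (w : U) (L : List V) : List V := ((ran w).foldl (basis1 c w) ([], L)).1

def preim (c : Cx) (u w : U) (L : List V) (f : V → V) (S : List V) : List V :=
  basis c w ((elim c u (u ++ w) (L.map (fun x => nv c u (f x) ++ x) ++ S.map (nv c u))).map
    fun x => x.drop u.length)

def preAll (c : Cx) (u w : U) (L ts : List V) (f : V → V → V) (S : List V) : List V :=
  ts.foldl (fun K t => preim c u w K (f t) S) (basis c w L)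

def rk (c : Cx) (w : U) (L : List V) : ℕ := (basis c w L).length
def mem (c : Cx) (w : U) (L : List V) (x : V) : Bool := rk c w (x :: L) == rk c w L

def aff (c : Cx) (w : U) (L : List V) : Option V :=
  (L.find? fun x => nz c x 0).map fun x => tab c w fun i => x.getD (i + 1) 0 * inv c (x.getD 0 0)

/-! ### matrices and forms -/

def rv (c : Cx) (i : ℕ) : ℕ := mM c - 1 - i
def ent (c : Cx) (a : V) (i j : ℕ) : ℕ := a.getD (i * mM c + j) 0
def sm (u : U) (f : ℕ → ℕ) : ℕ := ((ran u).map f).sum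
def mtab (c : Cx) (f : ℕ → ℕ → ℕ) : V := tab c (u2 c) fun i => f (i / mM c) (i % mM c)
def mmul (c : Cx) (a b : V) : V := mtab c fun i j => sm (u1 c) fun k => ent c a i k * ent c b k j
def mstar (c : Cx) (a : V) : V := mtab c fun i j => ent c a (rv c j) (rv c i)
def mvec (c : Cx) (a x : V) : V := tab c (u1 c) fun i => sm (u1 c) fun k => ent c a i k * x.getD k 0
def ipP (c : Cx) (x y : V) : ℕ := sm (u1 c) fun k => x.getD k 0 * y.getD (rv c k) 0
def same (l : V) (i j : ℕ) : Bool := l.getD i 0 == l.getD j 0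
def grP (c : Cx) (l a : V) : V := mtab c fun i j => bif same l i j then ent c a i j else 0
def diagP (c : Cx) (f : ℕ → Bool) : V := mtab c fun i j => bif i == j && f i then 1 else 0
def oneP (c : Cx) : V := diagP c fun _ => true
def prP (c : Cx) (l : V) (a : ℕ) : V := diagP c fun j => same l j a
def meq (c : Cx) (a b : V) : Bool := isz c (u2 c) (vsub c (u2 c) a b)
def pw (c : Cx) (g : V) (k : ℕ) : V :=
  (digs c).foldl (fun x i => bif Nat.blt i k then mmul c x g else x) (oneP c)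
def invP (c : Cx) (g : V) : V :=
  (aff c (u2 c) (preim c (u2 c) (() :: u2 c) (units c (() :: u2 c))
    (fun y => axpy c (u2 c) (ng c (y.getD 0 0)) (oneP c) (mmul c g y.tail)) [])).getD []
def inB (c : Cx) (l : V) (a : ℕ) (x : V) : Bool := (ran (u1 c)).all fun j => same l j a || !nz c x j
def nbP (c : Cx) (l : V) (a : ℕ) : ℕ := (ran (u1 c)).countP fun j => same l j a
def blkP (c : Cx) (l : V) (a : ℕ) : List V :=
  (allV c (unL ((ran (u1 c)).filter fun j => same l j a))).map fun x =>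
    tab c (u1 c) fun j => bif same l j a then x.getD (j - l.getD a 0) 0 else 0

/-- the index in place `m % 3` of the triple number `i` -/
def co (c : Cx) (m i : ℕ) : ℕ := [i / mM c / mM c, i / mM c % mM c, i % mM c].getD (m % 3) 0
def pmN (k m : ℕ) : ℕ := ((1 + k / 3 % 2) * m + k) % 3
def dg3 (c : Cx) (i j k : ℕ) : ℕ := (i * mM c + j) * mM c + k
def pull3 (c : Cx) (a b d w : V) : V :=
  tab c (u3 c) fun i => sm (u3 c) fun k => w.getD k 0 *
    (ent c a (co c 0 k) (co c 0 i) * ent c b (co c 1 k) (co c 1 i) * ent c d (co c 2 k) (co c 2 i))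
def pull1P (c : Cx) (g w : V) : V := pull3 c g g g w
def permP (c : Cx) (k : ℕ) (w : V) : V :=
  tab c (u3 c) fun i => w.getD (dg3 c (co c (pmN k 0) i) (co c (pmN k 1) i) (co c (pmN k 2) i)) 0
def keyP (c : Cx) (l : V) (i : ℕ) : ℕ :=
  dg3 c (l.getD (co c 0 i) 0) (l.getD (co c 1 i) 0) (l.getD (co c 2 i) 0)
def cmpP (c : Cx) (l : V) (t : ℕ) (w : V) : V :=
  tab c (u3 c) fun i => bif keyP c l i == t then w.getD i 0 else 0
def dif (c : Cx) (T T' g : V) : V := vsub c (u3 c) (pull1P c g T') T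
def trfP (c : Cx) (m : ℕ) (C v : V) : V :=
  tab c (u3 c) fun i =>
    ent c C (rv c (co c (m + 2) i)) (co c (m + 1) i) * v.getD (rv c (co c m i)) 0
def conP (c : Cx) (m : ℕ) (C w : V) : V :=
  tab c (u1 c) fun a => sm (u3 c) fun i => bif co c m i == rv c a then
    w.getD i 0 * ent c C (co c (m + 2) i) (rv c (co c (m + 1) i)) else 0
def auP (c : Cx) (θ u y : V) : V :=
  tab c (u1 c) fun a => sm (u3 c) fun i => bif co c 2 i == rv c a then
    θ.getD i 0 * u.getD (co c 0 i) 0 * y.getD (co c 1 i) 0 else 0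
def cmbP (c : Cx) (L : List V) (k : V) : V :=
  tab c (u2 c) fun i => sm (u1 c) fun a => k.getD a 0 * (L.getD a []).getD i 0
def actP (c : Cx) (uk : U) (b τ : V) : V :=
  tab c (mulU uk (u1 c)) fun i =>
    sm (u1 c) fun k => ent c b (i % mM c) k * τ.getD (i / mM c * mM c + k) 0
def htP (c : Cx) (uk : U) (H D D' : List V) : List V :=
  preAll c (mulU uk (u1 c)) (u2 c)
    (preAll c (mulU uk (u1 c)) (u2 c) H D (fun τ h => actP c uk h τ) D') D'
    (fun τ h => actP c uk (mstar c h) τ) D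

/-! ### sides -/

/-- a form, an algebra, a table of module maps -/
abbrev Sd : Type := V × List V × List (List V)

def cbP (c : Cx) (l : V) (B : List V) (a b : ℕ) : List V :=
  preAll c (u2 c) (u2 c) (preim c (u2 c) (u2 c) (units c (u2 c))
    (fun C => vsub c (u2 c) (mmul c (mmul c (prP c l a) C) (prP c l b)) C) []) B
    (fun x C => vsub c (u2 c) (mmul c C x) (mmul c x C)) []
def csP (c : Cx) (l : V) (B : List V) : List (List V) :=
  (ran (u2 c)).map fun i => cbP c l B (i / mM c) (i % mM c)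
def csg (c : Cx) (s : Sd) (a b : ℕ) : List V := s.2.2.getD (a * mM c + b) []
def trivP (c : Cx) (s : Sd) (a : ℕ) : Bool := !(csg c s a (cz c)).isEmpty
def eoP (c : Cx) (s : Sd) : V := diagP c fun j => !trivP c s j
def z0P (c : Cx) (s : Sd) : V := axpy c (u2 c) (ng c 2) (eoP c s) (oneP c)
def csoP (c : Cx) (s : Sd) (a b : ℕ) : List V := bif trivP c s b then [] else csg c s a b
def clP (c : Cx) (s : Sd) : List V := (ran (u2 c)).flatMap fun i => csg c s (i / mM c) (i % mM c)
def colP (c : Cx) (s : Sd) : List V := (ran (u2 c)).flatMap fun i => csoP c s (i / mM c) (i % mM c)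
def dbP (c : Cx) (l : V) (s : Sd) (a : ℕ) : ℕ := nbP c l a / (csg c s a a).length
def phiP (c : Cx) (l : V) (s : Sd) : ℕ :=
  sm (u1 c) fun a => bif !trivP c s a && (ran (u1 c)).all
    (fun b => Nat.ble (l.getD a 0) (l.getD b 0) || (csg c s a b).isEmpty) then
    2 + (dbP c l s a).bits.length else 0
def bigP (c : Cx) (l : V) (s : Sd) : Bool :=
  (ran (u1 c)).all fun a => trivP c s a || Nat.ble 30 (dbP c l s a)
def isotP (c : Cx) (s : Sd) (x : V) : Bool :=
  (clP c s).all fun C => ipP c (mvec c C x) x % pp c == 0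

/-! ### tests -/

def nnP (c : Cx) (B : List V) (x : V) : List V :=
  preAll c (u2 c) (u2 c) B (preim c (u1 c) (u2 c) B (fun a => mvec c a x) [])
    (fun a b => mmul c a b) []
def cycP (c : Cx) (N : List V) (y : V) : Option V :=
  bif (preim c (u1 c) (u2 c) N (fun r => mvec c (mstar c r) y) []).isEmpty then
    aff c (u2 c) (preim c (u1 c) (() :: u2 c) ([1] :: N.map fun r => 0 :: r)
      (fun r => axpy c (u1 c) (ng c (r.getD 0 0)) y (mvec c (mstar c r.tail) y)) [])
  else none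
def testOf (c : Cx) (s : Sd) (π : V) : Option V :=
  bif meq c (mmul c π π) π && isz c (u2 c) (mmul c π (mstar c π)) &&
    isz c (u2 c) (mmul c (mstar c π) π) && meq c (mmul c π (eoP c s)) π then
    some (axpy c (u2 c) (ng c 2) (mstar c π) (axpy c (u2 c) (ng c 2) π (oneP c))) else none
def testsP (c : Cx) (l : V) (s : Sd) : List V :=
  z0P c s :: ((allV c (u1 c)).filter fun x => (ran (u1 c)).any fun a => inB c l a x).flatMap
    fun x => (allV c (u1 c)).filterMap fun y => (cycP c (nnP c s.2.1 x) y).bind (testOf c s)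

/-! ### the tower -/

def elmP (c : Cx) (a b : ℕ) : V :=
  mtab c fun i j => (bif i == j then 1 else 0) + (bif i == a && j == b then 1 else 0) +
    (bif i == rv c b && j == rv c a then ng c 1 else 0)
def pc0P (c : Cx) (l : V) : List V :=
  (ran (u1 c)).flatMap fun b => (ran (u1 c)).filterMap fun a =>
    bif Nat.blt (cz c) a && Nat.blt (l.getD a 0) (l.getD b 0) then some (elmP c a b) else none
def cds (c : Cx) (l : V) (t : ℕ) : List ℕ :=
  (ran (u3 c)).flatMap fun r =>
    bif Nat.blt r t then (ran (u3 c)).filter (fun i => keyP c l i == r) else []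
def coef (c : Cx) (T T' h g : V) (i : ℕ) : ℕ :=
  ng c ((dif c T T' h).getD i 0 * inv c ((dif c T T g).getD i 0)) % pp c
def piv (c : Cx) (T : V) (L : List V) (i : ℕ) : List V :=
  L.reverse.dropWhile fun h => !nz c (dif c T T h) i
def stepC (c : Cx) (T T' : V) (s : V × List V) (i : ℕ) : V × List V :=
  (piv c T s.2 i).head?.elim s fun g => (mmul c s.1 (pw c g (coef c T T' s.1 g i)),
    (piv c T s.2 i).tail.reverse.map (fun h => mmul c h (pw c g (coef c T T h g i))) ++
      s.2.drop (piv c T s.2 i).length)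
def clim (c : Cx) (l T T' z : V) (t : ℕ) : V × List V :=
  (cds c l t).foldl (stepC c T T') (z, pc0P c l)
def kapP (c : Cx) (l T : V) (t : ℕ) (g : V) : V := cmpP c l t (dif c T T g)
def spP (c : Cx) (l T : V) (t : ℕ) : List V := (clim c l T T (oneP c) t).2.map (kapP c l T t)
def liftP (c : Cx) (l T z : V) (t : ℕ) : V := (clim c l T T z t).1
def okP (c : Cx) (l T : V) (t : ℕ) (g : V) : Bool :=
  (ran (u3 c)).all fun i => Nat.ble t (keyP c l i) || !nz c (dif c T T g) i
def allLiftP (c : Cx) (l : V) (s : Sd) (t : ℕ) : Bool :=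
  (testsP c l s).all fun z => okP c l s.1 t (liftP c l s.1 z t)

/-! ### canonical subspaces -/

def trL (c : Cx) (s : Sd) : List V :=
  (colP c s).flatMap fun C => (units c (u1 c)).flatMap fun v =>
    [trfP c 0 C v, trfP c 1 C v, trfP c 2 C v]
def shP (c : Cx) (l : V) (s : Sd) (t : ℕ) : List V :=
  bif okP c l s.1 t (liftP c l s.1 (z0P c s) t) then
    (1 :: kapP c l s.1 t (liftP c l s.1 (z0P c s) t)) :: (spP c l s.1 t).map fun w => 0 :: w
  else []
def u3K (c : Cx) (s : Sd) : U := mulU [(), (), ()] (unL (colP c s))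
def uK (c : Cx) (s : Sd) : U := () :: () :: u3K c s
def uT (c : Cx) (s : Sd) : U := mulU (uK c s) (u1 c)
def cnP (c : Cx) (s : Sd) (y : V) : V :=
  tab c (uT c s) fun i => bif i / mM c == 0 then (bif i == cz c then y.getD 0 0 else 0) else
    (conP c (i / mM c - 1) ((colP c s).getD ((i / mM c - 1) / 3) []) y.tail).getD (i % mM c) 0
def tnP (c : Cx) (s : Sd) (τ : V) : V :=
  τ.getD (cz c) 0 :: tab c (u3 c) fun i => sm (u3K c s) fun x =>
    (trfP c x ((colP c s).getD (x / 3) []) (τ.drop ((x + 1) * mM c))).getD i 0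
def ambP (c : Cx) (s : Sd) : List V :=
  ((ran (uT c s)).filter fun i => i == cz c ||
    (Nat.ble (mM c) i && Nat.ble (i / mM c) (u3K c s).length)).map (unit c (uT c s))
def d2P (c : Cx) (l : V) (s : Sd) (t : ℕ) : List V := (shP c l s t).map (cnP c s)
def d3P (c : Cx) (l : V) (s : Sd) (t : ℕ) : List V :=
  preim c (() :: u3 c) (uT c s) (ambP c s) (tnP c s) (shP c l s t)

def lamXP (c : Cx) (L : List V) (x : ℕ) (w : V) : V :=
  permP c (x % 6) (pull3 c (L.getD (x / 6 % L.length) []) (L.getD (x / 6 / L.length % L.length) [])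
    (L.getD (x / 6 / L.length / L.length) []) w)
def uN (c : Cx) (s : Sd) : U :=
  mulU (mulU (mulU [(), (), (), (), (), ()] (unL (clP c s))) (unL (clP c s))) (unL (clP c s))
def lamP (c : Cx) (l : V) (s : Sd) (t : ℕ) (cs w : V) : V :=
  cmpP c l t (tab c (u3 c) fun i =>
    sm (uN c s) fun x => cs.getD x 0 * (lamXP c (clP c s) x w).getD i 0)
def annP (c : Cx) (l : V) (s : Sd) (t : ℕ) : List V :=
  preAll c (u3 c) (uN c s) (units c (uN c s)) (spP c l s.1 t) (fun w cs => lamP c l s t cs w)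
    (trL c s)
def annOK (c : Cx) (l : V) (s : Sd) (t : ℕ) (cs : V) : Bool :=
  (spP c l s.1 t).all fun w => mem c (u3 c) (trL c s) (lamP c l s t cs w)
def wtP (c : Cx) (l : V) (t : ℕ) : List V := (units c (u3 c)).map (cmpP c l t)
def rigP (c : Cx) (l : V) (s : Sd) (t : ℕ) : Bool :=
  (preAll c (u3 c) (u3 c) (wtP c l t) (testsP c l s) (fun z θ => dif c θ θ z) (trL c s)).all
    (mem c (u3 c) (trL c s))
def thP (c : Cx) (l : V) (s : Sd) (t : ℕ) (cs : V) : Option V :=
  aff c (u3 c) (preAll c (u3 c) (() :: u3 c) ([1] :: (wtP c l t).map fun w => 0 :: w)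
    (testsP c l s) (fun z y => axpy c (u3 c) (ng c (y.getD 0 0))
      (lamP c l s t cs (kapP c l s.1 t (liftP c l s.1 z t))) (dif c y.tail y.tail z)) (trL c s))

def hatP (c : Cx) (s : Sd) (a θ q y : V) : V :=
  axpy c (u1 c) 1 (axpy c (u1 c) 1 (auP c θ q y)
      (mvec c (cmbP c (csoP c s (rv c (a.getD 2 0)) (a.getD 1 0)) (q.drop (mM c))) y))
    (mvec c (cmbP c (csoP c s (rv c (a.getD 2 0)) (a.getD 0 0)) (y.drop (mM c))) q) ++
  tab c (u1 c) fun i =>
    ipP c (mvec c ((csoP c s (rv c (a.getD 1 0)) (a.getD 0 0)).getD i []) q) y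
def rngP (c : Cx) (s : Sd) (a θ q : V) : List V := (units c (uh c)).map (hatP c s a θ q)
def qsP (c : Cx) (l : V) (s : Sd) (a : V) : List V :=
  (blkP c l (a.getD 0 0)).flatMap fun u =>
    (allV c (unL (csoP c s (rv c (a.getD 2 0)) (a.getD 1 0)))).map fun k => u ++ k
def lowP (c : Cx) (l : V) (s : Sd) (a θ : V) (r : ℕ) : List V :=
  (qsP c l s a).filter fun q => Nat.ble (rk c (uh c) (rngP c s a θ q)) r
def uTT (c : Cx) : U := mulU [(), (), (), (), (), ()] (() :: unL (2 * mM c).bits)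
def popQ (c : Cx) (s : Sd) (a θ : V) (Q : List (List V)) : List V :=
  (allV c (uh c)).filter fun y => Nat.ble Q.length
    (2 * Q.countP fun qs => mem c (uh c) (qs.flatMap (rngP c s a θ)) y)
def popP (c : Cx) (l : V) (s : Sd) (a θ : V) (r : ℕ) : List V :=
  popQ c s a θ (tuples c.2.2 (lowP c l s a θ r) (uTT c))
def domP (c : Cx) (l : V) (b : ℕ) : List V :=
  ((ran (uh c)).filter fun i => Nat.ble (mM c) i || same l i b).map (unit c (uh c))
def d0P (c : Cx) (u : V) : List V := [axpy c (u1 c) 1 u (unit c (u1 c) (cz c))]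
def d4P (c : Cx) (l : V) (s : Sd) (a θ q : V) : List V :=
  (preim c (u1 c) (uh c) (domP c l (a.getD 1 0)) (fun y => (hatP c s a θ q y).drop (mM c)) []).map
    fun y => nv c (u1 c) y ++ nv c (u1 c) (hatP c s a θ q y)
def d5P (c : Cx) (l : V) (s : Sd) (a θ : V) (r : ℕ) : List V :=
  preim c (uh c) (u1 c) (units c (u1 c)) (nv c (u1 c)) (popP c l s a θ r)
def d6P (c : Cx) (l : V) (s : Sd) (a θ : V) (r : ℕ) : List V :=
  (preAll c (uh c) (uh c) (domP c l (a.getD 1 0)) (lowP c l s a θ r)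
    (fun q y => hatP c s a θ q y) (popP c l s a θ r)).map (nv c (u1 c))

/-! ### recipes -/

/-- kind, blocks, permutation, coefficients, pin, rank -/
abbrev Rp : Type := ℕ × V × ℕ × V × V × ℕ

def tP (c : Cx) (l a : V) (k : ℕ) : ℕ :=
  dg3 c (l.getD (a.getD (pmN k 0) 0) 0) (l.getD (a.getD (pmN k 1) 0) 0)
    (l.getD (a.getD (pmN k 2) 0) 0)
def thOf (c : Cx) (l : V) (s : Sd) (ρ : Rp) : V :=
  (thP c l s (tP c l ρ.2.1 ρ.2.2.1) ρ.2.2.2.1).getD []
def dP (c : Cx) (l : V) (s : Sd) (ρ : Rp) (q : V) : List V :=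
  bif Nat.ble ρ.1 1 then d0P c q else
  bif ρ.1 == 2 then d2P c l s (tP c l ρ.2.1 ρ.2.2.1) else
  bif ρ.1 == 3 then d3P c l s (tP c l ρ.2.1 ρ.2.2.1) else
  bif ρ.1 == 4 then d4P c l s ρ.2.1 (permP c ρ.2.2.1 (thOf c l s ρ)) q else
  bif ρ.1 == 5 then d5P c l s ρ.2.1 (permP c ρ.2.2.1 (thOf c l s ρ)) ρ.2.2.2.2.2 else
    d6P c l s ρ.2.1 (permP c ρ.2.2.1 (thOf c l s ρ)) ρ.2.2.2.2.2
def brP (c : Cx) (l : V) (s : Sd) (ρ : Rp) : List V :=
  bif ρ.1 == 0 then blkP c l (ρ.2.1.getD 0 0) else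
  bif ρ.1 == 1 then
    ((blkP c l (ρ.2.1.getD 0 0)).find? fun u => !isz c (u1 c) u && isotP c s u).toList else
  bif ρ.1 == 4 then qsP c l s ρ.2.1 else [[]]
def costP (c : Cx) (l : V) (s : Sd) (ρ : Rp) : ℕ :=
  bif ρ.1 == 0 then nbP c l (ρ.2.1.getD 0 0) else
  bif ρ.1 == 4 then nbP c l (ρ.2.1.getD 0 0) +
    (csoP c s (rv c (ρ.2.1.getD 2 0)) (ρ.2.1.getD 1 0)).length else 0
def validP (c : Cx) (l : V) (s : Sd) (ρ : Rp) : Bool :=
  inB c l (ρ.2.1.getD 0 0) ρ.2.2.2.2.1 && annOK c l s (tP c l ρ.2.1 ρ.2.2.1) ρ.2.2.2.1 &&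
  (ρ.1 != 1 || (!isz c (u1 c) ρ.2.2.2.2.1 && isotP c s ρ.2.2.2.2.1 &&
    !trivP c s (ρ.2.1.getD 0 0) && bigP c l s && allLiftP c l s (u3 c).length)) &&
  (Nat.blt ρ.1 4 || (allLiftP c l s (tP c l ρ.2.1 ρ.2.2.1) && rigP c l s (tP c l ρ.2.1 ρ.2.2.1) &&
    (thP c l s (tP c l ρ.2.1 ρ.2.2.1) ρ.2.2.2.1).isSome))
def recs (c : Cx) (l : V) (s : Sd) : List Rp :=
  [0, 1, 2, 3, 4, 5, 6].flatMap fun kind =>
    ((ran (u3 c)).map fun i => [co c 0 i, co c 1 i, co c 2 i]).flatMap fun a =>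
      [0, 1, 2, 3, 4, 5].flatMap fun k => ([] :: annP c l s (tP c l a k)).flatMap fun cs =>
        (allV c (u1 c)).flatMap fun u => (ran (uh c)).map fun r => (kind, a, k, cs, u, r)

/-! ### the state -/

/-- labels, change of basis, algebra -/
abbrev Lt : Type := V × V × List V
/-- change of basis, space of candidate maps -/
abbrev Rt : Type := V × List V

def sdL (c : Cx) (T0 : V) (x : Lt) : Sd := (pull1P c x.2.1 T0, x.2.2, csP c x.1 x.2.2)
def transP (c : Cx) (H : List V) (C : V) : V :=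
  (aff c (u2 c) (preAll c (u2 c) (() :: u2 c) (units c (() :: u2 c)) H
    (fun h y => axpy c (u2 c) (ng c (y.getD 0 0)) (mmul c h C) (mmul c y.tail h)) [])).getD []
def sdR (c : Cx) (T0' : V) (s : Sd) (y : Rt) : Sd :=
  (pull1P c y.1 T0', basis c (u2 c) (y.2.flatMap fun h => y.2.map fun k => mmul c h (mstar c k)),
    s.2.2.map fun L => L.map (transP c y.2))
def dL (c : Cx) (T0 : V) (x : Lt) (ρ : Rp) : List V :=
  dP c x.1 (sdL c T0 x) ρ (nv c (u1 c) ρ.2.2.2.2.1)
def apL (c : Cx) (T0 : V) (x : Lt) (ρ : Rp) : Lt :=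
  (x.1, x.2.1, htP c (uK c (sdL c T0 x)) x.2.2 (dL c T0 x ρ) (dL c T0 x ρ))
def apR1 (c : Cx) (T0 T0' : V) (x : Lt) (ρ : Rp) (y : Rt) : List Rt :=
  (brP c x.1 (sdR c T0' (sdL c T0 x) y) ρ).map fun q => (y.1, htP c (uK c (sdL c T0 x)) y.2
    (dL c T0 x ρ) (dP c x.1 (sdR c T0' (sdL c T0 x) y) ρ q))
def apR (c : Cx) (T0 T0' : V) (x : Lt) (ρ : Rp) (R : List Rt) : List Rt :=
  (R.flatMap (apR1 c T0 T0' x ρ)).take c.2.2.length

def orbP (c : Cx) (B : List V) (x : V) : List V := basis c (u1 c) (B.map fun b => mvec c b x)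
def findP (c : Cx) (x : Lt) : Option (ℕ × V) :=
  ((ran (u1 c)).flatMap fun a => (blkP c x.1 a).map fun v => (a, v)).find? fun q =>
    Nat.blt (cz c) q.1 && !isz c (u1 c) q.2 && Nat.blt (orbP c x.2.2 q.2).length (nbP c x.1 q.1)
def extP (c : Cx) (l : V) (a : ℕ) (W : List V) : List V :=
  (ran (u1 c)).foldl (fun L j => bif same l j a && !mem c (u1 c) L (unit c (u1 c) j) then
    L ++ [unit c (u1 c) j] else L) W
def g1P (c : Cx) (l : V) (a : ℕ) (E : List V) : V :=
  mtab c fun i j => bif same l j a then (E.getD (j - l.getD a 0) []).getD i 0 else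
    bif i == j then 1 else 0
def mkg (c : Cx) (l : V) (a : ℕ) (W : List V) : V :=
  mmul c (g1P c l a (extP c l a W)) (mstar c (invP c (g1P c l a (extP c l a W))))
def cutP (c : Cx) (l : V) (a m : ℕ) : V :=
  (ran (u1 c)).map fun j => max (l.getD j 0)
    (max (bif Nat.ble (l.getD a 0 + m) j then l.getD a 0 + m else 0)
      (bif Nat.ble (mM c - (l.getD a 0 + m)) j then mM c - (l.getD a 0 + m) else 0)) % (mM c + 1)
def conjP (c : Cx) (l g' g : V) (H : List V) : List V :=
  basis c (u2 c) (H.map fun h => grP c l (mmul c (mmul c (mstar c g') h) g))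
def spLft (c : Cx) (x : Lt) (q : ℕ × V) : Lt :=
  (cutP c x.1 q.1 (orbP c x.2.2 q.2).length, mmul c x.2.1 (mkg c x.1 q.1 (orbP c x.2.2 q.2)),
    conjP c (cutP c x.1 q.1 (orbP c x.2.2 q.2).length) (mkg c x.1 q.1 (orbP c x.2.2 q.2))
      (mkg c x.1 q.1 (orbP c x.2.2 q.2)) x.2.2)
def spRgt (c : Cx) (x : Lt) (q : ℕ × V) (y : Rt) : Rt :=
  (mmul c y.1 (mkg c x.1 q.1 (orbP c y.2 q.2)),
    conjP c (cutP c x.1 q.1 (orbP c x.2.2 q.2).length) (mkg c x.1 q.1 (orbP c y.2 q.2))
      (mkg c x.1 q.1 (orbP c x.2.2 q.2)) y.2)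
def split (c : Cx) (z : Lt × List Rt) : Lt × List Rt :=
  (findP c z.1).elim z fun q => (spLft c z.1 q, z.2.map (spRgt c z.1 q))
def refine (c : Cx) (z : Lt × List Rt) : Lt × List Rt := (u1 c).foldl (fun z _ => split c z) z
def stepOf (c : Cx) (T0 T0' : V) (z : Lt × List Rt) (ρ : Rp) : Lt × List Rt :=
  refine c (apL c T0 z.1 ρ, apR c T0 T0' z.1 ρ z.2)
def phiL (c : Cx) (T0 : V) (x : Lt) : ℕ := phiP c x.1 (sdL c T0 x)
def gainP (c : Cx) (T0 : V) (x : Lt) (ρ : Rp) : Bool :=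
  validP c x.1 (sdL c T0 x) ρ &&
    Nat.blt (phiL c T0 (refine c (apL c T0 x ρ, [])).1) (phiL c T0 x) &&
    Nat.ble (costP c x.1 (sdL c T0 x) ρ)
      (16 * (uTT c).length * (phiL c T0 x - phiL c T0 (refine c (apL c T0 x ρ, [])).1))
def mainStep (c : Cx) (T0 T0' : V) (z : Lt × List Rt) : Lt × List Rt :=
  ((recs c z.1.1 (sdL c T0 z.1)).find? (gainP c T0 z.1)).elim z (stepOf c T0 T0' z)
def l0P (c : Cx) : V :=
  (ran (u1 c)).map fun j => bif Nat.blt j (cz c) then 0 else bif j == cz c then cz c else cz c + 1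
def b0P (c : Cx) : List V := basis c (u2 c) ((units c (u2 c)).map (grP c (l0P c)))
def run (c : Cx) (T0 T0' : V) : Lt × List Rt :=
  (mulU (u1 c) (() :: () :: u1 c)).foldl (fun z _ => mainStep c T0 T0' z)
    ((l0P c, oneP c, b0P c), [(oneP c, b0P c)])
def chkP (c : Cx) (T0 T0' ψ : V) : Bool :=
  meq c (grP c (l0P c) ψ) ψ && meq c (mmul c (mstar c ψ) ψ) (oneP c) &&
    ent c ψ (cz c) (cz c) % pp c == 1 && isz c (u3 c) (dif c T0 T0' ψ)
def finP (c : Cx) (T0 T0' : V) (x : Lt) (y : Rt) : Bool :=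
  chkP c T0 T0' (mmul c (mmul c y.1 (clim c x.1 (pull1P c x.2.1 T0) (pull1P c y.1 T0')
    ((aff c (u2 c) (y.2.map fun h => ent c h (cz c) (cz c) :: h)).getD []) (u3 c).length).1)
    (mstar c x.2.1))
def engine (c : Cx) (T0 T0' : V) : Bool := (run c T0 T0').2.any (finP c T0 T0' (run c T0 T0').1)

/-! ### multiplication tables -/

/-- the list of elements, the input, the offset of the table -/
abbrev Tb : Type := List ℕ × List Bool × ℕ

def tmul (G : Tb) (a b : ℕ) : ℕ :=
  (G.1.find? fun d => G.2.1.getD (G.2.2 + ((a * G.1.length + b) * G.1.length + d)) false).getD 0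
def tone (G : Tb) : ℕ := (G.1.find? fun a => tmul G a a == a).getD 0
def tinv (G : Tb) (a : ℕ) : ℕ := (G.1.find? fun b => tmul G a b == tone G).getD 0
def tcom (G : Tb) (a b : ℕ) : ℕ := tmul G (tmul G (tmul G a b) (tinv G a)) (tinv G b)
def tpow (G : Tb) (d : List ℕ) (a k : ℕ) : ℕ :=
  d.foldl (fun x i => bif Nat.blt i k then tmul G x a else x) (tone G)
def tbs (G : Tb) (d : List ℕ) (a b : ℕ) : ℕ :=
  tmul G (tmul G a b) (tpow G d (tcom G b a) ((d.length + 1) / 2))
def coord1 (G : Tb) (d : List ℕ) (s : List ℕ × List (ℕ × V)) (x : ℕ) : List ℕ × List (ℕ × V) :=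
  bif s.2.any fun y => y.1 == x then s else (s.1 ++ [x],
    (d.flatMap fun k => s.2.map fun y => (tbs G d (tpow G d x k) y.1, y.2 ++ [k])).take G.1.length)
def coords (G : Tb) (d : List ℕ) : List ℕ × List (ℕ × V) :=
  G.1.foldl (coord1 G d) ([], [(tone G, [])])
def tensQ (c : Cx) (G : Tb) (s : List ℕ × List (ℕ × V)) : V :=
  tab c (u3 c) fun i =>
    bif Nat.blt (cz c) (co c 0 i) && Nat.blt (cz c) (co c 1 i) && Nat.blt (co c 2 i) (cz c) then
      (((s.2.find? fun y => y.1 == tcom G (s.1.getD (co c 0 i - cz c - 1) 0)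
        (s.1.getD (co c 1 i - cz c - 1) 0)).map fun y => y.2).getD []).getD (cz c - 1 - co c 2 i) 0
    else 0
def tensP (c : Cx) (G : Tb) : V := tensQ c G (coords G (digs c))
def upOf (R : List ℕ) : U :=
  unL (R.take ((R.find? fun d => Nat.ble 2 d && R.length % d == 0).getD R.length - 1))
def cxOf (pad : U) (G : Tb) : Cx :=
  (upOf G.1, unL (coords G (ran (() :: upOf G.1))).1 ++
    () :: unL (coords G (ran (() :: upOf G.1))).1, pad)
def mainP (pad : U) (G G' : Tb) : Bool :=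
  G.1.length == 1 || engine (cxOf pad G) (tensP (cxOf pad G) G) (tensP (cxOf pad G) G')

end Pool.Agent.P.MP_f1a348_lc.PG
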