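import Pool.Agent.P.MP_f1a348_lc.PG.QSide

/-!
Project PG: the side attached to a right state.
-/

namespace Pool.Agent.P.MP_f1a348_lc.PG

open Matrix Module

variable {p n : ℕ} [Fact p.Prime] {c : Cx} {l : V} {s : Sd}

namespace QSdx

/-- the linear condition that defines the transport -/
noncomputable def trF (C x : Mat p n) : (ZMod p × Mat p n) →ₗ[ZMod p] Mat p n where
  toFun y := y.2 * x - y.1 • (x * C)
  map_add' y z := by
    simp only [Prod.snd_add, Prod.fst_add, add_mul, add_smul]; abel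
  map_smul' a y := by
    simp only [Prod.smul_snd, Prod.smul_fst, smul_mul_assoc, smul_eq_mul, mul_smul, smul_sub,
      RingHom.id_apply]

theorem trF_apply (C x : Mat p n) (y : ZMod p × Mat p n) :
    trF C x y = y.2 * x - y.1 • (x * C) := rfl

theorem all_sp {H : List V} (C Y : Mat p n) (h : ∀ t ∈ H, Y * mV p n t = mV p n t * C) :
    ∀ x ∈ sp (mat p n) H, Y * x = x * C := fun x hx => by
  have h1 : sp (mat p n) H ≤ LinearMap.ker (lm Y - LinearMap.mulRight (ZMod p) C) :=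
    sp_le.2 fun t ht => sub_eq_zero.2 (h t ht)
  exact sub_eq_zero.1 (h1 hx)

theorem mul_st_mem {H : List V} {W : Sub p n}
    (h : ∀ a ∈ H, ∀ b ∈ H, mV p n a * st (mV p n b) ∈ W) :
    ∀ a ∈ sp (mat p n) H, ∀ b ∈ sp (mat p n) H, a * st b ∈ W := fun a ha b hb => by
  have h1 : ∀ b ∈ H, a * st (mV p n b) ∈ W := fun b hb =>
    (sp_le (W := W.comap (LinearMap.mulRight (ZMod p) (st (mV p n b))))).2
      (fun a ha => h a ha b hb) ha
  exact (sp_le (W := W.comap (lm a ∘ₗ stL))).2 h1 hb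

theorem getD_map {α : Type} (g : α → α) (L : List (List α)) (i : ℕ) :
    (L.map fun x => x.map g).getD i [] = (L.getD i []).map g := by
  rw [List.getD_eq_getElem?_getD, List.getD_eq_getElem?_getD, List.getElem?_map]
  cases L[i]? <;> rfl

theorem csg_sdR (c : Cx) (T0' : V) (s : Sd) (y : Rt) (a b : ℕ) :
    csg c (sdR c T0' s y) a b = (csg c s a b).map (transP c y.2) := getD_map _ _ _

theorem csoP_sdR (c : Cx) (T0' : V) (s : Sd) (y : Rt) (a b : ℕ) :
    csoP c (sdR c T0' s y) a b = (csoP c s a b).map (transP c y.2) := by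
  rw [csoP, csoP, trivP, trivP, csg_sdR, csg_sdR, List.isEmpty_map]
  cases !(csg c s b (cz c)).isEmpty <;> rfl

theorem colP_sdR (c : Cx) (T0' : V) (s : Sd) (y : Rt) :
    colP c (sdR c T0' s y) = (colP c s).map (transP c y.2) := by
  simp only [colP, csoP_sdR, List.map_flatMap]

end QSdx

protected theorem Ok.transP (h : Ok p n c) {f : Mat p n} (hf : Un f) {B : Sub p n}
    (hB : (1 : Mat p n) ∈ B) {H : List V} (hH : sp (mat p n) H = B.map (lm f)) {C : V}
    (hC : mV p n C ∈ Com B) : mV p n (transP c H C) = cj f (mV p n C) := by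
  have key := fun y => mem_preAll (ts := H)
    (f := fun h y => axpy c (u2 c) (ng c (y.getD 0 0)) (mmul c h C) (mmul c y.tail h))
    h.hp h.d2 h.d2.pl' (units c (() :: u2 c)) (fun t => QSdx.trF (mV p n C) (mV p n t))
    (fun t _ x => by
      have h1 : dv (mat p n) (mmul c t C) = _ := h.mmul t C
      have h2 : dv (mat p n) (mmul c x.tail t) = _ := h.mmul x.tail t
      rw [dv_axpy h.hp h.d2, cast_ng h.hp, dv_pl, h1, h2, QSdx.trF_apply, neg_smul,
        neg_add_eq_sub]) [] y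
  have h1 := (key ((1 : ZMod p), cj f (mV p n C))).2 ⟨by
    rw [sp_units_top h.hp h.d2.pl' (pl_surj mat_surj)]; trivial, fun t ht => by
    have h2 : mV p n t ∈ B.map (lm f) := hH ▸ mem_sp ht
    obtain ⟨b, hb, e⟩ := h2
    rw [QSdx.trF_apply, one_smul, ← e, lm_apply, cj_apply, mul_assoc, ← mul_assoc (st f),
      hf.st_mul, one_mul, mul_assoc, hC b hb, mul_assoc, sub_self]
    exact zero_mem _⟩
  have h2 := QSdx.all_sp (H := H) (mV p n C) (mV p n (transP c H C)) (fun t ht => by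
    have h3 := ((key _).1 (aff_getD h.hp h.d2 h1)).2 t ht
    rwa [sp_nil, Submodule.mem_bot, QSdx.trF_apply, one_smul, sub_eq_zero] at h3) f
    (hH ▸ ⟨1, hB, mul_one f⟩)
  rw [cj_apply, ← h2, mul_assoc, hf.mul_st, mul_one]

protected theorem Ok.sdR (h : Ok p n c) (hs : Gd p n l s) (T0' : V) {y : Rt} {φ : Mat p n}
    (h1 : Par (lab n l) φ) (h2 : pull1 φ (pull1 (mV p n y.1) (fV p n T0')) = (sdD p n s).T)
    (h3 : sp (mat p n) y.2 = (sdD p n s).B.map (lm (gr (lab n l) φ))) :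
    Nt (lab n l) φ (sdD p n s) (sdD p n (sdR c T0' s y)) := by
  have hf : Un (gr (lab n l) φ) := (h1.gr hs.str.lab).2.1
  have hA := hs.str.alg
  refine ⟨h1, ?_, ?_, fun a b => ?_⟩
  · have e : (sdD p n (sdR c T0' s y)).T = pull1 (mV p n y.1) (fV p n T0') := h.pull1P _ _
    rw [e, h2]
  · have hm : ∀ a b : V, dv (mat p n) (mmul c a (mstar c b)) = mV p n a * st (mV p n b) :=
      fun a b => by rw [← h.mstar]; exact h.mmul _ _
    refine (basis_bas h.hp h.d2 _).sp.trans (le_antisymm (sp_le.2 fun x hx => ?_) ?_)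
    · obtain ⟨a, ha, hx⟩ := List.mem_flatMap.1 hx
      obtain ⟨b, hb, rfl⟩ := List.mem_map.1 hx
      obtain ⟨a', ha', e1⟩ : mV p n a ∈ (sdD p n s).B.map (lm _) := h3 ▸ mem_sp ha
      obtain ⟨b', hb', e2⟩ : mV p n b ∈ (sdD p n s).B.map (lm _) := h3 ▸ mem_sp hb
      refine ⟨a' * st b', hA.mul _ ha' _ (hA.star _ hb'), ?_⟩
      rw [hm, ← e1, ← e2, lm_apply, lm_apply, st_mul, cj_apply]
      simp only [mul_assoc]
    · rintro _ ⟨b, hb, rfl⟩
      have := QSdx.mul_st_mem (H := y.2)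
        (W := sp (mat p n) (y.2.flatMap fun h => y.2.map fun k => mmul c h (mstar c k)))
        (fun a ha b hb => hm a b ▸ mem_sp (List.mem_flatMap.2 ⟨a, ha, List.mem_map_of_mem hb⟩))
        (gr (lab n l) φ * b) (h3 ▸ ⟨b, hb, rfl⟩) (gr (lab n l) φ) (h3 ▸ ⟨1, hA.one, mul_one _⟩)
      exact this
  · rw [← h.csg, ← h.csg, QSdx.csg_sdR, List.map_map, List.map_map]
    refine List.map_congr_left fun C hC => h.transP hf hA.one h3 ?_
    exact (hs.mem_cb (a := a) (b := b) (h.csg s a b ▸ List.mem_map_of_mem hC)).1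

theorem costP_sdR (c : Cx) (l T0' : V) (s : Sd) (y : Rt) (ρ : Rp) :
    costP c l (sdR c T0' s y) ρ = costP c l s ρ := by
  rw [costP, costP, QSdx.csoP_sdR, List.length_map]

theorem uK_sdR (c : Cx) (T0' : V) (s : Sd) (y : Rt) : uK c (sdR c T0' s y) = uK c s := by
  rw [uK, uK, u3K, u3K, QSdx.colP_sdR, unL, unL, List.map_map]

end Pool.Agent.P.MP_f1a348_lc.PG
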