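import Pool.Agent.P.MP_f1a348_lc.PG.QRec
import Pool.Agent.P.MP_f1a348_lc.PG.QSd

/-!
Project PG: the application of a recipe.
-/

namespace Pool.Agent.P.MP_f1a348_lc.PG

open Matrix Module

variable {p n : ℕ} [Fact p.Prime] {c : Cx}

namespace QApx

theorem sp_dL (h : Ok p n c) (m : Mth p n) (T0 : V) {x : Lt}
    (hx : Str (lab n x.1) (alL p n x)) {a : Fin 3 → Ix n} {ρ : Rp} (ha : ρ.2.1 = tr3 a) :
    sp (tup p n (uK c (sdL c T0 x)).length) (dL c T0 x ρ) =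
      Dd (lab n x.1) (sdD p n (sdL c T0 x)) (rcD p a ρ) (fV p n (thOf c x.1 (sdL c T0 x) ρ))
        ((rcD p a ρ).u, 0) := by
  rw [dL, h.dP m (h.good T0 hx) ha, hV_short ((length_nv ..).trans h.len1), vV, dv_nv h.hp h.d1]
  rfl

end QApx

protected theorem Ok.apL (h : Ok p n c) (m : Mth p n) (T0 : V) {x : Lt}
    (hx : Str (lab n x.1) (alL p n x)) {a : Fin 3 → Ix n} {ρ : Rp} (ha : ρ.2.1 = tr3 a) :
    alL p n (apL c T0 x ρ) = Ht (alL p n x)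
      (Dd (lab n x.1) (sdD p n (sdL c T0 x)) (rcD p a ρ) (fV p n (thOf c x.1 (sdL c T0 x) ρ))
        ((rcD p a ρ).u, 0))
      (Dd (lab n x.1) (sdD p n (sdL c T0 x)) (rcD p a ρ) (fV p n (thOf c x.1 (sdL c T0 x) ρ))
        ((rcD p a ρ).u, 0)) := by
  rw [← QApx.sp_dL h m T0 hx ha]
  exact h.htP _ _ _ _

theorem length_apR (c : Cx) (T0 T0' : V) (x : Lt) (ρ : Rp) (R : List Rt) :
    (R.flatMap (apR1 c T0 T0' x ρ)).length ≤ R.length * pp c ^ costP c x.1 (sdL c T0 x) ρ := by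
  induction R with
  | nil => simp
  | cons y R ih =>
    rw [List.flatMap_cons, List.length_append, List.length_cons, Nat.succ_mul, Nat.add_comm]
    refine Nat.add_le_add ih ?_
    rw [apR1, List.length_map, ← costP_sdR c x.1 T0' _ y]
    exact length_brP ..

protected theorem Ok.apR1 (h : Ok p n c) (m : Mth p n) (T0 T0' : V) {x : Lt}
    (hx : Str (lab n x.1) (alL p n x)) {a : Fin 3 → Ix n} {ρ : Rp} (ha : ρ.2.1 = tr3 a)
    (hv : Valid (lab n x.1) (sdD p n (sdL c T0 x)) (rcD p a ρ)) {y : Rt}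
    (hy : Inv p n T0 T0' x y) :
    ∃ y' ∈ apR1 c T0 T0' x ρ y, Inv p n T0 T0' (apL c T0 x ρ) y' := by
  obtain ⟨hy1, φ, h1, h2, h3⟩ := hy
  have hs := h.good T0 hx
  have hN := h.sdR hs T0' h1 (h2.trans (h.sdL_T T0 x).symm) h3
  have hs' := hN.good hs
  have hn := m.nat2 _ _ _ _ ((rcD p a ρ).t (lab n x.1)) (rcD p a ρ).c hs hN
  have t1 := h.thOf m hs ha hv.ann fun e => ⟨(hv.rig e).1, (hv.rig e).2.2⟩
  have t2 := h.thOf m hs' ha (hn.1 hv.ann) fun e =>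
    ⟨hn.2.2.1 (hv.rig e).1, (hv.rig e).2.2.elim fun θ hθ => ⟨_, hn.2.1 θ hθ⟩⟩
  obtain ⟨φ', _, ⟨q, hq, rfl⟩, hN', e1, e2⟩ :=
    m.natur _ _ _ _ _ _ _ _ hs hN hv (h.brP hs' ha) t1 t2
  refine ⟨_, List.mem_map_of_mem hq, hy1, φ', hN'.par, ?_, ?_⟩
  · exact (congrArg (pull1 φ') (h.pull1P _ _)).symm.trans (hN'.T.trans (h.sdL_T T0 x))
  · have e3 := h.dP m hs' ha q
    rw [uK_sdR] at e3
    rw [h.apL m T0 hx ha]
    refine (h.htP _ _ _ _).trans ?_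
    rw [QApx.sp_dL h m T0 hx ha, e3, e2, h3]
    exact (congrArg (fun B => Ht B _ _) e1.symm).trans (Ht_map (hN'.lev hx.lab).un _ _)

end Pool.Agent.P.MP_f1a348_lc.PG
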