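import Pool.Agent.P.MP_f1a348_lc.PG.QDefs

/-!
Project PG: climbing the unipotent tower.
-/

namespace Pool.Agent.P.MP_f1a348_lc.PG

open Matrix Module

variable {p n : ℕ} [Fact p.Prime] {c : Cx} {l : V} {s : Sd}

namespace QClimx

/-- the invariant of the climb -/
def J (p n : ℕ) (l T T' z : V) (t : ℕ) (I : Set (Fin 3 → Ix n)) (s : V × List V) : Prop :=
  PC (s.2.map (mV p n)) {u | LfI (lab n l) (fV p n T) (fV p n T) I 1 u} ∧
  (Par (lab n l) (mV p n z) → Dg (lab n l) (mV p n z) →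
    Par (lab n l) (mV p n s.1) ∧ gr (lab n l) (mV p n s.1) = mV p n z) ∧
  ∀ g, Lf (lab n l) (fV p n T) (fV p n T') t (mV p n z) g →
    LfI (lab n l) (fV p n T) (fV p n T') I (mV p n z) (mV p n s.1)

theorem lfI_insert {ℓ : Ix n → ℕ} {T T' : Frm p n} {I : Set (Fin 3 → Ix n)} {k : Fin 3 → Ix n}
    {z g : Mat p n} : LfI ℓ T T' (insert k I) z g ↔
      LfI ℓ T T' I z g ∧ pull1 g T' k - T k = 0 := by
  simp only [LfI, Set.forall_mem_insert, sub_eq_zero]
  tauto

theorem tv_dif (h : Ok p n c) (T T' g : V) (k : Fin 3 → Ix n) :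
    tv p (dif c T T' g) (enc3 k) = pull1 (mV p n g) (fV p n T') k - fV p n T k :=
  congrFun (h.dif T T' g) k

theorem coef_eq (h : Ok p n c) (T T' x g : V) (k : Fin 3 → Ix n) :
    coef c T T' x g (enc3 k) = (-((pull1 (mV p n x) (fV p n T') k - fV p n T k) *
      (pull1 (mV p n g) (fV p n T) k - fV p n T k)⁻¹)).val := by
  rw [← tv_dif h, ← tv_dif h, tv_apply, tv_apply, ← cast_inv h.hp, ← Nat.cast_mul, ← cast_ng h.hp,
    ZMod.val_natCast, coef, h.hp]

theorem pow_spec {H : Set (Mat p n)} (hH : Grp H) {ψ : Mat p n → ZMod p}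
    (hψ : ∀ a ∈ H, ∀ b ∈ H, ψ (a * b) = ψ a + ψ b) {g : Mat p n} (hg : g ∈ H) (j : ℕ) :
    g ^ j ∈ H ∧ ψ (g ^ j) = j * ψ g := by
  induction j with
  | zero =>
    have := hψ 1 hH.one 1 hH.one
    rw [mul_one] at this
    rw [pow_zero, Nat.cast_zero, zero_mul]
    exact ⟨hH.one, by linear_combination -this⟩
  | succ j ih =>
    rw [pow_succ, hψ _ ih.1 _ hg, ih.2, Nat.cast_succ]
    exact ⟨hH.mul _ ih.1 _ hg, by ring⟩

theorem step (h : Ok p n c) (m : Mth p n) (hl : Lab (lab n l)) {T T' z : V} {t : ℕ}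
    {I : Set (Fin 3 → Ix n)} {k : Fin 3 → Ix n} (hk : key (lab n l) k < t)
    (h1 : ∀ k', key (lab n l) k' < key (lab n l) k → k' ∈ I)
    (h2 : ∀ k' ∈ I, key (lab n l) k' ≤ key (lab n l) k) {s : V × List V}
    (hs : J p n l T T' z t I s) : J p n l T T' z t (insert k I) (stepC c T T' s (enc3 k)) := by
  obtain ⟨s1, s2, s3⟩ := hs
  obtain ⟨hG, hA, -⟩ := m.cst (lab n l) (fV p n T) (fV p n T) I k hl h1 h2
  obtain ⟨-, hB, hC⟩ := m.cst (lab n l) (fV p n T) (fV p n T') I k hl h1 h2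
  set H := {u | LfI (lab n l) (fV p n T) (fV p n T) I 1 u} with hH
  set ψ : Mat p n → ZMod p := fun u => pull1 u (fV p n T) k - fV p n T k with hψ
  have hadd : ∀ a ∈ H, ∀ b ∈ H, ψ (a * b) = ψ a + ψ b := fun a ha b hb => (hA 1 a b ha hb).2
  have hset : {u | LfI (lab n l) (fV p n T) (fV p n T) (insert k I) 1 u} =
      {u | u ∈ H ∧ ψ u = 0} := Set.ext fun u => lfI_insert
  have hz : ∀ x : V, (!nz c (dif c T T x) (enc3 k)) = true ↔ ψ (mV p n x) = 0 := fun x => by
    rw [Bool.not_eq_true', nz_false h.hp, tv_dif h]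
  have hsp := List.takeWhile_append_dropWhile (p := fun x => !nz c (dif c T T x) (enc3 k))
    (l := s.2.reverse)
  have htk : ∀ x ∈ s.2.reverse.takeWhile fun x => !nz c (dif c T T x) (enc3 k),
      ψ (mV p n x) = 0 := fun x hx =>
    (hz x).1 (List.mem_takeWhile_imp (p := fun x => !nz c (dif c T T x) (enc3 k)) hx)
  cases e : piv c T s.2 (enc3 k) with
  | nil =>
    have e1 : stepC c T T' s (enc3 k) = s := by rw [stepC, e]; rfl
    rw [piv] at e
    rw [e, List.append_nil] at hsp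
    rw [hsp] at htk
    have h0 : ∀ u ∈ H, ψ u = 0 := fun u hu => by
      have h3 := (m.pcs _ H hG s1).2 (fun u _ => ψ u)
        (fun a ha b hb => funext fun _ => hadd a ha b hb) u hu
      have h4 : (spL ((s.2.map (mV p n)).map fun u _ => ψ u) :
          Submodule (ZMod p) (Frm p n)) ≤ ⊥ := spL_le.2 fun w hw => by
        obtain ⟨_, hy, rfl⟩ := List.mem_map.1 hw
        obtain ⟨x, hx, rfl⟩ := List.mem_map.1 hy
        exact funext fun _ => htk x (List.mem_reverse.2 hx)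
      exact congrFun (h4 h3) k
    rw [e1]
    refine ⟨?_, s2, fun g hg => lfI_insert.2 ⟨s3 g hg, ?_⟩⟩
    · rw [hset, show {u | u ∈ H ∧ ψ u = 0} = H from Set.ext fun u => and_iff_left_of_imp (h0 u)]
      exact s1
    · have h3 : LfI (lab n l) (fV p n T) (fV p n T') I (mV p n z) g :=
        ⟨hg.1, hg.2.1, fun i hi => sub_eq_zero.1 (hg.2.2 i ((h2 i hi).trans_lt hk))⟩
      have h4 := hC _ _ _ (s3 g hg) h3
      have h5 := (hB _ _ _ (s3 g hg) h4).2
      have h6 : pull1 g (fV p n T') k - fV p n T k = 0 := hg.2.2 k hk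
      have h7 := h0 _ h4
      rw [← mul_assoc, Un.mul_st (s3 g hg).1.2.1, one_mul, h6] at h5
      simp only [hψ] at h7
      rw [h7, add_zero] at h5
      exact h5.symm
  | cons g tl =>
    have e1 : stepC c T T' s (enc3 k) = (mmul c s.1 (pw c g (coef c T T' s.1 g (enc3 k))),
        tl.reverse.map (fun x => mmul c x (pw c g (coef c T T x g (enc3 k)))) ++
          s.2.drop (tl.length + 1)) := by rw [stepC, e]; rfl
    rw [piv] at e
    have hg0 : ψ (mV p n g) ≠ 0 := fun e0 => by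
      have h3 := List.head?_dropWhile_not (fun x => !nz c (dif c T T x) (enc3 k)) s.2.reverse
      rw [e] at h3
      exact Bool.false_ne_true (h3.symm.trans ((hz g).2 e0))
    rw [e] at hsp
    generalize s.2.reverse.takeWhile (fun x => !nz c (dif c T T x) (enc3 k)) = tk at hsp htk
    have e2 : s.2 = tl.reverse ++ g :: tk.reverse := by
      rw [← List.reverse_reverse s.2, ← hsp]; simp
    have e3 : s.2.drop (tl.length + 1) = tk.reverse := by
      rw [e2, ← List.length_reverse, List.drop_length_add_append]; rfl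
    have hgH : mV p n g ∈ H := (m.pcs _ H hG s1).1 _ (List.mem_map_of_mem (by rw [e2]; simp))
    have hpw : ∀ T' x, mV p n (mmul c x (pw c g (coef c T T' x g (enc3 k)))) = mV p n x *
        mV p n g ^ (-((pull1 (mV p n x) (fV p n T') k - fV p n T k) * (ψ (mV p n g))⁻¹)).val :=
      fun T' x => by
        rw [h.mmul, coef_eq h, h.pw _ (ZMod.val_lt _).le]
    have hcan : ∀ a : ZMod p, a + ((-(a * (ψ (mV p n g))⁻¹)).val : ZMod p) * ψ (mV p n g) = 0 :=
      fun a => by rw [ZMod.natCast_zmod_val, neg_mul, mul_assoc, inv_mul_cancel₀ hg0]; ring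
    rw [e1, e3]
    refine ⟨?_, fun z1 z2 => ?_, fun g' hg' => ?_⟩
    · rw [e2, List.map_append, List.map_cons] at s1
      have h3 := m.pck _ _ _ H ψ (fun u => (-(ψ u * (ψ (mV p n g))⁻¹)).val) hG s1 hadd hg0
        (fun u hu => by
          obtain ⟨x, hx, rfl⟩ := List.mem_map.1 hu
          exact htk x (List.mem_reverse.1 hx)) fun u _ => hcan _
      rw [hset, List.map_append, List.map_map]
      rw [List.map_map] at h3
      exact (List.map_congr_left fun x _ => hpw T x) ▸ h3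
    · obtain ⟨h3, h4⟩ := s2 z1 z2
      have h5 := (pow_spec hG hadd hgH (-((pull1 (mV p n s.1) (fV p n T') k - fV p n T k) *
        (ψ (mV p n g))⁻¹)).val).1
      show Par _ (mV p n (mmul _ _ _)) ∧ gr _ (mV p n (mmul _ _ _)) = _
      rw [hpw, gr_mul h3.1 h5.1.1, h4, h5.2.1, mul_one]
      exact ⟨h3.mul h5.1, rfl⟩
    · obtain ⟨h5, h6⟩ := pow_spec hG hadd hgH (-((pull1 (mV p n s.1) (fV p n T') k - fV p n T k) *
        (ψ (mV p n g))⁻¹)).val
      obtain ⟨h7, h8⟩ := hB _ _ _ (s3 g' hg') h5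
      show LfI _ _ _ _ _ (mV p n (mmul _ _ _))
      rw [hpw]
      refine lfI_insert.2 ⟨h7, h8.trans ?_⟩
      exact (congrArg _ h6).trans (hcan _)

theorem fold (h : Ok p n c) (m : Mth p n) (hl : Lab (lab n l)) {T T' z : V} {t : ℕ}
    (cs : List ℕ) (hp : cs.Pairwise fun i j => keyP c l i ≤ keyP c l j)
    (hlt : ∀ i ∈ cs, i < top n ∧ keyP c l i < t) {I : Set (Fin 3 → Ix n)}
    (h1 : ∀ i ∈ cs, ∀ k', key (lab n l) k' < keyP c l i → k' ∈ I ∨ enc3 k' ∈ cs)
    (h2 : ∀ i ∈ cs, ∀ k' ∈ I, key (lab n l) k' ≤ keyP c l i) {s : V × List V}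
    (hs : J p n l T T' z t I s) :
    J p n l T T' z t (I ∪ {k | enc3 k ∈ cs}) (cs.foldl (stepC c T T') s) := by
  induction cs generalizing I s with
  | nil => simpa using hs
  | cons i cs ih =>
    obtain ⟨k, rfl⟩ := exists_enc3 (hlt i List.mem_cons_self).1
    rw [List.pairwise_cons, h.keyP] at hp
    have e : I ∪ {k' | enc3 k' ∈ enc3 k :: cs} = insert k I ∪ {k' | enc3 k' ∈ cs} := by
      ext k'
      simp only [Set.mem_union, Set.mem_ofPred_eq, List.mem_cons, Set.mem_insert_iff,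
        enc3_inj.eq_iff]
      tauto
    rw [e, List.foldl_cons]
    refine ih hp.2 (fun j hj => hlt j (List.mem_cons_of_mem _ hj)) (fun j hj k' hk' => ?_)
      (fun j hj k' hk' => ?_) (step h m hl (h.keyP l k ▸ (hlt _ List.mem_cons_self).2)
        (fun k' hk' => ?_) (fun k' hk' => h.keyP l k ▸ h2 _ List.mem_cons_self k' hk') hs)
    · rcases h1 j (List.mem_cons_of_mem _ hj) k' hk' with h3 | h3
      · exact Or.inl (Set.mem_insert_of_mem _ h3)
      · rcases List.mem_cons.1 h3 with h4 | h4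
        · exact Or.inl (enc3_inj h4 ▸ Set.mem_insert _ _)
        · exact Or.inr h4
    · rcases hk' with rfl | h3
      · exact hp.1 j hj
      · exact h2 j (List.mem_cons_of_mem _ hj) k' h3
    · rcases h1 _ List.mem_cons_self k' (by rwa [h.keyP]) with h3 | h3
      · exact h3
      · rcases List.mem_cons.1 h3 with h4 | h4
        · exact absurd (enc3_inj h4 ▸ hk') (lt_irrefl _)
        · have := hp.1 _ h4
          rw [h.keyP] at this
          omega

omit [Fact p.Prime] in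
theorem mem_row (h : Ok p n c) {t r i : ℕ} :
    i ∈ (bif Nat.blt r t then (ran (u3 c)).filter (fun i => keyP c l i == r) else []) ↔
      r < t ∧ i < top n ∧ keyP c l i = r := by
  cases e : Nat.blt r t with
  | false =>
    have : ¬ r < t := by rw [← Nat.blt_eq, e]; exact Bool.false_ne_true
    simp [this]
  | true => simp [Nat.blt_eq.mp e, mem_ran, h.len3]

theorem mem_cds (h : Ok p n c) (hl : Lab (lab n l)) {t i : ℕ} :
    i ∈ cds c l t ↔ i < top n ∧ keyP c l i < t := by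
  simp only [cds, List.mem_flatMap, mem_row h, mem_ran, h.len3]
  refine ⟨fun ⟨r, _, h1, h2, h3⟩ => ⟨h2, h3 ▸ h1⟩, fun ⟨h1, h2⟩ => ⟨_, ?_, h2, h1, rfl⟩⟩
  obtain ⟨k, rfl⟩ := exists_enc3 h1
  rw [h.keyP]
  exact key_lt_top hl k

omit [Fact p.Prime] in
theorem sorted_cds (h : Ok p n c) (t : ℕ) :
    (cds c l t).Pairwise fun i j => keyP c l i ≤ keyP c l j := by
  rw [cds, List.pairwise_flatMap]
  refine ⟨fun r _ => List.pairwise_of_forall_mem_list fun i hi j hj => ?_, ?_⟩
  · rw [((mem_row h).1 hi).2.2, ((mem_row h).1 hj).2.2]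
  · rw [ran_eq (u3 c)]
    refine List.pairwise_lt_range.imp fun {r r'} hr i hi j hj => ?_
    rw [← ran_eq] at hi hj
    rw [((mem_row h).1 hi).2.2, ((mem_row h).1 hj).2.2]
    exact hr.le

end QClimx

protected theorem Ok.clim (h : Ok p n c) (m : Mth p n) (hl : Lab (lab n l)) (T T' z : V) (t : ℕ) :
    PC ((clim c l T T' z t).2.map (mV p n)) {u | Lf (lab n l) (fV p n T) (fV p n T) t 1 u} ∧
    (Par (lab n l) (mV p n z) → Dg (lab n l) (mV p n z) →
      Par (lab n l) (mV p n (clim c l T T' z t).1) ∧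
        gr (lab n l) (mV p n (clim c l T T' z t).1) = mV p n z) ∧
    ∀ g, Lf (lab n l) (fV p n T) (fV p n T') t (mV p n z) g →
      Lf (lab n l) (fV p n T) (fV p n T') t (mV p n z) (mV p n (clim c l T T' z t).1) := by
  have h0 : QClimx.J p n l T T' z t ∅ (z, pc0P c l) := by
    refine ⟨?_, fun h1 h2 => ⟨h1, h2.gr_eq⟩, fun g hg => ⟨?_, ?_, fun _ h => h.elim⟩⟩
    · have := m.pc0 _ hl
      rw [← h.pc0P] at this
      simpa [LfI] using this
    · exact hg.2.1 ▸ hg.1.gr hl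
    · show gr _ (mV p n z) = _
      rw [← hg.2.1, gr_gr]
  have hm : ∀ k : Fin 3 → Ix n, enc3 k ∈ cds c l t ↔ key (lab n l) k < t := fun k => by
    rw [QClimx.mem_cds h hl, h.keyP, and_iff_right (enc3_lt k)]
  have h1 := QClimx.fold h m hl (cds c l t) (QClimx.sorted_cds h t)
    (fun i hi => (QClimx.mem_cds h hl).1 hi)
    (fun i hi k hk => Or.inr ((hm k).2 (hk.trans ((QClimx.mem_cds h hl).1 hi).2)))
    (fun _ _ _ h => h.elim) h0
  have e : ∀ (T' : Frm p n) (z g : Mat p n),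
      LfI (lab n l) (fV p n T) T' (∅ ∪ {k | enc3 k ∈ cds c l t}) z g ↔
        Lf (lab n l) (fV p n T) T' t z g := fun T' z g => by
    simp only [LfI, Lf, mem_Van, Set.empty_union, Set.mem_ofPred_eq, hm, Pi.sub_apply, sub_eq_zero]
  refine ⟨?_, h1.2.1, fun g hg => (e _ _ _).1 (h1.2.2 g hg)⟩
  have h2 := h1.1
  simp only [e] at h2
  exact h2

end Pool.Agent.P.MP_f1a348_lc.PG
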