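import Pool.Agent.P.MP_f1a348_lc.PG.QDefs

/-!
Project PG: counting tuples.
-/

namespace Pool.Agent.P.MP_f1a348_lc.PG

open Matrix Module

variable {p n : ℕ} [Fact p.Prime] {c : Cx} {l : V} {s : Sd}

theorem Enum.countP {X : Type} [AddCommGroup X] [Module (ZMod p) X] {δ : Dcd p X} {L : List V}
    {S : Set X} (h : Enum δ L S) {pad u : U} (hp : L.length ^ u.length ≤ pad.length)
    (f : List V → Bool) (P : (Fin u.length → X) → Prop)
    (hf : ∀ qs : List V, qs.length = u.length → (∀ x ∈ qs, x ∈ L) →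
      (f qs = true ↔ P fun j => dv δ (qs.getD j.val []))) :
    (GI.tuples pad L u).countP f = {qs : Fin u.length → X | (∀ j, qs j ∈ S) ∧ P qs}.ncard := by
  classical
  have hL : L.Nodup := h.nodup.of_map _
  have hN : ((GI.tuples pad L u).filter f).Nodup := (tuples_nodup pad hL u).filter _
  have hm : ∀ {qs : List V}, qs.length = u.length → (∀ x ∈ qs, x ∈ L) → ∀ j : Fin u.length,
      qs.getD j.val [] ∈ L := fun {qs} e1 e2 j => by
    rw [List.getD_eq_getElem _ _ (j.2.trans_eq e1.symm)]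
    exact e2 _ (List.getElem_mem _)
  have hi : Set.InjOn (fun (qs : List V) (j : Fin u.length) => dv δ (qs.getD j.val []))
      (((GI.tuples pad L u).filter f).toFinset : Set (List V)) := fun q hq r hr e => by
    obtain ⟨q1, q2⟩ := GI.tuples_sound (List.mem_filter.1 (List.mem_toFinset.1 hq)).1
    obtain ⟨r1, r2⟩ := GI.tuples_sound (List.mem_filter.1 (List.mem_toFinset.1 hr)).1
    refine List.ext_getElem (q1.trans r1.symm) fun i i1 i2 => ?_
    have := List.inj_on_of_nodup_map h.nodup (hm q1 q2 ⟨i, q1 ▸ i1⟩) (hm r1 r2 ⟨i, q1 ▸ i1⟩)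
      (congrFun e ⟨i, q1 ▸ i1⟩)
    rwa [List.getD_eq_getElem _ _ i1, List.getD_eq_getElem _ _ i2] at this
  rw [List.countP_eq_length_filter, ← List.toFinset_card_of_nodup hN, ← Set.ncard_coe_finset,
    ← hi.ncard_image]
  refine congrArg _ (Set.ext fun qs => ⟨?_, fun hq => ?_⟩)
  · rintro ⟨q, hq, rfl⟩
    obtain ⟨h1, h2⟩ := List.mem_filter.1 (List.mem_toFinset.1 hq)
    obtain ⟨q1, q2⟩ := GI.tuples_sound h1
    exact ⟨fun j => (h.mem _).2 ⟨_, hm q1 q2 j, rfl⟩, (hf q q1 q2).1 h2⟩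
  · choose g hg1 hg2 using fun j => (h.mem _).1 (hq.1 j)
    have q1 : (List.ofFn g).length = u.length := List.length_ofFn
    have q2 : ∀ x ∈ List.ofFn g, x ∈ L := fun x hx => by
      obtain ⟨j, rfl⟩ := List.mem_ofFn.1 hx
      exact hg1 j
    have e : (fun j : Fin u.length => dv δ ((List.ofFn g).getD j.val [])) = qs := funext fun j => by
      rw [List.getD_eq_getElem _ _ (j.2.trans_eq q1.symm), List.getElem_ofFn]
      exact hg2 j
    exact ⟨List.ofFn g, List.mem_toFinset.2 (List.mem_filter.2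
      ⟨GI.tuples_complete hp q1 q2, (hf _ q1 q2).2 (e ▸ hq.2)⟩), e⟩

theorem length_qsP (c : Cx) (l : V) (s : Sd) (a : V) : (qsP c l s a).length ≤
    pp c ^ (nbP c l (a.getD 0 0) + (csoP c s (rv c (a.getD 2 0)) (a.getD 1 0)).length) := by
  rw [qsP, List.length_flatMap, pow_add]
  simp only [List.length_map, List.map_const', List.sum_replicate, smul_eq_mul]
  exact Nat.mul_le_mul (length_blkP _ _ _) ((length_allV _ _).trans_eq (by rw [length_unL]))

theorem Enum.filter {X : Type} [AddCommGroup X] [Module (ZMod p) X] {δ : Dcd p X} {L : List V}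
    {S : Set X} (h : Enum δ L S) (f : V → Bool) (P : X → Prop)
    (hf : ∀ x ∈ L, f x = true ↔ P (dv δ x)) : Enum δ (L.filter f) {y | y ∈ S ∧ P y} := by
  refine ⟨fun y => ⟨fun hy => ?_, ?_⟩, h.nodup.sublist (List.filter_sublist.map _)⟩
  · obtain ⟨x, hx, rfl⟩ := (h.mem y).1 hy.1
    exact ⟨x, List.mem_filter.2 ⟨hx, (hf x hx).2 hy.2⟩, rfl⟩
  · rintro ⟨x, hx, rfl⟩
    obtain ⟨h1, h2⟩ := List.mem_filter.1 hx
    exact ⟨(h.mem _).2 ⟨x, h1, rfl⟩, (hf x h1).1 h2⟩

end Pool.Agent.P.MP_f1a348_lc.PG
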