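import Pool.Agent.P.MP_f1a348_lc.PG.QTest
import Pool.Agent.P.MP_f1a348_lc.PG.QClim

/-!
Project PG: lifts and the canonical subspaces of the second and third kind.
-/

namespace Pool.Agent.P.MP_f1a348_lc.PG

open Matrix Module

variable {p n : ℕ} [Fact p.Prime] {c : Cx} {l : V} {s : Sd}

namespace QLiftx

theorem grp {ℓ : Ix n → ℕ} (hl : Lab ℓ) (T : Frm p n) (t : ℕ) : Grp {u | Lf ℓ T T t 1 u} :=
  ⟨Lf.one T t, fun a ha b hb => by simpa using Lf.mul ha hb, fun a ha => ha.1.2.1,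
    fun a ha => by simpa using Lf.star hl ha⟩

end QLiftx

protected theorem Ok.spP (h : Ok p n c) (m : Mth p n) (hl : Lab (lab n l)) (T : V) (t : ℕ) :
    sp (frm p n) (spP c l T t) = Sp (lab n l) (fV p n T) t := by
  obtain ⟨h1, h2⟩ := m.pcs _ _ (QLiftx.grp hl (fV p n T) t) (h.clim m hl T T (oneP c) t).1
  have e : (spP c l T t).map (dv (frm p n)) =
      ((clim c l T T (oneP c) t).2.map (mV p n)).map (kap (lab n l) (fV p n T) t) := by
    rw [PG.spP, List.map_map, List.map_map]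
    exact List.map_congr_left fun g _ => h.kapP l T t g
  rw [sp, e]
  refine le_antisymm (Submodule.span_le.2 fun w hw => ?_) (Submodule.span_le.2 ?_)
  · obtain ⟨g, hg, rfl⟩ := List.mem_map.1 hw
    exact kap_mem_Sp (h1 g hg)
  · rintro _ ⟨g, hg, rfl⟩
    exact h2 _ (fun a ha b hb => by rw [kap_mul hl ha hb, pull1_one]) g hg

protected theorem Ok.liftP (h : Ok p n c) (m : Mth p n) (hl : Lab (lab n l)) {T z : V} {t : ℕ}
    (hz : Lifts (lab n l) (fV p n T) t (mV p n z)) :
    Lf (lab n l) (fV p n T) (fV p n T) t (mV p n z) (mV p n (liftP c l T z t)) := by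
  obtain ⟨g, hg⟩ := hz
  exact (h.clim m hl T T z t).2.2 g hg

protected theorem Ok.ok_lift (h : Ok p n c) (m : Mth p n) (hl : Lab (lab n l)) (T : V) {z : V}
    (t : ℕ) (h1 : Par (lab n l) (mV p n z)) (h2 : Dg (lab n l) (mV p n z)) :
    okP c l T t (liftP c l T z t) = true ↔ Lifts (lab n l) (fV p n T) t (mV p n z) := by
  rw [h.okP]
  obtain ⟨h3, h4⟩ := (h.clim m hl T T z t).2.1 h1 h2
  exact ⟨fun e => ⟨_, h3, h4, e⟩, fun e => (h.liftP m hl e).2.2⟩

protected theorem Ok.allLiftP (h : Ok p n c) (m : Mth p n) (hs : Gd p n l s) (t : ℕ) :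
    allLiftP c l s t = true ↔ AllLift (lab n l) (sdD p n s) t := by
  rw [PG.allLiftP, List.all_eq_true]
  have key : ∀ z ∈ testsP c l s, okP c l s.1 t (liftP c l s.1 z t) = true ↔
      Lifts (lab n l) (sdD p n s).T t (mV p n z) := fun z hz =>
    h.ok_lift m hs.str.lab s.1 t (Test.par m.five hs.str (h.tests_sound hs hz)).1
      (Test.par m.five hs.str (h.tests_sound hs hz)).2
  refine ⟨fun H z hz => ?_, fun H z hz => (key z hz).2 (H _ (h.tests_sound hs hz))⟩
  obtain ⟨x, hx, rfl⟩ := h.tests_complete hs hz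
  exact (key x hx).1 (H x hx)

protected theorem Ok.shP (h : Ok p n c) (m : Mth p n) (hs : Gd p n l s) (t : ℕ) :
    sp (pl (frm p n)) (shP c l s t) = Sh (lab n l) (sdD p n s) t := by
  have hz := h.z0P hs
  have ht : Test (lab n l) (sdD p n s).B (mV p n (z0P c s)) := hz ▸ test_z0
  have key := h.ok_lift m hs.str.lab s.1 t (Test.par m.five hs.str ht).1
    (Test.par m.five hs.str ht).2
  rw [PG.shP]
  cases e : okP c l s.1 t (liftP c l s.1 (z0P c s) t) with
  | true =>
    have h0 := h.liftP m hs.str.lab (key.1 e)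
    rw [hz] at h0
    ext y
    rw [cond_true, mem_sp_aff, mem_Sh (s := sdD p n s) hs.str.lab h0, h.spP m hs.str.lab]
    have e1 := h.kapP l s.1 t (liftP c l s.1 (z0P c s) t)
    rw [fV] at e1
    rw [e1]
    rfl
  | false =>
    rw [cond_false, sp_nil, eq_comm, Sh, Submodule.span_eq_bot]
    rintro _ ⟨g, hg, rfl⟩
    rw [← hz] at hg
    rw [key.2 ⟨g, hg⟩] at e
    exact absurd e (by simp)

protected theorem Ok.d2P (h : Ok p n c) (m : Mth p n) (hs : Gd p n l s) (t : ℕ) :
    sp (tup p n (uK c s).length) (d2P c l s t) = D2 (lab n l) (sdD p n s) t := by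
  rw [PG.d2P, sp_map (δ := pl (frm p n)) (cn ((colP c s).map (mV p n))) fun y _ => h.cnP s y,
    h.shP m hs, h.colP hs, D2]

protected theorem Ok.d3P (h : Ok p n c) (m : Mth p n) (hs : Gd p n l s) (t : ℕ) :
    sp (tup p n (uK c s).length) (d3P c l s t) = D3 (lab n l) (sdD p n s) t := by
  rw [PG.d3P, uT, (preim_bas h.hp h.d3.pl' (h.dt (uK c s)) (tn ((colP c s).map (mV p n)))
    (fun y _ => h.tnP s y) _).sp, h.ambP, h.shP m hs, D3, ← h.colP hs, List.length_map]

end Pool.Agent.P.MP_f1a348_lc.PG
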