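import Pool.Agent.P.MP_f1a348_lc.PG.QAp
import Pool.Agent.P.MP_f1a348_lc.PG.QRef

/-!
Project PG: one round of the main loop.
-/

namespace Pool.Agent.P.MP_f1a348_lc.PG

open Matrix Module

variable {p n : ℕ} [Fact p.Prime] {c : Cx}

namespace QMainx

theorem phi (h : Ok p n c) (T0 : V) {x : Lt} (hx : Str (lab n x.1) (alL p n x)) :
    phiL c T0 x = Phi (lab n x.1) (alL p n x) := h.phiP (h.good T0 hx)

theorem ref (h : Ok p n c) (m : Mth p n) (T0 T0' : V) {x : Lt} (hx : Str (lab n x.1) (alL p n x))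
    {a : Fin 3 → Ix n} {ρ : Rp} (ha : ρ.2.1 = tr3 a) (R : List Rt) :
    ∃ g, Stp p n T0 T0' (apL c T0 x ρ, R) (refine c (apL c T0 x ρ, R)) g ∧
      Str (lab n (refine c (apL c T0 x ρ, R)).1.1) (alL p n (refine c (apL c T0 x ρ, R)).1) :=
  h.refine m T0 T0' (z := (apL c T0 x ρ, R)) hx.lab (by
    show Alg _ (alL p n (apL c T0 x ρ))
    rw [h.apL m T0 hx ha]
    exact Ht_alg hx.alg _)

theorem gain (h : Ok p n c) (m : Mth p n) (T0 : V) {x : Lt} (hx : Str (lab n x.1) (alL p n x))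
    {a : Fin 3 → Ix n} {ρ : Rp} (ha : ρ.2.1 = tr3 a) (R : List Rt) {x' : Lt}
    (e : (refine c (apL c T0 x ρ, R)).1 = x') :
    gainP c T0 x ρ = true ↔ Valid (lab n x.1) (sdD p n (sdL c T0 x)) (rcD p a ρ) ∧
      Phi (lab n x'.1) (alL p n x') < Phi (lab n x.1) (alL p n x) ∧
      costP c x.1 (sdL c T0 x) ρ ≤
        16 * tt n * (Phi (lab n x.1) (alL p n x) - Phi (lab n x'.1) (alL p n x')) := by
  obtain ⟨g, -, h1⟩ := ref h m T0 T0 hx ha []
  rw [refine_fst] at e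
  rw [gainP, Bool.and_eq_true, Bool.and_eq_true, Nat.blt_eq, Nat.ble_eq,
    h.validP m (h.good T0 hx) ha, phi h T0 hx, phi h T0 h1, h.lenTT, e, and_assoc]

theorem some_gain (h : Ok p n c) (m : Mth p n) (T0 : V) {x : Lt}
    (hx : Str (lab n x.1) (alL p n x)) (h0 : 0 < Phi (lab n x.1) (alL p n x)) :
    ∃ ρ ∈ recs c x.1 (sdL c T0 x), gainP c T0 x ρ = true := by
  have hs := h.good T0 hx
  obtain ⟨σ, hσ⟩ := m.prog _ _ _ hs h0 (h.annP m hs)
  obtain ⟨ρ, h1, h2, h3⟩ := h.recs_complete x.1 (sdL c T0 x) σ hσ.kind hσ.k hσ.r hσ.c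
  obtain ⟨g, h4, h5⟩ := ref h m T0 T0 hx h2 []
  have hv := hσ.valid
  have h6 := hσ.acc
  rw [← h3] at hv h6
  have h7 := h4.ref
  rw [h.apL m T0 hx h2] at h7
  have h8 := h6 _ (h.thOf m hs h2 hv.ann fun e => ⟨(hv.rig e).1, (hv.rig e).2.2⟩) _ g _ h7 h5.sim
  exact ⟨ρ, h1, (gain h m T0 hx h2 [] rfl).2 ⟨hv, h8.1, (h.costP hs h2).trans_le h8.2⟩⟩

end QMainx

open QMainx in
protected theorem Ok.mainStep (h : Ok p n c) (m : Mth p n) (T0 T0' : V) {z : Lt × List Rt}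
    (hz : Sta p n z) : Sta p n (mainStep c T0 T0' z) ∧
      Phi (lab n (mainStep c T0 T0' z).1.1) (alL p n (mainStep c T0 T0' z).1) ≤
        Phi (lab n z.1.1) (alL p n z.1) - 1 ∧
      ((∃ y ∈ z.2, Inv p n T0 T0' z.1 y) →
        ∃ y ∈ (mainStep c T0 T0' z).2, Inv p n T0 T0' (mainStep c T0 T0' z).1 y) := by
  rw [PG.mainStep]
  cases e : (recs c z.1.1 (sdL c T0 z.1)).find? (gainP c T0 z.1) with
  | none =>
    refine ⟨hz, ?_, id⟩
    by_contra h0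
    have h1 : ¬ Phi (lab n z.1.1) (alL p n z.1) ≤ Phi (lab n z.1.1) (alL p n z.1) - 1 := h0
    obtain ⟨ρ, h2, h3⟩ := some_gain h m T0 hz.str (by omega)
    exact List.find?_eq_none.1 e ρ h2 h3
  | some ρ =>
    obtain ⟨a, ha⟩ := h.recs_sound (List.mem_of_find?_eq_some e)
    obtain ⟨g, h1, h2⟩ := ref h m T0 T0' hz.str ha (apR c T0 T0' z.1 ρ z.2)
    obtain ⟨hv, h3, h4⟩ := (gain h m T0 hz.str ha (apR c T0 T0' z.1 ρ z.2) rfl).1
      (List.find?_some e)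
    have hp : 0 < p := (Fact.out : p.Prime).pos
    have h5 := length_apR c T0 T0' z.1 ρ z.2
    rw [h.hp] at h5
    rw [Option.elim_some, stepOf]
    generalize refine c (apL c T0 z.1 ρ, apR c T0 T0' z.1 ρ z.2) = w at h1 h2 h3 h4
    have h6 : (z.2.flatMap (PG.apR1 c T0 T0' z.1 ρ)).length *
        p ^ (16 * tt n * Phi (lab n w.1.1) (alL p n w.1)) ≤ p ^ bud n := by
      refine le_trans ?_ hz.len
      refine (Nat.mul_le_mul_right _ h5).trans ?_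
      rw [mul_assoc, ← pow_add]
      refine Nat.mul_le_mul_left _ (Nat.pow_le_pow_right hp ?_)
      rw [← Nat.sub_add_cancel h3.le, mul_add]
      exact Nat.add_le_add_right h4 _
    have h7 : apR c T0 T0' z.1 ρ z.2 = z.2.flatMap (PG.apR1 c T0 T0' z.1 ρ) :=
      List.take_of_length_le
        (((Nat.le_mul_of_pos_right _ (pow_pos hp _)).trans h6).trans h.pad)
    rw [h7] at h1
    refine ⟨⟨h2, ?_, ?_⟩, by omega, fun ⟨y, hy, hi⟩ => h1.inv ?_⟩
    · rw [h1.mul]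
      exact hz.par.mul h1.ref.par.l0
    · rw [h1.len]
      exact h6
    · obtain ⟨y', h8, h9⟩ := h.apR1 m T0 T0' hz.str ha hv hi
      exact ⟨y', List.mem_flatMap.2 ⟨y, hy, h8⟩, h9⟩

end Pool.Agent.P.MP_f1a348_lc.PG
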