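import Pool.Agent.P.MP_f1a348_lc.PG.QDefs

/-!
Project PG: arithmetic in a multiplication table, and the module of Baer.
-/

namespace Pool.Agent.P.MP_f1a348_lc.PG

open scoped commutatorElement

namespace QTabx

theorem find_uniq {N : ℕ} {P : ℕ → Bool} (d : Fin N) (h : ∀ x : Fin N, P x.val = true ↔ x = d) :
    ((List.range N).find? P).getD 0 = d.val := by
  have : (List.range N).find? P = some d.val := by
    refine List.find?_range_eq_some.2 ⟨(h d).2 rfl, List.mem_range.2 d.2, fun j hj => ?_⟩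
    have := (h ⟨j, hj.trans d.2⟩).not.2 (fun e => by rw [← e] at hj; exact lt_irrefl _ hj)
    simpa using this
  rw [this, Option.getD_some]

/-- a copy of the group, to carry the Baer sum -/
structure BX (A : Type) where
  val : A

end QTabx

open QTabx

variable {A : Type} [Group A] {N : ℕ} {e : Fin N ≃ A} {G : Tb}

protected theorem Tbl.tmul (h : Tbl e G) (a b : Fin N) :
    tmul G a.val b.val = (e.symm (e a * e b)).val := by
  rw [tmul, h.els, List.length_range]
  refine find_uniq _ fun x => ?_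
  rw [h.bit, Equiv.eq_symm_apply, eq_comm]

protected theorem Tbl.tone (h : Tbl e G) : tone G = (e.symm 1).val := by
  rw [tone, h.els]
  refine find_uniq _ fun x => ?_
  rw [h.tmul, beq_iff_eq, Fin.val_inj, Equiv.symm_apply_eq, Equiv.eq_symm_apply, mul_eq_left]

protected theorem Tbl.tinv (h : Tbl e G) (a : Fin N) : tinv G a.val = (e.symm (e a)⁻¹).val := by
  rw [tinv, h.els]
  refine find_uniq _ fun x => ?_
  rw [h.tmul, h.tone, beq_iff_eq, Fin.val_inj, e.symm.apply_eq_iff_eq, Equiv.eq_symm_apply,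
    mul_eq_one_iff_eq_inv', eq_comm]

protected theorem Tbl.tcom (h : Tbl e G) (a b : Fin N) :
    tcom G a.val b.val = (e.symm ⁅e a, e b⁆).val := by
  rw [tcom, h.tinv, h.tinv, h.tmul, h.tmul, h.tmul]
  simp only [Equiv.apply_symm_apply, commutatorElement_def]

protected theorem Tbl.tpow (h : Tbl e G) (a : Fin N) {k d : ℕ} (hk : k ≤ d) :
    tpow G (List.range d) a.val k = (e.symm (e a ^ k)).val := by
  have key : ∀ j, tpow G (List.range j) a.val k = (e.symm (e a ^ min j k)).val := fun j => by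
    induction j with
    | zero => simpa [tpow] using h.tone
    | succ j ih =>
      rw [tpow] at ih ⊢
      rw [List.range_succ, List.foldl_append, ih, List.foldl_cons, List.foldl_nil]
      by_cases hj : j < k
      · rw [Nat.blt_eq.mpr hj, cond_true, h.tmul, Equiv.apply_symm_apply, ← pow_succ,
          min_eq_left hj.le, min_eq_left hj]
      · rw [Bool.eq_false_iff.2 (mt Nat.blt_eq.mp hj), cond_false, min_eq_right (by omega),
          min_eq_right (by omega)]
  rw [key, min_eq_right hk]

protected theorem Tbl.tbs (h : Tbl e G) {p : ℕ} (hp : 0 < p) (a b : Fin N) :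
    tbs G (List.range p) a.val b.val = (e.symm (bs p (e a) (e b))).val := by
  rw [tbs, List.length_range, h.tcom, h.tpow _ (by omega), h.tmul, h.tmul]
  simp only [Equiv.apply_symm_apply, bs]

theorem exists_module {p : ℕ} [Fact p.Prime] (hb : S_BAER p) (hA : Cl2 p A) :
    ∃ (X : Type) (_ : AddCommGroup X) (_ : Module (ZMod p) X) (β : A ≃ X),
      (∀ x y, β (bs p x y) = β x + β y) ∧ ∀ (x : A) (k : ℕ), β (x ^ k) = (k : ZMod p) • β x := by
  obtain ⟨b1, b2, b3, -⟩ := hb A hA
  let _ : Add (BX A) := ⟨fun x y => ⟨bs p x.val y.val⟩⟩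
  let _ : Zero (BX A) := ⟨⟨1⟩⟩
  let _ : Neg (BX A) := ⟨fun x => ⟨x.val⁻¹⟩⟩
  let _ : AddGroup (BX A) := AddGroup.ofLeftAxioms
    (fun x y z => congrArg BX.mk (b2 x.val y.val z.val))
    (fun x => congrArg BX.mk (show bs p 1 x.val = x.val by simp [bs]))
    (fun x => congrArg BX.mk (show bs p x.val⁻¹ x.val = 1 by simp [bs, commutatorElement_def]))
  let _ : AddCommGroup (BX A) := { add_comm := fun x y => congrArg BX.mk (b1 x.val y.val) }
  have hn : ∀ (x : A) (k : ℕ), (BX.mk (x ^ k) : BX A) = k • BX.mk x := fun x k => by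
    induction k with
    | zero => rw [pow_zero, zero_nsmul]; rfl
    | succ k ih =>
      rw [succ_nsmul, ← ih, ← b3, pow_one]
      rfl
  let _ : Module (ZMod p) (BX A) := AddCommGroup.zmodModule fun x => by
    rw [← hn x.val p, hA.pow]; rfl
  exact ⟨BX A, inferInstance, inferInstance, ⟨BX.mk, BX.val, fun _ => rfl, fun _ => rfl⟩,
    fun _ _ => rfl, fun x k => by rw [Nat.cast_smul_eq_nsmul]; exact hn x k⟩

theorem card_eq {p : ℕ} [Fact p.Prime] (e : Fin N ≃ A) (hA : Cl2 p A) : ∃ k, N = p ^ k := by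
  have : Finite A := Finite.of_equiv _ e
  have hp : IsPGroup p A := fun g => ⟨1, by rw [pow_one, hA.pow]⟩
  obtain ⟨k, hk⟩ := IsPGroup.iff_card.1 hp
  exact ⟨k, by rw [← hk, ← Nat.card_congr e, Nat.card_eq_fintype_card, Fintype.card_fin]⟩

theorem length_upOf {p k : ℕ} [Fact p.Prime] (hk : 0 < k) :
    (upOf (List.range (p ^ k))).length + 1 = p := by
  have hp : p.Prime := Fact.out
  have h2 := hp.two_le
  have hle : p ≤ p ^ k := Nat.le_self_pow hk.ne' p
  have small : ∀ j < p, (!(Nat.ble 2 j && p ^ k % j == 0)) = true := fun j hj => by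
    rw [Bool.not_eq_true', ← Bool.not_eq_true, Bool.and_eq_true, Nat.ble_eq, beq_iff_eq]
    rintro ⟨h3, h4⟩
    obtain ⟨i, -, rfl⟩ := (Nat.dvd_prime_pow hp).1 (Nat.dvd_of_mod_eq_zero h4)
    rcases i with _ | i
    · simp at h3
    · exact absurd (Nat.le_self_pow (Nat.succ_ne_zero i) p) (not_le.2 hj)
  have key : ((List.range (p ^ k)).find? fun d => Nat.ble 2 d && p ^ k % d == 0).getD (p ^ k)
      = p := by
    rcases hle.lt_or_eq with hlt | heq
    · rw [List.find?_range_eq_some.2 ⟨?_, List.mem_range.2 hlt, small⟩, Option.getD_some]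
      rw [Bool.and_eq_true, Nat.ble_eq, beq_iff_eq]
      exact ⟨h2, Nat.mod_eq_zero_of_dvd (dvd_pow_self p hk.ne')⟩
    · rw [List.find?_range_eq_none.2 fun j hj => small j (heq ▸ hj), Option.getD_none, ← heq]
  rw [upOf, length_unL, List.length_take, List.length_range, key]
  omega

end Pool.Agent.P.MP_f1a348_lc.PG
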