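import Pool.Agent.P.MP_f1a348_lc.PG.QRun
import Pool.Agent.P.MP_f1a348_lc.PG.QTab
import Pool.Agent.P.MP_f1a348_lc.PG.QCoord

/-!
Project PG: the whole program is correct.
-/

namespace Pool.Agent.P.MP_f1a348_lc.PG

open Matrix Module
open scoped commutatorElement

variable {p : ℕ} [Fact p.Prime]

protected theorem Tbl.tensP {A : Type} [Group A] {N n : ℕ} {e : Fin N ≃ A} {G : Tb} (h : Tbl e G)
    (hb : S_BAER p) (hA : Cl2 p A) {c : Cx} (h1 : pp c = p) (h2 : mM c = 2 * n + 1)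
    (hn : (coords G (List.range p)).1.length = n) :
    ∃ κ : A ≃ (Fin n → ZMod p), Coord κ ∧ fV p n (tensP c G) = tens κ := by
  obtain ⟨X, _, _, β, hβ1, hβ2⟩ := exists_module hb hA
  have hp0 : 0 < p := (Fact.out : p.Prime).pos
  have β1 : β 1 = 0 := by simpa using hβ2 1 0
  obtain ⟨κ0, k1, k2⟩ := coords_spec (p := p) (e.trans β) h.els
    (by rw [h.tone, ← β1]; simp)
    (fun a b k hk => by
      rw [h.tpow a hk.le, h.tbs hp0, Equiv.trans_apply, Equiv.trans_apply, ← hβ2, ← hβ1]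
      simp) hn
  refine ⟨β.trans κ0.toEquiv, fun x y => ?_, ?_⟩
  · simp [hβ1]
  have ok : Ok p n (c.1, c.2.1, List.replicate (p ^ bud n) ()) := ⟨h1, h2, by simp⟩
  have hco : ∀ (m : ℕ) (k : Fin 3 → Ix n), co c m (enc3 k) = (k (sl m)).val := ok.co
  have hcz : cz c = n := ok.cz
  have hd : Dec (frm p n) (u3 c).length := ok.d3
  funext k
  rw [PG.tensP, tensQ, fV, dv_tab h1 hd, frm_apply, hco, hco, hco, hcz, digs_eq, h1, tens]
  change ((bif Nat.blt n (k 0).val && Nat.blt n (k 1).val && Nat.blt (k 2).val n then _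
    else 0 : ℕ) : ZMod p) = _
  split_ifs with hk
  · have e0 : sl 0 = 0 := rfl
    have e1 : sl 1 = 1 := rfl
    have e2 : sl 2 = 2 := rfl
    have b0 := (k 0).2
    have b1 := (k 1).2
    rw [Nat.blt_eq.mpr hk.1, Nat.blt_eq.mpr hk.2.1, Nat.blt_eq.mpr hk.2.2, Bool.and_self, Bool.and_self,
      cond_true, e0, e1, e2, k1 _ (by omega), k1 _ (by omega), h.tcom]
    obtain ⟨v, hv, hv'⟩ := k2 (e.symm ⁅e ((e.trans β).symm (κ0.symm (un1 ((k 0).val - n - 1)))),
      e ((e.trans β).symm (κ0.symm (un1 ((k 1).val - n - 1))))⁆)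
    rw [hv, Option.getD_some]
    refine (hv' ⟨n - 1 - (k 2).val, by omega⟩).trans ?_
    simp
  · have : (Nat.blt n (k 0).val && Nat.blt n (k 1).val && Nat.blt (k 2).val n) = false := by
      rw [← Bool.not_eq_true, Bool.and_eq_true, Bool.and_eq_true, Nat.blt_eq, Nat.blt_eq,
        Nat.blt_eq, and_assoc]
      exact hk
    rw [this, cond_false, Nat.cast_zero]

theorem mainP_spec (m : ∀ n, Mth p n) {A A' : Type} [Group A] [Group A'] {N : ℕ} {e : Fin N ≃ A}
    {e' : Fin N ≃ A'} {G G' : Tb} (h : Tbl e G) (h' : Tbl e' G') (hA : Cl2 p A) (hA' : Cl2 p A')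
    {pad : U} (hp : ∀ n, 0 < n → p ^ n = N → p ^ bud n ≤ pad.length) :
    mainP pad G G' = true ↔ Nonempty (A ≃* A') := by
  obtain ⟨k, hk⟩ := card_eq e hA
  have hp2 : 2 ≤ p := (Fact.out : p.Prime).two_le
  have hl : G.1.length = N := by rw [h.els, List.length_range]
  by_cases hN : N = 1
  · subst hN
    have : Unique A := e.symm.unique
    have : Unique A' := e'.symm.unique
    exact ⟨fun _ => ⟨MulEquiv.ofUnique⟩, fun _ => by simp [mainP, hl]⟩
  have hk0 : 0 < k := Nat.pos_of_ne_zero fun h0 => hN (by rw [hk, h0, pow_zero])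
  have hu : (upOf G.1).length + 1 = p := by rw [h.els, hk]; exact length_upOf hk0
  have hr : ran (() :: upOf G.1) = List.range p := by rw [ran_eq, List.length_cons, hu]
  have card : ∀ {B : Type} {n : ℕ}, (Fin N ≃ B) → (B ≃ (Fin n → ZMod p)) → p ^ n = N :=
    fun {B n} f κ => by simpa using (Fintype.card_congr (f.trans κ)).symm
  set n := (coords G (List.range p)).1.length with hn
  have h1 : pp (cxOf pad G) = p := hu
  have h2 : mM (cxOf pad G) = 2 * n + 1 := by
    simp only [mM, cxOf, hr, List.length_append, List.length_cons, length_unL]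
    omega
  obtain ⟨κ, c1, c2⟩ := h.tensP (m 0).baer hA h1 h2 rfl
  obtain ⟨κ1, -, -⟩ := h'.tensP (m 0).baer hA' (c := (upOf G.1,
    List.replicate (2 * (coords G' (List.range p)).1.length + 1) (), pad)) hu (by simp [mM]) rfl
  have hn' : (coords G' (List.range p)).1.length = n :=
    Nat.pow_right_injective hp2 ((card e' κ1).trans (card e κ).symm)
  obtain ⟨κ', c1', c2'⟩ := h'.tensP (m 0).baer hA' h1 h2 hn'
  have hn0 : 0 < n := Nat.pos_of_ne_zero fun h0 => hN (by rw [← card e κ, h0, pow_zero])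
  have ok : Ok p n (cxOf pad G) := ⟨h1, h2, hp n hn0 (card e κ)⟩
  rw [mainP, hl, beq_false_of_ne hN, Bool.false_or, ok.engine (m n), c2, c2']
  exact ((m n).tens A A' κ κ' hA hA' c1 c1').symm

end Pool.Agent.P.MP_f1a348_lc.PG
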