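import Pool.Agent.P.MP_f1a348_lc.PG.QAnn
import Pool.Agent.P.MP_f1a348_lc.PG.QPop

/-!
Project PG: recipes.
-/

namespace Pool.Agent.P.MP_f1a348_lc.PG

open Matrix Module

variable {p n : ℕ} [Fact p.Prime] {c : Cx} {l : V} {s : Sd}

namespace QRecx

theorem tP_eq (h : Ok p n c) (l : V) {a : Fin 3 → Ix n} {ρ : Rp} (ha : ρ.2.1 = tr3 a) :
    tP c l ρ.2.1 ρ.2.2.1 = (rcD p a ρ).t (lab n l) := by
  rw [ha, h.tP]; rfl

theorem bif_eq {β : Type} (a b : ℕ) (x y : β) :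
    (bif a == b then x else y) = if a = b then x else y := by
  by_cases e : a = b
  · rw [if_pos e, beq_iff_eq.2 e]; rfl
  · rw [if_neg e, beq_false_of_ne e]; rfl

theorem bif_le {β : Type} (a b : ℕ) (x y : β) :
    (bif Nat.ble a b then x else y) = if a ≤ b then x else y := by
  by_cases e : a ≤ b
  · rw [if_pos e, Nat.ble_eq_true_of_le e]; rfl
  · rw [if_neg e, show Nat.ble a b = false from
      Bool.eq_false_iff.2 fun f => e (Nat.le_of_ble_eq_true f)]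
    rfl

theorem g0 (a : Fin 3 → Ix n) : (tr3 a).getD 0 0 = (a 0).val := rfl
theorem g1 (a : Fin 3 → Ix n) : (tr3 a).getD 1 0 = (a 1).val := rfl
theorem g2 (a : Fin 3 → Ix n) : (tr3 a).getD 2 0 = (a 2).val := rfl

theorem good_iff (h : Ok p n c) (hs : Gd p n l s) (u : V) :
    (!isz c (u1 c) u && isotP c s u) = true ↔ vV p n u ≠ 0 ∧ Isot (sdD p n s).B (vV p n u) := by
  rw [Bool.and_eq_true, Bool.not_eq_true', ← Bool.not_eq_true, isz_iff h.hp h.d1, h.isotP hs]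

end QRecx

open QRecx

protected theorem Ok.dP (h : Ok p n c) (m : Mth p n) (hs : Gd p n l s) {a : Fin 3 → Ix n} {ρ : Rp}
    (ha : ρ.2.1 = tr3 a) (q : V) : sp (tup p n (uK c s).length) (dP c l s ρ q) =
      Dd (lab n l) (sdD p n s) (rcD p a ρ) (fV p n (thOf c l s ρ)) (hV p n q) := by
  have hK : 2 ≤ (uK c s).length := by rw [length_uK]; omega
  rw [PG.dP, Dd, tP_eq h l ha, ha]
  simp only [bif_eq, bif_le, show (rcD p a ρ).kind = ρ.1 from rfl]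
  split_ifs
  · rw [h.d0P hK, hV_eq]
  · exact h.d2P m hs _
  · exact h.d3P m hs _
  · rw [h.d4P hs hK, h.permP]; rfl
  · rw [h.d5P hs hK, h.permP]; rfl
  · rw [h.d6P hs hK, h.permP]; rfl

protected theorem Ok.brP (h : Ok p n c) (hs : Gd p n l s) {a : Fin 3 → Ix n} {ρ : Rp}
    (ha : ρ.2.1 = tr3 a) :
    Br (lab n l) (sdD p n s) (rcD p a ρ) {q | ∃ x ∈ brP c l s ρ, hV p n x = q} := by
  have hb := h.blkP hs.str.lab (a 0)
  rw [PG.brP, ha, g0]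
  simp only [bif_eq]
  refine ⟨fun e u hu => ?_, fun e ⟨u, hu, h1⟩ => ?_, fun e q hq => ?_, fun e0 e1 e4 => ?_⟩
  · obtain ⟨x, hx, rfl⟩ := (hb.mem u).1 hu
    rw [if_pos (show ρ.1 = 0 from e)]
    exact ⟨x, hx, hV_short (h.blkP_norm hx)⟩
  · have e' : ρ.1 = 1 := e
    rw [if_neg (by omega), if_pos e']
    obtain ⟨x, hx, rfl⟩ := (hb.mem u).1 hu
    obtain ⟨y, hy⟩ := Option.isSome_iff_exists.1 ((List.find?_isSome
      (p := fun u => !isz c (u1 c) u && isotP c s u)).2 ⟨x, hx, (good_iff h hs x).2 h1⟩)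
    have y1 := List.mem_of_find?_eq_some hy
    have y2 := (good_iff h hs y).1 (List.find?_some
      (p := fun u => !isz c (u1 c) u && isotP c s u) hy)
    refine ⟨vV p n y, (hb.mem _).2 ⟨y, y1, rfl⟩, y2.1, y2.2, y, ?_, hV_short (h.blkP_norm y1)⟩
    rw [hy]
    exact List.mem_singleton_self _
  · have e' : ρ.1 = 4 := e
    rw [if_neg (by omega), if_neg (by omega), if_pos e']
    exact ((h.qsP hs a).mem q).1 hq
  · rw [if_neg (show ρ.1 ≠ 0 from e0), if_neg (show ρ.1 ≠ 1 from e1),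
      if_neg (show ρ.1 ≠ 4 from e4)]
    exact ⟨_, [], List.mem_singleton_self _, rfl⟩

theorem length_brP (c : Cx) (l : V) (s : Sd) (ρ : Rp) :
    (brP c l s ρ).length ≤ pp c ^ costP c l s ρ := by
  rw [brP, costP]
  simp only [bif_eq]
  split_ifs with e0 e1 e4
  · exact length_blkP _ _ _
  · omega
  · rw [pow_zero]
    exact Option.length_toList_le
  · exact length_qsP _ _ _ _
  · simp

protected theorem Ok.costP (h : Ok p n c) (hs : Gd p n l s) {a : Fin 3 → Ix n} {ρ : Rp}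
    (ha : ρ.2.1 = tr3 a) : costP c l s ρ = cost (lab n l) (sdD p n s) (rcD p a ρ) := by
  rw [PG.costP, cost, ha, g0, g1, g2, h.rv, h.nbP]
  simp only [bif_eq, show (rcD p a ρ).kind = ρ.1 from rfl, show (rcD p a ρ).a = a from rfl]
  rw [← h.csoP hs, List.length_map]

protected theorem Ok.validP (h : Ok p n c) (m : Mth p n) (hs : Gd p n l s) {a : Fin 3 → Ix n}
    {ρ : Rp} (ha : ρ.2.1 = tr3 a) :
    validP c l s ρ = true ↔ Valid (lab n l) (sdD p n s) (rcD p a ρ) := by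
  have e1 : (ρ.1 != 1) = true ↔ ¬ ρ.1 = 1 := bne_iff_ne
  have e2 : Nat.blt ρ.1 4 = true ↔ ¬ 4 ≤ ρ.1 := by rw [Nat.blt_eq, not_le]
  have e3 : (!trivP c s (a 0).val) = true ↔ ¬ Triv (lab n l) (sdD p n s).B (a 0) := by
    rw [Bool.not_eq_true', ← Bool.not_eq_true, h.trivP hs]
  rw [PG.validP, tP_eq h l ha, ha, g0, h.len3, Bool.and_eq_true, Bool.and_eq_true,
    Bool.and_eq_true, Bool.or_eq_true, Bool.or_eq_true, Bool.and_eq_true, Bool.and_eq_true,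
    Bool.and_eq_true, good_iff h hs, Bool.and_eq_true, Bool.and_eq_true, h.inB, h.annOK m hs, e1,
    e2, e3, h.bigP hs, h.allLiftP m hs, h.allLiftP m hs, h.rigP hs, ← imp_iff_not_or,
    ← imp_iff_not_or]
  constructor
  · rintro ⟨⟨⟨h1, h2⟩, h3⟩, h4⟩
    refine ⟨h1, h2, fun e => ?_, fun e => ?_⟩
    · obtain ⟨⟨⟨⟨k1, k2⟩, k3⟩, k4⟩, k5⟩ := h3 e
      exact ⟨k1, k2, k3, k4, k5⟩
    · obtain ⟨⟨k1, k2⟩, k3⟩ := h4 e
      exact ⟨k1, k2, (h.thP_isSome m hs h2 k1).1 k3⟩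
  · rintro ⟨h1, h2, h3, h4⟩
    refine ⟨⟨⟨h1, h2⟩, fun e => ?_⟩, fun e => ?_⟩
    · obtain ⟨k1, k2, k3, k4, k5⟩ := h3 e
      exact ⟨⟨⟨⟨k1, k2⟩, k3⟩, k4⟩, k5⟩
    · obtain ⟨k1, k2, k3⟩ := h4 e
      exact ⟨⟨k1, k2⟩, (h.thP_isSome m hs h2 k1).2 k3⟩

protected theorem Ok.thOf (h : Ok p n c) (m : Mth p n) (hs : Gd p n l s) {a : Fin 3 → Ix n}
    {ρ : Rp} (ha : ρ.2.1 = tr3 a)
    (h1 : Ann (lab n l) (sdD p n s) ((rcD p a ρ).t (lab n l)) (rcD p a ρ).c)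
    (h2 : 4 ≤ ρ.1 → AllLift (lab n l) (sdD p n s) ((rcD p a ρ).t (lab n l)) ∧
      ∃ θ, Th (lab n l) (sdD p n s) ((rcD p a ρ).t (lab n l)) (rcD p a ρ).c θ) :
    ThOK (lab n l) (sdD p n s) (rcD p a ρ) (fV p n (thOf c l s ρ)) := by
  intro e
  rw [PG.thOf, tP_eq h l ha]
  exact h.thP_th m hs h1 (h2 e).1 (h2 e).2

protected theorem Ok.recs_sound (h : Ok p n c) {ρ : Rp} (hρ : ρ ∈ recs c l s) :
    ∃ a : Fin 3 → Ix n, ρ.2.1 = tr3 a := by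
  obtain ⟨kind, -, hρ⟩ := List.mem_flatMap.1 hρ
  obtain ⟨a, ha, hρ⟩ := List.mem_flatMap.1 hρ
  obtain ⟨k, -, hρ⟩ := List.mem_flatMap.1 hρ
  obtain ⟨cs, -, hρ⟩ := List.mem_flatMap.1 hρ
  obtain ⟨u, -, hρ⟩ := List.mem_flatMap.1 hρ
  obtain ⟨r, -, rfl⟩ := List.mem_map.1 hρ
  obtain ⟨i, hi, rfl⟩ := List.mem_map.1 ha
  obtain ⟨b, rfl⟩ := exists_enc3 (h.len3 ▸ mem_ran.1 hi)
  exact ⟨b, by rw [co0_x h, co1_x h, co2_x h]; rfl⟩

protected theorem Ok.recs_complete (h : Ok p n c) (l : V) (s : Sd) (σ : Rc p n) (h1 : σ.kind < 7)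
    (h2 : σ.k < 6) (h3 : σ.r < 2 * (2 * n + 1))
    (h4 : σ.c = 0 ∨ σ.c ∈ csS p c l s (σ.t (lab n l))) :
    ∃ ρ ∈ recs c l s, ρ.2.1 = tr3 σ.a ∧ rcD p σ.a ρ = σ := by
  obtain ⟨kind, a, k, cc, v, r⟩ := σ
  obtain ⟨u, hu, rfl⟩ := allV_surj h.hp h.d1 vec_surj (h.pow_le' (by rw [h.len1]; omega)) v
  obtain ⟨cs, hc, rfl⟩ : ∃ cs ∈ [] :: annP c l s (tP c l (tr3 a) k), tv p cs = cc := by
    rcases h4 with e | ⟨x, hx, e⟩
    · exact ⟨[], List.mem_cons_self, tv_nil.trans e.symm⟩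
    · exact ⟨x, List.mem_cons_of_mem _ (by rw [h.tP]; exact hx), e⟩
  refine ⟨(kind, tr3 a, k, cs, u, r), ?_, rfl, rfl⟩
  refine List.mem_flatMap.2 ⟨kind, ?_, List.mem_flatMap.2 ⟨tr3 a, ?_, List.mem_flatMap.2 ⟨k, ?_,
    List.mem_flatMap.2 ⟨cs, hc, List.mem_flatMap.2 ⟨u, hu, List.mem_map.2 ⟨r, ?_, rfl⟩⟩⟩⟩⟩⟩
  · exact List.mem_range.2 (show kind < 7 from h1)
  · exact List.mem_map.2 ⟨enc3 a, mem_ran.2 (h.len3 ▸ enc3_lt a), by
      rw [co0_x h, co1_x h, co2_x h]; rfl⟩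
  · exact List.mem_range.2 (show k < 6 from h2)
  · exact mem_ran.2 (h.lenh ▸ h3)

end Pool.Agent.P.MP_f1a348_lc.PG
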