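import Pool.Agent.P.MP_f1a348_lc.PG.QMain

/-!
Project PG: the main loop and the final check.
-/

namespace Pool.Agent.P.MP_f1a348_lc.PG

open Matrix Module

variable {p n : ℕ} [Fact p.Prime] {c : Cx}

namespace QRunx

theorem iter (h : Ok p n c) (m : Mth p n) (T0 T0' : V) (u : U) : ∀ z : Lt × List Rt, Sta p n z →
    Sta p n (u.foldl (fun z _ => mainStep c T0 T0' z) z) ∧
    Phi (lab n (u.foldl (fun z _ => mainStep c T0 T0' z) z).1.1)
      (alL p n (u.foldl (fun z _ => mainStep c T0 T0' z) z).1) ≤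
      Phi (lab n z.1.1) (alL p n z.1) - u.length ∧
    ((∃ y ∈ z.2, Inv p n T0 T0' z.1 y) → ∃ y ∈ (u.foldl (fun z _ => mainStep c T0 T0' z) z).2,
      Inv p n T0 T0' (u.foldl (fun z _ => mainStep c T0 T0' z) z).1 y) := by
  induction u with
  | nil => exact fun z hz => ⟨hz, le_rfl, id⟩
  | cons a u ih =>
    intro z hz
    obtain ⟨a1, a2, a3⟩ := h.mainStep m T0 T0' hz
    obtain ⟨b1, b2, b3⟩ := ih _ a1
    rw [List.foldl_cons, List.length_cons]
    exact ⟨b1, by omega, fun e => b3 (a3 e)⟩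

theorem str0 {B : Sub p n} (hB : ∀ g, g ∈ B ↔ Dg (l0 n) g) : Str (l0 n) B := by
  refine ⟨lab_l0, ⟨(hB _).2 Dg.one, fun a ha b hb => (hB _).2 (((hB _).1 ha).mul ((hB _).1 hb)),
    fun a ha => (hB _).2 (((hB _).1 ha).st lab_l0), fun a ha => (hB _).1 ha⟩, ?_⟩
  intro a x hx hx0 y hy
  obtain ⟨β, hβ⟩ := Function.ne_iff.1 hx0
  have hβ' : x β ≠ 0 := hβ
  refine ⟨Matrix.vecMulVec y (Pi.single β (x β)⁻¹), (hB _).2 fun γ δ e => ?_, ?_⟩
  · rw [Matrix.vecMulVec_apply] at e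
    have e1 : l0 n γ = l0 n a := by
      by_contra e1
      exact e (by rw [hy γ e1, zero_mul])
    have e2 : δ = β := by
      by_contra e2
      exact e (by rw [Pi.single_eq_of_ne e2, mul_zero])
    have e3 : l0 n β = l0 n a := by
      by_contra e3
      exact hβ' (hx β e3)
    rw [e1, e2, e3]
  · rw [Matrix.vecMulVec_mulVec, single_dotProduct, inv_mul_cancel₀ hβ']
    simp

theorem map_lm {B : Sub p n} (hB : ∀ g, g ∈ B ↔ Dg (l0 n) g) {f : Mat p n} (hf : Par (l0 n) f) :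
    B = B.map (lm f) := by
  ext g
  constructor
  · intro hg
    refine ⟨st f * g, (hB _).2 ((hf.1.dg_l0.st lab_l0).mul ((hB _).1 hg)), ?_⟩
    rw [lm_apply, ← mul_assoc, hf.2.1.mul_st, one_mul]
  · rintro ⟨b, hb, rfl⟩
    exact (hB _).2 (hf.1.dg_l0.mul ((hB _).1 hb))

theorem rounds (M : ℕ) : M * (2 + Nat.size M) ≤ M * (M + 1 + 1) := by
  have : Nat.size M ≤ M := Nat.size_le.2 Nat.lt_two_pow_self
  exact Nat.mul_le_mul_left _ (by omega)

/-- the central entry together with the matrix -/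
def ctr (p n : ℕ) : Mat p n →ₗ[ZMod p] ZMod p × Mat p n where
  toFun g := (g (c0 n) (c0 n), g)
  map_add' _ _ := rfl
  map_smul' _ _ := rfl

end QRunx

protected theorem Ok.run (h : Ok p n c) (m : Mth p n) (T0 T0' : V) :
    Sta p n (run c T0 T0') ∧ Phi (lab n (run c T0 T0').1.1) (alL p n (run c T0 T0').1) = 0 ∧
      ((∃ ψ, Par (l0 n) ψ ∧ pull1 ψ (fV p n T0') = fV p n T0) →
        ∃ y ∈ (run c T0 T0').2, Inv p n T0 T0' (run c T0 T0').1 y) := by
  have hs : Str (l0 n) (sp (mat p n) (b0P c)) := QRunx.str0 h.b0P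
  have hΦ := (m.cls _ _ hs).2.2.2.2.2
  have h0 : Sta p n ((l0P c, oneP c, b0P c), [(oneP c, b0P c)]) := by
    refine ⟨?_, ?_, ?_⟩
    · show Str (lab n (l0P c)) (sp (mat p n) (b0P c))
      rwa [h.l0P]
    · show Par (l0 n) (mV p n (oneP c))
      rw [h.oneP]
      exact Par.one
    · show 1 * p ^ (16 * tt n * Phi (lab n (l0P c)) (sp (mat p n) (b0P c))) ≤ p ^ bud n
      rw [one_mul, h.l0P, bud]
      exact Nat.pow_le_pow_right (Fact.out : p.Prime).pos (Nat.mul_le_mul_left _ hΦ)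
  obtain ⟨a1, a2, a3⟩ := QRunx.iter h m T0 T0' (mulU (u1 c) (() :: () :: u1 c)) _ h0
  refine ⟨a1, ?_, fun ⟨ψ, h1, h2⟩ => a3 ⟨_, List.mem_singleton_self _, ?_, ψ, ?_, ?_, ?_⟩⟩
  · have e : Phi (lab n (l0P c)) (sp (mat p n) (b0P c)) ≤
        (mulU (u1 c) (() :: () :: u1 c)).length := by
      rw [h.l0P, length_mulU, List.length_cons, List.length_cons, h.len1]
      exact hΦ.trans (QRunx.rounds _)
    exact Nat.le_zero.1 (a2.trans (Nat.sub_eq_zero_of_le e).le)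
  · show Par (l0 n) (mV p n (oneP c))
    rw [h.oneP]
    exact Par.one
  · show Par (lab n (l0P c)) ψ
    rwa [h.l0P]
  · show pull1 ψ (pull1 (mV p n (oneP c)) _) = pull1 (mV p n (oneP c)) _
    rw [h.oneP, pull1_one, pull1_one, h2]
  · show sp (mat p n) (b0P c) = (sp (mat p n) (b0P c)).map (lm (gr (lab n (l0P c)) ψ))
    rw [h.l0P]
    exact QRunx.map_lm h.b0P (h1.gr lab_l0)

protected theorem Ok.finP (h : Ok p n c) (m : Mth p n) (T0 T0' : V) {x : Lt} {y : Rt}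
    (h1 : Str (lab n x.1) (alL p n x)) (h2 : Par (l0 n) (mV p n x.2.1))
    (h3 : Phi (lab n x.1) (alL p n x) = 0) (h4 : Inv p n T0 T0' x y) :
    finP c T0 T0' x y = true := by
  obtain ⟨hy, φ, hφ, hT, hsp⟩ := h4
  have hB := (m.cls _ _ h1).2.2.2.1 h3
  rw [hB, Submodule.map_span, Set.image_singleton, lm_apply, mul_one] at hsp
  have hf : gr (lab n x.1) φ (c0 n) (c0 n) = 1 := (hφ.gr h1.lab).2.2
  have hL : sp (pl (mat p n)) (y.2.map fun g => ent c g (cz c) (cz c) :: g) =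
      (sp (mat p n) y.2).map (QRunx.ctr p n) := sp_map (QRunx.ctr p n) fun g _ => by
    rw [dv_pl_cons, h.cz]
    exact Prod.ext (h.mV_apply g (c0 n) (c0 n)).symm rfl
  have ha := aff_getD h.hp h.d2 (L := y.2.map fun g => ent c g (cz c) (cz c) :: g)
    (y := gr (lab n x.1) φ) (by
      rw [hL, hsp]
      exact ⟨_, Submodule.mem_span_singleton_self _, Prod.ext hf rfl⟩)
  rw [hL, hsp] at ha
  obtain ⟨g, hg, e⟩ := ha
  obtain ⟨a, rfl⟩ := Submodule.mem_span_singleton.1 hg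
  have e1 : a * gr (lab n x.1) φ (c0 n) (c0 n) = 1 := congrArg Prod.fst e
  rw [hf, mul_one] at e1
  have e2 : a • gr (lab n x.1) φ = _ := congrArg Prod.snd e
  rw [e1, one_smul] at e2
  have hc := (h.clim m h1.lab (pull1P c x.2.1 T0) (pull1P c y.1 T0') _ (u3 c).length).2.2 φ
    ⟨hφ, e2, by rw [h.pull1P, h.pull1P, hT, sub_self]; exact zero_mem _⟩
  have hp := hc.1
  rw [h.len3] at hc
  have he := hc.eq_top h1.lab
  rw [h.pull1P, h.pull1P, ← h.len3] at he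
  rw [PG.finP, h.chkP, h.mmul, h.mmul, h.mstar, pull1_mul, pull1_mul, he, h2.2.1.pull1_st]
  exact ⟨(hy.mul hp.l0).mul (h2.star lab_l0), rfl⟩

protected theorem Ok.engine (h : Ok p n c) (m : Mth p n) (T0 T0' : V) :
    engine c T0 T0' = true ↔ ∃ ψ, Par (l0 n) ψ ∧ pull1 ψ (fV p n T0') = fV p n T0 := by
  rw [PG.engine, List.any_eq_true]
  constructor
  · rintro ⟨y, -, hy⟩
    exact ⟨_, (h.chkP _ _ _).1 hy⟩
  · intro e
    obtain ⟨a1, a2, a3⟩ := h.run m T0 T0'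
    obtain ⟨y, hy, hi⟩ := a3 e
    exact ⟨y, hy, h.finP m T0 T0' a1.str a1.par a2 hi⟩

end Pool.Agent.P.MP_f1a348_lc.PG
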