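import Pool.Agent.P.MP_f1a348_lc.PG.QSide

/-!
Project PG: the list of tests.
-/

namespace Pool.Agent.P.MP_f1a348_lc.PG

open Matrix Module

variable {p n : ℕ} [Fact p.Prime] {c : Cx} {l : V} {s : Sd}

namespace QTestx

/-- `r ↦ st r *ᵥ y` -/
noncomputable def sv (y : Vec p n) : Mat p n →ₗ[ZMod p] Vec p n where
  toFun r := st r *ᵥ y
  map_add' a b := by rw [st_add, Matrix.add_mulVec]
  map_smul' k a := by rw [st_smul, Matrix.smul_mulVec, RingHom.id_apply]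

/-- `(k, r) ↦ st r *ᵥ y - k • y` -/
noncomputable def sw (y : Vec p n) : (ZMod p × Mat p n) →ₗ[ZMod p] Vec p n :=
  sv y ∘ₗ LinearMap.snd _ _ _ - (LinearMap.fst _ _ _).smulRight y

theorem nn (h : Ok p n c) (B : List V) (x : V) (b : Mat p n) :
    b ∈ sp (mat p n) (nnP c B x) ↔ NN (sp (mat p n) B) (vV p n x) b := by
  rw [nnP, mem_preAll h.hp h.d2 h.d2 B (fun a => LinearMap.mulLeft (ZMod p) (mV p n a))
    (fun a _ y => h.mmul a y), NN]
  refine and_congr_right fun _ => ?_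
  have k := mem_preim (L := B) (f := fun a => mvec c a x) h.hp h.d1 h.d2 (evx (vV p n x))
    (fun a _ => h.mvec a x) []
  simp only [sp_nil, Submodule.mem_bot] at k ⊢
  constructor
  · intro e a ha h0
    have : sp (mat p n) (preim c (u1 c) (u2 c) B (fun a => mvec c a x) []) ≤
        LinearMap.ker (LinearMap.mulRight (ZMod p) b) := sp_le.2 fun t ht => e t ht
    exact this ((k a).2 ⟨ha, h0⟩)
  · intro e t ht
    obtain ⟨h1, h2⟩ := (k _).1 (mem_sp ht)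
    exact e _ h1 h2

theorem emp (h : Ok p n c) (N : List V) (y : V) :
    (preim c (u1 c) (u2 c) N (fun r => mvec c (mstar c r) y) []).isEmpty = true ↔
      ∀ ρ ∈ sp (mat p n) N, st ρ *ᵥ vV p n y = 0 → ρ = 0 := by
  rw [(preim_bas (L := N) (f := fun r => mvec c (mstar c r) y) h.hp h.d1 h.d2 (sv (vV p n y))
    (fun a _ => (h.mvec _ y).trans (by rw [h.mstar]; rfl)) []).isEmpty, Submodule.eq_bot_iff]
  simp only [sp_nil, Submodule.mem_inf, Submodule.mem_comap, Submodule.mem_bot, and_imp]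
  rfl

theorem snd (h : Ok p n c) (N : List V) (y : V) (π : Mat p n) :
    ((1 : ZMod p), π) ∈ sp (pl (mat p n)) (preim c (u1 c) (() :: u2 c) ([1] :: N.map fun r => 0 :: r)
      (fun r => axpy c (u1 c) (ng c (r.getD 0 0)) y (mvec c (mstar c r.tail) y)) []) ↔
      π ∈ sp (mat p n) N ∧ st π *ᵥ vV p n y = vV p n y := by
  rw [mem_preim h.hp h.d1 h.d2.pl' (sw (vV p n y)) fun r _ => ?_, mem_sp_one_cons, sp_nil,
    Submodule.mem_bot]
  · refine and_congr_right fun _ => ?_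
    show st π *ᵥ vV p n y - (1 : ZMod p) • vV p n y = 0 ↔ _
    rw [one_smul, sub_eq_zero]
  · rw [dv_axpy h.hp h.d1, cast_ng h.hp, dv_pl, neg_smul, neg_add_eq_sub]
    have e := h.mvec (mstar c r.tail) y
    rw [h.mstar] at e
    exact congrArg (fun t => t - _) e

theorem cyc_sound (h : Ok p n c) {N : List V} {y π : V} (e : cycP c N y = some π) :
    mV p n π ∈ sp (mat p n) N ∧ st (mV p n π) *ᵥ vV p n y = vV p n y ∧
      ∀ ρ ∈ sp (mat p n) N, st ρ *ᵥ vV p n y = 0 → ρ = 0 := by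
  rw [cycP, Bool.cond_eq_ite] at e
  split_ifs at e with h1
  obtain ⟨h2, h3⟩ := (snd h N y _).1 (aff_some h.hp h.d2 e)
  exact ⟨h2, h3, (emp h N y).1 h1⟩

theorem cyc_complete (h : Ok p n c) {N : List V} {y : V} {π : Mat p n} (h1 : π ∈ sp (mat p n) N)
    (h2 : st π *ᵥ vV p n y = vV p n y)
    (h3 : ∀ ρ ∈ sp (mat p n) N, st ρ *ᵥ vV p n y = 0 → ρ = 0) :
    ∃ x, cycP c N y = some x ∧ mV p n x = π := by
  obtain ⟨x, hx⟩ := Option.isSome_iff_exists.1
    ((aff_isSome h.hp h.d2 _).2 ⟨π, (snd h N y π).2 ⟨h1, h2⟩⟩)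
  have e : cycP c N y = some x := by rw [cycP, (emp h N y).2 h3, cond_true, hx]
  obtain ⟨k1, k2, -⟩ := cyc_sound h e
  refine ⟨x, e, sub_eq_zero.1 (h3 _ (sub_mem k1 h1) ?_)⟩
  rw [st_sub, Matrix.sub_mulVec, k2, h2, sub_self]

theorem cond_iff (h : Ok p n c) (hs : Gd p n l s) (π : V) :
    (meq c (mmul c π π) π && isz c (u2 c) (mmul c π (mstar c π)) &&
      isz c (u2 c) (mmul c (mstar c π) π) && meq c (mmul c π (eoP c s)) π) = true ↔
    Iso (mV p n π) ∧ mV p n π * eo (lab n l) (sdD p n s).B = mV p n π := by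
  have e1 := h.mmul π (mstar c π)
  have e2 := h.mmul (mstar c π) π
  rw [h.mstar] at e1 e2
  rw [Bool.and_eq_true, Bool.and_eq_true, Bool.and_eq_true, h.meq, h.meq, isz_iff h.hp h.d2,
    isz_iff h.hp h.d2, h.mmul, h.mmul, h.eoP hs, Iso, and_assoc (a := _ = _)]
  exact and_congr_left fun _ => and_congr_right fun _ => by rw [← e1, ← e2]

theorem val (h : Ok p n c) (π : V) :
    mV p n (axpy c (u2 c) (ng c 2) (mstar c π) (axpy c (u2 c) (ng c 2) π (oneP c))) =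
      rf (mV p n π) := by
  rw [mV, dv_axpy h.hp h.d2, dv_axpy h.hp h.d2, cast_ng h.hp, rf, ← h.mstar, ← h.oneP, neg_smul,
    neg_smul, neg_add_eq_sub, neg_add_eq_sub, Nat.cast_ofNat]

end QTestx

protected theorem Ok.tests_sound (h : Ok p n c) (hs : Gd p n l s) {z : V}
    (hz : z ∈ testsP c l s) : Test (lab n l) (sdD p n s).B (mV p n z) := by
  rcases List.mem_cons.1 hz with rfl | hz
  · exact Or.inl (h.z0P hs)
  obtain ⟨x, hx, hz⟩ := List.mem_flatMap.1 hz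
  obtain ⟨y, -, hz⟩ := List.mem_filterMap.1 hz
  obtain ⟨π, h1, h2⟩ := Option.bind_eq_some_iff.1 hz
  obtain ⟨a, ha, h3⟩ := List.any_eq_true.1 (List.mem_filter.1 hx).2
  rw [mem_ran, h.len1] at ha
  obtain ⟨k1, k2, k3⟩ := QTestx.cyc_sound h h1
  rw [testOf, Bool.cond_eq_ite] at h2
  split_ifs at h2 with h4
  obtain ⟨k4, k5⟩ := (QTestx.cond_iff h hs π).1 h4
  refine Or.inr ⟨mV p n π, ⟨⟨a, ha⟩, vV p n x, vV p n y, (h.inB l ⟨a, ha⟩ x).1 h3,
    (QTestx.nn h _ x _).1 k1, k2, fun ρ hρ => k3 ρ ((QTestx.nn h _ x _).2 hρ)⟩, k4, k5, ?_⟩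
  rw [← Option.some.inj h2, QTestx.val h]

protected theorem Ok.tests_complete (h : Ok p n c) (hs : Gd p n l s) {z : Mat p n}
    (hz : Test (lab n l) (sdD p n s).B z) : ∃ x ∈ testsP c l s, mV p n x = z := by
  rcases hz with rfl | ⟨π, ⟨a, x, y, h1, h2, h3, h4⟩, h5, h6, rfl⟩
  · exact ⟨_, List.mem_cons_self, h.z0P hs⟩
  have hu : p ^ (u1 c).length ≤ c.2.2.length := h.pow_le' (by rw [h.len1]; omega)
  obtain ⟨x, hx, rfl⟩ := allV_surj h.hp h.d1 vec_surj hu x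
  obtain ⟨y, hy, rfl⟩ := allV_surj h.hp h.d1 vec_surj hu y
  obtain ⟨π, e, rfl⟩ := QTestx.cyc_complete h ((QTestx.nn h s.2.1 x π).2 h2) h3
    fun ρ hρ => h4 ρ ((QTestx.nn h _ x _).1 hρ)
  refine ⟨_, List.mem_cons_of_mem _ (List.mem_flatMap.2 ⟨x, List.mem_filter.2 ⟨hx,
    List.any_eq_true.2 ⟨a.val, mem_ran.2 (by rw [h.len1]; exact a.2), (h.inB l a x).2 h1⟩⟩,
    List.mem_filterMap.2 ⟨y, hy, ?_⟩⟩), QTestx.val h π⟩
  rw [e, Option.bind_some, testOf, (QTestx.cond_iff h hs π).2 ⟨h5, h6⟩, cond_true]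

end Pool.Agent.P.MP_f1a348_lc.PG
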